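import Pool.Agent.Lib.MP_80d0cf_nt.Up.Lev

-- part Pool.Agent.Lib.MP_80d0cf_nt.Up.HeavyB
section

/-! Removal of the heavy points, and the discrete large values estimate. -/

open Set MeasureTheory ComplexConjugate

namespace Pool.Agent.Lib.MP_80d0cf_nt.Up

namespace HeavyBAux

/-- a cell has at most `B` points -/
lemma cell_le (W : Finset ℤ) {B : ℕ} (hB : 1 ≤ B) (c : ℤ) :
    ((W.filter fun v => v / (B : ℤ) = c).card : ℝ) ≤ B := by
  have hB' : (0 : ℤ) < B := by exact_mod_cast hB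
  have h : (W.filter fun v => v / (B : ℤ) = c) ⊆ Finset.Ico (c * B) (c * B + B) := by
    intro v hv
    obtain ⟨-, rfl⟩ := Finset.mem_filter.1 hv
    refine Finset.mem_Ico.2 ⟨Int.ediv_mul_le v hB'.ne', ?_⟩
    have := Int.lt_ediv_add_one_mul_self v hB'
    linarith
  have h2 := Finset.card_le_card h
  rw [Int.card_Ico, add_sub_cancel_left, Int.toNat_natCast] at h2
  exact_mod_cast h2

/-- a window meets few cells -/
lemma window_le (W : Finset ℤ) {B : ℕ} (hB : 1 ≤ B) {n : ℝ} (hn : 0 ≤ n)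
    (h : ∀ v ∈ W, ((W.filter fun w => w / (B : ℤ) = v / B).card : ℝ) ≤ n) (u : ℤ) (P : ℕ) :
    ((W.filter fun v : ℤ => |(u : ℝ) - v| ≤ P).card : ℝ) ≤ (2 * P / B + 2) * n := by
  have hB' : (0 : ℤ) < B := by exact_mod_cast hB
  have hBr : (0 : ℝ) < B := by exact_mod_cast hB
  have h1 := Finset.card_eq_sum_card_fiberwise (f := fun v : ℤ => v / (B : ℤ))
    (s := W.filter fun v : ℤ => |(u : ℝ) - v| ≤ P)
    (t := Finset.Icc ((u - P) / (B : ℤ)) ((u + P) / (B : ℤ))) fun v hv => by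
      have h2 := abs_le.1 (Finset.mem_filter.1 (Finset.mem_coe.1 hv)).2
      have h3 : u - P ≤ v := by
        have : (u : ℝ) - P ≤ v := by linarith [h2.2]
        exact_mod_cast this
      have h4 : v ≤ u + P := by
        have : (v : ℝ) ≤ u + P := by linarith [h2.1]
        exact_mod_cast this
      exact Finset.mem_coe.2
        (Finset.mem_Icc.2 ⟨Int.ediv_le_ediv hB' h3, Int.ediv_le_ediv hB' h4⟩)
  rw [h1, Nat.cast_sum]
  refine (Finset.sum_le_card_nsmul _ _ n fun c _ => ?_).trans ?_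
  · rcases ((W.filter fun v : ℤ => |(u : ℝ) - v| ≤ P).filter
      fun v : ℤ => v / (B : ℤ) = c).eq_empty_or_nonempty with h0 | ⟨v, hv⟩
    · rw [h0]
      simpa using hn
    · obtain ⟨hv1, rfl⟩ := Finset.mem_filter.1 hv
      refine le_trans ?_ (h v (Finset.mem_filter.1 hv1).1)
      exact_mod_cast Finset.card_le_card
        (Finset.filter_subset_filter _ (Finset.filter_subset _ _))
  · rw [nsmul_eq_mul]
    refine mul_le_mul_of_nonneg_right ?_ hn
    have h5 := Int.ediv_mul_le (u + P) hB'.ne'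
    have h6 := Int.lt_ediv_add_one_mul_self (u - P) hB'
    have h7 : (u - P) / (B : ℤ) ≤ (u + P) / (B : ℤ) := Int.ediv_le_ediv hB' (by omega)
    have h8 := Int.card_Icc_of_le _ _ (show (u - P) / (B : ℤ) ≤ (u + P) / (B : ℤ) + 1 by omega)
    generalize (u - P) / (B : ℤ) = x at *
    generalize (u + P) / (B : ℤ) = y at *
    have h9 : (((Finset.Icc x y).card : ℕ) : ℝ) = y + 1 - x := by exact_mod_cast h8
    have h5' : (y : ℝ) * B ≤ u + P := by exact_mod_cast h5
    have h6' : (u : ℝ) - P < (x + 1) * B := by exact_mod_cast h6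
    have h10 : (y : ℝ) - x - 1 ≤ 2 * P / B := by
      rw [le_div_iff₀ hBr]
      linarith
    linarith

lemma log2_le {M K : ℕ} (hM : 1 ≤ M) (hK : M ≤ K) :
    ((Nat.log 2 M + 1 : ℕ) : ℝ) ≤ 3 * Real.log (K + 2) := by
  have h1 : ((2 : ℝ)) ^ Nat.log 2 M ≤ K + 2 := by
    have := (Nat.pow_log_le_self 2 (show M ≠ 0 by omega)).trans (hK.trans (Nat.le_add_right K 2))
    exact_mod_cast this
  have h2 := Real.log_le_log (by positivity) h1
  rw [Real.log_pow] at h2
  have h3 := one_le_log_add_two (x := K) (by exact_mod_cast hM.trans hK)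
  have h4 := Real.log_two_gt_d9
  have h5 : (0 : ℝ) ≤ Nat.log 2 M := Nat.cast_nonneg _
  push_cast
  nlinarith

lemma choose_le {P M B : ℕ} (hP : 1 ≤ P) (hM : 1 ≤ M) (h1 : B ≤ min P M) (h2 : min P M < 2 * B) :
    (2 * P / B + 2 : ℝ) * √B ≤ 9 * (√P + P / √M) := by
  have hB : (0 : ℝ) < B := by exact_mod_cast (show 0 < B by omega)
  have hP' : (0 : ℝ) < P := by exact_mod_cast hP
  have hM' : (0 : ℝ) < M := by exact_mod_cast hM
  have hs := Real.sqrt_pos.2 hB
  have hsP := Real.sqrt_pos.2 hP'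
  have hsM := Real.sqrt_pos.2 hM'
  have e1 : (2 * P / B + 2 : ℝ) * √B = 2 * (P / √B) + 2 * √B := by
    field_simp
    rw [Real.sq_sqrt hB.le, mul_comm]
  have h3 : √B ≤ √P := Real.sqrt_le_sqrt (by exact_mod_cast h1.trans (min_le_left _ _))
  have key : ∀ Q : ℝ, 0 < Q → Q ≤ 4 * B → P / √B ≤ 2 * (P / √Q) := fun Q hQ hQ' => by
    have h4 : √Q ≤ 2 * √B := by
      rw [Real.sqrt_le_iff, mul_pow, Real.sq_sqrt hB.le]
      exact ⟨by positivity, by linarith⟩
    have h5 := Real.sqrt_pos.2 hQ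
    rw [← mul_div_assoc, div_le_div_iff₀ hs h5]
    nlinarith
  have h6 : 0 ≤ P / √M := by positivity
  rw [e1]
  rcases le_total P M with h | h
  · rw [min_eq_left h] at h2
    have h7 : (P : ℝ) ≤ 4 * B := by exact_mod_cast (show P ≤ 4 * B by omega)
    have h8 := key P hP' h7
    rw [Real.div_sqrt] at h8
    linarith
  · rw [min_eq_right h] at h2
    have h7 : (M : ℝ) ≤ 4 * B := by exact_mod_cast (show M ≤ 4 * B by omega)
    have h8 := key M hM' h7
    linarith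

end HeavyBAux

open HeavyBAux

theorem heavy (h : HeavyAS) : HeavyS := by
  classical
  obtain ⟨C, K0, hC, h⟩ := h
  refine ⟨6 * C, K0, by positivity, ?_⟩
  intro K M ρ A Γ a W hK hM hMK hρ hρ1 hρA hA hAM hΓ ha hW hWc hl
  have hΓ0 : 0 < Γ := by linarith
  have hMK' : M ≤ K := (Nat.le_self_pow (by norm_num) M).trans hMK
  let Hv : ℕ → Finset ℤ := fun j => W.filter fun u =>
    Γ * √((2 ^ j : ℕ) : ℝ) ≤ ((W.filter fun v => v / ((2 ^ j : ℕ) : ℤ) = u / (2 ^ j : ℕ)).card : ℝ)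
  let J := Finset.range (Nat.log 2 M + 1)
  have hlog := one_le_log_add_two (x := K) (by exact_mod_cast hM.trans hMK')
  have hHv : ∀ j ∈ J, ((Hv j).card : ℝ) ≤ C * A ^ 4 * Real.log (K + 2) ^ 3 * √K * M * (2 / Γ) := by
    intro j hj
    have hB1 : 1 ≤ 2 ^ j := Nat.one_le_two_pow
    have hB0 : (0 : ℝ) < (2 ^ j : ℕ) := by exact_mod_cast hB1
    have hs := Real.sqrt_pos.2 hB0
    have hBM : 2 ^ j ≤ M := Nat.pow_le_of_le_log (by omega) (by
      have := Finset.mem_range.1 hj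
      omega)
    by_cases hc : Γ ≤ √((2 ^ j : ℕ) : ℝ)
    · refine (h K M (2 ^ j) ρ A (Γ * √((2 ^ j : ℕ) : ℝ)) a W hK hB1 hBM hMK hρ hρ1 hρA hA hAM
        (by positivity) ha hW hWc hl).trans (mul_le_mul_of_nonneg_left ?_ (by positivity))
      have h1 : Γ ≤ ((2 ^ j : ℕ) : ℝ) := by
        have := Real.mul_self_sqrt hB0.le
        nlinarith
      have h2 : 1 / ((2 ^ j : ℕ) : ℝ) ≤ 1 / Γ := one_div_le_one_div_of_le hΓ0 h1
      have h3 : √((2 ^ j : ℕ) : ℝ) / (Γ * √((2 ^ j : ℕ) : ℝ)) = 1 / Γ := by field_simp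
      rw [h3, show 2 / Γ = 1 / Γ + 1 / Γ by ring]
      linarith
    · have h0 : Hv j = ∅ := Finset.filter_eq_empty_iff.2 fun u _ hu => by
        have h1 := hu.trans (cell_le W hB1 _)
        have h2 := Real.mul_self_sqrt hB0.le
        nlinarith [not_le.1 hc]
      rw [h0, Finset.card_empty, Nat.cast_zero]
      positivity
  refine ⟨W \ J.biUnion Hv, Finset.sdiff_subset, ?_, fun P hP u _ => ?_⟩
  · have h1 : W.card ≤ (W \ J.biUnion Hv).card + ∑ j ∈ J, (Hv j).card :=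
      (Finset.card_le_card_sdiff_add_card (s := W) (t := J.biUnion Hv)).trans
        (Nat.add_le_add_left Finset.card_biUnion_le _)
    have h2 : (W.card : ℝ) ≤ (W \ J.biUnion Hv).card + ∑ j ∈ J, ((Hv j).card : ℝ) := by
      exact_mod_cast h1
    have h3 := Finset.sum_le_card_nsmul _ _ _ hHv
    rw [nsmul_eq_mul, Finset.card_range] at h3
    have h4 := mul_le_mul_of_nonneg_right (log2_le hM hMK')
      (show 0 ≤ C * A ^ 4 * Real.log (K + 2) ^ 3 * √K * M * (2 / Γ) by positivity)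
    have h5 : 3 * Real.log (K + 2) * (C * A ^ 4 * Real.log (K + 2) ^ 3 * √K * M * (2 / Γ)) =
        6 * C * A ^ 4 * Real.log (K + 2) ^ 4 * √K * M / Γ := by ring
    linarith
  · have hQ : min P M ≠ 0 := by omega
    have hj : Nat.log 2 (min P M) ∈ J :=
      Finset.mem_range.2 (Nat.lt_succ_of_le (Nat.log_mono_right (min_le_right _ _)))
    have h1 := Nat.pow_log_le_self 2 hQ
    have h2 := Nat.lt_pow_succ_log_self (b := 2) (by norm_num) (min P M)
    rw [pow_succ'] at h2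
    generalize Nat.log 2 (min P M) = j at hj h1 h2
    have h3 := window_le (W \ J.biUnion Hv) (B := 2 ^ j) Nat.one_le_two_pow
      (n := Γ * √((2 ^ j : ℕ) : ℝ)) (by positivity) (fun v hv => by
        obtain ⟨hv1, hv2⟩ := Finset.mem_sdiff.1 hv
        have hv3 : v ∉ Hv j := fun hh => hv2 (Finset.mem_biUnion.2 ⟨j, hj, hh⟩)
        have hv4 := not_le.1 fun hh => hv3 (Finset.mem_filter.2 ⟨hv1, hh⟩)
        refine le_trans ?_ hv4.le
        exact_mod_cast Finset.card_le_card (Finset.filter_subset_filter _ Finset.sdiff_subset)) u P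
    refine h3.trans ?_
    have h4 := mul_le_mul_of_nonneg_left (choose_le hP hM h1 h2) hΓ0.le
    linarith

theorem dhm (hc : CFS) (hf : F1S) (hh : HmS) : DhmS := by
  obtain ⟨C, hC, hf⟩ := hf
  refine ⟨48 * C + 480, by positivity, ?_⟩
  intro K M ρ l a W hM hMK hρ hρ1 hl ha hW hS hl2
  have hM' : (1 : ℝ) ≤ M := by exact_mod_cast hM
  have hK' : (1 : ℝ) ≤ K := by exact_mod_cast hM.trans hMK
  have hMK' : (M : ℝ) ≤ K := by exact_mod_cast hMK
  have hKM : (1 : ℝ) ≤ K * M := one_le_mul_of_one_le_of_one_le hK' hM'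
  have hlog := one_le_log_add_two hK'
  have hs : (1 : ℝ) ≤ √(K * M) := Real.one_le_sqrt.2 hKM
  have hρ2 : ρ ≤ 1 := by nlinarith
  have hU : ∀ u ∈ W, ∀ v ∈ W, |(u : ℝ) - v| ≤ K * M := fun u hu v hv => by
    have h1 : (0 : ℝ) ≤ u := by exact_mod_cast (hW u hu).1
    have h2 : (u : ℝ) < K * M := by exact_mod_cast (hW u hu).2
    have h3 : (0 : ℝ) ≤ v := by exact_mod_cast (hW v hv).1
    have h4 : (v : ℝ) < K * M := by exact_mod_cast (hW v hv).2
    exact abs_le.2 ⟨by linarith, by linarith⟩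
  have hD : ∀ w : ℝ, |w| ≤ K * M → ‖DD K ρ w‖ ≤ C * Real.log (K + 2) * K / (1 + |w|) +
      (2 * C * Real.log (K + 2) + 60 * √(K * M)) := fun w hw => by
    have h1 : ‖DD K ρ w‖ = ‖DD K ρ |w|‖ := by
      rcases abs_cases w with h | h
      · rw [h.1]
      · rw [h.1, DD_neg, Complex.norm_conj]
    have h2 := hf K M ρ |w| hM hMK hρ hρ2 (abs_nonneg _) (by nlinarith)
    have h3 := norm_Hp_le hc K M ρ |w|
    have h4 := norm_le_norm_add_norm_sub' (DD K ρ |w|) (Hp K M ρ |w|)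
    have h5 : C * Real.log (K + 2) * (K / (1 + |w|) + 1 + ρ * K * M) ≤
        C * Real.log (K + 2) * (K / (1 + |w|) + 2) :=
      mul_le_mul_of_nonneg_left (by linarith) (by positivity)
    have h6 : C * Real.log (K + 2) * (K / (1 + |w|) + 2) =
        C * Real.log (K + 2) * K / (1 + |w|) + 2 * C * Real.log (K + 2) := by ring
    linarith
  have key := hh (Finset.Ico K (2 * K)) (Finset.Icc 1 (4 * K)) (ok K) (yk K ρ) a W l
    (C * Real.log (K + 2) * K) (2 * C * Real.log (K + 2) + 60 * √(K * M)) (K * M) (4 * K)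
    (Ico_subset_Icc K) (fun k _ => ok_nonneg K k) (norm_le_ok ha) (sum_ok_le K) hl
    (by positivity) (by positivity) hS hU (fun u hu v hv => hD _ (hU u hu v hv)) (by
      refine le_trans ?_ hl2
      have h1 : C * Real.log (K + 2) ≤ C * Real.log (K + 2) * √(K * M) :=
        le_mul_of_one_le_right (by positivity) hs
      have h2 : √(K * M) ≤ √(K * M) * Real.log (K + 2) :=
        le_mul_of_one_le_right (by positivity) hlog
      have h3 : 0 ≤ C * Real.log (K + 2) * √(K * M) := by positivity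
      have h4 : 2 * 4 * (2 * C * Real.log (K + 2) + 60 * √(K * M)) ≤
          (48 * C + 480) * √(K * M) * Real.log (K + 2) := by linarith
      have h5 := mul_le_mul_of_nonneg_left h4 (show (0 : ℝ) ≤ K by positivity)
      linarith)
  refine key.trans (div_le_div_of_nonneg_right ?_ (by positivity))
  have h1 : Real.log (K * M + 1) ≤ 2 * Real.log (K + 2) := by
    have := Real.log_le_log (by positivity) (show (K : ℝ) * M + 1 ≤ (K + 2) ^ 2 by nlinarith)
    rwa [Real.log_pow, Nat.cast_ofNat] at this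
  have h2 : 4 * (4 * K) * (C * Real.log (K + 2) * K) * (1 + Real.log (K * M + 1)) ≤
      4 * (4 * K) * (C * Real.log (K + 2) * K) * (3 * Real.log (K + 2)) :=
    mul_le_mul_of_nonneg_left (by linarith) (by positivity)
  have h3 : 0 ≤ Real.log (K + 2) ^ 2 * (K : ℝ) ^ 2 := by positivity
  nlinarith

end Pool.Agent.Lib.MP_80d0cf_nt.Up
end

-- part Pool.Agent.Lib.MP_80d0cf_nt.Up.Mv
section

/-! The mean square bound for the level sets. -/

open Set MeasureTheory ComplexConjugate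

namespace Pool.Agent.Lib.MP_80d0cf_nt.Up

namespace MvAux

lemma XX_anti {k k' τ : ℝ} (hk' : 0 < k') (h : k' ≤ k) (hτ : 0 < τ) : XX k τ ≤ XX k' τ := by
  unfold XX
  gcongr

lemma XX_le {K T k τ : ℝ} (hK : 0 < K) (hKT : K ≤ T) (hk : K ≤ k) (hτ : τ ≤ 4 * T) :
    XX k τ ≤ 3 * (T / K) := by
  have hr : 1 ≤ T / K := (one_le_div hK).2 hKT
  have h1 : τ / k ≤ 4 * (T / K) := by
    rw [← mul_div_assoc]; exact div_le_div₀ (by linarith) hτ hK hk
  refine Real.sqrt_le_iff.2 ⟨by positivity, ?_⟩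
  nlinarith

lemma Lam_sub {K T k k' τ : ℝ} (hK : 0 < K) (hKT : K ≤ T) (hk' : K ≤ k') (h : k' ≤ k)
    (hk : k ≤ 2 * K) (h0 : 0 < τ) (hτ : τ ≤ 4 * T) :
    (k - k') / (12 * T) ≤ Lam k τ - Lam k' τ := by
  have hk'0 : 0 < k' := hK.trans_le hk'
  have hk0 : 0 < k := hk'0.trans_le h
  have hT : 0 < T := hK.trans_le hKT
  have a1 := half_lt_XX hk0 h0
  have a2 := XX_anti hk'0 h h0
  have a3 := XX_le hK hKT hk' hτ
  have s1 := XX_sq hk0 h0
  have s2 := XX_sq hk'0 h0
  rw [Lam, Lam]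
  generalize XX k τ = X at a1 a2 s1
  generalize XX k' τ = Y at a2 a3 s2
  have p1 : 0 < X - 1 / 2 := by linarith
  have p2 : 0 < Y - 1 / 2 := by linarith
  have p3 : 0 < X + 1 / 2 := by linarith
  have p4 : 0 < Y + 1 / 2 := by linarith
  rw [← Real.log_div (by positivity) (by positivity)]
  refine le_trans ?_ (Real.one_sub_inv_le_log_of_pos (by positivity))
  have e1 : 1 - ((X + 1 / 2) / (X - 1 / 2) / ((Y + 1 / 2) / (Y - 1 / 2)))⁻¹ =
      (Y - X) / ((X + 1 / 2) * (Y - 1 / 2)) := by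
    have e0 : Y - X = (X + 1 / 2) * (Y - 1 / 2) - (X - 1 / 2) * (Y + 1 / 2) := by ring
    rw [e0]
    generalize X + 1 / 2 = u at p3
    generalize X - 1 / 2 = v at p1
    generalize Y + 1 / 2 = w at p4
    generalize Y - 1 / 2 = y at p2
    field_simp
  have t1 : τ = k * (X ^ 2 - 1 / 4) := by rw [s1]; field_simp; ring
  have t2 : τ = k' * (Y ^ 2 - 1 / 4) := by rw [s2]; field_simp; ring
  have e2 : k * ((Y - X) * (Y + X)) = (k - k') * ((Y - 1 / 2) * (Y + 1 / 2)) := by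
    linear_combination t1 - t2
  have b1 : k * (Y + X) ≤ 12 * T := by
    calc k * (Y + X) ≤ 2 * K * (3 * (T / K) + 3 * (T / K)) :=
          mul_le_mul hk (by linarith) (by linarith) (by linarith)
      _ = 12 * T := by field_simp; norm_num
  rw [e1, div_le_div_iff₀ (by positivity) (by positivity)]
  have d0 : 0 ≤ k - k' := by linarith
  have d1 : 0 ≤ Y - X := by linarith
  calc (k - k') * ((X + 1 / 2) * (Y - 1 / 2)) ≤ (k - k') * ((Y + 1 / 2) * (Y - 1 / 2)) := by gcongr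
    _ = (Y - X) * (k * (Y + X)) := by linear_combination -e2
    _ ≤ (Y - X) * (12 * T) := by gcongr

lemma amp_mul {T B : ℝ} {u u1 v v1 : ℝ → ℂ} (hB : 0 ≤ B) (hT : 0 < T)
    (hu : Amp T (4 * T) B (B / T) u u1) (hv : Amp T (4 * T) B (B / T) v v1) :
    Amp T (4 * T) (B ^ 2) (2 * B ^ 2 / T) (fun x => u x * conj (v x))
      (fun x => u1 x * conj (v x) + u x * conj (v1 x)) where
  der x hx := (hu.der x hx).mul (hv.der x hx).star
  b0 x hx := by
    rw [norm_mul, Complex.norm_conj, sq]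
    exact mul_le_mul (hu.b0 x hx) (hv.b0 x hx) (norm_nonneg _) hB
  b1 x hx := by
    refine (norm_add_le _ _).trans ?_
    rw [norm_mul, norm_mul, Complex.norm_conj, Complex.norm_conj]
    have h1 := mul_le_mul (hu.b1 x hx) (hv.b0 x hx) (norm_nonneg _) (by positivity)
    have h2 := mul_le_mul (hu.b0 x hx) (hv.b1 x hx) (norm_nonneg _) hB
    calc _ ≤ B / T * B + B * (B / T) := add_le_add h1 h2
      _ = _ := by ring

lemma term_le (hf : Fd1S) {T B : ℝ} {K : ℕ} {a a1 : ℕ → ℝ → ℂ} (hK : 1 ≤ K) (hKT : (K : ℝ) ≤ T)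
    (hB : 0 ≤ B) (h : Fam T B K a a1) {k k' : ℕ} (hk : k ∈ Finset.Ico K (2 * K))
    (hk' : k' ∈ Finset.Ico K (2 * K)) :
    ‖∫ x in T..4 * T, a k x * conj (a k' x) * e (ff k x - ff k' x)‖ ≤
      (if k' = k then 3 * T * B ^ 2 else 0) + 120 * B ^ 2 * T * (1 / |(k : ℝ) - k'|) := by
  have hK0 : (0 : ℝ) < K := by exact_mod_cast hK
  have hT : 0 < T := hK0.trans_le hKT
  have hA := amp_mul hB hT (h k hk) (h k' hk')
  rw [Finset.mem_Ico] at hk hk'
  have k1 : (K : ℝ) ≤ k := by exact_mod_cast hk.1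
  have k2 : (k : ℝ) ≤ 2 * K := by exact_mod_cast hk.2.le
  have k1' : (K : ℝ) ≤ k' := by exact_mod_cast hk'.1
  have k2' : (k' : ℝ) ≤ 2 * K := by exact_mod_cast hk'.2.le
  have k0 := hK0.trans_le k1
  have k0' := hK0.trans_le k1'
  by_cases hkk : k' = k
  · rw [if_pos hkk]
    have h1 : ‖∫ x in T..4 * T, a k x * conj (a k' x) * e (ff k x - ff k' x)‖ ≤
        B ^ 2 * |4 * T - T| := by
      refine intervalIntegral.norm_integral_le_of_norm_le_const fun x hx => ?_
      rw [uIoc_of_le (by linarith)] at hx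
      rw [norm_mul, norm_e, mul_one]
      exact hA.b0 x ⟨hx.1.le, hx.2⟩
    rw [abs_of_pos (by linarith)] at h1
    have h2 : 0 ≤ 120 * B ^ 2 * T * (1 / |(k : ℝ) - k'|) := by positivity
    linarith
  rw [if_neg hkk, zero_add]
  have hne : (k : ℝ) - k' ≠ 0 := sub_ne_zero.2 (by exact_mod_cast Ne.symm hkk)
  have hd : 0 < |(k : ℝ) - k'| := abs_pos.2 hne
  have hx0 : ∀ x ∈ Icc T (4 * T), 0 < x := fun x hx => hT.trans_le hx.1
  have hP : Ph T (4 * T) (fun x => ff k x - ff k' x) (fun x => Lam k x - Lam k' x)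
      (fun x => -(1 / (2 * x * XX k x)) - -(1 / (2 * x * XX k' x))) :=
    ⟨fun x hx => (hasDerivAt_ff k0 (hx0 x hx)).sub (hasDerivAt_ff k0' (hx0 x hx)),
      fun x hx => (hasDerivAt_Lam k0 (hx0 x hx)).sub (hasDerivAt_Lam k0' (hx0 x hx))⟩
  have hm : ∀ {p q : ℝ}, 0 < q → q ≤ p → ∀ x ∈ Icc T (4 * T),
      1 / (2 * x * XX q x) ≤ 1 / (2 * x * XX p x) := by
    intro p q hq hqp x hx
    have h1 := hx0 x hx
    have h2 := half_lt_XX (hq.trans_le hqp) h1
    have h3 := XX_anti hq hqp h1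
    have h4 : 0 < XX p x := by linarith
    gcongr
  have key := hf T (4 * T) _ _ (|(k : ℝ) - k'| / (12 * T)) _ _ _ _ _ (by linarith) hA hP
    (by positivity) ?_ ?_
  · refine key.trans (le_of_eq ?_)
    field_simp
    ring
  · intro x hx
    rcases le_total (k' : ℝ) k with hle | hle
    · rw [abs_of_nonneg (by linarith)]
      exact (Lam_sub hK0 hKT k1' hle k2 (hx0 x hx) hx.2).trans (le_abs_self _)
    · rw [abs_sub_comm, abs_of_nonneg (by linarith), abs_sub_comm]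
      exact (Lam_sub hK0 hKT k1 hle k2' (hx0 x hx) hx.2).trans (le_abs_self _)
  · rcases le_total (k' : ℝ) k with hle | hle
    · exact Or.inr fun x hx => by linarith [hm k0' hle x hx]
    · exact Or.inl fun x hx => by linarith [hm k0 hle x hx]

lemma sum_inj {s : Finset ℕ} {K : ℕ} (f : ℕ → ℕ) (hi : InjOn f s)
    (hm : ∀ x ∈ s, f x ∈ Finset.Icc 1 K) :
    ∑ x ∈ s, 1 / (f x : ℝ) ≤ 1 + Real.log K := by
  refine le_trans ?_ (sum_inv_le K)
  rw [← Finset.sum_image (f := fun m : ℕ => 1 / (m : ℝ)) hi]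
  refine Finset.sum_le_sum_of_subset_of_nonneg (fun y hy => ?_) fun _ _ _ => by positivity
  obtain ⟨x, hx, rfl⟩ := Finset.mem_image.1 hy
  exact hm x hx

lemma sum_inv_abs {K k : ℕ} (hk : k ∈ Finset.Ico K (2 * K)) :
    ∑ k' ∈ Finset.Ico K (2 * K), 1 / |(k : ℝ) - k'| ≤ 2 * (1 + Real.log K) := by
  rw [Finset.mem_Ico] at hk
  have h1 := sum_inj (s := (Finset.Ico K (2 * K)).filter (· < k)) (K := K) (fun x => k - x)
    (fun x hx y hy hxy => by
      simp only [Finset.coe_filter, Finset.mem_Ico, mem_ofPred_eq] at hx hy hxy; omega)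
    (fun x hx => by simp only [Finset.mem_filter, Finset.mem_Ico, Finset.mem_Icc] at hx ⊢; omega)
  have h2 := sum_inj (s := (Finset.Ico K (2 * K)).filter (k < ·)) (K := K) (fun x => x - k)
    (fun x hx y hy hxy => by
      simp only [Finset.coe_filter, Finset.mem_Ico, mem_ofPred_eq] at hx hy hxy; omega)
    (fun x hx => by simp only [Finset.mem_filter, Finset.mem_Ico, Finset.mem_Icc] at hx ⊢; omega)
  rw [Finset.sum_filter] at h1 h2
  refine le_trans (le_of_eq ?_) ((add_le_add h1 h2).trans (le_of_eq (by ring)))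
  rw [← Finset.sum_add_distrib]
  refine Finset.sum_congr rfl fun x _ => ?_
  rcases lt_trichotomy x k with hx | rfl | hx
  · have : (x : ℝ) ≤ k := by exact_mod_cast hx.le
    rw [if_pos hx, if_neg (by omega), add_zero, Nat.cast_sub hx.le, abs_of_nonneg (by linarith)]
  · simp
  · have : (k : ℝ) ≤ x := by exact_mod_cast hx.le
    rw [if_neg (by omega), if_pos hx, zero_add, Nat.cast_sub hx.le, abs_sub_comm,
      abs_of_nonneg (by linarith)]

lemma cheb {a b l : ℝ} {F : ℝ → ℂ} (hab : a ≤ b) (hl : 0 < l) (hF : ContinuousOn F (Icc a b)) :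
    l ^ 2 * lev a b F l ≤ ‖∫ x in a..b, F x * conj (F x)‖ := by
  have hi : IntegrableOn (fun x => ‖F x‖ ^ 2) (Icc a b) := (hF.norm.pow 2).integrableOn_Icc
  have h1 := mul_meas_ge_le_integral_of_nonneg (μ := volume.restrict (Icc a b))
    (.of_forall fun x => sq_nonneg ‖F x‖) hi (l ^ 2)
  have e1 : (volume.restrict (Icc a b)).real {x | l ^ 2 ≤ ‖F x‖ ^ 2} = lev a b F l := by
    rw [measureReal_restrict_apply' measurableSet_Icc, lev]
    congr 1
    ext x
    simp only [mem_inter_iff, mem_ofPred_eq, sq_le_sq₀ hl.le (norm_nonneg _), and_comm]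
  have e2 : ∫ x in a..b, F x * conj (F x) = ((∫ x in a..b, ‖F x‖ ^ 2 : ℝ) : ℂ) := by
    rw [← intervalIntegral.integral_ofReal]
    refine intervalIntegral.integral_congr fun x _ => ?_
    simp only [Complex.mul_conj']
    push_cast; rfl
  rw [e2, Complex.norm_real, intervalIntegral.integral_of_le hab, ← integral_Icc_eq_integral_Ioc,
    ← e1]
  exact h1.trans (le_abs_self _)

end MvAux

open MvAux in
theorem mv (hf : Fd1S) : MvS := by
  refine ⟨483, by norm_num, fun T B l K a a1 hK hKT hB hl h => ?_⟩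
  have hK1 : (1 : ℝ) ≤ K := by exact_mod_cast hK
  have hT : 0 < T := by linarith
  have hTT : T ≤ 4 * T := by linarith
  have h1 := cheb hTT hl (continuousOn_SS hT h)
  have hc : ∀ k ∈ Finset.Ico K (2 * K), ∀ k' ∈ Finset.Ico K (2 * K), ContinuousOn
      (fun x => a k x * conj (a k' x) * e (ff k x - ff k' x)) (uIcc T (4 * T)) := by
    intro k hk k' hk' x hx
    rw [uIcc_of_le hTT] at hx ⊢
    have k0 : (0 : ℝ) < k := by
      rw [Finset.mem_Ico] at hk; exact_mod_cast (show 0 < k by omega)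
    have k0' : (0 : ℝ) < k' := by
      rw [Finset.mem_Ico] at hk'; exact_mod_cast (show 0 < k' by omega)
    have hx0 := hT.trans_le hx.1
    exact (((amp_mul hB hT (h k hk) (h k' hk')).der x hx).mul (hasDerivAt_e_comp
      ((hasDerivAt_ff k0 hx0).sub (hasDerivAt_ff k0' hx0)))).continuousAt.continuousWithinAt
  have e1 : ∫ x in T..4 * T, SS K a x * conj (SS K a x) = ∑ k ∈ Finset.Ico K (2 * K),
      ∑ k' ∈ Finset.Ico K (2 * K),
        ∫ x in T..4 * T, a k x * conj (a k' x) * e (ff k x - ff k' x) := by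
    have e2 : ∀ k ∈ Finset.Ico K (2 * K), ∑ k' ∈ Finset.Ico K (2 * K),
        ∫ x in T..4 * T, a k x * conj (a k' x) * e (ff k x - ff k' x) =
        ∫ x in T..4 * T, ∑ k' ∈ Finset.Ico K (2 * K),
          a k x * conj (a k' x) * e (ff k x - ff k' x) := fun k hk =>
      (intervalIntegral.integral_finsetSum fun k' hk' => (hc k hk k' hk').intervalIntegrable).symm
    rw [Finset.sum_congr rfl e2, ← intervalIntegral.integral_finsetSum fun k hk =>
      (continuousOn_finsetSum _ fun k' hk' => hc k hk k' hk').intervalIntegrable]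
    refine intervalIntegral.integral_congr fun x _ => ?_
    simp only [SS, map_sum, map_mul, Finset.sum_mul_sum, e_sub]
    refine Finset.sum_congr rfl fun k _ => Finset.sum_congr rfl fun k' _ => ?_
    ring
  have hL := one_le_log_add_two hK1
  have hL2 : Real.log K ≤ Real.log (K + 2) := Real.log_le_log (by linarith) (by linarith)
  have h2 : ‖∫ x in T..4 * T, SS K a x * conj (SS K a x)‖ ≤
      K * (483 * B ^ 2 * T * Real.log (K + 2)) := by
    rw [e1]
    refine (norm_sum_le _ _).trans ((Finset.sum_le_card_nsmul _ _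
      (483 * B ^ 2 * T * Real.log (K + 2)) fun k hk => ?_).trans ?_)
    · refine (norm_sum_le _ _).trans
        ((Finset.sum_le_sum fun k' hk' => term_le hf hK hKT hB h hk hk').trans ?_)
      rw [Finset.sum_add_distrib, Finset.sum_ite_eq', if_pos hk, ← Finset.mul_sum]
      have h3 : 0 ≤ B ^ 2 * T := by positivity
      have h4 := mul_le_mul_of_nonneg_left ((sum_inv_abs hk).trans
        (show _ ≤ 4 * Real.log (K + 2) by linarith)) h3
      have h5 := mul_le_mul_of_nonneg_left hL h3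
      linarith
    · rw [Nat.card_Ico, show 2 * K - K = K by omega, nsmul_eq_mul]
  rw [le_div_iff₀ (by positivity)]
  linarith

end Pool.Agent.Lib.MP_80d0cf_nt.Up
end

-- part Pool.Agent.Lib.MP_80d0cf_nt.Up.Grid
section

/-! Transfer from the measure of a level set to a count of lattice points. -/

open Set MeasureTheory

namespace Pool.Agent.Lib.MP_80d0cf_nt.Up

namespace GridAux

lemma inv_sqrt_bounds (x : ℝ) : 0 ≤ (√(1 + x ^ 2))⁻¹ - 1 + x ^ 2 / 2 ∧
    (√(1 + x ^ 2))⁻¹ - 1 + x ^ 2 / 2 ≤ x ^ 4 := by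
  have h1 : 1 ≤ √(1 + x ^ 2) := Real.le_sqrt_of_sq_le (by nlinarith [sq_nonneg x])
  have h2 : √(1 + x ^ 2) ^ 2 = 1 + x ^ 2 := Real.sq_sqrt (by positivity)
  generalize √(1 + x ^ 2) = s at h1 h2
  have h5 : x ^ 2 = s ^ 2 - 1 := by linarith
  have h3 : s⁻¹ - 1 + x ^ 2 / 2 = (s - 1) ^ 2 * ((s + 2) / (2 * s)) := by
    rw [h5]; field_simp; ring
  have h4 : x ^ 4 = (s - 1) ^ 2 * (s + 1) ^ 2 := by
    rw [show x ^ 4 = (x ^ 2) ^ 2 by ring, h5]; ring
  rw [h3, h4]
  refine ⟨by positivity, ?_⟩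
  gcongr
  rw [div_le_iff₀ (by positivity)]
  nlinarith [mul_nonneg (sub_nonneg.2 h1) (sq_nonneg s), sq_nonneg s]

lemma arsinh_taylor {x : ℝ} (hx : 0 ≤ x) : |Real.arsinh x - (x - x ^ 3 / 6)| ≤ x ^ 5 := by
  have h := (convex_Icc (0 : ℝ) x).norm_image_sub_le_of_norm_hasDerivWithin_le
    (f := fun t => Real.arsinh t - (t - t ^ 3 / 6))
    (f' := fun t => (√(1 + t ^ 2))⁻¹ - 1 + t ^ 2 / 2) (C := x ^ 4) (x := 0) (y := x)
    (fun t _ => by
      refine (((Real.hasDerivAt_arsinh t).sub ((hasDerivAt_id t).sub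
        ((hasDerivAt_pow 3 t).div_const 6))).congr_deriv ?_).hasDerivWithinAt
      norm_num; ring)
    (fun t ht => by
      rw [Real.norm_of_nonneg (inv_sqrt_bounds t).1]
      exact (inv_sqrt_bounds t).2.trans (pow_le_pow_left₀ ht.1 ht.2 4))
    (left_mem_Icc.2 hx) (right_mem_Icc.2 hx)
  simp only [Real.arsinh_zero, Real.norm_eq_abs, sub_zero, abs_of_nonneg hx] at h
  norm_num at h
  calc _ ≤ x ^ 4 * x := h
    _ = x ^ 5 := by ring

lemma arsinh_le {x : ℝ} (hx : 0 ≤ x) : Real.arsinh x ≤ x := by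
  have h := Real.arsinh_le_arsinh.2 (Real.self_le_sinh_iff.2 hx)
  rwa [Real.arsinh_sinh] at h

lemma sqrt_eq_XX {k u : ℝ} (hk : 0 < k) (hu : 0 < u) :
    √(1 + (√k / u / 2) ^ 2) = √k / u * XX k (u ^ 2) := by
  have hX := half_lt_XX hk (pow_pos hu 2)
  have hs := XX_sq hk (pow_pos hu 2)
  have hk2 : √k ^ 2 = k := Real.sq_sqrt hk.le
  have h : 1 + (√k / u / 2) ^ 2 = (√k / u * XX k (u ^ 2)) ^ 2 := by
    rw [mul_pow, hs, div_pow, div_pow, hk2]; field_simp; ring
  rw [h, Real.sqrt_sq (by have : 0 < XX k (u ^ 2) := by linarith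
                          positivity)]

lemma Lam_eq {k u : ℝ} (hk : 0 < k) (hu : 0 < u) :
    Lam k (u ^ 2) = 2 * Real.arsinh (√k / u / 2) := by
  have hX := half_lt_XX hk (pow_pos hu 2)
  have hs := XX_sq hk (pow_pos hu 2)
  have hk2 : √k ^ 2 = k := Real.sq_sqrt hk.le
  rw [Real.arsinh, sqrt_eq_XX hk hu, Lam]
  generalize XX k (u ^ 2) = X at hX hs
  have h : (X + 1 / 2) / (X - 1 / 2) = (√k / u / 2 + √k / u * X) ^ 2 := by
    have h1 : (√k / u / 2 + √k / u * X) ^ 2 = k / u ^ 2 * (X + 1 / 2) ^ 2 := by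
      rw [show √k / u / 2 + √k / u * X = √k / u * (X + 1 / 2) by ring, mul_pow, div_pow, hk2]
    have h2 : k / u ^ 2 * ((X + 1 / 2) * (X - 1 / 2)) = 1 := by
      rw [show (X + 1 / 2) * (X - 1 / 2) = X ^ 2 - 1 / 4 by ring, hs]; field_simp; ring
    rw [h1, div_eq_iff (by linarith)]
    linear_combination -(X + 1 / 2) * h2
  rw [h, Real.log_pow]; norm_num

lemma second_le {k u : ℝ} (hk : 0 < k) (hu : 0 < u) :
    |2 * Lam k (u ^ 2) - 2 / XX k (u ^ 2)| ≤ (√k / u) ^ 3 := by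
  have hX := half_lt_XX hk (pow_pos hu 2)
  have h0 := inv_XX_le_Lam hk (pow_pos hu 2)
  have hw : 0 < √k / u := div_pos (Real.sqrt_pos.2 hk) hu
  have h1 : Lam k (u ^ 2) ≤ √k / u := by
    rw [Lam_eq hk hu]; linarith [arsinh_le (x := √k / u / 2) (by positivity)]
  have h2 := (inv_sqrt_bounds (√k / u / 2)).1
  rw [sqrt_eq_XX hk hu] at h2
  generalize XX k (u ^ 2) = X at hX h0 h2
  generalize √k / u = w at hw h1 h2
  have hX0 : 0 < X := by linarith
  have h3 : w * (w * X)⁻¹ = 1 / X := by field_simp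
  have h4 := mul_nonneg hw.le h2
  have h5 : 2 / X = 2 * (1 / X) := by ring
  have h6 : 0 ≤ w ^ 3 := by positivity
  rw [h5, abs_of_nonneg (by linarith)]
  nlinarith

lemma hasDerivAt_g {k u : ℝ} (hk : 0 < k) (hu : 0 < u) :
    HasDerivAt (fun s => ff k (s ^ 2)) (2 * u * Lam k (u ^ 2)) u := by
  refine ((hasDerivAt_ff hk (pow_pos hu 2)).comp (h := fun s : ℝ => s ^ 2) u
    (hasDerivAt_pow 2 u)).congr_deriv ?_
  norm_num; ring

lemma hasDerivAt_g1 {k u : ℝ} (hk : 0 < k) (hu : 0 < u) :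
    HasDerivAt (fun s => 2 * s * Lam k (s ^ 2)) (2 * Lam k (u ^ 2) - 2 / XX k (u ^ 2)) u := by
  have hX := half_lt_XX hk (pow_pos hu 2)
  have h1 := (hasDerivAt_Lam hk (pow_pos hu 2)).comp (h := fun s : ℝ => s ^ 2) u
    (hasDerivAt_pow 2 u)
  refine (((hasDerivAt_id u).const_mul 2).mul h1).congr_deriv ?_
  have h0 : XX k (u ^ 2) ≠ 0 := by linarith
  simp only [id, Function.comp]
  norm_num
  field_simp
  ring

lemma phase {k u h : ℝ} (hk : 0 < k) (hu : 0 < u) (hh : 0 ≤ h) :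
    |ff k ((u + h) ^ 2) - ff k (u ^ 2) - h * (2 * √k - √k ^ 3 / (12 * u ^ 2))| ≤
      (√k / u) ^ 3 * h ^ 2 + h * u * (√k / u) ^ 5 := by
  have hk1 : 0 < √k := Real.sqrt_pos.2 hk
  have hle : u ≤ u + h := by linarith
  have h1 : ∀ s ∈ Icc u (u + h),
      ‖2 * s * Lam k (s ^ 2) - 2 * u * Lam k (u ^ 2)‖ ≤ (√k / u) ^ 3 * h := by
    intro s hs
    refine ((convex_Icc u (u + h)).norm_image_sub_le_of_norm_hasDerivWithin_le
      (f := fun s => 2 * s * Lam k (s ^ 2))
      (f' := fun s => 2 * Lam k (s ^ 2) - 2 / XX k (s ^ 2)) (C := (√k / u) ^ 3) (x := u) (y := s)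
      (fun t ht => (hasDerivAt_g1 hk (hu.trans_le ht.1)).hasDerivWithinAt)
      (fun t ht => (second_le hk (hu.trans_le ht.1)).trans ?_) (left_mem_Icc.2 hle) hs).trans ?_
    · have := hu.trans_le ht.1
      gcongr
      exact ht.1
    · rw [Real.norm_of_nonneg (by linarith [hs.1])]
      gcongr
      linarith [hs.2]
  have h2 := (convex_Icc u (u + h)).norm_image_sub_le_of_norm_hasDerivWithin_le
    (f := fun s => ff k (s ^ 2) - s * (2 * u * Lam k (u ^ 2)))
    (f' := fun s => 2 * s * Lam k (s ^ 2) - 2 * u * Lam k (u ^ 2)) (C := (√k / u) ^ 3 * h)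
    (x := u) (y := u + h)
    (fun t ht => (((hasDerivAt_g hk (hu.trans_le ht.1)).sub
      ((hasDerivAt_id t).mul_const (2 * u * Lam k (u ^ 2)))).congr_deriv
        (by ring)).hasDerivWithinAt)
    h1 (left_mem_Icc.2 hle) (right_mem_Icc.2 hle)
  rw [add_sub_cancel_left, Real.norm_of_nonneg hh, Real.norm_eq_abs] at h2
  have h3 := arsinh_taylor (x := √k / u / 2) (by positivity)
  have h4 : ff k ((u + h) ^ 2) - ff k (u ^ 2) - h * (2 * √k - √k ^ 3 / (12 * u ^ 2)) =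
      (ff k ((u + h) ^ 2) - (u + h) * (2 * u * Lam k (u ^ 2)) -
        (ff k (u ^ 2) - u * (2 * u * Lam k (u ^ 2)))) +
      4 * h * u * (Real.arsinh (√k / u / 2) - (√k / u / 2 - (√k / u / 2) ^ 3 / 6)) := by
    rw [Lam_eq hk hu]; field_simp; ring
  rw [h4]
  refine (abs_add_le _ _).trans (add_le_add (h2.trans (le_of_eq (by ring))) ?_)
  rw [abs_mul, abs_of_nonneg (by positivity : 0 ≤ 4 * h * u)]
  calc _ ≤ 4 * h * u * (√k / u / 2) ^ 5 := by gcongr
    _ = h * u * (√k / u) ^ 5 / 8 := by ring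
    _ ≤ _ := by
      have : 0 ≤ h * u * (√k / u) ^ 5 := by positivity
      linarith

lemma vol_image_le {f : ℝ → ℝ} {s : Set ℝ} {L : ℝ} (hL : 0 ≤ L)
    (h : ∀ x ∈ s, ∀ y ∈ s, |f x - f y| ≤ L * |x - y|) :
    volume (f '' s) ≤ ENNReal.ofReal L * volume s := by
  have h1 : LipschitzOnWith L.toNNReal f s := LipschitzOnWith.of_dist_le_mul fun x hx y hy => by
    rw [Real.coe_toNNReal _ hL, Real.dist_eq, Real.dist_eq]; exact h x hx y hy
  have h2 := h1.hausdorffMeasure_image_le (d := 1) zero_le_one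
  rwa [hausdorffMeasure_real, ENNReal.rpow_one] at h2

open Classical in
lemma vol_le_count {V : Set ℝ} (hV : MeasurableSet V) (N : ℕ) (hsub : V ⊆ Ico 0 (N : ℝ)) {c : ℝ}
    (h : ∀ θ ∈ Ico (0 : ℝ) 1,
      ((((Finset.range N).filter fun n : ℕ => (n : ℝ) + θ ∈ V).card : ℕ) : ℝ) ≤ c) :
    volume V ≤ ENNReal.ofReal c := by
  have hm : ∀ n : ℕ, MeasurableSet ((fun θ : ℝ => (n : ℝ) + θ) ⁻¹' V) := fun n =>
    (measurable_const_add _) hV
  have h1 : V ⊆ ⋃ n ∈ Finset.range N, V ∩ Ico (n : ℝ) (n + 1) := by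
    intro v hv
    obtain ⟨h0, hN⟩ := hsub hv
    simp only [mem_iUnion]
    exact ⟨⌊v⌋₊, Finset.mem_range.2 ((Nat.floor_lt h0).2 hN), hv, Nat.floor_le h0,
      Nat.lt_floor_add_one v⟩
  have h2 : ∀ n : ℕ, volume (V ∩ Ico (n : ℝ) (n + 1)) =
      ∫⁻ θ in Ico (0 : ℝ) 1, ((fun θ : ℝ => (n : ℝ) + θ) ⁻¹' V).indicator 1 θ := by
    intro n
    rw [lintegral_indicator_one (hm n), Measure.restrict_apply (hm n),
      ← measure_preimage_add volume (n : ℝ) (V ∩ Ico (n : ℝ) (n + 1)), preimage_inter,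
      preimage_const_add_Ico]
    simp
  calc volume V ≤ ∑ n ∈ Finset.range N, volume (V ∩ Ico (n : ℝ) (n + 1)) :=
        (measure_mono h1).trans (measure_biUnion_finset_le _ _)
    _ = ∫⁻ θ in Ico (0 : ℝ) 1,
          ∑ n ∈ Finset.range N, ((fun θ : ℝ => (n : ℝ) + θ) ⁻¹' V).indicator 1 θ := by
        rw [lintegral_finsetSum _ fun n _ => measurable_one.indicator (hm n)]
        exact Finset.sum_congr rfl fun n _ => h2 n
    _ ≤ ∫⁻ _θ in Ico (0 : ℝ) 1, ENNReal.ofReal c := by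
        refine setLIntegral_mono measurable_const fun θ hθ => ?_
        refine le_trans (le_of_eq ?_) (ENNReal.ofReal_le_ofReal (h θ hθ))
        rw [ENNReal.ofReal_natCast, Finset.card_filter, Nat.cast_sum]
        refine Finset.sum_congr rfl fun n _ => ?_
        by_cases hn : (n : ℝ) + θ ∈ V <;> simp [indicator, hn]
    _ = ENNReal.ofReal c := by simp

open Classical in
lemma card_split (p : ℕ → Prop) (P : ℕ) {R : ℝ} (J : ℕ)
    (h : ∀ j, ((((Finset.range P).filter fun w => p (j * P + w)).card : ℕ) : ℝ) ≤ R) :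
    ((((Finset.range (J * P)).filter p).card : ℕ) : ℝ) ≤ J * R := by
  induction J with
  | zero => simp
  | succ n ih =>
    have h1 := h n
    rw [Finset.card_filter] at ih h1 ⊢
    rw [Nat.succ_mul, Finset.sum_range_add]
    push_cast at ih h1 ⊢
    linarith

/-- the error in one term -/
lemma term_le {T B u w : ℝ} {K M k : ℕ} {a a1 : ℝ → ℂ} (hK : 1 ≤ K) (hT : (K : ℝ) ≤ T)
    (hB : 1 ≤ B) (ha : Amp T (4 * T) B (B / T) a a1) (hk : k ∈ Finset.Ico K (2 * K))
    (hu : √T ≤ u) (hw : 0 ≤ w) (hwM : w ≤ K * M) (hu2 : u + w / (16 * √K) ≤ 2 * √T) :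
    ‖a ((u + w / (16 * √K)) ^ 2) * e (ff k ((u + w / (16 * √K)) ^ 2)) -
      a (u ^ 2) * e (ff k (u ^ 2)) * e (w * yk K (K / (24 * u ^ 2)) k)‖ ≤
      8 * B * (M * √(K / T) + K * (M : ℝ) ^ 2 * √(K / T) ^ 3 + (K : ℝ) ^ 3 * M / T ^ 2) := by
  rw [Finset.mem_Ico] at hk
  have hK0 : (0 : ℝ) < K := by exact_mod_cast hK
  have hk0 : (0 : ℝ) < k := by exact_mod_cast (show 0 < k by omega)
  have hk2 : (k : ℝ) ≤ 2 * K := by exact_mod_cast hk.2.le
  have hT0 : 0 < T := hK0.trans_le hT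
  have hsK : 0 < √(K : ℝ) := Real.sqrt_pos.2 hK0
  have hsT : 0 < √T := Real.sqrt_pos.2 hT0
  have hsk : 0 < √(k : ℝ) := Real.sqrt_pos.2 hk0
  have hK2 : √(K : ℝ) ^ 2 = K := Real.sq_sqrt hK0.le
  have hT2 : √T ^ 2 = T := Real.sq_sqrt hT0.le
  have hu0 : 0 < u := hsT.trans_le hu
  have hkK : √(k : ℝ) ≤ 3 / 2 * √(K : ℝ) :=
    Real.sqrt_le_iff.2 ⟨by positivity, by rw [mul_pow, hK2]; linarith⟩
  have hy : w * yk K (K / (24 * u ^ 2)) k =
      w / (16 * √K) * (2 * √(k : ℝ) - √(k : ℝ) ^ 3 / (12 * u ^ 2)) := by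
    rw [yk, zk, Real.sqrt_div hk0.le]
    generalize √(K : ℝ) = s at hsK hK2
    rw [← hK2]; field_simp; ring
  rw [hy, Real.sqrt_div hK0.le]
  have hh : 0 ≤ w / (16 * √(K : ℝ)) := by positivity
  have hhM : w / (16 * √(K : ℝ)) ≤ √(K : ℝ) * M / 16 := by
    rw [div_le_iff₀ (by positivity)]
    calc w ≤ √(K : ℝ) ^ 2 * M := by rwa [hK2]
      _ = _ := by ring
  generalize w / (16 * √(K : ℝ)) = h at hh hhM hu2
  have hm : ∀ s, u ≤ s → s ≤ u + h → s ^ 2 ∈ Icc T (4 * T) := fun s h1 h2 =>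
    ⟨hT2 ▸ pow_le_pow_left₀ hsT.le (hu.trans h1) 2, by
      calc s ^ 2 ≤ (2 * √T) ^ 2 := pow_le_pow_left₀ (hu0.le.trans h1) (h2.trans hu2) 2
        _ = 4 * T := by rw [mul_pow, hT2]; norm_num⟩
  have hm0 := hm u le_rfl (by linarith)
  have hm1 := hm (u + h) (by linarith) le_rfl
  have h1 := (convex_Icc T (4 * T)).norm_image_sub_le_of_norm_hasDerivWithin_le
    (fun t ht => (ha.der t ht).hasDerivWithinAt) ha.b1 hm0 hm1
  have h1' : ‖a ((u + h) ^ 2) - a (u ^ 2)‖ ≤ 8 * B * (M * (√(K : ℝ) / √T)) := by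
    refine h1.trans ?_
    rw [show (u + h) ^ 2 - u ^ 2 = h * (u + (u + h)) by ring, Real.norm_of_nonneg (by positivity)]
    calc B / T * (h * (u + (u + h))) ≤ B / T * (√(K : ℝ) * M / 16 * (2 * √T + 2 * √T)) := by
          gcongr; linarith
      _ = B * (M * (√(K : ℝ) / √T)) / 4 := by
          generalize √T = s at hsT hT2
          rw [← hT2]; field_simp; ring
      _ ≤ _ := by
          have : 0 ≤ B * (M * (√(K : ℝ) / √T)) := by positivity
          linarith
  have h2 := phase hk0 hu0 hh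
  have h3 : (√(k : ℝ) / u) ^ 3 * h ^ 2 ≤ K * (M : ℝ) ^ 2 * (√(K : ℝ) / √T) ^ 3 := by
    calc _ ≤ (3 / 2 * √(K : ℝ) / √T) ^ 3 * (√(K : ℝ) * M / 16) ^ 2 := by gcongr
      _ = √(K : ℝ) ^ 2 * (M : ℝ) ^ 2 * (√(K : ℝ) / √T) ^ 3 * (27 / 2048) := by ring
      _ ≤ _ := by
        rw [hK2]
        have : 0 ≤ K * (M : ℝ) ^ 2 * (√(K : ℝ) / √T) ^ 3 := by positivity
        linarith
  have h4 : h * u * (√(k : ℝ) / u) ^ 5 ≤ (K : ℝ) ^ 3 * M / T ^ 2 := by
    calc _ = h * (√(k : ℝ) ^ 5 / u ^ 4) := by field_simp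
      _ ≤ √(K : ℝ) * M / 16 * ((3 / 2 * √(K : ℝ)) ^ 5 / √T ^ 4) := by gcongr
      _ = (√(K : ℝ) ^ 2) ^ 3 * M / (√T ^ 2) ^ 2 * (243 / 512) := by ring
      _ ≤ _ := by
        rw [hK2, hT2]
        have : 0 ≤ (K : ℝ) ^ 3 * M / T ^ 2 := by positivity
        linarith
  generalize h * (2 * √(k : ℝ) - √(k : ℝ) ^ 3 / (12 * u ^ 2)) = y at h2
  have h5 : a ((u + h) ^ 2) * e (ff k ((u + h) ^ 2)) - a (u ^ 2) * e (ff k (u ^ 2)) * e y =
      (a ((u + h) ^ 2) - a (u ^ 2)) * e (ff k ((u + h) ^ 2)) +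
        a (u ^ 2) * (e (ff k ((u + h) ^ 2)) - e (ff k (u ^ 2) + y)) := by
    rw [e_add]; ring
  have h6 : ‖e (ff k ((u + h) ^ 2)) - e (ff k (u ^ 2) + y)‖ ≤
      8 * (K * (M : ℝ) ^ 2 * (√(K : ℝ) / √T) ^ 3 + (K : ℝ) ^ 3 * M / T ^ 2) := by
    refine (norm_e_sub_e_le _ _).trans ?_
    rw [← sub_sub]
    gcongr
    · linarith [Real.pi_le_four]
    · linarith
  rw [h5]
  refine (norm_add_le _ _).trans ?_
  rw [norm_mul, norm_mul, norm_e, mul_one]
  have h7 := mul_le_mul (ha.b0 _ hm0) h6 (norm_nonneg _) (by linarith)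
  linarith

end GridAux

open GridAux Classical in
theorem grid : GridS := by
  refine ⟨16, by norm_num, fun T B l R K M a a1 hK hT hM hB hR ha hl hW => ?_⟩
  have hK0 : (0 : ℝ) < K := by exact_mod_cast hK
  have hM0 : (0 : ℝ) < M := by exact_mod_cast hM
  have hT0 : 0 < T := hK0.trans_le hT
  have hB0 : 0 < B := by linarith
  have hsK : 0 < √(K : ℝ) := Real.sqrt_pos.2 hK0
  have hsT : 0 < √T := Real.sqrt_pos.2 hT0
  have hK2 : √(K : ℝ) ^ 2 = K := Real.sq_sqrt hK0.le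
  have hT2 : √T ^ 2 = T := Real.sq_sqrt hT0.le
  set φ : ℝ → ℝ := fun v => (√T + v / (16 * √K)) ^ 2 with hφ
  set V0 : ℝ := 16 * √K * √T with hV0
  have hu : ∀ v ∈ Icc 0 V0, √T ≤ √T + v / (16 * √K) ∧ √T + v / (16 * √K) ≤ 2 * √T := by
    intro v hv
    have h1 : 0 ≤ v / (16 * √K) := div_nonneg hv.1 (by positivity)
    have h2 : v / (16 * √K) ≤ √T := by
      rw [div_le_iff₀ (by positivity)]; linarith [hv.2]
    constructor <;> linarith
  have hmap : ∀ v ∈ Icc 0 V0, φ v ∈ Icc T (4 * T) := fun v hv =>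
    ⟨hT2 ▸ pow_le_pow_left₀ hsT.le (hu v hv).1 2, by
      calc φ v ≤ (2 * √T) ^ 2 := pow_le_pow_left₀ (hsT.le.trans (hu v hv).1) (hu v hv).2 2
        _ = 4 * T := by rw [mul_pow, hT2]; norm_num⟩
  set V : Set ℝ := {v | v ∈ Icc 0 V0 ∧ l ≤ ‖SS K a (φ v)‖} with hV
  have hVm : MeasurableSet V :=
    (isClosed_levSet (F := fun v => SS K a (φ v))
      ((continuousOn_SS hT0 ha).comp (by rw [hφ]; fun_prop) hmap)).measurableSet
  have hA : {τ | τ ∈ Icc T (4 * T) ∧ l ≤ ‖SS K a τ‖} ⊆ φ '' V := by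
    rintro τ ⟨hτ, hτl⟩
    have h1 : √T ≤ √τ := Real.sqrt_le_sqrt hτ.1
    have h2 : √τ ≤ 2 * √T :=
      Real.sqrt_le_iff.2 ⟨by positivity, by rw [mul_pow, hT2]; linarith [hτ.2]⟩
    have h3 : φ (16 * √K * (√τ - √T)) = τ := by
      simp only [hφ]
      rw [mul_div_cancel_left₀ _ (by positivity), add_sub_cancel,
        Real.sq_sqrt (hT0.le.trans hτ.1)]
    refine ⟨_, ⟨⟨mul_nonneg (by positivity) (by linarith), ?_⟩, by rwa [h3]⟩, h3⟩
    rw [hV0]; gcongr; linarith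
  have hLip : ∀ x ∈ V, ∀ y ∈ V, |φ x - φ y| ≤ √T / (4 * √K) * |x - y| := by
    intro x hx y hy
    have h1 := hu x hx.1
    have h2 := hu y hy.1
    have h3 : φ x - φ y =
        ((√T + x / (16 * √K)) + (√T + y / (16 * √K))) / (16 * √K) * (x - y) := by
      simp only [hφ]; field_simp; ring
    rw [h3, abs_mul, abs_of_nonneg (div_nonneg (by linarith) (by positivity))]
    refine mul_le_mul_of_nonneg_right ?_ (abs_nonneg _)
    rw [show √T / (4 * √(K : ℝ)) = (4 * √T) / (16 * √(K : ℝ)) by field_simp; ring]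
    exact div_le_div_of_nonneg_right (by linarith) (by positivity)
  set J : ℕ := ⌊V0 / (K * M)⌋₊ + 1 with hJ
  have hJ1 : V0 < J * (K * M) := by
    rw [← div_lt_iff₀ (by positivity), hJ]; push_cast; exact Nat.lt_floor_add_one _
  have hJ2 : (J : ℝ) ≤ V0 / (K * M) + 1 := by
    rw [hJ]; push_cast; linarith [Nat.floor_le (show 0 ≤ V0 / (K * M) by positivity)]
  have hvol : volume V ≤ ENNReal.ofReal (J * R) := by
    refine vol_le_count hVm (J * (K * M)) (fun v hv => ⟨hv.1.1, ?_⟩) fun θ hθ => ?_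
    · push_cast; exact hv.1.2.trans_lt hJ1
    refine card_split (fun n : ℕ => (n : ℝ) + θ ∈ V) (K * M) J fun j => ?_
    suffices key : ∀ (S : Finset ℕ) (v0 : ℝ), 0 ≤ v0 → (∀ w ∈ S, w < K * M ∧ v0 + w ∈ V) →
        (S.card : ℝ) ≤ R by
      refine key _ ((j * (K * M) : ℕ) + θ) (add_nonneg (Nat.cast_nonneg _) hθ.1) fun w hw => ?_
      simp only [Finset.mem_filter, Finset.mem_range, Nat.cast_add] at hw
      exact ⟨hw.1, by rw [add_right_comm]; exact hw.2⟩
    intro S v0 hv00 hSw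
    rcases S.eq_empty_or_nonempty with h0 | ⟨w0, hw0⟩
    · rw [h0]; simpa using hR
    have hv0m : v0 ∈ Icc 0 V0 :=
      ⟨hv00, by linarith [(hSw w0 hw0).2.1.2, (Nat.cast_nonneg w0 : (0 : ℝ) ≤ w0)]⟩
    set u : ℝ := √T + v0 / (16 * √K) with hu0
    have hτ0 : u ^ 2 ∈ Icc T (4 * T) := hmap v0 hv0m
    have hup : 0 < u ^ 2 := hT0.trans_le hτ0.1
    rw [← Finset.card_image_of_injective S (Nat.cast_injective (R := ℤ))]
    refine hW (K / (24 * u ^ 2))
      (fun k => if k ∈ Finset.Ico K (2 * K) then a k (u ^ 2) * e (ff k (u ^ 2)) / B else 0) _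
      (by positivity) (by gcongr; exact hτ0.1) (fun k => ?_) (fun z hz => ?_) (fun z hz => ?_)
    · split_ifs with hk
      · rw [norm_div, norm_mul, norm_e, mul_one, Complex.norm_real, Real.norm_of_nonneg hB0.le,
          div_le_one hB0]
        exact (ha k hk).b0 _ hτ0
      · simp
    · obtain ⟨w, hw, rfl⟩ := Finset.mem_image.1 hz
      exact ⟨Int.natCast_nonneg w, by exact_mod_cast (hSw w hw).1⟩
    obtain ⟨w, hw, rfl⟩ := Finset.mem_image.1 hz
    obtain ⟨hw1, hw2, hw3⟩ := hSw w hw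
    have hφw : √T + (v0 + w) / (16 * √K) = u + w / (16 * √K) := by rw [hu0]; ring
    have hb := (hu _ hw2).2
    simp only [hφ] at hw3
    rw [hφw] at hb hw3
    rw [Int.cast_natCast, div_le_iff₀ (by positivity)]
    set Z := SK K (K / (24 * u ^ 2))
      (fun k => if k ∈ Finset.Ico K (2 * K) then a k (u ^ 2) * e (ff k (u ^ 2)) / B else 0) w
      with hZ
    have hE : ‖SS K a ((u + w / (16 * √K)) ^ 2) - B * Z‖ ≤ l / 2 := by
      rw [hZ, SS, SK, Sk, Finset.mul_sum, ← Finset.sum_sub_distrib]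
      refine (norm_sum_le _ _).trans ((Finset.sum_le_card_nsmul _ _
        (8 * B * (M * √(K / T) + K * (M : ℝ) ^ 2 * √(K / T) ^ 3 + (K : ℝ) ^ 3 * M / T ^ 2))
        fun k hk => ?_).trans ?_)
      · refine le_trans (le_of_eq ?_) (term_le hK hT hB (ha k hk) hk (hu v0 hv0m).1
          (Nat.cast_nonneg w) (by exact_mod_cast hw1.le) hb)
        have hB1 : (B : ℂ) ≠ 0 := by exact_mod_cast hB0.ne'
        rw [if_pos hk, ← mul_assoc, mul_div_cancel₀ _ hB1]
      · rw [Nat.card_Ico, show 2 * K - K = K by omega, nsmul_eq_mul]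
        refine le_trans (le_of_eq ?_) (div_le_div_of_nonneg_right hl two_pos.le)
        ring
    have h1 := norm_le_insert' (SS K a ((u + w / (16 * √K)) ^ 2)) (B * Z)
    rw [norm_mul, Complex.norm_real, Real.norm_of_nonneg hB0.le] at h1
    linarith
  have hL0 : 0 ≤ √T / (4 * √(K : ℝ)) := by positivity
  have hfin := ((measure_mono hA).trans (vol_image_le hL0 hLip)).trans
    (mul_le_mul_right hvol _)
  rw [← ENNReal.ofReal_mul hL0] at hfin
  refine (ENNReal.toReal_le_of_le_ofReal (by positivity) hfin).trans ?_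
  rw [← mul_assoc, Real.sqrt_div hT0.le]
  refine mul_le_mul_of_nonneg_right ?_ hR
  calc √T / (4 * √(K : ℝ)) * J ≤ √T / (4 * √(K : ℝ)) * (V0 / (K * M) + 1) := by gcongr
    _ = 4 * (√T ^ 2 / (K * M)) + √T / √(K : ℝ) / 4 := by rw [hV0]; field_simp; ring
    _ ≤ _ := by
      rw [hT2]
      have h1 : 0 ≤ T / (K * M) := by positivity
      have h2 : 0 ≤ √T / √(K : ℝ) := by positivity
      linarith

end Pool.Agent.Lib.MP_80d0cf_nt.Up
end
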