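import Pool.Agent.Lib.MP_80d0cf_nt.Up.Lev

-- part Pool.Agent.Lib.MP_80d0cf_nt.Up.YSpec
section

/-! Statements for the twelfth moment, and the uniform derivative test. -/

open Set MeasureTheory ComplexConjugate

namespace Pool.Agent.Lib.MP_80d0cf_nt.Up

/-- derivative test, uniform in the order -/
def WeylUS : Prop := ∀ (J : ℕ) (κ : ℝ), 1 ≤ κ → ∃ C δ : ℝ, 0 < C ∧ 0 < δ ∧ δ ≤ 1 / 4 ∧
  ∀ (a b X F : ℝ) (ω ω1 : ℝ → ℂ) (g : ℕ → ℝ → ℝ) (s : Finset ℤ), 1 ≤ X → b - a ≤ X →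
  Amp a b 1 (κ / X) ω ω1 → Supp a b ω →
  (∀ j, ∀ x ∈ Icc a b, HasDerivAt (g j) (g (j + 1) x) x) →
  (∀ j, 2 ≤ j → j ≤ J + 2 → ∃ σ : ℝ, (σ = 1 ∨ σ = -1) ∧
    ∀ x ∈ Icc a b, F / X ^ j ≤ κ * (σ * g j x) ∧ σ * g j x ≤ κ * (F / X ^ j)) →
  √X ≤ F → F ≤ X ^ (J + 1) * √X → Cov s a b →
  ‖∑ n ∈ s, ω n * e (g 0 n)‖ ≤ C * X ^ (1 - δ)

/-- pointwise bound for the dual sum -/
def HmaxGS : Prop := ∃ C δ : ℝ, 0 < C ∧ 0 < δ ∧ δ ≤ 1 / 4 ∧ ∀ (K M : ℕ) (ρ u : ℝ), 1 ≤ M →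
  M ≤ K → K ≤ M ^ 50 → 0 ≤ ρ → ρ ≤ 1 / 100000 → u ≤ 8 * K * M →
  ‖Hp K M ρ u‖ ≤ C * √(K * M) * (M : ℝ) ^ (-δ)

/-- large values in longer windows -/
def Dhm2S : Prop := ∃ C δ : ℝ, 0 < C ∧ 0 < δ ∧ δ ≤ 1 / 4 ∧
  ∀ (K M : ℕ) (ρ l : ℝ) (a : ℕ → ℂ) (W : Finset ℤ),
  1 ≤ M → M ≤ K → K ≤ M ^ 50 → 0 ≤ ρ → ρ ≤ 1 / 100000 → 0 < l → (∀ k, ‖a k‖ ≤ 1) →
  (∀ u ∈ W, 0 ≤ u ∧ u < K * M) → (∀ u ∈ W, l ≤ ‖SK K ρ a u‖) →
  C * Real.log (K + 2) * (K * (1 + ρ * K * M + √(K * M) * (M : ℝ) ^ (-δ))) ≤ l ^ 2 →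
  (W.card : ℝ) ≤ C * Real.log (K + 2) ^ 2 * (K : ℝ) ^ 2 / l ^ 2

/-- a bound below the exponent one sixth -/
def SwS : Prop := ∃ c T0 : ℝ, 0 < c ∧ c ≤ 1 / 100 ∧ ∀ (T τ : ℝ) (N : ℕ), T0 ≤ T → 1 ≤ N →
  (N : ℝ) ≤ 16 * T → τ ∈ Icc (2 * T) (3 * T) → ‖DN N τ‖ < T ^ (1 / 6 - c)

namespace YWeylAux

lemma pick {X F : ℝ} (_hX : 1 ≤ X) (h1 : √X ≤ F) (J : ℕ) (h2 : F ≤ X ^ (J + 1) * √X) :
    ∃ r ≤ J, X ^ r * √X ≤ F ∧ F ≤ X ^ (r + 1) * √X := by
  induction J with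
  | zero => exact ⟨0, le_rfl, by simpa using h1, h2⟩
  | succ J ih =>
    rcases le_total F (X ^ (J + 1) * √X) with h | h
    · obtain ⟨r, hr, h3⟩ := ih h
      exact ⟨r, by omega, h3⟩
    · exact ⟨J + 1, le_rfl, h, h2⟩

lemma unif (P : ℕ → ℝ → ℝ → Prop) (hP : ∀ r, ∃ C δ, 0 < C ∧ 0 < δ ∧ P r C δ)
    (hm : ∀ r C δ C' δ', C ≤ C' → δ' ≤ δ → 0 < C → P r C δ → P r C' δ') (J : ℕ) :
    ∃ C δ, 0 < C ∧ 0 < δ ∧ δ ≤ 1 / 4 ∧ ∀ r ≤ J, P r C δ := by
  induction J with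
  | zero =>
    obtain ⟨C, δ, hC, hδ, h⟩ := hP 0
    refine ⟨C, min δ (1 / 4), hC, by positivity, min_le_right _ _, fun r hr => ?_⟩
    obtain rfl : r = 0 := by omega
    exact hm _ _ _ _ _ le_rfl (min_le_left _ _) hC h
  | succ J ih =>
    obtain ⟨C, δ, hC, hδ, hδ1, h⟩ := ih
    obtain ⟨C', δ', hC', hδ', h'⟩ := hP (J + 1)
    refine ⟨C + C', min δ δ', by positivity, by positivity, (min_le_left _ _).trans hδ1,
      fun r hr => ?_⟩
    rcases Nat.lt_or_ge r (J + 1) with h1 | h1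
    · exact hm _ _ _ _ _ (by linarith) (min_le_left _ _) hC (h r (by omega))
    · obtain rfl : r = J + 1 := by omega
      exact hm _ _ _ _ _ (by linarith) (min_le_right _ _) hC' h'

end YWeylAux

open YWeylAux in
theorem weylU (hw : WeylS) : WeylUS := by
  intro J κ hκ
  have hκ2 : κ ≤ κ ^ 2 := le_self_pow₀ hκ two_ne_zero
  obtain ⟨C, δ, hC, hδ, hδ1, h⟩ := unif _
    (fun r => hw r (1 / 2) (κ ^ 2) (by norm_num) (by norm_num) (hκ.trans hκ2))
    (fun r C δ C' δ' h1 h2 h3 h a b X l ω ω1 g s hX a1 a2 a3 a4 a5 a6 a7 a8 =>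
      (h a b X l ω ω1 g s hX a1 a2 a3 a4 a5 a6 a7 a8).trans (mul_le_mul h1
        (Real.rpow_le_rpow_of_exponent_le hX (by linarith)) (by positivity) (by linarith))) J
  refine ⟨C, δ, hC, hδ, hδ1, ?_⟩
  intro a b X F ω ω1 g s hX hab hω hs hg hb h1 h2 hcov
  obtain ⟨r, hr, h3, h4⟩ := pick hX h1 J h2
  obtain ⟨σ, hσ, hb⟩ := hb (r + 2) (by omega) (by omega)
  have hX0 : 0 < X := by linarith
  have hκ0 : 0 < κ := by linarith
  have hs0 : 0 < √X := Real.sqrt_pos.2 hX0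
  have hss := Real.mul_self_sqrt hX0.le
  have hω' : Amp a b 1 (κ ^ 2 / X) ω ω1 :=
    ⟨hω.der, hω.b0, fun x hx => (hω.b1 x hx).trans (by gcongr)⟩
  have k1 : X ^ (-2 + 1 / 2 : ℝ) ≤ κ ^ 2 * (F / X ^ (r + 2) / κ) := by
    rw [Real.rpow_add hX0, ← Real.sqrt_eq_rpow, Real.rpow_neg hX0.le, Real.rpow_two]
    calc _ = 1 * (X ^ r * √X / X ^ (r + 2)) := by field_simp; ring
      _ ≤ κ * (F / X ^ (r + 2)) := by gcongr
      _ = _ := by field_simp
  have k2 : F / X ^ (r + 2) / κ ≤ κ ^ 2 * X ^ (-(1 / 2) : ℝ) := by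
    rw [Real.rpow_neg hX0.le, ← Real.sqrt_eq_rpow]
    calc _ ≤ X ^ (r + 1) * √X / X ^ (r + 2) / 1 := by gcongr
      _ = 1 * (√X)⁻¹ := by
          rw [pow_succ X (r + 1), div_one, one_mul, mul_div_mul_left _ _ (by positivity),
            Real.sqrt_div_self']
          exact one_div _
      _ ≤ _ := by gcongr; exact hκ.trans hκ2
  have k3 : ∀ x ∈ Icc a b, F / X ^ (r + 2) / κ ≤ σ * g (r + 2) x ∧
      σ * g (r + 2) x ≤ κ ^ 2 * (F / X ^ (r + 2) / κ) := fun x hx =>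
    ⟨by rw [div_le_iff₀ hκ0, mul_comm]; exact (hb x hx).1,
      (hb x hx).2.trans (le_of_eq (by field_simp))⟩
  rcases hσ with rfl | rfl
  · exact h r hr a b X _ ω ω1 g s hX hab hω' hs (fun j _ => hg j)
      (by simpa only [one_mul] using k3) k1 k2 hcov
  · have := h r hr a b X _ (fun x => conj (ω x)) (fun x => conj (ω1 x)) (fun j x => -g j x) s hX hab
      ⟨fun x hx => (hω'.der x hx).star, fun x hx => by rw [Complex.norm_conj]; exact hω'.b0 x hx,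
        fun x hx => by rw [Complex.norm_conj]; exact hω'.b1 x hx⟩
      (fun x hx => by simp only [hs x hx, map_zero]) (fun j _ x hx => (hg j x hx).neg)
      (by simpa only [neg_mul, one_mul] using k3) k1 k2 hcov
    rw [← Complex.norm_conj, map_sum]
    simpa only [map_mul, conj_e] using this

end Pool.Agent.Lib.MP_80d0cf_nt.Up
end

-- part Pool.Agent.Lib.MP_80d0cf_nt.Up.Hmax
section

/-! Pointwise bound for the dual sum through the derivative test of order 18. -/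

open Set MeasureTheory ComplexConjugate

namespace Pool.Agent.Lib.MP_80d0cf_nt.Up

namespace HmaxAux

/-- derivatives of the dual phase in the summation variable -/
noncomputable def gg (c1 c2 : ℝ) (j : ℕ) (x : ℝ) : ℝ :=
  c1 * (-1) ^ j * (j.factorial : ℝ) / x ^ (j + 1)
    - c2 * (-1) ^ j * ((j + 2).factorial : ℝ) / 2 / x ^ (j + 3)

lemma der_inv_pow (c : ℝ) (n : ℕ) {x : ℝ} (hx : 0 < x) :
    HasDerivAt (fun y : ℝ => c / y ^ (n + 1)) (-(c * ((n : ℝ) + 1)) / x ^ (n + 2)) x := by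
  have h := (hasDerivAt_const x c).fun_div (hasDerivAt_pow (n + 1) x) (pow_ne_zero _ hx.ne')
  refine h.congr_deriv ?_
  simp only [Nat.add_sub_cancel]
  push_cast
  field_simp
  ring

lemma der_gg (c1 c2 : ℝ) (j : ℕ) {x : ℝ} (hx : 0 < x) :
    HasDerivAt (gg c1 c2 j) (gg c1 c2 (j + 1) x) x := by
  have h := (der_inv_pow (c1 * (-1) ^ j * (j.factorial : ℝ)) j hx).sub
    (der_inv_pow (c2 * (-1) ^ j * ((j + 2).factorial : ℝ) / 2) (j + 2) hx)
  refine h.congr_deriv ?_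
  unfold gg
  rw [show j + 1 + 2 = (j + 2) + 1 by ring, Nat.factorial_succ (j + 2), Nat.factorial_succ j]
  push_cast
  ring

lemma zz_eq {K M1 : ℝ} (hK : 0 < K) (x : ℝ) : zz K x (16 * K * M1) = M1 / x := by
  unfold zz
  by_cases hx : x = 0
  · simp [hx]
  · field_simp

lemma gm_eq {K M1 x : ℝ} (ρ : ℝ) (hK : 0 < K) (hx : 0 < x) :
    gm K ρ x (16 * K * M1) = gg (K * M1 ^ 2) (2 * ρ * K * M1 ^ 4) 0 x := by
  unfold gm gg
  rw [zz_eq hK]
  simp only [Nat.factorial, pow_zero]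
  push_cast
  field_simp
  ring

lemma top_bounds {K M1 ρ x : ℝ} (hK : 0 < K) (hM : 0 < M1) (h0 : 0 ≤ ρ) (h1 : ρ ≤ 1 / 10000)
    (hx : x ∈ Icc (M1 / 2) (2 * M1)) :
    6402373705728000 * K / (2 ^ 20 * M1 ^ 17) ≤ gg (K * M1 ^ 2) (2 * ρ * K * M1 ^ 4) (16 + 2) x ∧
    gg (K * M1 ^ 2) (2 * ρ * K * M1 ^ 4) (16 + 2) x ≤
      6402373705728000 * (6402373705728000 * K / (2 ^ 20 * M1 ^ 17)) := by
  have hx0 : 0 < x := by linarith [hx.1]
  have e : gg (K * M1 ^ 2) (2 * ρ * K * M1 ^ 4) (16 + 2) x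
      = 6402373705728000 * K / M1 ^ 17 * (M1 / x) ^ 19 * (1 - 380 * ρ * (M1 / x) ^ 2) := by
    unfold gg
    norm_num [Nat.factorial]
    field_simp
    ring
  have hz1 : 1 / 2 ≤ M1 / x := by
    rw [le_div_iff₀ hx0]; linarith [hx.2]
  have hz2 : M1 / x ≤ 2 := by
    rw [div_le_iff₀ hx0]; linarith [hx.1]
  rw [e]
  generalize M1 / x = z at hz1 hz2
  have hz0 : 0 ≤ z := by linarith
  have a1 : (1 / 2 : ℝ) ^ 19 ≤ z ^ 19 := by gcongr
  have a2 : z ^ 19 ≤ 2 ^ 19 := by gcongr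
  have a3 : z ^ 2 ≤ 2 ^ 2 := by gcongr
  have a4 : ρ * z ^ 2 ≤ 1 / 10000 * 2 ^ 2 := by gcongr
  have a5 : 0 ≤ ρ * z ^ 2 := by positivity
  have b1 : 1 / 2 ≤ 1 - 380 * ρ * z ^ 2 := by linarith
  have b2 : 1 - 380 * ρ * z ^ 2 ≤ 1 := by linarith
  constructor
  · calc 6402373705728000 * K / (2 ^ 20 * M1 ^ 17)
        = 6402373705728000 * K / M1 ^ 17 * (1 / 2) ^ 19 * (1 / 2) := by
          field_simp
      _ ≤ _ := by gcongr
  · calc _ ≤ 6402373705728000 * K / M1 ^ 17 * 2 ^ 19 * 1 := by gcongr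
      _ = 2 ^ 39 * (6402373705728000 * K / (2 ^ 20 * M1 ^ 17)) := by
          field_simp
      _ ≤ _ := by gcongr; norm_num

/-- derivative of the amplitude in the summation variable -/
noncomputable def amx (K M1 x : ℝ) : ℂ :=
  conj cF * ((-(√(2 * K / x) / x * (3 / 2 * (M1 / x) * Om0 (M1 / x)
    + (M1 / x) ^ 2 * Om1 (M1 / x))) : ℝ) : ℂ)

lemma der_am {K M1 x : ℝ} (hK : 0 < K) (hx : 0 < x) :
    HasDerivAt (fun y : ℝ => am K y (16 * K * M1)) (amx K M1 x) x := by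
  have hz : HasDerivAt (fun y : ℝ => M1 / y) (-(M1 / x) / x) x := by
    refine ((hasDerivAt_const x M1).fun_div (hasDerivAt_id' x) hx.ne').congr_deriv ?_
    field_simp
    ring
  have hq : HasDerivAt (fun y : ℝ => 2 * K / y) (-(2 * K / x) / x) x := by
    refine ((hasDerivAt_const x (2 * K)).fun_div (hasDerivAt_id' x) hx.ne').congr_deriv ?_
    field_simp
    ring
  have hp : 0 < 2 * K / x := by positivity
  have hs : HasDerivAt (fun y : ℝ => √(2 * K / y)) (-(√(2 * K / x) / (2 * x))) x := by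
    refine (hq.sqrt hp.ne').congr_deriv ?_
    have h1 := Real.sqrt_pos.2 hp
    have h2 := Real.mul_self_sqrt hp.le
    generalize √(2 * K / x) = s at h1 h2
    rw [← h2]
    field_simp
  have hO := (hasDerivAt_Om0 (M1 / x)).comp x hz
  have h3 := (((hs.fun_mul hz).fun_mul hO).ofReal_comp).const_mul (conj cF)
  have e : (fun y : ℝ => am K y (16 * K * M1))
      = fun y : ℝ => conj cF * ((√(2 * K / y) * (M1 / y) * (Om0 ∘ fun y : ℝ => M1 / y) y : ℝ) : ℂ) := by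
    funext y
    rw [am, zz_eq hK]
    rfl
  rw [e]
  refine h3.congr_deriv ?_
  rw [amx]
  congr 2
  simp only [Function.comp]
  ring

lemma sqrt_le {K M1 x : ℝ} (hK : 0 < K) (hM : 0 < M1) (hx : M1 / 2 ≤ x) :
    √(2 * K / x) ≤ 2 * √(K / M1) := by
  have h1 : 2 * K / x ≤ 2 ^ 2 * (K / M1) := by
    calc 2 * K / x ≤ 2 * K / (M1 / 2) := by gcongr
      _ = _ := by field_simp
  calc √(2 * K / x) ≤ √(2 ^ 2 * (K / M1)) := Real.sqrt_le_sqrt h1
    _ = _ := by rw [Real.sqrt_mul (by norm_num), Real.sqrt_sq (by norm_num)]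

lemma norm_amx (hc : CFS) {K M1 x : ℝ} (hK : 0 < K) (hM : 0 < M1)
    (hx : x ∈ Icc (M1 / 2) (2 * M1)) : ‖amx K M1 x‖ ≤ 760 * √(K / M1) / M1 := by
  have hx0 : 0 < x := by linarith [hx.1]
  have hz2 : M1 / x ≤ 2 := by
    rw [div_le_iff₀ hx0]; linarith [hx.1]
  have hz0 : 0 ≤ M1 / x := by positivity
  have h1 : |3 / 2 * (M1 / x) * Om0 (M1 / x) + (M1 / x) ^ 2 * Om1 (M1 / x)| ≤ 19 := by
    generalize M1 / x = z at hz0 hz2
    have a0 := Om0_nonneg z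
    have a1 : 3 / 2 * z * Om0 z ≤ 3 / 2 * 2 * 1 := by gcongr; exact Om0_le_one z
    have a2 : z ^ 2 * |Om1 z| ≤ 2 ^ 2 * 4 := by gcongr; exact abs_Om1_le z
    refine (abs_add_le _ _).trans ?_
    rw [abs_of_nonneg (by positivity), abs_mul, abs_of_nonneg (by positivity : 0 ≤ z ^ 2)]
    linarith
  rw [amx, norm_mul, Complex.norm_conj, Complex.norm_real, Real.norm_eq_abs, abs_neg, abs_mul,
    abs_of_nonneg (by positivity : 0 ≤ √(2 * K / x) / x)]
  calc _ ≤ 10 * (2 * √(K / M1) / (M1 / 2) * 19) := by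
        gcongr
        exacts [hc.1, sqrt_le hK hM hx.1, hx.1]
    _ = _ := by field_simp; norm_num

lemma triv (hc : CFS) (K M : ℕ) (ρ M1 : ℝ) (hK : (0 : ℝ) < K) (hM : 0 < M1) :
    ‖Hp K M ρ (16 * K * M1)‖ ≤ 120 * √K * √M1 := by
  have h1 : ‖Hp K M ρ (16 * K * M1)‖ ≤
      ∑ m ∈ (Finset.Icc 1 M).filter (fun m => m ≤ ⌊2 * M1⌋₊), 30 * √K * (1 / √(m : ℝ)) := by
    rw [Finset.sum_filter]
    refine (norm_sum_le _ _).trans (Finset.sum_le_sum fun m hm => ?_)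
    split_ifs with h
    · rw [norm_mainT]
      refine (norm_am_le hc _ _ _).trans (le_of_eq ?_)
      rw [Real.sqrt_div (by positivity)]; ring
    · have hm' : (1 : ℝ) ≤ m := by exact_mod_cast (Finset.mem_Icc.1 hm).1
      have h2 : 2 * M1 < m := Nat.lt_of_floor_lt (not_le.1 h)
      rw [mainT_eq_zero (Or.inl ?_), norm_zero]
      rw [zz_eq hK, div_le_iff₀ (by linarith)]
      linarith
  have h2 : ∑ m ∈ (Finset.Icc 1 M).filter (fun m => m ≤ ⌊2 * M1⌋₊), 30 * √K * (1 / √(m : ℝ))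
      ≤ ∑ m ∈ Finset.Icc 1 ⌊2 * M1⌋₊, 30 * √K * (1 / √(m : ℝ)) := by
    refine Finset.sum_le_sum_of_subset_of_nonneg (fun m hm => ?_) (fun _ _ _ => by positivity)
    simp only [Finset.mem_filter, Finset.mem_Icc] at hm ⊢
    exact ⟨hm.1.1, hm.2⟩
  have h3 : √((⌊2 * M1⌋₊ : ℕ) : ℝ) ≤ 2 * √M1 := by
    have a : ((⌊2 * M1⌋₊ : ℕ) : ℝ) ≤ 2 ^ 2 * M1 := by
      have := Nat.floor_le (show 0 ≤ 2 * M1 by positivity)
      linarith
    calc _ ≤ √(2 ^ 2 * M1) := Real.sqrt_le_sqrt a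
      _ = _ := by rw [Real.sqrt_mul (by norm_num), Real.sqrt_sq (by norm_num)]
  refine h1.trans (h2.trans ?_)
  rw [← Finset.mul_sum]
  calc _ ≤ 30 * √K * (2 * √((⌊2 * M1⌋₊ : ℕ) : ℝ)) := by gcongr; exact sum_inv_sqrt_le _
    _ ≤ 30 * √K * (2 * (2 * √M1)) := by gcongr
    _ = _ := by ring

lemma l_upper {K M M1 : ℝ} (hK : K ≤ (2 * M) ^ 16) (hM : 0 ≤ M) (h1 : 1 ≤ M1)
    (h : M ^ 63 ≤ M1 ^ 64) : K * √(2 * M1) ≤ 2 ^ 20 * M1 ^ 17 := by
  have h0 : 0 ≤ M1 := by linarith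
  have a1 : (M ^ 32) ^ 63 ≤ (M1 ^ 33) ^ 63 := by
    have b1 : (M ^ 32) ^ 63 = (M ^ 63) ^ 32 := pow_right_comm M 32 63
    have b2 : (M ^ 63) ^ 32 ≤ (M1 ^ 64) ^ 32 := pow_le_pow_left₀ (pow_nonneg hM 63) h 32
    have b3 : (M1 ^ 64) ^ 32 = M1 ^ (64 * 32) := (pow_mul M1 64 32).symm
    have b4 : M1 ^ (64 * 32) ≤ M1 ^ (33 * 63) := pow_le_pow_right₀ h1 (by norm_num)
    have b5 : M1 ^ (33 * 63) = (M1 ^ 33) ^ 63 := pow_mul M1 33 63
    exact b1.le.trans (b2.trans (b3.le.trans (b4.trans b5.le)))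
  have a2 : M ^ 32 ≤ M1 ^ 33 := le_of_pow_le_pow_left₀ (by norm_num) (by positivity) a1
  have a3 : (M ^ 16 * √(2 * M1)) ^ 2 ≤ (16 * M1 ^ 17) ^ 2 := by
    rw [mul_pow, Real.sq_sqrt (by positivity), ← pow_mul]
    calc M ^ (16 * 2) * (2 * M1) ≤ M1 ^ 33 * (2 * M1) := by gcongr
      _ = 2 * M1 ^ 34 := by ring
      _ ≤ 256 * M1 ^ 34 := by gcongr; norm_num
      _ = _ := by ring
  have a4 : M ^ 16 * √(2 * M1) ≤ 16 * M1 ^ 17 :=
    le_of_pow_le_pow_left₀ (by norm_num) (by positivity) a3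
  calc K * √(2 * M1) ≤ (2 * M) ^ 16 * √(2 * M1) := by gcongr
    _ = 2 ^ 16 * (M ^ 16 * √(2 * M1)) := by ring
    _ ≤ 2 ^ 16 * (16 * M1 ^ 17) := by gcongr
    _ = _ := by ring

end HmaxAux

open HmaxAux in
theorem hmax (hw : WeylS) (hc : CFS) : HmaxS := by
  obtain ⟨C, δ, hC, hδ, hW⟩ := hw 16 (1 / 2) 6402373705728000 (by norm_num) (by norm_num)
    (by norm_num)
  refine ⟨120 + 120 * C, min δ (1 / 128), by positivity, by positivity,
    (min_le_right _ _).trans (by norm_num), ?_⟩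
  intro K M ρ u hM hK1 hK2 hρ0 hρ1 hu
  set d := min δ (1 / 128) with hd
  have hd1 : d ≤ δ := min_le_left _ _
  have hd2 : d ≤ 1 / 128 := min_le_right _ _
  have hMr : (1 : ℝ) ≤ M := by exact_mod_cast hM
  have hM0 : (0 : ℝ) < M := by linarith
  have hK1r : (M : ℝ) ^ 16 ≤ K := by exact_mod_cast hK1
  have hK2r : (K : ℝ) ≤ (2 * M) ^ 16 := by exact_mod_cast hK2
  have hK0 : (0 : ℝ) < K := lt_of_lt_of_le (by positivity) hK1r
  by_cases hu0 : u ≤ 8 * K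
  · rw [Hp_eq_zero hu0, norm_zero]; positivity
  push Not at hu0
  obtain ⟨M1, rfl⟩ : ∃ M1 : ℝ, u = 16 * K * M1 := ⟨u / (16 * K), by field_simp⟩
  have hM1 : 0 < M1 := by
    by_contra h
    push Not at h
    nlinarith
  have hM2 : 2 * M1 ≤ M := by
    by_contra h
    push Not at h
    nlinarith
  have efin : √(K * M : ℝ) * (M : ℝ) ^ (-d) = √K * (M : ℝ) ^ (1 / 2 - d) := by
    rw [Real.sqrt_mul hK0.le, Real.sqrt_eq_rpow (M : ℝ), mul_assoc, ← Real.rpow_add hM0]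
    rfl
  rw [mul_assoc (120 + 120 * C), efin]
  have hpos : 0 ≤ √K * (M : ℝ) ^ (1 / 2 - d) := by positivity
  by_cases hA : M1 ≤ (M : ℝ) ^ (63 / 64 : ℝ)
  · have h1 : √M1 ≤ (M : ℝ) ^ (1 / 2 - d) := by
      calc √M1 ≤ √((M : ℝ) ^ (63 / 64 : ℝ)) := Real.sqrt_le_sqrt hA
        _ = (M : ℝ) ^ (63 / 64 * (1 / 2) : ℝ) := by
            rw [Real.sqrt_eq_rpow, ← Real.rpow_mul hM0.le]
        _ ≤ _ := Real.rpow_le_rpow_of_exponent_le hMr (by linarith)
    calc _ ≤ 120 * √K * √M1 := triv hc K M ρ M1 hK0 hM1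
      _ ≤ 120 * √K * (M : ℝ) ^ (1 / 2 - d) := by gcongr
      _ = 120 * (√K * (M : ℝ) ^ (1 / 2 - d)) := by ring
      _ ≤ _ := by gcongr; linarith
  push Not at hA
  have h11 : 1 ≤ M1 := (Real.one_le_rpow hMr (by norm_num)).trans hA.le
  have h63 : (M : ℝ) ^ 63 ≤ M1 ^ 64 := by
    calc (M : ℝ) ^ 63 = ((M : ℝ) ^ (63 / 64 : ℝ)) ^ 64 := by
          rw [← Real.rpow_natCast, ← Real.rpow_natCast, ← Real.rpow_mul hM0.le]
          norm_num
      _ ≤ _ := by gcongr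
  have hS : 0 < 60 * √(K / M1) := by positivity
  have hX : 1 ≤ 2 * M1 := by linarith
  have key := hW (M1 / 2) (2 * M1) (2 * M1) (6402373705728000 * K / (2 ^ 20 * M1 ^ 17))
    (fun x => am K x (16 * K * M1) / ((60 * √(K / M1) : ℝ) : ℂ))
    (fun x => amx K M1 x / ((60 * √(K / M1) : ℝ) : ℂ))
    (gg (K * M1 ^ 2) (2 * ρ * K * M1 ^ 4)) (Finset.Icc (1 : ℤ) M) hX (by linarith)
    ⟨fun x hx => (der_am hK0 (by linarith [hx.1])).div_const _, fun x hx => ?_, fun x hx => ?_⟩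
    (fun x hx => ?_) (fun j _ x hx => der_gg _ _ j (by linarith [hx.1]))
    (fun x hx => top_bounds hK0 hM1 hρ0 hρ1 hx) ?_ ?_ (fun n h1 h2 => ?_)
  · have e : Hp K M ρ (16 * K * M1) = ((60 * √(K / M1) : ℝ) : ℂ) *
        ∑ n ∈ Finset.Icc (1 : ℤ) M, am K n (16 * K * M1) / ((60 * √(K / M1) : ℝ) : ℂ) *
          e (gg (K * M1 ^ 2) (2 * ρ * K * M1 ^ 4) 0 n) := by
      have h := sum_Icc_natCast (fun n : ℤ => mainT K ρ n (16 * K * M1)) 1 M
      simp only [Int.cast_natCast, Nat.cast_one] at h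
      rw [Hp, h, Finset.mul_sum]
      refine Finset.sum_congr rfl fun n hn => ?_
      have hn0 : (0 : ℝ) < n := by
        have := (Finset.mem_Icc.1 hn).1
        exact_mod_cast (show (0 : ℤ) < n by omega)
      have hS' : ((60 * √(K / M1) : ℝ) : ℂ) ≠ 0 := by exact_mod_cast hS.ne'
      rw [mainT, gm_eq ρ hK0 hn0]
      field_simp
    rw [e, norm_mul, Complex.norm_real, Real.norm_of_nonneg hS.le]
    have a1 : (2 * M1) ^ (1 - δ) ≤ (2 * M1) ^ (1 - d) :=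
      Real.rpow_le_rpow_of_exponent_le hX (by linarith)
    have a2 : (2 * M1) ^ (1 - d) = √(2 * M1) * (2 * M1) ^ (1 / 2 - d) := by
      rw [Real.sqrt_eq_rpow, ← Real.rpow_add (by positivity)]
      congr 1
      ring
    have a3 : (2 * M1) ^ (1 / 2 - d) ≤ (M : ℝ) ^ (1 / 2 - d) :=
      Real.rpow_le_rpow (by positivity) hM2 (by linarith)
    have a4 : √(K / M1) * √(2 * M1) ≤ 2 * √K := by
      rw [← Real.sqrt_mul (by positivity)]
      calc √(K / M1 * (2 * M1)) ≤ √(2 ^ 2 * K) := by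
            refine Real.sqrt_le_sqrt ?_
            rw [show (K : ℝ) / M1 * (2 * M1) = 2 * K by field_simp]
            linarith
        _ = _ := by rw [Real.sqrt_mul (by norm_num), Real.sqrt_sq (by norm_num)]
    calc _ ≤ 60 * √(K / M1) * (C * (2 * M1) ^ (1 - δ)) := by gcongr
      _ ≤ 60 * √(K / M1) * (C * (√(2 * M1) * (M : ℝ) ^ (1 / 2 - d))) := by
          gcongr
          rw [a2] at a1
          exact a1.trans (by gcongr)
      _ = 60 * C * (√(K / M1) * √(2 * M1)) * (M : ℝ) ^ (1 / 2 - d) := by ring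
      _ ≤ 60 * C * (2 * √K) * (M : ℝ) ^ (1 / 2 - d) := by gcongr
      _ = (120 * C) * (√K * (M : ℝ) ^ (1 / 2 - d)) := by ring
      _ ≤ _ := by gcongr; linarith
  · rw [norm_div, Complex.norm_real, Real.norm_of_nonneg hS.le, div_le_one hS]
    refine (norm_am_le hc _ _ _).trans ?_
    have hx0 : 0 < x := by linarith [hx.1]
    have h1 : √(K / x) ≤ √(2 * K / x) := Real.sqrt_le_sqrt (by gcongr; linarith)
    have := sqrt_le hK0 hM1 hx.1
    linarith
  · rw [norm_div, Complex.norm_real, Real.norm_of_nonneg hS.le, div_le_iff₀ hS]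
    refine (norm_amx hc hK0 hM1 hx).trans ?_
    calc 760 * √(K / M1) / M1 = 76 / 3 / (2 * M1) * (60 * √(K / M1)) := by
          field_simp
          norm_num
      _ ≤ _ := by gcongr; norm_num
  · simp only
    rw [am_eq_zero, zero_div]
    rw [zz_eq hK0]
    rcases hx with hx | hx
    · rcases le_or_gt x 0 with h0 | h0
      · left
        have := div_nonpos_of_nonneg_of_nonpos hM1.le h0
        linarith
      · right
        rw [le_div_iff₀ h0]
        linarith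
    · left
      rw [div_le_iff₀ (by linarith)]
      linarith
  · have a1 : (2 * M1) ^ (-2 + 1 / 2 : ℝ) ≤ (2 * M1) ^ (-1 : ℝ) :=
      Real.rpow_le_rpow_of_exponent_le hX (by norm_num)
    rw [Real.rpow_neg_one] at a1
    refine a1.trans ?_
    have a2 : (2 * M1) ^ 16 ≤ (K : ℝ) := le_trans (by gcongr) hK1r
    calc (2 * M1)⁻¹ = 8 * (1 * (2 * M1) ^ 16 / (2 ^ 20 * M1 ^ 17)) := by
          field_simp
          norm_num
      _ ≤ _ := by gcongr <;> norm_num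
  · have a1 : (2 * M1) ^ (-(1 / 2) : ℝ) = 1 / √(2 * M1) := by
      rw [Real.rpow_neg (by positivity), Real.sqrt_eq_rpow, inv_eq_one_div]
    rw [a1, mul_div_assoc]
    refine mul_le_mul_of_nonneg_left ?_ (by norm_num)
    rw [div_le_div_iff₀ (by positivity) (by positivity), one_mul]
    exact l_upper hK2r hM0.le h11 h63
  · rw [Finset.mem_Icc]
    have a1 : (0 : ℝ) < n := by linarith
    have a2 : (n : ℝ) < M := by linarith
    have a3 : (0 : ℤ) < n := by exact_mod_cast a1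
    have a4 : n < (M : ℤ) := by exact_mod_cast a2
    omega

end Pool.Agent.Lib.MP_80d0cf_nt.Up
end

-- part Pool.Agent.Lib.MP_80d0cf_nt.Up.YHmax
section

/-! Pointwise bound for the dual sum in long windows, and the resulting large values bound. -/

open Set MeasureTheory ComplexConjugate

namespace Pool.Agent.Lib.MP_80d0cf_nt.Up

namespace YHmaxAux

open HmaxAux

lemma all_bounds {K M1 ρ x κ : ℝ} {j : ℕ} (hK : 0 < K) (hM : 0 < M1) (h0 : 0 ≤ ρ)
    (h1 : ρ ≤ 1 / 100000) (hj : j ≤ 102) (hκ4 : 4 ≤ κ) (hκ : 2 ^ (2 * j + 1) * (j.factorial : ℝ) ≤ κ)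
    (hx : x ∈ Icc (M1 / 2) (2 * M1)) :
    K * M1 / (2 * M1) ^ j ≤ κ * ((-1) ^ j * gg (K * M1 ^ 2) (2 * ρ * K * M1 ^ 4) j x) ∧
    (-1) ^ j * gg (K * M1 ^ 2) (2 * ρ * K * M1 ^ 4) j x ≤ κ * (K * M1 / (2 * M1) ^ j) := by
  have hx0 : 0 < x := by linarith [hx.1]
  have hs : ((-1 : ℝ) ^ j) * (-1) ^ j = 1 := by rw [← mul_pow]; norm_num
  have e : (-1) ^ j * gg (K * M1 ^ 2) (2 * ρ * K * M1 ^ 4) j x = K * M1 / (2 * M1) ^ j *
      (j.factorial * (2 * (M1 / x)) ^ j * (M1 / x) * (1 - ρ * ((j + 1) * (j + 2)) * (M1 / x) ^ 2)) := by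
    unfold gg
    rw [Nat.factorial_succ (j + 1), Nat.factorial_succ j]
    push_cast
    simp only [mul_pow, div_pow]
    generalize ((-1 : ℝ) ^ j) = s at hs
    have : s * (K * M1 ^ 2 * s * j.factorial / x ^ (j + 1) - 2 * ρ * K * M1 ^ 4 * s *
        ((j + 1 + 1) * ((j + 1) * j.factorial)) / 2 / x ^ (j + 3)) = (s * s) *
        (K * M1 ^ 2 * j.factorial / x ^ (j + 1) - 2 * ρ * K * M1 ^ 4 *
        ((j + 1 + 1) * ((j + 1) * j.factorial)) / 2 / x ^ (j + 3)) := by ring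
    rw [this, hs]
    field_simp
    ring
  have hz1 : 1 / 2 ≤ M1 / x := by
    rw [le_div_iff₀ hx0]; linarith [hx.2]
  have hz2 : M1 / x ≤ 2 := by
    rw [div_le_iff₀ hx0]; linarith [hx.1]
  rw [e]
  generalize M1 / x = z at hz1 hz2
  have hz0 : 0 ≤ z := by linarith
  have hF : 0 < K * M1 / (2 * M1) ^ j := by positivity
  generalize K * M1 / (2 * M1) ^ j = F at hF
  have hjr : (j : ℝ) ≤ 102 := by exact_mod_cast hj
  have a1 : (1 : ℝ) ≤ (2 * z) ^ j := one_le_pow₀ (by linarith)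
  have a2 : (2 * z) ^ j ≤ 2 ^ (2 * j) := by
    rw [pow_mul]; exact pow_le_pow_left₀ (by positivity) (by linarith) j
  have a3 : ρ * ((j + 1) * (j + 2)) * z ^ 2 ≤ 1 / 100000 * ((102 + 1) * (102 + 2)) * 2 ^ 2 := by
    gcongr
  have a4 : 0 ≤ ρ * ((j + 1) * (j + 2)) * z ^ 2 := by positivity
  have a5 : (1 : ℝ) ≤ j.factorial := by exact_mod_cast j.factorial_pos
  generalize ρ * ((j + 1) * (j + 2)) * z ^ 2 = w at a3 a4
  have b1 : 1 / 2 ≤ 1 - w := by linarith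
  have b2 : 1 - w ≤ 1 := by linarith
  constructor
  · calc F = 4 * (F * (1 * 1 * (1 / 2) * (1 / 2))) := by ring
      _ ≤ _ := by gcongr
  · calc _ ≤ F * (j.factorial * 2 ^ (2 * j) * 2 * 1) := by gcongr
      _ = 2 ^ (2 * j + 1) * (j.factorial : ℝ) * F := by ring
      _ ≤ _ := by gcongr

lemma exk (J : ℕ) : ∃ κ : ℝ, 100 ≤ κ ∧ ∀ j ≤ J, 2 ^ (2 * j + 1) * (j.factorial : ℝ) ≤ κ := by
  refine ⟨100 + 2 ^ (2 * J + 1) * (J.factorial : ℝ), by
    have : (0 : ℝ) ≤ 2 ^ (2 * J + 1) * (J.factorial : ℝ) := by positivity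
    linarith, fun j hj => ?_⟩
  have h1 : (j.factorial : ℝ) ≤ J.factorial := by exact_mod_cast Nat.factorial_le hj
  have h2 : (2 : ℝ) ^ (2 * j + 1) ≤ 2 ^ (2 * J + 1) := pow_le_pow_right₀ one_le_two (by omega)
  have := mul_le_mul h2 h1 (by positivity) (by positivity)
  linarith

end YHmaxAux

open HmaxAux YHmaxAux in
theorem hmaxG (hw : WeylUS) (hc : CFS) : HmaxGS := by
  obtain ⟨κ, hκ, hκj⟩ := exk 102
  obtain ⟨C, d, hC, hd, hd2, hW⟩ := hw 100 κ (by linarith)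
  refine ⟨120 + 120 * C, d, by positivity, hd, hd2, ?_⟩
  intro K M ρ u hM hK1 hK2 hρ0 hρ1 hu
  have hMr : (1 : ℝ) ≤ M := by exact_mod_cast hM
  have hM0 : (0 : ℝ) < M := by linarith
  have hK1r : (M : ℝ) ≤ K := by exact_mod_cast hK1
  have hK2r : (K : ℝ) ≤ M ^ 50 := by exact_mod_cast hK2
  have hK0 : (0 : ℝ) < K := by linarith
  by_cases hu0 : u ≤ 8 * K
  · rw [Hp_eq_zero hu0, norm_zero]; positivity
  push Not at hu0
  obtain ⟨M1, rfl⟩ : ∃ M1 : ℝ, u = 16 * K * M1 := ⟨u / (16 * K), by field_simp⟩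
  have hM1 : 0 < M1 := by
    by_contra h
    push Not at h
    nlinarith
  have hM2 : 2 * M1 ≤ M := by
    by_contra h
    push Not at h
    nlinarith
  have efin : √(K * M : ℝ) * (M : ℝ) ^ (-d) = √K * (M : ℝ) ^ (1 / 2 - d) := by
    rw [Real.sqrt_mul hK0.le, Real.sqrt_eq_rpow (M : ℝ), mul_assoc, ← Real.rpow_add hM0]
    rfl
  rw [mul_assoc (120 + 120 * C), efin]
  have hpos : 0 ≤ √K * (M : ℝ) ^ (1 / 2 - d) := by positivity
  by_cases hA : M1 ≤ √M
  · have h1 : √M1 ≤ (M : ℝ) ^ (1 / 2 - d) := by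
      calc √M1 ≤ √(√(M : ℝ)) := Real.sqrt_le_sqrt hA
        _ = (M : ℝ) ^ (1 / 2 * (1 / 2) : ℝ) := by
            rw [Real.sqrt_eq_rpow, Real.sqrt_eq_rpow, ← Real.rpow_mul hM0.le]
        _ ≤ _ := Real.rpow_le_rpow_of_exponent_le hMr (by linarith)
    calc _ ≤ 120 * √K * √M1 := triv hc K M ρ M1 hK0 hM1
      _ ≤ 120 * √K * (M : ℝ) ^ (1 / 2 - d) := by gcongr
      _ = 120 * (√K * (M : ℝ) ^ (1 / 2 - d)) := by ring
      _ ≤ _ := by gcongr; linarith
  push Not at hA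
  have h11 : 1 ≤ M1 := (Real.one_le_sqrt.2 hMr).trans hA.le
  have h63 : (M : ℝ) ≤ M1 ^ 2 := by
    rw [← Real.sq_sqrt hM0.le]; gcongr
  have hS : 0 < 60 * √(K / M1) := by positivity
  have hX : 1 ≤ 2 * M1 := by linarith
  have hsX : 1 ≤ √(2 * M1) := Real.one_le_sqrt.2 hX
  have key := hW (M1 / 2) (2 * M1) (2 * M1) (K * M1)
    (fun x => am K x (16 * K * M1) / ((60 * √(K / M1) : ℝ) : ℂ))
    (fun x => amx K M1 x / ((60 * √(K / M1) : ℝ) : ℂ))
    (gg (K * M1 ^ 2) (2 * ρ * K * M1 ^ 4)) (Finset.Icc (1 : ℤ) M) hX (by linarith)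
    ⟨fun x hx => (der_am hK0 (by linarith [hx.1])).div_const _, fun x hx => ?_, fun x hx => ?_⟩
    (fun x hx => ?_) (fun j x hx => der_gg _ _ j (by linarith [hx.1]))
    (fun j _ hj => ⟨(-1) ^ j, neg_one_pow_eq_or ℝ j, fun x hx =>
      all_bounds hK0 hM1 hρ0 hρ1 hj (by linarith) (hκj j hj) hx⟩) ?_ ?_ (fun n h1 h2 => ?_)
  · have e : Hp K M ρ (16 * K * M1) = ((60 * √(K / M1) : ℝ) : ℂ) *
        ∑ n ∈ Finset.Icc (1 : ℤ) M, am K n (16 * K * M1) / ((60 * √(K / M1) : ℝ) : ℂ) *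
          e (gg (K * M1 ^ 2) (2 * ρ * K * M1 ^ 4) 0 n) := by
      have h := sum_Icc_natCast (fun n : ℤ => mainT K ρ n (16 * K * M1)) 1 M
      simp only [Int.cast_natCast, Nat.cast_one] at h
      rw [Hp, h, Finset.mul_sum]
      refine Finset.sum_congr rfl fun n hn => ?_
      have hn0 : (0 : ℝ) < n := by
        have := (Finset.mem_Icc.1 hn).1
        exact_mod_cast (show (0 : ℤ) < n by omega)
      have hS' : ((60 * √(K / M1) : ℝ) : ℂ) ≠ 0 := by exact_mod_cast hS.ne'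
      rw [mainT, gm_eq ρ hK0 hn0]
      field_simp
    rw [e, norm_mul, Complex.norm_real, Real.norm_of_nonneg hS.le]
    have a2 : (2 * M1) ^ (1 - d) = √(2 * M1) * (2 * M1) ^ (1 / 2 - d) := by
      rw [Real.sqrt_eq_rpow, ← Real.rpow_add (by positivity)]
      congr 1
      ring
    have a3 : (2 * M1) ^ (1 / 2 - d) ≤ (M : ℝ) ^ (1 / 2 - d) :=
      Real.rpow_le_rpow (by positivity) hM2 (by linarith)
    have a4 : √(K / M1) * √(2 * M1) ≤ 2 * √K := by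
      rw [← Real.sqrt_mul (by positivity)]
      calc √(K / M1 * (2 * M1)) ≤ √(2 ^ 2 * K) := by
            refine Real.sqrt_le_sqrt ?_
            rw [show (K : ℝ) / M1 * (2 * M1) = 2 * K by field_simp]
            linarith
        _ = _ := by rw [Real.sqrt_mul (by norm_num), Real.sqrt_sq (by norm_num)]
    calc _ ≤ 60 * √(K / M1) * (C * (2 * M1) ^ (1 - d)) := by gcongr
      _ ≤ 60 * √(K / M1) * (C * (√(2 * M1) * (M : ℝ) ^ (1 / 2 - d))) := by
          rw [a2]; gcongr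
      _ = 60 * C * (√(K / M1) * √(2 * M1)) * (M : ℝ) ^ (1 / 2 - d) := by ring
      _ ≤ 60 * C * (2 * √K) * (M : ℝ) ^ (1 / 2 - d) := by gcongr
      _ = (120 * C) * (√K * (M : ℝ) ^ (1 / 2 - d)) := by ring
      _ ≤ _ := by gcongr; linarith
  · rw [norm_div, Complex.norm_real, Real.norm_of_nonneg hS.le, div_le_one hS]
    refine (norm_am_le hc _ _ _).trans ?_
    have hx0 : 0 < x := by linarith [hx.1]
    have h1 : √(K / x) ≤ √(2 * K / x) := Real.sqrt_le_sqrt (by gcongr; linarith)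
    have := sqrt_le hK0 hM1 hx.1
    linarith
  · rw [norm_div, Complex.norm_real, Real.norm_of_nonneg hS.le, div_le_iff₀ hS]
    refine (norm_amx hc hK0 hM1 hx).trans ?_
    calc 760 * √(K / M1) / M1 = 76 / 3 / (2 * M1) * (60 * √(K / M1)) := by
          field_simp
          norm_num
      _ ≤ _ := by gcongr; linarith
  · simp only
    rw [am_eq_zero, zero_div]
    rw [zz_eq hK0]
    rcases hx with hx | hx
    · rcases le_or_gt x 0 with h0 | h0
      · left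
        have := div_nonpos_of_nonneg_of_nonpos hM1.le h0
        linarith
      · right
        rw [le_div_iff₀ h0]
        linarith
    · left
      rw [div_le_iff₀ (by linarith)]
      linarith
  · rw [Real.sqrt_le_iff]
    have : 2 * M1 ≤ K * M1 := by nlinarith
    exact ⟨by positivity, this.trans (le_self_pow₀ (by linarith) two_ne_zero)⟩
  · have a1 : (M : ℝ) ^ 50 ≤ (M1 ^ 2) ^ 50 := pow_le_pow_left₀ hM0.le h63 50
    rw [← pow_mul] at a1
    have a2 : M1 ^ (2 * 50) * M1 ≤ (2 * M1) ^ (100 + 1) := by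
      rw [← pow_succ]; exact pow_le_pow_left₀ hM1.le (by linarith) _
    calc K * M1 ≤ M1 ^ (2 * 50) * M1 := by gcongr; exact hK2r.trans a1
      _ ≤ _ := a2.trans (le_mul_of_one_le_right (by positivity) hsX)
  · rw [Finset.mem_Icc]
    have a1 : (0 : ℝ) < n := by linarith
    have a2 : (n : ℝ) < M := by linarith
    have a3 : (0 : ℤ) < n := by exact_mod_cast a1
    have a4 : n < (M : ℤ) := by exact_mod_cast a2
    omega

theorem dhm2 (hg : HmaxGS) (hf : F1S) (hh : HmS) : Dhm2S := by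
  obtain ⟨C, hC, hf⟩ := hf
  obtain ⟨C', δ, hC', hδ, hδ1, hg⟩ := hg
  refine ⟨48 * C + 8 * C', δ, by positivity, hδ, hδ1, ?_⟩
  intro K M ρ l a W hM hMK hKM2 hρ hρ1 hl ha hW hS hl2
  have hM' : (1 : ℝ) ≤ M := by exact_mod_cast hM
  have hK' : (1 : ℝ) ≤ K := by exact_mod_cast hM.trans hMK
  have hMK' : (M : ℝ) ≤ K := by exact_mod_cast hMK
  have hKM : (1 : ℝ) ≤ K * M := one_le_mul_of_one_le_of_one_le hK' hM'
  have hlog := one_le_log_add_two hK'
  have hU : ∀ u ∈ W, ∀ v ∈ W, |(u : ℝ) - v| ≤ K * M := fun u hu v hv => by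
    have h1 : (0 : ℝ) ≤ u := by exact_mod_cast (hW u hu).1
    have h2 : (u : ℝ) < K * M := by exact_mod_cast (hW u hu).2
    have h3 : (0 : ℝ) ≤ v := by exact_mod_cast (hW v hv).1
    have h4 : (v : ℝ) < K * M := by exact_mod_cast (hW v hv).2
    exact abs_le.2 ⟨by linarith, by linarith⟩
  obtain ⟨Q, hQ⟩ : ∃ Q, Q = √(K * M : ℝ) * (M : ℝ) ^ (-δ) := ⟨_, rfl⟩
  have hQ0 : 0 ≤ Q := by rw [hQ]; positivity
  have hρ0 : 0 ≤ ρ * K * M := by positivity
  have hD : ∀ w : ℝ, |w| ≤ K * M → ‖DD K ρ w‖ ≤ C * Real.log (K + 2) * K / (1 + |w|) +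
      (C * Real.log (K + 2) * (1 + ρ * K * M) + C' * Q) := fun w hw => by
    have h1 : ‖DD K ρ w‖ = ‖DD K ρ |w|‖ := by
      rcases abs_cases w with h | h
      · rw [h.1]
      · rw [h.1, DD_neg, Complex.norm_conj]
    have h2 := hf K M ρ |w| hM hMK hρ (by linarith) (abs_nonneg _) (by nlinarith)
    have h3 := hg K M ρ |w| hM hMK hKM2 hρ hρ1 (by nlinarith)
    rw [mul_assoc C', ← hQ] at h3
    have h4 := norm_le_norm_add_norm_sub' (DD K ρ |w|) (Hp K M ρ |w|)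
    have h6 : C * Real.log (K + 2) * (K / (1 + |w|) + 1 + ρ * K * M) =
        C * Real.log (K + 2) * K / (1 + |w|) + C * Real.log (K + 2) * (1 + ρ * K * M) := by ring
    linarith
  rw [← hQ] at hl2
  have key := hh (Finset.Ico K (2 * K)) (Finset.Icc 1 (4 * K)) (ok K) (yk K ρ) a W l
    (C * Real.log (K + 2) * K) (C * Real.log (K + 2) * (1 + ρ * K * M) + C' * Q) (K * M) (4 * K)
    (Ico_subset_Icc K) (fun k _ => ok_nonneg K k) (norm_le_ok ha) (sum_ok_le K) hl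
    (by positivity) (by positivity) hS hU (fun u hu v hv => hD _ (hU u hu v hv)) (by
      refine le_trans ?_ hl2
      generalize ρ * K * M = r at hρ0
      generalize Real.log (K + 2) = L at hlog
      have h2 : C' * Q ≤ C' * Q * L := le_mul_of_one_le_right (by positivity) hlog
      have h3 : 0 ≤ C * L * Q := by positivity
      have h3' : 0 ≤ C * L * (1 + r) := by positivity
      have h3'' : 0 ≤ C' * L * (1 + r) := by positivity
      have h4 : 2 * 4 * (C * L * (1 + r) + C' * Q) ≤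
          (48 * C + 8 * C') * L * (1 + r + Q) := by nlinarith
      have h5 := mul_le_mul_of_nonneg_left h4 (show (0 : ℝ) ≤ K by positivity)
      linarith)
  refine key.trans (div_le_div_of_nonneg_right ?_ (by positivity))
  have h1 : Real.log (K * M + 1) ≤ 2 * Real.log (K + 2) := by
    have := Real.log_le_log (by positivity) (show (K : ℝ) * M + 1 ≤ (K + 2) ^ 2 by nlinarith)
    rwa [Real.log_pow, Nat.cast_ofNat] at this
  have h2 : 4 * (4 * K) * (C * Real.log (K + 2) * K) * (1 + Real.log (K * M + 1)) ≤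
      4 * (4 * K) * (C * Real.log (K + 2) * K) * (3 * Real.log (K + 2)) :=
    mul_le_mul_of_nonneg_left (by linarith) (by positivity)
  have h3 : 0 ≤ Real.log (K + 2) ^ 2 * (K : ℝ) ^ 2 := by positivity
  nlinarith [mul_nonneg hC'.le h3]

end Pool.Agent.Lib.MP_80d0cf_nt.Up
end

-- part Pool.Agent.Lib.MP_80d0cf_nt.Up.Weyl
section

/-! The derivative test of arbitrary order. -/

open Set MeasureTheory ComplexConjugate

namespace Pool.Agent.Lib.MP_80d0cf_nt.Up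

namespace WeylAux

lemma sum_cov {a b : ℝ} {c : ℤ → ℂ} (hc : ∀ n : ℤ, (n : ℝ) ≤ a ∨ b ≤ n → c n = 0)
    {s t : Finset ℤ} (hs : Cov s a b) (ht : Cov t a b) : ∑ n ∈ s, c n = ∑ n ∈ t, c n := by
  have key : ∀ s t : Finset ℤ, Cov t a b → ∑ n ∈ s ∩ t, c n = ∑ n ∈ s, c n := fun s t ht =>
    Finset.sum_subset Finset.inter_subset_left fun n hn hn' => hc n (by
      by_contra h
      push Not at h
      exact hn' (Finset.mem_inter.2 ⟨hn, ht n h.1 h.2⟩))
  rw [← key s t ht, Finset.inter_comm, key t s hs]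

lemma vdc (c : ℤ → ℂ) (T : Finset ℤ) (H : ℕ) (S : ℂ) (B : ℝ) (hB : 0 ≤ B) (h1 : ∀ n, ‖c n‖ ≤ 1)
    (hS : ∀ i < H, ∑ n ∈ T, c (n + (i : ℕ)) = S)
    (hc : ∀ i < H, ∀ j < i, ‖∑ n ∈ T, c (n + (i : ℕ)) * conj (c (n + (j : ℕ)))‖ ≤ B) :
    (H : ℝ) ^ 2 * ‖S‖ ^ 2 ≤ T.card * (H * T.card + H ^ 2 * B) := by
  have e1 : (H : ℂ) * S = ∑ n ∈ T, ∑ i ∈ Finset.range H, c (n + i) := by
    rw [Finset.sum_comm, Finset.sum_congr rfl fun i hi => hS i (Finset.mem_range.1 hi)]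
    simp
  have e2 : (H : ℝ) ^ 2 * ‖S‖ ^ 2 ≤
      T.card * ∑ n ∈ T, ‖∑ i ∈ Finset.range H, c (n + i)‖ ^ 2 := by
    rw [← mul_pow, ← Complex.norm_natCast, ← norm_mul, e1]
    exact le_trans (by gcongr; exact norm_sum_le _ _) sq_sum_le_card_mul_sum_sq
  refine e2.trans (mul_le_mul_of_nonneg_left ?_ (Nat.cast_nonneg _))
  have e3 : ((∑ n ∈ T, ‖∑ i ∈ Finset.range H, c (n + i)‖ ^ 2 : ℝ) : ℂ) =
      ∑ i ∈ Finset.range H, ∑ j ∈ Finset.range H, ∑ n ∈ T, c (n + i) * conj (c (n + j)) := by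
    push_cast
    simp only [← Complex.mul_conj', map_sum, Finset.sum_mul_sum]
    rw [Finset.sum_comm]
    exact Finset.sum_congr rfl fun i _ => Finset.sum_comm
  have e4 := congrArg norm e3
  rw [Complex.norm_real, Real.norm_of_nonneg (Finset.sum_nonneg fun _ _ => sq_nonneg _)] at e4
  rw [e4]
  have e5 : ∀ i ∈ Finset.range H, ∀ j ∈ Finset.range H,
      ‖∑ n ∈ T, c (n + i) * conj (c (n + j))‖ ≤ (if i = j then (T.card : ℝ) else 0) + B := by
    intro i hi j hj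
    rcases lt_trichotomy i j with h | h | h
    · rw [if_neg h.ne, zero_add, ← Complex.norm_conj, map_sum]
      simpa only [map_mul, Complex.conj_conj, mul_comm] using hc j (Finset.mem_range.1 hj) i h
    · rw [if_pos h]
      refine (norm_sum_le _ _).trans ((Finset.sum_le_card_nsmul _ _ 1 fun n _ => ?_).trans ?_)
      · rw [norm_mul, Complex.norm_conj]
        exact mul_le_one₀ (h1 _) (norm_nonneg _) (h1 _)
      · simpa using hB
    · rw [if_neg h.ne', zero_add]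
      exact hc i (Finset.mem_range.1 hi) j h
  refine ((norm_sum_le _ _).trans (Finset.sum_le_sum fun i hi => (norm_sum_le _ _).trans
    (Finset.sum_le_sum fun j hj => e5 i hi j hj))).trans (le_of_eq ?_)
  simp only [Finset.sum_add_distrib, Finset.sum_ite_eq, Finset.sum_const, Finset.card_range,
    nsmul_eq_mul]
  rw [Finset.sum_congr rfl fun i hi => if_pos hi]
  simp only [Finset.sum_const, Finset.card_range, nsmul_eq_mul]
  ring

lemma slope {a b lo hi x y : ℝ} {f f1 : ℝ → ℝ} (hd : ∀ x ∈ Icc a b, HasDerivAt f (f1 x) x)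
    (hb : ∀ x ∈ Icc a b, lo ≤ f1 x ∧ f1 x ≤ hi) (hx : a ≤ x) (hxy : x ≤ y) (hy : y ≤ b) :
    (y - x) * lo ≤ f y - f x ∧ f y - f x ≤ (y - x) * hi := by
  rcases hxy.eq_or_lt with rfl | h
  · simp
  have hs : Icc x y ⊆ Icc a b := Icc_subset_Icc hx hy
  obtain ⟨z, hz, e⟩ := exists_hasDerivAt_eq_slope f f1 h
    (fun z hz => (hd z (hs hz)).continuousAt.continuousWithinAt)
    fun z hz => hd z (hs (Ioo_subset_Icc_self hz))
  have h1 := hb z (hs (Ioo_subset_Icc_self hz))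
  rw [e, le_div_iff₀ (sub_pos.2 h), div_le_iff₀ (sub_pos.2 h)] at h1
  exact ⟨by linarith [h1.1], by linarith [h1.2]⟩

lemma vanish {a b : ℝ} {ω : ℝ → ℂ} (h : Supp a b ω) (hab : b < a) (x : ℝ) : ω x = 0 :=
  h x ((le_total x a).imp id fun h' => hab.le.trans h')

/-- the statement for a fixed order -/
def St (r : ℕ) : Prop := ∀ (θ κ : ℝ), 0 < θ → θ ≤ 1 → 1 ≤ κ → ∃ C δ : ℝ, 0 < C ∧ 0 < δ ∧
  ∀ (a b X l : ℝ) (ω ω1 : ℝ → ℂ) (g : ℕ → ℝ → ℝ) (s : Finset ℤ), 1 ≤ X → b - a ≤ X →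
  Amp a b 1 (κ / X) ω ω1 → Supp a b ω →
  (∀ j ≤ r + 1, ∀ x ∈ Icc a b, HasDerivAt (g j) (g (j + 1) x) x) →
  (∀ x ∈ Icc a b, l ≤ g (r + 2) x ∧ g (r + 2) x ≤ κ * l) →
  X ^ (-2 + θ) ≤ κ * l → l ≤ κ * X ^ (-θ) → Cov s a b →
  ‖∑ n ∈ s, ω n * e (g 0 n)‖ ≤ C * X ^ (1 - δ)

lemma base (hp : PsS) (hs : SdS) : St 0 := by
  intro θ κ h0 h1 hκ
  obtain ⟨C, hC, hp⟩ := hp
  refine ⟨C * (6 * κ ^ 2 + 2) + 154 * κ ^ 3, θ / 2, by positivity, by positivity,
    fun a b X l ω ω1 g s hX hab hA hS hd ht hl hu hc => ?_⟩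
  have hX0 : 0 < X := by linarith
  have hκ0 : 0 < κ := by linarith
  rcases lt_or_ge b a with hba | hba
  · simp only [vanish hS hba, zero_mul, Finset.sum_const_zero, norm_zero]; positivity
  set P := X ^ (1 - θ / 2) with hP
  have hP0 : 0 < P := by positivity
  have hPX : √X ≤ P := by
    rw [Real.sqrt_eq_rpow]
    exact Real.rpow_le_rpow_of_exponent_le hX (by linarith)
  have hP1 : 1 ≤ P := (Real.one_le_sqrt.2 hX).trans hPX
  have hl0 : 0 < l := (mul_pos_iff_of_pos_left hκ0).1 ((Real.rpow_pos_of_pos hX0 _).trans_le hl)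
  have q1 : X ^ (-2 + θ) * P ^ 2 = 1 := by
    rw [hP, ← Real.rpow_natCast, ← Real.rpow_mul hX0.le, ← Real.rpow_add hX0]
    rw [show -2 + θ + (1 - θ / 2) * ((2 : ℕ) : ℝ) = 0 by push_cast; ring, Real.rpow_zero]
  have q2 : X ^ (-θ) * X ^ 2 = P ^ 2 := by
    rw [hP, ← Real.rpow_natCast, ← Real.rpow_natCast, ← Real.rpow_mul hX0.le, ← Real.rpow_add hX0]
    congr 1; push_cast; ring
  have hq : 0 < √l := Real.sqrt_pos.2 hl0
  have hqq : √l ^ 2 = l := Real.sq_sqrt hl0.le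
  have hκ2 : κ ≤ κ ^ 2 := by nlinarith
  have q3 : 1 ≤ κ * P * √l := by
    refine (one_le_sq_iff₀ (by positivity)).1 ?_
    rw [mul_pow, mul_pow, hqq, ← q1]
    calc _ ≤ κ * l * P ^ 2 := by gcongr
      _ ≤ κ ^ 2 * l * P ^ 2 := by gcongr
      _ = _ := by ring
  have q4 : √l * X ≤ κ * P := by
    refine (pow_le_pow_iff_left₀ (by positivity) (by positivity) two_ne_zero).1 ?_
    rw [mul_pow, mul_pow, hqq, ← q2]
    calc _ ≤ κ * X ^ (-θ) * X ^ 2 := by gcongr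
      _ ≤ κ ^ 2 * X ^ (-θ) * X ^ 2 := by gcongr
      _ = _ := by ring
  have hlκ : l ≤ κ := hu.trans (mul_le_of_le_one_right hκ0.le
    (Real.rpow_le_one_of_one_le_of_nonpos hX (by linarith)))
  set c : ℤ := ⌊g 1 a⌋ with hcd
  set Y := 1 + κ * l * X with hY
  have hY0 : 0 ≤ κ * l * X := by positivity
  have hY1 : κ * l * X ≤ κ ^ 2 * X := by rw [sq]; gcongr
  have hκX : 1 ≤ κ ^ 2 * X := one_le_mul_of_one_le_of_one_le (hκ.trans hκ2) hX
  have hL1 : 2 * Y ≤ (⌈2 * Y⌉₊ : ℝ) := Nat.le_ceil _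
  have hL2 : (⌈2 * Y⌉₊ : ℝ) < 2 * Y + 1 := Nat.ceil_lt_add_one (by positivity)
  have hPh : ∀ m : ℝ, Ph a b (fun x => g 0 x - c * x + m * x) (fun x => g 1 x - c + m) (g 2) :=
    fun m => ⟨fun x hx => by
      exact (((hd 0 (by omega) x hx).sub ((hasDerivAt_id x).const_mul (c : ℝ))).add
        ((hasDerivAt_id x).const_mul m)).congr_deriv (by simp),
      fun x hx => ((hd 1 le_rfl x hx).sub_const _).add_const _⟩
  have h2 := hp a b 1 (κ / X) Y (κ * l) (6 * (κ ^ 2 * X)) ω ω1 (fun x => g 0 x - c * x)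
    (fun x => g 1 x - c) (g 2) ⌈2 * Y⌉₊ s hba hA hS (by simpa using hPh 0) (fun x hx => by
      have h3 := slope (hd 1 le_rfl) ht le_rfl hx.1 hx.2
      have h4 : (x - a) * (κ * l) ≤ X * (κ * l) := by gcongr; linarith [hx.2]
      have h5 : 0 ≤ (x - a) * l := mul_nonneg (sub_nonneg.2 hx.1) hl0.le
      rw [abs_le]
      constructor <;> linarith [Int.floor_le (g 1 a), Int.lt_floor_add_one (g 1 a), h3.1, h3.2])
    (fun x hx => by rw [abs_of_nonneg (hl0.le.trans (ht x hx).1)]; exact (ht x hx).2)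
    (by linarith) (by linarith)
    (by linarith [le_mul_of_one_le_left hX0.le (hκ.trans hκ2)]) (by linarith)
    (by linarith [div_le_self hκ0.le hX, le_mul_of_one_le_right (sq_nonneg κ) hX])
    (by linarith) hc
  have h3 : ∑ n ∈ s, ω n * e (g 0 n - c * n) = ∑ n ∈ s, ω n * e (g 0 n) :=
    Finset.sum_congr rfl fun n _ => by
      rw [e_sub, ← Int.cast_mul, e_int]; simp
  rw [h3] at h2
  have h4 : (b - a) * (κ / X) ≤ κ := by
    rw [← mul_div_assoc, div_le_iff₀ hX0, mul_comm κ]; gcongr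
  have h5 : ‖∑ m ∈ Finset.Icc (-(⌈2 * Y⌉₊ : ℤ)) ⌈2 * Y⌉₊,
      ∫ x in a..b, ω x * e (g 0 x - c * x + m * x)‖ ≤ 154 * κ ^ 3 * P := by
    refine (norm_sum_le _ _).trans ((Finset.sum_le_card_nsmul _ _ (14 * κ / √l)
      fun m _ => ?_).trans ?_)
    · refine (hs a b 1 (κ / X) l ω ω1 _ _ _ hba hA (hPh m) hl0
        (Or.inl fun x hx => (ht x hx).1)).trans ?_
      gcongr
      linarith
    · have h6 : ((Finset.Icc (-(⌈2 * Y⌉₊ : ℤ)) ⌈2 * Y⌉₊).card : ℝ) = 2 * ⌈2 * Y⌉₊ + 1 := by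
        rw [Int.card_Icc, show (⌈2 * Y⌉₊ : ℤ) + 1 - -(⌈2 * Y⌉₊ : ℤ) =
          ((2 * ⌈2 * Y⌉₊ + 1 : ℕ) : ℤ) by push_cast; ring, Int.toNat_natCast]
        push_cast; ring
      rw [nsmul_eq_mul, h6, ← mul_div_assoc, div_le_iff₀ hq]
      have h7 : κ * l * X ≤ κ ^ 2 * P * √l := by
        calc κ * l * X = κ * √l * (√l * X) := by rw [← hqq]; simp only [hqq]; nlinarith
          _ ≤ κ * √l * (κ * P) := by gcongr
          _ = _ := by ring
      have h8 : κ * P * √l ≤ κ ^ 2 * P * √l := by gcongr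
      calc _ ≤ (11 * (κ ^ 2 * P * √l)) * (14 * κ) := by gcongr; linarith
        _ = _ := by ring
  have h6 : Real.log (6 * (κ ^ 2 * X)) ≤ 6 * κ * P := by
    have h7 : √(6 * (κ ^ 2 * X)) ≤ 3 * κ * √X := by
      rw [Real.sqrt_le_iff, mul_pow, mul_pow, Real.sq_sqrt hX0.le]
      exact ⟨by positivity, by linarith⟩
    have h8 := Real.log_le_sub_one_of_pos (Real.sqrt_pos.2 (show 0 < 6 * (κ ^ 2 * X) by linarith))
    rw [Real.log_sqrt (by linarith)] at h8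
    have h9 : 3 * κ * √X ≤ 3 * κ * P := by gcongr
    linarith
  have h7 : (b - a) * (κ / X) * Real.log (6 * (κ ^ 2 * X)) ≤ κ * (6 * κ * P) :=
    mul_le_mul h4 h6 (Real.log_nonneg (by linarith)) hκ0.le
  have h8 : (b - a) * 1 * (κ * l) / ((⌈2 * Y⌉₊ : ℝ) + 1) ≤ 1 := by
    rw [div_le_one (by positivity)]
    have : (b - a) * 1 * (κ * l) ≤ X * 1 * (κ * l) := by gcongr
    linarith
  have h9 : 1 / (6 * (κ ^ 2 * X)) ≤ 1 := by rw [div_le_one (by linarith)]; linarith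
  have h10 := norm_le_insert' (∑ n ∈ s, ω n * e (g 0 n)) (∑ m ∈ Finset.Icc (-(⌈2 * Y⌉₊ : ℤ))
    ⌈2 * Y⌉₊, ∫ x in a..b, ω x * e (g 0 x - c * x + m * x))
  have h11 := h2.trans (mul_le_mul_of_nonneg_left
    (show _ ≤ (6 * κ ^ 2 + 2) * P by linarith) hC.le)
  linarith

lemma step {r : ℕ} (ih : St r) : St (r + 1) := by
  intro θ κ h0 h1 hκ
  obtain ⟨C, δ, hC, hδ, ih⟩ := ih (θ / 2) (2 * κ) (by positivity) (by linarith) (by linarith)
  refine ⟨50 + 5 * C, min (θ / 4) (δ / 2), by positivity, by positivity,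
    fun a b X l ω ω1 g s hX hab hA hS hd ht hl hu hc => ?_⟩
  have hX0 : 0 < X := by linarith
  have hκ0 : 0 < κ := by linarith
  rcases lt_or_ge b a with hba | hba
  · simp only [vanish hS hba, zero_mul, Finset.sum_const_zero, norm_zero]; positivity
  have hl0 : 0 < l := (mul_pos_iff_of_pos_left hκ0).1 ((Real.rpow_pos_of_pos hX0 _).trans_le hl)
  set H := ⌊X ^ (θ / 2)⌋₊ with hH
  have q0 : 1 ≤ X ^ (θ / 2) := Real.one_le_rpow hX (by positivity)
  have q1 : (H : ℝ) ≤ X ^ (θ / 2) := Nat.floor_le (by positivity)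
  have q2 : (1 : ℝ) ≤ H := by exact_mod_cast (Nat.one_le_floor_iff _).2 q0
  have q3 : X ^ (θ / 2) ≤ 2 * H := by linarith [Nat.lt_floor_add_one (X ^ (θ / 2))]
  have q4 : X ^ (θ / 2) ≤ X := by
    simpa using Real.rpow_le_rpow_of_exponent_le hX (show θ / 2 ≤ 1 by linarith)
  set T := Finset.Icc (⌊a⌋ - H) ⌊b⌋ with hT
  have hTc : (T.card : ℝ) ≤ 5 * X := by
    have h2 : ⌊a⌋ ≤ ⌊b⌋ := Int.floor_mono hba
    have h3 : (T.card : ℤ) = ⌊b⌋ + 1 - (⌊a⌋ - H) := Int.card_Icc_of_le _ _ (by omega)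
    have h4 : (T.card : ℝ) = ⌊b⌋ + 1 - (⌊a⌋ - H) := by exact_mod_cast h3
    linarith [Int.floor_le b, Int.lt_floor_add_one a]
  have hcov : ∀ i < H, ∀ b' ≤ b, Cov (T.map (addRightEmbedding ((i : ℕ) : ℤ))) a b' := by
    intro i hi b' hb' n h2 h3
    have h4 : ⌊a⌋ ≤ n := Int.floor_le_iff.2 (by linarith)
    have h5 : n ≤ ⌊b⌋ := Int.le_floor.2 (by linarith)
    exact Finset.mem_map.2 ⟨n - i, Finset.mem_Icc.2 ⟨by omega, by omega⟩, by simp⟩
  have hω : ∀ x, ‖ω x‖ ≤ 1 := fun x => by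
    by_cases hx : x ∈ Icc a b
    · exact hA.b0 x hx
    · rw [hS x (by
        rw [mem_Icc, not_and_or, not_le, not_le] at hx
        exact hx.imp le_of_lt le_of_lt), norm_zero]
      exact zero_le_one
  have h2 := vdc (fun n => ω n * e (g 0 n)) T H (∑ n ∈ s, ω n * e (g 0 n)) (C * X ^ (1 - δ))
    (by positivity) (fun n => by simpa using hω n) (fun i hi => by
      have h3 := sum_cov (c := fun n => ω n * e (g 0 n)) (fun n hn => by simp [hS n hn])
        (hcov i hi b le_rfl) hc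
      rw [Finset.sum_map] at h3
      exact h3) (fun i hi j hj => by
      obtain ⟨h, rfl⟩ := Nat.exists_eq_add_of_lt hj
      have p0 : (0 : ℝ) ≤ h := Nat.cast_nonneg h
      have p1 : (h : ℝ) + 1 ≤ H := by exact_mod_cast (show h + 1 ≤ H by omega)
      have m1 : ∀ x ∈ Icc a (b - (h + 1)), x ∈ Icc a b := fun x hx => ⟨hx.1, by linarith [hx.2]⟩
      have m2 : ∀ x ∈ Icc a (b - (h + 1)), x + (h + 1) ∈ Icc a b := fun x hx =>
        ⟨by linarith [hx.1], by linarith [hx.2]⟩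
      have h3 := ih a (b - (h + 1)) X ((h + 1) * l) (fun x => ω (x + (h + 1)) * conj (ω x))
        (fun x => ω1 (x + (h + 1)) * conj (ω x) + ω (x + (h + 1)) * conj (ω1 x))
        (fun k x => g k (x + (h + 1)) - g k x) _ hX (by linarith)
        ⟨fun x hx => ((hA.der _ (m2 x hx)).comp_add_const x _).mul (hA.der x (m1 x hx)).star,
          fun x _ => by
            rw [norm_mul, Complex.norm_conj]
            exact mul_le_one₀ (hω _) (norm_nonneg _) (hω _),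
          fun x hx => by
            refine (norm_add_le _ _).trans ?_
            rw [norm_mul, norm_mul, Complex.norm_conj, Complex.norm_conj, mul_div_assoc]
            have a1 := mul_le_mul (hA.b1 _ (m2 x hx)) (hω x) (norm_nonneg _) (by positivity)
            have a2 := mul_le_mul (hω (x + (h + 1))) (hA.b1 _ (m1 x hx)) (norm_nonneg _) zero_le_one
            linarith⟩
        (fun x hx => by
          rcases hx with hx | hx
          · simp [hS x (Or.inl hx)]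
          · simp [hS (x + (h + 1)) (Or.inr (by linarith))])
        (fun k hk x hx => ((hd k (by omega) _ (m2 x hx)).comp_add_const x _).sub
          (hd k (by omega) x (m1 x hx)))
        (fun x hx => by
          have a1 := slope (hd (r + 2) le_rfl) ht hx.1 (y := x + (h + 1)) (by linarith) (m2 x hx).2
          rw [add_sub_cancel_left] at a1
          have a2 : 0 ≤ (h + 1) * (κ * l) := by positivity
          exact ⟨a1.1, by linarith [a1.2]⟩)
        (by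
          have a1 : X ^ (-2 + θ / 2) ≤ X ^ (-2 + θ) :=
            Real.rpow_le_rpow_of_exponent_le hX (by linarith)
          have a2 : 0 ≤ h * (κ * l) := by positivity
          have a3 : 0 ≤ κ * l := by positivity
          linarith)
        (by
          have a1 : X ^ (θ / 2) * X ^ (-θ) = X ^ (-(θ / 2)) := by
            rw [← Real.rpow_add hX0]; congr 1; ring
          have a2 : (h + 1) * l ≤ X ^ (θ / 2) * (κ * X ^ (-θ)) := by gcongr; linarith
          have a3 : 0 ≤ κ * X ^ (-(θ / 2)) := by positivity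
          rw [mul_left_comm, a1] at a2
          linarith)
        (hcov j (by omega) _ (by linarith))
      rw [Finset.sum_map] at h3
      refine le_trans (le_of_eq ?_) h3
      congr 1
      refine Finset.sum_congr rfl fun n _ => ?_
      simp only [addRightEmbedding_apply, e_sub, map_mul]
      push_cast
      rw [show (n : ℝ) + (j + h + 1) = n + j + (h + 1) by ring]
      ring)
  set d := min (θ / 4) (δ / 2) with hd'
  have r0 : (X ^ (1 - d)) ^ 2 = X ^ (2 - 2 * d) := by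
    rw [← Real.rpow_natCast, ← Real.rpow_mul hX0.le]; congr 1; push_cast; ring
  have r1 : X * X ^ (1 - δ) ≤ X ^ (2 - 2 * d) := by
    rw [show X * X ^ (1 - δ) = X ^ (1 + (1 - δ)) by rw [Real.rpow_add hX0, Real.rpow_one]]
    exact Real.rpow_le_rpow_of_exponent_le hX (by linarith [min_le_right (θ / 4) (δ / 2)])
  have r2 : X ^ 2 ≤ 2 * H * X ^ (2 - 2 * d) := by
    calc X ^ 2 = X ^ (θ / 2) * X ^ (2 - θ / 2) := by
          rw [← Real.rpow_add hX0, ← Real.rpow_natCast]; congr 1; push_cast; ring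
      _ ≤ _ := mul_le_mul q3 (Real.rpow_le_rpow_of_exponent_le hX
          (by linarith [min_le_left (θ / 4) (δ / 2)])) (by positivity) (by positivity)
  refine (pow_le_pow_iff_left₀ (norm_nonneg _) (by positivity) two_ne_zero).1 ?_
  rw [mul_pow, r0]
  refine le_of_mul_le_mul_left (h2.trans ?_) (show (0 : ℝ) < H ^ 2 by positivity)
  have r3 : 0 ≤ X ^ (2 - 2 * d) := by positivity
  calc _ ≤ 5 * X * (H * (5 * X) + H ^ 2 * (C * X ^ (1 - δ))) := by gcongr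
    _ = 25 * H * X ^ 2 + H ^ 2 * (5 * C * (X * X ^ (1 - δ))) := by ring
    _ ≤ 25 * H * (2 * H * X ^ (2 - 2 * d)) + H ^ 2 * (5 * C * X ^ (2 - 2 * d)) := by gcongr
    _ = H ^ 2 * ((50 + 5 * C) * X ^ (2 - 2 * d)) := by ring
    _ ≤ _ := by gcongr; nlinarith

end WeylAux

theorem weyl (hp : PsS) (hs : SdS) : WeylS := fun r => by
  induction r with
  | zero => exact WeylAux.base hp hs
  | succ r ih => exact WeylAux.step ih

end Pool.Agent.Lib.MP_80d0cf_nt.Up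
end
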