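import Pool.Agent.Lib.MP_80d0cf_nt.Up.Lev
import Pool.Agent.Lib.MP_80d0cf_nt.Six.Zeta

-- part Pool.Agent.Lib.MP_80d0cf_nt.Up.Fin
section

/-! Moments of zeta from the level set estimates. -/

open Set MeasureTheory

namespace Pool.Agent.Lib.MP_80d0cf_nt.Up

namespace FinAux

lemma layer_pt {A W q y : ℝ} (hA : 0 ≤ A) (hW : 0 ≤ W) (hq : 0 ≤ q) (hy : 0 ≤ y) (J : ℕ)
    (h : y ≤ W * q ^ J) : y ^ A ≤ W ^ A +
      ∑ j ∈ Finset.range J, if W * q ^ j ≤ y then (W * q ^ (j + 1)) ^ A else 0 := by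
  induction J with
  | zero => simpa using Real.rpow_le_rpow hy (by simpa using h) hA
  | succ J ih =>
    rw [Finset.sum_range_succ]
    have h0 : 0 ≤ ∑ j ∈ Finset.range J, if W * q ^ j ≤ y then (W * q ^ (j + 1)) ^ A else 0 :=
      Finset.sum_nonneg fun j _ => by split_ifs <;> positivity
    by_cases h1 : W * q ^ J ≤ y
    · rw [if_pos h1]
      have h2 := Real.rpow_le_rpow hy h hA
      have h3 : 0 ≤ W ^ A := by positivity
      linarith
    · rw [if_neg h1, add_zero]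
      exact ih (not_le.1 h1).le

/-- layer cake bound with geometric levels -/
lemma layer {a b A W q : ℝ} {F : ℝ → ℂ} (hab : a ≤ b) (hF : Continuous F) (hA : 0 ≤ A)
    (hW : 0 ≤ W) (hq : 0 ≤ q) (J : ℕ) (h : ∀ τ ∈ Icc a b, ‖F τ‖ ≤ W * q ^ J) :
    ∫ τ in a..b, ‖F τ‖ ^ A ≤ W ^ A * (b - a) +
      ∑ j ∈ Finset.range J, (W * q ^ (j + 1)) ^ A * lev a b F (W * q ^ j) := by
  set S : ℕ → Set ℝ := fun j => {τ | τ ∈ Icc a b ∧ W * q ^ j ≤ ‖F τ‖} with hS
  have hSm : ∀ j, MeasurableSet (S j) := fun j =>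
    (isClosed_levSet hF.continuousOn).measurableSet
  have hc : Continuous fun τ => ‖F τ‖ ^ A := hF.norm.rpow_const fun _ => Or.inr hA
  have hi : ∀ j, IntegrableOn ((S j).indicator fun _ => (W * q ^ (j + 1)) ^ A) (Icc a b) :=
    fun j => (continuous_const.integrableOn_Icc).indicator (hSm j)
  rw [intervalIntegral.integral_of_le hab, ← integral_Icc_eq_integral_Ioc]
  calc ∫ τ in Icc a b, ‖F τ‖ ^ A
      ≤ ∫ τ in Icc a b, (W ^ A + ∑ j ∈ Finset.range J,
          (S j).indicator (fun _ => (W * q ^ (j + 1)) ^ A) τ) := by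
        refine setIntegral_mono_on hc.integrableOn_Icc
          (continuous_const.integrableOn_Icc.add (integrable_finsetSum _ fun j _ => hi j))
          measurableSet_Icc fun τ hτ => ?_
        refine (layer_pt hA hW hq (norm_nonneg _) J (h τ hτ)).trans (le_of_eq ?_)
        congr 1
        refine Finset.sum_congr rfl fun j _ => ?_
        by_cases h1 : W * q ^ j ≤ ‖F τ‖
        · rw [if_pos h1, indicator_of_mem (show τ ∈ S j from ⟨hτ, h1⟩)]
        · rw [if_neg h1, indicator_of_notMem (fun h2 : τ ∈ S j => h1 h2.2)]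
    _ = _ := by
        rw [integral_add continuous_const.integrableOn_Icc
          (integrable_finsetSum _ fun j _ => hi j), integral_finsetSum _ fun j _ => hi j]
        congr 1
        · simp [hab, mul_comm]
        · refine Finset.sum_congr rfl fun j _ => ?_
          rw [integral_indicator_const _ (hSm j), measureReal_restrict_apply (hSm j),
            inter_eq_left.2 (fun τ (hτ : τ ∈ S j) => hτ.1), smul_eq_mul, mul_comm]
          rfl

lemma sum_rpow_le {A x : ℝ} (hA : 0 < A) (hx : 0 ≤ x) (n : ℕ) {y : ℕ → ℝ} (hy : ∀ j, 0 ≤ y j) :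
    (x + ∑ j ∈ Finset.range n, y j) ^ A ≤
      ((n : ℝ) + 1) ^ A * (x ^ A + ∑ j ∈ Finset.range n, y j ^ A) := by
  set S := x ^ A + ∑ j ∈ Finset.range n, y j ^ A with hS
  have h0 : 0 ≤ ∑ j ∈ Finset.range n, y j ^ A :=
    Finset.sum_nonneg fun j _ => Real.rpow_nonneg (hy j) _
  have hxA : 0 ≤ x ^ A := by positivity
  have hS0 : 0 ≤ S := by positivity
  have h1 : x ≤ S ^ A⁻¹ := (Real.le_rpow_inv_iff_of_pos hx hS0 hA).2 (by linarith)
  have h2 : ∀ j ∈ Finset.range n, y j ≤ S ^ A⁻¹ := fun j hj => by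
    refine (Real.le_rpow_inv_iff_of_pos (hy j) hS0 hA).2 ?_
    have := Finset.single_le_sum (f := fun j => y j ^ A)
      (fun j _ => Real.rpow_nonneg (hy j) _) hj
    linarith
  have h3 := Finset.sum_le_card_nsmul _ _ _ h2
  rw [Finset.card_range, nsmul_eq_mul] at h3
  calc _ ≤ (((n : ℝ) + 1) * S ^ A⁻¹) ^ A :=
        Real.rpow_le_rpow (add_nonneg hx (Finset.sum_nonneg fun j _ => hy j)) (by linarith) hA.le
    _ = _ := by
        rw [Real.mul_rpow (by positivity) (by positivity), Real.rpow_inv_rpow hS0 hA.ne']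

lemma norm_DN_le (N : ℕ) (τ : ℝ) : ‖DN N τ‖ ≤ 2 * N := by
  rw [DN]
  refine (norm_sum_le _ _).trans ((Finset.sum_le_card_nsmul _ _ 1 fun n hn => ?_).trans ?_)
  · have h1 : (1 : ℝ) ≤ n := by exact_mod_cast (Finset.mem_Icc.1 hn).1
    have h2 : (1 : ℝ) ≤ √n := Real.one_le_sqrt.2 h1
    rw [norm_mul, norm_e, mul_one, Complex.norm_real, Real.norm_eq_abs, abs_div,
      abs_of_pos (by linarith : (0 : ℝ) < √n), div_le_one (by linarith)]
    exact (abs_wN_le _).trans h2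
  · simp

/-- the three level set estimates combined -/
lemma lev_all (h4 : A4S) (h12 : A12S) (h8 : A8S) {A : ℝ} (hA4 : 4 < A) (hA12 : A < 12) :
    ∃ d : ℝ, 0 < d ∧ d ≤ (A - 4) / 8 ∧ ∀ ε : ℝ, 0 < ε → ∃ T0 : ℝ, 1 ≤ T0 ∧ ∀ (T V : ℝ) (N : ℕ),
      T0 ≤ T → 1 ≤ N → (N : ℝ) ≤ 16 * T → T ^ ε ≤ V →
      V ^ A * lev (2 * T) (3 * T) (DN N) V ≤ T ^ (1 + (A - 4) / 8 - d + ε) := by
  obtain ⟨κ, T8, hκ, hκ1, h8⟩ := h8
  refine ⟨min ((A - 4) * κ) ((12 - A) * κ), lt_min (by nlinarith) (by nlinarith),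
    (min_le_left _ _).trans (by nlinarith), fun ε hε => ?_⟩
  have d1 := min_le_left ((A - 4) * κ) ((12 - A) * κ)
  have d2 := min_le_right ((A - 4) * κ) ((12 - A) * κ)
  set d := min ((A - 4) * κ) ((12 - A) * κ)
  obtain ⟨T4, h4⟩ := h4 ε hε
  obtain ⟨T12, h12⟩ := h12 ε hε
  refine ⟨max 1 (max T8 (max T4 T12)), le_max_left _ _, fun T V N hT hN hNT hV => ?_⟩
  simp only [max_le_iff] at hT
  obtain ⟨hT1, hT8, hT4, hT12⟩ := hT
  have hT0 : 0 < T := by linarith
  have hV0 : 0 < V := (Real.rpow_pos_of_pos hT0 ε).trans_le hV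
  have hVA : 0 ≤ V ^ A := by positivity
  rcases le_total V (T ^ (1 / 8 - κ)) with h1 | h1
  · have e : V ^ A * (T ^ (1 + ε) / V ^ 4) = T ^ (1 + ε) * V ^ (A - 4) := by
      rw [Real.rpow_sub hV0, ← Real.rpow_natCast V 4]; push_cast; ring
    calc _ ≤ V ^ A * (T ^ (1 + ε) / V ^ 4) :=
          mul_le_mul_of_nonneg_left (h4 T V N hT4 hN hNT hV) hVA
      _ ≤ T ^ (1 + ε) * (T ^ (1 / 8 - κ)) ^ (A - 4) := by
          rw [e]
          exact mul_le_mul_of_nonneg_left (Real.rpow_le_rpow hV0.le h1 (by linarith))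
            (by positivity)
      _ ≤ _ := by
          rw [← Real.rpow_mul hT0.le, ← Real.rpow_add hT0]
          exact Real.rpow_le_rpow_of_exponent_le hT1 (by nlinarith)
  rcases le_total V (T ^ (1 / 8 + κ)) with h2 | h2
  · calc _ ≤ (T ^ (1 / 8 + κ)) ^ A * T ^ (1 / 2 - 40 * κ) :=
          mul_le_mul (Real.rpow_le_rpow hV0.le h2 (by linarith))
            ((lev_anti _ _ _ h1).trans (h8 T N hT8 hN hNT)) (lev_nonneg _ _ _ _) (by positivity)
      _ ≤ _ := by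
          rw [← Real.rpow_mul hT0.le, ← Real.rpow_add hT0]
          exact Real.rpow_le_rpow_of_exponent_le hT1 (by nlinarith)
  · have e : V ^ A * (T ^ (2 + ε) / V ^ 12) = T ^ (2 + ε) * V ^ (A - 12) := by
      rw [Real.rpow_sub hV0, ← Real.rpow_natCast V 12]; push_cast; ring
    calc _ ≤ V ^ A * (T ^ (2 + ε) / V ^ 12) :=
          mul_le_mul_of_nonneg_left (h12 T V N hT12 hN hNT hV) hVA
      _ ≤ T ^ (2 + ε) * (T ^ (1 / 8 + κ)) ^ (A - 12) := by
          rw [e]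
          exact mul_le_mul_of_nonneg_left
            (Real.rpow_le_rpow_of_nonpos (by positivity) h2 (by linarith)) (by positivity)
      _ ≤ _ := by
          rw [← Real.rpow_mul hT0.le, ← Real.rpow_add hT0]
          exact Real.rpow_le_rpow_of_exponent_le hT1 (by nlinarith)

/-- moments of the dyadic pieces -/
lemma mom_DN (h4 : A4S) (h12 : A12S) (h8 : A8S) {A : ℝ} (hA4 : 4 < A) (hA12 : A < 12) :
    ∃ d : ℝ, 0 < d ∧ d ≤ (A - 4) / 8 ∧ ∀ ε : ℝ, 0 < ε → ∃ C T0 : ℝ, 1 ≤ C ∧ 1 ≤ T0 ∧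
      ∀ (T : ℝ) (N : ℕ), T0 ≤ T → 1 ≤ N → (N : ℝ) ≤ 16 * T →
      ∫ τ in (2 * T)..(3 * T), ‖DN N τ‖ ^ A ≤ C * T ^ (1 + (A - 4) / 8 - d + 13 * ε) := by
  obtain ⟨d, hd, hd1, h⟩ := lev_all h4 h12 h8 hA4 hA12
  refine ⟨d, hd, hd1, fun ε hε => ?_⟩
  obtain ⟨T0, hT0, h⟩ := h ε hε
  obtain ⟨J, hJ⟩ := exists_nat_ge (2 / ε)
  have hJ0 : (0 : ℝ) ≤ J := Nat.cast_nonneg J
  refine ⟨1 + J, max T0 32, by linarith, le_max_of_le_left hT0, fun T N hT hN hNT => ?_⟩
  simp only [max_le_iff] at hT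
  have hT1 : 1 ≤ T := by linarith [hT.2]
  have hTp : 0 < T := by linarith
  have hq : 1 ≤ T ^ ε := Real.one_le_rpow hT1 hε.le
  have hb : ∀ τ ∈ Icc (2 * T) (3 * T), ‖DN N τ‖ ≤ T ^ ε * (T ^ ε) ^ J := by
    intro τ _
    have h1 : T ^ (2 : ℝ) ≤ (T ^ ε) ^ J := by
      rw [← Real.rpow_natCast, ← Real.rpow_mul hTp.le]
      refine Real.rpow_le_rpow_of_exponent_le hT1 ?_
      rw [div_le_iff₀ hε] at hJ
      linarith
    rw [Real.rpow_two] at h1
    have h2 : (T ^ ε) ^ J ≤ T ^ ε * (T ^ ε) ^ J := le_mul_of_one_le_left (by positivity) hq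
    have h3 := norm_DN_le N τ
    nlinarith [hT.2]
  refine (layer (by linarith) (continuous_DN N) (by linarith) (by positivity) (by positivity) J
    hb).trans ?_
  have hA : (T ^ ε) ^ A ≤ T ^ (12 * ε) := by
    rw [← Real.rpow_mul hTp.le]
    exact Real.rpow_le_rpow_of_exponent_le hT1 (by nlinarith)
  have h1 : (T ^ ε) ^ A * (3 * T - 2 * T) ≤ T ^ (1 + (A - 4) / 8 - d + 13 * ε) := by
    calc _ ≤ T ^ (12 * ε) * T ^ (1 : ℝ) := by
          rw [Real.rpow_one, show 3 * T - 2 * T = T by ring]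
          exact mul_le_mul_of_nonneg_right hA hTp.le
      _ ≤ _ := by
          rw [← Real.rpow_add hTp]
          exact Real.rpow_le_rpow_of_exponent_le hT1 (by linarith)
  have h2 : ∀ j ∈ Finset.range J, (T ^ ε * (T ^ ε) ^ (j + 1)) ^ A *
      lev (2 * T) (3 * T) (DN N) (T ^ ε * (T ^ ε) ^ j) ≤ T ^ (1 + (A - 4) / 8 - d + 13 * ε) := by
    intro j _
    have h3 := h T (T ^ ε * (T ^ ε) ^ j) N hT.1 hN hNT
      (le_mul_of_one_le_right (by positivity) (one_le_pow₀ hq))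
    calc _ = (T ^ ε) ^ A * ((T ^ ε * (T ^ ε) ^ j) ^ A *
            lev (2 * T) (3 * T) (DN N) (T ^ ε * (T ^ ε) ^ j)) := by
          rw [← mul_assoc, ← Real.mul_rpow (by positivity) (by positivity)]
          congr 2
          ring
      _ ≤ T ^ (12 * ε) * T ^ (1 + (A - 4) / 8 - d + ε) :=
          mul_le_mul hA h3 (mul_nonneg (by positivity) (lev_nonneg _ _ _ _)) (by positivity)
      _ = _ := by
          rw [← Real.rpow_add hTp]
          congr 1
          ring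
  have h3 := Finset.sum_le_card_nsmul _ _ _ h2
  rw [Finset.card_range, nsmul_eq_mul] at h3
  linarith

lemma continuous_zeta : Continuous fun t : ℝ => riemannZeta (1 / 2 + t * Complex.I) := by
  refine continuous_iff_continuousAt.2 fun t => ?_
  have hne : (1 / 2 + t * Complex.I : ℂ) ≠ 1 := by
    intro h
    have := congrArg Complex.re h
    norm_num at this
  exact (differentiableAt_riemannZeta hne).continuousAt.comp
    (f := fun t : ℝ => (1 / 2 + t * Complex.I : ℂ)) (by fun_prop)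

lemma log_count {T : ℝ} (hT : 1 ≤ T) :
    ((2 ^ Nat.log 2 ⌊16 * T⌋₊ : ℕ) : ℝ) ≤ 16 * T ∧
      ((Nat.log 2 ⌊16 * T⌋₊ + 1 : ℕ) : ℝ) + 1 ≤ 8 * Real.log (T + 2) := by
  have h0 : ⌊16 * T⌋₊ ≠ 0 := by
    rw [← Nat.pos_iff_ne_zero, Nat.floor_pos]; linarith
  have h1 : ((2 ^ Nat.log 2 ⌊16 * T⌋₊ : ℕ) : ℝ) ≤ 16 * T :=
    le_trans (by exact_mod_cast Nat.pow_log_le_self 2 h0) (Nat.floor_le (by linarith))
  refine ⟨h1, ?_⟩
  have h2 : 16 * T ≤ (T + 2) ^ 4 := by
    have : (3 : ℝ) ^ 3 ≤ (T + 2) ^ 3 := pow_le_pow_left₀ (by norm_num) (by linarith) 3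
    nlinarith
  have h3 := Real.log_le_log (by positivity) (h1.trans h2)
  push_cast at h3 ⊢
  rw [Real.log_pow, Real.log_pow] at h3
  have h4 := one_le_log_add_two hT
  have h5 : (0 : ℝ) ≤ (Nat.log 2 ⌊16 * T⌋₊ : ℕ) := Nat.cast_nonneg _
  push_cast at h3
  nlinarith [Real.log_two_gt_d9]

/-- the moment over a short range -/
lemma mom_zeta (h1 : Z1S) (h4 : A4S) (h12 : A12S) (h8 : A8S) {A : ℝ} (hA4 : 4 < A)
    (hA12 : A < 12) : ∃ δ C T0 : ℝ, 0 < δ ∧ δ ≤ (A - 4) / 8 ∧ 0 ≤ C ∧ 1 ≤ T0 ∧ ∀ T, T0 ≤ T →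
      ∫ τ in (2 * T)..(3 * T), ‖riemannZeta (1 / 2 + (2 * Real.pi * τ : ℝ) * Complex.I)‖ ^ A ≤
        C * T ^ (1 + (A - 4) / 8 - δ) := by
  obtain ⟨C1, hC1, h1⟩ := h1
  obtain ⟨d, hd, hd1, h⟩ := mom_DN h4 h12 h8 hA4 hA12
  have hε : 0 < d / 52 := by positivity
  set ε := d / 52 with hεd
  obtain ⟨C, T0, hC, hT0, h⟩ := h ε hε
  obtain ⟨T1, -, hl1⟩ := exists_log_pow_le C1 1 hε
  obtain ⟨T2, -, hl2⟩ := exists_log_pow_le 8 1 hε
  refine ⟨d / 2, 1 + C, max T0 (max T1 T2), by positivity, by linarith, by linarith,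
    le_max_of_le_left hT0, fun T hT => ?_⟩
  simp only [max_le_iff] at hT
  have hT1 : 1 ≤ T := hT0.trans hT.1
  have hTp : 0 < T := by linarith
  have hab : 2 * T ≤ 3 * T := by linarith
  have l1 := hl1 T hT.2.1
  have l2 := hl2 T hT.2.2
  rw [pow_one] at l1 l2
  obtain ⟨c1, c2⟩ := log_count hT1
  set n := Nat.log 2 ⌊16 * T⌋₊ + 1 with hn
  have hlog : 0 ≤ C1 * Real.log (T + 2) := by
    have := one_le_log_add_two hT1
    positivity
  have hA : (T ^ ε) ^ A ≤ T ^ (12 * ε) := by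
    rw [← Real.rpow_mul hTp.le]
    exact Real.rpow_le_rpow_of_exponent_le hT1 (by nlinarith)
  have hcD : ∀ j : ℕ, Continuous fun τ => ‖DN (2 ^ j) τ‖ ^ A := fun j =>
    (continuous_DN _).norm.rpow_const fun _ => Or.inr (by linarith)
  have hcz : Continuous fun τ : ℝ =>
      ‖riemannZeta (1 / 2 + (2 * Real.pi * τ : ℝ) * Complex.I)‖ ^ A :=
    (continuous_zeta.comp (continuous_const.mul continuous_id)).norm.rpow_const
      fun _ => Or.inr (by linarith)
  have hs : Continuous fun τ => ∑ j ∈ Finset.range n, ‖DN (2 ^ j) τ‖ ^ A :=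
    continuous_finsetSum _ fun j _ => hcD j
  have hj : ∀ j ∈ Finset.range n, ∫ τ in (2 * T)..(3 * T), ‖DN (2 ^ j) τ‖ ^ A ≤
      C * T ^ (1 + (A - 4) / 8 - d + 13 * ε) := fun j hj => by
    refine h T _ hT.1 Nat.one_le_two_pow (le_trans ?_ c1)
    exact_mod_cast Nat.pow_le_pow_right two_pos (Nat.lt_succ_iff.1 (Finset.mem_range.1 hj))
  have h3 := Finset.sum_le_card_nsmul _ _ _ hj
  rw [Finset.card_range, nsmul_eq_mul] at h3
  calc _ ≤ ∫ τ in (2 * T)..(3 * T), T ^ (12 * ε) *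
          (T ^ (12 * ε) + ∑ j ∈ Finset.range n, ‖DN (2 ^ j) τ‖ ^ A) := by
        refine intervalIntegral.integral_mono_on hab (hcz.intervalIntegrable _ _)
          ((continuous_const.mul (continuous_const.add hs)).intervalIntegrable _ _) fun τ hτ => ?_
        refine (Real.rpow_le_rpow (norm_nonneg _) (h1 T τ hT1 hτ) (by linarith)).trans ?_
        refine (sum_rpow_le (by linarith) hlog n fun j => norm_nonneg _).trans ?_
        have s0 : 0 ≤ ∑ j ∈ Finset.range n, ‖DN (2 ^ j) τ‖ ^ A :=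
          Finset.sum_nonneg fun j _ => by positivity
        refine mul_le_mul ((Real.rpow_le_rpow (by positivity) (c2.trans l2) (by linarith)).trans hA)
          (add_le_add_left ((Real.rpow_le_rpow hlog l1 (by linarith)).trans hA) _)
          (by positivity) (by positivity)
    _ = T ^ (12 * ε) * (T ^ (12 * ε) * T ^ (1 : ℝ) +
          ∑ j ∈ Finset.range n, ∫ τ in (2 * T)..(3 * T), ‖DN (2 ^ j) τ‖ ^ A) := by
        rw [intervalIntegral.integral_const_mul, intervalIntegral.integral_add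
          (continuous_const.intervalIntegrable _ _) (hs.intervalIntegrable _ _),
          intervalIntegral.integral_finsetSum fun j _ => (hcD j).intervalIntegrable _ _,
          intervalIntegral.integral_const, smul_eq_mul, Real.rpow_one]
        ring
    _ ≤ T ^ (12 * ε) * (T ^ (1 + (A - 4) / 8 - d + 14 * ε) +
          T ^ ε * (C * T ^ (1 + (A - 4) / 8 - d + 13 * ε))) := by
        refine mul_le_mul_of_nonneg_left (add_le_add ?_ (h3.trans ?_)) (by positivity)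
        · rw [← Real.rpow_add hTp]
          exact Real.rpow_le_rpow_of_exponent_le hT1 (by linarith)
        · exact mul_le_mul_of_nonneg_right (by linarith) (by positivity)
    _ = _ := by
        have e1 : T ^ ε * T ^ (1 + (A - 4) / 8 - d + 13 * ε) =
            T ^ (1 + (A - 4) / 8 - d + 14 * ε) := by
          rw [← Real.rpow_add hTp]; congr 1; ring
        have e2 : T ^ (12 * ε) * T ^ (1 + (A - 4) / 8 - d + 14 * ε) =
            T ^ (1 + (A - 4) / 8 - d / 2) := by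
          rw [← Real.rpow_add hTp]; congr 1; rw [hεd]; ring
        rw [mul_left_comm (T ^ ε), e1, ← e2]
        ring

/-- summing the ranges `[2X/3, X]` -/
lemma glue {g : ℝ → ℝ} (hg : Continuous g) (h0 : ∀ t, 0 ≤ g t) {s C X0 : ℝ} (hs : 1 ≤ s)
    (hC : 0 ≤ C) (hX0 : 0 < X0) (h : ∀ X, X0 ≤ X → ∫ t in (2 / 3 * X)..X, g t ≤ C * X ^ s) :
    ∃ C' : ℝ, ∀ X, 1 ≤ X → ∫ t in (0 : ℝ)..X, g t ≤ C' * X ^ s := by
  set B := ∫ t in (0 : ℝ)..X0, g t with hB
  have hB0 : 0 ≤ B := intervalIntegral.integral_nonneg hX0.le fun t _ => h0 t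
  have small : ∀ X, 0 ≤ X → X ≤ X0 → ∫ t in (0 : ℝ)..X, g t ≤ B + 3 * C * X ^ s := by
    intro X h1 h2
    have e := intervalIntegral.integral_add_adjacent_intervals (μ := volume)
      (hg.intervalIntegrable 0 X) (hg.intervalIntegrable X X0)
    have h3 : 0 ≤ ∫ t in X..X0, g t := intervalIntegral.integral_nonneg h2 fun t _ => h0 t
    have h4 : 0 ≤ 3 * C * X ^ s := by positivity
    linarith
  have ind : ∀ m : ℕ, ∀ X, 0 ≤ X → X ≤ X0 * (3 / 2) ^ m →
      ∫ t in (0 : ℝ)..X, g t ≤ B + 3 * C * X ^ s := by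
    intro m
    induction m with
    | zero => intro X h1 h2; exact small X h1 (by simpa using h2)
    | succ m ih =>
      intro X h1 h2
      rcases le_total X X0 with h3 | h3
      · exact small X h1 h3
      have h4 := ih (2 / 3 * X) (by positivity) (by rw [pow_succ] at h2; linarith)
      have e := intervalIntegral.integral_add_adjacent_intervals (μ := volume)
        (hg.intervalIntegrable 0 (2 / 3 * X)) (hg.intervalIntegrable (2 / 3 * X) X)
      have h5 : (2 / 3 * X) ^ s ≤ 2 / 3 * X ^ s := by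
        rw [Real.mul_rpow (by norm_num) h1]
        refine mul_le_mul_of_nonneg_right ?_ (by positivity)
        have := Real.rpow_le_rpow_of_exponent_ge (x := 2 / 3) (by norm_num) (by norm_num) hs
        rwa [Real.rpow_one] at this
      have h6 := mul_le_mul_of_nonneg_left h5 (by positivity : 0 ≤ 3 * C)
      have h7 := h X h3
      linarith
  refine ⟨B + 3 * C, fun X hX => ?_⟩
  obtain ⟨m, hm⟩ := pow_unbounded_of_one_lt (X / X0) (by norm_num : (1 : ℝ) < 3 / 2)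
  have h1 := ind m X (by linarith) (by rw [div_lt_iff₀ hX0] at hm; linarith)
  have h2 : 1 ≤ X ^ s := Real.one_le_rpow hX (by linarith)
  nlinarith

end FinAux

open FinAux in
theorem fin (h1 : Z1S) (h4 : A4S) (h12 : A12S) (h8 : A8S) : FinalS := by
  intro A hA4 hA12
  obtain ⟨δ, C, T0, hδ, hδ1, hC, hT0, h⟩ := mom_zeta h1 h4 h12 h8 hA4 hA12
  have hπ := Real.pi_gt_three
  have hg : Continuous fun t : ℝ => ‖riemannZeta (1 / 2 + t * Complex.I)‖ ^ A :=
    continuous_zeta.norm.rpow_const fun _ => Or.inr (by linarith)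
  obtain ⟨C', hC'⟩ := glue hg (fun t => by positivity) (s := 1 + (A - 4) / 8 - δ)
    (C := 2 * Real.pi * C) (X0 := 6 * Real.pi * T0) (by linarith) (by positivity)
    (by positivity) fun X hX => by
      have hT : T0 ≤ X / (6 * Real.pi) := by rw [le_div_iff₀ (by positivity)]; linarith
      have h2 := h _ hT
      have hX0 : 0 < X := lt_of_lt_of_le (by positivity) hX
      have e := intervalIntegral.integral_comp_mul_left (a := 2 * (X / (6 * Real.pi)))
        (b := 3 * (X / (6 * Real.pi))) (c := 2 * Real.pi)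
        (fun t : ℝ => ‖riemannZeta (1 / 2 + t * Complex.I)‖ ^ A) (by positivity)
      rw [show 2 * Real.pi * (2 * (X / (6 * Real.pi))) = 2 / 3 * X by field_simp; ring,
        show 2 * Real.pi * (3 * (X / (6 * Real.pi))) = X by field_simp; ring, smul_eq_mul] at e
      rw [e, inv_mul_le_iff₀ (by positivity)] at h2
      refine h2.trans ?_
      rw [mul_assoc (2 * Real.pi)]
      refine mul_le_mul_of_nonneg_left (mul_le_mul_of_nonneg_left ?_ hC) (by positivity)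
      exact Real.rpow_le_rpow (by positivity) (div_le_self hX0.le (by linarith)) (by linarith)
  exact ⟨δ, C', hδ, hC'⟩

end Pool.Agent.Lib.MP_80d0cf_nt.Up
end

-- part Pool.Agent.Lib.MP_80d0cf_nt.Up.XFin
section

/-! Explicit exponents for the moments. -/

open Set MeasureTheory

namespace Pool.Agent.Lib.MP_80d0cf_nt.Up

/-- level sets of the dyadic pieces with exponent `θ` at the moment `A` -/
def LevS (A θ : ℝ) : Prop := ∀ ε : ℝ, 0 < ε → ∃ T0 : ℝ, 1 ≤ T0 ∧ ∀ (T V : ℝ) (N : ℕ),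
  T0 ≤ T → 1 ≤ N → (N : ℝ) ≤ 16 * T → T ^ ε ≤ V →
  V ^ A * lev (2 * T) (3 * T) (DN N) V ≤ T ^ (θ + ε)

/-- level sets of the families with exponent `θ` at the moment `A` -/
def FamS (A θ : ℝ) : Prop := ∀ ε : ℝ, 0 < ε → ε ≤ 1 / 1000 → ∃ T0 : ℝ,
  ∀ (T κ : ℝ) (K i : ℕ) (a a1 : ℕ → ℝ → ℂ), T0 ≤ T → 1 ≤ K → (K : ℝ) ≤ T → T ^ κ = K →
  Fam T (T ^ ε) K a a1 →
  lev T (4 * T) (SS K a) (2 ^ i * (K * T) ^ (1 / 4 : ℝ)) ≤
    T ^ (θ - (A - 2) * (1 - κ) / 4 + 20 * ε) * (1 / 4) ^ i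

open LevAux in
theorem famS (hm : MvS) (hh : HmpS) (hx : XfamS) {A θ : ℝ} (hA4 : 4 ≤ A) (hA12 : A ≤ 12)
    (h1 : (62 + 15 * A) / 122 ≤ θ) (h2 : (64 + 17 * A) / 134 ≤ θ) : FamS A θ := by
  intro ε hε hε1
  obtain ⟨T1, hT1, k1⟩ := mv' hm hε
  obtain ⟨T2, -, k2⟩ := hm' hh hε
  obtain ⟨T3, k3⟩ := hx ε hε hε1
  refine ⟨max T1 (max T2 T3), fun T κ K i a a1 hT hK hKT hκ hF => ?_⟩
  simp only [max_le_iff] at hT
  obtain ⟨t1, t2, t3⟩ := hT
  have hT1' : 1 ≤ T := hT1.trans t1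
  have hT0 : 0 < T := by linarith
  have mono : ∀ {x y : ℝ}, x ≤ y → T ^ x ≤ T ^ y := fun h =>
    Real.rpow_le_rpow_of_exponent_le hT1' h
  have ad : ∀ x y : ℝ, T ^ x * T ^ y = T ^ (x + y) := fun x y => (Real.rpow_add hT0 x y).symm
  have ad1 : ∀ x : ℝ, T ^ x * T = T ^ (x + 1) := fun x => (Real.rpow_add_one hT0.ne' x).symm
  rcases le_total (31 / 61) κ with c1 | c1
  · refine (k1 T (T ^ ((1 + κ) / 2)) K i a a1 t1 hK hKT (by positivity) (le_of_eq ?_) hF).trans ?_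
    · rw [← hκ, rpow_pow hT0.le, ad1]; congr 1; push_cast; ring
    · rw [ad]
      refine mul_le_mul_of_nonneg_right (mono ?_) (by positivity)
      nlinarith [mul_nonneg (sub_nonneg.2 hA4) (sub_nonneg.2 c1)]
  rcases le_total κ (33 / 67) with c2 | c2
  · refine (k2 T (T ^ ((5 * κ - 1) / 2)) K i a a1 t2 hK hKT (by positivity) (le_of_eq ?_)
      hF).trans ?_
    · rw [← hκ, rpow_pow hT0.le, rpow_pow hT0.le, ad1]; congr 1; push_cast; ring
    · rw [ad]
      refine mul_le_mul_of_nonneg_right (mono ?_) (by positivity)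
      nlinarith [mul_nonneg (sub_nonneg.2 hA12) (sub_nonneg.2 c2)]
  refine (k3 T κ ((7 - 13 * κ) / 8 - ε) ((3 * κ - 1) / 16) ((53 * κ - 7) / 64) K i a a1 t3 hK hκ hF
    (by linarith) (by linarith) (by linarith) (by linarith) (by linarith) (by linarith)
    (by linarith) (by linarith) (by linarith) (by linarith) (by linarith) (by linarith)
    (by linarith) (by linarith) (by linarith) (by linarith) (by linarith)).trans ?_
  rw [one_div_pow, mul_one_div]
  refine div_le_div_of_nonneg_right (mono ?_) (by positivity)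
  rcases le_total A (125 / 16) with c3 | c3
  · nlinarith [mul_nonneg (sub_nonneg.2 c3) (sub_nonneg.2 c1)]
  · nlinarith [mul_nonneg (sub_nonneg.2 c3) (sub_nonneg.2 c2)]

open LevAux in
theorem levS (hr : RedS) {A θ : ℝ} (hA : 2 ≤ A) (hA12 : A ≤ 12) (h : FamS A θ) : LevS A θ := by
  intro ε hε
  obtain ⟨η, hη, hη1, hηε⟩ : ∃ η : ℝ, 0 < η ∧ η ≤ 1 / 1000 ∧ 30 * η ≤ ε :=
    ⟨min ε 1 / 1000, by positivity, by linarith [min_le_right ε 1],
      by linarith [min_le_left ε 1]⟩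
  obtain ⟨T1, hT1, k1⟩ := red' hr hη (by linarith)
  obtain ⟨T2, k2⟩ := h η hη hη1
  refine ⟨max T1 T2, le_max_of_le_left (by linarith), fun T V N hT hN hNT hV => ?_⟩
  simp only [max_le_iff] at hT
  have hT1' : 1 < T := by linarith [hT.1]
  have hT0 : 0 < T := by linarith
  have mono : ∀ {x y : ℝ}, x ≤ y → T ^ x ≤ T ^ y := fun h =>
    Real.rpow_le_rpow_of_exponent_le hT1'.le h
  have hV0 : 0 < V := (Real.rpow_pos_of_pos hT0 ε).trans_le hV
  obtain ⟨v, rfl⟩ : ∃ v : ℝ, V = T ^ v := ⟨Real.logb T V, (Real.rpow_logb hT0 hT1'.ne' hV0).symm⟩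
  have key := k1 T (T ^ v) (T ^ (θ - (A - 2) * v + 28 * η)) N hT.1 hN hNT
    ((mono (by linarith)).trans hV) (by positivity) fun K i a a1 hK hKT hKV hF => by
      have hK0 : (0 : ℝ) < K := by exact_mod_cast hK
      have hκ := Real.rpow_logb hT0 hT1'.ne' hK0
      refine (k2 T _ K i a a1 hT.2 hK hKT hκ hF).trans ?_
      rw [← hκ, rpow_pow hT0.le, ← Real.rpow_add hT0,
        Real.rpow_le_rpow_left_iff hT1'] at hKV
      push_cast at hKV
      refine mul_le_mul (mono ?_) (quarter_le i) (by positivity) (by positivity)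
      nlinarith [mul_nonneg (sub_nonneg.2 hA) (sub_nonneg.2 hKV),
        mul_nonneg (sub_nonneg.2 hA12) hη.le]
  calc _ ≤ (T ^ v) ^ A * (T ^ η * T ^ (θ - (A - 2) * v + 28 * η) / (T ^ v) ^ 2) := by gcongr
    _ ≤ _ := by
        rw [rpow_pow hT0.le, ← Real.rpow_mul hT0.le, ← Real.rpow_add hT0, ← Real.rpow_sub hT0,
          ← Real.rpow_add hT0]
        exact mono (by push_cast; linarith)

open FinAux in
lemma momDN {A θ : ℝ} (hA : 0 < A) (hA12 : A ≤ 12) (hθ : 1 ≤ θ) (h : LevS A θ) {ε : ℝ}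
    (hε : 0 < ε) : ∃ C T0 : ℝ, 1 ≤ C ∧ 1 ≤ T0 ∧
      ∀ (T : ℝ) (N : ℕ), T0 ≤ T → 1 ≤ N → (N : ℝ) ≤ 16 * T →
      ∫ τ in (2 * T)..(3 * T), ‖DN N τ‖ ^ A ≤ C * T ^ (θ + 13 * ε) := by
  obtain ⟨T0, hT0, h⟩ := h ε hε
  obtain ⟨J, hJ⟩ := exists_nat_ge (2 / ε)
  have hJ0 : (0 : ℝ) ≤ J := Nat.cast_nonneg J
  refine ⟨1 + J, max T0 32, by linarith, le_max_of_le_left hT0, fun T N hT hN hNT => ?_⟩
  simp only [max_le_iff] at hT
  have hT1 : 1 ≤ T := by linarith [hT.2]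
  have hTp : 0 < T := by linarith
  have hq : 1 ≤ T ^ ε := Real.one_le_rpow hT1 hε.le
  have hb : ∀ τ ∈ Icc (2 * T) (3 * T), ‖DN N τ‖ ≤ T ^ ε * (T ^ ε) ^ J := by
    intro τ _
    have h1 : T ^ (2 : ℝ) ≤ (T ^ ε) ^ J := by
      rw [← Real.rpow_natCast, ← Real.rpow_mul hTp.le]
      refine Real.rpow_le_rpow_of_exponent_le hT1 ?_
      rw [div_le_iff₀ hε] at hJ
      linarith
    rw [Real.rpow_two] at h1
    have h2 : (T ^ ε) ^ J ≤ T ^ ε * (T ^ ε) ^ J := le_mul_of_one_le_left (by positivity) hq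
    have h3 := norm_DN_le N τ
    nlinarith [hT.2]
  refine (layer (by linarith) (continuous_DN N) hA.le (by positivity) (by positivity) J
    hb).trans ?_
  have hA' : (T ^ ε) ^ A ≤ T ^ (12 * ε) := by
    rw [← Real.rpow_mul hTp.le]
    exact Real.rpow_le_rpow_of_exponent_le hT1 (by nlinarith)
  have h1 : (T ^ ε) ^ A * (3 * T - 2 * T) ≤ T ^ (θ + 13 * ε) := by
    calc _ ≤ T ^ (12 * ε) * T ^ (1 : ℝ) := by
          rw [Real.rpow_one, show 3 * T - 2 * T = T by ring]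
          exact mul_le_mul_of_nonneg_right hA' hTp.le
      _ ≤ _ := by
          rw [← Real.rpow_add hTp]
          exact Real.rpow_le_rpow_of_exponent_le hT1 (by linarith)
  have h2 : ∀ j ∈ Finset.range J, (T ^ ε * (T ^ ε) ^ (j + 1)) ^ A *
      lev (2 * T) (3 * T) (DN N) (T ^ ε * (T ^ ε) ^ j) ≤ T ^ (θ + 13 * ε) := by
    intro j _
    have h3 := h T (T ^ ε * (T ^ ε) ^ j) N hT.1 hN hNT
      (le_mul_of_one_le_right (by positivity) (one_le_pow₀ hq))
    calc _ = (T ^ ε) ^ A * ((T ^ ε * (T ^ ε) ^ j) ^ A *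
            lev (2 * T) (3 * T) (DN N) (T ^ ε * (T ^ ε) ^ j)) := by
          rw [← mul_assoc, ← Real.mul_rpow (by positivity) (by positivity)]
          congr 2
          ring
      _ ≤ T ^ (12 * ε) * T ^ (θ + ε) :=
          mul_le_mul hA' h3 (mul_nonneg (by positivity) (lev_nonneg _ _ _ _)) (by positivity)
      _ = _ := by
          rw [← Real.rpow_add hTp]
          congr 1
          ring
  have h3 := Finset.sum_le_card_nsmul _ _ _ h2
  rw [Finset.card_range, nsmul_eq_mul] at h3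
  linarith

open FinAux in
lemma momZeta (h1 : Z1S) {A θ : ℝ} (hA : 0 < A) (hA12 : A ≤ 12) (hθ : 1 ≤ θ) (h : LevS A θ)
    {ε : ℝ} (hε : 0 < ε) : ∃ C T0 : ℝ, 0 ≤ C ∧ 1 ≤ T0 ∧ ∀ T, T0 ≤ T →
      ∫ τ in (2 * T)..(3 * T), ‖riemannZeta (1 / 2 + (2 * Real.pi * τ : ℝ) * Complex.I)‖ ^ A ≤
        C * T ^ (θ + 26 * ε) := by
  obtain ⟨C1, hC1, h1⟩ := h1
  obtain ⟨C, T0, hC, hT0, h⟩ := momDN hA hA12 hθ h hε
  obtain ⟨T1, -, hl1⟩ := exists_log_pow_le C1 1 hε
  obtain ⟨T2, -, hl2⟩ := exists_log_pow_le 8 1 hε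
  refine ⟨1 + C, max T0 (max T1 T2), by linarith, le_max_of_le_left hT0, fun T hT => ?_⟩
  simp only [max_le_iff] at hT
  have hT1 : 1 ≤ T := hT0.trans hT.1
  have hTp : 0 < T := by linarith
  have hab : 2 * T ≤ 3 * T := by linarith
  have l1 := hl1 T hT.2.1
  have l2 := hl2 T hT.2.2
  rw [pow_one] at l1 l2
  obtain ⟨c1, c2⟩ := log_count hT1
  set n := Nat.log 2 ⌊16 * T⌋₊ + 1 with hn
  have hlog : 0 ≤ C1 * Real.log (T + 2) := by
    have := one_le_log_add_two hT1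
    positivity
  have hA' : (T ^ ε) ^ A ≤ T ^ (12 * ε) := by
    rw [← Real.rpow_mul hTp.le]
    exact Real.rpow_le_rpow_of_exponent_le hT1 (by nlinarith)
  have hcD : ∀ j : ℕ, Continuous fun τ => ‖DN (2 ^ j) τ‖ ^ A := fun j =>
    (continuous_DN _).norm.rpow_const fun _ => Or.inr hA.le
  have hcz : Continuous fun τ : ℝ =>
      ‖riemannZeta (1 / 2 + (2 * Real.pi * τ : ℝ) * Complex.I)‖ ^ A :=
    (continuous_zeta.comp (continuous_const.mul continuous_id)).norm.rpow_const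
      fun _ => Or.inr hA.le
  have hs : Continuous fun τ => ∑ j ∈ Finset.range n, ‖DN (2 ^ j) τ‖ ^ A :=
    continuous_finsetSum _ fun j _ => hcD j
  have hj : ∀ j ∈ Finset.range n, ∫ τ in (2 * T)..(3 * T), ‖DN (2 ^ j) τ‖ ^ A ≤
      C * T ^ (θ + 13 * ε) := fun j hj => by
    refine h T _ hT.1 Nat.one_le_two_pow (le_trans ?_ c1)
    exact_mod_cast Nat.pow_le_pow_right two_pos (Nat.lt_succ_iff.1 (Finset.mem_range.1 hj))
  have h3 := Finset.sum_le_card_nsmul _ _ _ hj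
  rw [Finset.card_range, nsmul_eq_mul] at h3
  calc _ ≤ ∫ τ in (2 * T)..(3 * T), T ^ (12 * ε) *
          (T ^ (12 * ε) + ∑ j ∈ Finset.range n, ‖DN (2 ^ j) τ‖ ^ A) := by
        refine intervalIntegral.integral_mono_on hab (hcz.intervalIntegrable _ _)
          ((continuous_const.mul (continuous_const.add hs)).intervalIntegrable _ _) fun τ hτ => ?_
        refine (Real.rpow_le_rpow (norm_nonneg _) (h1 T τ hT1 hτ) hA.le).trans ?_
        refine (sum_rpow_le hA hlog n fun j => norm_nonneg _).trans ?_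
        have s0 : 0 ≤ ∑ j ∈ Finset.range n, ‖DN (2 ^ j) τ‖ ^ A :=
          Finset.sum_nonneg fun j _ => by positivity
        refine mul_le_mul ((Real.rpow_le_rpow (by positivity) (c2.trans l2) hA.le).trans hA')
          (add_le_add_left ((Real.rpow_le_rpow hlog l1 hA.le).trans hA') _)
          (by positivity) (by positivity)
    _ = T ^ (12 * ε) * (T ^ (12 * ε) * T ^ (1 : ℝ) +
          ∑ j ∈ Finset.range n, ∫ τ in (2 * T)..(3 * T), ‖DN (2 ^ j) τ‖ ^ A) := by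
        rw [intervalIntegral.integral_const_mul, intervalIntegral.integral_add
          (continuous_const.intervalIntegrable _ _) (hs.intervalIntegrable _ _),
          intervalIntegral.integral_finsetSum fun j _ => (hcD j).intervalIntegrable _ _,
          intervalIntegral.integral_const, smul_eq_mul, Real.rpow_one]
        ring
    _ ≤ T ^ (12 * ε) * (T ^ (θ + 14 * ε) + T ^ ε * (C * T ^ (θ + 13 * ε))) := by
        refine mul_le_mul_of_nonneg_left (add_le_add ?_ (h3.trans ?_)) (by positivity)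
        · rw [← Real.rpow_add hTp]
          exact Real.rpow_le_rpow_of_exponent_le hT1 (by linarith)
        · exact mul_le_mul_of_nonneg_right (by linarith) (by positivity)
    _ = _ := by
        have e1 : T ^ ε * T ^ (θ + 13 * ε) = T ^ (θ + 14 * ε) := by
          rw [← Real.rpow_add hTp]; congr 1; ring
        have e2 : T ^ (12 * ε) * T ^ (θ + 14 * ε) = T ^ (θ + 26 * ε) := by
          rw [← Real.rpow_add hTp]; congr 1; ring
        rw [mul_left_comm (T ^ ε), e1, ← e2]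
        ring

open FinAux in
theorem finGen (h1 : Z1S) {A θ : ℝ} (hA : 0 < A) (hA12 : A ≤ 12) (hθ : 1 ≤ θ) (h : LevS A θ)
    {ε : ℝ} (hε : 0 < ε) : ∃ C : ℝ, ∀ T : ℝ, 1 ≤ T →
      ∫ t in (0 : ℝ)..T, ‖riemannZeta (1 / 2 + t * Complex.I)‖ ^ A ≤ C * T ^ (θ + ε) := by
  obtain ⟨C, T0, hC, hT0, h⟩ := momZeta h1 hA hA12 hθ h (show 0 < ε / 26 by positivity)
  rw [show θ + 26 * (ε / 26) = θ + ε by ring] at h
  have hπ := Real.pi_gt_three
  have hg : Continuous fun t : ℝ => ‖riemannZeta (1 / 2 + t * Complex.I)‖ ^ A :=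
    continuous_zeta.norm.rpow_const fun _ => Or.inr hA.le
  exact glue hg (fun t => by positivity) (s := θ + ε)
    (C := 2 * Real.pi * C) (X0 := 6 * Real.pi * T0) (by linarith) (by positivity)
    (by positivity) fun X hX => by
      have hT : T0 ≤ X / (6 * Real.pi) := by rw [le_div_iff₀ (by positivity)]; linarith
      have h2 := h _ hT
      have hX0 : 0 < X := lt_of_lt_of_le (by positivity) hX
      have e := intervalIntegral.integral_comp_mul_left (a := 2 * (X / (6 * Real.pi)))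
        (b := 3 * (X / (6 * Real.pi))) (c := 2 * Real.pi)
        (fun t : ℝ => ‖riemannZeta (1 / 2 + t * Complex.I)‖ ^ A) (by positivity)
      rw [show 2 * Real.pi * (2 * (X / (6 * Real.pi))) = 2 / 3 * X by field_simp; ring,
        show 2 * Real.pi * (3 * (X / (6 * Real.pi))) = X by field_simp; ring, smul_eq_mul] at e
      rw [e, inv_mul_le_iff₀ (by positivity)] at h2
      refine h2.trans ?_
      rw [mul_assoc (2 * Real.pi)]
      refine mul_le_mul_of_nonneg_left (mul_le_mul_of_nonneg_left ?_ hC) (by positivity)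
      exact Real.rpow_le_rpow (by positivity) (div_le_self hX0.le (by linarith)) (by linarith)

end Pool.Agent.Lib.MP_80d0cf_nt.Up
end

-- part Pool.Agent.Lib.MP_80d0cf_nt.Up.ZetD
section

/-! Bounds for the dual coefficients and the decomposition in dyadic blocks. -/

open Set MeasureTheory ComplexConjugate

namespace Pool.Agent.Lib.MP_80d0cf_nt.Up

namespace ZetDAux

/-- the Gaussian factor -/
noncomputable def EE (G k τ : ℝ) : ℝ := Real.exp (-(Real.pi * G ^ 2 * Lam k τ ^ 2))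

/-- its derivative -/
noncomputable def EE1 (G k τ : ℝ) : ℝ :=
  EE G k τ * (Real.pi * G ^ 2 * Lam k τ / (τ * XX k τ))

/-- the size factor -/
noncomputable def rr (k τ : ℝ) : ℝ := (√(2 * k * XX k τ))⁻¹

/-- its derivative -/
noncomputable def rr1 (k τ : ℝ) : ℝ := -(rr k τ / (4 * k * XX k τ ^ 2))

/-- derivative of one term of the divisor sum -/
noncomputable def tm1 (N k h τ : ℝ) : ℝ :=
  (ws1 (h * (XX k τ - 1 / 2) / N) * ws (h * (XX k τ + 1 / 2) / N) +
    ws (h * (XX k τ - 1 / 2) / N) * ws1 (h * (XX k τ + 1 / 2) / N)) * (h / (2 * k * XX k τ * N))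

/-- derivative of the divisor sum -/
noncomputable def bk1 (N : ℝ) (k : ℕ) (τ : ℝ) : ℝ := ∑ h ∈ k.divisors, tm1 N k h τ

variable {k τ T : ℝ}

lemma XX_pos (hk : 0 < k) (hτ : 0 < τ) : 0 < XX k τ := by linarith [half_lt_XX hk hτ]

lemma le_mul_XX_sq (hk : 0 < k) (hτ : 0 < τ) : τ ≤ k * XX k τ ^ 2 := by
  rw [XX_sq hk hτ, mul_add, mul_div_cancel₀ _ hk.ne']
  linarith

lemma hasDerivAt_EE (G : ℝ) (hk : 0 < k) (hτ : 0 < τ) : HasDerivAt (EE G k) (EE1 G k τ) τ := by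
  have h := (((hasDerivAt_Lam hk hτ).fun_pow 2).const_mul (Real.pi * G ^ 2)).neg.exp
  refine h.congr_deriv ?_
  have := (XX_pos hk hτ).ne'
  simp only [EE1, EE, Pi.neg_apply]
  norm_num
  field_simp

lemma EE_pos (G k τ : ℝ) : 0 < EE G k τ := Real.exp_pos _

lemma EE_le_one (G k τ : ℝ) : EE G k τ ≤ 1 :=
  Real.exp_le_one_iff.2 (neg_nonpos.2 (by positivity))

lemma abs_EE1_le (G : ℝ) (hk : 0 < k) (hT : 0 < T) (hτ : T ≤ τ) : |EE1 G k τ| ≤ 1 / T := by
  have hτ0 : 0 < τ := hT.trans_le hτ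
  have hX := XX_pos hk hτ0
  have h1 := inv_XX_le_Lam hk hτ0
  have hL : 0 < Lam k τ := lt_of_lt_of_le (by positivity) h1
  have hE := EE_pos G k τ
  have h2 : EE G k τ * (Real.pi * G ^ 2 * Lam k τ ^ 2) ≤ 1 := by
    rw [EE, Real.exp_neg, inv_mul_le_iff₀ (Real.exp_pos _), mul_one]
    linarith [Real.add_one_le_exp (Real.pi * G ^ 2 * Lam k τ ^ 2)]
  rw [EE1, abs_of_nonneg (by positivity)]
  calc _ = EE G k τ * (Real.pi * G ^ 2 * Lam k τ * (1 / XX k τ)) / τ := by field_simp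
    _ ≤ EE G k τ * (Real.pi * G ^ 2 * Lam k τ * Lam k τ) / T := by gcongr
    _ ≤ 1 / T := by
      gcongr
      rwa [mul_assoc _ (Lam k τ), ← sq]

lemma EE_le_exp (G : ℝ) (hk : 0 < k) (hT : 0 < T) (hτ : τ ∈ Icc T (4 * T)) (hkT : k ≤ 20 * T) :
    EE G k τ ≤ Real.exp (-(G ^ 2 * k / (3 * T))) := by
  have hτ0 : 0 < τ := hT.trans_le hτ.1
  have hX := XX_pos hk hτ0
  have h1 := inv_XX_le_Lam hk hτ0
  have h2 : k * XX k τ ^ 2 ≤ 9 * T := by
    rw [XX_sq hk hτ0, mul_add, mul_div_cancel₀ _ hk.ne']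
    linarith [hτ.2]
  have h3 : k / (9 * T) ≤ Lam k τ ^ 2 := by
    refine le_trans ?_ (pow_le_pow_left₀ (by positivity) h1 2)
    rw [div_pow, one_pow, div_le_div_iff₀ (by positivity) (by positivity)]
    linarith
  refine Real.exp_le_exp.2 (neg_le_neg ?_)
  calc G ^ 2 * k / (3 * T) = 3 * G ^ 2 * (k / (9 * T)) := by field_simp; norm_num
    _ ≤ Real.pi * G ^ 2 * Lam k τ ^ 2 := by gcongr; exact Real.pi_gt_three.le

lemma rr_pos (hk : 0 < k) (hτ : 0 < τ) : 0 < rr k τ := by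
  have := XX_pos hk hτ
  rw [rr]; positivity

lemma hasDerivAt_rr (hk : 0 < k) (hτ : 0 < τ) : HasDerivAt (rr k) (rr1 k τ) τ := by
  have hX := XX_pos hk hτ
  have h0 : 0 < 2 * k * XX k τ := by positivity
  have h := (((hasDerivAt_XX hk hτ).const_mul (2 * k)).sqrt h0.ne').inv (Real.sqrt_pos.2 h0).ne'
  refine h.congr_deriv ?_
  have h1 := Real.sq_sqrt h0.le
  have h2 := (Real.sqrt_pos.2 h0).ne'
  rw [h1, rr1, rr]
  field_simp
  norm_num

lemma rr_le (hk : 0 < k) (hT : 0 < T) (hτ : T ≤ τ) : rr k τ ≤ ((k * T) ^ (1 / 4 : ℝ))⁻¹ := by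
  have hτ0 : 0 < τ := hT.trans_le hτ
  have hX := XX_pos hk hτ0
  have hp : 0 < (k * T) ^ (1 / 4 : ℝ) := by positivity
  refine inv_anti₀ hp (Real.le_sqrt_of_sq_le ?_)
  refine (pow_le_pow_iff_left₀ (n := 2) (by positivity) (by positivity) two_ne_zero).1 ?_
  rw [← pow_mul, ← Real.rpow_natCast, ← Real.rpow_mul (by positivity)]
  have h1 := le_mul_XX_sq hk hτ0
  have h2 : k * T ≤ k * (k * XX k τ ^ 2) := by gcongr; linarith
  norm_num
  nlinarith [sq_nonneg (k * XX k τ)]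

lemma abs_rr1_le (hk : 0 < k) (hT : 0 < T) (hτ : T ≤ τ) : |rr1 k τ| ≤ rr k τ / T := by
  have hτ0 : 0 < τ := hT.trans_le hτ
  have hX := XX_pos hk hτ0
  have hr := rr_pos hk hτ0
  have := le_mul_XX_sq hk hτ0
  rw [rr1, abs_neg, abs_of_nonneg (by positivity)]
  gcongr
  linarith

lemma hasDerivAt_tm {N h : ℝ} (hN : 0 < N) (hh : 0 < h) (hk : 0 < k) (hτ : 0 < τ) :
    HasDerivAt (fun τ => ws (h * (XX k τ - 1 / 2) / N) * ws (h * (XX k τ + 1 / 2) / N))
      (tm1 N k h τ) τ := by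
  have hX := half_lt_XX hk hτ
  have hm : 0 < XX k τ - 1 / 2 := by linarith
  have hp : 0 < XX k τ + 1 / 2 := by linarith
  have h1 := (hasDerivAt_ws (x := h * (XX k τ - 1 / 2) / N) (by positivity)).comp τ
    ((((hasDerivAt_XX hk hτ).sub_const (1 / 2)).const_mul h).div_const N)
  have h2 := (hasDerivAt_ws (x := h * (XX k τ + 1 / 2) / N) (by positivity)).comp τ
    ((((hasDerivAt_XX hk hτ).add_const (1 / 2)).const_mul h).div_const N)
  refine (h1.mul h2).congr_deriv ?_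
  simp only [tm1, Function.comp]
  ring

lemma abs_tm1_le {N h : ℝ} (hN : 0 < N) (hh : 0 < h) (hk : 0 < k) (hT : 0 < T) (hτ : T ≤ τ) :
    |tm1 N k h τ| ≤ 262440 / T := by
  have hτ0 : 0 < τ := hT.trans_le hτ
  have hX := XX_pos hk hτ0
  by_cases h2 : 2 ≤ h * (XX k τ + 1 / 2) / N
  · rw [tm1, ws_eq_zero (Or.inr h2), ws1_eq_zero (Or.inr h2)]
    simp only [mul_zero, add_zero, zero_mul, abs_zero]
    positivity
  rw [not_le, div_lt_iff₀ hN] at h2
  have h3 : h / (2 * k * XX k τ * N) ≤ 1 / T := by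
    rw [div_le_div_iff₀ (by positivity) hT]
    have h4 := le_mul_XX_sq hk hτ0
    have h5 : h * XX k τ ≤ 2 * N := by linarith
    calc h * T ≤ h * (k * XX k τ ^ 2) := by gcongr; linarith
      _ = k * XX k τ * (h * XX k τ) := by ring
      _ ≤ k * XX k τ * (2 * N) := by gcongr
      _ = _ := by ring
  have h6 : ∀ x y, |ws1 x * ws y| ≤ 1620 * 81 := fun x y => by
    rw [abs_mul]
    exact mul_le_mul (abs_ws1_le x) (abs_ws_le y) (abs_nonneg _) (by norm_num)
  rw [tm1, abs_mul, abs_of_pos (by positivity : 0 < h / (2 * k * XX k τ * N))]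
  calc _ ≤ (1620 * 81 + 1620 * 81) * (1 / T) := by
        refine mul_le_mul ((abs_add_le _ _).trans (add_le_add (h6 _ _) ?_)) h3 (by positivity)
          (by norm_num)
        rw [mul_comm]; exact h6 _ _
    _ = _ := by ring

lemma abs_bk_le (N : ℝ) (k : ℕ) (τ : ℝ) : |bk N k τ| ≤ 6561 * k.divisors.card := by
  refine (Finset.abs_sum_le_sum_abs _ _).trans
    ((Finset.sum_le_card_nsmul _ _ 6561 fun h _ => ?_).trans (le_of_eq ?_))
  · rw [abs_mul]
    have := mul_le_mul (abs_ws_le (h * (XX k τ - 1 / 2) / N)) (abs_ws_le (h * (XX k τ + 1 / 2) / N))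
      (abs_nonneg _) (by norm_num)
    linarith
  · rw [nsmul_eq_mul, mul_comm]

lemma abs_bk1_le {N : ℝ} {k : ℕ} (hN : 0 < N) (hk : 1 ≤ k) (hT : 0 < T) (hτ : T ≤ τ) :
    |bk1 N k τ| ≤ 262440 * k.divisors.card / T := by
  refine (Finset.abs_sum_le_sum_abs _ _).trans
    ((Finset.sum_le_card_nsmul _ _ (262440 / T) fun h hh => ?_).trans (le_of_eq ?_))
  · exact abs_tm1_le hN (by exact_mod_cast Nat.pos_of_mem_divisors hh) (by exact_mod_cast hk) hT hτ
  · rw [nsmul_eq_mul]; ring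

lemma hasDerivAt_bk {N : ℝ} {k : ℕ} (hN : 0 < N) (hk : 1 ≤ k) (hτ : 0 < τ) :
    HasDerivAt (bk N k) (bk1 N k τ) τ :=
  HasDerivAt.fun_sum fun _ hh =>
    hasDerivAt_tm hN (by exact_mod_cast Nat.pos_of_mem_divisors hh) (by exact_mod_cast hk) hτ

lemma mk_eq (N G : ℝ) (k : ℕ) :
    mk N G k = fun τ => (-1) ^ k * cF * ((EE G k τ * bk N k τ * rr k τ : ℝ) : ℂ) := by
  ext τ
  rw [mk, div_eq_mul_inv, EE, rr]

lemma norm_coef_le (hc : CFS) (k : ℕ) {x b : ℝ} (h : |x| ≤ b) :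
    ‖(-1) ^ k * cF * (x : ℂ)‖ ≤ 10 * b := by
  rw [norm_mul, norm_mul, norm_pow, norm_neg, norm_one, one_pow, one_mul, Complex.norm_real,
    Real.norm_eq_abs]
  exact mul_le_mul hc.1 h (abs_nonneg _) (by norm_num)

lemma sum_blocks {β : Type*} [AddCommMonoid β] (F : ℕ → β) (J : ℕ) :
    ∑ k ∈ Finset.Ico 1 (2 ^ J), F k =
      ∑ j ∈ Finset.range J, ∑ k ∈ Finset.Ico (2 ^ j) (2 * 2 ^ j), F k := by
  induction J with
  | zero => simp
  | succ J ih =>
    rw [Finset.sum_range_succ, ← ih, Finset.sum_Ico_consecutive _ Nat.one_le_two_pow (by omega),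
      pow_succ']

end ZetDAux

open ZetDAux

theorem zc2 (hc : CFS) : ZC2S := by
  refine ⟨3000000, by norm_num, fun T G N k hT hN hk => ?_⟩
  have hT0 : 0 < T := by linarith
  have hN0 : 0 < N := by linarith
  have hk1 : (1 : ℝ) ≤ k := by exact_mod_cast hk
  have hk0 : (0 : ℝ) < k := by linarith
  have hd : (0 : ℝ) ≤ k.divisors.card := Nat.cast_nonneg _
  have hq : 0 < (((k : ℝ) * T) ^ (1 / 4 : ℝ))⁻¹ := by positivity
  rw [mk_eq]
  refine ⟨⟨fun τ => (-1) ^ k * cF * (((EE1 G k τ * bk N k τ + EE G k τ * bk1 N k τ) * rr k τ +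
    EE G k τ * bk N k τ * rr1 k τ : ℝ) : ℂ), fun τ hτ => ?_, fun τ hτ => ?_, fun τ hτ => ?_⟩,
    fun hkT τ hτ => ?_⟩
  · have hτ0 := hT0.trans_le hτ.1
    exact ((((hasDerivAt_EE G hk0 hτ0).mul (hasDerivAt_bk hN0 hk hτ0)).mul
      (hasDerivAt_rr hk0 hτ0)).ofReal_comp).const_mul _
  · have hτ0 := hT0.trans_le hτ.1
    have h1 : |EE G k τ * bk N k τ * rr k τ| ≤
        1 * (6561 * k.divisors.card) * (((k : ℝ) * T) ^ (1 / 4 : ℝ))⁻¹ := by
      rw [abs_mul, abs_mul, abs_of_pos (EE_pos _ _ _), abs_of_pos (rr_pos hk0 hτ0)]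
      gcongr
      exacts [(rr_pos hk0 hτ0).le, EE_le_one _ _ _, abs_bk_le _ _ _, rr_le hk0 hT0 hτ.1]
    refine (norm_coef_le hc k h1).trans ?_
    rw [div_eq_mul_inv _ (((k : ℝ) * T) ^ (1 / 4 : ℝ))]
    nlinarith [mul_nonneg hd hq.le]
  · have hτ0 := hT0.trans_le hτ.1
    have hr := rr_pos hk0 hτ0
    have hE := EE_pos G k τ
    have h1 : |(EE1 G k τ * bk N k τ + EE G k τ * bk1 N k τ) * rr k τ +
        EE G k τ * bk N k τ * rr1 k τ| ≤
        (1 / T * (6561 * k.divisors.card) + 1 * (262440 * k.divisors.card / T)) *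
          (((k : ℝ) * T) ^ (1 / 4 : ℝ))⁻¹ +
        1 * (6561 * k.divisors.card) * ((((k : ℝ) * T) ^ (1 / 4 : ℝ))⁻¹ / T) := by
      refine (abs_add_le _ _).trans (add_le_add ?_ ?_)
      · rw [abs_mul, abs_of_pos hr]
        refine mul_le_mul ((abs_add_le _ _).trans (add_le_add ?_ ?_)) (rr_le hk0 hT0 hτ.1) hr.le
          (by positivity)
        · rw [abs_mul]
          exact mul_le_mul (abs_EE1_le G hk0 hT0 hτ.1) (abs_bk_le _ _ _) (abs_nonneg _)
            (by positivity)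
        · rw [abs_mul, abs_of_pos hE]
          exact mul_le_mul (EE_le_one _ _ _) (abs_bk1_le hN0 hk hT0 hτ.1) (abs_nonneg _)
            (by positivity)
      · rw [abs_mul, abs_mul, abs_of_pos hE]
        refine mul_le_mul (mul_le_mul (EE_le_one _ _ _) (abs_bk_le _ _ _) (abs_nonneg _)
          (by positivity)) ((abs_rr1_le hk0 hT0 hτ.1).trans ?_) (abs_nonneg _) (by positivity)
        gcongr
        exact rr_le hk0 hT0 hτ.1
    refine (norm_coef_le hc k h1).trans ?_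
    have h2 : 0 ≤ k.divisors.card * (((k : ℝ) * T) ^ (1 / 4 : ℝ))⁻¹ * T⁻¹ := by positivity
    simp only [div_eq_mul_inv (_ : ℝ) T, div_eq_mul_inv _ (((k : ℝ) * T) ^ (1 / 4 : ℝ))]
    linarith
  · have hτ0 := hT0.trans_le hτ.1
    have h0 : rr k τ ≤ 1 := (rr_le hk0 hT0 hτ.1).trans (inv_le_one_of_one_le₀
      (Real.one_le_rpow (one_le_mul_of_one_le_of_one_le hk1 hT) (by norm_num)))
    have h1 : |EE G k τ * bk N k τ * rr k τ| ≤
        Real.exp (-(G ^ 2 * k / (3 * T))) * (6561 * k.divisors.card) * 1 := by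
      rw [abs_mul, abs_mul, abs_of_pos (EE_pos _ _ _), abs_of_pos (rr_pos hk0 hτ0)]
      gcongr
      exacts [(rr_pos hk0 hτ0).le, EE_le_exp G hk0 hT0 hτ hkT, abs_bk_le _ _ _]
    refine (norm_coef_le hc k h1).trans ?_
    nlinarith [mul_nonneg hd (Real.exp_pos (-(G ^ 2 * k / (3 * T)))).le]

theorem z4 (h2 : Z2S) (h1 : ZC1S) (h3 : ZC2S) : Z4S := by
  intro ε hε
  obtain ⟨C2, hC2, h2⟩ := h2
  obtain ⟨C1, hC1, h1⟩ := h1
  obtain ⟨C3, hC3, h3⟩ := h3
  obtain ⟨Cd, hCd, hd⟩ := Six.divisor_bound (half_pos hε)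
  obtain ⟨T1, hT1, hT1'⟩ := exists_log_pow_le (C3 * Cd * 2 ^ (ε / 2)) 0 (half_pos hε)
  obtain ⟨T2, -, hT2'⟩ := exists_log_pow_le 6 1 hε
  refine ⟨C2 + 2 * C1 + 800 * C3, max T1 T2, by positivity, fun T G N hT hN hNT hG hεG => ?_⟩
  have hT1le : 1 ≤ T := hT1.trans ((le_max_left _ _).trans hT)
  have hT0 : 0 < T := by linarith
  have hN1 : (1 : ℝ) ≤ N := by exact_mod_cast hN
  have h4 := fun (k : ℕ) (hk : 1 ≤ k) => (h3 T G N k hT1le hN1 hk).1
  choose! m1 hm1 using h4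
  refine ⟨fun K k τ => ((((K : ℝ) * T) ^ (1 / 4 : ℝ) : ℝ) : ℂ) * mk N G k τ,
    fun K k τ => ((((K : ℝ) * T) ^ (1 / 4 : ℝ) : ℝ) : ℂ) * m1 k τ, fun K hK hKT k hk => ?_,
    fun τ hτ => ?_⟩
  · rw [Finset.mem_Ico] at hk
    have hK0 : (0 : ℝ) < K := by exact_mod_cast hK
    have hKk : (K : ℝ) ≤ k := by exact_mod_cast hk.1
    have hk2 : (k : ℝ) ≤ 2 * T := by
      have : (k : ℝ) ≤ 2 * K := by exact_mod_cast hk.2.le
      linarith
    have hA := hm1 k (hK.trans hk.1)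
    have hq : 0 < ((K : ℝ) * T) ^ (1 / 4 : ℝ) := by positivity
    have hb : ((K : ℝ) * T) ^ (1 / 4 : ℝ) * (C3 * k.divisors.card / (k * T) ^ (1 / 4 : ℝ)) ≤
        T ^ ε := by
      have e1 : ((K : ℝ) * T) ^ (1 / 4 : ℝ) ≤ ((k : ℝ) * T) ^ (1 / 4 : ℝ) := by gcongr
      have e2 : (k.divisors.card : ℝ) ≤ Cd * (2 * T) ^ (ε / 2) := by
        rw [← Six.D_two]
        refine (hd k).trans ?_
        gcongr
      have e3 := hT1' T ((le_max_left _ _).trans hT)
      rw [pow_zero, mul_one] at e3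
      calc _ ≤ ((k : ℝ) * T) ^ (1 / 4 : ℝ) * (C3 * k.divisors.card / (k * T) ^ (1 / 4 : ℝ)) := by
            gcongr
        _ = C3 * k.divisors.card := mul_div_cancel₀ _ (hq.trans_le e1).ne'
        _ ≤ C3 * (Cd * (2 * T) ^ (ε / 2)) := by gcongr
        _ = C3 * Cd * 2 ^ (ε / 2) * T ^ (ε / 2) := by
            rw [Real.mul_rpow (by norm_num) hT0.le]; ring
        _ ≤ T ^ (ε / 2) * T ^ (ε / 2) := by gcongr
        _ = T ^ ε := by rw [← Real.rpow_add hT0, add_halves]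
    refine ⟨fun τ hτ => (hA.der τ hτ).const_mul _, fun τ hτ => ?_, fun τ hτ => ?_⟩
    · rw [norm_mul, Complex.norm_real, Real.norm_of_nonneg hq.le]
      exact (mul_le_mul_of_nonneg_left (hA.b0 τ hτ) hq.le).trans hb
    · rw [norm_mul, Complex.norm_real, Real.norm_of_nonneg hq.le]
      refine (mul_le_mul_of_nonneg_left (hA.b1 τ hτ) hq.le).trans ?_
      rw [← mul_div_assoc]
      gcongr
  · set J := Nat.log 2 ⌈9 * T⌉₊ + 1 with hJ
    have hc0 : ⌈9 * T⌉₊ ≠ 0 := (Nat.ceil_pos.2 (by positivity)).ne'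
    have hJ1 : ⌈9 * T⌉₊ < 2 ^ J := Nat.lt_pow_succ_log_self one_lt_two _
    have hJ2 : ((2 ^ J : ℕ) : ℝ) ≤ 20 * T := by
      have e1 : 2 ^ J ≤ ⌈9 * T⌉₊ * 2 := by
        rw [hJ, pow_succ]
        exact Nat.mul_le_mul_right 2 (Nat.pow_log_le_self 2 hc0)
      have e2 : ((2 ^ J : ℕ) : ℝ) ≤ ⌈9 * T⌉₊ * 2 := by exact_mod_cast e1
      have e3 := Nat.ceil_lt_add_one (show 0 ≤ 9 * T by positivity)
      linarith
    have hk0 : 9 * T ≤ ((2 ^ J - 1 : ℕ) : ℝ) :=
      (Nat.le_ceil _).trans (by exact_mod_cast (show ⌈9 * T⌉₊ ≤ 2 ^ J - 1 by omega))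
    have a1 := h1 T G τ N (2 ^ J - 1) hT1le hN hNT hτ hk0
    have a2 := (h2 N G τ hN hG).2.2
    rw [show Finset.Icc 1 (2 ^ J - 1) = Finset.Ico 1 (2 ^ J) by
      ext k; simp only [Finset.mem_Icc, Finset.mem_Ico]; omega, sum_blocks] at a1
    have hl := one_le_log_add_two hT1le
    have hexp : Real.exp (-(T ^ ε / 3)) ≤ (T ^ 2)⁻¹ := by
      have e1 := hT2' T ((le_max_right _ _).trans hT)
      have e2 : Real.log T ≤ Real.log (T + 2) := Real.log_le_log hT0 (by linarith)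
      rw [← Real.exp_log (show 0 < T ^ 2 by positivity), ← Real.exp_neg, Real.log_pow]
      refine Real.exp_le_exp.2 ?_
      push_cast
      linarith
    have a3 : ∀ j ∈ (Finset.range J).filter (fun j => ¬ (2 ^ j * G ^ 2 ≤ T ^ (1 + ε))),
        ‖∑ k ∈ Finset.Ico (2 ^ j) (2 * 2 ^ j), mk N G k τ * e (ff k τ)‖ ≤
          ∑ _k ∈ Finset.Ico (2 ^ j) (2 * 2 ^ j), C3 * (20 * T) * (T ^ 2)⁻¹ := by
      intro j hj
      rw [Finset.mem_filter, Finset.mem_range, not_le] at hj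
      refine (norm_sum_le _ _).trans (Finset.sum_le_sum fun k hk => ?_)
      rw [Finset.mem_Ico] at hk
      have e0 : 2 * 2 ^ j ≤ 2 ^ J := by
        rw [← pow_succ']; exact Nat.pow_le_pow_right two_pos hj.1
      have e1 : (k : ℝ) ≤ 20 * T := le_trans (by exact_mod_cast hk.2.le.trans e0) hJ2
      have e2 : (2 : ℝ) ^ j ≤ k := by exact_mod_cast hk.1
      have e3 : (k.divisors.card : ℝ) ≤ 20 * T :=
        le_trans (by exact_mod_cast Nat.card_divisors_le_self k) e1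
      have e4 : T ^ ε / 3 ≤ G ^ 2 * k / (3 * T) := by
        rw [div_le_div_iff₀ (by norm_num) (by positivity)]
        have e5 := hj.2
        rw [Real.rpow_add hT0, Real.rpow_one] at e5
        have e6 : 2 ^ j * G ^ 2 ≤ k * G ^ 2 := by gcongr
        linarith
      rw [norm_mul, norm_e, mul_one]
      refine ((h3 T G N k hT1le hN1 (Nat.one_le_two_pow.trans hk.1)).2 e1 τ hτ).trans ?_
      gcongr
      exact (Real.exp_le_exp.2 (neg_le_neg e4)).trans hexp
    have a4 : ∑ j ∈ (Finset.range J).filter (fun j => ¬ (2 ^ j * G ^ 2 ≤ T ^ (1 + ε))),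
        ‖∑ k ∈ Finset.Ico (2 ^ j) (2 * 2 ^ j), mk N G k τ * e (ff k τ)‖ ≤ 400 * C3 := by
      refine (Finset.sum_le_sum a3).trans ((Finset.sum_le_sum_of_subset_of_nonneg
        (Finset.filter_subset _ _) fun j _ _ => by positivity).trans ?_)
      rw [← sum_blocks, Finset.sum_const, Nat.card_Ico, nsmul_eq_mul]
      have e1 : ((2 ^ J - 1 : ℕ) : ℝ) ≤ 20 * T :=
        le_trans (by exact_mod_cast Nat.sub_le _ _) hJ2
      calc _ ≤ 20 * T * (C3 * (20 * T) * (T ^ 2)⁻¹) := by gcongr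
        _ = 400 * C3 := by field_simp; norm_num
    have a5 : ∑ j ∈ (Finset.range J).filter (fun j => 2 ^ j * G ^ 2 ≤ T ^ (1 + ε)),
        ‖∑ k ∈ Finset.Ico (2 ^ j) (2 * 2 ^ j), mk N G k τ * e (ff k τ)‖ ≤
        ∑ j ∈ (Finset.range (Nat.log 2 ⌊T⌋₊ + 1)).filter
          (fun j => 2 ^ j * G ^ 2 ≤ T ^ (1 + ε)),
          ‖SS (2 ^ j) (fun k τ => (((((2 ^ j : ℕ) : ℝ) * T) ^ (1 / 4 : ℝ) : ℝ) : ℂ) * mk N G k τ) τ‖ /
            (2 ^ j * T) ^ (1 / 4 : ℝ) := by
      refine (Finset.sum_le_sum_of_subset_of_nonneg (fun j hj => ?_)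
        fun j _ _ => norm_nonneg _).trans (le_of_eq (Finset.sum_congr rfl fun j _ => ?_))
      · rw [Finset.mem_filter] at hj ⊢
        refine ⟨Finset.mem_range.2 (Nat.lt_succ_of_le (Nat.le_log_of_pow_le one_lt_two
          (Nat.le_floor ?_))), hj.2⟩
        have e5 := hj.2
        rw [Real.rpow_add hT0, Real.rpow_one] at e5
        have e6 : (2 : ℝ) ^ j * T ^ ε ≤ 2 ^ j * G ^ 2 := by gcongr
        push_cast
        exact le_of_mul_le_mul_right (e6.trans e5) (by positivity)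
      · have hq : 0 < ((2 : ℝ) ^ j * T) ^ (1 / 4 : ℝ) := by positivity
        simp only [SS, mul_assoc]
        rw [← Finset.mul_sum, norm_mul, Complex.norm_real]
        push_cast
        rw [Real.norm_of_nonneg hq.le, mul_div_cancel_left₀ _ hq.ne']
    have a6 := (norm_sum_le (Finset.range J)
      fun j => ∑ k ∈ Finset.Ico (2 ^ j) (2 * 2 ^ j), mk N G k τ * e (ff k τ)).trans_eq
      (Finset.sum_filter_add_sum_filter_not _ (fun j => 2 ^ j * G ^ 2 ≤ T ^ (1 + ε)) _).symm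
    have a7 := norm_le_insert' (OD N G τ) (∑ j ∈ Finset.range J,
      ∑ k ∈ Finset.Ico (2 ^ j) (2 * 2 ^ j), mk N G k τ * e (ff k τ))
    have a8 : 1 ≤ Real.log (T + 2) ^ 2 := one_le_pow₀ hl
    have a9 : C2 + 800 * C3 ≤ (C2 + 800 * C3) * Real.log (T + 2) ^ 2 :=
      le_mul_of_one_le_right (by positivity) a8
    refine a2.trans (mul_le_mul_of_nonneg_left ?_ (by linarith))
    beta_reduce
    linarith

end Pool.Agent.Lib.MP_80d0cf_nt.Up
end
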