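import Pool.Agent.Lib.MP_80d0cf_nt.Up.Lev

-- part Pool.Agent.Lib.MP_80d0cf_nt.Up.CombA
section

/-! Linear algebra: Schur test, a cubic trace inequality, duality and a large sieve. -/

open Set MeasureTheory ComplexConjugate

namespace Pool.Agent.Lib.MP_80d0cf_nt.Up

namespace CombAAux

lemma schur_gen {ι : Type*} (W : Finset ι) (A : ι → ι → ℂ) (θ : ι → ℂ) (L : ℝ)
    (h1 : ∀ u ∈ W, ∑ v ∈ W, ‖A u v‖ ≤ L) (h2 : ∀ v ∈ W, ∑ u ∈ W, ‖A u v‖ ≤ L) :
    ‖∑ u ∈ W, ∑ v ∈ W, θ u * conj (θ v) * A u v‖ ≤ L * ∑ u ∈ W, ‖θ u‖ ^ 2 := by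
  have h3 : ∑ u ∈ W, ∑ v ∈ W, ‖θ u‖ ^ 2 * ‖A u v‖ ≤ L * ∑ u ∈ W, ‖θ u‖ ^ 2 := by
    rw [Finset.mul_sum]
    refine Finset.sum_le_sum fun u hu => ?_
    rw [← Finset.mul_sum, mul_comm L]
    exact mul_le_mul_of_nonneg_left (h1 u hu) (sq_nonneg _)
  have h4 : ∑ u ∈ W, ∑ v ∈ W, ‖θ v‖ ^ 2 * ‖A u v‖ ≤ L * ∑ u ∈ W, ‖θ u‖ ^ 2 := by
    rw [Finset.mul_sum, Finset.sum_comm]
    refine Finset.sum_le_sum fun v hv => ?_
    rw [← Finset.mul_sum, mul_comm L]
    exact mul_le_mul_of_nonneg_left (h2 v hv) (sq_nonneg _)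
  calc _ ≤ ∑ u ∈ W, ∑ v ∈ W, (‖θ u‖ ^ 2 * ‖A u v‖ / 2 + ‖θ v‖ ^ 2 * ‖A u v‖ / 2) := by
        refine (norm_sum_le _ _).trans (Finset.sum_le_sum fun u _ =>
          (norm_sum_le _ _).trans (Finset.sum_le_sum fun v _ => ?_))
        rw [norm_mul, norm_mul, Complex.norm_conj]
        have := mul_nonneg (sq_nonneg (‖θ u‖ - ‖θ v‖)) (norm_nonneg (A u v))
        linarith
    _ ≤ _ := by
        simp only [Finset.sum_add_distrib, ← Finset.sum_div]
        linarith

/-- a Gram form is a weighted sum of squares -/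
lemma form {ι κ : Type*} (W : Finset ι) (s : Finset κ) (o : κ → ℝ) (f : ι → κ → ℂ) (η : ι → ℂ) :
    (∑ u ∈ W, ∑ v ∈ W, η u * conj (η v) * ∑ k ∈ s, (o k : ℂ) * (f u k * conj (f v k))).re =
      ∑ k ∈ s, o k * ‖∑ u ∈ W, η u * f u k‖ ^ 2 := by
  have h : ∑ u ∈ W, ∑ v ∈ W, η u * conj (η v) * ∑ k ∈ s, (o k : ℂ) * (f u k * conj (f v k)) =
      ((∑ k ∈ s, o k * ‖∑ u ∈ W, η u * f u k‖ ^ 2 : ℝ) : ℂ) := by
    push_cast
    simp only [← Complex.mul_conj', map_sum, map_mul, Finset.sum_mul_sum]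
    simp only [Finset.mul_sum]
    rw [Finset.sum_comm (s := s)]
    refine Finset.sum_congr rfl fun u _ => ?_
    rw [Finset.sum_comm (s := s)]
    exact Finset.sum_congr rfl fun v _ => Finset.sum_congr rfl fun k _ => by ring
  rw [h, Complex.ofReal_re]

lemma form_Dk (s : Finset ℕ) (o y : ℕ → ℝ) (W : Finset ℤ) (η : ℤ → ℂ) :
    (∑ u ∈ W, ∑ v ∈ W, η u * conj (η v) * Dk s o y ((u : ℝ) - v)).re =
      ∑ k ∈ s, o k * ‖∑ u ∈ W, η u * e (u * y k)‖ ^ 2 := by
  rw [← form W s o (fun u k => e (u * y k)) η]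
  simp only [Dk, sub_mul, e_sub]

lemma spectral {n : Type*} [Fintype n] [DecidableEq n] {A : Matrix n n ℂ} (hA : A.IsHermitian) :
    ∃ (μ : n → ℝ) (U : Matrix n n ℂ), A = U * Matrix.diagonal (fun i => (μ i : ℂ)) * star U ∧
      star U * U = 1 ∧ U * star U = 1 :=
  ⟨hA.eigenvalues, hA.eigenvectorUnitary, hA.spectral_theorem,
    Unitary.coe_star_mul_self _, Unitary.coe_mul_star_self _⟩

lemma cubic_mat {n : Type*} [Fintype n] [DecidableEq n] {A : Matrix n n ℂ} (hA : A.IsHermitian)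
    {θ : n → ℂ} {L q : ℝ} (hL : 0 ≤ L) (hq : 0 ≤ q)
    (h1 : ∀ η : n → ℂ, -(L * ∑ u, ‖η u‖ ^ 2) ≤ (∑ u, ∑ v, η u * conj (η v) * A u v).re)
    (h2 : 0 < ∑ u, ‖θ u‖ ^ 2)
    (h3 : q * ∑ u, ‖θ u‖ ^ 2 ≤ (∑ u, ∑ v, θ u * conj (θ v) * A u v).re) :
    q ^ 3 ≤ (A * A * A).trace.re + L * (A * A).trace.re := by
  obtain ⟨μ, U, e1, e2, e3⟩ := spectral hA
  have f1 : ∀ η : n → ℂ, (∑ u, ∑ v, η u * conj (η v) * A u v).re =
      ∑ i, μ i * ‖∑ u, η u * U u i‖ ^ 2 := fun η => by
    rw [← form Finset.univ Finset.univ μ U η]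
    congr 1
    refine Finset.sum_congr rfl fun u _ => Finset.sum_congr rfl fun v _ => ?_
    rw [e1, Matrix.mul_apply]
    simp only [Matrix.mul_diagonal, Matrix.star_apply, RCLike.star_def]
    congr 1
    exact Finset.sum_congr rfl fun i _ => by ring
  have f2 : ∀ η : n → ℂ, ∑ u, ‖η u‖ ^ 2 = ∑ i, ‖∑ u, η u * U u i‖ ^ 2 := fun η => by
    have := form Finset.univ Finset.univ (fun _ => 1) U η
    simp only [Complex.ofReal_one, one_mul] at this
    rw [← this]
    have h : ∀ u v, ∑ i, U u i * conj (U v i) = (1 : Matrix n n ℂ) u v := fun u v => by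
      rw [← e3, Matrix.mul_apply]; rfl
    simp only [h, Matrix.one_apply, mul_ite, mul_one, mul_zero, Finset.sum_ite_eq,
      Finset.mem_univ, if_true, Complex.mul_conj', Complex.re_sum]
    exact Finset.sum_congr rfl fun u _ => by norm_cast
  have f3 : ∀ j, -L ≤ μ j := fun j => by
    have h : ∀ i, ‖∑ u, conj (U u j) * U u i‖ ^ 2 = if j = i then 1 else 0 := fun i => by
      have : ∑ u, conj (U u j) * U u i = (1 : Matrix n n ℂ) j i := by
        rw [← e2, Matrix.mul_apply]; rfl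
      rw [this, Matrix.one_apply]
      split_ifs <;> simp
    have := h1 fun u => conj (U u j)
    rw [f1, f2] at this
    simpa [h] using this
  obtain ⟨j, hj⟩ : ∃ j, q ≤ μ j := by
    by_contra hc
    push Not at hc
    rw [f1, f2, Finset.mul_sum] at h3
    rw [f2] at h2
    obtain ⟨i, -, hi⟩ := Finset.exists_lt_of_sum_lt (f := fun _ => (0 : ℝ))
      (Finset.sum_const_zero.trans_lt h2)
    exact h3.not_gt (Finset.sum_lt_sum
      (fun i _ => mul_le_mul_of_nonneg_right (hc i).le (sq_nonneg _))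
      ⟨i, Finset.mem_univ _, mul_lt_mul_of_pos_right (hc i) hi⟩)
  have g0 : ∀ X Y : Matrix n n ℂ, U * X * star U * (U * Y * star U) = U * (X * Y) * star U :=
    fun X Y => by
      simp only [Matrix.mul_assoc]
      rw [← Matrix.mul_assoc (star U) U, e2, Matrix.one_mul]
  have g1 : ∀ X : Matrix n n ℂ, (U * X * star U).trace = X.trace := fun X => by
    rw [Matrix.trace_mul_comm, ← Matrix.mul_assoc, e2, Matrix.one_mul]
  have g2 : (A * A * A).trace.re + L * (A * A).trace.re = ∑ i, μ i ^ 2 * (μ i + L) := by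
    rw [e1, g0, g0, g1, g1]
    simp only [Matrix.diagonal_mul_diagonal, Matrix.trace_diagonal, Complex.re_sum,
      ← Complex.ofReal_mul, Complex.ofReal_re, Finset.mul_sum, ← Finset.sum_add_distrib]
    exact Finset.sum_congr rfl fun i _ => by ring
  rw [g2]
  refine le_trans ?_ (Finset.single_le_sum (f := fun i => μ i ^ 2 * (μ i + L))
    (fun i _ => mul_nonneg (sq_nonneg _) (by linarith [f3 i])) (Finset.mem_univ j))
  rw [pow_succ]
  exact mul_le_mul (pow_le_pow_left₀ hq hj 2) (by linarith) hq (sq_nonneg _)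

/-- a two to one reindexing of a harmonic sum -/
lemma two_sided {ι : Type*} (W : Finset ι) (g : ι → ℕ) (P : ι → Prop) (N : ℕ)
    (hg : ∀ v ∈ W, g v ∈ Finset.Icc 1 N)
    (hi : ∀ v ∈ W, ∀ v' ∈ W, (P v ↔ P v') → g v = g v' → v = v') :
    ∑ v ∈ W, 1 / (g v : ℝ) ≤ 2 * (1 + Real.log N) := by
  classical
  have h : ∀ V ⊆ W, (∀ v ∈ V, ∀ v' ∈ V, (P v ↔ P v')) →
      ∑ v ∈ V, 1 / (g v : ℝ) ≤ 1 + Real.log N := fun V hV hP => by
    rw [← Finset.sum_image (f := fun m : ℕ => 1 / (m : ℝ))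
      fun v hv v' hv' => hi v (hV hv) v' (hV hv') (hP v hv v' hv')]
    refine le_trans (Finset.sum_le_sum_of_subset_of_nonneg (fun m hm => ?_)
      fun _ _ _ => by positivity) (sum_inv_le N)
    obtain ⟨v, hv, rfl⟩ := Finset.mem_image.1 hm
    exact hg v (hV hv)
  rw [← Finset.sum_filter_add_sum_filter_not W P, two_mul]
  exact add_le_add
    (h _ (Finset.filter_subset _ _) fun v hv v' hv' =>
      iff_of_true (Finset.mem_filter.1 hv).2 (Finset.mem_filter.1 hv').2)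
    (h _ (Finset.filter_subset _ _) fun v hv v' hv' =>
      iff_of_false (Finset.mem_filter.1 hv).2 (Finset.mem_filter.1 hv').2)

lemma four_mul_le {x : ℝ} (hx : |x| ≤ 1 / 2) : 4 * |x| ≤ ‖e x - 1‖ := by
  have h1 : e x = Complex.exp (Complex.I * (2 * Real.pi * x : ℝ)) := by
    rw [e]; congr 1; push_cast; ring
  have hp := Real.pi_pos
  have h2 := Real.mul_abs_le_abs_sin (x := Real.pi * x) (by
    rw [abs_mul, abs_of_pos hp]
    exact (mul_le_mul_of_nonneg_left hx hp.le).trans (le_of_eq (by ring)))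
  rw [abs_mul, abs_of_pos hp, ← mul_assoc, div_mul_cancel₀ _ hp.ne'] at h2
  rw [h1, Complex.norm_exp_I_mul_ofReal_sub_one, Real.norm_eq_abs, abs_mul,
    show 2 * Real.pi * x / 2 = Real.pi * x by ring, abs_two]
  linarith

/-- geometric sums -/
lemma geom (v : ℤ) (B : ℕ) {x : ℝ} (hx : |x| ≤ 1 / 2) :
    2 * |x| * ‖∑ d ∈ Finset.Ico v (v + B), e (d * x)‖ ≤ 1 := by
  have h1 : (e x - 1) * ∑ d ∈ Finset.Ico v (v + B), e (d * x) = e ((v + B) * x) - e (v * x) := by
    induction B with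
    | zero => simp
    | succ n ih =>
      rw [Nat.cast_succ, ← add_assoc, ← Finset.insert_Ico_right_eq_Ico_add_one (by omega),
        Finset.sum_insert (by simp), mul_add, ih]
      push_cast
      rw [show ((v : ℝ) + (n + 1)) * x = x + (v + n) * x by ring, e_add]
      ring
  have h2 := norm_sub_le (e ((v + B) * x)) (e (v * x))
  rw [← h1, norm_mul, norm_e, norm_e] at h2
  have h3 := mul_le_mul_of_nonneg_right (four_mul_le hx)
    (norm_nonneg (∑ d ∈ Finset.Ico v (v + B), e (d * x)))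
  linarith

end CombAAux

open CombAAux

theorem schur : SchurS := fun W A θ L h1 h2 => schur_gen W A θ L h1 h2

theorem cubic : CubicS := by
  intro W H θ L q hH hL hq h1 h2 h3
  have hA : (Matrix.of fun u v : W => H u v).IsHermitian :=
    Matrix.IsHermitian.ext fun u v => (hH u u.2 v v.2).symm
  have h := cubic_mat hA (θ := fun u => θ u) hL hq (fun η => ?_)
    (by rwa [← Finset.sum_coe_sort] at h2)
    (by simp only [← Finset.sum_coe_sort W] at h3; exact h3)
  · refine h.trans (le_of_eq ?_)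
    simp only [← Finset.sum_coe_sort W, Matrix.trace, Matrix.diag, Matrix.mul_apply,
      Matrix.of_apply, Finset.sum_mul]
    congr 2
    · exact Finset.sum_congr rfl fun u _ => Finset.sum_comm
    · simp only [Complex.re_sum]
      refine Finset.sum_congr rfl fun u _ => Finset.sum_congr rfl fun v _ => ?_
      rw [hH v v.2 u u.2, Complex.mul_conj']
      norm_cast
  · have := h1 fun u => if h : u ∈ W then η ⟨u, h⟩ else 0
    simp only [← Finset.sum_coe_sort W, Finset.coe_mem, dite_true] at this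
    exact this

theorem psd : PsdS := fun s o y W η ho => by
  rw [form_Dk]
  exact Finset.sum_nonneg fun k hk => mul_nonneg (ho k hk) (sq_nonneg _)

theorem dual : DualS := by
  intro s' s o y a W l hs ho ha hl hW
  choose θ h1 h2 using fun u : ℤ => Complex.exists_norm_eq_mul_self (Sk s' a y u)
  refine ⟨θ, h1, ?_⟩
  rw [form_Dk]
  have h3 : (W.card : ℝ) * l ≤ ∑ k ∈ s, o k * ‖∑ u ∈ W, θ u * e (u * y k)‖ := by
    calc (W.card : ℝ) * l ≤ ∑ u ∈ W, ‖Sk s' a y u‖ := by
          rw [← nsmul_eq_mul]; exact Finset.card_nsmul_le_sum _ _ _ hW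
      _ = ‖∑ k ∈ s', a k * ∑ u ∈ W, θ u * e (u * y k)‖ := by
          rw [← Real.norm_of_nonneg (Finset.sum_nonneg fun (u : ℤ) _ => norm_nonneg (Sk s' a y u)),
            ← Complex.norm_real]
          congr 1
          push_cast
          simp only [h2]
          simp only [Sk, Finset.mul_sum]
          rw [Finset.sum_comm]
          exact Finset.sum_congr rfl fun k _ => Finset.sum_congr rfl fun u _ => by ring
      _ ≤ ∑ k ∈ s', o k * ‖∑ u ∈ W, θ u * e (u * y k)‖ := by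
          refine (norm_sum_le _ _).trans (Finset.sum_le_sum fun k hk => ?_)
          rw [norm_mul]
          exact mul_le_mul_of_nonneg_right (ha k hk) (norm_nonneg _)
      _ ≤ _ := Finset.sum_le_sum_of_subset_of_nonneg hs fun k hk _ =>
          mul_nonneg (ho k hk) (norm_nonneg _)
  exact (pow_le_pow_left₀ (by positivity) h3 2).trans
    (Finset.sum_sq_le_sum_mul_sum_of_sq_le_mul s ho
      (fun k hk => mul_nonneg (ho k hk) (sq_nonneg _)) fun k _ => le_of_eq (by ring))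

theorem row : RowS := by
  intro W u U hU hW
  have h := two_sided W (fun v => (u - v).natAbs + 1) (fun v => v ≤ u) (⌊U⌋₊ + 1)
    (fun v hv => by
      have : (u - v).natAbs ≤ ⌊U⌋₊ := Nat.le_floor (by
        rw [Nat.cast_natAbs]; push_cast; exact hW v hv)
      rw [Finset.mem_Icc]; omega)
    fun v _ v' _ h1 h2 => by omega
  refine le_trans (le_of_eq (Finset.sum_congr rfl fun v _ => ?_)) (h.trans ?_)
  · rw [Nat.cast_succ, Nat.cast_natAbs, add_comm]; push_cast; rfl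
  · gcongr
    push_cast
    linarith [Nat.floor_le hU]

theorem hm : HmS := by
  intro s' s o y a W l c1 c2 U O hs ho ha hO hl hc hU hW hd hD h2
  obtain ⟨θ, h3, h4⟩ := dual s' s o y a W l hs ho ha hl.le hW
  have hr : ∀ u ∈ W, ∑ v ∈ W, (c1 / (1 + |(u : ℝ) - v|) + c2) ≤
      c1 * (2 * (1 + Real.log (U + 1))) + W.card * c2 := fun u hu => by
    rw [Finset.sum_add_distrib, Finset.sum_const, nsmul_eq_mul]
    refine add_le_add (le_trans (le_of_eq ?_)
      (mul_le_mul_of_nonneg_left (row W u U hU (hd u hu)) hc)) le_rfl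
    simp only [Finset.mul_sum, mul_one_div]
  have h5 := schur W (fun u v => Dk s o y ((u : ℝ) - v)) θ _
    (fun u hu => (Finset.sum_le_sum fun v hv => hD u hu v hv).trans (hr u hu))
    fun v hv => (Finset.sum_le_sum fun u hu => by
      rw [abs_sub_comm (v : ℝ)]; exact hD u hu v hv).trans (hr v hv)
  simp only [h3, one_pow, Finset.sum_const, nsmul_eq_mul, mul_one] at h5
  have h0 : 0 ≤ ∑ k ∈ s, o k := Finset.sum_nonneg ho
  have hO0 : 0 ≤ O := h0.trans hO
  have hg : 0 ≤ Real.log (U + 1) := Real.log_nonneg (by linarith)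
  have h6 := h4.trans ((mul_le_mul_of_nonneg_left ((Complex.re_le_norm _).trans h5) h0).trans
    (mul_le_mul_of_nonneg_right hO ((norm_nonneg _).trans h5)))
  rcases (Nat.cast_nonneg (α := ℝ) W.card).eq_or_lt with hn | hn
  · rw [← hn]; positivity
  rw [le_div_iff₀ (by positivity)]
  refine le_of_mul_le_mul_left ?_ hn
  have h7 := mul_le_mul_of_nonneg_left h2 (sq_nonneg (W.card : ℝ))
  linarith

theorem sieve : SieveS := by
  intro t η M B σ c v θ hσ ht hη hc
  set S : ℕ → ℂ := fun m => ∑ d ∈ c, θ d * e (d * η m) with hS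
  have hM : 0 ≤ Real.log M := Real.log_natCast_nonneg M
  have hr : ∀ m ∈ t, ∑ m' ∈ t, ‖∑ d ∈ Finset.Ico v (v + B), e (d * (η m - η m'))‖ ≤
      B + (1 + Real.log M) / σ := fun m hm => by
    rw [← Finset.add_sum_erase _ _ hm]
    refine add_le_add (by simp) ?_
    have h := two_sided (t.erase m) (fun m' => ((m : ℤ) - m').natAbs) (fun m' => m' ≤ m) M
      (fun m' hm' => by
        have h1 := Finset.mem_Icc.1 (ht hm)
        have h2 := Finset.mem_Icc.1 (ht (Finset.mem_of_mem_erase hm'))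
        have h3 := Finset.ne_of_mem_erase hm'
        rw [Finset.mem_Icc]; omega)
      fun v _ v' _ h1 h2 => by omega
    calc _ ≤ ∑ m' ∈ t.erase m, 1 / (2 * σ) * (1 / (((m : ℤ) - m').natAbs : ℝ)) := by
          refine Finset.sum_le_sum fun m' hm' => ?_
          obtain ⟨h1, h2⟩ := hη m hm m' (Finset.mem_of_mem_erase hm')
          have h3 : (0 : ℝ) < |(m : ℝ) - m'| := abs_pos.2 (sub_ne_zero.2 (by
            exact_mod_cast (Finset.ne_of_mem_erase hm').symm))
          rw [Nat.cast_natAbs]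
          push_cast
          rw [one_div_mul_one_div, le_div_iff₀ (by positivity)]
          have h4 := mul_le_mul_of_nonneg_right h1
            (norm_nonneg (∑ d ∈ Finset.Ico v (v + B), e (d * (η m - η m'))))
          linarith [geom v B h2]
      _ ≤ 1 / (2 * σ) * (2 * (1 + Real.log M)) := by
          rw [← Finset.mul_sum]; gcongr
      _ = _ := by field_simp
  have h1 := schur_gen t (fun m m' => ∑ d ∈ Finset.Ico v (v + B), e (d * (η m - η m')))
    (fun m => conj (S m)) _ hr fun m hm => le_trans (le_of_eq (Finset.sum_congr rfl fun m' _ => by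
      rw [← Complex.norm_conj, map_sum]
      simp only [conj_e, ← mul_neg, neg_sub])) (hr m hm)
  have h2 := form t (Finset.Ico v (v + B)) (fun _ => 1) (fun m d => e (d * η m))
    fun m => conj (S m)
  simp only [Complex.ofReal_one, one_mul, ← e_sub, ← mul_sub] at h2
  have h3 : ∑ d ∈ c, ‖∑ m ∈ t, conj (S m) * e (d * η m)‖ ^ 2 ≤
      (B + (1 + Real.log M) / σ) * ∑ m ∈ t, ‖S m‖ ^ 2 := by
    refine (Finset.sum_le_sum_of_subset_of_nonneg (fun d hd => Finset.mem_Ico.2 (hc d hd))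
      fun _ _ _ => sq_nonneg _).trans (h2.ge.trans ((Complex.re_le_norm _).trans ?_))
    simpa only [Complex.norm_conj] using h1
  have h4 : ∑ m ∈ t, ‖S m‖ ^ 2 ≤ ∑ d ∈ c, ‖θ d‖ * ‖∑ m ∈ t, conj (S m) * e (d * η m)‖ := by
    calc ∑ m ∈ t, ‖S m‖ ^ 2 = ‖∑ d ∈ c, θ d * ∑ m ∈ t, conj (S m) * e (d * η m)‖ := by
          rw [← Real.norm_of_nonneg (Finset.sum_nonneg fun m _ => sq_nonneg ‖S m‖),
            ← Complex.norm_real]
          congr 1
          push_cast
          simp only [← Complex.conj_mul', Finset.mul_sum]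
          rw [Finset.sum_comm]
          refine Finset.sum_congr rfl fun m _ => ?_
          conv_lhs => rw [hS]
          rw [Finset.mul_sum]
          exact Finset.sum_congr rfl fun d _ => by ring
      _ ≤ _ := (norm_sum_le _ _).trans (le_of_eq (by simp only [norm_mul]))
  have h0 : 0 ≤ ∑ m ∈ t, ‖S m‖ ^ 2 := Finset.sum_nonneg fun _ _ => sq_nonneg _
  have h6 : 0 ≤ ∑ d ∈ c, ‖θ d‖ ^ 2 := Finset.sum_nonneg fun _ _ => sq_nonneg _
  have h5 := (pow_le_pow_left₀ h0 h4 2).trans ((Finset.sum_mul_sq_le_sq_mul_sq _ _ _).trans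
    (mul_le_mul_of_nonneg_left h3 h6))
  show ∑ m ∈ t, ‖S m‖ ^ 2 ≤ _
  rcases h0.eq_or_lt with h | h
  · rw [← h]; positivity
  refine le_of_mul_le_mul_right ?_ h
  linarith

end Pool.Agent.Lib.MP_80d0cf_nt.Up
end

-- part Pool.Agent.Lib.MP_80d0cf_nt.Up.CombB
section

/-! Additive energy of the set of large values, and counting of approximate coincidences. -/

open Finset ComplexConjugate

namespace Pool.Agent.Lib.MP_80d0cf_nt.Up

namespace CombBAux

variable {ι ι' : Type*}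

/-- number of coincidences between two families of integers -/
noncomputable def co (I : Finset ι) (J : Finset ι') (f : ι → ℤ) (g : ι' → ℤ) : ℝ :=
  ∑ i ∈ I, ∑ j ∈ J, if f i = g j then 1 else 0

lemma co_nonneg (I : Finset ι) (J : Finset ι') (f : ι → ℤ) (g : ι' → ℤ) : 0 ≤ co I J f g :=
  sum_nonneg fun _ _ => sum_nonneg fun _ _ => by positivity

lemma co_eq (I : Finset ι) (J : Finset ι') (f : ι → ℤ) (g : ι' → ℤ) (T : Finset ℤ)
    (hT : ∀ i ∈ I, f i ∈ T) : co I J f g = ∑ t ∈ T, (∑ i ∈ I, if f i = t then (1 : ℝ) else 0) *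
      ∑ j ∈ J, if g j = t then (1 : ℝ) else 0 := by
  simp only [sum_mul_sum]
  rw [sum_comm]
  refine sum_congr rfl fun i hi => ?_
  rw [sum_comm]
  refine sum_congr rfl fun j _ => ?_
  simp only [ite_mul, one_mul, zero_mul, sum_ite_eq, if_pos (hT i hi)]
  simp only [eq_comm]

lemma co_le (I : Finset ι) (J : Finset ι') (f : ι → ℤ) (g : ι' → ℤ) :
    co I J f g ≤ √(co I I f f * co J J g g) := by
  classical
  have h1 : ∀ i ∈ I, f i ∈ I.image f ∪ J.image g := fun i hi =>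
    mem_union_left _ (mem_image_of_mem f hi)
  have h2 : ∀ j ∈ J, g j ∈ I.image f ∪ J.image g := fun j hj =>
    mem_union_right _ (mem_image_of_mem g hj)
  refine Real.le_sqrt_of_sq_le ?_
  rw [co_eq I J f g _ h1, co_eq I I f f _ h1, co_eq J J g g _ h2]
  simp only [← sq]
  exact sum_mul_sq_le_sq_mul_sq _ _ _

lemma wsum (I : Finset ι) (J : Finset ι') (f : ι → ℤ) (g : ι' → ℤ) (φ : ℤ → ℝ)
    (hφ : ∀ d, 0 ≤ φ d) {Φ : ℝ} (hΦ : ∀ T : Finset ℤ, ∑ d ∈ T, φ d ≤ Φ) :
    ∑ i ∈ I, ∑ j ∈ J, φ (f i - g j) ≤ Φ * √(co I I f f * co J J g g) := by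
  classical
  set T := (I ×ˢ J).image fun q => f q.1 - g q.2 with hT
  calc _ = ∑ d ∈ T, φ d * co I J f fun j => g j + d := by
        simp only [co, mul_sum]
        rw [sum_comm (s := T)]
        refine sum_congr rfl fun i hi => ?_
        rw [sum_comm (s := T)]
        refine sum_congr rfl fun j hj => ?_
        simp only [mul_ite, mul_one, mul_zero, ← sub_eq_iff_eq_add', sum_ite_eq]
        rw [if_pos (mem_image_of_mem (fun q : ι × ι' => f q.1 - g q.2) (mk_mem_product hi hj))]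
    _ ≤ ∑ d ∈ T, φ d * √(co I I f f * co J J g g) := sum_le_sum fun d _ =>
        mul_le_mul_of_nonneg_left ((co_le _ _ _ _).trans (le_of_eq (by
          simp only [co, add_left_inj]))) (hφ d)
    _ ≤ _ := by
        rw [← sum_mul]
        exact mul_le_mul_of_nonneg_right (hΦ T) (Real.sqrt_nonneg _)

lemma wsum_self (I : Finset ι) (f : ι → ℤ) (φ : ℤ → ℝ) (hφ : ∀ d, 0 ≤ φ d) {Φ : ℝ}
    (hΦ : ∀ T : Finset ℤ, ∑ d ∈ T, φ d ≤ Φ) :
    ∑ i ∈ I, ∑ j ∈ I, φ (f i - f j) ≤ Φ * co I I f f := by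
  have := wsum I I f f φ hφ hΦ
  rwa [Real.sqrt_mul_self (co_nonneg _ _ _ _)] at this

lemma sum_ind_le (T : Finset ℤ) (n : ℕ) :
    ∑ d ∈ T, (if |d| ≤ n then (1 : ℝ) else 0) ≤ 2 * n + 1 := by
  rw [sum_boole]
  have : T.filter (fun d : ℤ => |d| ≤ n) ⊆ Icc (-(n : ℤ)) n := fun d hd =>
    mem_Icc.2 (abs_le.1 (mem_filter.1 hd).2)
  have h := card_le_card this
  rw [Int.card_Icc] at h
  exact_mod_cast (show (T.filter fun d : ℤ => |d| ≤ n).card ≤ 2 * n + 1 by omega)

lemma sum_inv_sq_le (T : Finset ℤ) : ∑ d ∈ T, 1 / (1 + |(d : ℝ)|) ^ 2 ≤ 4 := by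
  obtain ⟨n, hn⟩ : ∃ n : ℕ, ∀ d ∈ T, d.natAbs ≤ n := ⟨T.sup Int.natAbs, fun d hd => le_sup hd⟩
  have h1 : T ⊆ (range (2 * n + 1)).image fun m : ℕ => (m : ℤ) - n := fun d hd => by
    have := hn d hd
    exact mem_image.2 ⟨(d + n).toNat, mem_range.2 (by omega), by omega⟩
  refine (sum_le_sum_of_subset_of_nonneg h1 fun _ _ _ => by positivity).trans ?_
  rw [sum_image fun a _ b _ h => by simpa using h]
  set h : ℝ → ℝ := fun x => 2 * x / (1 + |x|) with hh
  have h2 : ∀ d : ℤ, 1 / (1 + |(d : ℝ)|) ^ 2 ≤ h (d + 1) - h d := fun d => by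
    simp only [hh]
    rcases le_or_gt 0 d with hd | hd
    · have : (0 : ℝ) ≤ d := by exact_mod_cast hd
      rw [abs_of_nonneg this, abs_of_nonneg (by linarith), div_sub_div _ _ (by positivity)
        (by positivity), div_le_div_iff₀ (by positivity) (by positivity)]
      nlinarith
    · have : (d : ℝ) + 1 ≤ 0 := by exact_mod_cast hd
      have h3 : 0 < 1 + -((d : ℝ) + 1) := by linarith
      have h4 : 0 < 1 + -(d : ℝ) := by linarith
      rw [abs_of_nonpos this, abs_of_nonpos (by linarith), div_sub_div _ _ h3.ne' h4.ne',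
        div_le_div_iff₀ (by positivity) (by positivity)]
      nlinarith
  have h3 : ∀ x, |h x| ≤ 2 := fun x => by
    simp only [hh]
    rw [abs_div, abs_mul, abs_two, abs_of_pos (by positivity : 0 < 1 + |x|),
      div_le_iff₀ (by positivity)]
    linarith
  refine (sum_le_sum fun m _ => h2 _).trans ?_
  have h4 := sum_range_sub (fun m : ℕ => h (m - n)) (2 * n + 1)
  rw [sum_congr rfl fun (m : ℕ) _ => show h ((((m : ℤ) - n : ℤ) : ℝ) + 1) - h (((m : ℤ) - n : ℤ) : ℝ) =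
    h (((m + 1 : ℕ) : ℝ) - n) - h (m - n) by push_cast; congr 2; ring, h4]
  linarith [abs_le.1 (h3 (((2 * n + 1 : ℕ) : ℝ) - n)), abs_le.1 (h3 (((0 : ℕ) : ℝ) - n))]

lemma abs_floor_sub_le {x y : ℝ} {n : ℕ} (h : |x - y| ≤ n) : |⌊x⌋ - ⌊y⌋| ≤ n := by
  rw [abs_le] at h ⊢
  have h1 := Int.floor_le_floor (show x ≤ y + (n : ℤ) by push_cast; linarith)
  have h2 := Int.floor_le_floor (show y ≤ x + (n : ℤ) by push_cast; linarith)
  rw [Int.floor_add_intCast] at h1 h2
  constructor <;> linarith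

lemma card_four (W : Finset ℤ) (p : ℤ × ℤ × ℤ × ℤ → Prop) [DecidablePred p] :
    (((W ×ˢ W ×ˢ W ×ˢ W).filter p).card : ℝ) =
      ∑ i ∈ W ×ˢ W, ∑ j ∈ W ×ˢ W, if p (i.1, i.2, j.1, j.2) then 1 else 0 := by
  simp only [card_filter, Nat.cast_sum, sum_product, Nat.cast_ite, Nat.cast_one, Nat.cast_zero]

lemma col_le (W : Finset ℤ) {α P : ℝ} (h0 : 0 < α) (h1 : α ≤ 1) (hP : 0 < P) :
    co (W ×ˢ W) (W ×ˢ W) (fun q => ⌊α * ((q.1 : ℝ) - q.2) / P⌋)
      (fun q => ⌊α * ((q.1 : ℝ) - q.2) / P⌋) ≤ 5 / α * En W P := by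
  have h2 := wsum_self (W ×ˢ W) (fun q => ⌊((q.1 : ℝ) - q.2) / P⌋)
    (fun d => if |d| ≤ ⌈1 / α⌉₊ then (1 : ℝ) else 0) (fun _ => by positivity)
    fun T => sum_ind_le T _
  refine le_trans (sum_le_sum fun i _ => sum_le_sum fun j _ => ?_) (h2.trans (mul_le_mul ?_ ?_
    (co_nonneg _ _ _ _) (by positivity)))
  · split_ifs with a b
    · exact le_rfl
    · refine absurd (abs_floor_sub_le (le_trans ?_ (Nat.le_ceil _))) b
      have := (Int.abs_sub_lt_one_of_floor_eq_floor a).le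
      rw [mul_div_assoc, mul_div_assoc, ← mul_sub, abs_mul, abs_of_pos h0] at this
      rwa [le_div_iff₀' h0]
    · exact zero_le_one
    · exact le_rfl
  · have := (Nat.ceil_lt_add_one (show 0 ≤ 1 / α by positivity)).le
    have h3 : 1 ≤ 1 / α := one_le_one_div h0 h1
    rw [show 5 / α = 5 * (1 / α) by ring]
    linarith
  · rw [En, card_four]
    refine sum_le_sum fun i _ => sum_le_sum fun j _ => ?_
    split_ifs with a b
    · exact le_rfl
    · have := (Int.abs_sub_lt_one_of_floor_eq_floor a).le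
      rw [← sub_div, abs_div, abs_of_pos hP, div_le_one hP] at this
      exact absurd (by simpa using this) b
    · exact zero_le_one
    · exact le_rfl

lemma norm_sq_eq (z : ℂ) : ‖z‖ ^ 2 = (z * conj z).re := by
  rw [Complex.mul_conj, Complex.ofReal_re, Complex.normSq_eq_norm_sq]

/-- the weighted second moment of an exponential sum over a multiset -/
lemma moment (s : Finset ℕ) (o y : ℕ → ℝ) (I : Finset ι) (v : ι → ℤ) {c1 E3 : ℝ} (hc : 0 ≤ c1)
    (h : ∀ i ∈ I, ∀ j ∈ I, ‖Dk s o y (v i - v j : ℤ)‖ ^ 2 ≤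
      c1 / (1 + |((v i - v j : ℤ) : ℝ)|) ^ 2 + E3) :
    ∑ q ∈ s ×ˢ s, o q.1 * o q.2 * ‖∑ i ∈ I, e (v i * (y q.1 - y q.2))‖ ^ 2 ≤
      4 * c1 * co I I v v + (I.card : ℝ) ^ 2 * E3 := by
  have h1 : ∑ q ∈ s ×ˢ s, o q.1 * o q.2 * ‖∑ i ∈ I, e (v i * (y q.1 - y q.2))‖ ^ 2 =
      ∑ i ∈ I, ∑ j ∈ I, ‖Dk s o y (v i - v j : ℤ)‖ ^ 2 := by
    simp only [norm_sq_eq, ← Complex.re_ofReal_mul, ← Complex.re_sum]
    congr 1
    simp only [Dk, map_sum, sum_mul_sum]
    simp only [mul_sum]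
    rw [sum_comm]
    refine sum_congr rfl fun i _ => ?_
    rw [sum_comm]
    refine sum_congr rfl fun j _ => ?_
    rw [sum_product]
    refine sum_congr rfl fun k _ => sum_congr rfl fun k' _ => ?_
    rw [map_mul, Complex.conj_ofReal, ← e_sub, mul_mul_mul_comm, ← e_sub]
    push_cast
    congr 2
    ring
  have h2 := wsum_self I v (fun d => 1 / (1 + |(d : ℝ)|) ^ 2) (fun _ => by positivity)
    sum_inv_sq_le
  rw [h1]
  refine (sum_le_sum fun i hi => sum_le_sum fun j hj => h i hi j hj).trans ?_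
  simp only [sum_add_distrib, sum_const, nsmul_eq_mul, div_eq_mul_one_div c1, ← mul_sum]
  nlinarith [mul_le_mul_of_nonneg_left h2 hc]

lemma bilin (s' s : Finset ℕ) (o y : ℕ → ℝ) (a : ℕ → ℂ) (hs : s' ⊆ s) (ho : ∀ k ∈ s, 0 ≤ o k)
    (ha : ∀ k ∈ s', ‖a k‖ ≤ o k) (I : Finset ι) (J : Finset ι') (v : ι → ℤ) (w : ι' → ℤ) :
    (∑ i ∈ I, ∑ j ∈ J, ‖Sk s' a y (v i + w j : ℤ)‖ ^ 2) ^ 2 ≤
      (∑ q ∈ s ×ˢ s, o q.1 * o q.2 * ‖∑ i ∈ I, e (v i * (y q.1 - y q.2))‖ ^ 2) *
        ∑ q ∈ s ×ˢ s, o q.1 * o q.2 * ‖∑ j ∈ J, e (w j * (y q.1 - y q.2))‖ ^ 2 := by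
  have h0 : ∀ q ∈ s ×ˢ s, 0 ≤ o q.1 * o q.2 := fun q hq =>
    mul_nonneg (ho _ (mem_product.1 hq).1) (ho _ (mem_product.1 hq).2)
  have h1 : ∑ i ∈ I, ∑ j ∈ J, ‖Sk s' a y (v i + w j : ℤ)‖ ^ 2 = (∑ q ∈ s' ×ˢ s', a q.1 *
      conj (a q.2) * ((∑ i ∈ I, e (v i * (y q.1 - y q.2))) *
        ∑ j ∈ J, e (w j * (y q.1 - y q.2)))).re := by
    simp only [norm_sq_eq, ← Complex.re_sum]
    congr 1
    simp only [Sk, map_sum, sum_mul_sum]
    simp only [mul_sum]
    rw [sum_comm (s := s' ×ˢ s')]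
    refine sum_congr rfl fun i _ => ?_
    rw [sum_comm (s := s' ×ˢ s')]
    refine sum_congr rfl fun j _ => ?_
    rw [sum_product]
    refine sum_congr rfl fun k _ => sum_congr rfl fun k' _ => ?_
    rw [map_mul, mul_mul_mul_comm, ← e_sub, ← e_add]
    push_cast
    congr 2
    ring
  have h2 : ∑ i ∈ I, ∑ j ∈ J, ‖Sk s' a y (v i + w j : ℤ)‖ ^ 2 ≤ ∑ q ∈ s ×ˢ s, o q.1 * o q.2 *
      (‖∑ i ∈ I, e (v i * (y q.1 - y q.2))‖ * ‖∑ j ∈ J, e (w j * (y q.1 - y q.2))‖) := by
    rw [h1]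
    refine (Complex.re_le_norm _).trans ((norm_sum_le _ _).trans ((sum_le_sum fun q hq => ?_).trans
      (sum_le_sum_of_subset_of_nonneg (product_subset_product hs hs)
        fun q hq _ => mul_nonneg (h0 q hq) (by positivity))))
    obtain ⟨g1, g2⟩ := mem_product.1 hq
    rw [norm_mul, norm_mul, norm_mul, RCLike.norm_conj]
    exact mul_le_mul_of_nonneg_right (mul_le_mul (ha _ g1) (ha _ g2) (norm_nonneg _)
      (ho _ (hs g1))) (by positivity)
  refine (pow_le_pow_left₀ (by positivity) h2 2).trans ?_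
  refine sum_sq_le_sum_mul_sum_of_sq_le_mul _ (fun q hq => mul_nonneg (h0 q hq) (sq_nonneg _))
    (fun q hq => mul_nonneg (h0 q hq) (sq_nonneg _)) fun q _ => le_of_eq (by ring)

lemma shift_count (P : ℕ) (d d' : ℤ) (h : |d - d'| ≤ P) :
    (P : ℝ) ≤ ∑ i ∈ range (2 * P), ∑ j ∈ range (2 * P),
      if d + i = d' + j then (1 : ℝ) else 0 := by
  rw [← sum_product', sum_boole, Nat.cast_le]
  rw [abs_le] at h
  refine (card_range P).symm.le.trans (card_le_card_of_injOn
    (fun m => (m + (d' - d).toNat, m + (d - d').toNat)) (fun m hm => ?_) fun a _ b _ hab => ?_)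
  · simp only [coe_range, Set.mem_Iio, coe_filter, mem_product, mem_range,
      Set.mem_ofPred_eq] at hm ⊢
    omega
  · simpa using congrArg Prod.fst hab

end CombBAux

open CombBAux

theorem count : CountS := by
  intro W α β P a0 a1 b0 b1 hP
  have h1 := wsum (W ×ˢ W) (W ×ˢ W) (fun q => ⌊α * ((q.1 : ℝ) - q.2) / P⌋)
    (fun q => ⌊β * ((q.1 : ℝ) - q.2) / P⌋) (fun d => if |d| ≤ (1 : ℕ) then (1 : ℝ) else 0)
    (fun _ => by positivity) fun T => sum_ind_le T 1
  rw [card_four]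
  refine le_trans (sum_le_sum fun i _ => sum_le_sum fun j _ => ?_) (h1.trans ?_)
  · split_ifs with a b
    · exact le_rfl
    · refine absurd (abs_floor_sub_le ?_) b
      rwa [← sub_div, abs_div, abs_of_pos hP, Nat.cast_one, div_le_one hP]
    · exact zero_le_one
    · exact le_rfl
  · have h2 := mul_le_mul (col_le W a0 a1 hP) (col_le W b0 b1 hP) (co_nonneg _ _ _ _)
      (by positivity)
    have h3 : 5 / α * (En W P : ℝ) * (5 / β * En W P) = (5 * En W P / √(α * β)) ^ 2 := by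
      rw [div_pow, Real.sq_sqrt (by positivity)]
      field_simp
    have h4 := Real.sqrt_le_iff.2 ⟨by positivity, h2.trans h3.le⟩
    rw [show 15 * (En W P : ℝ) / √(α * β) = 3 * (5 * En W P / √(α * β)) by ring]
    norm_num
    exact h4

theorem energy : EnergyS := by
  intro s' s o y a W P l c1 E3 U N1 X1 X2 hs ho ha hl hc hE hP hW hU hD hN h1 h2
  set I := (W ×ˢ W) ×ˢ range (2 * P) with hI
  set J := W ×ˢ range (2 * P) with hJ
  set v : (ℤ × ℤ) × ℕ → ℤ := fun q => q.1.1 - q.1.2 + q.2 with hv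
  set w : ℤ × ℕ → ℤ := fun q => q.1 - q.2 with hw
  have hr : ∀ i ∈ range (2 * P), ∀ j ∈ range (2 * P), |(i : ℝ) - j| ≤ 2 * P := fun i hi j hj => by
    have b1 : (i : ℝ) ≤ 2 * P := by exact_mod_cast (mem_range.1 hi).le
    have b2 : (j : ℝ) ≤ 2 * P := by exact_mod_cast (mem_range.1 hj).le
    rw [abs_le]
    constructor <;> linarith [Nat.cast_nonneg (α := ℝ) i, Nat.cast_nonneg (α := ℝ) j]
  have qa : (P : ℝ) * En W P ≤ co I I v v := by
    rw [En, card_four, co, hI, sum_product (W ×ˢ W), mul_sum]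
    refine sum_le_sum fun i _ => ?_
    simp only [sum_product (W ×ˢ W)]
    rw [sum_comm, mul_sum]
    refine sum_le_sum fun j _ => ?_
    split_ifs with h
    · rw [mul_one]
      exact shift_count P (i.1 - i.2) (j.1 - j.2) (by exact_mod_cast h)
    · rw [mul_zero]
      exact sum_nonneg fun _ _ => sum_nonneg fun _ _ => by positivity
  have qb : l ^ 2 * co I I v v ≤ ∑ i ∈ I, ∑ j ∈ J, ‖Sk s' a y (v i + w j : ℤ)‖ ^ 2 := by
    rw [co, mul_sum]
    refine sum_le_sum fun i _ => ?_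
    rw [hI, hJ, sum_product, sum_product, sum_comm, sum_product, mul_sum]
    refine sum_le_sum fun u _ => ?_
    rw [sum_comm, mul_sum]
    refine sum_le_sum fun m _ => ?_
    rw [sum_congr rfl fun x _ => if_congr (show v i = v ((x, u), m) ↔ v i + w (u, m) = x by
      simp only [hv, hw]; omega) rfl rfl, sum_ite_eq]
    split_ifs with h
    · rw [mul_one]
      exact pow_le_pow_left₀ hl.le (hW _ h) 2
    · rw [mul_zero]; positivity
  have mF := moment s o y I v hc fun i hi j hj => hD _ (by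
    simp only [hI, mem_product] at hi hj
    have b1 := abs_le.1 (hU _ hi.1.1 _ hj.1.1)
    have b2 := abs_le.1 (hU _ hi.1.2 _ hj.1.2)
    have b3 := abs_le.1 (hr _ hi.2 _ hj.2)
    simp only [hv]
    push_cast
    rw [abs_le]
    constructor <;> linarith)
  have mG := moment s o y J w hc fun i hi j hj => hD _ (by
    simp only [hJ, mem_product] at hi hj
    have b1 := abs_le.1 (hU _ hi.1 _ hj.1)
    have b3 := abs_le.1 (hr _ hi.2 _ hj.2)
    simp only [hw]
    push_cast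
    rw [abs_le]
    constructor <;> linarith)
  have cG : co J J w w ≤ 2 * P * N1 := by
    refine le_trans ?_ (mul_le_mul_of_nonneg_left hN (by positivity))
    rw [card_filter, co, hJ, sum_product, sum_product, Nat.cast_sum, mul_sum]
    refine sum_le_sum fun u _ => ?_
    simp only [sum_product]
    rw [sum_comm, Nat.cast_sum, mul_sum]
    refine sum_le_sum fun u' _ => ?_
    split_ifs with h
    · calc _ ≤ ∑ _i ∈ range (2 * P), (1 : ℝ) := sum_le_sum fun i _ => by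
            rw [sum_boole, Nat.cast_le_one, card_le_one]
            intro b hb c hc
            have := (mem_filter.1 hb).2
            have := (mem_filter.1 hc).2
            simp only [hw] at *
            omega
        _ = _ := by simp
    · rw [sum_eq_zero fun i hi => sum_eq_zero fun j hj => if_neg fun h' => h ?_]
      · simp
      · have : (u : ℝ) - i = u' - j := by exact_mod_cast h'
        rw [show (u : ℝ) - u' = i - j by linarith]
        exact hr i hi j hj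
  have key := (pow_le_pow_left₀ (by have := co_nonneg I I v v; positivity) qb 2).trans
    (bilin s' s o y a hs ho ha I J v w)
  have cI : (I.card : ℝ) ^ 2 * E3 ≤ X2 := by
    refine le_trans (le_of_eq ?_) h2
    simp only [hI, card_product, card_range]
    push_cast; ring
  have cJ : 4 * c1 * co J J w w + (J.card : ℝ) ^ 2 * E3 ≤ X1 := by
    refine le_trans ?_ h1
    simp only [hJ, card_product, card_range]
    push_cast
    nlinarith [mul_le_mul_of_nonneg_left cG hc]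
  have nn : ∀ {κ : Type} (K : Finset κ) (z : κ → ℤ), 0 ≤ ∑ q ∈ s ×ˢ s,
      o q.1 * o q.2 * ‖∑ i ∈ K, e (z i * (y q.1 - y q.2))‖ ^ 2 := fun K z =>
    sum_nonneg fun q hq => mul_nonneg (mul_nonneg (ho _ (mem_product.1 hq).1)
      (ho _ (mem_product.1 hq).2)) (sq_nonneg _)
  have x1 : 0 ≤ X1 := ((nn J w).trans mG).trans cJ
  have x2 : 0 ≤ X2 := le_trans (by positivity) cI
  have q0 := co_nonneg I I v v
  have k2 : (l ^ 2 * co I I v v) ^ 2 ≤ (4 * c1 * co I I v v + X2) * X1 :=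
    key.trans (mul_le_mul (by linarith) (mG.trans cJ) (nn J w) (by positivity))
  refine qa.trans ?_
  generalize co I I v v = Q at k2 q0
  have k3 : Q ^ 2 ≤ 4 * c1 * X1 / l ^ 4 * Q + (√(X1 * X2) / l ^ 2) ^ 2 := by
    rw [div_pow, Real.sq_sqrt (by positivity), div_mul_eq_mul_div, ← pow_mul, ← add_div,
      le_div_iff₀ (by positivity)]
    linarith
  have k4 : 0 ≤ 4 * c1 * X1 / l ^ 4 := by positivity
  have k5 : 0 ≤ √(X1 * X2) / l ^ 2 := by positivity
  by_contra hne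
  push Not at hne
  nlinarith

end Pool.Agent.Lib.MP_80d0cf_nt.Up
end

-- part Pool.Agent.Lib.MP_80d0cf_nt.Up.Kern
section

/-! The B process for the Gram kernel. -/

open Set MeasureTheory ComplexConjugate

namespace Pool.Agent.Lib.MP_80d0cf_nt.Up

namespace KernAux

variable {K x : ℝ}

lemma zk_mem (hK : 0 < K) (hx : x ∈ Icc (K / 4) (4 * K)) : 1 / 2 ≤ zk K x ∧ zk K x ≤ 2 := by
  refine ⟨Real.le_sqrt_of_sq_le ?_, Real.sqrt_le_iff.2 ⟨by norm_num, ?_⟩⟩
  · rw [le_div_iff₀ hK]; linarith [hx.1]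
  · rw [div_le_iff₀ hK]; linarith [hx.2]

lemma zk_sq (hK : 0 < K) (hx : x ∈ Icc (K / 4) (4 * K)) : x = K * zk K x ^ 2 := by
  have h0 : 0 ≤ x / K := div_nonneg (by linarith [hx.1]) hK.le
  rw [zk, Real.sq_sqrt h0]
  field_simp

lemma zk_out (hK : 0 < K) (hx : x ≤ K / 4 ∨ 4 * K ≤ x) : zk K x ≤ 1 / 2 ∨ 2 ≤ zk K x := by
  rcases hx with h | h
  · refine Or.inl (Real.sqrt_le_iff.2 ⟨by norm_num, ?_⟩)
    rw [div_le_iff₀ hK]; linarith
  · refine Or.inr (Real.le_sqrt_of_sq_le ?_)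
    rw [le_div_iff₀ hK]; linarith

lemma hasDerivAt_zk (hK : 0 < K) (hx : x ∈ Icc (K / 4) (4 * K)) :
    HasDerivAt (zk K) (1 / (2 * K * zk K x)) x := by
  have h0 : 0 < x := by linarith [hx.1]
  have h := ((hasDerivAt_id x).div_const K).sqrt (by simp only [id]; positivity)
  refine h.congr_deriv ?_
  have := (zk_mem hK hx).1
  simp only [id, zk] at this ⊢
  field_simp

/-- amplitude -/
noncomputable def w (K ρ u x : ℝ) : ℂ := (Om0 (zk K x) : ℂ) * e (u * ρ * zk K x ^ 3 / 8)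

/-- derivative of the amplitude -/
noncomputable def w1 (K ρ u x : ℝ) : ℂ :=
  ((Om1 (zk K x) / (2 * K * zk K x) : ℝ) : ℂ) * e (u * ρ * zk K x ^ 3 / 8) +
    (Om0 (zk K x) : ℂ) * (2 * Real.pi * Complex.I * ((3 * u * ρ * zk K x / (16 * K) : ℝ) : ℂ) *
      e (u * ρ * zk K x ^ 3 / 8))

/-- phase -/
noncomputable def p0 (K u x : ℝ) : ℝ := -(u / 8) * zk K x

/-- first derivative -/
noncomputable def p1 (K u x : ℝ) : ℝ := -u / (16 * K * zk K x)

/-- second derivative -/
noncomputable def p2 (K u x : ℝ) : ℝ := u / (32 * K ^ 2 * zk K x ^ 3)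

/-- third derivative -/
noncomputable def p3 (K u x : ℝ) : ℝ := -(3 * u) / (64 * K ^ 3 * zk K x ^ 5)

lemma hasDerivAt_w (hK : 0 < K) (ρ u : ℝ) (hx : x ∈ Icc (K / 4) (4 * K)) :
    HasDerivAt (w K ρ u) (w1 K ρ u x) x := by
  have hz := hasDerivAt_zk hK hx
  have hz0 : 0 < zk K x := by linarith [(zk_mem hK hx).1]
  have h1 : HasDerivAt (fun y => Om0 (zk K y)) (Om1 (zk K x) / (2 * K * zk K x)) x := by
    refine ((hasDerivAt_Om0 (zk K x)).comp x hz).congr_deriv ?_
    ring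
  have h2 : HasDerivAt (fun y => u * ρ * zk K y ^ 3 / 8) (3 * u * ρ * zk K x / (16 * K)) x := by
    refine (((hz.fun_pow 3).const_mul (u * ρ)).div_const 8).congr_deriv ?_
    norm_num
    field_simp
    ring
  exact h1.ofReal_comp.mul (hasDerivAt_e_comp h2)

lemma norm_w1_le (hK : 0 < K) {ρ u : ℝ} (hρ : 0 ≤ ρ) (hu : 0 ≤ u)
    (hx : x ∈ Icc (K / 4) (4 * K)) : ‖w1 K ρ u x‖ ≤ 4 * (1 + ρ * u) / K := by
  obtain ⟨z1, z2⟩ := zk_mem hK hx
  have hz0 : 0 < zk K x := by linarith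
  have h1 : |Om1 (zk K x) / (2 * K * zk K x)| ≤ 4 / K := by
    rw [abs_div, abs_of_pos (show 0 < 2 * K * zk K x by positivity)]
    exact div_le_div₀ (by norm_num) (abs_Om1_le _) hK (by nlinarith)
  have h2 : Om0 (zk K x) * (2 * Real.pi * (3 * u * ρ * zk K x / (16 * K))) ≤ 4 * (ρ * u) / K := by
    calc _ ≤ 1 * (2 * 4 * (3 * u * ρ * 2 / (16 * K))) := by
          gcongr
          exacts [Om0_le_one _, Real.pi_lt_four.le]
      _ = 3 * (ρ * u) / K := by field_simp; ring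
      _ ≤ _ := by gcongr; norm_num
  have h3 : 0 ≤ 3 * u * ρ * zk K x / (16 * K) := by positivity
  refine (norm_add_le _ _).trans ?_
  simp only [norm_mul, norm_e, mul_one, Complex.norm_real, Complex.norm_I, Real.norm_eq_abs,
    Complex.norm_ofNat, abs_of_pos Real.pi_pos, abs_of_nonneg (Om0_nonneg _), abs_of_nonneg h3]
  calc _ ≤ 4 / K + 4 * (ρ * u) / K := add_le_add h1 h2
    _ = _ := by ring

lemma ph3 (hK : 0 < K) {u : ℝ} (hu : 0 ≤ u) :
    Ph3 (K / 4) (4 * K) (u / (256 * K ^ 2)) 2048 (p0 K u) (p1 K u) (p2 K u) (p3 K u) := by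
  refine ⟨⟨fun x hx => ?_, fun x hx => ?_⟩, fun x hx => ?_, fun x hx => ?_, fun x hx => ?_,
    fun x hx => ?_⟩
  all_goals
    obtain ⟨z1, z2⟩ := zk_mem hK hx
    have hz0 : 0 < zk K x := by linarith
    have hz := hasDerivAt_zk hK hx
  · refine (hz.const_mul (-(u / 8))).congr_deriv ?_
    rw [p1]; field_simp; ring
  · refine ((hasDerivAt_const x (-u)).div (hz.const_mul (16 * K)) (by positivity)).congr_deriv ?_
    rw [p2]; field_simp; ring
  · refine ((hasDerivAt_const x u).div ((hz.fun_pow 3).const_mul (32 * K ^ 2))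
      (by positivity)).congr_deriv ?_
    rw [p3]; norm_num; field_simp; ring
  · rw [p2]
    have : zk K x ^ 3 ≤ 2 ^ 3 := by gcongr
    refine div_le_div_of_nonneg_left hu (by positivity) ?_
    nlinarith [sq_pos_of_pos hK]
  · rw [p2]
    have : (1 / 2) ^ 3 ≤ zk K x ^ 3 := by gcongr
    calc u / (32 * K ^ 2 * zk K x ^ 3) ≤ u / (32 * K ^ 2 * (1 / 2) ^ 3) := by gcongr
      _ = 64 * (u / (256 * K ^ 2)) := by field_simp; ring
      _ ≤ _ := by gcongr; norm_num
  · rw [p3, abs_div, abs_neg, abs_of_nonneg (by positivity), abs_of_pos (by positivity)]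
    have : (1 / 2) ^ 5 ≤ zk K x ^ 5 := by gcongr
    calc 3 * u / (64 * K ^ 3 * zk K x ^ 5) * (4 * K - K / 4)
        ≤ 3 * u / (64 * K ^ 3 * (1 / 2) ^ 5) * (4 * K - K / 4) := by
          gcongr; linarith
      _ = 1440 * (u / (256 * K ^ 2)) := by field_simp; ring
      _ ≤ _ := by gcongr; norm_num

lemma abs_p1_le (hK : 0 < K) {u : ℝ} (hu : 0 ≤ u) (hx : x ∈ Icc (K / 4) (4 * K)) :
    |p1 K u x| ≤ u / (8 * K) := by
  obtain ⟨z1, z2⟩ := zk_mem hK hx
  have hz0 : 0 < zk K x := by linarith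
  rw [p1, abs_div, abs_neg, abs_of_nonneg hu, abs_of_pos (by positivity)]
  exact div_le_div_of_nonneg_left hu (by positivity) (by nlinarith)

lemma stat (hK : 0 < K) (ρ : ℝ) {u m : ℝ} (hm : 0 < m) (hx : x ∈ Icc (K / 4) (4 * K))
    (h : p1 K u x + m = 0) :
    conj (mainT K ρ m u) = w K ρ u x * e (p0 K u x + m * x) * cF / (√(p2 K u x) : ℝ) := by
  obtain ⟨z1, z2⟩ := zk_mem hK hx
  have hz0 : 0 < zk K x := by linarith
  have hx2 := zk_sq hK hx
  have hu : u = 16 * K * m * zk K x := by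
    rw [p1] at h
    field_simp at h
    linarith
  have hz : zz K m u = zk K x := by
    rw [zz, hu]; field_simp
  have hA : 0 < √(2 * K / m) := Real.sqrt_pos.2 (by positivity)
  have hA2 : √(2 * K / m) ^ 2 = 2 * K / m := Real.sq_sqrt (by positivity)
  have hs : √(p2 K u x) = 1 / (√(2 * K / m) * zk K x) := by
    rw [Real.sqrt_eq_iff_mul_self_eq (by rw [p2, hu]; positivity) (by positivity), ← sq, div_pow,
      mul_pow, hA2, p2, hu]
    field_simp
    norm_num
  have hg : -gm K ρ m u = u * ρ * zk K x ^ 3 / 8 + (p0 K u x + m * x) := by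
    rw [gm, hz, p0]
    nth_rewrite 4 [hx2]
    rw [hu]
    field_simp
    ring
  rw [mainT, am, map_mul, map_mul, Complex.conj_conj, Complex.conj_ofReal, conj_e, hg, e_add, hs,
    hz, w]
  have h1 : ((√(2 * K / m) : ℝ) : ℂ) ≠ 0 := by exact_mod_cast hA.ne'
  have h2 : ((zk K x : ℝ) : ℂ) ≠ 0 := by exact_mod_cast hz0.ne'
  push_cast
  field_simp

lemma nostat (hK : 0 < K) (ρ : ℝ) {u m : ℝ} (hm : 0 < m)
    (h : ∀ x ∈ Icc (K / 4) (4 * K), p1 K u x + m ≠ 0) : mainT K ρ m u = 0 := by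
  refine mainT_eq_zero ?_
  by_contra hc
  push Not at hc
  have hz0 : 0 < zz K m u := by linarith [hc.1]
  have hx : K * zz K m u ^ 2 ∈ Icc (K / 4) (4 * K) := by
    have h1 : (1 / 2) ^ 2 ≤ zz K m u ^ 2 := by gcongr; exact hc.1.le
    have h2 : zz K m u ^ 2 ≤ 2 ^ 2 := by gcongr; exact hc.2.le
    constructor <;> nlinarith
  refine h _ hx ?_
  have h3 : zk K (K * zz K m u ^ 2) = zz K m u := by
    rw [zk, mul_div_cancel_left₀ _ hK.ne', Real.sqrt_sq hz0.le]
  have hu : u = 16 * K * m * zz K m u := by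
    rw [zz]; field_simp
  rw [p1, h3]
  nth_rewrite 1 [hu]
  field_simp
  ring

end KernAux

open KernAux in
theorem f1 (hb : BpS) (_hc : CFS) : F1S := by
  obtain ⟨C, hC, hb⟩ := hb 2048 (by norm_num)
  refine ⟨8801 * C + 8, by positivity, fun K M ρ u hM hMK hρ0 hρ1 hu0 hu => ?_⟩
  have hM' : (1 : ℝ) ≤ M := by exact_mod_cast hM
  have hMK' : (M : ℝ) ≤ K := by exact_mod_cast hMK
  have hK1 : (1 : ℝ) ≤ K := hM'.trans hMK'
  have hK : (0 : ℝ) < K := by linarith
  have hL := one_le_log_add_two hK1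
  have hS0 : 0 ≤ ρ * K * M := by positivity
  have hS1 : (0 : ℝ) ≤ K / (1 + u) := by positivity
  rcases le_or_gt u 1 with h1 | h1
  · rw [Hp_eq_zero (by linarith), sub_zero]
    have h2 : (K : ℝ) / 2 ≤ K / (1 + u) := by gcongr; linarith
    calc ‖DD K ρ u‖ ≤ 4 * K := norm_DD_le K ρ u
      _ = 8 * 1 * (K / 2) := by ring
      _ ≤ _ := by gcongr <;> linarith [mul_pos (show (0 : ℝ) < 8801 by norm_num) hC]
  have hu1 : 0 < u := by linarith
  have hρu : ρ * u ≤ 8 * (ρ * K * M) := by nlinarith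
  have hρu0 : 0 ≤ ρ * u := by positivity
  have hZ : 72 * (K : ℝ) ≤ (K + 2) ^ 4 := by
    have a1 : 8 * (K : ℝ) ≤ (K + 2) ^ 2 := by nlinarith [sq_nonneg ((K : ℝ) - 2)]
    have a2 : (9 : ℝ) ≤ (K + 2) ^ 2 := by nlinarith
    calc 72 * (K : ℝ) = 9 * (8 * K) := by ring
      _ ≤ (K + 2) ^ 2 * (K + 2) ^ 2 := by gcongr
      _ = _ := by ring
  have hY : u / (8 * K) ≤ M := by rw [div_le_iff₀ (by positivity)]; linarith
  have hμ : 4 * (1 + ρ * u) / K ≤ 36 * K := by
    rw [div_le_iff₀ hK]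
    have a1 : ρ * u ≤ u := by nlinarith
    have a2 : (K : ℝ) * M ≤ K * K := by gcongr
    nlinarith
  classical
  have key := hb (K / 4) (4 * K) (u / (256 * K ^ 2)) (4 * (1 + ρ * u) / K) (u / (8 * K))
    ((K + 2) ^ 4) (w K ρ u) (w1 K ρ u) (p0 K u) (p1 K u) (p2 K u) (p3 K u)
    (Finset.Icc (1 : ℤ) (4 * K : ℕ)) (Finset.Icc (1 : ℤ) M)
    (fun m => if m ∈ Finset.Icc (1 : ℤ) M then conj (mainT K ρ m u) else 0)
    (by linarith) (by positivity) (fun x hx => hasDerivAt_w hK ρ u hx)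
    (fun x hx => norm_w1_le hK hρ0 hu0 hx)
    (fun x hx => by rw [w, Om0_eq_zero (zk_out hK hx)]; simp) (ph3 hK hu0)
    (fun x hx => abs_p1_le hK hu0 hx)
    (by
      have : ((4 : ℝ) * K - K / 4) * (u / (256 * K ^ 2)) = 15 / 128 * (u / (8 * K)) := by
        field_simp; norm_num
      have h0 : 0 ≤ u / (8 * K) := by positivity
      linarith)
    (by linarith) (by linarith) (by linarith) (by linarith)
    (fun n h1 h2 => by
      rw [Finset.mem_Icc]
      have a1 : (0 : ℝ) < n := by linarith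
      have a2 : (n : ℝ) < ((4 * K : ℕ) : ℤ) := by push_cast; linarith
      have a3 : 0 < n := by exact_mod_cast a1
      have a4 : n < ((4 * K : ℕ) : ℤ) := by exact_mod_cast a2
      omega)
    (fun m x hx h => by
      obtain ⟨z1, z2⟩ := zk_mem hK hx
      have a1 : p1 K u x < 0 := by
        rw [p1]; exact div_neg_of_neg_of_pos (by linarith) (by nlinarith)
      have a2 := (abs_le.1 (abs_p1_le hK hu0 hx)).1
      have a3 : (0 : ℝ) < m := by linarith
      have a4 : (m : ℝ) ≤ ((M : ℤ) : ℝ) := by push_cast; linarith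
      have a5 : 0 < m := by exact_mod_cast a3
      have a6 : m ≤ (M : ℤ) := by exact_mod_cast a4
      rw [if_pos (Finset.mem_Icc.2 ⟨by omega, a6⟩)]
      exact stat hK ρ a3 hx h)
    (fun m h => by
      split_ifs with hm
      · have a1 : (1 : ℝ) ≤ m := by exact_mod_cast (Finset.mem_Icc.1 hm).1
        rw [nostat hK ρ (by linarith) h, map_zero]
      · rfl)
    (fun m hm => if_neg hm)
  have e1 : ∑ n ∈ Finset.Icc (1 : ℤ) (4 * K : ℕ), w K ρ u n * e (p0 K u n) =
      conj (DD K ρ u) := by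
    have := sum_Icc_natCast (fun n : ℤ => w K ρ u n * e (p0 K u n)) 1 (4 * K)
    rw [Nat.cast_one] at this
    rw [← this, DD, Dk, map_sum]
    refine Finset.sum_congr rfl fun k _ => ?_
    rw [map_mul, Complex.conj_ofReal, conj_e, w, mul_assoc, ← e_add, ok, yk, p0, Int.cast_natCast]
    congr 2
    ring
  have e2 : ∑ m ∈ Finset.Icc (1 : ℤ) M,
      (if m ∈ Finset.Icc (1 : ℤ) M then conj (mainT K ρ m u) else 0) = conj (Hp K M ρ u) := by
    have := sum_Icc_natCast (fun m : ℤ => conj (mainT K ρ m u)) 1 M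
    rw [Nat.cast_one] at this
    rw [Finset.sum_congr rfl fun m hm => if_pos hm, ← this, Hp, map_sum]
    simp only [Int.cast_natCast]
  rw [e1, e2, ← map_sub, Complex.norm_conj, Real.log_pow] at key
  refine key.trans ?_
  set S := (K : ℝ) / (1 + u) + 1 + ρ * K * M with hS
  have b1 : (u / (8 * K) + 1) * (4 * (1 + ρ * u) / K) / (u / (256 * K ^ 2)) +
      (4 * K - K / 4) * (4 * (1 + ρ * u) / K) =
      143 * (1 + ρ * u) + 1024 * (K / u) + 1024 * (ρ * K) := by
    field_simp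
    ring
  have b2 : (K : ℝ) / u ≤ 2 * (K / (1 + u)) := by
    rw [← mul_div_assoc, div_le_div_iff₀ hu1 (by linarith)]
    nlinarith
  have b3 : ρ * K ≤ ρ * K * M := le_mul_of_one_le_right (by positivity) hM'
  have b4 : 143 * (1 + ρ * u) + 1024 * (K / u) + 1024 * (ρ * K) ≤ 2200 * S := by linarith
  have b5 : 1 / ((K : ℝ) + 2) ^ 4 ≤ 1 := by
    rw [div_le_one (by positivity)]; linarith
  have hS2 : 1 ≤ S := by linarith
  have b6 : 1 ≤ Real.log (K + 2) * S := one_le_mul_of_one_le_of_one_le hL hS2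
  rw [b1]
  calc _ ≤ C * (2200 * S * (((4 : ℕ) : ℝ) * Real.log (K + 2)) + Real.log (K + 2) * S) := by
        gcongr
        linarith
    _ = 8801 * C * Real.log (K + 2) * S := by push_cast; ring
    _ ≤ _ := by gcongr; linarith

end Pool.Agent.Lib.MP_80d0cf_nt.Up
end
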