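import Pool.Agent.Lib.MP_80d0cf_nt.Up.Lev
import Pool.Agent.Lib.MP_80d0cf_nt.Six.Zeta

-- part Pool.Agent.Lib.MP_80d0cf_nt.Up.ZetA
section

/-! Smooth dyadic decomposition of zeta on the critical line. -/

open Set MeasureTheory

namespace Pool.Agent.Lib.MP_80d0cf_nt.Up

namespace ZetAAux

open Six

/-- summation by parts against a decreasing weight -/
lemma abel {f : ℕ → ℝ} {a : ℕ → ℂ} {z : ℂ} {E : ℝ} {Y M : ℕ} (hf : Antitone f)
    (h1 : ∀ n ≤ Y, f n = 1) (hYM : Y ≤ M)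
    (hE : ∀ N, Y ≤ N → N < M → ‖z - ∑ n ∈ Finset.Ioc 0 N, a n‖ ≤ E) :
    ‖((1 - f M : ℝ) : ℂ) * z - (∑ n ∈ Finset.Ioc 0 M, (f n : ℂ) * a n -
      f M * ∑ n ∈ Finset.Ioc 0 M, a n)‖ ≤ (1 - f M) * E := by
  induction M, hYM using Nat.le_induction with
  | base =>
    have : ∑ n ∈ Finset.Ioc 0 Y, (f n : ℂ) * a n = ∑ n ∈ Finset.Ioc 0 Y, a n :=
      Finset.sum_congr rfl fun n hn => by rw [h1 n (Finset.mem_Ioc.1 hn).2]; simp
    rw [this, h1 Y le_rfl]
    simp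
  | succ M hM ih =>
    have a1 := ih fun N h2 h3 => hE N h2 (by omega)
    have a2 := hE M hM (by omega)
    have a3 : 0 ≤ f M - f (M + 1) := sub_nonneg.2 (hf (Nat.le_succ M))
    have a4 : ‖((f M - f (M + 1) : ℝ) : ℂ) * (z - ∑ n ∈ Finset.Ioc 0 M, a n)‖ ≤
        (f M - f (M + 1)) * E := by
      rw [norm_mul, Complex.norm_real, Real.norm_of_nonneg a3]
      exact mul_le_mul_of_nonneg_left a2 a3
    rw [Finset.sum_Ioc_succ_top (Nat.zero_le M), Finset.sum_Ioc_succ_top (Nat.zero_le M)]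
    refine le_trans (le_of_eq ?_) ((norm_add_le _ _).trans ((add_le_add a1 a4).trans
      (le_of_eq (by ring))))
    congr 1
    push_cast
    ring

lemma th_anti : Antitone th := fun _ _ h => monotone_st (by linarith)

lemma th_of_le {x : ℝ} (h : x ≤ 1) : th x = 1 := st_of_one_le (by linarith)

lemma th_of_ge {x : ℝ} (h : 2 ≤ x) : th x = 0 := st_of_nonpos (by linarith)

lemma smooth_approx {T t : ℝ} (hT : 1 ≤ T) (h1 : 12 * T ≤ t) (h2 : t ≤ 19 * T) {Y : ℕ}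
    (hY : T ^ 2 ≤ Y) (hY' : (Y : ℝ) ≤ 2 * T ^ 2) :
    ‖riemannZeta (sc t) - ∑ n ∈ Finset.Ioc 0 (2 * Y), (th (n / Y) : ℂ) * pw n (sc t)‖ ≤ 41 := by
  have hT2 : 1 ≤ T ^ 2 := one_le_pow₀ hT
  have hY0 : (0 : ℝ) < Y := by linarith
  have hY1 : 1 ≤ Y := by exact_mod_cast hY0
  have h := abel (f := fun n : ℕ => th (n / Y)) (a := fun n : ℕ => pw n (sc t))
    (z := riemannZeta (sc t)) (E := 41) (Y := Y) (M := 2 * Y)
    (fun n n' h => th_anti (by gcongr))
    (fun n hn => th_of_le (by rw [div_le_one hY0]; exact_mod_cast hn)) (by omega)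
    (fun N a1 a2 => by
      refine (zeta_approx (by omega) (by linarith)).trans ?_
      have b1 : (Y : ℝ) ≤ N := by exact_mod_cast a1
      have b2 : (N : ℝ) + 1 ≤ 2 * Y := by exact_mod_cast a2
      have b3 : √((N : ℝ) + 1) ≤ 2 * T := Real.sqrt_le_iff.2 ⟨by linarith, by linarith⟩
      have b4 : T ≤ √(N : ℝ) := Real.le_sqrt_of_sq_le (by linarith)
      have b5 : √((N : ℝ) + 1) / t ≤ 1 := by rw [div_le_one (by linarith)]; linarith
      have b6 : 2 * (1 + t) / √(N : ℝ) ≤ 40 := by rw [div_le_iff₀ (by linarith)]; linarith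
      linarith)
  have h0 : th (((2 * Y : ℕ) : ℝ) / Y) = 0 :=
    th_of_ge (by rw [le_div_iff₀ hY0]; push_cast; exact le_rfl)
  simpa only [h0, sub_zero, Complex.ofReal_one, one_mul, Complex.ofReal_zero, zero_mul] using h

lemma th_eq_sum {x : ℝ} (hx : 1 ≤ x) (J : ℕ) :
    th (x / 2 ^ J) = ∑ j ∈ Finset.range (J + 1), wN (x / 2 ^ j) := by
  induction J with
  | zero => simp [wN, th_of_ge (x := 2 * x) (by linarith)]
  | succ J ih =>
    rw [Finset.sum_range_succ, ← ih, wN, show 2 * (x / 2 ^ (J + 1)) = x / 2 ^ J by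
      rw [pow_succ]; field_simp]
    ring

lemma pw_sc {x : ℝ} (hx : 0 < x) (τ : ℝ) :
    pw x (sc (2 * Real.pi * τ)) = ((1 / √x : ℝ) : ℂ) * e (-(τ * Real.log x)) := by
  have h1 : 1 / √x = Real.exp (-(1 / 2 * Real.log x)) := by
    rw [Real.exp_neg, one_div, Real.sqrt_eq_rpow, Real.rpow_def_of_pos hx, mul_comm]
  rw [h1, Complex.ofReal_exp, pw, e, sc, ← Complex.exp_add]
  congr 1
  push_cast
  ring

lemma smooth_eq (J : ℕ) (τ : ℝ) :
    ∑ n ∈ Finset.Ioc (0 : ℕ) (2 * 2 ^ J),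
      (th (n / ((2 ^ J : ℕ) : ℝ)) : ℂ) * pw n (sc (2 * Real.pi * τ)) =
      ∑ j ∈ Finset.range (J + 1), DN (2 ^ j) τ := by
  have h1 : ∀ j ∈ Finset.range (J + 1), DN (2 ^ j) τ = ∑ n ∈ Finset.Ioc (0 : ℕ) (2 * 2 ^ J),
      ((wN (n / ((2 ^ j : ℕ) : ℝ)) / √n : ℝ) : ℂ) * e (-(τ * Real.log n)) := by
    intro j hj
    have hj' : 2 ^ j ≤ 2 ^ J :=
      Nat.pow_le_pow_right (by norm_num) (Nat.lt_succ_iff.1 (Finset.mem_range.1 hj))
    refine Finset.sum_subset (fun n hn => ?_) fun n hn hn' => ?_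
    · simp only [Finset.mem_Icc, Finset.mem_Ioc] at hn ⊢
      omega
    · have : 2 * 2 ^ j ≤ n := by
        simp only [Finset.mem_Icc, Finset.mem_Ioc] at hn hn'
        omega
      rw [wN_eq_zero (Or.inr (by
        rw [le_div_iff₀ (by positivity)]
        exact_mod_cast this))]
      simp
  rw [Finset.sum_congr rfl h1, Finset.sum_comm]
  refine Finset.sum_congr rfl fun n hn => ?_
  have hn1 : (1 : ℝ) ≤ n := by exact_mod_cast (Finset.mem_Ioc.1 hn).1
  rw [pw_sc (by linarith), Nat.cast_pow, Nat.cast_ofNat, th_eq_sum hn1, Complex.ofReal_sum,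
    Finset.sum_mul]
  refine Finset.sum_congr rfl fun j _ => ?_
  push_cast
  ring

lemma amp {N : ℝ} (hN : 0 < N) : Amp (N / 2) (2 * N) (2 / √N) (10 / (N * √N))
    (fun x => ((wN (x / N) / √x : ℝ) : ℂ))
    (fun x => ((wN1 (x / N) / (N * √x) - wN (x / N) / (2 * x * √x) : ℝ) : ℂ)) := by
  have hr : 0 < √N := Real.sqrt_pos.2 hN
  have key : ∀ x ∈ Icc (N / 2) (2 * N), 0 < x ∧ √N / 2 ≤ √x := fun x hx =>
    ⟨by linarith [hx.1], Real.le_sqrt_of_sq_le (by
      rw [div_pow, Real.sq_sqrt hN.le]; linarith [hx.1])⟩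
  refine ⟨fun x hx => ?_, fun x hx => ?_, fun x hx => ?_⟩
  · obtain ⟨h0, h1⟩ := key x hx
    have h2 : 0 < √x := Real.sqrt_pos.2 h0
    have h3 := (((hasDerivAt_wN (x / N)).comp x ((hasDerivAt_id x).div_const N)).div
      (Real.hasDerivAt_sqrt h0.ne') h2.ne').ofReal_comp
    refine h3.congr_deriv ?_
    congr 1
    have h4 := Real.mul_self_sqrt h0.le
    simp only [Function.comp, id]
    generalize √x = r at *
    rw [← h4]
    field_simp
  · obtain ⟨h0, h1⟩ := key x hx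
    rw [Complex.norm_real, Real.norm_eq_abs, abs_div, abs_of_nonneg (Real.sqrt_nonneg _)]
    calc _ ≤ 1 / (√N / 2) := by gcongr; exact abs_wN_le _
      _ = _ := by field_simp
  · obtain ⟨h0, h1⟩ := key x hx
    have h2 : 0 < √x := Real.sqrt_pos.2 h0
    rw [Complex.norm_real, Real.norm_eq_abs]
    refine (abs_sub _ _).trans ?_
    rw [abs_div, abs_div, abs_of_pos (by positivity : 0 < N * √x),
      abs_of_pos (by positivity : 0 < 2 * x * √x)]
    calc _ ≤ 4 / (N * (√N / 2)) + 1 / (2 * (N / 2) * (√N / 2)) := by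
          gcongr
          · exact abs_wN1_le _
          · exact abs_wN_le _
          · exact hx.1
      _ = _ := by field_simp; ring

lemma ph {a b : ℝ} (ha : 0 < a) (τ : ℝ) :
    Ph a b (fun x => -(τ * Real.log x)) (fun x => -(τ / x)) (fun x => τ / x ^ 2) := by
  refine ⟨fun x hx => ?_, fun x hx => ?_⟩
  · have h0 : x ≠ 0 := (ha.trans_le hx.1).ne'
    exact ((Real.hasDerivAt_log h0).const_mul τ).neg.congr_deriv (by rw [div_eq_mul_inv])
  · have h0 : x ≠ 0 := (ha.trans_le hx.1).ne'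
    exact (((hasDerivAt_const x τ).div (hasDerivAt_id x) h0).neg).congr_deriv (by simp; ring)

lemma DN_le (hp : PsS) (hf : Fd1S) : ∃ C : ℝ, 0 < C ∧ ∀ (T τ : ℝ) (N : ℕ), 1 ≤ T →
    τ ∈ Icc (2 * T) (3 * T) → 16 * T ≤ N → (N : ℝ) ≤ 2 * T ^ 2 → ‖DN N τ‖ ≤ C := by
  obtain ⟨C, hC, hp⟩ := hp
  refine ⟨49 * C + 46, by linarith, fun T τ N hT hτ h1 h2 => ?_⟩
  have hN : (16 : ℝ) ≤ N := by linarith
  have hN0 : (0 : ℝ) < N := by linarith
  have hr : 4 ≤ √(N : ℝ) := Real.le_sqrt_of_sq_le (by linarith)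
  have hr2 : √(N : ℝ) ≤ 2 * T := Real.sqrt_le_iff.2 ⟨by linarith, by nlinarith⟩
  have hτ0 : 0 < τ := by linarith [hτ.1]
  have hA := amp hN0
  have hP := ph (a := N / 2) (b := 2 * N) (by linarith) τ
  have a1 := hp _ _ _ _ (3 / 8) (12 * T / N ^ 2) (2 * N) _ _ _ _ _ 0
    (Finset.Icc ((1 : ℕ) : ℤ) ((2 * N : ℕ) : ℤ)) (by linarith) hA
    (fun x hx => by
      rw [wN_eq_zero (hx.imp (fun h => by rw [div_le_iff₀ hN0]; linarith)
        fun h => by rw [le_div_iff₀ hN0]; linarith)]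
      simp) hP
    (fun x hx => by
      have h0 : 0 < x := by linarith [hx.1]
      rw [abs_neg, abs_of_pos (by positivity), div_le_iff₀ h0]
      linarith [hx.1, hτ.2])
    (fun x hx => by
      have h0 : 0 < x := by linarith [hx.1]
      rw [abs_of_pos (by positivity)]
      calc τ / x ^ 2 ≤ 3 * T / (N / 2) ^ 2 := by gcongr; exacts [hτ.2, hx.1]
        _ = _ := by field_simp; ring)
    (by norm_num) (by linarith) (by linarith)
    (by rw [div_le_iff₀ (by linarith)]; nlinarith)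
    (by rw [div_le_iff₀ (by positivity)]; nlinarith [mul_le_mul hN hr (by norm_num) hN0.le])
    (by push_cast; linarith)
    (fun n a b => by
      have b1 : (0 : ℝ) < n := by linarith
      have b2 : 0 < n := by exact_mod_cast b1
      have b3 : n ≤ ((2 * N : ℕ) : ℤ) := by exact_mod_cast b.le
      exact Finset.mem_Icc.2 ⟨by omega, b3⟩)
  have a2 := hf _ _ _ _ (T / N) _ _ _ _ _ (by linarith) hA hP (by positivity)
    (fun x hx => by
      have h0 : 0 < x := by linarith [hx.1]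
      rw [abs_neg, abs_of_pos (by positivity)]
      calc T / N = 2 * T / (2 * N) := by field_simp
        _ ≤ τ / x := by gcongr; exacts [hτ.1, hx.2])
    (Or.inl fun x _ => by positivity)
  rw [← sum_Icc_natCast (fun n : ℤ => ((wN (n / N) / √n : ℝ) : ℂ) * e (-(τ * Real.log n)))] at a1
  simp only [Int.cast_natCast, Nat.cast_zero, neg_zero, Finset.Icc_self, Finset.sum_singleton,
    Int.cast_zero, zero_mul, add_zero, zero_add, div_one] at a1
  have a3 : (4 * (2 / √(N : ℝ)) + (2 * N - N / 2) * (10 / (N * √(N : ℝ)))) / (T / N) ≤ 46 := by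
    have h4 := Real.mul_self_sqrt hN0.le
    have : (4 * (2 / √(N : ℝ)) + (2 * N - N / 2) * (10 / (N * √(N : ℝ)))) / (T / N) =
        23 * √(N : ℝ) / T := by
      generalize √(N : ℝ) = r at *
      rw [← h4]
      field_simp
      ring
    rw [this, div_le_iff₀ (by linarith)]
    linarith
  have a4 : (2 * N - N / 2) * (10 / (N * √(N : ℝ))) * Real.log (2 * N) ≤ 45 := by
    have b1 : Real.log (2 * N) ≤ 3 * √(N : ℝ) := by
      have c1 : Real.log (2 * N) = Real.log 2 + 2 * Real.log √(N : ℝ) := by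
        rw [Real.log_mul two_ne_zero hN0.ne', Real.log_sqrt hN0.le]; ring
      have c2 := Real.log_le_sub_one_of_pos (x := √(N : ℝ)) (by linarith)
      linarith [Real.log_two_lt_d9]
    calc _ ≤ (2 * N - N / 2) * (10 / (N * √(N : ℝ))) * (3 * √(N : ℝ)) := by
          have : (0 : ℝ) ≤ 2 * N - N / 2 := by linarith
          gcongr
      _ = _ := by field_simp; ring
  have a5 : (2 * N - N / 2) * (2 / √(N : ℝ)) * (12 * T / N ^ 2) ≤ 3 := by
    have : (2 * N - N / 2) * (2 / √(N : ℝ)) * (12 * T / N ^ 2) = 36 * T / (N * √(N : ℝ)) := by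
      field_simp; ring
    rw [this, div_le_iff₀ (by positivity)]
    nlinarith
  have a6 : 1 / (2 * N : ℝ) ≤ 1 := by rw [div_le_one (by linarith)]; linarith
  have a7 := a1.trans (mul_le_mul_of_nonneg_left (by linarith : _ ≤ (49 : ℝ)) hC.le)
  have a8 := norm_le_insert' (DN N τ) (∫ x in (N / 2 : ℝ)..(2 * N),
    ((wN (x / N) / √x : ℝ) : ℂ) * e (-(τ * Real.log x)))
  unfold DN at a8 ⊢
  linarith

end ZetAAux

open ZetAAux in
theorem z1 (hp : PsS) (hf : Fd1S) : Z1S := by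
  obtain ⟨C, hC, hD⟩ := DN_le hp hf
  refine ⟨41 + 5 * C, by linarith, fun T τ hT hτ => ?_⟩
  obtain ⟨n, hn, hn'⟩ := exists_nat_pow_near (x := T ^ 2) (y := 2) (one_le_pow₀ hT) one_lt_two
  have hL := one_le_log_add_two hT
  have hπ := Real.pi_gt_three
  have hπ' := Real.pi_lt_d2
  have h1 := smooth_approx (T := T) (t := 2 * Real.pi * τ) hT (by nlinarith [hτ.1])
    (by nlinarith [hτ.2]) (Y := 2 ^ (n + 1)) (by push_cast; exact hn'.le)
    (by push_cast; rw [pow_succ]; linarith)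
  rw [smooth_eq] at h1
  have h2 : ∑ j ∈ Finset.range (n + 1 + 1), ‖DN (2 ^ j) τ‖ ≤ ((n + 1 + 1 : ℕ) : ℝ) * C +
      ∑ j ∈ Finset.range (Nat.log 2 ⌊16 * T⌋₊ + 1), ‖DN (2 ^ j) τ‖ := by
    rw [← Finset.sum_filter_add_sum_filter_not _ fun j => Nat.log 2 ⌊16 * T⌋₊ < j]
    refine add_le_add ?_ (Finset.sum_le_sum_of_subset_of_nonneg (fun j hj => ?_)
      fun _ _ _ => norm_nonneg _)
    · refine (Finset.sum_le_card_nsmul _ _ C fun j hj => ?_).trans ?_
      · rw [Finset.mem_filter, Finset.mem_range] at hj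
        have b1 : ⌊16 * T⌋₊ + 1 ≤ 2 ^ j := Nat.lt_pow_of_log_lt one_lt_two hj.2
        have b2 : ((⌊16 * T⌋₊ + 1 : ℕ) : ℝ) ≤ ((2 ^ j : ℕ) : ℝ) := by exact_mod_cast b1
        have b3 := Nat.lt_floor_add_one (16 * T)
        have b4 : (2 : ℝ) ^ j ≤ 2 ^ (n + 1) := pow_le_pow_right₀ one_le_two (by omega)
        refine hD T τ _ hT hτ (by push_cast at b2 ⊢; linarith) ?_
        push_cast
        rw [pow_succ] at b4
        linarith
      · rw [nsmul_eq_mul]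
        gcongr
        exact (Finset.card_filter_le _ _).trans (Finset.card_range _).le
    · rw [Finset.mem_filter] at hj
      rw [Finset.mem_range]
      omega
  have h3 : (n : ℝ) ≤ 3 * Real.log (T + 2) := by
    have b1 := Real.log_le_log (by positivity) hn
    rw [Real.log_pow, Real.log_pow] at b1
    have b2 := Real.log_le_log (by linarith) (by linarith : T ≤ T + 2)
    have b3 : (0 : ℝ) ≤ n := Nat.cast_nonneg n
    push_cast at b1
    nlinarith [Real.log_two_gt_d9]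
  have h4 : ((n + 1 + 1 : ℕ) : ℝ) * C ≤ 5 * Real.log (T + 2) * C := by
    gcongr
    push_cast
    linarith
  have h5 := norm_le_insert' (riemannZeta (Six.sc (2 * Real.pi * τ)))
    (∑ j ∈ Finset.range (n + 1 + 1), DN (2 ^ j) τ)
  have h6 := norm_sum_le (Finset.range (n + 1 + 1)) fun j => DN (2 ^ j) τ
  change ‖riemannZeta (Six.sc (2 * Real.pi * τ))‖ ≤ _
  linarith

end Pool.Agent.Lib.MP_80d0cf_nt.Up
end

-- part Pool.Agent.Lib.MP_80d0cf_nt.Up.XJb
section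

/-! The four-fold product of dual terms with the same `m`. -/

open Set MeasureTheory ComplexConjugate

namespace Pool.Agent.Lib.MP_80d0cf_nt.Up

namespace XJbAux

lemma amp_mul {a b S μ S' μ' : ℝ} {ω ω1 η η1 : ℝ → ℂ} (h : Amp a b S μ ω ω1)
    (h' : Amp a b S' μ' η η1) :
    Amp a b (S * S') (μ * S' + S * μ') (fun x => ω x * η x)
      (fun x => ω1 x * η x + ω x * η1 x) := by
  refine ⟨fun x hx => (h.der x hx).fun_mul (h'.der x hx), fun x hx => ?_, fun x hx => ?_⟩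
  · rw [norm_mul]
    exact mul_le_mul (h.b0 x hx) (h'.b0 x hx) (norm_nonneg _) ((norm_nonneg _).trans (h.b0 x hx))
  · refine (norm_add_le _ _).trans (add_le_add ?_ ?_) <;> rw [norm_mul]
    · exact mul_le_mul (h.b1 x hx) (h'.b0 x hx) (norm_nonneg _)
        ((norm_nonneg _).trans (h.b1 x hx))
    · exact mul_le_mul (h.b0 x hx) (h'.b1 x hx) (norm_nonneg _)
        ((norm_nonneg _).trans (h.b0 x hx))

lemma amp_conj {a b S μ : ℝ} {ω ω1 : ℝ → ℂ} (h : Amp a b S μ ω ω1) :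
    Amp a b S μ (fun x => conj (ω x)) (fun x => conj (ω1 x)) :=
  ⟨fun x hx => (h.der x hx).star, fun x hx => by rw [Complex.norm_conj]; exact h.b0 x hx,
    fun x hx => by rw [Complex.norm_conj]; exact h.b1 x hx⟩

lemma amp_am (hc : CFS) {K m : ℝ} (hK : 0 < K) (hm : 0 < m) (a b u : ℝ) :
    Amp a b (30 * √(K / m)) (9 * √(K / m) / (K * m)) (fun x => am K m (x - u))
      (fun x => am1 K m (x - u)) :=
  ⟨fun x _ => by simpa using (hasDerivAt_am K m (x - u)).comp_sub_const x u,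
    fun x _ => norm_am_le hc _ _ _, fun x _ => norm_am1_le hc hK hm _⟩

lemma alg3 {s t s' t' : ℝ} (h1 : s ∈ Icc (1 / 2 : ℝ) 2) (h2 : t ∈ Icc (1 / 2 : ℝ) 2)
    (h3 : s' ∈ Icc (1 / 2 : ℝ) 2) (h4 : t' ∈ Icc (1 / 2 : ℝ) 2) :
    |s ^ 3 - t ^ 3 + (s' ^ 3 - t' ^ 3)| ≤
      6 * |s ^ 2 - t ^ 2 + (s' ^ 2 - t' ^ 2)| + 16 * |s - t + (s' - t')| := by
  obtain ⟨a1, a2⟩ := h1
  obtain ⟨b1, b2⟩ := h2
  obtain ⟨c1, c2⟩ := h3
  obtain ⟨d1, d2⟩ := h4
  have e : s ^ 3 - t ^ 3 + (s' ^ 3 - t' ^ 3) =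
      (3 * (s + s') / 2) * (s ^ 2 - t ^ 2 + (s' ^ 2 - t' ^ 2)) +
      ((-2 * (s + s') ^ 2 - 2 * ((s + s') * (t + t')) + (t + t') ^ 2 + 3 * (t - t') ^ 2) / 4) *
        (s - t + (s' - t')) := by ring
  have p1 : (s + s') ^ 2 ≤ 16 := by nlinarith
  have p2 : (s + s') * (t + t') ≤ 16 := by nlinarith
  have p3 : 0 ≤ (s + s') * (t + t') := by positivity
  have p4 : (t + t') ^ 2 ≤ 16 := by nlinarith
  have p5 : (t - t') ^ 2 ≤ 9 / 4 := by nlinarith
  have q1 : |3 * (s + s') / 2| ≤ 6 := by rw [abs_le]; constructor <;> linarith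
  have q2 : |(-2 * (s + s') ^ 2 - 2 * ((s + s') * (t + t')) + (t + t') ^ 2 + 3 * (t - t') ^ 2) / 4|
      ≤ 16 := by
    rw [abs_le]
    constructor <;> nlinarith [sq_nonneg (s + s'), sq_nonneg (t + t'), sq_nonneg (t - t')]
  rw [e]
  refine (abs_add_le _ _).trans ?_
  rw [abs_mul, abs_mul]
  gcongr

lemma wt_ge {P1 P : ℝ} (hP1 : 1 ≤ P1) (hP : 0 ≤ P) : 1 / (1 + P) ≤ wt P1 P := by
  refine le_min ?_ ?_
  · refine one_div_le_one_div_of_le (by positivity) ?_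
    rw [Real.sqrt_le_left (by positivity)]
    nlinarith
  · gcongr
    exact Real.one_le_sqrt.2 hP1

lemma wt_ge' {P1 P : ℝ} (hP1 : P ≤ P1) (hP : 1 ≤ P) : 1 / √P ≤ 2 * wt P1 P := by
  have h0 : 0 < √P := Real.sqrt_pos.2 (by linarith)
  have h1 := Real.mul_self_sqrt (show 0 ≤ P by linarith)
  unfold wt
  rw [mul_min_of_nonneg _ _ (by norm_num : (0 : ℝ) ≤ 2)]
  refine le_min ?_ ?_
  · have h2 : √(1 + P) ≤ 2 * √P := by
      rw [Real.sqrt_le_left (by positivity)]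
      nlinarith
    rw [mul_one_div, div_le_div_iff₀ h0 (by positivity)]
    linarith
  · have h2 : √P ≤ √P1 := Real.sqrt_le_sqrt hP1
    rw [← mul_div_assoc, div_le_div_iff₀ h0 (by positivity)]
    nlinarith

/-- sums with signs -/
noncomputable def sg (f : ℝ → ℝ) (u1 v1 u2 v2 x : ℝ) : ℝ :=
  f (x - u1) - f (x - v1) + (f (x - u2) - f (x - v2))

lemma sg_der {f f1 : ℝ → ℝ} (h : ∀ y, HasDerivAt f (f1 y) y) (u1 v1 u2 v2 x : ℝ) :
    HasDerivAt (sg f u1 v1 u2 v2) (sg f1 u1 v1 u2 v2 x) x :=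
  (((h _).comp_sub_const x u1).sub ((h _).comp_sub_const x v1)).add
    (((h _).comp_sub_const x u2).sub ((h _).comp_sub_const x v2))

/-- the oscillatory integral -/
lemma osc (hf : Fd2S) (hs : SdS) {K m ρ P1 u1 v1 u2 v2 a b S μ : ℝ} {ω ω1 : ℝ → ℂ} (hK : 0 < K)
    (hm : 0 < m) (hρ : 0 ≤ ρ) (hρ1 : ρ ≤ 1 / 10000) (hP1 : 1 ≤ P1) (hP : 12800 * ρ * K * m ≤ P1)
    (hab : a ≤ b) (hlen : b - a ≤ 24 * (K * m)) (hω : Amp a b S μ ω ω1) (hS : 0 ≤ S) (hμ0 : 0 ≤ μ)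
    (hμ : K * m * μ ≤ 2 * S)
    (hz : ∀ x ∈ Icc a b, zz K m (x - u1) ∈ Icc (1 / 2 : ℝ) 2 ∧ zz K m (x - v1) ∈ Icc (1 / 2 : ℝ) 2 ∧
      zz K m (x - u2) ∈ Icc (1 / 2 : ℝ) 2 ∧ zz K m (x - v2) ∈ Icc (1 / 2 : ℝ) 2)
    (hA : |u1 - v1 - (v2 - u2)| = 0 ∨ 1 ≤ |u1 - v1 - (v2 - u2)|) :
    ‖∫ x in a..b, ω x * e (sg (gm K ρ m) u1 v1 u2 v2 x)‖ ≤
      50000 * S * (K * m * wt P1 |u1 - v1 - (v2 - u2)|) := by
  set A := |u1 - v1 - (v2 - u2)| with hAdef
  set D := K * m with hD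
  have hD0 : 0 < D := by positivity
  have hph : Ph a b (sg (gm K ρ m) u1 v1 u2 v2) (sg (gm1 K ρ m) u1 v1 u2 v2)
      (sg (gm2 K ρ m) u1 v1 u2 v2) :=
    ⟨fun x _ => sg_der (hasDerivAt_gm hK hm ρ) _ _ _ _ _,
      fun x _ => sg_der (hasDerivAt_gm1 K ρ m) _ _ _ _ _⟩
  rcases hA with hA | hA
  · have h1 := intervalIntegral.norm_integral_le_of_norm_le_const (a := a) (b := b) (C := S)
      (f := fun x => ω x * e (sg (gm K ρ m) u1 v1 u2 v2 x)) fun x hx => by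
        rw [uIoc_of_le hab] at hx
        rw [norm_mul, norm_e, mul_one]
        exact hω.b0 x ⟨hx.1.le, hx.2⟩
    have h2 := wt_ge hP1 (P := A) (abs_nonneg _)
    rw [hA] at h2 ⊢
    rw [abs_of_nonneg (by linarith)] at h1
    have h3 : D ≤ D * wt P1 0 := le_mul_of_one_le_right hD0.le (by simpa using h2)
    have h4 : S * (b - a) ≤ S * (24 * (D * wt P1 0)) := by gcongr; linarith
    have h5 : 0 ≤ S * (D * wt P1 0) := mul_nonneg hS (hD0.le.trans h3)
    linarith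
  set Z1 : ℝ → ℝ := sg (zz K m) u1 v1 u2 v2 with hZ1
  set Z2 : ℝ → ℝ := sg (fun y => zz K m y ^ 2) u1 v1 u2 v2 with hZ2
  set Z3 : ℝ → ℝ := sg (fun y => zz K m y ^ 3) u1 v1 u2 v2 with hZ3
  set d := A / (16 * D) with hd
  have hd0 : 0 < d := by positivity
  have e1 : ∀ x, |Z1 x| = d := fun x => by
    have : Z1 x = -(u1 - v1 - (v2 - u2)) / (16 * D) := by
      simp only [hZ1, sg, zz, hD]; field_simp; ring
    rw [this, abs_div, abs_neg, abs_of_pos (show 0 < 16 * D by positivity)]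
  have e2 : ∀ x, sg (gm1 K ρ m) u1 v1 u2 v2 x = Z1 x / 8 - ρ * Z3 x / 2 := fun x => by
    simp only [hZ1, hZ3, sg, gm1]; ring
  have e3 : ∀ x, sg (gm2 K ρ m) u1 v1 u2 v2 x = -(3 / 2 * (ρ * Z2 x) / (16 * D)) := fun x => by
    simp only [hZ2, sg, gm2, hD]; field_simp; ring
  have e4 : ∀ x ∈ Icc a b, ∀ y ∈ Icc a b, |Z2 x - Z2 y| ≤ 3 * d := fun x hx y hy => by
    have : Z2 x - Z2 y = Z1 x * ((x - y) / (8 * D)) := by
      simp only [hZ1, hZ2, sg, zz, hD]; field_simp; ring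
    rw [this, abs_mul, e1, mul_comm]
    gcongr
    rw [abs_div, abs_of_pos (show 0 < 8 * D by positivity), div_le_iff₀ (by positivity), abs_le]
    constructor <;> linarith [hx.1, hx.2, hy.1, hy.2]
  have e5 : ∀ x ∈ Icc a b, |Z3 x| ≤ 6 * |Z2 x| + 16 * d := fun x hx => by
    obtain ⟨h1, h2, h3, h4⟩ := hz x hx
    rw [← e1 x]
    exact alg3 h1 h2 h3 h4
  have hlμ : (b - a) * μ ≤ 48 * S := by
    have := mul_le_mul_of_nonneg_right hlen hμ0
    nlinarith
  by_cases hcase : ∀ x ∈ Icc a b, ρ * |Z2 x| ≤ d / 100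
  · have h := hf a b S μ (d / 16) (d / (1000 * D)) ω ω1 _ _ _ hab hω hph (by positivity)
      (fun x hx => by
        rw [e2]
        have h1 := abs_sub_abs_le_abs_sub (Z1 x / 8) (ρ * Z3 x / 2)
        rw [abs_div, abs_div, abs_mul, e1, abs_of_nonneg hρ] at h1
        have h2 := mul_le_mul_of_nonneg_left (e5 x hx) hρ
        have h3 := hcase x hx
        have h4 := mul_le_mul_of_nonneg_right hρ1 hd0.le
        norm_num at h1
        nlinarith)
      (fun x hx => by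
        rw [e3, abs_neg, abs_div, abs_mul, abs_mul, abs_of_nonneg hρ,
          abs_of_pos (show 0 < 16 * D by positivity), div_le_div_iff₀ (by positivity)
            (by positivity)]
        have h3 := mul_le_mul_of_nonneg_right (hcase x hx) hD0.le
        have h4 : 0 < d * D := by positivity
        norm_num
        nlinarith)
    refine h.trans ?_
    have h1 : (b - a) * (S * (d / (1000 * D)) / (d / 16) ^ 2) ≤ 7 * S / d := by
      calc _ ≤ 24 * D * (S * (d / (1000 * D)) / (d / 16) ^ 2) := by gcongr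
        _ = 768 / 125 * S / d := by field_simp; ring
        _ ≤ _ := by gcongr; norm_num
    have h2 : (b - a) * (μ / (d / 16)) ≤ 768 * S / d := by
      calc _ = 16 * ((b - a) * μ) / d := by field_simp
        _ ≤ 16 * (48 * S) / d := by gcongr
        _ = _ := by ring
    have h3 : 2 * S / (d / 16) = 32 * S / d := by field_simp; ring
    have h4 : 1 / A ≤ 2 * wt P1 A := by
      have h5 := wt_ge hP1 (P := A) (abs_nonneg _)
      have h6 : 1 / A ≤ 2 * (1 / (1 + A)) := by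
        rw [mul_one_div, div_le_div_iff₀ (by positivity) (by positivity)]; linarith
      linarith
    have h5 : S / d ≤ 32 * (S * (D * wt P1 A)) := by
      calc S / d = 16 * (S * (D * (1 / A))) := by rw [hd]; field_simp
        _ ≤ 16 * (S * (D * (2 * wt P1 A))) := by gcongr
        _ = _ := by ring
    have h6 : 0 ≤ S / d := by positivity
    rw [mul_add, h3]
    simp only [mul_div_assoc] at h1 h2 ⊢
    nlinarith
  · push Not at hcase
    obtain ⟨y, hy, hy2⟩ := hcase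
    have h1 : ρ * (3 * d) ≤ d / 200 := by nlinarith
    have h2 : A ≤ P1 := by
      obtain ⟨⟨a1, a2⟩, ⟨b1, b2⟩, ⟨c1, c2⟩, ⟨d1, d2⟩⟩ := hz y hy
      have h3 : |Z2 y| ≤ 8 := by
        simp only [hZ2, sg]
        rw [abs_le]
        constructor <;> nlinarith
      have h4 := mul_le_mul_of_nonneg_left h3 hρ
      have h5 : d ≤ 800 * ρ := by linarith
      rw [hd, div_le_iff₀ (by positivity)] at h5
      have h6 : 12800 * ρ * K * m = 800 * ρ * (16 * D) := by rw [hD]; ring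
      linarith
    have h := hs a b S μ (d / (2500 * D)) ω ω1 _ _ _ hab hω hph (by positivity) (by
      have key : ∀ w : ℝ, d / 200 ≤ w → d / (2500 * D) ≤ 3 / 2 * w / (16 * D) := fun w hw => by
        rw [div_le_div_iff₀ (by positivity) (by positivity)]
        have := mul_le_mul_of_nonneg_right hw hD0.le
        have h4 : 0 < d * D := by positivity
        nlinarith
      rcases abs_cases (Z2 y) with h3 | h3
      · refine Or.inr fun x hx => ?_
        rw [e3, neg_le_neg_iff]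
        refine key _ ?_
        have h4 := mul_le_mul_of_nonneg_left (abs_le.1 (e4 x hx y hy)).1 hρ
        rw [h3.1] at hy2
        nlinarith
      · refine Or.inl fun x hx => ?_
        rw [e3, ← neg_div, ← mul_neg]
        refine key _ ?_
        have h4 := mul_le_mul_of_nonneg_left (abs_le.1 (e4 x hx y hy)).2 hρ
        rw [h3.1] at hy2
        nlinarith)
    refine h.trans ?_
    have h3 : √(d / (2500 * D)) = √A / (200 * D) := by
      rw [hd, show A / (16 * D) / (2500 * D) = A / (200 * D) ^ 2 by field_simp; norm_num,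
        Real.sqrt_div (abs_nonneg _), Real.sqrt_sq (by positivity)]
    have h4 := wt_ge' h2 hA
    have h5 : 0 < √A := Real.sqrt_pos.2 (by linarith)
    have h6 := wt_nonneg (P1 := P1) (P := A) (abs_nonneg _)
    rw [h3]
    calc _ ≤ 108 * S / (√A / (200 * D)) := by gcongr; linarith
      _ = 21600 * S * (D * (1 / √A)) := by field_simp; ring
      _ ≤ 21600 * S * (D * (2 * wt P1 A)) := by gcongr
      _ = 43200 * S * (D * wt P1 A) := by ring
      _ ≤ _ := by gcongr; norm_num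

end XJbAux

open XJbAux in
theorem jb2 (hp : PsS) (hf : Fd2S) (hs : SdS) (hc : CFS) : Jb2S := by
  obtain ⟨C, hC, hp⟩ := hp
  refine ⟨810000 * (50000 + 800 * C), by positivity, ?_⟩
  intro K M m ρ P1 u1 v1 u2 v2 s hMK hm hρ hρ1 hP1 hP hcov
  obtain ⟨hm1, hm2⟩ := Finset.mem_Icc.1 hm
  have hm' : (1 : ℝ) ≤ m := by exact_mod_cast hm1
  have hmM : (m : ℝ) ≤ M := by exact_mod_cast hm2
  have hmK : (m : ℝ) ≤ K := by exact_mod_cast hm2.trans hMK
  have hK : (1 : ℝ) ≤ K := hm'.trans hmK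
  have hK0 : (0 : ℝ) < K := by linarith
  have hm0 : (0 : ℝ) < m := by linarith
  have hL := one_le_log_add_two hK
  set L := Real.log ((K : ℝ) + 2) with hLdef
  set a : ℝ := max (max (u1 : ℝ) v1) (max (u2 : ℝ) v2) + 8 * (K * m) with ha
  set b : ℝ := min (min (u1 : ℝ) v1) (min (u2 : ℝ) v2) + 32 * (K * m) with hb
  let ω : ℝ → ℂ := fun x => am K m (x - u1) * conj (am K m (x - v1)) *
    (am K m (x - u2) * conj (am K m (x - v2)))
  have hD : (0 : ℝ) < 16 * K * m := by positivity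
  have lo : ∀ u x : ℝ, x ≤ u + 8 * (K * m) → am K m (x - u) = 0 := fun u x h =>
    am_eq_zero (Or.inl (by rw [zz, div_le_iff₀ hD]; linarith))
  have hi : ∀ u x : ℝ, u + 32 * (K * m) ≤ x → am K m (x - u) = 0 := fun u x h =>
    am_eq_zero (Or.inr (by rw [zz, le_div_iff₀ hD]; linarith))
  have hsupp : Supp a b ω := by
    intro x hx
    rcases hx with hx | hx
    · rw [ha, ← sub_le_iff_le_add, le_max_iff, le_max_iff, le_max_iff] at hx
      rcases hx with (hx | hx) | (hx | hx) <;> simp only [ω]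
      · rw [lo u1 x (by linarith)]; simp
      · rw [lo v1 x (by linarith)]; simp
      · rw [lo u2 x (by linarith)]; simp
      · rw [lo v2 x (by linarith)]; simp
    · rw [hb, ← le_sub_iff_add_le, min_le_iff, min_le_iff, min_le_iff] at hx
      rcases hx with (hx | hx) | (hx | hx) <;> simp only [ω]
      · rw [hi u1 x (by linarith)]; simp
      · rw [hi v1 x (by linarith)]; simp
      · rw [hi u2 x (by linarith)]; simp
      · rw [hi v2 x (by linarith)]; simp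
  have eq1 : ∀ x : ℝ, mainT K ρ m (x - u1) * conj (mainT K ρ m (x - v1)) *
      (mainT K ρ m (x - u2) * conj (mainT K ρ m (x - v2))) =
      ω x * e (sg (gm K ρ m) u1 v1 u2 v2 x) := fun x => by
    simp only [mainT, ω, sg, e_add, e_sub, map_mul]; ring
  simp only [eq1]
  have hw := wt_nonneg (P1 := P1) (P := |((u1 : ℝ) - v1) - ((v2 : ℝ) - u2)|) (abs_nonneg _)
  rcases lt_or_ge b a with hab | hab
  · rw [Finset.sum_eq_zero fun x _ => by
      rw [hsupp x (by rcases le_total (x : ℝ) a with h | h; exacts [Or.inl h, Or.inr (by linarith)]),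
        zero_mul], norm_zero]
    positivity
  have m1 := le_max_left (max (u1 : ℝ) v1) (max (u2 : ℝ) v2)
  have m2 := le_max_right (max (u1 : ℝ) v1) (max (u2 : ℝ) v2)
  have m3 := le_max_left (u1 : ℝ) v1
  have m4 := le_max_right (u1 : ℝ) v1
  have m5 := le_max_left (u2 : ℝ) v2
  have m6 := le_max_right (u2 : ℝ) v2
  have n1 := min_le_left (min (u1 : ℝ) v1) (min (u2 : ℝ) v2)
  have n2 := min_le_right (min (u1 : ℝ) v1) (min (u2 : ℝ) v2)
  have n3 := min_le_left (u1 : ℝ) v1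
  have n4 := min_le_right (u1 : ℝ) v1
  have n5 := min_le_left (u2 : ℝ) v2
  have n6 := min_le_right (u2 : ℝ) v2
  have hzz : ∀ u x : ℝ, u + 8 * (K * m) ≤ x → x ≤ u + 32 * (K * m) →
      zz K m (x - u) ∈ Icc (1 / 2 : ℝ) 2 := fun u x h1 h2 =>
    ⟨by rw [zz, le_div_iff₀ hD]; linarith, by rw [zz, div_le_iff₀ hD]; linarith⟩
  have hz : ∀ x ∈ Icc a b, zz K m (x - u1) ∈ Icc (1 / 2 : ℝ) 2 ∧
      zz K m (x - v1) ∈ Icc (1 / 2 : ℝ) 2 ∧ zz K m (x - u2) ∈ Icc (1 / 2 : ℝ) 2 ∧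
      zz K m (x - v2) ∈ Icc (1 / 2 : ℝ) 2 := fun x hx =>
    ⟨hzz _ _ (by linarith [hx.1]) (by linarith [hx.2]),
      hzz _ _ (by linarith [hx.1]) (by linarith [hx.2]),
      hzz _ _ (by linarith [hx.1]) (by linarith [hx.2]),
      hzz _ _ (by linarith [hx.1]) (by linarith [hx.2])⟩
  have hlen : b - a ≤ 24 * (K * m) := by linarith
  set S : ℝ := 810000 * ((K : ℝ) ^ 2 / (m : ℝ) ^ 2) with hSdef
  have hq : 1 ≤ (K : ℝ) ^ 2 / (m : ℝ) ^ 2 := by
    rw [le_div_iff₀ (by positivity), one_mul]; gcongr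
  have hq2 : (K : ℝ) ^ 2 / (m : ℝ) ^ 2 ≤ (K : ℝ) ^ 2 :=
    div_le_self (by positivity) (one_le_pow₀ hm')
  have hKm : (1 : ℝ) ≤ K * m := one_le_mul_of_one_le_of_one_le hK hm'
  obtain ⟨ω1, hω⟩ : ∃ ω1, Amp a b S (2 * S / (K * m)) ω ω1 := by
    have h := amp_mul (amp_mul (amp_am hc hK0 hm0 a b u1) (amp_conj (amp_am hc hK0 hm0 a b v1)))
      (amp_mul (amp_am hc hK0 hm0 a b u2) (amp_conj (amp_am hc hK0 hm0 a b v2)))
    have h1 : √((K : ℝ) / m) ^ 4 = (K : ℝ) ^ 2 / (m : ℝ) ^ 2 := by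
      rw [show 4 = 2 * 2 by rfl, pow_mul, Real.sq_sqrt (by positivity), div_pow]
    refine ⟨_, h.der, fun x hx => (h.b0 x hx).trans (le_of_eq ?_), fun x hx => (h.b1 x hx).trans ?_⟩
    · rw [hSdef, ← h1]; ring
    · rw [hSdef, ← h1]
      calc _ = 972000 * √((K : ℝ) / m) ^ 4 / (K * m) := by ring
        _ ≤ 1620000 * √((K : ℝ) / m) ^ 4 / (K * m) := by gcongr; norm_num
        _ = _ := by ring
  have hS1 : 1 ≤ S := by rw [hSdef]; linarith
  have hph : Ph a b (sg (gm K ρ m) u1 v1 u2 v2) (sg (gm1 K ρ m) u1 v1 u2 v2)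
      (sg (gm2 K ρ m) u1 v1 u2 v2) :=
    ⟨fun x _ => sg_der (hasDerivAt_gm hK0 hm0 ρ) _ _ _ _ _,
      fun x _ => sg_der (hasDerivAt_gm1 K ρ m) _ _ _ _ _⟩
  have hμ : 2 * S / (K * m) ≤ 2 * S := div_le_self (by linarith) hKm
  have hZ : (K : ℝ) ^ 2 ≤ ((K : ℝ) + 2) ^ 2 := by gcongr; linarith
  have hKm2 : (K : ℝ) * m ≤ (K : ℝ) ^ 2 := by rw [sq]; gcongr
  have h1 := hp a b S (2 * S / (K * m)) (1 / 2) (1 / (K * m)) (2000000 * ((K : ℝ) + 2) ^ 2) ω ω1
    _ _ _ 0 s hab hω hsupp hph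
    (fun x hx => by
      obtain ⟨⟨a1, a2⟩, ⟨b1, b2⟩, ⟨c1, c2⟩, ⟨d1, d2⟩⟩ := hz x hx
      have cube : ∀ z : ℝ, 1 / 2 ≤ z → z ≤ 2 → 0 ≤ ρ * z ^ 3 ∧ ρ * z ^ 3 ≤ 1 / 1000 :=
        fun z h1 h2 => ⟨by positivity, by
          have : z ^ 3 ≤ 2 ^ 3 := by gcongr
          have := mul_le_mul hρ1 this (by positivity) (by norm_num)
          linarith⟩
      have := cube _ a1 a2
      have := cube _ b1 b2
      have := cube _ c1 c2
      have := cube _ d1 d2
      simp only [sg, gm1]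
      rw [abs_le]
      constructor <;> linarith [this.1])
    (fun x hx => by
      obtain ⟨⟨a1, a2⟩, ⟨b1, b2⟩, ⟨c1, c2⟩, ⟨d1, d2⟩⟩ := hz x hx
      have sq : ∀ z : ℝ, 1 / 2 ≤ z → z ≤ 2 → 0 ≤ ρ * z ^ 2 ∧ ρ * z ^ 2 ≤ 1 :=
        fun z h1 h2 => ⟨by positivity, by
          have : z ^ 2 ≤ 2 ^ 2 := by gcongr
          have := mul_le_mul hρ1 this (by positivity) (by norm_num)
          linarith⟩
      obtain ⟨e1, e2⟩ := sq _ a1 a2
      obtain ⟨e3, e4⟩ := sq _ b1 b2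
      obtain ⟨e5, e6⟩ := sq _ c1 c2
      obtain ⟨e7, e8⟩ := sq _ d1 d2
      have : sg (gm2 K ρ m) u1 v1 u2 v2 x = (-(3 / 32) * (ρ * zz K m (x - u1) ^ 2 -
          ρ * zz K m (x - v1) ^ 2 + (ρ * zz K m (x - u2) ^ 2 - ρ * zz K m (x - v2) ^ 2))) /
          (K * m) := by
        simp only [sg, gm2]; field_simp; ring
      rw [this, abs_div, abs_of_pos (show (0 : ℝ) < K * m by positivity)]
      gcongr
      rw [abs_le]
      constructor <;> linarith)
    (by norm_num) (by nlinarith) (by linarith) (by rw [hSdef]; linarith)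
    (by rw [hSdef] at hμ ⊢; linarith) (by push_cast; nlinarith)
    (fun n n1 n2 => hcov n (by linarith) (by linarith))
  simp only [Nat.cast_zero, neg_zero, Finset.Icc_self, Finset.sum_singleton, Int.cast_zero,
    zero_mul, add_zero, zero_add, div_one] at h1
  have h2 := osc hf hs hK0 hm0 hρ hρ1 hP1 (le_trans (by gcongr) hP) hab hlen hω (by linarith)
    (by positivity) (le_of_eq (by field_simp)) hz (by
      rcases eq_or_ne (u1 - v1 - (v2 - u2)) 0 with h | h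
      · left
        have : (u1 : ℝ) - v1 - (v2 - u2) = 0 := by exact_mod_cast h
        rw [this, abs_zero]
      · right
        exact_mod_cast Int.one_le_abs h)
  have h3 : Real.log (2000000 * ((K : ℝ) + 2) ^ 2) ≤ 16 * L := by
    have h4 : (2000000 : ℝ) ≤ ((K : ℝ) + 2) ^ 14 :=
      le_trans (by norm_num) (pow_le_pow_left₀ (by norm_num) (show (3 : ℝ) ≤ K + 2 by linarith) 14)
    have h5 := Real.log_le_log (by positivity) (show 2000000 * ((K : ℝ) + 2) ^ 2 ≤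
      ((K : ℝ) + 2) ^ 16 by rw [show 16 = 14 + 2 by rfl, pow_add]; gcongr)
    rwa [Real.log_pow, Nat.cast_ofNat] at h5
  have h4 : (b - a) * (2 * S / (K * m)) ≤ 48 * S := by
    calc _ ≤ 24 * (K * m) * (2 * S / (K * m)) := by gcongr
      _ = _ := by field_simp; ring
  have h5 : (b - a) * S * (1 / (K * m)) ≤ 24 * S := by
    calc _ ≤ 24 * (K * m) * S * (1 / (K * m)) := by gcongr
      _ = _ := by field_simp
  have h6 : 1 / (2000000 * ((K : ℝ) + 2) ^ 2) ≤ S :=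
    le_trans ((div_le_one (by positivity)).2 (by nlinarith)) hS1
  have h7 : (b - a) * (2 * S / (K * m)) * Real.log (2000000 * ((K : ℝ) + 2) ^ 2) ≤
      48 * S * (16 * L) :=
    mul_le_mul h4 h3 (Real.log_nonneg (by nlinarith)) (by linarith)
  have h8 : S ≤ S * L := le_mul_of_one_le_right (by linarith) hL
  have h9 := h1.trans (mul_le_mul_of_nonneg_left (show _ ≤ 800 * (S * L) by linarith) hC.le)
  have h10 := norm_le_norm_add_norm_sub' (∑ n ∈ s, ω n * e (sg (gm K ρ m) u1 v1 u2 v2 n))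
    (∫ x in a..b, ω x * e (sg (gm K ρ m) u1 v1 u2 v2 x))
  have h11 : 0 ≤ S * (K * m * wt P1 |((u1 : ℝ) - v1) - ((v2 : ℝ) - u2)|) := by positivity
  have h12 := mul_nonneg hC.le h11
  have h13 : 0 ≤ S * L := by positivity
  calc _ ≤ 50000 * S * (K * m * wt P1 |((u1 : ℝ) - v1) - ((v2 : ℝ) - u2)|) +
        C * (800 * (S * L)) := by linarith
    _ ≤ (50000 + 800 * C) * (S * (K * m * wt P1 |((u1 : ℝ) - v1) - ((v2 : ℝ) - u2)|) + S * L) := by
        nlinarith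
    _ = _ := by rw [hSdef]; ring

end Pool.Agent.Lib.MP_80d0cf_nt.Up
end

-- part Pool.Agent.Lib.MP_80d0cf_nt.Up.XLv
section

/-! The explicit large value bound. -/

open Set MeasureTheory ComplexConjugate

namespace Pool.Agent.Lib.MP_80d0cf_nt.Up

namespace XLvAux

lemma sqrt_add_le {x y : ℝ} (hx : 0 ≤ x) (hy : 0 ≤ y) : √(x + y ^ 2) ≤ √x + y := by
  rw [Real.sqrt_le_left (by positivity)]
  nlinarith [Real.sq_sqrt hx, mul_nonneg (Real.sqrt_nonneg x) hy]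

lemma step1 {y L K M p l R n E T Q : ℝ} (hy : 1 ≤ y) (hL : 1 ≤ L) (hK : 0 < K) (hM : 0 < M)
    (hl : 0 < l) (hR : 0 < R) (hRn : R < n) (_hT : 0 ≤ T) (hQ : 131072 * y * L ^ 2 ≤ Q)
    (h1 : (n * l) ^ 2 ≤ 24 * y * L ^ 2 * K ^ 2 * n + 8 * y * L * (K * p ^ 2) * n ^ 2 + 8 * K * T)
    (h2 : T ^ 4 ≤ y * L ^ 2 * M ^ 3 * n ^ 3 * (K ^ 3 * p * E + K ^ 2 * n ^ 4))
    (a1 : Q * (K * p ^ 2) ≤ l ^ 2) (a2 : Q * K ^ 2 ≤ R * l ^ 2)
    (a3 : Q * (M ^ 3 * K ^ 6) ≤ R * l ^ 8) :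
    n ^ 5 * l ^ 8 ≤ 131072 * y * L ^ 2 * M ^ 3 * K ^ 7 * p * E := by
  have hn : 0 < n := hR.trans hRn
  have b0 : y * L ≤ y * L ^ 2 := by gcongr; exact le_self_pow₀ hL two_ne_zero
  have b00 : 0 < y * L ^ 2 := by positivity
  have b1 : 24 * y * L ^ 2 * K ^ 2 * n ≤ (n * l) ^ 2 / 4 := by
    calc _ = 24 * (y * L ^ 2) * K ^ 2 * n := by ring
      _ ≤ Q / 4 * K ^ 2 * n := by gcongr; linarith
      _ = Q * K ^ 2 * n / 4 := by ring
      _ ≤ R * l ^ 2 * n / 4 :=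
          div_le_div_of_nonneg_right (mul_le_mul_of_nonneg_right a2 hn.le) (by norm_num)
      _ ≤ n * l ^ 2 * n / 4 := by gcongr
      _ = _ := by ring
  have b2 : 8 * y * L * (K * p ^ 2) * n ^ 2 ≤ (n * l) ^ 2 / 4 := by
    calc _ = 8 * (y * L) * (K * p ^ 2) * n ^ 2 := by ring
      _ ≤ Q / 4 * (K * p ^ 2) * n ^ 2 := by gcongr; linarith
      _ = Q * (K * p ^ 2) * n ^ 2 / 4 := by ring
      _ ≤ l ^ 2 * n ^ 2 / 4 := by gcongr
      _ = _ := by ring
  have b3 : (n * l) ^ 2 ≤ 16 * K * T := by linarith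
  have b4 : n ^ 8 * l ^ 8 ≤ 65536 * K ^ 4 * (y * L ^ 2 * M ^ 3 * n ^ 3 *
      (K ^ 3 * p * E + K ^ 2 * n ^ 4)) := by
    calc _ = ((n * l) ^ 2) ^ 4 := by ring
      _ ≤ (16 * K * T) ^ 4 := by gcongr
      _ = 65536 * K ^ 4 * T ^ 4 := by ring
      _ ≤ _ := by gcongr
  have b5 : 131072 * y * L ^ 2 * (M ^ 3 * K ^ 6) * n ^ 7 ≤ n ^ 8 * l ^ 8 := by
    calc _ ≤ Q * (M ^ 3 * K ^ 6) * n ^ 7 := by gcongr
      _ ≤ R * l ^ 8 * n ^ 7 := mul_le_mul_of_nonneg_right a3 (by positivity)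
      _ ≤ n * l ^ 8 * n ^ 7 := by gcongr
      _ = _ := by ring
  refine le_of_mul_le_mul_right ?_ (show 0 < n ^ 3 by positivity)
  nlinarith

lemma step2 {G c E3 l n E : ℝ} (hG : 0 ≤ G) (hc : 0 ≤ c) (hE3 : 0 ≤ E3) (hl : 0 < l) (hn : 0 < n)
    (h1 : n ^ 5 * l ^ 8 ≤ G * E)
    (h2 : E ≤ 4 * c * (40 * c * n + 4 * n ^ 2 * E3) / l ^ 4 +
      √((40 * c * n + 4 * n ^ 2 * E3) * (4 * n ^ 4 * E3)) / l ^ 2)
    (a1 : 800 * G * c ^ 2 ≤ n ^ 4 * l ^ 12) (a2 : 80 * G * c * E3 ≤ n ^ 3 * l ^ 12)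
    (a3 : 4000 * G ^ 2 * c * E3 ≤ n ^ 5 * l ^ 20) (a4 : 20 * G * E3 ≤ n ^ 2 * l ^ 10) : False := by
  have b1 : √((40 * c * n + 4 * n ^ 2 * E3) * (4 * n ^ 4 * E3)) ≤
      √(160 * c * E3 * n ^ 5) + 4 * n ^ 3 * E3 := by
    rw [show (40 * c * n + 4 * n ^ 2 * E3) * (4 * n ^ 4 * E3) =
      160 * c * E3 * n ^ 5 + (4 * n ^ 3 * E3) ^ 2 by ring]
    exact sqrt_add_le (by positivity) (by positivity)
  have b2 : G * √(160 * c * E3 * n ^ 5) ≤ n ^ 5 * l ^ 10 / 5 := by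
    rw [← Real.sqrt_sq hG, ← Real.sqrt_mul (by positivity), Real.sqrt_le_left (by positivity)]
    calc _ = 4000 * G ^ 2 * c * E3 * n ^ 5 / 25 := by ring
      _ ≤ n ^ 5 * l ^ 20 * n ^ 5 / 25 := by gcongr
      _ = _ := by ring
  have b3 : G * (4 * n ^ 3 * E3) ≤ n ^ 5 * l ^ 10 / 5 := by
    calc _ = 20 * G * E3 * n ^ 3 / 5 := by ring
      _ ≤ n ^ 2 * l ^ 10 * n ^ 3 / 5 := by gcongr
      _ = _ := by ring
  have b4 : G * (4 * c * (40 * c * n + 4 * n ^ 2 * E3)) ≤ 2 * (n ^ 5 * l ^ 12) / 5 := by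
    calc _ = 800 * G * c ^ 2 * n / 5 + 80 * G * c * E3 * n ^ 2 / 5 := by ring
      _ ≤ n ^ 4 * l ^ 12 * n / 5 + n ^ 3 * l ^ 12 * n ^ 2 / 5 := by gcongr
      _ = _ := by ring
  have b5 : G * E ≤ 4 * (n ^ 5 * l ^ 8) / 5 := by
    calc _ ≤ G * (4 * c * (40 * c * n + 4 * n ^ 2 * E3) / l ^ 4 +
          (√(160 * c * E3 * n ^ 5) + 4 * n ^ 3 * E3) / l ^ 2) := by
          gcongr; exact h2.trans (by gcongr)
      _ = G * (4 * c * (40 * c * n + 4 * n ^ 2 * E3)) / l ^ 4 +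
          (G * √(160 * c * E3 * n ^ 5) + G * (4 * n ^ 3 * E3)) / l ^ 2 := by ring
      _ ≤ (2 * (n ^ 5 * l ^ 12) / 5) / l ^ 4 +
          (n ^ 5 * l ^ 10 / 5 + n ^ 5 * l ^ 10 / 5) / l ^ 2 := by gcongr
      _ = _ := by field_simp; ring
  have b6 : 0 < n ^ 5 * l ^ 8 := by positivity
  linarith

lemma near_card (W : Finset ℤ) :
    (((W ×ˢ W).filter fun q => |(q.1 : ℝ) - q.2| ≤ 2 * (1 : ℕ)).card : ℝ) ≤ 5 * W.card := by
  have h := Finset.card_le_card_of_injOn (s := (W ×ˢ W).filter fun q =>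
      |(q.1 : ℝ) - q.2| ≤ 2 * (1 : ℕ)) (t := W ×ˢ Finset.Icc (-2 : ℤ) 2)
    (fun q => (q.1, q.1 - q.2)) (fun q hq => by
      simp only [Finset.coe_filter, Finset.mem_product, mem_ofPred_eq] at hq
      have h1 : |q.1 - q.2| ≤ 2 := by
        have := hq.2
        norm_num at this
        exact_mod_cast this
      simp only [Finset.coe_product, mem_prod, Finset.mem_coe, Finset.mem_Icc]
      exact ⟨hq.1.1, abs_le.1 h1⟩)
    (fun q _ q' _ h => by
      simp only [Prod.mk.injEq] at h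
      exact Prod.ext h.1 (by omega))
  rw [Finset.card_product, Int.card_Icc] at h
  have h2 : (2 + 1 - -2 : ℤ).toNat = 5 := rfl
  rw [h2, mul_comm W.card 5] at h
  exact_mod_cast h

lemma ker {C : ℝ} {K M : ℕ} {ρ : ℝ}
    (hf : ∀ u : ℝ, 0 ≤ u → u ≤ 8 * K * M →
      ‖DD K ρ u - Hp K M ρ u‖ ≤ C * Real.log (K + 2) * (K / (1 + u) + 1 + ρ * K * M))
    {w : ℝ} (hw : |w| ≤ 8 * K * M) :
    ‖DD K ρ w - (Hp K M ρ w + conj (Hp K M ρ (-w)))‖ ≤
      C * Real.log (K + 2) * (K / (1 + |w|) + 1 + ρ * K * M) := by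
  have hK : (0 : ℝ) ≤ K := by positivity
  rcases abs_cases w with h | h
  · rw [Hp_eq_zero (u := -w) (by linarith [h.2]), map_zero, add_zero]
    rw [h.1] at hw ⊢
    exact hf w h.2 hw
  · rw [Hp_eq_zero (u := w) (by linarith [h.2]), zero_add]
    rw [h.1] at hw ⊢
    have := hf (-w) (by linarith [h.2]) hw
    rwa [← Complex.norm_conj, map_sub, ← DD_neg, neg_neg] at this

end XLvAux

open XLvAux in
theorem lv2 (hc : CFS) (hf : F1S) (hd : DualS) (hr : RowS) (he : EnergyS) (h4 : L4S) :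
    Lv2S := by
  obtain ⟨Cf, hCf, hf⟩ := hf
  obtain ⟨C4, hC4, h4⟩ := h4
  set y : ℝ := C4 + 2 * (2 * Cf + 60) ^ 2 with hy
  have y1 : C4 ≤ y := by rw [hy]; nlinarith
  have y2 : 2 * (2 * Cf + 60) ^ 2 ≤ y := by linarith
  have y3 : 2 * Cf ^ 2 ≤ y := by nlinarith
  have y4 : Cf ≤ y := by nlinarith
  have y5 : 1 ≤ y := by nlinarith
  refine ⟨10 ^ 9 * y ^ 3, by positivity, ?_⟩
  intro K M ρ p l R a W hM hMK hρ hρ1 hp hP hp4 hl hR ha hW hS a0 a1 a2 a3 a4 a5 a6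
  by_contra hn
  push Not at hn
  have hM' : (1 : ℝ) ≤ M := by exact_mod_cast hM
  have hK' : (1 : ℝ) ≤ K := by exact_mod_cast hM.trans hMK
  have hMK' : (M : ℝ) ≤ K := by exact_mod_cast hMK
  have hKM : (1 : ℝ) ≤ K * M := one_le_mul_of_one_le_of_one_le hK' hM'
  have hL := one_le_log_add_two hK'
  have hf' := fun u => hf K M ρ u hM hMK hρ (by linarith)
  have hker := fun w => ker (w := w) hf'
  have hlog : Real.log (K * M + 1) ≤ 2 * Real.log (K + 2) := by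
    have := Real.log_le_log (by positivity) (show (K : ℝ) * M + 1 ≤ (K + 2) ^ 2 by nlinarith)
    rwa [Real.log_pow, Nat.cast_ofNat] at this
  set L := Real.log ((K : ℝ) + 2) with hLdef
  set n : ℝ := (W.card : ℝ) with hndef
  have hn0 : 0 < n := hR.trans hn
  have hp2 : 1 ≤ p ^ 2 := one_le_pow₀ hp
  have hρp : ρ * K * M ≤ p ^ 2 := by
    have : 0 ≤ ρ * K * M := by positivity
    linarith
  have hU : ∀ u ∈ W, ∀ v ∈ W, |(u : ℝ) - v| ≤ K * M := fun u hu v hv => by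
    have h1 : (0 : ℝ) ≤ u := by exact_mod_cast (hW u hu).1
    have h2 : (u : ℝ) < K * M := by exact_mod_cast (hW u hu).2
    have h3 : (0 : ℝ) ≤ v := by exact_mod_cast (hW v hv).1
    have h4 : (v : ℝ) < K * M := by exact_mod_cast (hW v hv).2
    exact abs_le.2 ⟨by linarith, by linarith⟩
  obtain ⟨θ, hθ, hdual⟩ := hd (Finset.Ico K (2 * K)) (Finset.Icc 1 (4 * K)) (ok K) (yk K ρ) a W l
    (Ico_subset_Icc K) (fun k _ => ok_nonneg K k) (norm_le_ok ha) hl.le hS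
  have hT := h4 K M ρ p W θ hM hMK hρ hρ1 hp hP hW fun u => (hθ u).le
  set T := ∑ u ∈ W, ∑ v ∈ W, θ u * conj (θ v) * Hp K M ρ ((u : ℝ) - v) with hTdef
  have e1 : ∑ u ∈ W, ∑ v ∈ W, θ u * conj (θ v) * DD K ρ ((u : ℝ) - v) =
      ∑ u ∈ W, ∑ v ∈ W, θ u * conj (θ v) * (DD K ρ ((u : ℝ) - v) -
        (Hp K M ρ ((u : ℝ) - v) + conj (Hp K M ρ (-((u : ℝ) - v))))) + (T + conj T) := by
    have : conj T = ∑ u ∈ W, ∑ v ∈ W, θ u * conj (θ v) * conj (Hp K M ρ (-((u : ℝ) - v))) := by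
      rw [hTdef, Finset.sum_comm]
      simp only [map_sum, map_mul, Complex.conj_conj, neg_sub]
      exact Finset.sum_congr rfl fun u _ => Finset.sum_congr rfl fun v _ => by ring
    rw [this, hTdef]
    simp only [← Finset.sum_add_distrib]
    exact Finset.sum_congr rfl fun u _ => Finset.sum_congr rfl fun v _ => by ring
  have e2 : ‖∑ u ∈ W, ∑ v ∈ W, θ u * conj (θ v) * (DD K ρ ((u : ℝ) - v) -
        (Hp K M ρ ((u : ℝ) - v) + conj (Hp K M ρ (-((u : ℝ) - v)))))‖ ≤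
      n * (y * L * (K * (6 * L) + n * (2 * p ^ 2))) := by
    refine (norm_sum_le _ _).trans ((Finset.sum_le_card_nsmul _ _ _ fun u hu => ?_).trans
      (le_of_eq (nsmul_eq_mul _ _)))
    have h1 := hr W u (K * M) (by positivity) (hU u hu)
    calc _ ≤ ∑ v ∈ W, y * L * (K * (1 / (1 + |(u : ℝ) - v|)) + 2 * p ^ 2) := by
          refine (norm_sum_le _ _).trans (Finset.sum_le_sum fun v hv => ?_)
          rw [norm_mul, norm_mul, Complex.norm_conj, hθ, hθ, one_mul, one_mul]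
          refine (hker _ (by linarith [hU u hu v hv])).trans ?_
          rw [mul_one_div, add_assoc]
          gcongr
          linarith
      _ = y * L * (K * ∑ v ∈ W, 1 / (1 + |(u : ℝ) - v|) + n * (2 * p ^ 2)) := by
          rw [← Finset.mul_sum, Finset.sum_add_distrib, ← Finset.mul_sum, Finset.sum_const,
            nsmul_eq_mul]
      _ ≤ _ := by gcongr; linarith
  have h1 : (n * l) ^ 2 ≤
      24 * y * L ^ 2 * (K : ℝ) ^ 2 * n + 8 * y * L * (K * p ^ 2) * n ^ 2 + 8 * K * ‖T‖ := by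
    have e3 : (∑ u ∈ W, ∑ v ∈ W, θ u * conj (θ v) * DD K ρ ((u : ℝ) - v)).re ≤
        n * (y * L * (K * (6 * L) + n * (2 * p ^ 2))) + 2 * ‖T‖ := by
      refine (Complex.re_le_norm _).trans ?_
      rw [e1]
      refine (norm_add_le _ _).trans (add_le_add e2 ((norm_add_le _ _).trans ?_))
      rw [Complex.norm_conj]; linarith
    have e4 : 0 ≤ ∑ k ∈ Finset.Icc 1 (4 * K), ok K k := Finset.sum_nonneg fun k _ => ok_nonneg K k
    calc _ ≤ _ := hdual
      _ ≤ (∑ k ∈ Finset.Icc 1 (4 * K), ok K k) *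
          (n * (y * L * (K * (6 * L) + n * (2 * p ^ 2))) + 2 * ‖T‖) :=
          mul_le_mul_of_nonneg_left e3 e4
      _ ≤ 4 * K * (n * (y * L * (K * (6 * L) + n * (2 * p ^ 2))) + 2 * ‖T‖) := by
          gcongr; exact sum_ok_le K
      _ = _ := by ring
  have hE0 : (0 : ℝ) ≤ En W 1 := by positivity
  have q1 : ∀ (c : ℝ) (i j : ℕ), 0 ≤ c → c ≤ 10 ^ 9 → i ≤ 3 → j ≤ 6 →
      c * y ^ i * L ^ j ≤ 10 ^ 9 * y ^ 3 * L ^ 6 := fun c i j h0 h1 h2 h3 => by
    gcongr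
  have s1 := step1 (E := En W 1) y5 hL (by linarith) (show (0 : ℝ) < M by linarith) hl hR hn
    (norm_nonneg T) (by simpa using q1 131072 1 2 (by norm_num) (by norm_num) (by norm_num) (by norm_num))
    h1 (hT.trans (by gcongr)) a0 a1 a2
  have hsq : p ^ 2 ≤ √(K * M) := Real.le_sqrt_of_sq_le (by rw [← pow_mul]; exact hp4)
  have hen := he (Finset.Ico K (2 * K)) (Finset.Icc 1 (4 * K)) (ok K) (yk K ρ) a W 1 l
    (y * L ^ 2 * (K : ℝ) ^ 2) (y * L ^ 2 * (K * M)) (K * M) (5 * n)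
    (40 * (y * L ^ 2 * (K : ℝ) ^ 2) * n + 4 * n ^ 2 * (y * L ^ 2 * (K * M)))
    (4 * n ^ 4 * (y * L ^ 2 * (K * M))) (Ico_subset_Icc K) (fun k _ => ok_nonneg K k)
    (norm_le_ok ha) hl (by positivity) (by positivity) le_rfl hS hU (fun v hv => by
      have h1 : ‖DD K ρ v‖ = ‖DD K ρ |(v : ℝ)|‖ := by
        rcases abs_cases (v : ℝ) with h | h
        · rw [h.1]
        · rw [h.1, DD_neg, Complex.norm_conj]
      have h2 := hf' |(v : ℝ)| (abs_nonneg _) (by push_cast at hv; linarith)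
      have h3 := norm_Hp_le hc K M ρ |(v : ℝ)|
      have h5 := norm_le_norm_add_norm_sub' (DD K ρ |(v : ℝ)|) (Hp K M ρ |(v : ℝ)|)
      have h6 : Cf * L * (K / (1 + |(v : ℝ)|) + 1 + ρ * K * M) ≤
          Cf * L * (K / (1 + |(v : ℝ)|) + 2 * √(K * M)) := by
        rw [add_assoc]; gcongr; linarith
      have h7 : √(K * M) ≤ L * √(K * M) := le_mul_of_one_le_left (by positivity) hL
      have h8 : ‖DD K ρ v‖ ≤ Cf * (L * K / (1 + |(v : ℝ)|)) + (2 * Cf + 60) * (L * √(K * M)) := by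
        have : Cf * L * (K / (1 + |(v : ℝ)|) + 2 * √(K * M)) =
          Cf * (L * K / (1 + |(v : ℝ)|)) + 2 * Cf * (L * √(K * M)) := by ring
        linarith
      calc _ ≤ (Cf * (L * K / (1 + |(v : ℝ)|)) + (2 * Cf + 60) * (L * √(K * M))) ^ 2 := by
            gcongr; exact h8
        _ ≤ 2 * ((Cf * (L * K / (1 + |(v : ℝ)|))) ^ 2 + ((2 * Cf + 60) * (L * √(K * M))) ^ 2) :=
            add_sq_le
        _ = 2 * Cf ^ 2 * (L * K / (1 + |(v : ℝ)|)) ^ 2 +
            2 * (2 * Cf + 60) ^ 2 * (L ^ 2 * √(K * M) ^ 2) := by ring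
        _ ≤ y * (L * K / (1 + |(v : ℝ)|)) ^ 2 + y * (L ^ 2 * √(K * M) ^ 2) := by gcongr
        _ = _ := by rw [Real.sq_sqrt (by positivity), div_pow]; ring)
    (near_card W) (le_of_eq (by push_cast; ring)) (le_of_eq (by push_cast; ring))
  rw [Nat.cast_one, one_mul] at hen
  have r : ∀ j : ℕ, R ^ j ≤ n ^ j := fun j => pow_le_pow_left₀ hR.le hn.le j
  refine step2 (G := 131072 * y * L ^ 2 * (M : ℝ) ^ 3 * (K : ℝ) ^ 7 * p) (by positivity)
    (by positivity) (by positivity) hl hn0 s1 hen ?_ ?_ ?_ ?_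
  · calc _ = 104857600 * y ^ 3 * L ^ 6 * ((M : ℝ) ^ 3 * (K : ℝ) ^ 11 * p) := by ring
      _ ≤ _ := mul_le_mul_of_nonneg_right
        (q1 _ 3 6 (by norm_num) (by norm_num) le_rfl le_rfl) (by positivity)
      _ ≤ _ := a3
      _ ≤ _ := mul_le_mul_of_nonneg_right (r 4) (by positivity)
  · calc _ = 10485760 * y ^ 3 * L ^ 6 * ((M : ℝ) ^ 4 * (K : ℝ) ^ 10 * p) := by ring
      _ ≤ _ := mul_le_mul_of_nonneg_right
        (q1 _ 3 6 (by norm_num) (by norm_num) le_rfl le_rfl) (by positivity)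
      _ ≤ _ := a4
      _ ≤ _ := mul_le_mul_of_nonneg_right (r 3) (by positivity)
  · calc _ = (524288000 * y ^ 2 * L ^ 4) * (131072 * y ^ 2 * L ^ 4) *
          ((M : ℝ) ^ 7 * (K : ℝ) ^ 17 * p ^ 2) := by ring
      _ ≤ (10 ^ 9 * y ^ 3 * L ^ 6) * (10 ^ 9 * y ^ 3 * L ^ 6) *
          ((M : ℝ) ^ 7 * (K : ℝ) ^ 17 * p ^ 2) :=
          mul_le_mul_of_nonneg_right (mul_le_mul
            (q1 _ 2 4 (by norm_num) (by norm_num) (by norm_num) (by norm_num))
            (q1 _ 2 4 (by norm_num) (by norm_num) (by norm_num) (by norm_num))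
            (by positivity) (by positivity)) (by positivity)
      _ ≤ _ := by rw [← sq]; exact a5
      _ ≤ _ := mul_le_mul_of_nonneg_right (r 5) (by positivity)
  · calc _ = 2621440 * y ^ 2 * L ^ 4 * ((M : ℝ) ^ 4 * (K : ℝ) ^ 8 * p) := by ring
      _ ≤ _ := mul_le_mul_of_nonneg_right
        (q1 _ 2 4 (by norm_num) (by norm_num) (by norm_num) (by norm_num)) (by positivity)
      _ ≤ _ := a6
      _ ≤ _ := mul_le_mul_of_nonneg_right (r 2) (by positivity)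

end Pool.Agent.Lib.MP_80d0cf_nt.Up
end
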