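import Pool.Agent.Lib.MP_80d0cf_nt.Up.Lev

-- part Pool.Agent.Lib.MP_80d0cf_nt.Up.T1
section

/-! The trilinear sum: Cauchy-Schwarz and dyadic counting. -/

open Set MeasureTheory ComplexConjugate

namespace Pool.Agent.Lib.MP_80d0cf_nt.Up

namespace T1Aux

lemma expand {ι : Type*} (s : Finset ℤ) (I : Finset ι) (h : ι → ℂ) (g : ι → ℤ → ℂ) {H : ℝ}
    (hH : ∀ i ∈ I, ‖h i‖ ≤ H) :
    ∑ x ∈ s, ‖∑ i ∈ I, h i * g i x‖ ^ 2 ≤
      H ^ 2 * ∑ i ∈ I, ∑ j ∈ I, ‖∑ x ∈ s, g i x * conj (g j x)‖ := by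
  have e1 : ((∑ x ∈ s, ‖∑ i ∈ I, h i * g i x‖ ^ 2 : ℝ) : ℂ) =
      ∑ i ∈ I, ∑ j ∈ I, h i * conj (h j) * ∑ x ∈ s, g i x * conj (g j x) := by
    push_cast
    simp only [← Complex.mul_conj', map_sum, map_mul, Finset.sum_mul_sum]
    simp only [Finset.mul_sum]
    rw [Finset.sum_comm]
    refine Finset.sum_congr rfl fun i _ => ?_
    rw [Finset.sum_comm]
    refine Finset.sum_congr rfl fun j _ => Finset.sum_congr rfl fun x _ => by ring
  have e2 : (∑ x ∈ s, ‖∑ i ∈ I, h i * g i x‖ ^ 2 : ℝ) ≤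
      ‖((∑ x ∈ s, ‖∑ i ∈ I, h i * g i x‖ ^ 2 : ℝ) : ℂ)‖ := by
    rw [Complex.norm_real]; exact le_abs_self _
  refine e2.trans ?_
  rw [e1, Finset.mul_sum]
  refine (norm_sum_le _ _).trans (Finset.sum_le_sum fun i hi => ?_)
  rw [Finset.mul_sum]
  refine (norm_sum_le _ _).trans (Finset.sum_le_sum fun j hj => ?_)
  rw [norm_mul, norm_mul, Complex.norm_conj, sq]
  have := norm_nonneg (h i)
  gcongr
  · exact this.trans (hH i hi)
  · exact hH i hi
  · exact hH j hj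

lemma wt_le {P1 P Q : ℝ} (hP : 0 ≤ P) (hQ : 0 ≤ Q) (h : 1 + Q ≤ 2 * (1 + P)) :
    wt P1 P ≤ 2 * wt P1 Q := by
  unfold wt
  rw [mul_min_of_nonneg _ _ (by norm_num : (0 : ℝ) ≤ 2)]
  refine min_le_min ?_ ?_
  · have h1 : √(1 + Q) ≤ 2 * √(1 + P) := by
      rw [show (2 : ℝ) = √4 by rw [show (4 : ℝ) = 2 ^ 2 by norm_num, Real.sqrt_sq (by norm_num)],
        ← Real.sqrt_mul (by norm_num)]
      exact Real.sqrt_le_sqrt (by linarith)
    rw [mul_one_div, div_le_div_iff₀ (by positivity) (by positivity)]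
    linarith
  · rw [← mul_div_assoc, div_le_div_iff₀ (by positivity) (by positivity)]
    nlinarith [Real.sqrt_nonneg P1]

lemma exists_dyad {P : ℝ} {N : ℕ} (h0 : 0 ≤ P) (hP : P ≤ 2 * N) :
    ∃ j ∈ Finset.range (Nat.log 2 (4 * N) + 1), P ≤ 2 ^ j ∧ 1 + (2 : ℝ) ^ j ≤ 2 * (1 + P) := by
  have hex : ∃ j : ℕ, P ≤ 2 ^ j := by
    obtain ⟨j, hj⟩ := pow_unbounded_of_one_lt P (by norm_num : (1 : ℝ) < 2)
    exact ⟨j, hj.le⟩
  have h1 := Nat.find_spec hex
  rcases Nat.eq_zero_or_pos (Nat.find hex) with h | h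
  · rw [h] at h1
    exact ⟨0, by simp, h1, by norm_num; linarith⟩
  · obtain ⟨j, hj⟩ : ∃ j, Nat.find hex = j + 1 := ⟨Nat.find hex - 1, by omega⟩
    have h2 := not_le.1 (Nat.find_min hex (show j < Nat.find hex by omega))
    rw [hj] at h1
    refine ⟨j + 1, ?_, h1, by rw [pow_succ]; linarith⟩
    rw [Finset.mem_range, Nat.lt_succ_iff]
    refine Nat.le_log_of_pow_le (by norm_num) ?_
    have : (2 : ℝ) ^ (j + 1) ≤ 4 * N := by rw [pow_succ]; linarith
    exact_mod_cast this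

lemma log_count {K M : ℕ} (hM : 1 ≤ M) (hK : M ≤ K) :
    ((Nat.log 2 (4 * (K * M)) + 1 : ℕ) : ℝ) ≤ 7 * Real.log (K + 2) := by
  have h1 : 2 ^ Nat.log 2 (4 * (K * M)) ≤ (K + 2) ^ 4 := by
    refine (Nat.pow_log_le_self 2 (by have := Nat.mul_pos (hM.trans hK) hM; omega)).trans ?_
    have : K * M ≤ K * K := Nat.mul_le_mul_left _ hK
    nlinarith [Nat.zero_le (K ^ 3), Nat.zero_le (K ^ 4)]
  have h2 : (2 : ℝ) ^ Nat.log 2 (4 * (K * M)) ≤ ((K : ℝ) + 2) ^ 4 := by exact_mod_cast h1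
  have h3 := Real.log_le_log (by positivity) h2
  rw [Real.log_pow, Real.log_pow] at h3
  have h4 := Real.log_two_gt_d9
  have h5 := one_le_log_add_two (x := K) (by exact_mod_cast hM.trans hK)
  have h6 : (0 : ℝ) ≤ Nat.log 2 (4 * (K * M)) := by positivity
  push_cast at h3 ⊢
  nlinarith

lemma wtsum (hc : CountS) {K M : ℕ} {P1 MM α β : ℝ} {W : Finset ℤ} (hM : 1 ≤ M) (hK : M ≤ K)
    (hW : ∀ u ∈ W, 0 ≤ u ∧ u < K * M)
    (hMM : ∀ j : ℕ, 2 ^ j ≤ 4 * K * M → wt P1 (2 ^ j) * En W (2 ^ j) ≤ MM) (hMM0 : 0 ≤ MM)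
    (hα : 0 < α) (hα1 : α ≤ 1) (hβ : 0 < β) (hβ1 : β ≤ 1) :
    ∑ q ∈ W ×ˢ W ×ˢ W ×ˢ W, wt P1 |α * ((q.1 : ℝ) - q.2.1) - β * ((q.2.2.1 : ℝ) - q.2.2.2)| ≤
      210 * Real.log (K + 2) * MM / √(α * β) := by
  classical
  have hd : ∀ u ∈ W, ∀ v ∈ W, |(u : ℝ) - v| ≤ (K * M : ℕ) := fun u hu v hv => by
    have h1 := hW u hu
    have h2 := hW v hv
    have : |u - v| ≤ K * M := by rw [abs_le]; constructor <;> linarith [h1.1, h1.2, h2.1, h2.2]
    exact_mod_cast this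
  calc _ ≤ ∑ q ∈ W ×ˢ W ×ˢ W ×ˢ W, ∑ j ∈ Finset.range (Nat.log 2 (4 * (K * M)) + 1),
          if |α * ((q.1 : ℝ) - q.2.1) - β * ((q.2.2.1 : ℝ) - q.2.2.2)| ≤ 2 ^ j
            then 2 * wt P1 (2 ^ j) else 0 := by
        refine Finset.sum_le_sum fun q hq => ?_
        simp only [Finset.mem_product] at hq
        have h1 := hd _ hq.1 _ hq.2.1
        have h2 := hd _ hq.2.2.1 _ hq.2.2.2
        have h3 : |α * ((q.1 : ℝ) - q.2.1) - β * ((q.2.2.1 : ℝ) - q.2.2.2)| ≤ 2 * (K * M : ℕ) := by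
          refine (abs_sub _ _).trans ?_
          rw [abs_mul, abs_mul, abs_of_pos hα, abs_of_pos hβ]
          have e1 := mul_le_mul hα1 h1 (abs_nonneg _) one_pos.le
          have e2 := mul_le_mul hβ1 h2 (abs_nonneg _) one_pos.le
          linarith
        obtain ⟨j, hj, h4, h5⟩ := exists_dyad (abs_nonneg _) h3
        refine le_trans ?_ (Finset.single_le_sum (f := fun j : ℕ =>
          if |α * ((q.1 : ℝ) - q.2.1) - β * ((q.2.2.1 : ℝ) - q.2.2.2)| ≤ 2 ^ j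
            then 2 * wt P1 (2 ^ j) else 0) (fun i _ => ?_) hj)
        · simp only [if_pos h4]
          exact wt_le (abs_nonneg _) (by positivity) h5
        · have := wt_nonneg (P1 := P1) (P := 2 ^ i) (by positivity)
          split_ifs <;> linarith
    _ ≤ ∑ j ∈ Finset.range (Nat.log 2 (4 * (K * M)) + 1), 30 * MM / √(α * β) := by
        rw [Finset.sum_comm]
        refine Finset.sum_le_sum fun j hj => ?_
        rw [← Finset.sum_filter, Finset.sum_const, nsmul_eq_mul]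
        have h1 := hc W α β (2 ^ j) hα hα1 hβ hβ1 (by positivity)
        have h2 := wt_nonneg (P1 := P1) (P := 2 ^ j) (by positivity)
        have h3 : 2 ^ j ≤ 4 * K * M := by
          rw [mul_assoc]
          exact (Nat.pow_le_pow_right (by norm_num)
            (Nat.lt_succ_iff.1 (Finset.mem_range.1 hj))).trans
            (Nat.pow_log_le_self 2 (by have := Nat.mul_pos (hM.trans hK) hM; omega))
        have h4 := hMM j h3
        calc _ ≤ 15 * En W (2 ^ j) / √(α * β) * (2 * wt P1 (2 ^ j)) := by gcongr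
          _ = 30 * (wt P1 (2 ^ j) * En W (2 ^ j)) / √(α * β) := by ring
          _ ≤ _ := by gcongr
    _ ≤ _ := by
        rw [Finset.sum_const, Finset.card_range, nsmul_eq_mul]
        calc _ ≤ 7 * Real.log (K + 2) * (30 * MM / √(α * β)) := by
              gcongr; exact log_count hM hK
          _ = _ := by ring

lemma quad (W : Finset ℤ) (f : ℤ × ℤ → ℤ × ℤ → ℝ) :
    ∑ p ∈ W ×ˢ W, ∑ p' ∈ W ×ˢ W, f p p' =
      ∑ q ∈ W ×ˢ W ×ˢ W ×ˢ W, f (q.2.1, q.2.2.1) (q.1, q.2.2.2) := by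
  simp only [Finset.sum_product]
  rw [Finset.sum_comm (s := W) (t := W) (f := fun a' a => ∑ c ∈ W, ∑ c' ∈ W, f (a, c) (a', c'))]
  exact Finset.sum_congr rfl fun a _ => Finset.sum_comm

lemma ratio {a b : ℝ} (ha : 0 < a) (hb : 0 < b) :
    1 / (a * b) * (min a b / √(min a b / a * (min a b / b))) = 1 / √a * (1 / √b) := by
  have hm : 0 < min a b := lt_min ha hb
  have h1 : √(min a b / a * (min a b / b)) = min a b / (√a * √b) := by
    rw [show min a b / a * (min a b / b) = (min a b) ^ 2 / (a * b) by field_simp,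
      Real.sqrt_div (by positivity), Real.sqrt_sq hm.le, Real.sqrt_mul ha.le]
  have h2 := Real.mul_self_sqrt ha.le
  have h3 := Real.mul_self_sqrt hb.le
  have h4 := Real.sqrt_pos.2 ha
  have h5 := Real.sqrt_pos.2 hb
  rw [h1]
  generalize √a = x at *
  generalize √b = y at *
  subst h2 h3
  field_simp

end T1Aux

open T1Aux in
theorem t1 (hj : JbS) (hc : CountS) : T1S := by
  obtain ⟨C, hC, hj⟩ := hj
  refine ⟨840 * C, by positivity, fun K M ρ P1 Hm MM W hM hK hρ hρ1 hP1 hP2 hW hH hMM => ?_⟩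
  have hL := one_le_log_add_two (x := K) (by exact_mod_cast hM.trans hK)
  have hM' : (1 : ℝ) ≤ M := by exact_mod_cast hM
  have hMM0 : 0 ≤ MM := le_trans (mul_nonneg (wt_nonneg (by positivity)) (by positivity))
    (hMM 0 (by have := Nat.mul_pos (hM.trans hK) hM; rw [mul_assoc]; omega))
  set L := Real.log (K + 2) with hLdef
  let F : ℕ × ℕ → ℤ → ℂ := fun m x => ∑ p ∈ W ×ˢ W, conj (Hp K M ρ ((p.2 : ℝ) - p.1)) *
    (mainT K ρ m.1 ((x : ℝ) - p.1) * mainT K ρ m.2 ((p.2 : ℝ) - x))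
  let I := Finset.Icc 1 M ×ˢ Finset.Icc 1 M
  have e1 : ∑ x ∈ W, ∑ a ∈ W, ∑ c ∈ W,
      Hp K M ρ ((x : ℝ) - a) * Hp K M ρ ((c : ℝ) - x) * conj (Hp K M ρ ((c : ℝ) - a)) =
      ∑ z ∈ W ×ˢ I, F z.2 z.1 := by
    rw [Finset.sum_product]
    refine Finset.sum_congr rfl fun x _ => ?_
    simp only [F]
    rw [Finset.sum_comm (s := I), Finset.sum_product]
    refine Finset.sum_congr rfl fun a _ => ?_
    refine Finset.sum_congr rfl fun c _ => ?_
    rw [← Finset.mul_sum, mul_comm]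
    congr 1
    rw [Finset.sum_product, Hp, Hp, Finset.sum_mul_sum]
  have e2 : ∀ m ∈ I, ∑ x ∈ W, ‖F m x‖ ^ 2 ≤ Hm ^ 2 * (C * (210 * L * (K : ℝ) ^ 3 * MM *
      (1 / √(m.1 : ℝ) * (1 / √(m.2 : ℝ))) +
      L * (K : ℝ) ^ 2 * (W.card : ℝ) ^ 4 * (1 / (m.1 : ℝ) * (1 / (m.2 : ℝ))))) := by
    intro m hm
    obtain ⟨h1, h3⟩ := Finset.mem_product.1 hm
    have a1 : (0 : ℝ) < m.1 := by exact_mod_cast (Finset.mem_Icc.1 h1).1
    have a3 : (0 : ℝ) < m.2 := by exact_mod_cast (Finset.mem_Icc.1 h3).1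
    have amin : 0 < min (m.1 : ℝ) m.2 := lt_min a1 a3
    have hsub : W ⊆ Finset.Ico (0 : ℤ) (K * M) := fun u hu => Finset.mem_Ico.2 (hW u hu)
    refine (Finset.sum_le_sum_of_subset_of_nonneg hsub fun _ _ _ => by positivity).trans ?_
    refine (expand _ _ _ _ (H := Hm) fun p hp => ?_).trans ?_
    · rw [Complex.norm_conj]
      exact hH _ (Finset.mem_product.1 hp).2 _ (Finset.mem_product.1 hp).1
    gcongr
    have hw := wtsum hc hM hK hW hMM hMM0 (α := min (m.1 : ℝ) m.2 / m.1)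
      (β := min (m.1 : ℝ) m.2 / m.2) (by positivity) ((div_le_one a1).2 (min_le_left _ _))
      (by positivity) ((div_le_one a3).2 (min_le_right _ _))
    calc _ ≤ ∑ p ∈ W ×ˢ W, ∑ p' ∈ W ×ˢ W, C * ((K : ℝ) ^ 2 / (m.1 * m.2)) *
          (K * min (m.1 : ℝ) m.2 * wt P1 |min (m.1 : ℝ) m.2 / m.1 * ((p'.1 : ℝ) - p.1) -
            min (m.1 : ℝ) m.2 / m.2 * ((p.2 : ℝ) - p'.2)| + L) := by
          refine Finset.sum_le_sum fun p hp => Finset.sum_le_sum fun p' _ => ?_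
          have b1 := hW _ (Finset.mem_product.1 hp).1
          have b2 := hW _ (Finset.mem_product.1 hp).2
          have := hj K M m.1 m.2 ρ P1 p.1 p'.1 p.2 p'.2 (Finset.Ico (0 : ℤ) (K * M)) hK h1 h3 hρ
            hρ1 hP1 hP2 fun n n1 n2 => by
              have n1' : p.1 < n := by exact_mod_cast n1
              have n2' : n < p.2 := by exact_mod_cast n2
              exact Finset.mem_Ico.2 ⟨by omega, by omega⟩
          refine le_trans (le_of_eq ?_) this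
          congr 1
          refine Finset.sum_congr rfl fun x _ => ?_
          rw [map_mul]; ring
      _ = C * ((K : ℝ) ^ 2 / (m.1 * m.2)) * (K * min (m.1 : ℝ) m.2 *
          (∑ q ∈ W ×ˢ W ×ˢ W ×ˢ W, wt P1 |min (m.1 : ℝ) m.2 / m.1 * ((q.1 : ℝ) - q.2.1) -
            min (m.1 : ℝ) m.2 / m.2 * ((q.2.2.1 : ℝ) - q.2.2.2)|) + (W.card : ℝ) ^ 4 * L) := by
          rw [quad, ← Finset.mul_sum, Finset.sum_add_distrib, ← Finset.mul_sum, Finset.sum_const,
            nsmul_eq_mul]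
          simp only [Finset.card_product]
          push_cast
          ring
      _ ≤ C * ((K : ℝ) ^ 2 / (m.1 * m.2)) * (K * min (m.1 : ℝ) m.2 *
          (210 * L * MM / √(min (m.1 : ℝ) m.2 / m.1 * (min (m.1 : ℝ) m.2 / m.2)))
            + (W.card : ℝ) ^ 4 * L) := by gcongr
      _ = _ := by
          rw [← ratio a1 a3]
          field_simp
  have e3 : ∑ m ∈ I, 1 / √(m.1 : ℝ) * (1 / √(m.2 : ℝ)) ≤ 4 * M := by
    rw [Finset.sum_product' (f := fun a b : ℕ => 1 / √(a : ℝ) * (1 / √(b : ℝ))),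
      ← Finset.sum_mul_sum]
    have h1 := sum_inv_sqrt_le M
    have h2 : 0 ≤ ∑ m ∈ Finset.Icc 1 M, 1 / √(m : ℝ) := by positivity
    calc _ ≤ 2 * √M * (2 * √M) := by gcongr
      _ = 4 * (√M * √M) := by ring
      _ = _ := by rw [Real.mul_self_sqrt (by positivity)]
  have e4 : ∑ m ∈ I, 1 / (m.1 : ℝ) * (1 / (m.2 : ℝ)) ≤ 4 * L ^ 2 := by
    rw [Finset.sum_product' (f := fun a b : ℕ => 1 / (a : ℝ) * (1 / (b : ℝ))),
      ← Finset.sum_mul_sum]
    have h1 := sum_inv_le M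
    have h2 : 0 ≤ ∑ m ∈ Finset.Icc 1 M, 1 / (m : ℝ) := by positivity
    have h3 : Real.log M ≤ L := Real.log_le_log (by positivity) (by
      have : (M : ℝ) ≤ K := by exact_mod_cast hK
      linarith)
    have h4 : ∑ m ∈ Finset.Icc 1 M, 1 / (m : ℝ) ≤ 2 * L := by linarith
    calc _ ≤ 2 * L * (2 * L) := by gcongr
      _ = _ := by ring
  rw [e1]
  calc _ ≤ (∑ z ∈ W ×ˢ I, ‖F z.2 z.1‖) ^ 2 := by gcongr; exact norm_sum_le _ _
    _ ≤ (W ×ˢ I).card * ∑ z ∈ W ×ˢ I, ‖F z.2 z.1‖ ^ 2 := sq_sum_le_card_mul_sum_sq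
    _ = W.card * (M : ℝ) ^ 2 * ∑ m ∈ I, ∑ x ∈ W, ‖F m x‖ ^ 2 := by
        rw [Finset.sum_product_right]
        simp only [I, Finset.card_product, Nat.card_Icc, add_tsub_cancel_right]
        push_cast
        ring
    _ ≤ W.card * (M : ℝ) ^ 2 * (Hm ^ 2 * (C * (210 * L * (K : ℝ) ^ 3 * MM * (4 * M) +
        L * (K : ℝ) ^ 2 * (W.card : ℝ) ^ 4 * (4 * L ^ 2)))) := by
        gcongr
        refine (Finset.sum_le_sum e2).trans ?_
        rw [← Finset.mul_sum, ← Finset.mul_sum, Finset.sum_add_distrib, ← Finset.mul_sum,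
          ← Finset.mul_sum]
        gcongr
    _ = C * W.card * Hm ^ 2 * (M : ℝ) ^ 2 * (840 * M * L * ((K : ℝ) ^ 3 * MM) +
        4 * 1 * L ^ 3 * ((K : ℝ) ^ 2 * (W.card : ℝ) ^ 4)) := by ring
    _ ≤ C * W.card * Hm ^ 2 * (M : ℝ) ^ 2 * (840 * M * L ^ 3 * ((K : ℝ) ^ 3 * MM) +
        840 * M * L ^ 3 * ((K : ℝ) ^ 2 * (W.card : ℝ) ^ 4)) := by
        gcongr
        · exact le_self_pow₀ hL (by norm_num)
        · norm_num
    _ = _ := by ring

end Pool.Agent.Lib.MP_80d0cf_nt.Up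
end

-- part Pool.Agent.Lib.MP_80d0cf_nt.Up.XL4
section

/-! The fourth moment of the dual sums. -/

open Set MeasureTheory ComplexConjugate

namespace Pool.Agent.Lib.MP_80d0cf_nt.Up

namespace XL4Aux

lemma En_le (hc : CountS) (W : Finset ℤ) {P : ℝ} (hP : 1 ≤ P) :
    (En W P : ℝ) ≤ 15 * P * En W 1 := by
  have h0 : 0 < P := by linarith
  have h := hc W (1 / P) (1 / P) 1 (by positivity) ((div_le_one h0).2 hP) (by positivity)
    ((div_le_one h0).2 hP) one_pos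
  rw [Real.sqrt_mul_self (by positivity)] at h
  refine le_trans (le_of_eq ?_) (h.trans (le_of_eq (by field_simp)))
  rw [En]
  congr 2
  refine Finset.filter_congr fun q _ => ?_
  push_cast
  rw [← mul_sub, abs_mul, abs_of_pos (show 0 < 1 / P by positivity), one_div,
    inv_mul_le_iff₀ h0, mul_one]

lemma wt_En (hc : CountS) (W : Finset ℤ) {p : ℝ} (hp : 1 ≤ p) (j : ℕ) :
    wt (p ^ 2) (2 ^ j) * En W (2 ^ j) ≤ 15 * p * En W 1 := by
  have h1 : (1 : ℝ) ≤ 2 ^ j := one_le_pow₀ (by norm_num)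
  have h2 : wt (p ^ 2) (2 ^ j) ≤ p / 2 ^ j := by
    refine (min_le_right _ _).trans ?_
    rw [Real.sqrt_sq (by linarith)]
    gcongr
    linarith
  calc _ ≤ p / 2 ^ j * (15 * 2 ^ j * En W 1) := by
        gcongr
        exact En_le hc W h1
    _ = _ := by field_simp

lemma quad2 (W : Finset ℤ) (f : ℤ × ℤ → ℤ × ℤ → ℝ) :
    ∑ p ∈ W ×ˢ W, ∑ p' ∈ W ×ˢ W, f p p' =
      ∑ q ∈ W ×ˢ W ×ˢ W ×ˢ W, f (q.1, q.2.2.2) (q.2.1, q.2.2.1) := by
  simp only [Finset.sum_product]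
  refine Finset.sum_congr rfl fun a _ => ?_
  rw [Finset.sum_comm]
  exact Finset.sum_congr rfl fun b _ => Finset.sum_comm

lemma pow_four_sum {ι : Type*} (s : Finset ι) (f : ι → ℝ) :
    (∑ i ∈ s, f i) ^ 4 ≤ (s.card : ℝ) ^ 3 * ∑ i ∈ s, f i ^ 4 := by
  have h1 : (∑ i ∈ s, f i) ^ 2 ≤ s.card * ∑ i ∈ s, f i ^ 2 := sq_sum_le_card_mul_sum_sq
  have h2 : (∑ i ∈ s, f i ^ 2) ^ 2 ≤ s.card * ∑ i ∈ s, (f i ^ 2) ^ 2 := sq_sum_le_card_mul_sum_sq
  calc _ = ((∑ i ∈ s, f i) ^ 2) ^ 2 := by ring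
    _ ≤ (s.card * ∑ i ∈ s, f i ^ 2) ^ 2 := by gcongr
    _ = (s.card : ℝ) ^ 2 * (∑ i ∈ s, f i ^ 2) ^ 2 := by ring
    _ ≤ (s.card : ℝ) ^ 2 * (s.card * ∑ i ∈ s, (f i ^ 2) ^ 2) := by gcongr
    _ = _ := by simp only [← pow_mul]; ring

end XL4Aux

open XL4Aux T1Aux in
theorem l4 (hj : Jb2S) (hc : CountS) : L4S := by
  obtain ⟨C, hC, hj⟩ := hj
  refine ⟨6300 * C, by positivity, fun K M ρ p W θ hM hK hρ hρ1 hp hP2 hW hθ => ?_⟩
  have hL := one_le_log_add_two (x := K) (by exact_mod_cast hM.trans hK)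
  have hM' : (1 : ℝ) ≤ M := by exact_mod_cast hM
  have hp2 : 1 ≤ p ^ 2 := one_le_pow₀ hp
  set L := Real.log (K + 2) with hLdef
  set E : ℝ := (En W 1 : ℝ) with hE
  have hE0 : 0 ≤ E := by positivity
  let F : ℕ → ℤ → ℂ := fun m x => ∑ v ∈ W, conj (θ v) * mainT K ρ m ((x : ℝ) - v)
  let I := Finset.Icc 1 M
  have e1 : ∑ u ∈ W, ∑ v ∈ W, θ u * conj (θ v) * Hp K M ρ ((u : ℝ) - v) =
      ∑ z ∈ W ×ˢ I, θ z.1 * F z.2 z.1 := by
    rw [Finset.sum_product]
    refine Finset.sum_congr rfl fun x _ => ?_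
    simp only [F, Hp, Finset.mul_sum]
    rw [Finset.sum_comm]
    exact Finset.sum_congr rfl fun m _ => Finset.sum_congr rfl fun v _ => by ring
  have hw := wtsum hc hM hK hW (MM := 15 * p * E) (P1 := p ^ 2) (fun j _ => wt_En hc W hp j)
    (by positivity) (α := 1) (β := 1) one_pos le_rfl one_pos le_rfl
  simp only [one_mul, Real.sqrt_one, div_one] at hw
  have e2 : ∀ m ∈ I, ∑ x ∈ W, ‖F m x‖ ^ 4 ≤
      C * (3150 * L * (K : ℝ) ^ 3 * p * E + L * (K : ℝ) ^ 2 * (W.card : ℝ) ^ 4) * (1 / (m : ℝ)) := by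
    intro m hm
    have a1 : (1 : ℝ) ≤ m := by exact_mod_cast (Finset.mem_Icc.1 hm).1
    have a2 : m ≤ M := (Finset.mem_Icc.1 hm).2
    have hsub : W ⊆ Finset.Ico (0 : ℤ) (33 * (K * M)) := fun u hu =>
      Finset.mem_Ico.2 ⟨(hW u hu).1, by have := hW u hu; omega⟩
    refine (Finset.sum_le_sum_of_subset_of_nonneg hsub fun _ _ _ => by positivity).trans ?_
    have e3 : ∀ x : ℤ, ‖F m x‖ ^ 4 = ‖∑ z ∈ W ×ˢ W, (conj (θ z.1) * conj (θ z.2)) *
        (mainT K ρ m ((x : ℝ) - z.1) * mainT K ρ m ((x : ℝ) - z.2))‖ ^ 2 := fun x => by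
      rw [show ‖F m x‖ ^ 4 = ‖F m x * F m x‖ ^ 2 by rw [norm_mul]; ring]
      congr 2
      simp only [F]
      rw [Finset.sum_mul_sum, Finset.sum_product]
      exact Finset.sum_congr rfl fun a _ => Finset.sum_congr rfl fun b _ => by ring
    simp only [e3]
    refine (expand _ _ _ _ (H := 1) fun z _ => ?_).trans ?_
    · rw [norm_mul, Complex.norm_conj, Complex.norm_conj]
      exact mul_le_one₀ (hθ _) (norm_nonneg _) (hθ _)
    rw [one_pow, one_mul]
    calc _ ≤ ∑ z ∈ W ×ˢ W, ∑ z' ∈ W ×ˢ W, C * ((K : ℝ) ^ 2 / (m : ℝ) ^ 2) *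
          (K * m * wt (p ^ 2) |((z.1 : ℝ) - z'.1) - ((z'.2 : ℝ) - z.2)| + L) := by
          refine Finset.sum_le_sum fun z hz => Finset.sum_le_sum fun z' _ => ?_
          have b1 := hW _ (Finset.mem_product.1 hz).1
          have := hj K M m ρ (p ^ 2) z.1 z'.1 z.2 z'.2 (Finset.Ico (0 : ℤ) (33 * (K * M))) hK hm hρ
            hρ1 hp2 hP2 fun n n1 n2 => by
              have n1' : z.1 < n := by exact_mod_cast n1
              have n2' : n < z.1 + 32 * K * m := by exact_mod_cast n2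
              have n3 : (K : ℤ) * m ≤ K * M :=
                mul_le_mul_of_nonneg_left (by exact_mod_cast a2) (by positivity)
              exact Finset.mem_Ico.2 ⟨by omega, by nlinarith [b1.2]⟩
          refine le_trans (le_of_eq ?_) this
          congr 1
          refine Finset.sum_congr rfl fun x _ => ?_
          rw [map_mul]; ring
      _ = C * ((K : ℝ) ^ 2 / (m : ℝ) ^ 2) * (K * m *
          (∑ q ∈ W ×ˢ W ×ˢ W ×ˢ W, wt (p ^ 2) |((q.1 : ℝ) - q.2.1) -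
            ((q.2.2.1 : ℝ) - q.2.2.2)|) + (W.card : ℝ) ^ 4 * L) := by
          rw [quad2, ← Finset.mul_sum, Finset.sum_add_distrib, ← Finset.mul_sum, Finset.sum_const,
            nsmul_eq_mul]
          simp only [Finset.card_product]
          push_cast
          ring
      _ ≤ C * ((K : ℝ) ^ 2 / (m : ℝ) ^ 2) * (K * m * (210 * L * (15 * p * E))
            + (W.card : ℝ) ^ 4 * L * m) := by
          have a3 : (W.card : ℝ) ^ 4 * L ≤ (W.card : ℝ) ^ 4 * L * m :=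
            le_mul_of_one_le_right (by positivity) a1
          have a4 := mul_le_mul_of_nonneg_left hw (show 0 ≤ (K : ℝ) * m by positivity)
          exact mul_le_mul_of_nonneg_left (add_le_add a4 a3) (by positivity)
      _ = _ := by field_simp; ring
  have e4 : ∑ m ∈ I, 1 / (m : ℝ) ≤ 2 * L := by
    have h1 := sum_inv_le M
    have h3 : Real.log M ≤ L := Real.log_le_log (by positivity) (by
      have : (M : ℝ) ≤ K := by exact_mod_cast hK
      linarith)
    linarith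
  rw [e1]
  calc _ ≤ (∑ z ∈ W ×ˢ I, ‖F z.2 z.1‖) ^ 4 := by
        gcongr
        refine (norm_sum_le _ _).trans (Finset.sum_le_sum fun z _ => ?_)
        rw [norm_mul]
        exact mul_le_of_le_one_left (norm_nonneg _) (hθ _)
    _ ≤ ((W ×ˢ I).card : ℝ) ^ 3 * ∑ z ∈ W ×ˢ I, ‖F z.2 z.1‖ ^ 4 := pow_four_sum _ _
    _ = (W.card : ℝ) ^ 3 * (M : ℝ) ^ 3 * ∑ m ∈ I, ∑ x ∈ W, ‖F m x‖ ^ 4 := by
        rw [Finset.sum_product_right]
        simp only [I, Finset.card_product, Nat.card_Icc, add_tsub_cancel_right]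
        push_cast
        ring
    _ ≤ (W.card : ℝ) ^ 3 * (M : ℝ) ^ 3 * (C * (3150 * L * (K : ℝ) ^ 3 * p * E +
        L * (K : ℝ) ^ 2 * (W.card : ℝ) ^ 4) * (2 * L)) := by
        gcongr
        refine (Finset.sum_le_sum e2).trans ?_
        rw [← Finset.mul_sum]
        gcongr
    _ = C * L ^ 2 * (M : ℝ) ^ 3 * (W.card : ℝ) ^ 3 * (6300 * ((K : ℝ) ^ 3 * p * E) +
        2 * ((K : ℝ) ^ 2 * (W.card : ℝ) ^ 4)) := by ring
    _ ≤ C * L ^ 2 * (M : ℝ) ^ 3 * (W.card : ℝ) ^ 3 * (6300 * ((K : ℝ) ^ 3 * p * E) +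
        6300 * ((K : ℝ) ^ 2 * (W.card : ℝ) ^ 4)) := by gcongr; norm_num
    _ = _ := by ring

end Pool.Agent.Lib.MP_80d0cf_nt.Up
end

-- part Pool.Agent.Lib.MP_80d0cf_nt.Up.Pois
section

/-! Truncated Poisson summation through the Fejer kernel. -/

open Set MeasureTheory ComplexConjugate

namespace Pool.Agent.Lib.MP_80d0cf_nt.Up

namespace PoisAux

lemma sum_eq_of_supp {s t : Finset ℤ} (f : ℤ → ℂ) (hs : ∀ n ∉ s, f n = 0)
    (ht : ∀ n ∉ t, f n = 0) : ∑ n ∈ s, f n = ∑ n ∈ t, f n := by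
  classical
  rw [Finset.sum_subset (Finset.subset_union_left (s₂ := t)) fun n _ h => hs n h,
    Finset.sum_subset (Finset.subset_union_right (s₁ := s)) fun n _ h => ht n h]

lemma e_nat_mul (j : ℕ) (x : ℝ) : e (j * x) = e x ^ j := by
  induction j with
  | zero => simp
  | succ j ih => rw [Nat.cast_succ, add_mul, one_mul, e_add, ih, pow_succ]

lemma le_norm_e_sub_one {x : ℝ} (hx : |x| ≤ 1 / 2) : 4 * |x| ≤ ‖e x - 1‖ := by
  have h1 : e x = Complex.exp (Complex.I * ((2 * Real.pi * x : ℝ) : ℂ)) := by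
    rw [e]; congr 1; push_cast; ring
  have hp := Real.pi_pos
  rw [h1, Complex.norm_exp_I_mul_ofReal_sub_one, Real.norm_eq_abs, abs_mul,
    show 2 * Real.pi * x / 2 = Real.pi * x by ring, abs_two]
  have h2 := Real.mul_abs_le_abs_sin (x := Real.pi * x) (by
    rw [abs_mul, abs_of_pos hp]; nlinarith)
  rw [abs_mul, abs_of_pos hp, ← mul_assoc, div_mul_cancel₀ _ hp.ne'] at h2
  linarith

/-- the Fejer kernel -/
noncomputable def Fj (n : ℕ) (x : ℝ) : ℝ := ‖∑ j ∈ Finset.range n, e (j * x)‖ ^ 2 / n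

lemma Fj_nonneg (n : ℕ) (x : ℝ) : 0 ≤ Fj n x := by unfold Fj; positivity

@[fun_prop] lemma continuous_Fj (n : ℕ) : Continuous (Fj n) := by unfold Fj; fun_prop

lemma Fj_add_int (n : ℕ) (x : ℝ) (m : ℤ) : Fj n (x + m) = Fj n x := by
  simp only [Fj, e_nat_mul, e_add, e_int, mul_one]

lemma Fj_eq (n : ℕ) (x : ℝ) : (Fj n x : ℂ) =
    (∑ j ∈ Finset.range n, ∑ k ∈ Finset.range n, e ((((j : ℤ) - k : ℤ) : ℝ) * x)) / n := by
  rw [Fj, Complex.ofReal_div, Complex.ofReal_pow, ← Complex.mul_conj', map_sum,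
    Finset.sum_mul_sum, Complex.ofReal_natCast]
  congr 1
  refine Finset.sum_congr rfl fun j _ => Finset.sum_congr rfl fun k _ => ?_
  rw [← e_sub]; congr 1; push_cast; ring

lemma sq_mul_Fj_le {n : ℕ} {x : ℝ} (hx : |x| ≤ 1 / 2) : x ^ 2 * Fj n x ≤ 1 / n := by
  have h1 : ‖∑ j ∈ Finset.range n, e (j * x)‖ * ‖e x - 1‖ ≤ 2 := by
    simp only [e_nat_mul]
    rw [← norm_mul, geom_sum_mul]
    refine (norm_sub_le _ _).trans ?_
    rw [norm_pow, norm_e, one_pow, norm_one]; norm_num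
  have h2 := le_norm_e_sub_one hx
  have h3 : |x| * ‖∑ j ∈ Finset.range n, e (j * x)‖ ≤ 1 := by
    have := mul_le_mul_of_nonneg_left h2 (norm_nonneg (∑ j ∈ Finset.range n, e (j * x)))
    linarith
  rw [Fj, ← mul_div_assoc, ← sq_abs x, ← mul_pow]
  gcongr
  exact pow_le_one₀ (by positivity) h3

lemma integral_e_int (l : ℤ) :
    ∫ x in (-(1 / 2) : ℝ)..(1 / 2), e (l * x) = if l = 0 then 1 else 0 := by
  split_ifs with h
  · subst h; norm_num
  have hc : (2 * Real.pi * Complex.I * (l : ℝ) : ℂ) ≠ 0 := by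
    have := Real.pi_ne_zero
    simp [h, this]
  have h1 : ∀ x ∈ uIcc (-(1 / 2) : ℝ) (1 / 2),
      HasDerivAt (fun y : ℝ => e (l * y) / (2 * Real.pi * Complex.I * (l : ℝ))) (e (l * x)) x := by
    intro x _
    have := (hasDerivAt_e_comp ((hasDerivAt_id x).const_mul (l : ℝ))).div_const
      (2 * Real.pi * Complex.I * (l : ℝ))
    refine this.congr_deriv ?_
    rw [mul_one, id, mul_div_cancel_left₀ _ hc]
  rw [intervalIntegral.integral_eq_sub_of_hasDerivAt h1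
    (Continuous.intervalIntegrable (by fun_prop) _ _),
    show (l : ℝ) * (1 / 2) = l * -(1 / 2) + l by ring, e_add, e_int, mul_one, sub_self]

lemma integral_Fj {n : ℕ} (hn : 0 < n) : ∫ x in (-(1 / 2) : ℝ)..(1 / 2), Fj n x = 1 := by
  apply Complex.ofReal_injective
  rw [← intervalIntegral.integral_ofReal]
  simp only [Fj_eq]
  rw [intervalIntegral.integral_div, intervalIntegral.integral_finsetSum
    fun j _ => Continuous.intervalIntegrable (by fun_prop) _ _]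
  have h1 : ∀ j ∈ Finset.range n, ∫ x in (-(1 / 2) : ℝ)..(1 / 2),
      ∑ k ∈ Finset.range n, e ((((j : ℤ) - k : ℤ) : ℝ) * x) = 1 := by
    intro j hj
    rw [intervalIntegral.integral_finsetSum
      fun j _ => Continuous.intervalIntegrable (by fun_prop) _ _]
    simp only [integral_e_int]
    rw [Finset.sum_eq_single j (fun k _ hk => if_neg (by omega)) (fun h => absurd hj h), if_pos]
    omega
  rw [Finset.sum_congr rfl h1]
  have : (n : ℂ) ≠ 0 := by exact_mod_cast hn.ne'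
  simp [this]

lemma integral_abs_mul_Fj {q : ℕ} (hq : 0 < q) :
    ∫ x in (-(1 / 2) : ℝ)..(1 / 2), |x| * Fj (q ^ 2) x ≤ 2 / q := by
  have hq' : (0 : ℝ) < q := by exact_mod_cast hq
  calc _ ≤ ∫ x in (-(1 / 2) : ℝ)..(1 / 2), (1 / q * Fj (q ^ 2) x + 1 / q) := by
        refine intervalIntegral.integral_mono_on (by norm_num)
          (Continuous.intervalIntegrable (by fun_prop) _ _)
          (Continuous.intervalIntegrable (by fun_prop) _ _) fun x hx => ?_
        have h1 := sq_mul_Fj_le (n := q ^ 2) (abs_le.mpr ⟨hx.1, hx.2⟩)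
        have h2 := Fj_nonneg (q ^ 2) x
        have h3 : |x| ≤ 1 / q + q * x ^ 2 := by
          rw [← sq_abs x, div_add' _ _ _ hq'.ne', le_div_iff₀ hq']
          nlinarith [sq_nonneg (|x| * q - 1), sq_nonneg (|x| * q)]
        have h4 : q * (x ^ 2 * Fj (q ^ 2) x) ≤ 1 / q := by
          refine (mul_le_mul_of_nonneg_left h1 hq'.le).trans (le_of_eq ?_)
          push_cast; field_simp
        nlinarith [mul_le_mul_of_nonneg_right h3 h2]
    _ = _ := by
        rw [intervalIntegral.integral_add (Continuous.intervalIntegrable (by fun_prop) _ _)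
          (Continuous.intervalIntegrable (by fun_prop) _ _), intervalIntegral.integral_const_mul,
          integral_Fj (by positivity)]
        simp; ring

/-- one period -/
lemma period {g : ℝ → ℂ} {Lp : ℝ} (hL : 0 ≤ Lp) (hc : Continuous g)
    (hg : ∀ x y, ‖g x - g y‖ ≤ Lp * |x - y|) {q : ℕ} (hq : 0 < q) (m : ℤ) :
    ‖g m - ∫ x in ((m : ℝ) - 1 / 2)..(m + 1 / 2), g x * Fj (q ^ 2) x‖ ≤ Lp * (2 / q) := by
  have h1 : ∫ x in ((m : ℝ) - 1 / 2)..(m + 1 / 2), g x * Fj (q ^ 2) x =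
      ∫ x in (-(1 / 2) : ℝ)..(1 / 2), g (x + m) * Fj (q ^ 2) x := by
    rw [show (m : ℝ) - 1 / 2 = -(1 / 2) + m by ring, add_comm (m : ℝ),
      ← intervalIntegral.integral_comp_add_right (fun x => g x * Fj (q ^ 2) x)]
    simp only [Fj_add_int]
  have h2 : g m = ∫ x in (-(1 / 2) : ℝ)..(1 / 2), g m * Fj (q ^ 2) x := by
    rw [intervalIntegral.integral_const_mul, intervalIntegral.integral_ofReal,
      integral_Fj (by positivity)]
    simp
  rw [h1, h2, ← intervalIntegral.integral_sub (Continuous.intervalIntegrable (by fun_prop) _ _)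
    (Continuous.intervalIntegrable (by fun_prop) _ _)]
  refine (intervalIntegral.norm_integral_le_of_norm_le (by norm_num)
    (g := fun x => Lp * (|x| * Fj (q ^ 2) x)) (Filter.Eventually.of_forall fun x _ => ?_)
    (Continuous.intervalIntegrable (by fun_prop) _ _)).trans ?_
  · rw [← sub_mul, norm_mul, Complex.norm_real, Real.norm_eq_abs,
      abs_of_nonneg (Fj_nonneg _ _), ← mul_assoc]
    refine mul_le_mul_of_nonneg_right ?_ (Fj_nonneg _ _)
    simpa using hg m (x + m)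
  · rw [intervalIntegral.integral_const_mul]
    exact mul_le_mul_of_nonneg_left (integral_abs_mul_Fj hq) hL

/-- the sum against the smoothed integral -/
lemma sum_sub_integral {g : ℝ → ℂ} {a b Lp : ℝ} (hab : a ≤ b) (hL : 0 ≤ Lp) (hs : Supp a b g)
    (hc : Continuous g) (hg : ∀ x y, ‖g x - g y‖ ≤ Lp * |x - y|) {q : ℕ} (hq : 0 < q)
    {s : Finset ℤ} (hcov : Cov s a b) :
    ‖∑ n ∈ s, g n - ∫ x in a..b, g x * Fj (q ^ 2) x‖ ≤ (b - a + 3) * (Lp * (2 / q)) := by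
  classical
  set N := ⌈b - a⌉₊ + 2 with hN
  have hN1 : (N : ℝ) ≤ b - a + 3 := by
    have := (Nat.ceil_lt_add_one (sub_nonneg.mpr hab)).le
    rw [hN]; push_cast; linarith
  have hN2 : b - a + 2 ≤ N := by
    have := Nat.le_ceil (b - a)
    rw [hN]; push_cast; linarith
  have f1 := Int.floor_le a
  have f2 := Int.lt_floor_add_one a
  have hsup : ∀ p r : ℝ, p ≤ a → b ≤ r →
      ∫ x in p..r, g x * Fj (q ^ 2) x = ∫ x, g x * Fj (q ^ 2) x := fun p r hp hr => by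
    refine intervalIntegral.integral_eq_integral_of_support_subset fun x hx => ?_
    by_contra h
    refine hx ?_
    have : x ≤ a ∨ b ≤ x := by
      rw [mem_Ioc, not_and_or, not_lt, not_le] at h
      rcases h with h | h
      · left; linarith
      · right; linarith
    simp [hs x this]
  have h1 : ∑ n ∈ s, g n = ∑ k ∈ Finset.range N, g ((⌊a⌋ + k : ℤ) : ℝ) := by
    rw [← Finset.sum_image (s := Finset.range N) (g := fun k : ℕ => (⌊a⌋ + k : ℤ))
      (f := fun n : ℤ => g n) fun _ _ _ _ h => by simpa using h]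
    refine sum_eq_of_supp _ (fun n hn => hs _ ?_) fun n hn => hs _ ?_
    · by_contra h
      push Not at h
      exact hn (hcov n h.1 h.2)
    · by_contra h
      push Not at h
      refine hn (Finset.mem_image.mpr ⟨(n - ⌊a⌋).toNat, Finset.mem_range.mpr ?_, ?_⟩)
      · have : (n : ℝ) - ⌊a⌋ < N := by linarith
        have : n - ⌊a⌋ < N := by exact_mod_cast this
        have : ⌊a⌋ < n := by exact_mod_cast f1.trans_lt h.1
        omega
      · have : ⌊a⌋ < n := by exact_mod_cast f1.trans_lt h.1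
        omega
  have h2 := intervalIntegral.sum_integral_adjacent_intervals (μ := volume)
    (f := fun x => g x * Fj (q ^ 2) x) (a := fun k : ℕ => (⌊a⌋ : ℝ) + k - 1 / 2) (n := N)
    fun k _ => Continuous.intervalIntegrable (by fun_prop) _ _
  rw [hsup _ _ (by push_cast; linarith) (by linarith), ← hsup a b le_rfl le_rfl] at h2
  rw [h1, ← h2, ← Finset.sum_sub_distrib]
  refine (norm_sum_le _ _).trans
    ((Finset.sum_le_card_nsmul _ _ (Lp * (2 / q)) fun k _ => ?_).trans ?_)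
  · have := period hL hc hg hq (⌊a⌋ + k)
    rw [show ((k + 1 : ℕ) : ℝ) = k + 1 from Nat.cast_succ k,
      show (⌊a⌋ : ℝ) + (k + 1) - 1 / 2 = ⌊a⌋ + k + 1 / 2 by ring]
    simpa only [Int.cast_add, Int.cast_natCast] using this
  · rw [Finset.card_range, nsmul_eq_mul]; gcongr

lemma sum_natAbs_le (f : ℕ → ℝ) (hf : ∀ m, 0 ≤ f m) (l1 n : ℕ) :
    ∑ l ∈ Finset.Icc (-(n : ℤ)) n \ Finset.Icc (-(l1 : ℤ)) l1, f l.natAbs ≤
      2 * ∑ m ∈ Finset.Ioc l1 n, f m := by
  classical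
  rw [← Finset.sum_fiberwise_of_maps_to (g := Int.natAbs) (t := Finset.Ioc l1 n) fun l hl => by
    simp only [Finset.mem_sdiff, Finset.mem_Icc, Finset.mem_Ioc] at hl ⊢; omega, Finset.mul_sum]
  refine Finset.sum_le_sum fun m _ => ?_
  rw [Finset.sum_congr rfl (g := fun _ => f m) fun l hl => by rw [(Finset.mem_filter.mp hl).2],
    Finset.sum_const, nsmul_eq_mul]
  refine mul_le_mul_of_nonneg_right ?_ (hf m)
  have : (Finset.filter (fun l : ℤ => l.natAbs = m)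
      (Finset.Icc (-(n : ℤ)) n \ Finset.Icc (-(l1 : ℤ)) l1)).card ≤ 2 := by
    refine le_trans (Finset.card_le_card (t := {(m : ℤ), -(m : ℤ)}) fun l hl => ?_)
      Finset.card_le_two
    have := (Finset.mem_filter.mp hl).2
    simp only [Finset.mem_insert, Finset.mem_singleton]; omega
  exact_mod_cast this

/-- Cesaro mean against the central block -/
lemma cesaro (I : ℤ → ℂ) {n l1 : ℕ} (hn : 0 < n) {A : ℝ} (hA : ∀ l, ‖I l‖ ≤ A) :
    ‖(∑ j ∈ Finset.range n, ∑ k ∈ Finset.range n, I ((j : ℤ) - k)) / n -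
      ∑ l ∈ Finset.Icc (-(l1 : ℤ)) l1, I l‖ ≤
      ∑ l ∈ Finset.Icc (-(n : ℤ)) n \ Finset.Icc (-(l1 : ℤ)) l1, ‖I l‖ +
        2 * l1 * ((2 * l1 + 1) * A) / n := by
  classical
  have hn' : (0 : ℝ) < n := by exact_mod_cast hn
  have hnc : (n : ℂ) ≠ 0 := by exact_mod_cast hn.ne'
  have A0 : 0 ≤ A := (norm_nonneg _).trans (hA 0)
  set B := Finset.Icc (-(l1 : ℤ)) l1 with hB
  set Tl := ∑ l ∈ Finset.Icc (-(n : ℤ)) n \ B, ‖I l‖ with hT
  have h1 : ∀ j ∈ Finset.range n, ‖∑ k ∈ Finset.range n, I ((j : ℤ) - k) - ∑ l ∈ B, I l‖ ≤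
      Tl + if j ∈ Finset.range l1 ∪ Finset.Ico (n - l1) n then (2 * l1 + 1) * A else 0 := by
    intro j hj
    have hj := Finset.mem_range.mp hj
    rw [← Finset.sum_image (s := Finset.range n) (g := fun k : ℕ => (j : ℤ) - k) (f := I)
      fun _ _ _ _ h => by simpa using h, ← Finset.sum_sdiff_sub_sum_sdiff]
    refine (norm_sub_le _ _).trans (add_le_add ((norm_sum_le _ _).trans ?_)
      ((norm_sum_le _ _).trans ?_))
    · refine Finset.sum_le_sum_of_subset_of_nonneg (Finset.sdiff_subset_sdiff (fun l hl => ?_)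
        subset_rfl) fun _ _ _ => norm_nonneg _
      obtain ⟨k, hk, rfl⟩ := Finset.mem_image.mp hl
      have := Finset.mem_range.mp hk
      rw [Finset.mem_Icc]; omega
    · split_ifs with h
      · refine (Finset.sum_le_card_nsmul _ _ A fun l _ => hA l).trans ?_
        rw [nsmul_eq_mul]
        refine mul_le_mul_of_nonneg_right ?_ A0
        have : (B \ (Finset.range n).image fun k : ℕ => (j : ℤ) - k).card ≤ 2 * l1 + 1 := by
          refine (Finset.card_le_card Finset.sdiff_subset).trans ?_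
          rw [hB, Int.card_Icc]; omega
        exact_mod_cast this
      · rw [Finset.sdiff_eq_empty_iff_subset.mpr, Finset.sum_empty]
        intro l hl
        simp only [Finset.mem_union, Finset.mem_range, Finset.mem_Ico, not_or] at h
        rw [hB, Finset.mem_Icc] at hl
        exact Finset.mem_image.mpr ⟨(j - l).toNat, Finset.mem_range.mpr (by omega), by omega⟩
  have h2 : (∑ j ∈ Finset.range n, ∑ k ∈ Finset.range n, I ((j : ℤ) - k)) / n - ∑ l ∈ B, I l =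
      (∑ j ∈ Finset.range n, (∑ k ∈ Finset.range n, I ((j : ℤ) - k) - ∑ l ∈ B, I l)) / n := by
    rw [Finset.sum_sub_distrib, Finset.sum_const, Finset.card_range, nsmul_eq_mul]; field_simp
  rw [h2, norm_div, Complex.norm_natCast, div_le_iff₀ hn', add_mul, div_mul_cancel₀ _ hn'.ne']
  refine (norm_sum_le _ _).trans ((Finset.sum_le_sum h1).trans ?_)
  rw [Finset.sum_add_distrib, Finset.sum_const, Finset.card_range, nsmul_eq_mul, mul_comm Tl,
    ← Finset.sum_filter, Finset.sum_const, nsmul_eq_mul]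
  gcongr
  have : ((Finset.range n).filter (· ∈ Finset.range l1 ∪ Finset.Ico (n - l1) n)).card ≤ 2 * l1 := by
    refine (Finset.card_le_card fun j hj => (Finset.mem_filter.mp hj).2).trans
      ((Finset.card_union_le _ _).trans ?_)
    rw [Finset.card_range, Nat.card_Ico]; omega
  exact_mod_cast this

lemma lip {a b S μ Y : ℝ} {ω ω1 : ℝ → ℂ} {φ φ1 φ2 : ℝ → ℝ} (hab : a ≤ b)
    (hA : Amp a b S μ ω ω1) (hs : Supp a b ω) (hP : Ph a b φ φ1 φ2)
    (hY : ∀ x ∈ Icc a b, |φ1 x| ≤ Y) (x y : ℝ) :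
    ‖ω x * e (φ x) - ω y * e (φ y)‖ ≤ (μ + S * (7 * Y)) * |x - y| := by
  have ha : a ∈ Icc a b := ⟨le_rfl, hab⟩
  have S0 : 0 ≤ S := (norm_nonneg _).trans (hA.b0 a ha)
  have μ0 : 0 ≤ μ := (norm_nonneg _).trans (hA.b1 a ha)
  have Y0 : 0 ≤ Y := (abs_nonneg _).trans (hY a ha)
  have h1 : ∀ x, ω x * e (φ x) = ω (projIcc a b hab x) * e (φ (projIcc a b hab x)) := by
    intro x
    by_cases h : x ≤ a
    · rw [projIcc_of_le_left _ h, hs x (Or.inl h), hs a (Or.inl le_rfl)]; simp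
    by_cases h' : b ≤ x
    · rw [projIcc_of_right_le _ h', hs x (Or.inr h'), hs b (Or.inr le_rfl)]; simp
    rw [projIcc_of_mem hab ⟨by linarith, by linarith⟩]
  have h2 := (convex_Icc a b).norm_image_sub_le_of_norm_hasDerivWithin_le
    (f := fun x => ω x * e (φ x))
    (f' := fun x => ω1 x * e (φ x) + ω x * (2 * Real.pi * Complex.I * φ1 x * e (φ x)))
    (C := μ + S * (7 * Y)) (x := projIcc a b hab y) (y := projIcc a b hab x)
    (fun z hz => ((hA.der z hz).mul (hasDerivAt_e_comp (hP.d0 z hz))).hasDerivWithinAt)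
    (fun z hz => by
      refine (norm_add_le _ _).trans (add_le_add (by simpa using hA.b1 z hz) ?_)
      rw [norm_mul]
      refine mul_le_mul (hA.b0 z hz) ?_ (norm_nonneg _) S0
      simp only [norm_mul, norm_e, Complex.norm_real, Complex.norm_I, Real.norm_eq_abs,
        Complex.norm_ofNat, mul_one, abs_of_pos Real.pi_pos]
      have := Real.pi_lt_d2
      exact mul_le_mul (by linarith) (hY z hz) (abs_nonneg _) (by norm_num))
    (Subtype.coe_prop _) (Subtype.coe_prop _)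
  rw [h1 x, h1 y]
  refine h2.trans (mul_le_mul_of_nonneg_left ?_ (by positivity))
  exact abs_projIcc_sub_projIcc hab

lemma ph_add {a b : ℝ} {φ φ1 φ2 : ℝ → ℝ} (hP : Ph a b φ φ1 φ2) (c : ℝ) :
    Ph a b (fun x => φ x + c * x) (fun x => φ1 x + c) φ2 :=
  ⟨fun x hx => by simpa using (hP.d0 x hx).fun_add ((hasDerivAt_id x).const_mul c),
    fun x hx => (hP.d1 x hx).add_const c⟩

lemma tail (hi : IbpS) {a b S μ Y Λ c : ℝ} {ω ω1 : ℝ → ℂ} {φ φ1 φ2 : ℝ → ℝ} (hab : a ≤ b)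
    (hA : Amp a b S μ ω ω1) (hs : Supp a b ω) (hP : Ph a b φ φ1 φ2)
    (hY : ∀ x ∈ Icc a b, |φ1 x| ≤ Y) (hΛ : ∀ x ∈ Icc a b, |φ2 x| ≤ Λ) (hc : 2 * Y ≤ |c|)
    (hc0 : 0 < |c|) :
    ‖∫ x in a..b, ω x * e (φ x + c * x)‖ ≤ (b - a) * (2 * μ / |c| + 4 * (S * Λ) / |c| ^ 2) := by
  have h1 : ∀ x ∈ Icc a b, |c| / 2 ≤ |φ1 x + c| := fun x hx => by
    have := abs_sub_abs_le_abs_sub c (-φ1 x)
    rw [abs_neg, sub_neg_eq_add, add_comm c] at this
    linarith [hY x hx]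
  have := hi a b ω ω1 _ _ φ2 (fun x => x * (2 * μ / |c| + 4 * (S * Λ) / |c| ^ 2))
    (fun _ => 2 * μ / |c| + 4 * (S * Λ) / |c| ^ 2) hab hA.der (ph_add hP c)
    (fun x hx h => by have := h1 x hx; rw [h, abs_zero] at this; linarith)
    (fun x _ => by simpa using (hasDerivAt_id x).mul_const _)
    (fun x hx => by
      have S0 : 0 ≤ S := (norm_nonneg _).trans (hA.b0 x hx)
      have μ0 : 0 ≤ μ := (norm_nonneg _).trans (hA.b1 x hx)
      have Λ0 : 0 ≤ Λ := (abs_nonneg _).trans (hΛ x hx)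
      have b0 := hA.b0 x hx
      have b1 := hA.b1 x hx
      have b2 := hΛ x hx
      have b3 := h1 x hx
      rw [← sq_abs (φ1 x + c)]
      calc _ ≤ μ / (|c| / 2) + S * Λ / (|c| / 2) ^ 2 := by gcongr
        _ = _ := by field_simp; ring)
  rw [hs a (Or.inl le_rfl), hs b (Or.inr le_rfl)] at this
  refine this.trans (le_of_eq ?_)
  simp only [norm_zero, zero_div, zero_add]; ring

end PoisAux

open PoisAux in
theorem ps (hi : IbpS) : PsS := by
  refine ⟨44, by norm_num, ?_⟩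
  intro a b S μ Y Λ Z ω ω1 φ φ1 φ2 l1 s hab hA hs hP hY hΛ hl hZ z1 z2 z3 z4 hcov
  have ha : a ∈ Icc a b := ⟨le_rfl, hab⟩
  have S0 : 0 ≤ S := (norm_nonneg _).trans (hA.b0 a ha)
  have μ0 : 0 ≤ μ := (norm_nonneg _).trans (hA.b1 a ha)
  have Y0 : 0 ≤ Y := (abs_nonneg _).trans (hY a ha)
  have Λ0 : 0 ≤ Λ := (abs_nonneg _).trans (hΛ a ha)
  have D0 : 0 ≤ b - a := sub_nonneg.mpr hab
  have Z0 : 0 < Z := by linarith
  have Z1 : 1 ≤ Z := by linarith
  have hlog : 1 ≤ Real.log Z := by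
    rw [Real.le_log_iff_exp_le Z0]; linarith [Real.exp_one_lt_d9]
  set g : ℝ → ℂ := fun x => ω x * e (φ x) with hg
  have hL := lip hab hA hs hP hY
  have L0 : 0 ≤ μ + S * (7 * Y) := by positivity
  have hc : Continuous g := (LipschitzWith.of_dist_le_mul (K := ⟨_, L0⟩) fun x y => by
    rw [dist_eq_norm, Real.dist_eq]; exact hL x y).continuous
  set q := ⌈Z ^ 4⌉₊ with hq
  have q1 : Z ^ 4 ≤ q := Nat.le_ceil _
  have q2 : (q : ℝ) ≤ Z ^ 5 := by
    have h1 := (Nat.ceil_lt_add_one (show 0 ≤ Z ^ 4 by positivity)).le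
    have h2 : 1 ≤ Z ^ 4 := one_le_pow₀ Z1
    have h3 : Z ^ 4 * 3 ≤ Z ^ 4 * Z := by gcongr
    rw [pow_succ Z 4]; linarith
  have q0 : 0 < q := Nat.ceil_pos.mpr (by positivity)
  have q0' : (0 : ℝ) < q := by exact_mod_cast q0
  set I : ℤ → ℂ := fun l => ∫ x in a..b, ω x * e (φ x + l * x) with hI
  have hI' : ∀ l : ℤ, I l = ∫ x in a..b, g x * e (l * x) := fun l => by
    simp only [hI, hg, e_add, mul_assoc]
  have e1 := sum_sub_integral hab L0 (g := g) (fun x hx => by simp [hg, hs x hx]) hc hL q0 hcov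
  have e2 : ∫ x in a..b, g x * Fj (q ^ 2) x = (∑ j ∈ Finset.range (q ^ 2),
      ∑ k ∈ Finset.range (q ^ 2), I ((j : ℤ) - k)) / (q ^ 2 : ℕ) := by
    simp only [Fj_eq, ← mul_div_assoc, Finset.mul_sum, hI']
    rw [intervalIntegral.integral_div, intervalIntegral.integral_finsetSum
      fun j _ => Continuous.intervalIntegrable (by fun_prop) _ _]
    congr 1
    exact Finset.sum_congr rfl fun j _ => intervalIntegral.integral_finsetSum
      fun k _ => Continuous.intervalIntegrable (by fun_prop) _ _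
  have e3 := cesaro I (n := q ^ 2) (l1 := l1) (by positivity) (A := S * (b - a)) fun l => by
    have := intervalIntegral.norm_integral_le_of_norm_le_const (a := a) (b := b) (C := S)
      (f := fun x => ω x * e (φ x + l * x)) fun x hx => by
        rw [uIoc_of_le hab] at hx
        simpa using hA.b0 x ⟨hx.1.le, hx.2⟩
    rwa [abs_of_nonneg D0] at this
  have e4 : ∑ l ∈ Finset.Icc (-((q ^ 2 : ℕ) : ℤ)) (q ^ 2 : ℕ) \ Finset.Icc (-(l1 : ℤ)) l1, ‖I l‖ ≤
      44 * ((b - a) * μ * Real.log Z) + 16 * ((b - a) * S * Λ / (l1 + 1)) := by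
    have h1 := sum_natAbs_le (fun m => (b - a) * (2 * μ / m + 4 * (S * Λ) / m ^ 2))
      (fun m => by positivity) l1 (q ^ 2)
    refine le_trans (Finset.sum_le_sum fun l hl => ?_) (h1.trans ?_)
    · have h2 : (l1 : ℝ) + 1 ≤ |(l : ℝ)| := by
        simp only [Finset.mem_sdiff, Finset.mem_Icc] at hl
        have : (l1 : ℤ) + 1 ≤ |l| := by rw [le_abs]; omega
        exact_mod_cast this
      have h3 : (0 : ℝ) ≤ l1 := Nat.cast_nonneg _
      have := tail hi hab hA hs hP hY hΛ (c := l) (by linarith) (by linarith)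
      rwa [Nat.cast_natAbs, Int.cast_abs]
    · have h2 : ∑ m ∈ Finset.Ioc l1 (q ^ 2), 1 / (m : ℝ) ≤ 11 * Real.log Z := by
        refine le_trans (Finset.sum_le_sum_of_subset_of_nonneg (fun m hm => ?_)
          fun _ _ _ => by positivity) ((sum_inv_le (q ^ 2)).trans ?_)
        · simp only [Finset.mem_Ioc, Finset.mem_Icc] at hm ⊢; omega
        · have := Real.log_le_log q0' q2
          rw [Real.log_pow] at this
          rw [Nat.cast_pow, Real.log_pow]
          push_cast at this ⊢; linarith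
      have h3 : ∑ m ∈ Finset.Ioc l1 (q ^ 2), ((m : ℝ) ^ 2)⁻¹ ≤ 2 / (l1 + 1) := by
        have := sum_Ioo_inv_sq_le (α := ℝ) l1 (q ^ 2 + 1)
        rwa [show Finset.Ioo l1 (q ^ 2 + 1) = Finset.Ioc l1 (q ^ 2) by
          ext m; simp only [Finset.mem_Ioo, Finset.mem_Ioc]; omega] at this
      calc _ = 4 * ((b - a) * μ) * ∑ m ∈ Finset.Ioc l1 (q ^ 2), 1 / (m : ℝ) +
            8 * ((b - a) * S * Λ) * ∑ m ∈ Finset.Ioc l1 (q ^ 2), ((m : ℝ) ^ 2)⁻¹ := by
            simp only [Finset.mul_sum, ← Finset.sum_add_distrib]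
            exact Finset.sum_congr rfl fun m _ => by ring
        _ ≤ 4 * ((b - a) * μ) * (11 * Real.log Z) + 8 * ((b - a) * S * Λ) * (2 / (l1 + 1)) := by
            gcongr
        _ = _ := by ring
  have e5 : (b - a + 3) * ((μ + S * (7 * Y)) * (2 / q)) ≤ 20 * (1 / Z) := by
    have h1 : Z * 1 ≤ Z * Z := by gcongr
    have h2 : S * (7 * Y) ≤ Z * (4 * Z) := mul_le_mul z2 (by linarith) (by positivity) Z0.le
    calc _ ≤ (2 * Z) * ((5 * Z ^ 2) * (2 / Z ^ 4)) := by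
          gcongr
          · linarith
          · nlinarith
      _ = _ := by field_simp; norm_num
  have e6 : 2 * l1 * ((2 * l1 + 1) * (S * (b - a))) / ((q ^ 2 : ℕ) : ℝ) ≤ 4 * (1 / Z) := by
    have h3 : (0 : ℝ) ≤ l1 := Nat.cast_nonneg _
    have h4 : Z ^ 5 ≤ (q : ℝ) ^ 2 := by
      calc Z ^ 5 ≤ Z ^ 8 := pow_le_pow_right₀ Z1 (by norm_num)
        _ = (Z ^ 4) ^ 2 := by ring
        _ ≤ _ := by gcongr
    rw [Nat.cast_pow]
    calc _ ≤ 2 * Z * ((2 * Z) * (Z * Z)) / Z ^ 5 := by gcongr <;> linarith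
      _ = _ := by field_simp; norm_num
  rw [e2] at e1
  refine (norm_sub_le_norm_sub_add_norm_sub _ _ _).trans ((add_le_add e1 e3).trans ?_)
  have : 0 ≤ (b - a) * S * Λ / (l1 + 1) := by positivity
  have : 0 ≤ 1 / Z := by positivity
  linarith

end Pool.Agent.Lib.MP_80d0cf_nt.Up
end

-- part Pool.Agent.Lib.MP_80d0cf_nt.Up.Bp
section

/-! The B process. -/

open Set MeasureTheory

namespace Pool.Agent.Lib.MP_80d0cf_nt.Up

open PoisAux in
theorem bp (hp : PsS) (h1 : Sp1S) (h2 : Sp2S) : BpS := by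
  intro κ hκ
  obtain ⟨Cp, Cp0, hp⟩ := hp
  obtain ⟨C1, C10, h1⟩ := h1 κ hκ
  obtain ⟨C2, C20, h2⟩ := h2 κ hκ
  refine ⟨Cp * (3 + κ) + 15 * (C1 + C2), by positivity, ?_⟩
  intro a b l μ Y Z ω ω1 φ φ1 φ2 φ3 s t mn hab hl hd hμ hs hP hY hbl hZ z1 z2 z3 hcov m1 m2 m3
  have ha : a ∈ Icc a b := ⟨le_rfl, hab⟩
  have μ0 : 0 ≤ μ := (norm_nonneg _).trans (hμ a ha)
  have Y0 : 0 ≤ Y := (abs_nonneg _).trans (hY a ha)
  have D0 : 0 ≤ b - a := sub_nonneg.mpr hab
  have Z0 : 0 < Z := by linarith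
  have hlog : 1 ≤ Real.log Z := by
    rw [Real.le_log_iff_exp_le Z0]; linarith [Real.exp_one_lt_d9]
  have wa : ω a = 0 := hs a (Or.inl le_rfl)
  have wb : ω b = 0 := hs b (Or.inr le_rfl)
  set l1 := ⌈2 * Y⌉₊ with hl1
  have c1 : 2 * Y ≤ l1 := Nat.le_ceil _
  have c2 : (l1 : ℝ) ≤ 2 * Y + 1 := (Nat.ceil_lt_add_one (by positivity)).le
  have hZZ : Z * 3 ≤ Z * Z := by gcongr
  have y1 : Z ≤ 3 * Z ^ 2 := by nlinarith
  have y2 : Real.log (3 * Z ^ 2) ≤ 3 * Real.log Z := by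
    have : Real.log (3 * Z ^ 2) ≤ Real.log (Z ^ 3) :=
      Real.log_le_log (by positivity) (by nlinarith)
    rwa [Real.log_pow, Nat.cast_ofNat] at this
  have hA : Amp a b (μ * (b - a)) μ ω ω1 := by
    refine ⟨hd, fun x hx => ?_, hμ⟩
    have := (convex_Icc a b).norm_image_sub_le_of_norm_hasDerivWithin_le
      (fun z hz => (hd z hz).hasDerivWithinAt) hμ ha hx
    rw [wa, sub_zero, Real.norm_eq_abs, abs_of_nonneg (sub_nonneg.mpr hx.1)] at this
    exact this.trans (by gcongr; exact hx.2)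
  have e1 := hp a b _ μ Y (κ * l) (3 * Z ^ 2) ω ω1 φ φ1 φ2 l1 s hab hA hs hP.ph hY
    (fun x hx => by rw [abs_of_pos (hl.trans_le (hP.lo x hx))]; exact hP.hi x hx)
    (by linarith) (by linarith) (by linarith)
    (by have : μ * (b - a) ≤ Z * Z := by gcongr
        nlinarith) (by linarith) (by nlinarith) hcov
  have hsq : (b - a) * √l ≤ 3 * Z ^ 2 := by
    have h3 : ((b - a) * √l) ^ 2 ≤ (2 * Z) ^ 2 := by
      rw [mul_pow, Real.sq_sqrt hl.le, sq, mul_assoc]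
      have : (b - a) * ((b - a) * l) ≤ Z * (Z + 1) := by gcongr; linarith
      nlinarith
    have := (pow_le_pow_iff_left₀ (by positivity) (by positivity) two_ne_zero).mp h3
    nlinarith
  have e2 : ∀ m : ℤ, ‖(∫ x in a..b, ω x * e (φ x + m * x)) - mn m‖ ≤
      (C1 + C2) * (μ / l * (3 * Real.log Z)) := by
    intro m
    have hP' : Ph3 a b l κ (fun x => φ x + m * x) (fun x => φ1 x + m) φ2 φ3 :=
      ⟨ph_add hP.ph m, hP.d2, hP.lo, hP.hi, hP.h3⟩
    by_cases h : ∃ x ∈ Icc a b, φ1 x + m = 0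
    · obtain ⟨x, hx, h⟩ := h
      rw [m1 m x hx h]
      refine (h1 a b l μ _ x ω ω1 _ _ φ2 φ3 hab hl hd hμ wa wb hP' (by linarith) hsq hx h).trans ?_
      have : 0 ≤ Real.log (3 * Z ^ 2) := Real.log_nonneg (by linarith)
      gcongr; linarith
    · push Not at h
      rw [m2 m h, sub_zero]
      refine (h2 a b l μ _ ω ω1 _ _ φ2 φ3 hab hl hd hμ wa wb hP' (by linarith) hsq h).trans ?_
      have : 0 ≤ Real.log (3 * Z ^ 2) := Real.log_nonneg (by linarith)
      gcongr; linarith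
  have e3 : ∑ m ∈ t, mn m = ∑ m ∈ Finset.Icc (-(l1 : ℤ)) l1, mn m := by
    refine sum_eq_of_supp mn m3 fun m hm => m2 m fun x hx h => ?_
    have h3 : (l1 : ℝ) < |(m : ℝ)| := by
      rw [Finset.mem_Icc] at hm
      have : (l1 : ℤ) < |m| := by rw [lt_abs]; omega
      exact_mod_cast this
    have h4 := hY x hx
    rw [eq_neg_of_add_eq_zero_left h, abs_neg] at h4
    linarith
  have e4 : ‖(∑ m ∈ Finset.Icc (-(l1 : ℤ)) l1, ∫ x in a..b, ω x * e (φ x + m * x)) -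
      ∑ m ∈ Finset.Icc (-(l1 : ℤ)) l1, mn m‖ ≤
      15 * (C1 + C2) * ((Y + 1) * μ / l * Real.log Z) := by
    rw [← Finset.sum_sub_distrib]
    refine (norm_sum_le _ _).trans ((Finset.sum_le_card_nsmul _ _ _ fun m _ => e2 m).trans ?_)
    have h3 : ((Finset.Icc (-(l1 : ℤ)) l1).card : ℝ) ≤ 5 * (Y + 1) := by
      rw [Int.card_Icc, show ((l1 : ℤ) + 1 - -(l1 : ℤ)).toNat = 2 * l1 + 1 by omega]
      push_cast; linarith
    rw [nsmul_eq_mul]
    calc _ ≤ 5 * (Y + 1) * ((C1 + C2) * (μ / l * (3 * Real.log Z))) := by gcongr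
      _ = _ := by ring
  rw [e3]
  refine (norm_sub_le_norm_sub_add_norm_sub _ _ _).trans ((add_le_add e1 e4).trans ?_)
  set P := (b - a) * μ * Real.log Z with hPd
  set Q := (Y + 1) * μ / l * Real.log Z with hQ
  have P0 : 0 ≤ P := by positivity
  have Q0 : 0 ≤ Q := by positivity
  have R0 : 0 ≤ 1 / Z := by positivity
  have f1 : (b - a) * μ * Real.log (3 * Z ^ 2) ≤ 3 * P := by
    calc _ ≤ (b - a) * μ * (3 * Real.log Z) := by gcongr
      _ = _ := by rw [hPd]; ring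
  have f2 : (b - a) * (μ * (b - a)) * (κ * l) / (l1 + 1) ≤ κ * P := by
    rw [div_le_iff₀ (by positivity)]
    calc _ = κ * ((b - a) * μ * 1) * ((b - a) * l) := by ring
      _ ≤ _ := by rw [hPd]; gcongr; linarith
  have f3 : 1 / (3 * Z ^ 2) ≤ 1 / Z := by gcongr
  rw [add_mul ((Y + 1) * μ / l), ← hPd, ← hQ]
  have f4 : Cp * ((b - a) * μ * Real.log (3 * Z ^ 2) +
      (b - a) * (μ * (b - a)) * (κ * l) / (l1 + 1) + 1 / (3 * Z ^ 2)) ≤
      Cp * ((3 + κ) * (Q + P + 1 / Z)) := by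
    refine mul_le_mul_of_nonneg_left ?_ Cp0.le
    have := mul_nonneg (show 0 ≤ 3 + κ by linarith) Q0
    have := mul_nonneg (show 0 ≤ 2 + κ by linarith) R0
    linarith
  have f5 : 15 * (C1 + C2) * Q ≤ 15 * (C1 + C2) * (Q + P + 1 / Z) := by gcongr; linarith
  linarith

end Pool.Agent.Lib.MP_80d0cf_nt.Up
end
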