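import Pool.Agent.Lib.MP_80d0cf_nt.Up.Api

/-! The sum of a product of four dual terms. -/

open Set MeasureTheory ComplexConjugate

namespace Pool.Agent.Lib.MP_80d0cf_nt.Up

namespace JbAux

lemma wt1 {P1 P : ℝ} (h1 : 1 ≤ P1) (hP : 0 ≤ P) : 1 / (1 + P) ≤ wt P1 P := by
  refine le_min ?_ ?_
  · refine one_div_le_one_div_of_le (Real.sqrt_pos.2 (by linarith)) ?_
    exact Real.sqrt_le_iff.2 ⟨by linarith, by nlinarith⟩
  · exact div_le_div_of_nonneg_right (Real.one_le_sqrt.2 h1) (by linarith)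

lemma wt2 {P1 P : ℝ} (h1 : 1 ≤ P1) (hP : 0 ≤ P) (hPP : P ≤ P1) :
    1 / √(1 + P) ≤ 2 * wt P1 P := by
  have h0 : 0 < √(1 + P) := Real.sqrt_pos.2 (by linarith)
  have h2 : √(1 + P) ≤ 2 * √P1 := by
    refine Real.sqrt_le_iff.2 ⟨by positivity, ?_⟩
    rw [mul_pow, Real.sq_sqrt (by linarith)]
    linarith
  rw [wt, mul_min_of_nonneg _ _ (by norm_num : (0 : ℝ) ≤ 2)]
  refine le_min ?_ ?_
  · have : 0 < 1 / √(1 + P) := by positivity
    linarith
  · rw [← mul_div_assoc, div_le_div_iff₀ h0 (by linarith)]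
    have h3 := Real.mul_self_sqrt (show 0 ≤ 1 + P by linarith)
    have h4 := mul_le_mul_of_nonneg_right h2 h0.le
    linarith

lemma cube_le {s t : ℝ} (hs : s ∈ Icc (1 / 2 : ℝ) 2) (ht : t ∈ Icc (1 / 2 : ℝ) 2) :
    |s ^ 3 - t ^ 3| ≤ 12 * |s - t| := by
  have h1 : s ^ 3 - t ^ 3 = (s ^ 2 + s * t + t ^ 2) * (s - t) := by ring
  have h2 : 0 ≤ s ^ 2 + s * t + t ^ 2 := by nlinarith [hs.1, ht.1]
  have h3 : s ^ 2 + s * t + t ^ 2 ≤ 12 := by nlinarith [hs.1, ht.1, hs.2, ht.2]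
  rw [h1, abs_mul, abs_of_nonneg h2]
  gcongr

lemma alg1 {ρ s s' t t' : ℝ} (hρ : 0 ≤ ρ) (hs : s ∈ Icc (1 / 2 : ℝ) 2)
    (hs' : s' ∈ Icc (1 / 2 : ℝ) 2) (ht : t ∈ Icc (1 / 2 : ℝ) 2) (ht' : t' ∈ Icc (1 / 2 : ℝ) 2) :
    |(s / 8 - ρ * s ^ 3 / 2) - (s' / 8 - ρ * s' ^ 3 / 2) -
      ((t / 8 - ρ * t ^ 3 / 2) - (t' / 8 - ρ * t' ^ 3 / 2)) - ((s - s') - (t - t')) / 8| ≤
      6 * ρ * (|s - s'| + |t - t'|) := by
  have h1 : (s / 8 - ρ * s ^ 3 / 2) - (s' / 8 - ρ * s' ^ 3 / 2) -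
      ((t / 8 - ρ * t ^ 3 / 2) - (t' / 8 - ρ * t' ^ 3 / 2)) - ((s - s') - (t - t')) / 8 =
      ρ / 2 * ((t ^ 3 - t' ^ 3) - (s ^ 3 - s' ^ 3)) := by ring
  have h2 := cube_le hs hs'
  have h3 := cube_le ht ht'
  have h4 := abs_sub (t ^ 3 - t' ^ 3) (s ^ 3 - s' ^ 3)
  rw [h1, abs_mul, abs_of_nonneg (by positivity : 0 ≤ ρ / 2)]
  calc ρ / 2 * |(t ^ 3 - t' ^ 3) - (s ^ 3 - s' ^ 3)| ≤ ρ / 2 * (12 * (|s - s'| + |t - t'|)) := by
        gcongr; linarith
    _ = _ := by ring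

lemma term_le {a s t k L : ℝ} (hs : s ∈ Icc (1 / 2 : ℝ) 2) (ht : t ∈ Icc (1 / 2 : ℝ) 2)
    (hL : 0 < L) (hk : L ≤ k) : |a * (s + t) / k| ≤ 4 * |a| / L := by
  rw [abs_div, abs_mul, abs_of_pos (hL.trans_le hk), abs_of_nonneg (by linarith [hs.1, ht.1] :
    0 ≤ s + t), mul_comm 4]
  have : s + t ≤ 4 := by linarith [hs.2, ht.2]
  gcongr

lemma term_ge {a s t k : ℝ} (hs : s ∈ Icc (1 / 2 : ℝ) 2) (ht : t ∈ Icc (1 / 2 : ℝ) 2)
    (hk : 0 < k) (ha : 0 ≤ a) : a / k ≤ a * (s + t) / k := by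
  have : a * 1 ≤ a * (s + t) := by
    have : 1 ≤ s + t := by linarith [hs.1, ht.1]
    gcongr
  rw [mul_one] at this
  gcongr

lemma min_div_le {a b k1 k3 : ℝ} (ha : 0 ≤ a) (hb : 0 ≤ b) (h1 : 0 < k1) (h3 : 0 < k3) :
    min a b / min k1 k3 ≤ a / k1 + b / k3 := by
  have h4 : 0 ≤ a / k1 := by positivity
  have h5 : 0 ≤ b / k3 := by positivity
  rcases le_total k1 k3 with h | h
  · rw [min_eq_left h]
    have : min a b / k1 ≤ a / k1 := div_le_div_of_nonneg_right (min_le_left _ _) h1.le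
    linarith
  · rw [min_eq_right h]
    have : min a b / k3 ≤ b / k3 := div_le_div_of_nonneg_right (min_le_right _ _) h3.le
    linarith

/-- The oscillatory integral. -/
lemma core (hf : Fd2S) (hs : SdS) {α β S L ρ P1 a b : ℝ} {ω ω1 : ℝ → ℂ} {φ φ1 φ2 : ℝ → ℝ}
    (hαβ : α ≤ β) (hL : 0 < L) (hlen : β - α ≤ 24 * L) (hS : 0 ≤ S)
    (hA : Amp α β S (6 / 5 * S / L) ω ω1) (hP : Ph α β φ φ1 φ2) (hρ : 0 ≤ ρ)
    (hρ1 : ρ ≤ 1 / 10000) (hP1 : 1 ≤ P1) (hρP : 4800 * ρ * L ≤ P1) (hab : |a| + |b| ≤ 3)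
    (h1 : ∀ x ∈ Icc α β, |φ1 x - (a - b) / 8| ≤ 6 * ρ * (|a| + |b|))
    (h2 : ∀ x ∈ Icc α β, |φ2 x| ≤ 6 * ρ * (|a| + |b|) / (16 * L))
    (h3 : 0 ≤ a → 0 ≤ b → ∀ x ∈ Icc α β, φ2 x ≤ -(3 * ρ / 2 * (min a b / (16 * L))))
    (h4 : a ≤ 0 → b ≤ 0 → ∀ x ∈ Icc α β, 3 * ρ / 2 * (min (-a) (-b) / (16 * L)) ≤ φ2 x) :
    ‖∫ x in α..β, ω x * e (φ x)‖ ≤ 30000 * (S * L) * wt P1 (16 * L * |a - b|) := by
  have hd0 := abs_nonneg (a - b)
  have hSL : 0 ≤ S * L := by positivity
  have htriv : ‖∫ x in α..β, ω x * e (φ x)‖ ≤ 24 * (S * L) := by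
    have := intervalIntegral.norm_integral_le_of_norm_le_const (a := α) (b := β) (C := S)
      (f := fun x => ω x * e (φ x)) (fun x hx => by
        rw [uIoc_of_le hαβ] at hx
        rw [norm_mul, norm_e, mul_one]
        exact hA.b0 x ⟨hx.1.le, hx.2⟩)
    rw [abs_of_nonneg (by linarith)] at this
    calc _ ≤ S * (β - α) := this
      _ ≤ S * (24 * L) := by gcongr
      _ = _ := by ring
  set I := ‖∫ x in α..β, ω x * e (φ x)‖ with hI
  set d := |a - b| with hd
  have hI0 : 0 ≤ I := norm_nonneg _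
  have hPn : 0 ≤ 16 * L * d := by positivity
  by_cases hc : 100 * ρ * (|a| + |b|) ≤ d
  · have h5 : I * (16 * L * d) ≤ 8400 * (S * L) := by
      rcases hd0.eq_or_lt with h0 | h0
      · rw [← h0, mul_zero, mul_zero]; positivity
      have h6 := hf α β S (6 / 5 * S / L) (d / 16) (d / (256 * L)) ω ω1 φ φ1 φ2 hαβ hA hP
        (by positivity) (fun x hx => by
          have h7 := h1 x hx
          have h8 := abs_sub_abs_le_abs_sub ((a - b) / 8) (φ1 x)
          rw [abs_sub_comm, abs_div, abs_of_pos (by norm_num : (0 : ℝ) < 8)] at h8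
          linarith) (fun x hx => by
          refine (h2 x hx).trans ?_
          rw [div_le_div_iff₀ (by positivity) (by positivity)]
          have := mul_le_mul_of_nonneg_right hc hL.le
          have h9 : 0 ≤ d * L := by positivity
          linarith)
      have h7 : 2 * S / (d / 16) + (β - α) * (6 / 5 * S / L / (d / 16) +
          S * (d / (256 * L)) / (d / 16) ^ 2) ≤ 2 * S / (d / 16) + (24 * L) *
            (6 / 5 * S / L / (d / 16) + S * (d / (256 * L)) / (d / 16) ^ 2) := by gcongr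
      have h8 : 2 * S / (d / 16) + (24 * L) * (6 / 5 * S / L / (d / 16) +
          S * (d / (256 * L)) / (d / 16) ^ 2) = 2584 / 5 * S / d := by
        field_simp; ring
      have h9 : I ≤ 2584 / 5 * S / d := (h6.trans h7).trans h8.le
      rw [le_div_iff₀ h0] at h9
      have h10 := mul_le_mul_of_nonneg_right h9 hL.le
      linarith
    have h6 : I ≤ 30000 * (S * L) * (1 / (1 + 16 * L * d)) := by
      rw [mul_one_div, le_div_iff₀ (by linarith)]
      linarith
    exact h6.trans (mul_le_mul_of_nonneg_left (wt1 hP1 hPn) (by positivity))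
  · rw [not_le] at hc
    have hs0 : 0 ≤ |a| + |b| := by positivity
    have hc2 : d ≤ (|a| + |b|) / 100 := by
      have := mul_le_mul_of_nonneg_right hρ1 hs0
      linarith
    have hPP : 16 * L * d ≤ P1 := by
      have h5 : ρ * (|a| + |b|) ≤ ρ * 3 := by gcongr
      have h6 : d ≤ 300 * ρ := by linarith
      have h7 := mul_le_mul_of_nonneg_left h6 hL.le
      linarith
    have h5 : I * √(16 * L * d) ≤ 14000 * (S * L) := by
      rcases hd0.eq_or_lt with h0 | h0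
      · rw [← h0, mul_zero, Real.sqrt_zero, mul_zero]; positivity
      have key : ∀ m : ℝ, 49 / 100 * (|a| + |b|) ≤ m →
          16 * L * d / (200 * L) ^ 2 ≤ 3 * ρ / 2 * (m / (16 * L)) := by
        intro m hm
        have h6 := mul_le_mul_of_nonneg_left hm hρ
        have e1 : 16 * L * d / (200 * L) ^ 2 = (4 / 625 * d) / (16 * L) := by
          field_simp; ring
        rw [e1, ← mul_div_assoc]
        refine div_le_div_of_nonneg_right ?_ (by positivity)
        linarith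
      have h6 := hs α β S (6 / 5 * S / L) (16 * L * d / (200 * L) ^ 2) ω ω1 φ φ1 φ2 hαβ hA hP
        (by positivity) (by
          rcases le_total 0 a with ha | ha <;> rcases le_total 0 b with hb | hb
          · refine Or.inr fun x hx => (h3 ha hb x hx).trans (neg_le_neg (key _ ?_))
            have h7 := abs_le.1 (le_refl d)
            rw [abs_of_nonneg ha, abs_of_nonneg hb] at hc2 ⊢
            exact le_min (by linarith [h7.1]) (by linarith [h7.2])
          · exfalso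
            have h7 := abs_le.1 (le_refl d)
            rw [abs_of_nonneg ha, abs_of_nonpos hb] at hc2
            have h8 : d = a - b := abs_of_nonneg (by linarith)
            linarith
          · exfalso
            rw [abs_of_nonpos ha, abs_of_nonneg hb] at hc2
            have h8 : d = -(a - b) := abs_of_nonpos (by linarith)
            linarith
          · refine Or.inl fun x hx => (key _ ?_).trans (h4 ha hb x hx)
            have h7 := abs_le.1 (le_refl d)
            rw [abs_of_nonpos ha, abs_of_nonpos hb] at hc2 ⊢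
            exact le_min (by linarith [h7.2]) (by linarith [h7.1]))
      have h7 : 0 < √(16 * L * d) := Real.sqrt_pos.2 (by positivity)
      rw [Real.sqrt_div hPn, Real.sqrt_sq (by positivity), le_div_iff₀ (by positivity),
        ← mul_div_assoc, div_le_iff₀ (by positivity)] at h6
      have h8 : (β - α) * (6 / 5 * S / L) ≤ (24 * L) * (6 / 5 * S / L) := by gcongr
      have h9 : (24 * L) * (6 / 5 * S / L) = 144 / 5 * S := by field_simp; ring
      have h10 : (12 * S + 2 * (β - α) * (6 / 5 * S / L)) * (200 * L) ≤ (70 * S) * (200 * L) := by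
        refine mul_le_mul_of_nonneg_right ?_ (by positivity)
        linarith
      linarith
    have h6 : √(1 + 16 * L * d) ≤ 1 + √(16 * L * d) := by
      refine Real.sqrt_le_iff.2 ⟨by positivity, ?_⟩
      have := Real.sq_sqrt hPn
      rw [add_sq, this]
      linarith only [Real.sqrt_nonneg (16 * L * d)]
    have h7 : I ≤ 15000 * (S * L) * (1 / √(1 + 16 * L * d)) := by
      rw [mul_one_div, le_div_iff₀ (Real.sqrt_pos.2 (by linarith))]
      have := mul_le_mul_of_nonneg_left h6 hI0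
      linarith
    have h8 := mul_le_mul_of_nonneg_left (wt2 hP1 hPn hPP) (by positivity : 0 ≤ 15000 * (S * L))
    linarith

lemma zz_lo {K m u : ℝ} (hK : 0 < K) (hm : 0 < m) (h : u ≤ 8 * K * m) : zz K m u ≤ 1 / 2 := by
  rw [zz, div_le_iff₀ (by positivity)]; linarith

lemma zz_hi {K m u : ℝ} (hK : 0 < K) (hm : 0 < m) (h : 32 * K * m ≤ u) : 2 ≤ zz K m u := by
  rw [zz, le_div_iff₀ (by positivity)]; linarith

lemma zz_mem {K m u : ℝ} (hK : 0 < K) (hm : 0 < m) (h : 8 * K * m ≤ u) (h' : u ≤ 32 * K * m) :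
    zz K m u ∈ Icc (1 / 2 : ℝ) 2 := by
  constructor
  · rw [zz, le_div_iff₀ (by positivity)]; linarith
  · rw [zz, div_le_iff₀ (by positivity)]; linarith

lemma hd_conj {f : ℝ → ℂ} {f' : ℂ} {x : ℝ} (h : HasDerivAt f f' x) :
    HasDerivAt (fun y => conj (f y)) (conj f') x := h.star

lemma norm_pair {p q p1 q1 : ℂ} {r L : ℝ} (hr : 0 ≤ r) (hL : 0 < L) (hp : ‖p‖ ≤ 30 * √r)
    (hq : ‖q‖ ≤ 30 * √r) (hp1 : ‖p1‖ ≤ 9 * √r / L) (hq1 : ‖q1‖ ≤ 9 * √r / L) :
    ‖p * conj q‖ ≤ 900 * r ∧ ‖p1 * conj q + p * conj q1‖ ≤ 540 * r / L := by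
  have h1 := Real.mul_self_sqrt hr
  constructor
  · rw [norm_mul, Complex.norm_conj]
    calc ‖p‖ * ‖q‖ ≤ (30 * √r) * (30 * √r) := by gcongr
      _ = 900 * (√r * √r) := by ring
      _ = _ := by rw [h1]
  · refine (norm_add_le _ _).trans ?_
    rw [norm_mul, norm_mul, Complex.norm_conj, Complex.norm_conj]
    calc ‖p1‖ * ‖q‖ + ‖p‖ * ‖q1‖ ≤ (9 * √r / L) * (30 * √r) + (30 * √r) * (9 * √r / L) := by
          gcongr
      _ = 540 * (√r * √r) / L := by ring
      _ = _ := by rw [h1]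

/-- amplitude -/
noncomputable def om (K m1 m3 u2 u2' u3 u3' x : ℝ) : ℂ :=
  am K m1 (x - u2) * conj (am K m1 (x - u2')) * (am K m3 (u3 - x) * conj (am K m3 (u3' - x)))

/-- derivative of the amplitude -/
noncomputable def om1 (K m1 m3 u2 u2' u3 u3' x : ℝ) : ℂ :=
  (am1 K m1 (x - u2) * conj (am K m1 (x - u2')) + am K m1 (x - u2) * conj (am1 K m1 (x - u2'))) *
    (am K m3 (u3 - x) * conj (am K m3 (u3' - x))) +
  am K m1 (x - u2) * conj (am K m1 (x - u2')) *
    (-am1 K m3 (u3 - x) * conj (am K m3 (u3' - x)) + am K m3 (u3 - x) * conj (-am1 K m3 (u3' - x)))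

lemma hd_right {E : Type} [NormedAddCommGroup E] [NormedSpace ℝ E] {f f' : ℝ → E}
    (h : ∀ u, HasDerivAt f (f' u) u) (c x : ℝ) :
    HasDerivAt (fun y => f (y - c)) (f' (x - c)) x := (h (x - c)).comp_sub_const x c

lemma hd_left {E : Type} [NormedAddCommGroup E] [NormedSpace ℝ E] {f f' : ℝ → E}
    (h : ∀ u, HasDerivAt f (f' u) u) (c x : ℝ) :
    HasDerivAt (fun y => f (c - y)) (-f' (c - x)) x := (h (c - x)).comp_const_sub c x

lemma amp (hc : CFS) {K m1 m3 : ℝ} (hK : 0 < K) (h1 : 0 < m1) (h3 : 0 < m3)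
    (u2 u2' u3 u3' α β : ℝ) :
    Amp α β (810000 * (K ^ 2 / (m1 * m3)))
      (6 / 5 * (810000 * (K ^ 2 / (m1 * m3))) / (K * min m1 m3))
      (om K m1 m3 u2 u2' u3 u3') (om1 K m1 m3 u2 u2' u3 u3') := by
  have hm : 0 < min m1 m3 := lt_min h1 h3
  have hL : 0 < K * min m1 m3 := by positivity
  have b1 : ∀ u, ‖am1 K m1 u‖ ≤ 9 * √(K / m1) / (K * min m1 m3) := fun u =>
    (norm_am1_le hc hK h1 u).trans (by gcongr; exact min_le_left _ _)
  have b3 : ∀ u, ‖-am1 K m3 u‖ ≤ 9 * √(K / m3) / (K * min m1 m3) := fun u => by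
    rw [norm_neg]
    exact (norm_am1_le hc hK h3 u).trans (by gcongr; exact min_le_right _ _)
  have p1 := fun x => norm_pair (by positivity) hL (norm_am_le hc K m1 (x - u2))
    (norm_am_le hc K m1 (x - u2')) (b1 (x - u2)) (b1 (x - u2'))
  have p3 := fun x => norm_pair (by positivity) hL (norm_am_le hc K m3 (u3 - x))
    (norm_am_le hc K m3 (u3' - x)) (b3 (u3 - x)) (b3 (u3' - x))
  refine ⟨fun x _ => ?_, fun x _ => ?_, fun x _ => ?_⟩
  · exact ((hd_right (hasDerivAt_am K m1) u2 x).mul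
      (hd_conj (hd_right (hasDerivAt_am K m1) u2' x))).mul
      ((hd_left (hasDerivAt_am K m3) u3 x).mul (hd_conj (hd_left (hasDerivAt_am K m3) u3' x)))
  · rw [om, norm_mul]
    calc _ ≤ (900 * (K / m1)) * (900 * (K / m3)) :=
          mul_le_mul (p1 x).1 (p3 x).1 (norm_nonneg _) (by positivity)
      _ = _ := by field_simp; ring
  · rw [om1]
    refine (norm_add_le _ _).trans ?_
    rw [norm_mul, norm_mul (am K m1 (x - u2) * conj (am K m1 (x - u2')))]
    calc _ ≤ (540 * (K / m1) / (K * min m1 m3)) * (900 * (K / m3)) +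
          (900 * (K / m1)) * (540 * (K / m3) / (K * min m1 m3)) :=
          add_le_add (mul_le_mul (p1 x).2 (p3 x).1 (norm_nonneg _) (by positivity))
            (mul_le_mul (p1 x).1 (p3 x).2 (norm_nonneg _) (by positivity))
      _ = _ := by field_simp; ring

lemma exists_Z {K : ℝ} (hK : 1 ≤ K) :
    ∃ Z : ℝ, 1000000 * K ^ 2 ≤ Z ∧ Real.log Z = 15 * Real.log (K + 2) := by
  refine ⟨(K + 2) ^ 15, ?_, by rw [Real.log_pow]; norm_num⟩
  calc 1000000 * K ^ 2 ≤ 3 ^ 13 * (K + 2) ^ 2 := by gcongr <;> norm_num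
    _ ≤ (K + 2) ^ 13 * (K + 2) ^ 2 := by gcongr; linarith
    _ = _ := by rw [← pow_add]

/-- The estimate with real parameters. -/
lemma main (hf : Fd2S) (hs : SdS) (hc : CFS) {C : ℝ} (hC : 0 < C)
    (hp : ∀ (a b S μ Y Λ Z : ℝ) (ω ω1 : ℝ → ℂ) (φ φ1 φ2 : ℝ → ℝ) (l1 : ℕ) (s : Finset ℤ), a ≤ b →
      Amp a b S μ ω ω1 → Supp a b ω → Ph a b φ φ1 φ2 → (∀ x ∈ Icc a b, |φ1 x| ≤ Y) →
      (∀ x ∈ Icc a b, |φ2 x| ≤ Λ) → 2 * Y ≤ l1 + 1 → 3 ≤ Z → b - a ≤ Z → S ≤ Z → μ ≤ Z →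
      (l1 : ℝ) + 1 ≤ Z → Cov s a b →
      ‖∑ n ∈ s, ω n * e (φ n) -
          ∑ l ∈ Finset.Icc (-(l1 : ℤ)) l1, ∫ x in a..b, ω x * e (φ x + l * x)‖ ≤
        C * ((b - a) * μ * Real.log Z + (b - a) * S * Λ / (l1 + 1) + 1 / Z))
    {K m1 m3 ρ P1 u2 u2' u3 u3' : ℝ} {s : Finset ℤ} (h1 : 1 ≤ m1) (h3 : 1 ≤ m3) (h1K : m1 ≤ K)
    (h3K : m3 ≤ K) (hρ : 0 ≤ ρ) (hρ1 : ρ ≤ 1 / 10000) (hP1 : 1 ≤ P1)
    (hρP : 4800 * ρ * (K * min m1 m3) ≤ P1) (hcov : Cov s u2 u3) :
    ‖∑ x ∈ s, om K m1 m3 u2 u2' u3 u3' x * e (gm K ρ m1 (x - u2) - gm K ρ m1 (x - u2') +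
      (gm K ρ m3 (u3 - x) - gm K ρ m3 (u3' - x)))‖ ≤
      (30000 + 500 * C) * 810000 * (K ^ 2 / (m1 * m3)) * (K * min m1 m3 *
        wt P1 |min m1 m3 / m1 * (u2' - u2) - min m1 m3 / m3 * (u3 - u3')| + Real.log (K + 2)) := by
  have hK1 : 1 ≤ K := h1.trans h1K
  have hK : 0 < K := by linarith
  have h1' : 0 < m1 := by linarith
  have h3' : 0 < m3 := by linarith
  have hm1 : 1 ≤ min m1 m3 := le_min h1 h3
  have hmK : min m1 m3 ≤ K := (min_le_left _ _).trans h1K
  have hL1 : 1 ≤ K * min m1 m3 := one_le_mul_of_one_le_of_one_le hK1 hm1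
  have hL : 0 < K * min m1 m3 := by linarith
  have hlog := one_le_log_add_two hK1
  have hwt := wt_nonneg (P1 := P1)
    (abs_nonneg (min m1 m3 / m1 * (u2' - u2) - min m1 m3 / m3 * (u3 - u3')))
  set α := max (max (u2 + 8 * K * m1) (u2' + 8 * K * m1))
    (max (u3 - 32 * K * m3) (u3' - 32 * K * m3)) with hα
  set β := min (min (u2 + 32 * K * m1) (u2' + 32 * K * m1))
    (min (u3 - 8 * K * m3) (u3' - 8 * K * m3)) with hβ
  have hsupp : Supp α β (om K m1 m3 u2 u2' u3 u3') := by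
    intro x hx
    simp only [hα, hβ, le_max_iff, min_le_iff] at hx
    rw [om]
    rcases hx with ((h | h) | (h | h)) | ((h | h) | (h | h))
    · rw [am_eq_zero (u := x - u2) (Or.inl (zz_lo hK h1' (by linarith only [h])))]; simp
    · rw [am_eq_zero (u := x - u2') (Or.inl (zz_lo hK h1' (by linarith only [h])))]; simp
    · rw [am_eq_zero (u := u3 - x) (Or.inr (zz_hi hK h3' (by linarith only [h])))]; simp
    · rw [am_eq_zero (u := u3' - x) (Or.inr (zz_hi hK h3' (by linarith only [h])))]; simp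
    · rw [am_eq_zero (u := x - u2) (Or.inr (zz_hi hK h1' (by linarith only [h])))]; simp
    · rw [am_eq_zero (u := x - u2') (Or.inr (zz_hi hK h1' (by linarith only [h])))]; simp
    · rw [am_eq_zero (u := u3 - x) (Or.inl (zz_lo hK h3' (by linarith only [h])))]; simp
    · rw [am_eq_zero (u := u3' - x) (Or.inl (zz_lo hK h3' (by linarith only [h])))]; simp
  rcases lt_or_ge β α with hlt | hαβ
  · rw [Finset.sum_eq_zero, norm_zero]
    · positivity
    · intro x _
      rw [hsupp x ((le_total (x : ℝ) α).imp id fun h => hlt.le.trans h), zero_mul]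
  have a1 : u2 + 8 * K * m1 ≤ α := (le_max_left _ _).trans (le_max_left _ _)
  have a2 : u2' + 8 * K * m1 ≤ α := (le_max_right _ _).trans (le_max_left _ _)
  have a3 : u3 - 32 * K * m3 ≤ α := (le_max_left _ _).trans (le_max_right _ _)
  have a4 : u3' - 32 * K * m3 ≤ α := (le_max_right _ _).trans (le_max_right _ _)
  have c1 : β ≤ u2 + 32 * K * m1 := (min_le_left _ _).trans (min_le_left _ _)
  have c2 : β ≤ u2' + 32 * K * m1 := (min_le_left _ _).trans (min_le_right _ _)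
  have c3 : β ≤ u3 - 8 * K * m3 := (min_le_right _ _).trans (min_le_left _ _)
  have c4 : β ≤ u3' - 8 * K * m3 := (min_le_right _ _).trans (min_le_right _ _)
  clear_value α β
  have hlen : β - α ≤ 24 * (K * min m1 m3) := by
    rcases le_total m1 m3 with h | h
    · rw [min_eq_left h]; linarith
    · rw [min_eq_right h]; linarith
  have z1 : ∀ x ∈ Icc α β, zz K m1 (x - u2) ∈ Icc (1 / 2 : ℝ) 2 := fun x hx =>
    zz_mem hK h1' (by linarith only [hx.1, a1]) (by linarith only [hx.2, c1])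
  have z2 : ∀ x ∈ Icc α β, zz K m1 (x - u2') ∈ Icc (1 / 2 : ℝ) 2 := fun x hx =>
    zz_mem hK h1' (by linarith only [hx.1, a2]) (by linarith only [hx.2, c2])
  have z3 : ∀ x ∈ Icc α β, zz K m3 (u3 - x) ∈ Icc (1 / 2 : ℝ) 2 := fun x hx =>
    zz_mem hK h3' (by linarith only [hx.2, c3]) (by linarith only [hx.1, a3])
  have z4 : ∀ x ∈ Icc α β, zz K m3 (u3' - x) ∈ Icc (1 / 2 : ℝ) 2 := fun x hx =>
    zz_mem hK h3' (by linarith only [hx.2, c4]) (by linarith only [hx.1, a4])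
  obtain ⟨a, ha⟩ : ∃ a, a = (u2' - u2) / (16 * K * m1) := ⟨_, rfl⟩
  obtain ⟨b, hb⟩ : ∃ b, b = (u3 - u3') / (16 * K * m3) := ⟨_, rfl⟩
  have ea : ∀ x, zz K m1 (x - u2) - zz K m1 (x - u2') = a := fun x => by
    rw [ha, zz, zz]; ring
  have eb : ∀ x, zz K m3 (u3 - x) - zz K m3 (u3' - x) = b := fun x => by
    rw [hb, zz, zz]; ring
  have hαm : α ∈ Icc α β := ⟨le_rfl, hαβ⟩
  have hab : |a| + |b| ≤ 3 := by
    have t1 : |a| ≤ 3 / 2 := by
      rw [← ea α, abs_le]
      constructor <;> linarith only [(z1 α hαm).1, (z1 α hαm).2, (z2 α hαm).1, (z2 α hαm).2]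
    have t2 : |b| ≤ 3 / 2 := by
      rw [← eb α, abs_le]
      constructor <;> linarith only [(z3 α hαm).1, (z3 α hαm).2, (z4 α hαm).1, (z4 α hαm).2]
    linarith
  set φ : ℝ → ℝ := fun x => gm K ρ m1 (x - u2) - gm K ρ m1 (x - u2') +
    (gm K ρ m3 (u3 - x) - gm K ρ m3 (u3' - x)) with hφ
  set φ1 : ℝ → ℝ := fun x => gm1 K ρ m1 (x - u2) - gm1 K ρ m1 (x - u2') -
    (gm1 K ρ m3 (u3 - x) - gm1 K ρ m3 (u3' - x)) with hφ1
  set φ2 : ℝ → ℝ := fun x => -(3 * ρ / 2 *
    (a * (zz K m1 (x - u2) + zz K m1 (x - u2')) / (16 * K * m1) +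
      b * (zz K m3 (u3 - x) + zz K m3 (u3' - x)) / (16 * K * m3))) with hφ2
  have hPh : Ph α β φ φ1 φ2 := by
    refine ⟨fun x _ => ?_, fun x _ => ?_⟩
    · refine (((hd_right (hasDerivAt_gm hK h1' ρ) u2 x).sub
        (hd_right (hasDerivAt_gm hK h1' ρ) u2' x)).add
        ((hd_left (hasDerivAt_gm hK h3' ρ) u3 x).sub
          (hd_left (hasDerivAt_gm hK h3' ρ) u3' x))).congr_deriv ?_
      simp only [hφ1]
      ring
    · refine (((hd_right (hasDerivAt_gm1 K ρ m1) u2 x).sub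
        (hd_right (hasDerivAt_gm1 K ρ m1) u2' x)).sub
        ((hd_left (hasDerivAt_gm1 K ρ m3) u3 x).sub
          (hd_left (hasDerivAt_gm1 K ρ m3) u3' x))).congr_deriv ?_
      simp only [hφ2, gm2]
      rw [← ea x, ← eb x]
      ring
  have k1 : 16 * (K * min m1 m3) ≤ 16 * K * m1 := by
    rw [mul_assoc]; gcongr; exact min_le_left _ _
  have k3 : 16 * (K * min m1 m3) ≤ 16 * K * m3 := by
    rw [mul_assoc]; gcongr; exact min_le_right _ _
  have kmin : min (16 * K * m1) (16 * K * m3) = 16 * (K * min m1 m3) := by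
    rw [← mul_min_of_nonneg _ _ (by positivity : 0 ≤ 16 * K), mul_assoc]
  have g1 : ∀ x ∈ Icc α β, |φ1 x - (a - b) / 8| ≤ 6 * ρ * (|a| + |b|) := fun x hx => by
    have := alg1 hρ (z1 x hx) (z2 x hx) (z3 x hx) (z4 x hx)
    rw [ea x, eb x] at this
    exact this
  have g2 : ∀ x ∈ Icc α β, |φ2 x| ≤ 6 * ρ * (|a| + |b|) / (16 * (K * min m1 m3)) := fun x hx => by
    have t1 := term_le (a := a) (z1 x hx) (z2 x hx) (by positivity) k1
    have t2 := term_le (a := b) (z3 x hx) (z4 x hx) (by positivity) k3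
    simp only [hφ2]
    rw [abs_neg, abs_mul, abs_of_nonneg (by positivity : 0 ≤ 3 * ρ / 2)]
    calc _ ≤ 3 * ρ / 2 * (4 * |a| / (16 * (K * min m1 m3)) + 4 * |b| / (16 * (K * min m1 m3))) :=
          mul_le_mul_of_nonneg_left ((abs_add_le _ _).trans (add_le_add t1 t2)) (by positivity)
      _ = _ := by ring
  have hA := amp hc hK h1' h3' u2 u2' u3 u3' α β
  have hA1 : 1 ≤ K ^ 2 / (m1 * m3) := by
    rw [le_div_iff₀ (by positivity), one_mul, sq]; gcongr
  have hA2 : K ^ 2 / (m1 * m3) ≤ K ^ 2 :=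
    div_le_self (by positivity) (one_le_mul_of_one_le_of_one_le h1 h3)
  have hcore := core hf hs hαβ hL hlen (by positivity) hA hPh hρ hρ1 hP1 hρP hab g1 g2
    (fun ha0 hb0 x hx => by
      have t1 := term_ge (k := 16 * K * m1) (z1 x hx) (z2 x hx) (by positivity) ha0
      have t2 := term_ge (k := 16 * K * m3) (z3 x hx) (z4 x hx) (by positivity) hb0
      have t3 := min_div_le (k1 := 16 * K * m1) (k3 := 16 * K * m3) ha0 hb0 (by positivity)
        (by positivity)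
      rw [kmin] at t3
      exact neg_le_neg (mul_le_mul_of_nonneg_left (t3.trans (add_le_add t1 t2)) (by positivity)))
    (fun ha0 hb0 x hx => by
      have t1 := term_ge (k := 16 * K * m1) (z1 x hx) (z2 x hx) (by positivity) (neg_nonneg.2 ha0)
      have t2 := term_ge (k := 16 * K * m3) (z3 x hx) (z4 x hx) (by positivity) (neg_nonneg.2 hb0)
      have t3 := min_div_le (k1 := 16 * K * m1) (k3 := 16 * K * m3) (neg_nonneg.2 ha0)
        (neg_nonneg.2 hb0) (by positivity) (by positivity)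
      rw [kmin] at t3
      refine (mul_le_mul_of_nonneg_left (t3.trans (add_le_add t1 t2)) (by positivity)).trans
        (le_of_eq ?_)
      simp only [hφ2]
      ring)
  have eP : 16 * (K * min m1 m3) * |a - b| =
      |min m1 m3 / m1 * (u2' - u2) - min m1 m3 / m3 * (u3 - u3')| := by
    rw [← abs_of_pos (show 0 < 16 * (K * min m1 m3) by positivity), ← abs_mul, ha, hb]
    congr 1
    field_simp
  rw [eP] at hcore
  set A := K ^ 2 / (m1 * m3) with hAdef
  set L := K * min m1 m3 with hLdef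
  have hLK : L ≤ K ^ 2 := by rw [hLdef, sq]; gcongr
  obtain ⟨Z, hZ, hZl⟩ := exists_Z hK1
  have hK2 : 1 ≤ K ^ 2 := one_le_pow₀ hK1
  have hμ : 6 / 5 * (810000 * A) / L ≤ 6 / 5 * (810000 * A) := div_le_self (by positivity) hL1
  have hps := hp α β _ _ (1 / 2) (1 / L) Z _ _ φ φ1 φ2 0 s hαβ hA hsupp hPh
    (fun x hx => by
      have t1 := g1 x hx
      have t2 := abs_sub_abs_le_abs_sub (φ1 x) ((a - b) / 8)
      have t3 := abs_sub a b
      have t4 : ρ * (|a| + |b|) ≤ 1 / 10000 * 3 := by gcongr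
      rw [abs_div, abs_of_pos (by norm_num : (0 : ℝ) < 8)] at t2
      linarith only [t1, t2, t3, t4, hab])
    (fun x hx => by
      refine (g2 x hx).trans ?_
      have t4 : ρ * (|a| + |b|) ≤ 1 / 10000 * 3 := by gcongr
      rw [div_le_div_iff₀ (by positivity) hL]
      have := mul_le_mul_of_nonneg_right t4 hL.le
      linarith only [this, hL])
    (by norm_num) (by linarith only [hZ, hK2]) (by linarith only [hZ, hK2, hlen, hLK])
    (by linarith only [hZ, hK2, hA2]) (by linarith only [hZ, hK2, hA2, hμ])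
    (by push_cast; linarith only [hZ, hK2])
    (fun n hn1 hn2 => hcov n (by linarith only [mul_pos hK h1', a1, hn1])
      (by linarith only [mul_pos hK h3', c3, hn2]))
  simp only [Nat.cast_zero, neg_zero, Finset.Icc_self, Finset.sum_singleton, Int.cast_zero,
    zero_mul, add_zero, zero_add, div_one, hZl] at hps
  have t1 : (β - α) * (6 / 5 * (810000 * A) / L) ≤ 24 * L * (6 / 5 * (810000 * A) / L) := by
    gcongr
  have t2 : 24 * L * (6 / 5 * (810000 * A) / L) = 144 / 5 * (810000 * A) := by field_simp; ring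
  have t3 : (β - α) * (810000 * A) * (1 / L) ≤ 24 * L * (810000 * A) * (1 / L) := by gcongr
  have t4 : 24 * L * (810000 * A) * (1 / L) = 24 * (810000 * A) := by field_simp
  have t5 : 1 / Z ≤ 1 := by
    rw [div_le_one (by linarith only [hZ, hK2])]; linarith only [hZ, hK2]
  have t6 : (β - α) * (6 / 5 * (810000 * A) / L) * (15 * Real.log (K + 2)) ≤
      144 / 5 * (810000 * A) * (15 * Real.log (K + 2)) :=
    mul_le_mul_of_nonneg_right (t1.trans t2.le) (by positivity)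
  have t7 : A * 1 ≤ A * Real.log (K + 2) := by gcongr
  have t8 : (β - α) * (6 / 5 * (810000 * A) / L) * (15 * Real.log (K + 2)) +
      (β - α) * (810000 * A) * (1 / L) + 1 / Z ≤
      500 * 810000 * (A * Real.log (K + 2)) := by
    linarith only [t3, t4, t5, t6, t7, hA1]
  have t9 := hps.trans (mul_le_mul_of_nonneg_left t8 hC.le)
  have t10 := norm_le_insert' (∑ n ∈ s, om K m1 m3 u2 u2' u3 u3' n * e (φ n))
    (∫ x in α..β, om K m1 m3 u2 u2' u3 u3' x * e (φ x))
  set w := wt P1 |min m1 m3 / m1 * (u2' - u2) - min m1 m3 / m3 * (u3 - u3')| with hw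
  calc _ ≤ 30000 * (810000 * A * L) * w + C * (500 * 810000 * (A * Real.log (K + 2))) :=
        t10.trans (add_le_add hcore t9)
    _ ≤ _ := by
        have : (30000 + 500 * C) * 810000 * A * (L * w + Real.log (K + 2)) =
            30000 * (810000 * A * L) * w + C * (500 * 810000 * (A * Real.log (K + 2))) +
            (30000 * 810000 * (A * Real.log (K + 2)) + 500 * 810000 * (C * (A * (L * w)))) := by
          ring
        rw [this]
        exact le_add_of_nonneg_right (by positivity)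

end JbAux

theorem jb (hp : PsS) (hf : Fd2S) (hs : SdS) (hc : CFS) : JbS := by
  obtain ⟨C, hC, hp⟩ := hp
  refine ⟨(30000 + 500 * C) * 810000, by positivity, ?_⟩
  intro K M m1 m3 ρ P1 u2 u2' u3 u3' s hMK h1 h3 hρ hρ1 hP1 hρP hcov
  rw [Finset.mem_Icc] at h1 h3
  have hMK' : (M : ℝ) ≤ K := by exact_mod_cast hMK
  have h1M : (m1 : ℝ) ≤ M := by exact_mod_cast h1.2
  have h3M : (m3 : ℝ) ≤ M := by exact_mod_cast h3.2
  have h := JbAux.main hf hs hc hC hp (K := K) (m1 := m1) (m3 := m3) (ρ := ρ) (P1 := P1)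
    (u2 := u2) (u2' := u2') (u3 := u3) (u3' := u3') (s := s) (by exact_mod_cast h1.1)
    (by exact_mod_cast h3.1) (h1M.trans hMK') (h3M.trans hMK') hρ hρ1 hP1 (by
      refine le_trans ?_ hρP
      rw [mul_assoc (4800 * ρ)]
      gcongr
      exact (min_le_left _ _).trans h1M) hcov
  refine le_trans (le_of_eq ?_) h
  congr 1
  refine Finset.sum_congr rfl fun x _ => ?_
  simp only [mainT, JbAux.om, e_add, e_sub, map_mul]
  ring

end Pool.Agent.Lib.MP_80d0cf_nt.Up
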