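import Pool.Agent.Lib.MP_80d0cf_nt.Up.Lev

-- part Pool.Agent.Lib.MP_80d0cf_nt.Up.HeavyA1
section

/-! Linearisation of the dual sum on blocks and the large sieve bound for one block. -/

open Set MeasureTheory ComplexConjugate

namespace Pool.Agent.Lib.MP_80d0cf_nt.Up.HeavyAAux

/-- linearised dual sum -/
noncomputable def G (K M : ℕ) (ρ U x : ℝ) : ℂ :=
  ∑ m ∈ Finset.Icc 1 M, mainT K ρ m U * e (x * gm1 K ρ m U)

/-- decay of the blocks -/
noncomputable def dec (K B U : ℝ) : ℝ := if K ≤ U ∧ U < K * B then 1 / √U else 0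

lemma dec_nonneg (K B U : ℝ) : 0 ≤ dec K B U := by
  unfold dec; split_ifs <;> positivity

lemma dd_sub {C : ℝ} {K M : ℕ} {ρ : ℝ}
    (hf : ∀ u : ℝ, 0 ≤ u → u ≤ 8 * K * M →
      ‖DD K ρ u - Hp K M ρ u‖ ≤ C * Real.log (K + 2) * (K / (1 + u) + 1 + ρ * K * M))
    {v : ℝ} (hv : |v| ≤ 8 * K * M) :
    ‖DD K ρ v - (Hp K M ρ v + conj (Hp K M ρ (-v)))‖ ≤
      C * Real.log (K + 2) * (K / (1 + |v|) + 1 + ρ * K * M) := by
  have hK : (0 : ℝ) ≤ 8 * K := by positivity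
  rcases le_total 0 v with h | h
  · rw [abs_of_nonneg h] at hv ⊢
    rw [Hp_eq_zero (u := -v) (by linarith), map_zero, add_zero]
    exact hf v h hv
  · rw [abs_of_nonpos h] at hv ⊢
    have h2 : DD K ρ v = conj (DD K ρ (-v)) := by rw [← DD_neg, neg_neg]
    rw [Hp_eq_zero (u := v) (by linarith), zero_add, h2, ← map_sub, Complex.norm_conj]
    exact hf (-v) (by linarith) hv

lemma taylor_gm {K ρ m U x : ℝ} (hK : 1 ≤ K) (hm : 1 ≤ m) (h0 : 0 ≤ ρ) (h1 : ρ ≤ 1 / 10000)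
    (hz : |zz K m U| ≤ 2) (hx : |x| ≤ K) :
    |gm K ρ m (U + x) - (gm K ρ m U + x * gm1 K ρ m U)| ≤ x ^ 2 / (128 * K * m) := by
  have hN : 0 < 16 * K * m := by positivity
  have key : gm K ρ m (U + x) - (gm K ρ m U + x * gm1 K ρ m U) = x ^ 2 / (16 * K * m) *
      (1 / 16 - ρ / 8 * (6 * zz K m U ^ 2 + 4 * zz K m U * (x / (16 * K * m)) +
        (x / (16 * K * m)) ^ 2)) := by
    simp only [gm, gm1, zz]; field_simp; ring
  have hh : |x / (16 * K * m)| ≤ 1 := by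
    rw [abs_div, abs_of_pos hN, div_le_one hN]; nlinarith
  rw [key]
  generalize x / (16 * K * m) = h at hh
  generalize zz K m U = z at hz
  have hb : |6 * z ^ 2 + 4 * z * h + h ^ 2| ≤ 33 := by
    have a1 : |z| ^ 2 ≤ 2 ^ 2 := pow_le_pow_left₀ (abs_nonneg _) hz 2
    have a2 : |h| ^ 2 ≤ 1 ^ 2 := pow_le_pow_left₀ (abs_nonneg _) hh 2
    have a3 : |z * h| ≤ 2 * 1 := by
      rw [abs_mul]; exact mul_le_mul hz hh (abs_nonneg _) (by norm_num)
    rw [sq_abs] at a1 a2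
    have a4 := abs_le.1 a3
    rw [abs_le]; constructor <;> nlinarith [sq_nonneg z, sq_nonneg h]
  have hc : |1 / 16 - ρ / 8 * (6 * z ^ 2 + 4 * z * h + h ^ 2)| ≤ 1 / 8 := by
    have a1 : |ρ / 8 * (6 * z ^ 2 + 4 * z * h + h ^ 2)| ≤ 1 / 80000 * 33 := by
      rw [abs_mul, abs_of_nonneg (by positivity : 0 ≤ ρ / 8)]
      exact mul_le_mul (by linarith) hb (abs_nonneg _) (by norm_num)
    have a2 := abs_le.1 a1
    rw [abs_le]; constructor <;> linarith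
  rw [abs_mul, abs_of_nonneg (by positivity : 0 ≤ x ^ 2 / (16 * K * m))]
  calc _ ≤ x ^ 2 / (16 * K * m) * (1 / 8) := by gcongr
    _ = _ := by field_simp; ring

lemma mainT_lin (hc : CFS) {K ρ m U x B : ℝ} (hK : 1 ≤ K) (hm : 1 ≤ m) (h0 : 0 ≤ ρ)
    (h1 : ρ ≤ 1 / 10000) (hB : 1 ≤ B) (hBK : B ≤ K) (hx : |x| ≤ B) :
    ‖mainT K ρ m (U + x) - mainT K ρ m U * e (x * gm1 K ρ m U)‖ ≤ 11 * B ^ 2 / √K := by
  have hs : 0 < √K := Real.sqrt_pos.2 (by linarith)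
  have hs2 : √K * √K = K := Real.mul_self_sqrt (by linarith)
  have hsm : √(K / m) ≤ √K := Real.sqrt_le_sqrt (div_le_self (by linarith) hm)
  have hq : √(K / m) / (K * m) ≤ 1 / √K := by
    rw [div_le_div_iff₀ (by positivity) hs]
    have : √(K / m) * √K ≤ √K * √K := by gcongr
    nlinarith
  have hid : mainT K ρ m (U + x) - mainT K ρ m U * e (x * gm1 K ρ m U) =
      (am K m (U + x) - am K m U) * e (gm K ρ m (U + x)) +
        am K m U * (e (gm K ρ m (U + x)) - e (gm K ρ m U + x * gm1 K ρ m U)) := by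
    rw [mainT, mainT, e_add]; ring
  have hx2 : x ^ 2 ≤ B ^ 2 := by rw [← sq_abs]; exact pow_le_pow_left₀ (abs_nonneg _) hx 2
  have hA : ‖(am K m (U + x) - am K m U) * e (gm K ρ m (U + x))‖ ≤ 9 * B ^ 2 / √K := by
    rw [norm_mul, norm_e, mul_one]
    refine (norm_am_sub_le hc (by linarith) (by linarith) _ _).trans ?_
    rw [add_sub_cancel_left, mul_div_assoc]
    calc _ ≤ 9 * (1 / √K) * B ^ 2 := by
          gcongr; nlinarith
      _ = _ := by ring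
  have hB2 : ‖am K m U * (e (gm K ρ m (U + x)) - e (gm K ρ m U + x * gm1 K ρ m U))‖ ≤
      2 * B ^ 2 / √K := by
    by_cases h : zz K m U ≤ 1 / 2 ∨ 2 ≤ zz K m U
    · rw [am_eq_zero h, zero_mul, norm_zero]; positivity
    push Not at h
    have hz : |zz K m U| ≤ 2 := by rw [abs_le]; constructor <;> linarith [h.1, h.2]
    have ht := taylor_gm hK hm h0 h1 hz (hx.trans hBK)
    rw [norm_mul]
    calc _ ≤ 30 * √(K / m) * (2 * 4 * (B ^ 2 / (128 * K * m))) := by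
          refine mul_le_mul (norm_am_le hc _ _ _) ((norm_e_sub_e_le _ _).trans ?_) (norm_nonneg _)
            (by positivity)
          refine mul_le_mul (by linarith [Real.pi_lt_four]) (ht.trans ?_) (abs_nonneg _)
            (by norm_num)
          gcongr
      _ = 15 / 8 * B ^ 2 * (√(K / m) / (K * m)) := by field_simp; norm_num
      _ ≤ 2 * B ^ 2 * (1 / √K) := by gcongr; norm_num
      _ = _ := by ring
  rw [hid]
  refine (norm_add_le _ _).trans ((add_le_add hA hB2).trans (le_of_eq ?_))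
  ring

lemma Hp_sub_G (hc : CFS) {K M : ℕ} {ρ U x B : ℝ} (hK : 1 ≤ K) (h0 : 0 ≤ ρ)
    (h1 : ρ ≤ 1 / 10000) (hB : 1 ≤ B) (hBK : B ≤ K) (hx : |x| ≤ B) :
    ‖Hp K M ρ (U + x) - G K M ρ U x‖ ≤ M * (11 * B ^ 2 / √K) := by
  rw [Hp, G, ← Finset.sum_sub_distrib]
  refine (norm_sum_le _ _).trans ((Finset.sum_le_card_nsmul _ _ (11 * B ^ 2 / √K)
    fun m hm => ?_).trans ?_)
  · exact mainT_lin hc (by exact_mod_cast hK) (by exact_mod_cast (Finset.mem_Icc.1 hm).1) h0 h1 hB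
      hBK hx
  · simp

lemma eta_sep {K ρ m m' U : ℝ} (hK : 0 < K) (hm : 0 < m) (hm' : 0 < m') (h0 : 0 ≤ ρ)
    (h1 : ρ ≤ 1 / 10000) (hz : 1 / 2 < zz K m U ∧ zz K m U < 2)
    (hz' : 1 / 2 < zz K m' U ∧ zz K m' U < 2) :
    4 * K / (9 * U) * |m - m'| ≤ |gm1 K ρ m U - gm1 K ρ m' U| ∧
      |gm1 K ρ m U - gm1 K ρ m' U| ≤ 1 / 2 := by
  have hU : 0 < U := by
    have := hz.1; rw [zz, lt_div_iff₀ (by positivity)] at this
    have : 0 < K * m := by positivity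
    linarith
  have hd : m - m' = (zz K m' U - zz K m U) * (U / (16 * K) / (zz K m U * zz K m' U)) := by
    simp only [zz]; field_simp
  have hg : gm1 K ρ m U - gm1 K ρ m' U = (zz K m U - zz K m' U) *
      (1 / 8 - ρ / 2 * (zz K m U ^ 2 + zz K m U * zz K m' U + zz K m' U ^ 2)) := by
    simp only [gm1]; ring
  rw [hd, hg]
  generalize zz K m U = z at hz
  generalize zz K m' U = w at hz'
  obtain ⟨a1, a2⟩ := hz
  obtain ⟨b1, b2⟩ := hz'
  have hzw : 1 / 4 ≤ z * w := by nlinarith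
  have hzw2 : z * w ≤ 4 := by nlinarith
  have hz2 : z ^ 2 ≤ 4 := by nlinarith
  have hw2 : w ^ 2 ≤ 4 := by nlinarith
  have hp0 : 0 ≤ ρ / 2 * (z ^ 2 + z * w + w ^ 2) := by positivity
  have hp1 : ρ / 2 * (z ^ 2 + z * w + w ^ 2) ≤ 1 / 20000 * 12 :=
    mul_le_mul (by linarith) (by linarith) (by positivity) (by norm_num)
  rw [abs_mul, abs_mul, abs_sub_comm w z,
    abs_of_nonneg (a := 1 / 8 - ρ / 2 * (z ^ 2 + z * w + w ^ 2)) (by linarith),
    abs_of_nonneg (a := U / (16 * K) / (z * w)) (by positivity)]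
  constructor
  · calc 4 * K / (9 * U) * (|z - w| * (U / (16 * K) / (z * w)))
        ≤ 4 * K / (9 * U) * (|z - w| * (U / (16 * K) / (1 / 4))) := by gcongr
      _ = |z - w| * (1 / 9) := by field_simp; ring
      _ ≤ _ := by gcongr; linarith
  · have : |z - w| ≤ 2 := by rw [abs_le]; constructor <;> linarith
    calc _ ≤ 2 * (1 / 8 : ℝ) := mul_le_mul this (by linarith) (by linarith) (by norm_num)
      _ ≤ _ := by norm_num

lemma block (hc : CFS) (hv : SieveS) {K M B : ℕ} {ρ U : ℝ} (hK : 1 ≤ K) (hM : 1 ≤ M)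
    (hMK : M ≤ K) (h0 : 0 ≤ ρ) (h1 : ρ ≤ 1 / 10000) (hU : U < K * B) {c c' : Finset ℤ} {v v' : ℤ}
    (hcv : ∀ d ∈ c, v ≤ d ∧ d < v + B) (hcv' : ∀ d ∈ c', v' ≤ d ∧ d < v' + B) {θ : ℤ → ℂ}
    (hθ : ∀ u, ‖θ u‖ = 1) :
    ‖∑ u ∈ c, ∑ w ∈ c', θ u * conj (θ w) * G K M ρ U ((u : ℝ) - w - U)‖ ≤
      630 * K * B * Real.log (K + 2) * (dec K B U * (c.card + c'.card)) := by
  have hK' : (1 : ℝ) ≤ K := by exact_mod_cast hK
  have hL := one_le_log_add_two hK'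
  have hdec := dec_nonneg K B U
  by_cases hU8 : U ≤ 8 * K
  · have hG : ∀ x, G K M ρ U x = 0 := fun x => by
      refine Finset.sum_eq_zero fun m hm => ?_
      have hm' : (1 : ℝ) ≤ m := by exact_mod_cast (Finset.mem_Icc.1 hm).1
      rw [mainT_eq_zero (Or.inl ?_), zero_mul]
      rw [zz, div_le_iff₀ (by positivity)]
      nlinarith
    simp only [hG, mul_zero, Finset.sum_const_zero, norm_zero]
    positivity
  push Not at hU8
  have hU0 : 0 < U := by linarith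
  have hsU : 0 < √U := Real.sqrt_pos.2 hU0
  rw [dec, if_pos ⟨by linarith, hU⟩]
  set t := (Finset.Icc 1 M).filter fun m : ℕ => 1 / 2 < zz K m U ∧ zz K m U < 2 with ht
  set η : ℕ → ℝ := fun m => gm1 K ρ m U with hη
  have hpos : ∀ m ∈ t, (0 : ℝ) < m := fun m hm => by
    exact_mod_cast (Finset.mem_Icc.1 (Finset.mem_filter.1 hm).1).1
  have hsieve : ∀ (s : Finset ℤ) (p : ℤ), (∀ d ∈ s, p ≤ d ∧ d < p + B) →
      ∑ m ∈ t, ‖∑ d ∈ s, θ d * e (d * η m)‖ ^ 2 ≤ 7 * B * Real.log (K + 2) * s.card := by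
    intro s p hs
    refine (hv t η M B (4 * K / (9 * U)) s p θ (by positivity) (Finset.filter_subset _ _)
      (fun m hm m' hm' => eta_sep (by linarith) (hpos m hm) (hpos m' hm') h0 h1
        (Finset.mem_filter.1 hm).2 (Finset.mem_filter.1 hm').2) hs).trans ?_
    simp only [hθ, one_pow, Finset.sum_const, nsmul_eq_mul, mul_one]
    gcongr
    have hlM : Real.log M ≤ Real.log (K + 2) := by
      have : (M : ℝ) ≤ K := by exact_mod_cast hMK
      exact Real.log_le_log (by exact_mod_cast hM) (by linarith)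
    have h3 : (1 + Real.log M) / (4 * K / (9 * U)) ≤ 2 * Real.log (K + 2) * (3 * B) := by
      rw [div_eq_mul_inv, inv_div]
      have hlM0 : 0 ≤ Real.log M := Real.log_natCast_nonneg M
      refine mul_le_mul (by linarith) ?_ (by positivity) (by positivity)
      rw [div_le_iff₀ (by positivity)]
      nlinarith
    have hB0 : (0 : ℝ) ≤ B := by positivity
    nlinarith
  have hexp : ∑ u ∈ c, ∑ w ∈ c', θ u * conj (θ w) * G K M ρ U ((u : ℝ) - w - U) =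
      ∑ m ∈ t, mainT K ρ m U * e (-(U * η m)) * ((∑ d ∈ c, θ d * e (d * η m)) *
        conj (∑ d ∈ c', θ d * e (d * η m))) := by
    have hG : ∀ x, G K M ρ U x = ∑ m ∈ t, mainT K ρ m U * e (x * η m) := fun x => by
      rw [G, ht, Finset.sum_filter]
      refine Finset.sum_congr rfl fun m _ => ?_
      split_ifs with h
      · rfl
      · rw [mainT_eq_zero (by rw [not_and_or, not_lt, not_lt] at h; exact h), zero_mul]
    simp only [hG, Finset.mul_sum, map_sum, Finset.sum_mul]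
    rw [Finset.sum_comm]
    refine (Finset.sum_congr rfl fun w _ => Finset.sum_comm).trans ?_
    rw [Finset.sum_comm]
    refine Finset.sum_congr rfl fun m _ => Finset.sum_congr rfl fun w _ =>
      Finset.sum_congr rfl fun u _ => ?_
    rw [show ((u : ℝ) - w - U) * η m = u * η m - w * η m + -(U * η m) by ring, e_add, e_sub,
      map_mul]
    ring
  rw [hexp]
  have hmx : ∀ m ∈ t, ‖mainT K ρ m U‖ ≤ 180 * K / √U := fun m hm => by
    rw [norm_mainT]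
    refine (norm_am_le hc _ _ _).trans ?_
    have h2 := (Finset.mem_filter.1 hm).2.2
    have hm0 := hpos m hm
    rw [zz, div_lt_iff₀ (by positivity)] at h2
    have h3 : √((K : ℝ) / m) ≤ 6 * K / √U := by
      refine Real.sqrt_le_iff.2 ⟨by positivity, ?_⟩
      rw [div_pow, Real.sq_sqrt hU0.le, div_le_div_iff₀ hm0 hU0]
      have : (0 : ℝ) < K * (K * m) := by positivity
      nlinarith
    calc _ ≤ 30 * (6 * K / √U) := by gcongr
      _ = _ := by ring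
  calc _ ≤ ∑ m ∈ t, 90 * K / √U * (‖∑ d ∈ c, θ d * e (d * η m)‖ ^ 2 +
          ‖∑ d ∈ c', θ d * e (d * η m)‖ ^ 2) := by
        refine (norm_sum_le _ _).trans (Finset.sum_le_sum fun m hm => ?_)
        rw [norm_mul, norm_mul, norm_mul, norm_e, mul_one, Complex.norm_conj]
        generalize ‖∑ d ∈ c, θ d * e (d * η m)‖ = a
        generalize ‖∑ d ∈ c', θ d * e (d * η m)‖ = b
        have h4 : a * b ≤ (a ^ 2 + b ^ 2) / 2 := by nlinarith [sq_nonneg (a - b)]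
        calc _ ≤ ‖mainT K ρ m U‖ * ((a ^ 2 + b ^ 2) / 2) := by gcongr
          _ ≤ 180 * K / √U * ((a ^ 2 + b ^ 2) / 2) := by gcongr; exact hmx m hm
          _ = _ := by ring
    _ ≤ 90 * K / √U * (7 * B * Real.log (K + 2) * c.card + 7 * B * Real.log (K + 2) * c'.card) := by
        rw [← Finset.mul_sum, Finset.sum_add_distrib]
        gcongr
        exacts [hsieve c v hcv, hsieve c' v' hcv']
    _ = _ := by ring

end Pool.Agent.Lib.MP_80d0cf_nt.Up.HeavyAAux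
end

-- part Pool.Agent.Lib.MP_80d0cf_nt.Up.HeavyA2
section

/-! Counting of heavy cells and the quadratic form of the linearised kernel. -/

open Set MeasureTheory ComplexConjugate

namespace Pool.Agent.Lib.MP_80d0cf_nt.Up.HeavyAAux

lemma cells_sum {W T : Finset ℤ} {B : ℤ} {n0 : ℝ} (F : ℤ → ℝ) (hF : ∀ c, 0 ≤ F c)
    (hT : ∀ c ∈ T, n0 ≤ ((W.filter fun v => v / B = c).card : ℝ)) :
    n0 * ∑ c ∈ T, F c ≤ ∑ v ∈ W, F (v / B) := by
  calc n0 * ∑ c ∈ T, F c ≤ ∑ c ∈ T, ∑ v ∈ W with v / B = c, F (v / B) := by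
        rw [Finset.mul_sum]
        refine Finset.sum_le_sum fun c hc => ?_
        rw [Finset.sum_congr rfl (g := fun _ => F c)
          (fun v hv => by rw [(Finset.mem_filter.1 hv).2]), Finset.sum_const, nsmul_eq_mul]
        exact mul_le_mul_of_nonneg_right (hT c hc) (hF c)
    _ = ∑ v ∈ W with v / B ∈ T, F (v / B) := Finset.sum_fiberwise_eq_sum_filter _ _ _ _
    _ ≤ _ := Finset.sum_le_sum_of_subset_of_nonneg (Finset.filter_subset _ _) fun v _ _ => hF _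

lemma dec_le {K B : ℕ} (hK : 1 ≤ K) (U : ℝ) :
    dec K B U ≤ ∑ j ∈ Finset.Icc 1 B,
      if (j : ℝ) * K ≤ U ∧ U < (j + 1) * K then 1 / √K * (1 / √(j : ℝ)) else 0 := by
  have hK' : (0 : ℝ) < K := by exact_mod_cast hK
  have hnn : ∀ j ∈ Finset.Icc 1 B, 0 ≤
      (if (j : ℝ) * K ≤ U ∧ U < (j + 1) * K then 1 / √K * (1 / √(j : ℝ)) else 0) := fun j _ => by
    split_ifs <;> positivity
  rw [dec]
  split_ifs with h
  · have h1 : 1 ≤ U / K := by rw [le_div_iff₀ hK']; linarith [h.1]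
    have h2 : U / K < B := by rw [div_lt_iff₀ hK']; linarith [h.2]
    have h3 := Nat.floor_le (show 0 ≤ U / K by linarith)
    have h4 := Nat.lt_floor_add_one (U / K)
    have h5 : 1 ≤ ⌊U / K⌋₊ := Nat.le_floor (by simpa using h1)
    have h6 : ⌊U / K⌋₊ ≤ B := Nat.floor_le_of_le h2.le
    rw [le_div_iff₀ hK'] at h3
    rw [div_lt_iff₀ hK'] at h4
    refine le_trans ?_ (Finset.single_le_sum hnn (Finset.mem_Icc.2 ⟨h5, h6⟩))
    have h7 : (0 : ℝ) < ⌊U / K⌋₊ := by exact_mod_cast h5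
    rw [if_pos ⟨h3, h4⟩, div_mul_div_comm, one_mul, ← Real.sqrt_mul hK'.le]
    gcongr
    linarith
  · exact Finset.sum_nonneg hnn

lemma window_sum {W : Finset ℤ} {K B : ℕ} {Nw : ℝ} (hK : 1 ≤ K) (hN : 0 ≤ Nw)
    (hW : ∀ W0 ⊆ W, (∀ u ∈ W0, ∀ v ∈ W0, |(u : ℝ) - v| ≤ 2 * K) → (W0.card : ℝ) ≤ Nw)
    (g : ℤ → ℝ) (hg : ∀ u v, |g u - g v| ≤ K → |(u : ℝ) - v| ≤ 2 * K) :
    ∑ v ∈ W, dec K B (g v) ≤ Nw * (2 * √B / √K) := by
  refine (Finset.sum_le_sum fun v _ => dec_le hK (g v)).trans ?_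
  rw [Finset.sum_comm]
  calc _ ≤ ∑ j ∈ Finset.Icc 1 B, Nw * (1 / √K * (1 / √(j : ℝ))) := by
        refine Finset.sum_le_sum fun j _ => ?_
        rw [← Finset.sum_filter, Finset.sum_const, nsmul_eq_mul]
        gcongr
        refine hW _ (Finset.filter_subset _ _) fun u hu v hv => hg u v ?_
        have a := (Finset.mem_filter.1 hu).2
        have b := (Finset.mem_filter.1 hv).2
        rw [abs_le]; constructor <;> linarith [a.1, a.2, b.1, b.2]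
    _ ≤ Nw * (1 / √K * (2 * √B)) := by
        rw [← Finset.mul_sum, ← Finset.mul_sum]
        gcongr
        exact sum_inv_sqrt_le B
    _ = _ := by ring

lemma cell_mem {B : ℕ} (hB : 1 ≤ B) (u : ℤ) :
    (B : ℤ) * (u / B) ≤ u ∧ u < B * (u / B) + B := by
  have hB' : (0 : ℤ) < B := by exact_mod_cast hB
  have h1 := Int.mul_ediv_add_emod u B
  have h2 := Int.emod_nonneg u hB'.ne'
  have h3 := Int.emod_lt_of_pos u hB'
  omega

/-- offset between the cells of two points -/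
noncomputable def off (B : ℕ) (c c' : ℤ) : ℝ := B * ((c : ℝ) - c')

lemma off_swap (B : ℕ) (c c' : ℤ) : off B c' c = -off B c c' := by simp only [off]; ring

lemma abs_sub_off {B : ℕ} (hB : 1 ≤ B) (u v : ℤ) :
    |(u : ℝ) - v - off B (u / B) (v / B)| ≤ B := by
  obtain ⟨a1, a2⟩ := cell_mem hB u
  obtain ⟨b1, b2⟩ := cell_mem hB v
  have a1' : (B : ℝ) * ((u / B : ℤ) : ℝ) ≤ u := by exact_mod_cast a1
  have a2' : (u : ℝ) < (B : ℝ) * ((u / B : ℤ) : ℝ) + B := by exact_mod_cast a2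
  have b1' : (B : ℝ) * ((v / B : ℤ) : ℝ) ≤ v := by exact_mod_cast b1
  have b2' : (v : ℝ) < (B : ℝ) * ((v / B : ℤ) : ℝ) + B := by exact_mod_cast b2
  rw [off, abs_le]; constructor <;> linarith

lemma heavy_row {W T : Finset ℤ} {K B : ℕ} {Nw n0 : ℝ} (hK : 1 ≤ K) (hB : 1 ≤ B) (hBK : B ≤ K)
    (hN : 0 ≤ Nw) (hn : 0 < n0)
    (hW : ∀ W0 ⊆ W, (∀ u ∈ W0, ∀ v ∈ W0, |(u : ℝ) - v| ≤ 2 * K) → (W0.card : ℝ) ≤ Nw)
    (hT : ∀ c ∈ T, n0 ≤ ((W.filter fun v => v / (B : ℤ) = c).card : ℝ)) (c : ℤ) :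
    ∑ c' ∈ T, dec K B (off B c c') ≤ Nw * (2 * √B / √K) / n0 ∧
      ∑ c' ∈ T, dec K B (off B c' c) ≤ Nw * (2 * √B / √K) / n0 := by
  have hBK' : (B : ℝ) ≤ K := by exact_mod_cast hBK
  have key : ∀ u v : ℤ, |off B (u / B) (v / B)| ≤ K → |(u : ℝ) - v| ≤ 2 * K := fun u v h => by
    have h1 := abs_le.1 (abs_sub_off hB u v)
    have h2 := abs_le.1 h
    rw [abs_le]; constructor <;> linarith [h1.1, h1.2, h2.1, h2.2]
  constructor
  · rw [le_div_iff₀' hn]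
    refine (cells_sum (fun c' => dec K B (off B c c')) (fun _ => dec_nonneg _ _ _) hT).trans ?_
    refine window_sum hK hN hW (fun v => off B c (v / B)) fun u v h => key u v ?_
    rw [← abs_neg] at h
    simp only [off] at h ⊢
    rwa [show (B : ℝ) * (((u / B : ℤ) : ℝ) - ((v / B : ℤ) : ℝ)) =
      -((B : ℝ) * (c - ((u / B : ℤ) : ℝ)) - B * (c - ((v / B : ℤ) : ℝ))) by ring]
  · rw [le_div_iff₀' hn]
    refine (cells_sum (fun c' => dec K B (off B c' c)) (fun _ => dec_nonneg _ _ _) hT).trans ?_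
    refine window_sum hK hN hW (fun v => off B (v / B) c) fun u v h => key u v ?_
    simp only [off] at h ⊢
    rwa [show (B : ℝ) * (((u / B : ℤ) : ℝ) - ((v / B : ℤ) : ℝ)) =
      (B : ℝ) * (((u / B : ℤ) : ℝ) - c) - B * (((v / B : ℤ) : ℝ) - c) by ring]

/-- the linearised kernel on pairs of points -/
noncomputable def GG (K M B : ℕ) (ρ : ℝ) (u v : ℤ) : ℂ :=
  G K M ρ (off B (u / B) (v / B)) ((u : ℝ) - v - off B (u / B) (v / B))

lemma quad (hc : CFS) (hv : SieveS) {K M B : ℕ} {ρ R : ℝ} (hK : 1 ≤ K) (hM : 1 ≤ M) (hB : 1 ≤ B)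
    (hMK : M ≤ K) (h0 : 0 ≤ ρ) (h1 : ρ ≤ 1 / 10000) {V : Finset ℤ}
    (hV : ∀ u ∈ V, ∀ v ∈ V, u / (B : ℤ) - v / B < K)
    (hR : ∀ c, ∑ c' ∈ V.image (· / (B : ℤ)), dec K B (off B c c') ≤ R ∧
      ∑ c' ∈ V.image (· / (B : ℤ)), dec K B (off B c' c) ≤ R)
    {θ : ℤ → ℂ} (hθ : ∀ u, ‖θ u‖ = 1) :
    ‖∑ u ∈ V, ∑ w ∈ V, θ u * conj (θ w) * GG K M B ρ u w‖ ≤
      630 * K * B * Real.log (K + 2) * (2 * R * V.card) := by
  set T := V.image (· / (B : ℤ)) with hT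
  set n : ℤ → ℝ := fun c => ((V.filter fun u => u / (B : ℤ) = c).card : ℝ) with hn
  have hmap : ∀ u ∈ V, u / (B : ℤ) ∈ T := fun u hu => Finset.mem_image_of_mem _ hu
  have hsum : ∑ c ∈ T, n c = V.card := by
    rw [Finset.card_eq_sum_card_fiberwise (f := (· / (B : ℤ))) (t := T) hmap]
    simp [hn]
  have hL : 0 ≤ Real.log (K + 2) := Real.log_nonneg (by linarith [Nat.cast_nonneg (α := ℝ) K])
  have hB' : (0 : ℝ) < B := by exact_mod_cast hB
  have hsplit : ∑ u ∈ V, ∑ w ∈ V, θ u * conj (θ w) * GG K M B ρ u w =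
      ∑ c ∈ T, ∑ c' ∈ T, ∑ u ∈ V with u / (B : ℤ) = c, ∑ w ∈ V with w / (B : ℤ) = c',
        θ u * conj (θ w) * G K M ρ (off B c c') ((u : ℝ) - w - off B c c') := by
    rw [← Finset.sum_fiberwise_of_maps_to hmap]
    refine Finset.sum_congr rfl fun c _ => ?_
    rw [Finset.sum_comm (t := V.filter _)]
    refine Finset.sum_congr rfl fun u hu => ?_
    rw [← Finset.sum_fiberwise_of_maps_to hmap]
    refine Finset.sum_congr rfl fun c' _ => Finset.sum_congr rfl fun w hw => ?_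
    rw [GG, (Finset.mem_filter.1 hu).2, (Finset.mem_filter.1 hw).2]
  have hcell : ∀ c : ℤ, ∀ d ∈ V.filter fun u => u / (B : ℤ) = c,
      (B : ℤ) * c ≤ d ∧ d < B * c + B := fun c d hd => by
    rw [← (Finset.mem_filter.1 hd).2]; exact cell_mem hB d
  rw [hsplit]
  calc _ ≤ ∑ c ∈ T, ∑ c' ∈ T,
          630 * K * B * Real.log (K + 2) * (dec K B (off B c c') * (n c + n c')) := by
        refine (norm_sum_le _ _).trans (Finset.sum_le_sum fun c hc1 => ?_)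
        refine (norm_sum_le _ _).trans (Finset.sum_le_sum fun c' hc2 => ?_)
        refine block hc hv hK hM hMK h0 h1 ?_ (hcell c) (hcell c') hθ
        obtain ⟨u, hu, rfl⟩ := Finset.mem_image.1 hc1
        obtain ⟨w, hw, rfl⟩ := Finset.mem_image.1 hc2
        have h2 : ((u / B : ℤ) : ℝ) - ((w / B : ℤ) : ℝ) < K := by exact_mod_cast hV u hu w hw
        rw [off, mul_comm]
        gcongr
    _ = 630 * K * B * Real.log (K + 2) *
          (∑ c ∈ T, (∑ c' ∈ T, dec K B (off B c c')) * n c +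
            ∑ c' ∈ T, (∑ c ∈ T, dec K B (off B c c')) * n c') := by
        simp only [← Finset.mul_sum, mul_add, Finset.sum_add_distrib, Finset.sum_mul]
        rw [Finset.sum_comm (f := fun c c' => dec K B (off B c c') * n c')]
    _ ≤ 630 * K * B * Real.log (K + 2) * (∑ c ∈ T, R * n c + ∑ c' ∈ T, R * n c') := by
        gcongr with c _ c _
        exacts [(hR c).1, (hR c).2]
    _ = _ := by rw [← Finset.mul_sum, hsum]; ring

end Pool.Agent.Lib.MP_80d0cf_nt.Up.HeavyAAux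
end

-- part Pool.Agent.Lib.MP_80d0cf_nt.Up.Lvt2
section

/-! Large values: the energy at every dyadic scale. -/

open Set ComplexConjugate

namespace Pool.Agent.Lib.MP_80d0cf_nt.Up.LvtAux

lemma norm_DD_abs (K : ℕ) (ρ v : ℝ) : ‖DD K ρ v‖ = ‖DD K ρ |v|‖ := by
  rcases le_total v 0 with h | h
  · rw [abs_of_nonpos h, DD_neg, Complex.norm_conj]
  · rw [abs_of_nonneg h]

lemma DD_sq_le (hc : CFS) {K M : ℕ} {ρ t m A L Cf : ℝ} (hCf : 0 < Cf) (hK : (K : ℝ) = t ^ 4)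
    (hM : (M : ℝ) = m ^ 2) (hm : 1 ≤ m) (hmt : m ^ 8 ≤ t) (hAm : A ≤ m ^ 2) (hL : 1 ≤ L)
    (hρ : ρ * K ≤ A) {v : ℝ}
    (h : ‖DD K ρ |v| - Hp K (2 * M) ρ |v|‖ ≤
      Cf * L * (K / (1 + |v|) + 1 + ρ * K * ((2 * M : ℕ) : ℝ))) :
    ‖DD K ρ v‖ ^ 2 ≤ 2 * Cf ^ 2 * L ^ 2 * t ^ 8 / (1 + |v|) ^ 2 +
      2 * (90 + 3 * Cf) ^ 2 * L ^ 2 * t ^ 4 * m ^ 2 := by
  have ht : 1 ≤ t := (one_le_pow₀ hm).trans hmt
  have h1 : ‖Hp K (2 * M) ρ |v|‖ ≤ 90 * (t ^ 2 * m) := by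
    refine (norm_Hp_le hc _ _ _ _).trans ?_
    have : √((K : ℝ) * ((2 * M : ℕ) : ℝ)) ≤ 3 / 2 * (t ^ 2 * m) := by
      refine Real.sqrt_le_iff.2 ⟨by positivity, ?_⟩
      push_cast; rw [hK, hM]
      have : 0 ≤ t ^ 4 * m ^ 2 := by positivity
      nlinarith
    linarith
  have h2 : 1 + ρ * K * ((2 * M : ℕ) : ℝ) ≤ 3 * (t ^ 2 * m) := by
    push_cast; rw [hM]
    have e1 : ρ * K * (2 * m ^ 2) ≤ m ^ 2 * (2 * m ^ 2) := by gcongr; exact hρ.trans hAm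
    have e2 : m ^ 4 ≤ t ^ 2 * m := calc
      m ^ 4 ≤ m ^ 8 := pow_le_pow_right₀ hm (by norm_num)
      _ ≤ t := hmt
      _ = t ^ 1 * 1 := by ring
      _ ≤ t ^ 2 * m := by gcongr; norm_num
    have e3 : 1 ≤ m ^ 4 := one_le_pow₀ hm
    nlinarith
  have h3 : ‖DD K ρ v‖ ≤ Cf * L * t ^ 4 / (1 + |v|) + (90 + 3 * Cf) * L * (t ^ 2 * m) := by
    rw [norm_DD_abs]
    have e1 := norm_le_norm_sub_add (DD K ρ |v|) (Hp K (2 * M) ρ |v|)
    have e2 : Cf * L * (K / (1 + |v|) + 1 + ρ * K * ((2 * M : ℕ) : ℝ)) ≤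
        Cf * L * (t ^ 4 / (1 + |v|) + 3 * (t ^ 2 * m)) := by
      rw [add_assoc, ← hK]; gcongr
    have e3 : 90 * (t ^ 2 * m) ≤ 90 * L * (t ^ 2 * m) := by
      gcongr; linarith
    calc _ ≤ Cf * L * (t ^ 4 / (1 + |v|) + 3 * (t ^ 2 * m)) + 90 * L * (t ^ 2 * m) := by linarith
      _ = _ := by ring
  calc _ ≤ (Cf * L * t ^ 4 / (1 + |v|) + (90 + 3 * Cf) * L * (t ^ 2 * m)) ^ 2 := by gcongr
    _ ≤ 2 * (Cf * L * t ^ 4 / (1 + |v|)) ^ 2 + 2 * ((90 + 3 * Cf) * L * (t ^ 2 * m)) ^ 2 := by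
        nlinarith [sq_nonneg (Cf * L * t ^ 4 / (1 + |v|) - (90 + 3 * Cf) * L * (t ^ 2 * m))]
    _ = _ := by rw [div_pow]; ring

lemma card_pairs_le {W : Finset ℤ} {P B : ℝ}
    (h : ∀ u ∈ W, ((W.filter fun v : ℤ => |(u : ℝ) - v| ≤ P).card : ℝ) ≤ B) :
    (((W ×ˢ W).filter fun q => |(q.1 : ℝ) - q.2| ≤ P).card : ℝ) ≤ W.card * B := by
  rw [Finset.card_filter, Finset.sum_product]
  push_cast
  refine (Finset.sum_le_card_nsmul _ _ B fun u hu => ?_).trans (by simp)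
  have := h u hu
  rw [Finset.card_filter] at this
  push_cast at this
  exact this

lemma wt_facts {P A m : ℝ} (hP : 1 ≤ P) (hA : 1 ≤ A) (hm : 1 ≤ m) :
    0 < wt (4800 * A * m ^ 2) P ∧ wt (4800 * A * m ^ 2) P * P ≤ 70 * A * m ∧
      wt (4800 * A * m ^ 2) P * (√P + P / m) ≤ 71 * A := by
  have h0 : 0 < wt (4800 * A * m ^ 2) P := lt_min (by positivity) (by positivity)
  have h1 : wt (4800 * A * m ^ 2) P * P ≤ 70 * A * m := by
    have e1 : √(4800 * A * m ^ 2) ≤ 70 * A * m := by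
      refine Real.sqrt_le_iff.2 ⟨by positivity, ?_⟩
      have : 0 ≤ A * m ^ 2 := by positivity
      nlinarith
    calc _ ≤ √(4800 * A * m ^ 2) / (1 + P) * P := by gcongr; exact min_le_right _ _
      _ ≤ 70 * A * m / P * P := by gcongr; linarith
      _ = _ := by field_simp
  have h2 : wt (4800 * A * m ^ 2) P * √P ≤ 1 := by
    have e1 : 0 < √P := Real.sqrt_pos.2 (by linarith)
    calc _ ≤ 1 / √(1 + P) * √P := by gcongr; exact min_le_left _ _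
      _ ≤ 1 / √P * √P := by gcongr; linarith
      _ = _ := by field_simp
  refine ⟨h0, h1, ?_⟩
  have h3 : wt (4800 * A * m ^ 2) P * (P / m) ≤ 70 * A := by
    rw [← mul_div_assoc, div_le_iff₀ (by linarith)]; exact h1
  rw [mul_add]; linarith

/-- The energy bound. -/
lemma energy_le (he : EnergyS) {K M P : ℕ} {ρ t m A L Γ c D : ℝ} {a : ℕ → ℂ} {W : Finset ℤ}
    (hc : 0 < c) (hD : 0 < D) (hM : (M : ℝ) = m ^ 2) (hm : 1 ≤ m) (hmt : m ^ 8 ≤ t) (hA : 1 ≤ A)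
    (hL : 1 ≤ L) (hΓ : 1 ≤ Γ) (hP : 1 ≤ P) (hP' : P ≤ 4 * K * M) (ha : ∀ k, ‖a k‖ ≤ 1)
    (hW : ∀ u ∈ W, 0 ≤ u ∧ u < K * M) (hR : (W.card : ℝ) ≤ t ^ 2 * m ^ 2)
    (hS : ∀ u ∈ W, t ^ 3 / A ≤ ‖SK K ρ a u‖)
    (hD' : ∀ v : ℝ, |v| ≤ 16 * K * M →
      ‖DD K ρ v‖ ^ 2 ≤ c * L ^ 2 * t ^ 8 / (1 + |v|) ^ 2 + D * L ^ 2 * t ^ 4 * m ^ 2)
    (hsp : ∀ P : ℕ, 1 ≤ P → ∀ u ∈ W,
      ((W.filter fun v : ℤ => |(u : ℝ) - v| ≤ P).card : ℝ) ≤ 9 * Γ * (√P + P / √M)) :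
    wt (4800 * A * m ^ 2) P * En W P ≤
      (4 * c + 1) * (10224 * c + 280 * D) * L ^ 4 * A ^ 5 * Γ * t ^ 6 * m ^ 2 := by
  have ht : 1 ≤ t := (one_le_pow₀ hm).trans hmt
  have hP1 : (1 : ℝ) ≤ P := by exact_mod_cast hP
  obtain ⟨w0, w1, w2⟩ := wt_facts hP1 hA hm
  generalize wt (4800 * A * m ^ 2) P = w at w0 w1 w2 ⊢
  obtain ⟨R, hRd⟩ : ∃ R : ℝ, (W.card : ℝ) = R := ⟨_, rfl⟩
  have hR0 : 0 ≤ R := hRd ▸ Nat.cast_nonneg _
  rw [hRd] at hR
  obtain ⟨c', hc'⟩ : ∃ c', c' = 10224 * c + 280 * D := ⟨_, rfl⟩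
  have hc0 : 0 < c' := by rw [hc']; positivity
  rw [← hc']
  have hsm : √(M : ℝ) = m := by rw [hM, Real.sqrt_sq (by linarith)]
  have hm5 : m ^ 5 ≤ t := (pow_le_pow_right₀ hm (by norm_num)).trans hmt
  have hN : (((W ×ˢ W).filter fun q => |(q.1 : ℝ) - q.2| ≤ 2 * P).card : ℝ) ≤
      R * (18 * Γ * (√P + P / m)) := by
    rw [← hRd]
    refine card_pairs_le fun u hu => ?_
    have := hsp (2 * P) (by omega) u hu
    push_cast at this
    refine this.trans ?_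
    have e1 : √(2 * (P : ℝ)) ≤ 2 * √P := by
      rw [Real.sqrt_mul (by norm_num)]
      gcongr
      exact Real.sqrt_le_iff.2 ⟨by norm_num, by norm_num⟩
    rw [hsm]
    calc _ ≤ 9 * Γ * (2 * √P + 2 * P / m) := by gcongr
      _ = _ := by ring
  have hKM : (0 : ℝ) ≤ K * M := by positivity
  obtain ⟨Y1, hY1⟩ : ∃ Y1, Y1 = c' * L ^ 2 * A * Γ * t ^ 10 * m ^ 2 := ⟨_, rfl⟩
  obtain ⟨Y2, hY2⟩ : ∃ Y2, Y2 = c' * L ^ 2 * A * Γ * t ^ 12 * m ^ 12 := ⟨_, rfl⟩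
  have key := he _ _ (ok K) (yk K ρ) a W P (t ^ 3 / A) (c * L ^ 2 * t ^ 8) (D * L ^ 2 * t ^ 4 * m ^ 2)
    (K * M) _ (P * Y1 / w) (P * Y2 / w) (Ico_subset_Icc K) (fun k _ => ok_nonneg K k)
    (norm_le_ok ha) (by positivity) (by positivity) (by positivity) hP hS
    (fun u hu v hv => by
      have h1 := hW u hu
      have h2 := hW v hv
      have : |u - v| ≤ (K : ℤ) * M := by rw [abs_le]; constructor <;> linarith
      exact_mod_cast this)
    (fun v hv => hD' v (by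
      have : (P : ℝ) ≤ 4 * K * M := by exact_mod_cast hP'
      nlinarith)) hN
    (by
      rw [le_div_iff₀ w0, hRd]
      have e1 : 8 * (c * L ^ 2 * t ^ 8) * P * (R * (18 * Γ * (√P + P / m))) * w ≤
          P * (10224 * c * L ^ 2 * A * Γ * t ^ 10 * m ^ 2) := calc
        _ = P * (144 * c * L ^ 2 * t ^ 8 * Γ * R * (w * (√P + P / m))) := by ring
        _ ≤ P * (144 * c * L ^ 2 * t ^ 8 * Γ * (t ^ 2 * m ^ 2) * (71 * A)) := by gcongr
        _ = _ := by ring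
      have e2 : 4 * (P : ℝ) ^ 2 * R ^ 2 * (D * L ^ 2 * t ^ 4 * m ^ 2) * w ≤
          P * (280 * D * L ^ 2 * A * Γ * t ^ 10 * m ^ 2) := calc
        _ = P * (4 * D * L ^ 2 * t ^ 4 * m ^ 2 * R ^ 2 * (w * P)) := by ring
        _ ≤ P * (4 * D * L ^ 2 * t ^ 4 * m ^ 2 * (t ^ 2 * m ^ 2) ^ 2 * (70 * A * m)) := by gcongr
        _ = P * (280 * D * L ^ 2 * A * 1 * t ^ 8 * m ^ 2 * m ^ 5 * 1) := by ring
        _ ≤ P * (280 * D * L ^ 2 * A * Γ * t ^ 8 * m ^ 2 * t * t) := by gcongr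
        _ = _ := by ring
      calc _ ≤ P * (10224 * c * L ^ 2 * A * Γ * t ^ 10 * m ^ 2) +
            P * (280 * D * L ^ 2 * A * Γ * t ^ 10 * m ^ 2) := by rw [add_mul]; exact add_le_add e1 e2
        _ = _ := by rw [hY1, hc']; ring)
    (by
      rw [le_div_iff₀ w0, hRd]
      calc _ = P * (4 * D * L ^ 2 * t ^ 4 * m ^ 2 * R ^ 4 * (w * P)) := by ring
        _ ≤ P * (4 * D * L ^ 2 * t ^ 4 * m ^ 2 * (t ^ 2 * m ^ 2) ^ 4 * (70 * A * m)) := by gcongr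
        _ = P * (280 * D * L ^ 2 * A * 1 * t ^ 12 * m ^ 11 * 1) := by ring
        _ ≤ P * (c' * L ^ 2 * A * Γ * t ^ 12 * m ^ 11 * m) := by gcongr; linarith
        _ = _ := by rw [hY2]; ring)
  have hsq : √(P * Y1 / w * (P * Y2 / w)) = P / w * (c' * L ^ 2 * A * Γ * t ^ 11 * m ^ 7) := by
    rw [← Real.sqrt_sq (x := P / w * (c' * L ^ 2 * A * Γ * t ^ 11 * m ^ 7)) (by positivity)]
    congr 1; rw [hY1, hY2]; ring
  rw [hsq] at key
  have h1 : w * En W P ≤ 4 * c * c' * L ^ 4 * A ^ 5 * Γ * t ^ 6 * m ^ 2 +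
      c' * L ^ 2 * A ^ 3 * Γ * t ^ 5 * m ^ 2 * m ^ 5 := by
    refine le_of_mul_le_mul_left ?_ (show 0 < P / w by positivity)
    calc _ = (P : ℝ) * En W P := by field_simp
      _ ≤ _ := key
      _ = _ := by rw [hY1]; field_simp
  have h2 : c' * L ^ 2 * A ^ 3 * Γ * t ^ 5 * m ^ 2 * m ^ 5 ≤
      c' * L ^ 4 * A ^ 5 * Γ * t ^ 5 * m ^ 2 * t := by
    gcongr <;> norm_num
  calc _ ≤ 4 * c * c' * L ^ 4 * A ^ 5 * Γ * t ^ 6 * m ^ 2 +
      c' * L ^ 4 * A ^ 5 * Γ * t ^ 5 * m ^ 2 * t := by linarith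
    _ = _ := by ring

end Pool.Agent.Lib.MP_80d0cf_nt.Up.LvtAux
end
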