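import Pool.Agent.Lib.MP_80d0cf_nt.Up.Lvt1
import Pool.Agent.Lib.MP_80d0cf_nt.Up.Lvt2

/-! The large values theorem for sums with frequencies close to square roots. -/

open Set ComplexConjugate

namespace Pool.Agent.Lib.MP_80d0cf_nt.Up

namespace LvtAux

lemma core_alg {t m A L g c2 Ct Ch Cf T R : ℝ} (hm : 1 ≤ m) (hmt : m ^ 8 ≤ t) (hA : 1 ≤ A)
    (hL : 1 ≤ L) (hg : 1 ≤ g) (hc2 : 0 < c2) (hCt : 0 < Ct) (hCh : 0 < Ch) (hCf : 0 < Cf)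
    (hR0 : 0 ≤ R) (hR : R ≤ t ^ 2 * m ^ 2)
    (h1 : T ^ 2 ≤ Ct * R * (Ch * t ^ 2 * m / g ^ 2) ^ 2 * (m ^ 2) ^ 3 * L ^ 3 *
      ((t ^ 4) ^ 3 * (c2 * L ^ 4 * A ^ 5 * g ^ 2 * t ^ 6 * m ^ 2) + (t ^ 4) ^ 2 * R ^ 4))
    (h2 : (t ^ 4 * m ^ 2 / (16 * A ^ 3)) ^ 3 ≤
      6 * T + 7 * Cf * L ^ 2 * t ^ 4 * (R ^ 2 * (Ch * t ^ 2 * m / g ^ 2) ^ 2)) :
    g ≤ 4096 * (6 * ((Ct + 1) * (c2 + 1) * Ch) + 7 * Cf * Ch ^ 2) * L ^ 4 * A ^ 12 := by
  have ht : 1 ≤ t := (one_le_pow₀ hm).trans hmt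
  have hm6 : m ^ 6 ≤ t := (pow_le_pow_right₀ hm (by norm_num)).trans hmt
  have e1 : (t ^ 4) ^ 2 * R ^ 4 ≤ L ^ 4 * A ^ 5 * g ^ 2 * t ^ 18 * m ^ 2 := calc
    _ ≤ (t ^ 4) ^ 2 * (t ^ 2 * m ^ 2) ^ 4 := by gcongr
    _ = 1 ^ 4 * 1 ^ 5 * 1 ^ 2 * t ^ 16 * m ^ 2 * m ^ 6 * 1 := by ring
    _ ≤ L ^ 4 * A ^ 5 * g ^ 2 * t ^ 16 * m ^ 2 * t * t := by gcongr
    _ = _ := by ring
  have e2 : T ≤ (Ct + 1) * (c2 + 1) * Ch * L ^ 4 * A ^ 3 * t ^ 12 * m ^ 6 / g := by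
    refine le_of_pow_le_pow_left₀ two_ne_zero (by positivity) ?_
    calc T ^ 2 ≤ _ := h1
      _ ≤ Ct * (t ^ 2 * m ^ 2) * (Ch * t ^ 2 * m / g ^ 2) ^ 2 * (m ^ 2) ^ 3 * L ^ 3 *
          ((t ^ 4) ^ 3 * (c2 * L ^ 4 * A ^ 5 * g ^ 2 * t ^ 6 * m ^ 2) +
            L ^ 4 * A ^ 5 * g ^ 2 * t ^ 18 * m ^ 2) := by gcongr
      _ = Ct * 1 * (c2 + 1) * 1 * 1 * 1 * (Ch ^ 2 * L ^ 7 * A ^ 5 * t ^ 24 * m ^ 12 / g ^ 2) := by
          field_simp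
      _ ≤ (Ct + 1) * (Ct + 1) * (c2 + 1) * (c2 + 1) * L * A *
          (Ch ^ 2 * L ^ 7 * A ^ 5 * t ^ 24 * m ^ 12 / g ^ 2) := by
          gcongr <;> linarith
      _ = _ := by field_simp
  have e3 : 7 * Cf * L ^ 2 * t ^ 4 * (R ^ 2 * (Ch * t ^ 2 * m / g ^ 2) ^ 2) ≤
      7 * Cf * Ch ^ 2 * L ^ 4 * A ^ 3 * t ^ 12 * m ^ 6 / g := calc
    _ ≤ 7 * Cf * L ^ 2 * t ^ 4 * ((t ^ 2 * m ^ 2) ^ 2 * (Ch * t ^ 2 * m / g ^ 2) ^ 2) := by gcongr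
    _ = 7 * Cf * Ch ^ 2 * L ^ 2 * 1 ^ 3 * t ^ 12 * m ^ 6 / g ^ 4 := by field_simp
    _ ≤ 7 * Cf * Ch ^ 2 * L ^ 4 * A ^ 3 * t ^ 12 * m ^ 6 / g ^ 1 := by gcongr <;> norm_num
    _ = _ := by rw [pow_one]
  have e4 : t ^ 12 * m ^ 6 / (4096 * A ^ 9) ≤
      (6 * ((Ct + 1) * (c2 + 1) * Ch) + 7 * Cf * Ch ^ 2) * L ^ 4 * A ^ 3 * (t ^ 12 * m ^ 6) / g :=
    calc _ = (t ^ 4 * m ^ 2 / (16 * A ^ 3)) ^ 3 := by field_simp; norm_num
      _ ≤ 6 * ((Ct + 1) * (c2 + 1) * Ch * L ^ 4 * A ^ 3 * t ^ 12 * m ^ 6 / g) +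
          7 * Cf * Ch ^ 2 * L ^ 4 * A ^ 3 * t ^ 12 * m ^ 6 / g := by linarith
      _ = _ := by ring
  rw [div_le_div_iff₀ (by positivity) (by positivity)] at e4
  refine le_of_mul_le_mul_left ?_ (show 0 < t ^ 12 * m ^ 6 by positivity)
  exact e4.trans (le_of_eq (by ring))

lemma abs_sub_le_of_mem {K M : ℕ} {W : Finset ℤ} (hW : ∀ u ∈ W, 0 ≤ u ∧ u < K * M) {u v : ℤ}
    (hu : u ∈ W) (hv : v ∈ W) : |(u : ℝ) - v| ≤ K * M := by
  have h1 := hW u hu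
  have h2 := hW v hv
  have : |u - v| ≤ (K : ℤ) * M := by rw [abs_le]; constructor <;> linarith
  exact_mod_cast this

/-- The main estimate for a well spaced set. -/
lemma core (hc : CFS) (hf : F1S) (ht1 : T1S) (he : EnergyS) (hcu : CubicS) (hs : SchurS)
    (hp : PsdS) (hd : DualS) (hr : RowS) {Ch : ℝ} (hCh : 0 < Ch) :
    ∃ c : ℝ, 0 < c ∧ ∀ (K M : ℕ) (ρ t m A g : ℝ) (a : ℕ → ℂ) (W : Finset ℤ), (K : ℝ) = t ^ 4 →
      (M : ℝ) = m ^ 2 → 1 ≤ m → 2 ≤ M → m ^ 8 ≤ t → 1 ≤ A → 1 ≤ g → 0 ≤ ρ → ρ * K ≤ A →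
      c * A ^ 3 * Real.log (K + 2) ^ 2 ≤ m ^ 2 → (∀ k, ‖a k‖ ≤ 1) → (∀ u ∈ W, 0 ≤ u ∧ u < K * M) →
      (W.card : ℝ) ≤ t ^ 2 * m ^ 2 → t ^ 2 * m ^ 2 / (2 * A) ≤ W.card →
      (∀ u ∈ W, t ^ 3 / A ≤ ‖SK K ρ a u‖) →
      (∀ P : ℕ, 1 ≤ P → ∀ u ∈ W,
        ((W.filter fun v : ℤ => |(u : ℝ) - v| ≤ P).card : ℝ) ≤ 9 * g ^ 2 * (√P + P / √M)) →
      (∀ u : ℝ, u ≤ 8 * K * M → ‖Hp K M ρ u‖ ≤ Ch * t ^ 2 * m / g ^ 2) →
      g ≤ c * Real.log (K + 2) ^ 4 * A ^ 12 := by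
  obtain ⟨Cf, hCf, hf⟩ := hf
  obtain ⟨Ct, hCt, ht1⟩ := ht1
  obtain ⟨c2, hc2⟩ : ∃ c2, c2 = (4 * (2 * Cf ^ 2) + 1) *
    (10224 * (2 * Cf ^ 2) + 280 * (2 * (90 + 3 * Cf) ^ 2)) := ⟨_, rfl⟩
  have hc20 : 0 < c2 := by rw [hc2]; positivity
  obtain ⟨c4, hc4⟩ : ∃ c4, c4 = 4096 * (6 * ((Ct + 1) * (c2 + 1) * Ch) + 7 * Cf * Ch ^ 2) :=
    ⟨_, rfl⟩
  have hc40 : 0 < c4 := by rw [hc4]; positivity
  refine ⟨c4 + 112 * Cf + 1, by positivity, ?_⟩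
  intro K M ρ t m A g a W hK hM hm hM2 hmt hA hg hρ0 hρ hbig ha hW hR hR' hS hsp hH
  have ht : 1 ≤ t := (one_le_pow₀ hm).trans hmt
  have hK1 : (1 : ℝ) ≤ K := hK ▸ one_le_pow₀ ht
  have hL := one_le_log_add_two hK1
  obtain ⟨L, hLd⟩ : ∃ L, Real.log (K + 2) = L := ⟨_, rfl⟩
  rw [hLd] at hL hbig ⊢
  have hm2 : (2 : ℝ) ≤ m ^ 2 := by rw [← hM]; exact_mod_cast hM2
  have hAL : A ≤ A ^ 3 * L ^ 2 := calc
    A = A ^ 1 * 1 ^ 2 := by ring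
    _ ≤ _ := by gcongr; norm_num
  have hAL0 : 0 ≤ A ^ 3 * L ^ 2 := by positivity
  have hAm : A ≤ m ^ 2 := by
    have : 0 ≤ (c4 + 112 * Cf) * (A ^ 3 * L ^ 2) := by positivity
    nlinarith
  have hbig' : 112 * Cf * A ^ 3 * L ^ 2 ≤ m ^ 2 := by
    have : 0 ≤ (c4 + 1) * (A ^ 3 * L ^ 2) := by positivity
    nlinarith
  have hbigK : ∀ n : ℕ, n ≤ 15 → 2 ^ n * m ^ 2 ≤ t ^ 4 := fun n hn => calc
    2 ^ n * m ^ 2 ≤ (m ^ 2) ^ n * m ^ 2 := by gcongr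
    _ ≤ (m ^ 2) ^ 15 * m ^ 2 := by gcongr; linarith
    _ = (m ^ 8) ^ 4 := by ring
    _ ≤ t ^ 4 := by gcongr
  have h2M : 2 * M ≤ K := by
    have := hbigK 1 (by norm_num)
    rw [← hK, ← hM, pow_one] at this
    exact_mod_cast this
  have hρ1 : ρ ≤ 1 / 10000 := by
    have := hbigK 14 (by norm_num)
    rw [← hK] at this
    refine le_of_mul_le_mul_right ?_ (show (0 : ℝ) < K by linarith)
    linarith
  have hKM : (0 : ℝ) ≤ K * M := by positivity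
  obtain ⟨R, hRd⟩ : ∃ R : ℝ, (W.card : ℝ) = R := ⟨_, rfl⟩
  have hR0 : 0 < R := hRd ▸ lt_of_lt_of_le (by positivity) hR'
  have hH' : ∀ u ∈ W, ∀ v ∈ W, ‖Hp K M ρ ((u : ℝ) - v)‖ ≤ Ch * t ^ 2 * m / g ^ 2 :=
    fun u hu v hv => hH _ (by nlinarith [le_abs_self ((u : ℝ) - v), abs_sub_le_of_mem hW hu hv])
  -- the energy
  have hen : ∀ j : ℕ, 2 ^ j ≤ 4 * K * M → wt (4800 * A * m ^ 2) (2 ^ j) * En W (2 ^ j) ≤
      c2 * L ^ 4 * A ^ 5 * g ^ 2 * t ^ 6 * m ^ 2 := fun j hj => by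
    have := energy_le he (c := 2 * Cf ^ 2) (D := 2 * (90 + 3 * Cf) ^ 2) (by positivity)
      (by positivity) hM hm hmt hA hL (one_le_pow₀ hg) Nat.one_le_two_pow hj ha hW hR hS
      (fun v hv => DD_sq_le hc hCf hK hM hm hmt hAm hL hρ (by
        rw [← hLd]
        exact hf K (2 * M) ρ |v| (by omega) h2M hρ0 (by linarith) (abs_nonneg _)
          (by push_cast; linarith))) hsp
    rw [hc2]
    push_cast at this
    exact this
  have hT := ht1 K M ρ (4800 * A * m ^ 2) _ _ W (by omega) (by omega) hρ0 hρ1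
    (by nlinarith) (by rw [hM, mul_assoc 4800]; gcongr) hW hH' hen
  -- the error matrix
  have hE : ∀ u ∈ W, ∑ v ∈ W, ‖DD K ρ ((u : ℝ) - v) - HH (Hp K M ρ) u v‖ ≤
      7 * Cf * L ^ 2 * t ^ 4 := fun u hu => by
    have h1 := hr W u (K * M) hKM fun v hv => abs_sub_le_of_mem hW hu hv
    have h2 : Real.log (K * M + 1) ≤ 2 * L := by
      have : (M : ℝ) ≤ K := by exact_mod_cast (show M ≤ K by omega)
      rw [← hLd, show 2 * Real.log (K + 2) = Real.log ((K + 2) ^ 2) by simp]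
      exact Real.log_le_log (by positivity) (by nlinarith)
    have h3 : R * (1 + ρ * K * M) ≤ t ^ 4 := calc
      _ ≤ t ^ 2 * m ^ 2 * (m ^ 2 * m ^ 2 + m ^ 2 * m ^ 2) := by
        rw [hM]; rw [hRd] at hR
        gcongr
        · nlinarith
        · exact hρ.trans hAm
      _ = t ^ 2 * (2 * m ^ 6) := by ring
      _ ≤ t ^ 2 * (m ^ 2 * m ^ 6) := by gcongr
      _ = t ^ 2 * (m ^ 8 * 1) := by ring
      _ ≤ t ^ 2 * (t * t) := by gcongr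
      _ = _ := by ring
    calc _ ≤ ∑ v ∈ W, Cf * L * (K / (1 + |(u : ℝ) - v|) + 1 + ρ * K * M) :=
          Finset.sum_le_sum fun v hv => norm_DD_sub_HH (U := 8 * K * M)
            (F := fun x => Cf * L * (K / (1 + x) + 1 + ρ * K * M))
            (fun x h0 hx => hLd ▸ hf K M ρ x (by omega) (by omega) hρ0 (by linarith) h0 hx)
            (by nlinarith [abs_sub_le_of_mem hW hu hv])
      _ = Cf * L * (K * ∑ v ∈ W, 1 / (1 + |(u : ℝ) - v|) + R * (1 + ρ * K * M)) := by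
          rw [← Finset.mul_sum, Finset.mul_sum W _ (K : ℝ), ← hRd, ← nsmul_eq_mul,
            ← Finset.sum_const, ← Finset.sum_add_distrib]
          congr 1
          exact Finset.sum_congr rfl fun v _ => by ring
      _ ≤ Cf * L * (t ^ 4 * (6 * L) + t ^ 4 * L) := by
          refine mul_le_mul_of_nonneg_left (add_le_add ?_
            (h3.trans (le_mul_of_one_le_right (by positivity) hL))) (by positivity)
          rw [hK]
          exact mul_le_mul_of_nonneg_left (by linarith) (by positivity)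
      _ = _ := by ring
  have hq := cubic_kernel hcu hs hp hd (M := M) (q := t ^ 4 * m ^ 2 / (16 * A ^ 3))
    (by omega) (by rw [← hRd] at hR0; exact_mod_cast hR0) ha (by positivity) hS (by positivity)
    (by positivity) hE (by
      have e1 : 7 * Cf * L ^ 2 * t ^ 4 ≤ t ^ 4 * m ^ 2 / (16 * A ^ 3) := by
        rw [le_div_iff₀ (by positivity)]
        calc _ = t ^ 4 * (112 * Cf * A ^ 3 * L ^ 2) := by ring
          _ ≤ _ := by gcongr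
      calc _ ≤ 2 * (t ^ 4 * m ^ 2 / (16 * A ^ 3)) := by linarith
        _ = t ^ 2 * m ^ 2 / (2 * A) * (t ^ 3 / A) ^ 2 / (4 * t ^ 4) := by field_simp; norm_num
        _ ≤ _ := by rw [hK]; gcongr) hH'
  rw [hLd, hRd] at hT
  rw [hRd] at hq hR
  generalize ‖∑ x ∈ W, ∑ a ∈ W, ∑ c ∈ W, Hp K M ρ ((x : ℝ) - a) * Hp K M ρ ((c : ℝ) - x) *
      conj (Hp K M ρ ((c : ℝ) - a))‖ = T at hT hq
  rw [hK, hM] at hT
  refine (core_alg hm hmt hA hL hg hc20 hCt hCh hCf hR0.le hR hT hq).trans ?_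
  rw [← hc4]
  gcongr
  linarith

end LvtAux

open LvtAux in
theorem lvt (hc : CFS) (hf : F1S) (hx : HmaxS) (ht1 : T1S) (hh : HeavyS) (he : EnergyS)
    (hcu : CubicS) (hs : SchurS) (hp : PsdS) (hd : DualS) (hr : RowS) : LvtS := by
  obtain ⟨Ch, δ, hCh, hδ, hδ4, hx⟩ := hx
  obtain ⟨Cv, Kv, hCv, hh⟩ := hh
  obtain ⟨c, hc0, hcore⟩ := core hc hf ht1 he hcu hs hp hd hr hCh
  obtain ⟨K1, hK1, h1⟩ := exists_log_pow_le (2 * (c + 2 * Cv + 2)) 4 (ε := δ / 64) (by positivity)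
  obtain ⟨K2, -, h2⟩ := exists_log_pow_le 2 0 (ε := δ / 800) (by positivity)
  refine ⟨δ / 800, max K1 (max K2 Kv), by positivity, by linarith, ?_⟩
  intro K M ρ a W hK0 hMK hKM hρ0 hρ ha hW hS
  simp only [max_le_iff] at hK0
  have hK : (1 : ℝ) ≤ K := hK1.trans hK0.1
  have hK' : (0 : ℝ) < K := by linarith
  have hM : 1 ≤ M := by
    rcases Nat.eq_zero_or_pos M with rfl | h
    · have : K = 0 := by simpa using hKM
      simp [this] at hK'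
    · exact h
  have hM' : (1 : ℝ) ≤ M := by exact_mod_cast hM
  replace h1 := h1 K hK0.1
  replace h2 := h2 K hK0.2.1
  rw [pow_zero, mul_one] at h2
  have hL := one_le_log_add_two hK
  obtain ⟨A, hAd⟩ : ∃ A, (K : ℝ) ^ (δ / 800) = A := ⟨_, rfl⟩
  obtain ⟨t, htd⟩ : ∃ t, (K : ℝ) ^ (1 / 4 : ℝ) = t := ⟨_, rfl⟩
  obtain ⟨g, hgd⟩ : ∃ g, (M : ℝ) ^ (δ / 2) = g := ⟨_, rfl⟩
  rw [hAd] at h2
  have hA : 1 ≤ A := by linarith
  have htn : ∀ n : ℕ, t ^ n = (K : ℝ) ^ (n / 4 : ℝ) := fun n => by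
    rw [← htd, ← Real.rpow_natCast, ← Real.rpow_mul hK'.le]; congr 1; ring
  have ht4 : (K : ℝ) = t ^ 4 := by rw [htn]; norm_num
  have ht0 : 0 < t := htd ▸ Real.rpow_pos_of_pos hK' _
  have hsK : √(K : ℝ) = t ^ 2 := by
    rw [ht4, show t ^ 4 = (t ^ 2) ^ 2 by ring, Real.sqrt_sq (by positivity)]
  have hm2 : (M : ℝ) = √M ^ 2 := (Real.sq_sqrt (by positivity)).symm
  have hm : 1 ≤ √(M : ℝ) := Real.one_le_sqrt.2 hM'
  have hmt : √(M : ℝ) ^ 8 ≤ t := by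
    refine le_of_pow_le_pow_left₀ (n := 4) (by norm_num) ht0.le ?_
    rw [← ht4, show (√(M : ℝ) ^ 8) ^ 4 = (√M ^ 2) ^ 16 by ring, ← hm2]
    exact_mod_cast hMK
  have hg1 : 1 ≤ g := hgd ▸ Real.one_le_rpow hM' (by positivity)
  have hgM : g ≤ M := by
    rw [← hgd]
    exact (Real.rpow_le_rpow_of_exponent_le hM' (by linarith)).trans (Real.rpow_one _).le
  have hg2 : (M : ℝ) ^ (-δ) = 1 / g ^ 2 := by
    rw [← hgd, ← Real.rpow_natCast, ← Real.rpow_mul (by positivity), Real.rpow_neg (by positivity),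
      one_div]
    congr 2; push_cast; ring
  have hbig : (c + 2 * Cv + 2) * Real.log (K + 2) ^ 4 * A ^ 12 ≤ g := by
    have e1 : A ^ 12 ≤ (K : ℝ) ^ (δ / 64) := by
      rw [← hAd, ← Real.rpow_natCast, ← Real.rpow_mul hK'.le]
      exact Real.rpow_le_rpow_of_exponent_le hK (by push_cast; linarith)
    have e2 : (K : ℝ) ^ (δ / 64) * (K : ℝ) ^ (δ / 64) ≤ 2 * g := calc
      _ = (K : ℝ) ^ (δ / 32) := by rw [← Real.rpow_add hK']; congr 1; ring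
      _ ≤ ((2 * (M : ℝ)) ^ (16 : ℕ)) ^ (δ / 32) :=
          Real.rpow_le_rpow hK'.le (by exact_mod_cast hKM) (by positivity)
      _ = 2 ^ (δ / 2) * g := by
          rw [← Real.rpow_natCast, ← Real.rpow_mul (by positivity), ← hgd,
            ← Real.mul_rpow (by norm_num) (by positivity)]
          congr 1; push_cast; ring
      _ ≤ 2 * g := by
          gcongr
          exact (Real.rpow_le_rpow_of_exponent_le (by norm_num) (by linarith)).trans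
            (Real.rpow_one _).le
    have e3 := mul_le_mul h1 e1 (by positivity) (by positivity)
    linarith
  generalize hLd : Real.log (K + 2) = L at hL hbig
  have hmono : ∀ (x : ℝ) (i j : ℕ), 0 ≤ x → x ≤ c + 2 * Cv + 2 → i ≤ 4 → j ≤ 12 →
      x * L ^ i * A ^ j ≤ g := fun x i j hx0 hx1 hi hj =>
    le_trans (by gcongr) hbig
  have hM2 : 2 ≤ M := by
    have := hmono 2 0 0 (by norm_num) (by linarith) (by norm_num) (by norm_num)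
    have : (2 : ℝ) ≤ M := by linarith
    exact_mod_cast this
  have hAM : A ≤ M := by
    have := hmono 1 0 1 (by norm_num) (by linarith) (by norm_num) (by norm_num)
    linarith
  have hρK : ρ * K ≤ A := by
    rw [Real.rpow_sub hK', hAd, Real.rpow_one, le_div_iff₀ hK'] at hρ; exact hρ
  have hρ1 : ρ ≤ 1 / 10000 := by
    have e1 : 2 ^ 15 * M ≤ K := calc
      2 ^ 15 * M ≤ M ^ 15 * M := by gcongr
      _ = M ^ 16 := by ring
      _ ≤ K := hMK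
    have e2 : (2 : ℝ) ^ 15 * M ≤ K := by exact_mod_cast e1
    refine le_of_mul_le_mul_right ?_ hK'
    linarith
  have hS' : ∀ u ∈ W, (K : ℝ) ^ (3 / 4 : ℝ) / A ≤ ‖SK K ρ a u‖ := fun u hu => by
    rw [← hAd, ← Real.rpow_sub hK']; exact hS u hu
  rw [Real.rpow_neg hK'.le, hAd, ← div_eq_mul_inv]
  by_contra hcon
  push Not at hcon
  have hsM : 2 ≤ √(K : ℝ) * M := by
    have : (2 : ℝ) ≤ M := by exact_mod_cast hM2
    nlinarith [Real.one_le_sqrt.2 hK]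
  obtain ⟨W0, hW0, hcard⟩ := Finset.exists_subset_card_eq (s := W) (n := ⌊√(K : ℝ) * M / A⌋₊ + 1)
    ((Nat.floor_lt (by positivity)).2 hcon)
  have hlo : √(K : ℝ) * M / A ≤ W0.card := by
    rw [hcard]; push_cast; exact (Nat.lt_floor_add_one _).le
  have hhi : (W0.card : ℝ) ≤ √K * M := by
    rw [hcard]; push_cast
    have e1 := Nat.floor_le (show 0 ≤ √(K : ℝ) * M / A by positivity)
    have e2 : √(K : ℝ) * M / A ≤ √K * M / 2 := by gcongr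
    linarith
  obtain ⟨W1, hW1, hrem, hsp⟩ := hh K M ρ A (g ^ 2) a W0 hK0.2.2 hM hMK hρ0 hρ1 hρK hA hAM
    (one_le_pow₀ hg1) ha (fun u hu => hW u (hW0 hu)) hhi (fun u hu => hS' u (hW0 hu))
  rw [hLd] at hrem
  have hrem' : Cv * A ^ 4 * L ^ 4 * √K * M / g ^ 2 ≤ √K * M / (2 * A) := by
    have e1 := hmono (2 * Cv) 4 5 (by positivity) (by linarith) le_rfl (by norm_num)
    rw [div_le_div_iff₀ (by positivity) (by positivity)]
    calc _ = √K * M * (2 * Cv * L ^ 4 * A ^ 5 * 1) := by ring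
      _ ≤ √K * M * (g * g) := by gcongr
      _ = _ := by ring
  have hfin := hcore K M ρ t √M A g a W1 ht4 hm2 hm hM2 hmt hA hg1 hρ0 hρK
    (by
      rw [hLd, ← hm2]
      have := hmono c 2 3 hc0.le (by linarith) (by norm_num) (by norm_num)
      linarith) ha
    (fun u hu => hW u (hW0 (hW1 hu)))
    (by
      rw [← hsK, ← hm2]
      exact le_trans (by exact_mod_cast Finset.card_le_card hW1) hhi)
    (by
      rw [← hsK, ← hm2]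
      have : √(K : ℝ) * M / A = 2 * (√K * M / (2 * A)) := by field_simp
      linarith)
    (fun u hu => by
      have := hS' u (hW0 (hW1 hu))
      rwa [htn 3, Nat.cast_ofNat])
    hsp
    (fun u hu => by
      refine (hx K M ρ u hM hMK hKM hρ0 hρ1 hu).trans (le_of_eq ?_)
      rw [hg2, Real.sqrt_mul hK'.le, hsK]; ring)
  rw [hLd] at hfin
  have : 0 < (2 * Cv + 2) * (L ^ 4 * A ^ 12) := by positivity
  nlinarith

end Pool.Agent.Lib.MP_80d0cf_nt.Up
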