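import Pool.Agent.Lib.MP_80d0cf_nt.Up.Lev

/-! Reduction of the level sets of a dyadic piece of zeta to level sets of the dual sums. -/

open Set MeasureTheory

namespace Pool.Agent.Lib.MP_80d0cf_nt.Up

namespace RedAux

lemma fub {E : Set ℝ} (hE : MeasurableSet E) {T G : ℝ} (hsub : E ⊆ Icc (2 * T) (3 * T))
    (hG : 0 ≤ G) (hGT : G ≤ T) {ι : Type} (s : Finset ι) (L : ι → Set ℝ)
    (hL : ∀ i ∈ s, MeasurableSet (L i)) (hfin : ∀ i ∈ s, volume (L i) ≠ ⊤) (c : ι → ℝ)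
    (hc : ∀ i ∈ s, 0 ≤ c i)
    (h : ∀ x ∈ Icc T (4 * T), volume.real (E ∩ Icc (x - G) (x + G)) ≤
      ∑ i ∈ s, c i * (L i).indicator 1 x) :
    2 * G * volume.real E ≤ ∑ i ∈ s, c i * volume.real (L i) := by
  have hEf : volume E ≠ ⊤ := ne_top_of_le_ne_top measure_Icc_lt_top.ne (measure_mono hsub)
  let S : Set (ℝ × ℝ) := {p | p.2 ∈ E ∧ p.1 - G ≤ p.2 ∧ p.2 ≤ p.1 + G}
  have hS : MeasurableSet S :=
    (measurable_snd hE).inter ((measurableSet_le (measurable_fst.sub_const G) measurable_snd).inter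
      (measurableSet_le measurable_snd (measurable_fst.add_const G)))
  have hint : ∀ i ∈ s, Integrable (fun x => c i * (L i).indicator (1 : ℝ → ℝ) x) volume :=
    fun i hi => ((integrableOn_const (hfin i hi)).integrable_indicator (hL i hi)).const_mul _
  have h0 : ∀ x, 0 ≤ ∑ i ∈ s, c i * (L i).indicator (1 : ℝ → ℝ) x := fun x =>
    Finset.sum_nonneg fun i hi => mul_nonneg (hc i hi) (indicator_nonneg (fun _ _ => zero_le_one) _)
  have e1 : (volume.prod volume) S = ENNReal.ofReal (2 * G) * volume E := by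
    rw [Measure.prod_apply_symm hS, ← lintegral_indicator_const hE]
    refine lintegral_congr fun y => ?_
    by_cases hy : y ∈ E
    · have : (fun x => (x, y)) ⁻¹' S = Icc (y - G) (y + G) := by
        ext x
        simp only [S, mem_preimage, mem_ofPred_eq, hy, true_and, mem_Icc]
        constructor <;> rintro ⟨h1, h2⟩ <;> constructor <;> linarith
      rw [this, indicator_of_mem hy, Real.volume_Icc]
      congr 1; ring
    · have : (fun x => (x, y)) ⁻¹' S = ∅ := by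
        ext x
        simp [S, hy]
      rw [this, indicator_of_notMem hy, measure_empty]
  have e2 : (volume.prod volume) S ≤ ENNReal.ofReal (∑ i ∈ s, c i * volume.real (L i)) := by
    have e3 : ∑ i ∈ s, c i * volume.real (L i) =
        ∫ x, ∑ i ∈ s, c i * (L i).indicator (1 : ℝ → ℝ) x := by
      rw [integral_finsetSum _ hint]
      refine Finset.sum_congr rfl fun i hi => ?_
      rw [integral_const_mul, integral_indicator_one (hL i hi)]
    rw [Measure.prod_apply hS, e3, ofReal_integral_eq_lintegral_ofReal (integrable_finsetSum _ hint)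
      (Filter.Eventually.of_forall h0)]
    refine lintegral_mono fun x => ?_
    have e4 : Prod.mk x ⁻¹' S = E ∩ Icc (x - G) (x + G) := rfl
    rw [e4]
    by_cases hx : x ∈ Icc T (4 * T)
    · rw [← ENNReal.ofReal_toReal (ne_top_of_le_ne_top hEf (measure_mono inter_subset_left))]
      exact ENNReal.ofReal_le_ofReal (h x hx)
    · have : E ∩ Icc (x - G) (x + G) = ∅ := eq_empty_of_forall_notMem fun y hy => by
        obtain ⟨h1, h2⟩ := hsub hy.1
        obtain ⟨h3, h4⟩ := hy.2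
        exact hx ⟨by linarith, by linarith⟩
      rw [this, measure_empty]
      exact zero_le
  rw [e1, ← ENNReal.ofReal_toReal hEf, ← ENNReal.ofReal_mul (by linarith),
    ENNReal.ofReal_le_ofReal_iff (Finset.sum_nonneg fun i hi =>
      mul_nonneg (hc i hi) measureReal_nonneg)] at e2
  exact e2

lemma cake (θ : ℝ) (I : ℕ) :
    min θ (2 ^ I) ≤ 1 + ∑ i ∈ Finset.range I, if (2 : ℝ) ^ i ≤ θ then (2 : ℝ) ^ i else 0 := by
  induction I with
  | zero => simp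
  | succ I ih =>
    rw [Finset.sum_range_succ]
    split_ifs with h
    · rw [min_eq_right h] at ih
      linarith [min_le_right θ (2 ^ (I + 1)), pow_succ (2 : ℝ) I]
    · rw [min_eq_left (not_le.1 h).le] at ih
      linarith [min_le_left θ (2 ^ (I + 1))]

lemma cheb {E : Set ℝ} (hE : MeasurableSet E) {F : ℝ → ℂ} (hF : Continuous F) {V a b : ℝ}
    (hV : 0 ≤ V) (hab : a ≤ b) (h : ∀ x ∈ E, V ≤ ‖F x‖) :
    V ^ 2 * volume.real (E ∩ Icc a b) ≤ ∫ x in a..b, ‖F x‖ ^ 2 := by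
  have hi : IntegrableOn (fun x => ‖F x‖ ^ 2) (Icc a b) volume :=
    (hF.norm.pow 2).continuousOn.integrableOn_Icc
  rw [intervalIntegral.integral_of_le hab, ← integral_Icc_eq_integral_Ioc]
  refine le_trans ?_ (setIntegral_mono_set hi (Filter.Eventually.of_forall fun x => by positivity)
    (inter_subset_right (s := E)).eventuallyLE)
  exact setIntegral_ge_of_const_le_real (hE.inter measurableSet_Icc)
    (ne_top_of_le_ne_top measure_Icc_lt_top.ne (measure_mono inter_subset_right))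
    (fun x hx => pow_le_pow_left₀ hV (h x hx.1) 2) (hi.mono_set inter_subset_right)

lemma card_le {T : ℝ} (hT : 1 ≤ T) :
    ((Nat.log 2 ⌊T⌋₊ + 1 : ℕ) : ℝ) ≤ 3 * Real.log (T + 2) ^ 2 := by
  have h0 : ⌊T⌋₊ ≠ 0 := (Nat.floor_pos.2 hT).ne'
  have h1 : (2 : ℝ) ^ Nat.log 2 ⌊T⌋₊ ≤ T + 2 := by
    have : ((2 ^ Nat.log 2 ⌊T⌋₊ : ℕ) : ℝ) ≤ ⌊T⌋₊ := by exact_mod_cast Nat.pow_log_le_self 2 h0
    push_cast at this
    linarith [Nat.floor_le (by linarith : 0 ≤ T)]
  have h2 := Real.log_le_log (by positivity) h1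
  rw [Real.log_pow] at h2
  have h3 := one_le_log_add_two hT
  have h4 := mul_le_mul_of_nonneg_left Real.log_two_gt_d9.le (Nat.cast_nonneg (Nat.log 2 ⌊T⌋₊))
  have h5 : Real.log (T + 2) ≤ Real.log (T + 2) ^ 2 := le_self_pow₀ h3 two_ne_zero
  have h6 : (0 : ℝ) ≤ Nat.log 2 ⌊T⌋₊ := Nat.cast_nonneg _
  push_cast
  linarith

lemma pow_le {T : ℝ} (hT : 1 ≤ T) {j : ℕ} (hj : j ∈ Finset.range (Nat.log 2 ⌊T⌋₊ + 1)) :
    ((2 ^ j : ℕ) : ℝ) ≤ T := by
  have h0 : ⌊T⌋₊ ≠ 0 := (Nat.floor_pos.2 hT).ne'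
  have h1 : 2 ^ j ≤ ⌊T⌋₊ :=
    (Nat.pow_le_pow_right two_pos (Nat.lt_succ_iff.1 (Finset.mem_range.1 hj))).trans
      (Nat.pow_log_le_self 2 h0)
  exact le_trans (by exact_mod_cast h1) (Nat.floor_le (by linarith))

lemma geom (I : ℕ) : ∑ i ∈ Finset.range I, (2 : ℝ) ^ i * (3 / 8) ^ i ≤ 4 := by
  have : ∀ I : ℕ, ∑ i ∈ Finset.range I, (2 : ℝ) ^ i * (3 / 8) ^ i = 4 - 4 * (3 / 4) ^ I := by
    intro I
    induction I with
    | zero => simp
    | succ I ih =>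
      rw [Finset.sum_range_succ, ih, ← mul_pow, pow_succ]
      norm_num
      ring
  rw [this]
  have : (0 : ℝ) ≤ (3 / 4) ^ I := by positivity
  linarith

end RedAux

open RedAux in
theorem red (h2 : Z2S) (h4 : Z4S) : RedS := by
  intro ε hε
  obtain ⟨C2, hC2, h2⟩ := h2
  obtain ⟨C4, T4, hC4, h4⟩ := h4 ε hε
  obtain ⟨T1, hT1, h1⟩ := exists_log_pow_le (2 * C2 * (C4 + 6) + 24 * C2 + 2) 2 hε
  refine ⟨max T1 T4, fun T V b N hT hN hN' hV hV' hb hl => ?_⟩
  have hT' : 1 ≤ T := hT1.trans ((le_max_left _ _).trans hT)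
  have hT0 : 0 < T := by linarith
  have h1 := h1 T ((le_max_left _ _).trans hT)
  obtain ⟨Λ, hΛ⟩ : ∃ Λ, Λ = Real.log (T + 2) ^ 2 := ⟨_, rfl⟩
  have hΛ1 : 1 ≤ Λ := hΛ ▸ one_le_pow₀ (one_le_log_add_two hT')
  have hcard := card_le hT'
  rw [← hΛ] at h1 hcard
  obtain ⟨B, hB⟩ : ∃ B, B = T ^ ε := ⟨_, rfl⟩
  have p1 : 0 ≤ 2 * C2 * (C4 + 6) * Λ := by positivity
  have p2 : 0 ≤ 24 * C2 * Λ := by positivity
  rw [← hB] at h1 hV
  have hB2 : 2 ≤ B := by linarith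
  have hB0 : 0 < B := by linarith
  have hV0 : 0 < V := by linarith
  obtain ⟨G, hG⟩ : ∃ G, G = V ^ 2 / B := ⟨_, rfl⟩
  have hGB : G * B = V ^ 2 := by rw [hG]; field_simp
  have hBG : B ≤ G := by
    rw [hG, le_div_iff₀ hB0, ← sq]
    gcongr
  have hG2 : 2 ≤ G := hB2.trans hBG
  have hG0 : 0 < G := by linarith
  have hGT : G ≤ T := by
    rw [hG]
    exact (div_le_self (by positivity) (by linarith)).trans hV'
  obtain ⟨a, a1, hF, hJ⟩ := h4 T G N ((le_max_right _ _).trans hT) hN hN' hG2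
    (by rw [← hB]; exact hBG.trans (le_self_pow₀ (by linarith) two_ne_zero))
  rw [← hΛ] at hJ
  obtain ⟨J, hJd⟩ : ∃ J, J = (Finset.range (Nat.log 2 ⌊T⌋₊ + 1)).filter
    (fun j => 2 ^ j * G ^ 2 ≤ T ^ (1 + ε)) := ⟨_, rfl⟩
  rw [← hJd] at hJ
  have hJc : (J.card : ℝ) ≤ 3 * Λ := by
    refine le_trans ?_ hcard
    have := Finset.card_filter_le (Finset.range (Nat.log 2 ⌊T⌋₊ + 1))
      (fun j => 2 ^ j * G ^ 2 ≤ T ^ (1 + ε))
    rw [Finset.card_range, ← hJd] at this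
    exact_mod_cast this
  have hJ1 : ∀ j ∈ J, ((2 ^ j : ℕ) : ℝ) ≤ T := fun j hj =>
    pow_le hT' (Finset.mem_filter.1 (hJd ▸ hj)).1
  have hJ2 : ∀ j ∈ J, ((2 ^ j : ℕ) : ℝ) * V ^ 4 ≤ T ^ (1 + 3 * ε) := fun j hj => by
    have h := (Finset.mem_filter.1 (hJd ▸ hj)).2
    have e : T ^ (1 + 3 * ε) = T ^ (1 + ε) * B ^ 2 := by
      rw [hB, ← Real.rpow_natCast, ← Real.rpow_mul hT0.le, ← Real.rpow_add hT0]
      congr 1; push_cast; ring
    have e' : V ^ 4 = G ^ 2 * B ^ 2 := by rw [← mul_pow, hGB]; ring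
    rw [e, e', ← mul_assoc]
    push_cast
    gcongr
  have hF' : ∀ j ∈ J, Fam T (T ^ ε) (2 ^ j) (a (2 ^ j)) (a1 (2 ^ j)) := fun j hj =>
    hF _ Nat.one_le_two_pow (hJ1 j hj)
  obtain ⟨I, hI⟩ := pow_unbounded_of_one_lt (T * B) (one_lt_two (α := ℝ))
  let E : Set ℝ := {τ | τ ∈ Icc (2 * T) (3 * T) ∧ V ≤ ‖DN N τ‖}
  have hE : MeasurableSet E := (isClosed_levSet (continuous_DN N).continuousOn).measurableSet
  let L : ℕ × ℕ → Set ℝ := fun p => {τ | τ ∈ Icc T (4 * T) ∧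
    2 ^ p.2 * (((2 ^ p.1 : ℕ) : ℝ) * T) ^ (1 / 4 : ℝ) ≤ ‖SS (2 ^ p.1) (a (2 ^ p.1)) τ‖}
  have key := fub hE (fun _ h => h.1) hG0.le hGT (J ×ˢ Finset.range I) L
    (fun p hp => (isClosed_levSet
      (continuousOn_SS hT0 (hF' _ (Finset.mem_product.1 hp).1))).measurableSet)
    (fun p _ => levSet_ne_top _ _ _ _) (fun p => 4 * C2 * G / V ^ 2 * 2 ^ p.2)
    (fun p _ => by positivity) (fun x hx => ?_)
  · have e1 : ∑ p ∈ J ×ˢ Finset.range I, 4 * C2 * G / V ^ 2 * 2 ^ p.2 * volume.real (L p) ≤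
        ∑ _j ∈ J, 4 * C2 * G / V ^ 2 * b * 4 := by
      rw [Finset.sum_product]
      refine Finset.sum_le_sum fun j hj => ?_
      refine le_trans ?_ (mul_le_mul_of_nonneg_left (geom I) (by positivity))
      rw [Finset.mul_sum]
      refine Finset.sum_le_sum fun i _ => ?_
      have := hl (2 ^ j) i _ _ Nat.one_le_two_pow (hJ1 j hj) (hJ2 j hj) (hF' j hj)
      calc _ ≤ 4 * C2 * G / V ^ 2 * 2 ^ i * (b * (3 / 8) ^ i) :=
            mul_le_mul_of_nonneg_left this (by positivity)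
        _ = _ := by ring
    rw [Finset.sum_const, nsmul_eq_mul] at e1
    have e2 : (J.card : ℝ) * (4 * C2 * G / V ^ 2 * b * 4) ≤
        3 * Λ * (4 * C2 * G / V ^ 2 * b * 4) := by gcongr
    have e3 : 24 * C2 * Λ * (b / V ^ 2) ≤ B * (b / V ^ 2) := by
      gcongr
      linarith
    rw [← hB]
    refine le_of_mul_le_mul_left ?_ (by positivity : 0 < 2 * G)
    calc 2 * G * lev (2 * T) (3 * T) (DN N) V ≤ 3 * Λ * (4 * C2 * G / V ^ 2 * b * 4) :=
          key.trans (e1.trans e2)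
      _ = 2 * G * (24 * C2 * Λ * (b / V ^ 2)) := by ring
      _ ≤ 2 * G * (B * (b / V ^ 2)) := by gcongr
      _ = _ := by ring
  · obtain ⟨Φ, hΦ⟩ : ∃ Φ, Φ = ∑ p ∈ J ×ˢ Finset.range I,
      (2 : ℝ) ^ p.2 * (L p).indicator (1 : ℝ → ℝ) x := ⟨_, rfl⟩
    have hΦ0 : 0 ≤ Φ := hΦ ▸ Finset.sum_nonneg fun p _ =>
      mul_nonneg (by positivity) (indicator_nonneg (fun _ _ => zero_le_one) _)
    have e0 : ∑ p ∈ J ×ˢ Finset.range I, 4 * C2 * G / V ^ 2 * 2 ^ p.2 *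
        (L p).indicator (1 : ℝ → ℝ) x = 4 * C2 * G * Φ / V ^ 2 := by
      rw [hΦ, Finset.mul_sum, Finset.sum_div]
      exact Finset.sum_congr rfl fun p _ => by ring
    rw [e0]
    rcases (E ∩ Icc (x - G) (x + G)).eq_empty_or_nonempty with he | ⟨y, hy, hy'⟩
    · rw [he, measureReal_empty]
      positivity
    obtain ⟨z1, z2, -⟩ := h2 N G x hN hG2
    have z1 := (pow_le_pow_left₀ hV0.le hy.2 2).trans
      (z1 y (abs_le.2 ⟨by linarith [hy'.1], by linarith [hy'.2]⟩))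
    have z3 := cheb hE (continuous_DN N) hV0.le (by linarith : x - G ≤ x + G) fun _ h => h.2
    have z4 : ∑ j ∈ J, ‖SS (2 ^ j) (a (2 ^ j)) x‖ / (2 ^ j * T) ^ (1 / 4 : ℝ) ≤ J.card + Φ := by
      rw [hΦ, Finset.sum_product, Finset.card_eq_sum_ones, Nat.cast_sum, ← Finset.sum_add_distrib]
      refine Finset.sum_le_sum fun j hj => ?_
      have q1 : (1 : ℝ) ≤ (2 ^ j * T) ^ (1 / 4 : ℝ) :=
        Real.one_le_rpow (one_le_mul_of_one_le_of_one_le (one_le_pow₀ one_le_two) hT')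
          (by norm_num)
      have q2 : ‖SS (2 ^ j) (a (2 ^ j)) x‖ / (2 ^ j * T) ^ (1 / 4 : ℝ) ≤ 2 ^ I := by
        refine (div_le_self (norm_nonneg _) q1).trans ((norm_SS_le (hF' j hj) hx).trans ?_)
        rw [← hB]
        exact (mul_le_mul_of_nonneg_right (hJ1 j hj) hB0.le).trans hI.le
      have q3 := cake (‖SS (2 ^ j) (a (2 ^ j)) x‖ / (2 ^ j * T) ^ (1 / 4 : ℝ)) I
      rw [min_eq_left q2] at q3
      refine q3.trans (le_of_eq ?_)
      rw [Nat.cast_one]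
      congr 1
      refine Finset.sum_congr rfl fun i _ => ?_
      have q4 : x ∈ L (j, i) ↔
          (2 : ℝ) ^ i ≤ ‖SS (2 ^ j) (a (2 ^ j)) x‖ / (2 ^ j * T) ^ (1 / 4 : ℝ) := by
        rw [le_div_iff₀ (by linarith)]
        simp only [L, mem_ofPred_eq, hx, true_and]
        push_cast
        rfl
      split_ifs with h
      · rw [indicator_of_mem (q4.2 h)]; simp
      · rw [indicator_of_notMem (mt q4.1 h)]; simp
    have z5 : JJ N G x ≤ G * ((C4 + 6) * Λ + 2 * Φ) :=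
      (hJ x hx).trans (mul_le_mul_of_nonneg_left (by linarith) hG0.le)
    have z6 := mul_le_mul_of_nonneg_left z5 hC2.le
    have z7 : G * (2 * C2 * (C4 + 6) * Λ) ≤ G * B := mul_le_mul_of_nonneg_left (by linarith) hG0.le
    rw [le_div_iff₀ (by positivity)]
    linarith

end Pool.Agent.Lib.MP_80d0cf_nt.Up
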