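import Pool.Agent.Lib.MP_80d0cf_nt.Up.Lev

-- part Pool.Agent.Lib.MP_80d0cf_nt.Up.XFam
section

/-! Level sets of the families, explicit exponents. -/

open Set MeasureTheory

namespace Pool.Agent.Lib.MP_80d0cf_nt.Up

namespace XFamAux

lemma scale {R l : ℝ} (hR : 0 ≤ R) (hl : 0 ≤ l) (i : ℕ) {a b : ℕ} (h : 2 * a ≤ b) :
    R ^ a * l ^ b ≤ (R / 4 ^ i) ^ a * (2 ^ i * l) ^ b := by
  obtain ⟨c, rfl⟩ := Nat.exists_eq_add_of_le h
  have e : (R / 4 ^ i) ^ a * (2 ^ i * l) ^ (2 * a + c) = R ^ a * l ^ (2 * a + c) * (2 ^ i) ^ c := by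
    have : (4 : ℝ) ^ i = (2 ^ i) ^ 2 := by rw [← pow_mul, mul_comm, pow_mul]; norm_num
    rw [this, div_pow, mul_pow, pow_add ((2 : ℝ) ^ i), pow_mul]
    field_simp
  rw [e]
  exact le_mul_of_one_le_right (by positivity) (one_le_pow₀ (one_le_pow₀ (by norm_num)))

end XFamAux

open XFamAux in
theorem xfam (hg : GridS) (hl : Lv2S) : XfamS := by
  obtain ⟨Cg, hCg, hg⟩ := hg
  obtain ⟨C, hC, hl⟩ := hl
  intro ε hε hε1
  obtain ⟨T1, hT11, hT1⟩ := exists_log_pow_le (3 * Cg + 10000) 0 hε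
  obtain ⟨T2, -, hT2⟩ := exists_log_pow_le C 6 hε
  refine ⟨max T1 T2, ?_⟩
  intro T κ m q r K i a a1 hT hK hκ hF k1 m0 m1 m2 q0 q1 q2 q3 g1 g2 g3 r1 r2 r3 r4 r5 r6
  have hD := hT1 T ((le_max_left _ _).trans hT)
  rw [pow_zero, mul_one] at hD
  have hT1' : 1 ≤ T := hT11.trans ((le_max_left _ _).trans hT)
  have hT0 : 0 < T := by linarith
  have mono : ∀ {x y : ℝ}, x ≤ y → T ^ x ≤ T ^ y := fun h =>
    Real.rpow_le_rpow_of_exponent_le hT1' h
  have pw : ∀ (x : ℝ) (n : ℕ), (T ^ x) ^ n = T ^ (x * n) := fun x n =>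
    (Real.rpow_mul_natCast hT0.le x n).symm
  have ad : ∀ x y : ℝ, T ^ x * T ^ y = T ^ (x + y) := fun x y => (Real.rpow_add hT0 x y).symm
  have one : ∀ {x : ℝ}, 0 ≤ x → 1 ≤ T ^ x := fun h => Real.one_le_rpow hT1' h
  have hK1 : (1 : ℝ) ≤ K := by exact_mod_cast hK
  have hKT : (K : ℝ) ≤ T := by
    rw [← hκ]; exact (mono (by linarith)).trans (Real.rpow_one T).le
  have hQ : C * Real.log (K + 2) ^ 6 ≤ T ^ ε := by
    refine le_trans ?_ (hT2 T ((le_max_right _ _).trans hT))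
    have := one_le_log_add_two hK1
    gcongr
  have hQ0 : 0 ≤ C * Real.log (K + 2) ^ 6 := by
    have := one_le_log_add_two hK1
    positivity
  set M := ⌊T ^ m⌋₊ with hMd
  have hM1 : 1 ≤ M := Nat.le_floor (by simpa using one m0)
  have hM1' : (1 : ℝ) ≤ M := by exact_mod_cast hM1
  have hMu : (M : ℝ) ≤ T ^ m := Nat.floor_le (by positivity)
  have hMl : T ^ m ≤ 2 * M := by
    have := (Nat.lt_floor_add_one (T ^ m)).le
    linarith
  have hMK : M ≤ K := by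
    have : (M : ℝ) ≤ K := hMu.trans ((mono m1).trans hκ.le)
    exact_mod_cast this
  have hi : (1 : ℝ) ≤ 2 ^ i := one_le_pow₀ (by norm_num)
  have hq4 : ((K : ℝ) * T) ^ (1 / 4 : ℝ) = T ^ ((1 + κ) / 4) := by
    rw [← hκ]
    nth_rewrite 2 [← Real.rpow_one T]
    rw [ad, ← Real.rpow_mul hT0.le]
    congr 1; ring
  have hdiv : (K : ℝ) / T = T ^ (κ - 1) := by rw [Real.rpow_sub hT0, hκ, Real.rpow_one]
  have hs1 : √(K / T) = T ^ ((κ - 1) / 2) := by
    rw [hdiv, Real.sqrt_eq_rpow, ← Real.rpow_mul hT0.le]; congr 1; ring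
  have hs2 : √(T / K) = T ^ ((1 - κ) / 2) := by
    rw [show T / K = T ^ (1 - κ) by rw [Real.rpow_sub hT0, hκ, Real.rpow_one], Real.sqrt_eq_rpow,
      ← Real.rpow_mul hT0.le]
    congr 1; ring
  rw [hq4]
  have herr : Cg * T ^ ε * (K * M * √(K / T) + (K : ℝ) ^ 2 * (M : ℝ) ^ 2 * √(K / T) ^ 3 +
      (K : ℝ) ^ 4 * M / T ^ 2) ≤ 2 ^ i * T ^ ((1 + κ) / 4) := by
    have e1 : K * M * √(K / T) ≤ T ^ ((1 + κ) / 4 - 2 * ε) := by
      calc _ ≤ T ^ κ * T ^ m * T ^ ((κ - 1) / 2) := by rw [hs1, hκ]; gcongr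
        _ ≤ _ := by simp only [ad]; exact mono (by linarith)
    have e2 : (K : ℝ) ^ 2 * (M : ℝ) ^ 2 * √(K / T) ^ 3 ≤ T ^ ((1 + κ) / 4 - 2 * ε) := by
      calc _ ≤ (T ^ κ) ^ 2 * (T ^ m) ^ 2 * (T ^ ((κ - 1) / 2)) ^ 3 := by rw [hs1, hκ]; gcongr
        _ ≤ _ := by simp only [pw, ad]; exact mono (by push_cast; linarith)
    have e3 : (K : ℝ) ^ 4 * M / T ^ 2 ≤ T ^ ((1 + κ) / 4 - 2 * ε) := by
      calc _ = (K : ℝ) ^ 2 * (K / T) ^ 2 * M := by field_simp
        _ ≤ (T ^ κ) ^ 2 * (T ^ (κ - 1)) ^ 2 * T ^ m := by rw [hdiv, hκ]; gcongr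
        _ ≤ _ := by simp only [pw, ad]; exact mono (by push_cast; linarith)
    calc _ ≤ Cg * T ^ ε * (3 * T ^ ((1 + κ) / 4 - 2 * ε)) := by gcongr; linarith
      _ = 3 * Cg * T ^ ε * T ^ ((1 + κ) / 4 - 2 * ε) := by ring
      _ ≤ T ^ ε * T ^ ε * T ^ ((1 + κ) / 4 - 2 * ε) := by gcongr; linarith
      _ = T ^ ((1 + κ) / 4) := by simp only [ad]; congr 1; ring
      _ ≤ _ := le_mul_of_one_le_left (by positivity) hi
  have key := hg T (T ^ ε) (2 ^ i * T ^ ((1 + κ) / 4)) (T ^ (r + 17 * ε) / 4 ^ i) K M a a1 hK hKT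
    hM1 (one hε.le) (by positivity) hF herr (fun ρ b W hρ0 hρ hb hW hlev => by
      have hρ' : ρ ≤ T ^ (κ - 1) / 24 := by rw [← hdiv]; exact hρ.trans (le_of_eq (by ring))
      have hl0 : 0 < T ^ ((1 + κ) / 4 - 2 * ε) := by positivity
      have hR0 : 0 < T ^ (r + 17 * ε) := by positivity
      refine hl K M ρ (T ^ q) (2 ^ i * T ^ ((1 + κ) / 4 - 2 * ε)) _ b W hM1 hMK hρ0 ?_ (one q0)
        ?_ ?_ (by positivity) (by positivity) hb hW (fun u hu => le_trans ?_ (hlev u hu))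
        ?_ ?_ ?_ ?_ ?_ ?_ ?_
      · have h1 : T ^ (κ - 1) * T ^ ε ≤ 1 := by
          rw [ad]; exact Real.rpow_le_one_of_one_le_of_nonpos hT1' (by linarith)
        have h2 : T ^ (κ - 1) * 10000 ≤ T ^ (κ - 1) * T ^ ε := by gcongr; linarith
        have h3 : 0 < T ^ (κ - 1) := by positivity
        linarith
      · calc _ ≤ 12800 * (T ^ (κ - 1) / 24) * T ^ κ * T ^ m := by rw [hκ]; gcongr
          _ = 1600 / 3 * (T ^ (κ - 1) * T ^ κ * T ^ m) := by ring
          _ ≤ T ^ ε * (T ^ (κ - 1) * T ^ κ * T ^ m) := by gcongr; linarith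
          _ ≤ _ := by simp only [pw, ad]; exact mono (by push_cast; linarith)
      · have h1 : (T ^ q) ^ 4 * T ^ ε ≤ T ^ κ * T ^ m := by
          simp only [pw, ad]; exact mono (by push_cast; linarith)
        have h2 : (T ^ q) ^ 4 * 2 ≤ (T ^ q) ^ 4 * T ^ ε := by gcongr; linarith
        have h3 : T ^ κ * T ^ m ≤ K * (2 * M) := by rw [hκ]; gcongr
        linarith
      · rw [le_div_iff₀ (by positivity), mul_assoc]
        gcongr
        calc _ ≤ T ^ ((1 + κ) / 4 - 2 * ε) * (T ^ ε * T ^ ε) := by gcongr; linarith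
          _ = _ := by simp only [ad]; congr 1; ring
      · calc _ ≤ T ^ ε * (T ^ κ * (T ^ q) ^ 2) := by rw [hκ]; gcongr
          _ ≤ (T ^ ((1 + κ) / 4 - 2 * ε)) ^ 2 := by
              simp only [pw, ad]; exact mono (by push_cast; linarith)
          _ ≤ _ := by gcongr; exact le_mul_of_one_le_left hl0.le hi
      · calc _ ≤ T ^ ε * (T ^ κ) ^ 2 := by rw [hκ]; gcongr
          _ ≤ (T ^ (r + 17 * ε)) ^ 1 * (T ^ ((1 + κ) / 4 - 2 * ε)) ^ 2 := by
              simp only [pw, ad]; exact mono (by push_cast; linarith)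
          _ ≤ _ := (scale hR0.le hl0.le i (by norm_num)).trans (by rw [pow_one])
      · calc _ ≤ T ^ ε * ((T ^ m) ^ 3 * (T ^ κ) ^ 6) := by rw [hκ]; gcongr
          _ ≤ (T ^ (r + 17 * ε)) ^ 1 * (T ^ ((1 + κ) / 4 - 2 * ε)) ^ 8 := by
              simp only [pw, ad]; exact mono (by push_cast; linarith)
          _ ≤ _ := (scale hR0.le hl0.le i (by norm_num)).trans (by rw [pow_one])
      · calc _ ≤ T ^ ε * ((T ^ m) ^ 3 * (T ^ κ) ^ 11 * T ^ q) := by rw [hκ]; gcongr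
          _ ≤ (T ^ (r + 17 * ε)) ^ 4 * (T ^ ((1 + κ) / 4 - 2 * ε)) ^ 12 := by
              simp only [pw, ad]; exact mono (by push_cast; linarith)
          _ ≤ _ := scale hR0.le hl0.le i (by norm_num)
      · calc _ ≤ T ^ ε * ((T ^ m) ^ 4 * (T ^ κ) ^ 10 * T ^ q) := by rw [hκ]; gcongr
          _ ≤ (T ^ (r + 17 * ε)) ^ 3 * (T ^ ((1 + κ) / 4 - 2 * ε)) ^ 12 := by
              simp only [pw, ad]; exact mono (by push_cast; linarith)
          _ ≤ _ := scale hR0.le hl0.le i (by norm_num)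
      · calc _ ≤ (T ^ ε) ^ 2 * ((T ^ m) ^ 7 * (T ^ κ) ^ 17 * (T ^ q) ^ 2) := by rw [hκ]; gcongr
          _ ≤ (T ^ (r + 17 * ε)) ^ 5 * (T ^ ((1 + κ) / 4 - 2 * ε)) ^ 20 := by
              simp only [pw, ad]; exact mono (by push_cast; linarith)
          _ ≤ _ := scale hR0.le hl0.le i (by norm_num)
      · calc _ ≤ T ^ ε * ((T ^ m) ^ 4 * (T ^ κ) ^ 8 * T ^ q) := by rw [hκ]; gcongr
          _ ≤ (T ^ (r + 17 * ε)) ^ 2 * (T ^ ((1 + κ) / 4 - 2 * ε)) ^ 10 := by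
              simp only [pw, ad]; exact mono (by push_cast; linarith)
          _ ≤ _ := scale hR0.le hl0.le i (by norm_num))
  refine key.trans ?_
  have h1 : T / (K * M) ≤ 2 * T ^ (1 - κ - m) := by
    rw [div_le_iff₀ (by positivity)]
    calc T = T ^ (1 - κ - m) * (T ^ κ * T ^ m) := by
          simp only [ad]; rw [show 1 - κ - m + (κ + m) = 1 by ring, Real.rpow_one]
      _ ≤ T ^ (1 - κ - m) * (K * (2 * M)) := by rw [hκ]; gcongr
      _ = _ := by ring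
  have h2 : √(T / K) ≤ T ^ (1 - κ - m) := by rw [hs2]; exact mono (by linarith)
  calc _ ≤ Cg * (3 * T ^ (1 - κ - m)) * (T ^ (r + 17 * ε) / 4 ^ i) := by gcongr; linarith
    _ = 3 * Cg * T ^ (1 - κ - m) * T ^ (r + 17 * ε) / 4 ^ i := by ring
    _ ≤ T ^ ε * T ^ (1 - κ - m) * T ^ (r + 17 * ε) / 4 ^ i := by gcongr; linarith
    _ = _ := by simp only [ad]; congr 2; ring

end Pool.Agent.Lib.MP_80d0cf_nt.Up
end

-- part Pool.Agent.Lib.MP_80d0cf_nt.Up.Osc
section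

/-! Elementary estimates for oscillatory integrals. -/

open Set MeasureTheory Filter Topology

namespace Pool.Agent.Lib.MP_80d0cf_nt.Up

namespace OscAux

lemma cont {a b : ℝ} {ω ω1 : ℝ → ℂ} {φ φ1 φ2 : ℝ → ℝ} (hω : ∀ x ∈ Icc a b, HasDerivAt ω (ω1 x) x)
    (hφ : Ph a b φ φ1 φ2) : ContinuousOn (fun x => ω x * e (φ x)) (Icc a b) := fun x hx =>
  ((hω x hx).mul (hasDerivAt_e_comp (hφ.d0 x hx))).continuousAt.continuousWithinAt

lemma amp_mono {a b p q S μ : ℝ} {ω ω1 : ℝ → ℂ} (h : Amp a b S μ ω ω1) (hs : Icc p q ⊆ Icc a b) :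
    Amp p q S μ ω ω1 :=
  ⟨fun x hx => h.der x (hs hx), fun x hx => h.b0 x (hs hx), fun x hx => h.b1 x (hs hx)⟩

lemma ph_mono {a b p q : ℝ} {φ φ1 φ2 : ℝ → ℝ} (h : Ph a b φ φ1 φ2) (hs : Icc p q ⊆ Icc a b) :
    Ph p q φ φ1 φ2 := ⟨fun x hx => h.d0 x (hs hx), fun x hx => h.d1 x (hs hx)⟩

lemma exists_center {a b l : ℝ} {ψ ψ1 : ℝ → ℝ} (hab : a ≤ b)
    (hd : ∀ x ∈ Icc a b, HasDerivAt ψ (ψ1 x) x) (hl : ∀ x ∈ Icc a b, l ≤ ψ1 x) :
    ∃ c ∈ Icc a b, ∀ x ∈ Icc a b, l * |x - c| ≤ |ψ x| := by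
  have hc : ContinuousOn ψ (Icc a b) := fun x hx => (hd x hx).continuousAt.continuousWithinAt
  have h := (convex_Icc a b).mul_sub_le_image_sub_of_le_deriv hc
    (fun x hx => (hd x (interior_subset hx)).differentiableAt.differentiableWithinAt)
    (C := l) fun x hx => by
      rw [(hd x (interior_subset hx)).deriv]; exact hl x (interior_subset hx)
  have ha := left_mem_Icc.2 hab
  have hb := right_mem_Icc.2 hab
  rcases le_total 0 (ψ a) with h1 | h1
  · refine ⟨a, ha, fun x hx => ?_⟩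
    rw [abs_of_nonneg (sub_nonneg.2 hx.1)]
    linarith [h a ha x hx hx.1, le_abs_self (ψ x)]
  rcases le_total (ψ b) 0 with h2 | h2
  · refine ⟨b, hb, fun x hx => ?_⟩
    rw [abs_sub_comm, abs_of_nonneg (sub_nonneg.2 hx.2)]
    linarith [h x hx b hb hx.2, neg_le_abs (ψ x)]
  obtain ⟨c, h3, h4⟩ := intermediate_value_Icc hab hc ⟨h1, h2⟩
  refine ⟨c, h3, fun x hx => ?_⟩
  rcases le_total c x with h5 | h5
  · rw [abs_of_nonneg (sub_nonneg.2 h5)]
    linarith [h c h3 x hx h5, le_abs_self (ψ x)]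
  · rw [abs_sub_comm, abs_of_nonneg (sub_nonneg.2 h5)]
    linarith [h x hx c h3 h5, neg_le_abs (ψ x)]

end OscAux

open OscAux

theorem ibp : IbpS := by
  intro a b ω ω1 φ φ1 φ2 B B1 hab hω hφ h0 hB hb
  have hg := (continuousOn_iff_continuous_domRestrict.1 (cont hω hφ)).Icc_extend' (h := hab)
  set g := IccExtend hab ((Icc a b).domRestrict fun x => ω x * e (φ x))
  have hg' : ∀ x ∈ Icc a b, g x = ω x * e (φ x) := fun x hx => IccExtend_of_mem hab _ hx
  set c : ℂ := 2 * Real.pi * Complex.I with hc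
  have hc1 : 1 ≤ ‖c‖ := by
    simp only [hc, norm_mul, Complex.norm_I, Complex.norm_real, Complex.norm_ofNat,
      Real.norm_of_nonneg Real.pi_pos.le]
    linarith [Real.pi_gt_three]
  have hc0 : c ≠ 0 := norm_pos_iff.1 (by linarith)
  let G : ℝ → ℂ := fun x => ω x * e (φ x) / (c * φ1 x)
  have hF : ∀ x ∈ Icc a b, HasDerivAt (fun x => (∫ t in a..x, g t) - G x + G a)
      ((ω x * φ2 x / φ1 x ^ 2 - ω1 x / φ1 x) * e (φ x) / c) x := fun x hx => by
    have h1 : (φ1 x : ℂ) ≠ 0 := Complex.ofReal_ne_zero.2 (h0 x hx)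
    refine (((hg.integral_hasStrictDerivAt a x).hasDerivAt.sub
      (((hω x hx).mul (hasDerivAt_e_comp (hφ.d0 x hx))).div
        ((hφ.d1 x hx).ofReal_comp.const_mul c) (mul_ne_zero hc0 h1))).add_const (G a)).congr_deriv ?_
    rw [hg' x hx, ← hc, Pi.mul_apply]
    field_simp
    ring
  have hG : ∀ x, ‖G x‖ ≤ ‖ω x‖ / |φ1 x| := fun x => by
    simp only [G, norm_div, norm_mul, norm_e, mul_one, Complex.norm_real, Real.norm_eq_abs]
    rw [← div_div, div_right_comm]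
    exact div_le_self (by positivity) hc1
  have h := image_norm_le_of_norm_deriv_right_le_deriv_boundary'
    (fun x hx => (hF x hx).continuousAt.continuousWithinAt)
    (fun x hx => (hF x (Ico_subset_Icc_self hx)).hasDerivWithinAt) (B := fun x => B x - B a)
    (by simp) (fun x hx => ((hB x hx).sub_const _).continuousAt.continuousWithinAt)
    (fun x hx => ((hB x (Ico_subset_Icc_self hx)).sub_const _).hasDerivWithinAt)
    (fun x hx => by
      refine le_trans ?_ (hb x (Ico_subset_Icc_self hx))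
      rw [norm_div, norm_mul, norm_e, mul_one, add_comm]
      refine (div_le_self (norm_nonneg _) hc1).trans ((norm_sub_le _ _).trans_eq ?_)
      simp) (right_mem_Icc.2 hab)
  rw [intervalIntegral.integral_congr (g := g) fun x hx => (hg' x (uIcc_of_le hab ▸ hx)).symm]
  have h2 := norm_sub_le ((∫ t in a..b, g t) - G b + G a + G b) (G a)
  have h3 := norm_add_le ((∫ t in a..b, g t) - G b + G a) (G b)
  rw [show (∫ t in a..b, g t) - G b + G a + G b - G a = ∫ t in a..b, g t by ring] at h2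
  linarith [hG a, hG b]

theorem fd2 : Fd2S := by
  intro a b S μ Y Λ ω ω1 φ φ1 φ2 hab hω hφ hY h1 h2
  have ha := left_mem_Icc.2 hab
  have hS := (norm_nonneg _).trans (hω.b0 a ha)
  have hμ := (norm_nonneg _).trans (hω.b1 a ha)
  have hΛ := (abs_nonneg _).trans (h2 a ha)
  have h3 : ∀ x ∈ Icc a b, ‖ω x‖ / |φ1 x| ≤ S / Y := fun x hx => by
    gcongr
    exacts [hω.b0 x hx, h1 x hx]
  refine (ibp a b ω ω1 φ φ1 φ2 (fun x => x * (μ / Y + S * Λ / Y ^ 2))
    (fun _ => μ / Y + S * Λ / Y ^ 2) hab hω.der hφ (fun x hx => abs_pos.1 (hY.trans_le (h1 x hx)))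
    (fun x _ => hasDerivAt_mul_const _) fun x hx => ?_).trans ?_
  · rw [← sq_abs (φ1 x)]
    gcongr
    exacts [hω.b1 x hx, h1 x hx, hω.b0 x hx, h2 x hx, h1 x hx]
  · rw [mul_div_assoc 2 S Y]
    linarith [h3 a ha, h3 b (right_mem_Icc.2 hab)]

theorem fd1 : Fd1S := by
  intro a b S μ Y ω ω1 φ φ1 φ2 hab hω hφ hY h1 h2
  have ha := left_mem_Icc.2 hab
  have hb := right_mem_Icc.2 hab
  have hS := (norm_nonneg _).trans (hω.b0 a ha)
  have hμ := (norm_nonneg _).trans (hω.b1 a ha)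
  have h0 : ∀ x ∈ Icc a b, φ1 x ≠ 0 := fun x hx => abs_pos.1 (hY.trans_le (h1 x hx))
  obtain ⟨σ, hσ, h2⟩ : ∃ σ : ℝ, |σ| = S ∧ ∀ x ∈ Icc a b, σ * φ2 x = S * |φ2 x| := by
    rcases h2 with h | h
    · exact ⟨S, abs_of_nonneg hS, fun x hx => by rw [abs_of_nonneg (h x hx)]⟩
    · exact ⟨-S, by rw [abs_neg, abs_of_nonneg hS], fun x hx => by
        rw [abs_of_nonpos (h x hx)]; ring⟩
  have h3 : ∀ x ∈ Icc a b, ‖ω x‖ / |φ1 x| ≤ S / Y := fun x hx => by
    gcongr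
    exacts [hω.b0 x hx, h1 x hx]
  have h4 : ∀ x ∈ Icc a b, |σ * (φ1 x)⁻¹| ≤ S / Y := fun x hx => by
    rw [← div_eq_mul_inv, abs_div, hσ]
    gcongr
    exact h1 x hx
  refine (ibp a b ω ω1 φ φ1 φ2 (fun x => x * (μ / Y) - σ * (φ1 x)⁻¹)
    (fun x => μ / Y - σ * (-φ2 x / φ1 x ^ 2)) hab hω.der hφ h0
    (fun x hx => (hasDerivAt_mul_const _).sub (((hφ.d1 x hx).inv (h0 x hx)).const_mul σ))
    fun x hx => ?_).trans ?_
  · rw [show μ / Y - σ * (-φ2 x / φ1 x ^ 2) = μ / Y + σ * φ2 x / φ1 x ^ 2 by ring, h2 x hx]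
    gcongr
    exacts [hω.b1 x hx, h1 x hx, hω.b0 x hx]
  · rw [show (4 * S + (b - a) * μ) / Y = 4 * (S / Y) + (b - a) * (μ / Y) by ring]
    linarith [h3 a ha, h3 b hb, abs_le.1 (h4 a ha), abs_le.1 (h4 b hb)]

theorem sd : SdS := by
  intro a b S μ l ω ω1 φ φ1 φ2 hab hω hφ hl h2
  have ha := left_mem_Icc.2 hab
  have hS := (norm_nonneg _).trans (hω.b0 a ha)
  have hμ := (norm_nonneg _).trans (hω.b1 a ha)
  have hr := Real.sqrt_pos.2 hl
  obtain ⟨c, hc, h⟩ : ∃ c ∈ Icc a b, ∀ x ∈ Icc a b, l * |x - c| ≤ |φ1 x| := by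
    rcases h2 with h | h
    · exact exists_center hab hφ.d1 h
    · simpa using exists_center hab (fun x hx => (hφ.d1 x hx).neg) fun x hx => le_neg.1 (h x hx)
  have key : ∀ p q, a ≤ p → p ≤ q → q ≤ b → (p = q ∨ ∀ x ∈ Icc p q, 1 / √l ≤ |x - c|) →
      ‖∫ x in p..q, ω x * e (φ x)‖ ≤ (4 * S + (b - a) * μ) / √l := fun p q h3 h4 h5 h6 => by
    have hs := Icc_subset_Icc h3 h5
    have h7 := sub_nonneg.2 hab
    rcases h6 with rfl | h6
    · simp only [intervalIntegral.integral_same, norm_zero]; positivity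
    refine (fd1 p q S μ √l ω ω1 φ φ1 φ2 h4 (amp_mono hω hs) (ph_mono hφ hs) hr
      (fun x hx => le_trans ?_ (h x (hs hx))) (h2.imp (fun h x hx => hl.le.trans (h x (hs hx)))
        fun h x hx => (h x (hs hx)).trans (by linarith))).trans (by gcongr)
    refine le_of_eq_of_le ?_ (mul_le_mul_of_nonneg_left (h6 x hx) hl.le)
    rw [mul_one_div, Real.div_sqrt]
  have h1 := one_div_pos.2 hr
  set p := max a (c - 1 / √l)
  set q := min b (c + 1 / √l)
  have p1 : a ≤ p := le_max_left _ _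
  have p2 : p ≤ c := max_le hc.1 (by linarith)
  have q1 : q ≤ b := min_le_left _ _
  have q2 : c ≤ q := le_min hc.2 (by linarith)
  have hi : ∀ u v, a ≤ u → u ≤ v → v ≤ b →
      IntervalIntegrable (fun x => ω x * e (φ x)) volume u v := fun u v h3 h4 h5 =>
    ((cont hω.der hφ).mono (Icc_subset_Icc h3 h5)).intervalIntegrable_of_Icc h4
  have i1 := hi a p le_rfl p1 (p2.trans hc.2)
  have i2 := hi p q p1 (p2.trans q2) q1
  have a1 := key a p le_rfl p1 (p2.trans hc.2) ((le_total (c - 1 / √l) a).imp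
    (fun h => (max_eq_left h).symm) fun h x hx => by
      linarith [hx.2.trans_eq (max_eq_right h), neg_le_abs (x - c)])
  have a2 := key q b (hc.1.trans q2) q1 le_rfl ((le_total b (c + 1 / √l)).imp
    (fun h => min_eq_left h) fun h x hx => by
      linarith [(min_eq_right h).symm.trans_le hx.1, le_abs_self (x - c)])
  have a3 := intervalIntegral.norm_integral_le_of_norm_le_const (a := p) (b := q) (C := S)
    (f := fun x => ω x * e (φ x)) fun x hx => by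
      rw [uIoc_of_le (p2.trans q2)] at hx
      simpa using hω.b0 x ⟨p1.trans hx.1.le, hx.2.trans q1⟩
  have a4 : S * |q - p| ≤ S * (2 * (1 / √l)) := by
    gcongr
    rw [abs_of_nonneg (by linarith)]
    linarith [le_max_right a (c - 1 / √l), min_le_right b (c + 1 / √l)]
  rw [← intervalIntegral.integral_add_adjacent_intervals (i1.trans i2)
    (hi q b (hc.1.trans q2) q1 le_rfl), ← intervalIntegral.integral_add_adjacent_intervals i1 i2]
  refine (norm_add₃_le).trans ?_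
  rw [show (12 * S + 2 * (b - a) * μ) / √l = 2 * ((4 * S + (b - a) * μ) / √l) +
    S * (2 * (1 / √l)) + S * (2 * (1 / √l)) by ring]
  linarith [show 0 ≤ S * (2 * (1 / √l)) by positivity]

theorem cf : CFS := by
  have hc : Continuous fun v : ℝ => e (v ^ 2 / 2) := by fun_prop
  have h1 : ∀ y y' : ℝ, 0 < y → y ≤ y' → ‖2 * (∫ v in (0 : ℝ)..y', e (v ^ 2 / 2)) -
      2 * ∫ v in (0 : ℝ)..y, e (v ^ 2 / 2)‖ ≤ 8 / y := fun y y' hy h => by
    have := fd1 y y' 1 0 y (fun _ => 1) (fun _ => 0) (fun v => v ^ 2 / 2) (fun v => v) (fun _ => 1) h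
      ⟨fun x _ => hasDerivAt_const _ _, by simp, by simp⟩
      ⟨fun x _ => ((hasDerivAt_pow 2 x).div_const 2).congr_deriv (by simp),
        fun x _ => hasDerivAt_id x⟩ hy (fun x hx => hx.1.trans (le_abs_self x)) (.inl (by simp))
    simp only [one_mul, mul_one, mul_zero, add_zero] at this
    rw [← mul_sub, intervalIntegral.integral_interval_sub_left (hc.intervalIntegrable _ _)
      (hc.intervalIntegrable _ _), norm_mul, Complex.norm_ofNat, show 8 / y = 2 * (4 / y) by ring]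
    gcongr
  have h2 : Tendsto (fun y : ℝ => 2 * ∫ v in (0 : ℝ)..y, e (v ^ 2 / 2)) atTop (𝓝 cF) :=
    CauchySeq.tendsto_limUnder (Metric.cauchySeq_iff'.2 fun ε hε => ⟨16 / ε, fun y hy => by
      rw [dist_eq_norm]
      refine (h1 _ _ (by positivity) hy).trans_lt ?_
      rw [div_div_eq_mul_div]; linarith⟩)
  have h3 : ∀ y : ℝ, 0 < y → ‖cF - 2 * ∫ v in (0 : ℝ)..y, e (v ^ 2 / 2)‖ ≤ 8 / y := fun y hy =>
    le_of_tendsto (h2.sub_const _).norm ((eventually_ge_atTop y).mono fun y' h => h1 y y' hy h)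
  refine ⟨?_, h3⟩
  have h4 := intervalIntegral.norm_integral_le_of_norm_le_const (a := 0) (b := 1) (C := 1)
    (f := fun v : ℝ => e (v ^ 2 / 2)) fun x _ => (norm_e _).le
  have h5 := norm_le_norm_add_norm_sub' cF (2 * ∫ v in (0 : ℝ)..1, e (v ^ 2 / 2))
  rw [norm_mul, Complex.norm_ofNat] at h5
  norm_num at h4
  linarith [h3 1 one_pos]

end Pool.Agent.Lib.MP_80d0cf_nt.Up
end

-- part Pool.Agent.Lib.MP_80d0cf_nt.Up.Sp
section

/-! Stationary phase with and without a stationary point. -/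

open Set MeasureTheory

namespace Pool.Agent.Lib.MP_80d0cf_nt.Up

namespace SpAux

lemma one_le_log {Z : ℝ} (hZ : 3 ≤ Z) : 1 ≤ Real.log Z := by
  rw [Real.le_log_iff_exp_le (by linarith)]
  linarith [Real.exp_one_lt_d9]

/-- mean value inequality on `[p, x]` -/
lemma mvt {E : Type*} [NormedAddCommGroup E] [NormedSpace ℝ E] {f f1 : ℝ → E} {p x C : ℝ}
    (hpx : p ≤ x) (hd : ∀ y ∈ Icc p x, HasDerivAt f (f1 y) y) (hb : ∀ y ∈ Icc p x, ‖f1 y‖ ≤ C) :
    ‖f x - f p‖ ≤ C * (x - p) := by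
  have := (convex_Icc p x).norm_image_sub_le_of_norm_hasDerivWithin_le (f := f) (f' := f1)
    (C := C) (x := p) (y := x) (fun z hz => (hd z hz).hasDerivWithinAt) hb
    (left_mem_Icc.2 hpx) (right_mem_Icc.2 hpx)
  rwa [Real.norm_of_nonneg (sub_nonneg.2 hpx)] at this

/-- a function with nonnegative derivative grows -/
lemma mono {f f1 : ℝ → ℝ} {p x : ℝ} (hpx : p ≤ x) (hd : ∀ y ∈ Icc p x, HasDerivAt f (f1 y) y)
    (hb : ∀ y ∈ Icc p x, 0 ≤ f1 y) : f p ≤ f x := by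
  have hm : MonotoneOn f (Icc p x) :=
    monotoneOn_of_hasDerivWithinAt_nonneg (convex_Icc p x)
      (fun y hy => (hd y hy).continuousAt.continuousWithinAt)
      (fun y hy => (hd y (interior_subset hy)).hasDerivWithinAt)
      (fun y hy => hb y (interior_subset hy))
  exact hm (left_mem_Icc.2 hpx) (right_mem_Icc.2 hpx) hpx

lemma intInt_of_bdd {f : ℝ → ℂ} {p q M : ℝ} (hpq : p ≤ q) (hc : ContinuousOn f (Ioc p q))
    (hb : ∀ x ∈ Ioc p q, ‖f x‖ ≤ M) : IntervalIntegrable f volume p q := by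
  rw [intervalIntegrable_iff_integrableOn_Ioc_of_le hpq]
  exact Integrable.of_bound (hc.aestronglyMeasurable measurableSet_Ioc) M
    ((ae_restrict_mem measurableSet_Ioc).mono hb)

/-- the trivial bound near the critical end point -/
lemma inner {β : ℝ → ℂ} {φ : ℝ → ℝ} {p c s m : ℝ} (hpc : p ≤ c) (hs : 0 < s) (hm : 0 ≤ m)
    (hc : (c - p) * s ≤ 1) (hb : ∀ x ∈ Ioc p c, ‖β x‖ ≤ m * (x - p)) :
    ‖∫ x in p..c, β x * e (φ x)‖ ≤ m / s ^ 2 := by
  have h0 : 0 ≤ c - p := sub_nonneg.2 hpc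
  have h1 := intervalIntegral.norm_integral_le_of_norm_le_const (a := p) (b := c)
    (C := m * (c - p)) (f := fun x => β x * e (φ x)) (fun x hx => by
      rw [uIoc_of_le hpc] at hx
      rw [norm_mul, norm_e, mul_one]
      exact (hb x hx).trans (by gcongr; exact hx.2))
  refine h1.trans ?_
  rw [abs_of_nonneg h0, le_div_iff₀ (by positivity)]
  have h2 : ((c - p) * s) ^ 2 ≤ 1 := pow_le_one₀ (by positivity) hc
  calc m * (c - p) * (c - p) * s ^ 2 = m * ((c - p) * s) ^ 2 := by ring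
    _ ≤ m * 1 := by gcongr
    _ = m := mul_one m

/-- the one-sided core estimate -/
lemma core (hi : IbpS) {β β1 : ℝ → ℂ} {φ φ1 φ2 : ℝ → ℝ} {p q s m κ Z : ℝ} (hpq : p ≤ q)
    (hs : 0 < s) (hm : 0 ≤ m) (hκ : 0 ≤ κ) (hd : ∀ x ∈ Ioc p q, HasDerivAt β (β1 x) x)
    (hb0 : ∀ x ∈ Ioc p q, ‖β x‖ ≤ m * (x - p)) (hb1 : ∀ x ∈ Ioc p q, ‖β1 x‖ ≤ m)
    (hph : Ph p q φ φ1 φ2) (h1 : ∀ x ∈ Ioc p q, s ^ 2 * (x - p) ≤ |φ1 x|)
    (h2 : ∀ x ∈ Ioc p q, |φ2 x| ≤ κ * s ^ 2) (hZ : 3 ≤ Z) (hqZ : (q - p) * s ≤ Z) :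
    ‖∫ x in p..q, β x * e (φ x)‖ ≤ (4 + κ) * (m / s ^ 2 * Real.log Z) := by
  have hL := one_le_log hZ
  have hms : 0 ≤ m / s ^ 2 := by positivity
  have hmL : m / s ^ 2 ≤ m / s ^ 2 * Real.log Z := le_mul_of_one_le_right hms hL
  by_cases hc : (q - p) * s ≤ 1
  · refine (inner hpq hs hm hc hb0).trans (hmL.trans ?_)
    exact le_mul_of_one_le_left (by positivity) (by linarith)
  push Not at hc
  set c := p + 1 / s with hcdef
  have hcp : c - p = 1 / s := by rw [hcdef]; ring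
  have hpc : p < c := by have : 0 < 1 / s := by positivity
                         linarith
  have hcq : c < q := by
    have : 1 / s < q - p := by rw [div_lt_iff₀ hs]; exact hc
    linarith
  have hsub : ∀ x ∈ Icc c q, x ∈ Ioc p q := fun x hx => ⟨hpc.trans_le hx.1, hx.2⟩
  have hsub' : ∀ x ∈ Icc c q, x ∈ Icc p q := fun x hx => ⟨hpc.le.trans hx.1, hx.2⟩
  have hint : IntervalIntegrable (fun x => β x * e (φ x)) volume p q := by
    refine intInt_of_bdd (M := m * (q - p)) hpq (fun x hx => ?_) fun x hx => ?_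
    · exact ((hd x hx).mul (hasDerivAt_e_comp
        (hph.d0 x (Ioc_subset_Icc_self hx)))).continuousAt.continuousWithinAt
    · rw [norm_mul, norm_e, mul_one]
      exact (hb0 x hx).trans (by gcongr; exact hx.2)
  have hi1 : IntervalIntegrable (fun x => β x * e (φ x)) volume p c :=
    hint.mono_set (by rw [uIcc_of_le hpc.le, uIcc_of_le hpq]; exact Icc_subset_Icc_right hcq.le)
  have hi2 : IntervalIntegrable (fun x => β x * e (φ x)) volume c q :=
    hint.mono_set (by rw [uIcc_of_le hcq.le, uIcc_of_le hpq]; exact Icc_subset_Icc_left hpc.le)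
  rw [← intervalIntegral.integral_add_adjacent_intervals hi1 hi2]
  have hin := inner (φ := φ) hpc.le hs hm (by rw [hcp]; field_simp; rfl)
    (fun x hx => hb0 x ⟨hx.1, hx.2.trans hcq.le⟩)
  have hbd : ∀ x ∈ Ioc p q, ‖β x‖ / |φ1 x| ≤ m / s ^ 2 := fun x hx => by
    have hx0 : 0 < x - p := sub_pos.2 hx.1
    calc ‖β x‖ / |φ1 x| ≤ m * (x - p) / (s ^ 2 * (x - p)) := by
          gcongr
          exacts [hb0 x hx, h1 x hx]
      _ = m / s ^ 2 := by field_simp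
  have hout := hi c q β β1 φ φ1 φ2 (fun x => (1 + κ) * (m / s ^ 2) * Real.log (x - p))
    (fun x => (1 + κ) * (m / s ^ 2) * (1 / (x - p))) hcq.le (fun x hx => hd x (hsub x hx))
    ⟨fun x hx => hph.d0 x (hsub' x hx), fun x hx => hph.d1 x (hsub' x hx)⟩
    (fun x hx h0 => by
      have := h1 x (hsub x hx)
      rw [h0, abs_zero] at this
      have hx0 : 0 < x - p := sub_pos.2 (hsub x hx).1
      exact this.not_gt (by positivity))
    (fun x hx => by
      have hx0 : 0 < x - p := sub_pos.2 (hsub x hx).1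
      exact (((hasDerivAt_id x).sub_const p).log hx0.ne').const_mul _)
    (fun x hx => by
      have hx' := hsub x hx
      have hx0 : 0 < x - p := sub_pos.2 hx'.1
      have e1 : ‖β1 x‖ / |φ1 x| ≤ m / (s ^ 2 * (x - p)) := by
        gcongr
        exacts [hb1 x hx', h1 x hx']
      have e2 : ‖β x‖ * |φ2 x| / φ1 x ^ 2 ≤
          m * (x - p) * (κ * s ^ 2) / (s ^ 2 * (x - p)) ^ 2 := by
        rw [← sq_abs (φ1 x)]
        gcongr
        exacts [hb0 x hx', h2 x hx', h1 x hx']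
      refine (add_le_add e1 e2).trans (le_of_eq ?_)
      field_simp)
  have hlog : Real.log (q - p) - Real.log (c - p) ≤ Real.log Z := by
    have hq0 : 0 < q - p := by linarith
    rw [hcp, ← Real.log_div hq0.ne' (by positivity)]
    refine Real.log_le_log (by positivity) ?_
    rwa [div_div_eq_mul_div, div_one]
  have hB : (1 + κ) * (m / s ^ 2) * Real.log (q - p) - (1 + κ) * (m / s ^ 2) * Real.log (c - p) ≤
      (1 + κ) * (m / s ^ 2 * Real.log Z) := by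
    rw [← mul_sub, mul_assoc]; gcongr
  have e1 := hbd c ⟨hpc, hcq.le⟩
  have e2 := hbd q ⟨hpc.trans hcq, le_rfl⟩
  refine (norm_add_le _ _).trans ?_
  linarith

/-- reflection of phase data -/
lemma ph3_neg {a b l κ : ℝ} {φ φ1 φ2 φ3 : ℝ → ℝ} (h : Ph3 a b l κ φ φ1 φ2 φ3) :
    Ph3 (-b) (-a) l κ (fun x => φ (-x)) (fun x => -φ1 (-x)) (fun x => φ2 (-x))
      (fun x => -φ3 (-x)) := by
  have hm : ∀ x ∈ Icc (-b) (-a), -x ∈ Icc a b := fun x hx => ⟨by linarith [hx.2], by linarith [hx.1]⟩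
  refine ⟨⟨fun x hx => ?_, fun x hx => ?_⟩, fun x hx => ?_, fun x hx => h.lo _ (hm x hx),
    fun x hx => h.hi _ (hm x hx), fun x hx => ?_⟩
  · exact ((h.ph.d0 _ (hm x hx)).comp x (hasDerivAt_neg x)).congr_deriv (by ring)
  · exact ((h.ph.d1 _ (hm x hx)).comp x (hasDerivAt_neg x)).neg.congr_deriv (by ring)
  · exact ((h.d2 _ (hm x hx)).comp x (hasDerivAt_neg x)).congr_deriv (by ring)
  · rw [abs_neg, show -a - -b = b - a by ring]; exact h.h3 _ (hm x hx)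

lemma ph3_mono {a b a' b' l κ : ℝ} {φ φ1 φ2 φ3 : ℝ → ℝ} (h : Ph3 a b l κ φ φ1 φ2 φ3)
    (ha : a ≤ a') (hb : b' ≤ b) : Ph3 a' b' l κ φ φ1 φ2 φ3 := by
  have hm : ∀ x ∈ Icc a' b', x ∈ Icc a b := fun x hx => ⟨ha.trans hx.1, hx.2.trans hb⟩
  refine ⟨⟨fun x hx => h.ph.d0 x (hm x hx), fun x hx => h.ph.d1 x (hm x hx)⟩,
    fun x hx => h.d2 x (hm x hx), fun x hx => h.lo x (hm x hx), fun x hx => h.hi x (hm x hx),
    fun x hx => le_trans ?_ (h.h3 x (hm x hx))⟩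
  gcongr

lemma der_neg {a b : ℝ} {ω ω1 : ℝ → ℂ} (h : ∀ x ∈ Icc a b, HasDerivAt ω (ω1 x) x) :
    ∀ x ∈ Icc (-b) (-a), HasDerivAt (fun x => ω (-x)) (-ω1 (-x)) x := fun x hx =>
  ((h (-x) ⟨by linarith [hx.2], by linarith [hx.1]⟩).scomp x (hasDerivAt_neg x)).congr_deriv
    (by simp)

/-- the first derivative grows at least linearly -/
lemma lin_le {a b l κ : ℝ} {φ φ1 φ2 φ3 : ℝ → ℝ} (h : Ph3 a b l κ φ φ1 φ2 φ3) (h0 : 0 ≤ φ1 a)
    {x : ℝ} (hx : x ∈ Icc a b) : l * (x - a) ≤ φ1 x := by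
  have hm : ∀ y ∈ Icc a x, y ∈ Icc a b := fun y hy => ⟨hy.1, hy.2.trans hx.2⟩
  have := mono (f := fun y => φ1 y - l * (y - a)) (f1 := fun y => φ2 y - l * 1) hx.1
    (fun y hy => (h.ph.d1 y (hm y hy)).sub (((hasDerivAt_id y).sub_const a).const_mul l))
    (fun y hy => by linarith [h.lo y (hm y hy)])
  simp only [sub_self, mul_zero, sub_zero] at this
  linarith

/-- no stationary point, increasing phase -/
lemma sp2_pos (hi : IbpS) {κ a b l μ Z : ℝ} {ω ω1 : ℝ → ℂ} {φ φ1 φ2 φ3 : ℝ → ℝ} (hκ : 1 ≤ κ)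
    (hab : a ≤ b) (hl : 0 < l) (hd : ∀ x ∈ Icc a b, HasDerivAt ω (ω1 x) x)
    (hb : ∀ x ∈ Icc a b, ‖ω1 x‖ ≤ μ) (ha : ω a = 0) (h : Ph3 a b l κ φ φ1 φ2 φ3) (hZ : 3 ≤ Z)
    (hbZ : (b - a) * √l ≤ Z) (h0 : 0 ≤ φ1 a) :
    ‖∫ x in a..b, ω x * e (φ x)‖ ≤ (4 + κ) * (μ / l * Real.log Z) := by
  have hs : √l ^ 2 = l := Real.sq_sqrt hl.le
  have hμ : 0 ≤ μ := (norm_nonneg _).trans (hb a (left_mem_Icc.2 hab))
  have := core hi (κ := κ) hab (Real.sqrt_pos.2 hl) hμ (by linarith)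
    (fun x hx => hd x (Ioc_subset_Icc_self hx))
    (fun x hx => by
      have hm : ∀ y ∈ Icc a x, y ∈ Icc a b := fun y hy => ⟨hy.1, hy.2.trans hx.2⟩
      have := mvt hx.1.le (fun y hy => hd y (hm y hy)) (fun y hy => hb y (hm y hy))
      rwa [ha, sub_zero] at this)
    (fun x hx => hb x (Ioc_subset_Icc_self hx)) h.ph
    (fun x hx => by
      rw [hs]; exact (lin_le h h0 (Ioc_subset_Icc_self hx)).trans (le_abs_self _))
    (fun x hx => by
      have h1 := h.lo x (Ioc_subset_Icc_self hx)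
      rw [hs, abs_of_nonneg (by linarith)]; exact h.hi x (Ioc_subset_Icc_self hx)) hZ hbZ
  rwa [hs] at this

/-- real algebra for the first derivative of the new variable -/
lemma alg1 {s κ k d r v p1 : ℝ} (hs : 0 < s) (hd : 0 < d) (hk : 0 ≤ k) (hkd : k * d ≤ κ * s ^ 2)
    (hr : r ^ 2 ≤ κ * s ^ 2) (hsr : s ≤ r) (hv : s * d ≤ v) (hp : 0 ≤ p1)
    (h1 : |p1 - r ^ 2 * d| ≤ k * d ^ 2) (h0 : |v ^ 2 - r ^ 2 * d ^ 2| ≤ 2 * k * d ^ 3) :
    |p1 / v - r| ≤ 5 * κ * k * d / s := by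
  have hv0 : 0 < v := lt_of_lt_of_le (by positivity) hv
  have hr0 : 0 < r := hs.trans_le hsr
  have hκ : 0 ≤ κ * s ^ 2 := le_trans (by positivity) hr
  have e : p1 / v - r = (p1 ^ 2 - r ^ 2 * v ^ 2) / (v * (p1 + r * v)) := by
    field_simp; ring
  obtain ⟨g, rfl⟩ : ∃ g, p1 = r ^ 2 * d + g := ⟨p1 - r ^ 2 * d, by ring⟩
  obtain ⟨al, hal⟩ : ∃ al, v ^ 2 = r ^ 2 * d ^ 2 + al := ⟨v ^ 2 - r ^ 2 * d ^ 2, by ring⟩
  rw [add_sub_cancel_left] at h1
  rw [hal, add_sub_cancel_left] at h0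
  have hN : |(r ^ 2 * d + g) ^ 2 - r ^ 2 * v ^ 2| ≤ 5 * (κ * s ^ 2) * k * d ^ 3 := by
    rw [hal, show (r ^ 2 * d + g) ^ 2 - r ^ 2 * (r ^ 2 * d ^ 2 + al) =
      2 * r ^ 2 * d * g + g * g - r ^ 2 * al by ring]
    have a1 : |2 * r ^ 2 * d * g| ≤ 2 * (κ * s ^ 2) * d * (k * d ^ 2) := by
      rw [abs_mul, abs_of_nonneg (by positivity)]; gcongr
    have a2 : |g * g| ≤ (κ * s ^ 2 * d) * (k * d ^ 2) := by
      rw [abs_mul]
      refine mul_le_mul (h1.trans ?_) h1 (abs_nonneg _) (by positivity)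
      calc k * d ^ 2 = k * d * d := by ring
        _ ≤ _ := by gcongr
    have a3 : |r ^ 2 * al| ≤ (κ * s ^ 2) * (2 * k * d ^ 3) := by
      rw [abs_mul, abs_of_nonneg (by positivity)]; gcongr
    calc _ ≤ |2 * r ^ 2 * d * g| + |g * g| + |r ^ 2 * al| :=
          (abs_sub _ _).trans (by gcongr; exact abs_add_le _ _)
      _ ≤ _ := (add_le_add (add_le_add a1 a2) a3).trans (le_of_eq (by ring))
  have hD : s * d * (s * (s * d)) ≤ v * (r ^ 2 * d + g + r * v) := by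
    gcongr
    calc s * (s * d) ≤ r * v := by gcongr
      _ ≤ _ := le_add_of_nonneg_left hp
  rw [e, abs_div, abs_of_pos (lt_of_lt_of_le (by positivity) hD)]
  calc _ ≤ 5 * (κ * s ^ 2) * k * d ^ 3 / (s * d * (s * (s * d))) := by gcongr
    _ = _ := by field_simp

/-- real algebra for the second derivative of the new variable -/
lemma alg2 {s κ k d r v p1 p2 : ℝ} (hs : 0 < s) (hd : 0 < d) (hk : 0 ≤ k)
    (hkd : k * d ≤ κ * s ^ 2) (hr : r ^ 2 ≤ κ * s ^ 2) (hv : s * d ≤ v)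
    (h2 : |p2 - r ^ 2| ≤ k * d) (h1 : |p1 - r ^ 2 * d| ≤ k * d ^ 2)
    (h0 : |v ^ 2 - r ^ 2 * d ^ 2| ≤ 2 * k * d ^ 3) :
    |(p2 * v - p1 * (p1 / v)) / v ^ 2| ≤ 8 * κ * k / s := by
  have hv0 : 0 < v := lt_of_lt_of_le (by positivity) hv
  have hκ : 0 ≤ κ * s ^ 2 := le_trans (by positivity) hr
  have e : (p2 * v - p1 * (p1 / v)) / v ^ 2 = (p2 * v ^ 2 - p1 ^ 2) / v ^ 3 := by
    field_simp
  obtain ⟨g, rfl⟩ : ∃ g, p1 = r ^ 2 * d + g := ⟨p1 - r ^ 2 * d, by ring⟩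
  obtain ⟨be, rfl⟩ : ∃ be, p2 = r ^ 2 + be := ⟨p2 - r ^ 2, by ring⟩
  obtain ⟨al, hal⟩ : ∃ al, v ^ 2 = r ^ 2 * d ^ 2 + al := ⟨v ^ 2 - r ^ 2 * d ^ 2, by ring⟩
  rw [add_sub_cancel_left] at h1 h2
  rw [hal, add_sub_cancel_left] at h0
  have hN : |(r ^ 2 + be) * v ^ 2 - (r ^ 2 * d + g) ^ 2| ≤ 8 * (κ * s ^ 2) * k * d ^ 3 := by
    rw [hal, show (r ^ 2 + be) * (r ^ 2 * d ^ 2 + al) - (r ^ 2 * d + g) ^ 2 =
      r ^ 2 * al + r ^ 2 * d ^ 2 * be + be * al - (2 * r ^ 2 * d * g + g * g) by ring]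
    have a1 : |2 * r ^ 2 * d * g| ≤ 2 * (κ * s ^ 2) * d * (k * d ^ 2) := by
      rw [abs_mul, abs_of_nonneg (by positivity)]; gcongr
    have a2 : |g * g| ≤ (κ * s ^ 2 * d) * (k * d ^ 2) := by
      rw [abs_mul]
      refine mul_le_mul (h1.trans ?_) h1 (abs_nonneg _) (by positivity)
      calc k * d ^ 2 = k * d * d := by ring
        _ ≤ _ := by gcongr
    have a3 : |r ^ 2 * al| ≤ (κ * s ^ 2) * (2 * k * d ^ 3) := by
      rw [abs_mul, abs_of_nonneg (by positivity)]; gcongr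
    have a4 : |r ^ 2 * d ^ 2 * be| ≤ (κ * s ^ 2) * d ^ 2 * (k * d) := by
      rw [abs_mul, abs_of_nonneg (by positivity)]; gcongr
    have a5 : |be * al| ≤ (κ * s ^ 2) * (2 * k * d ^ 3) := by
      rw [abs_mul]
      exact mul_le_mul (h2.trans hkd) h0 (abs_nonneg _) hκ
    have b1 := abs_add_le (2 * r ^ 2 * d * g) (g * g)
    have b2 := abs_add_three (r ^ 2 * al) (r ^ 2 * d ^ 2 * be) (be * al)
    refine (abs_sub _ _).trans ?_
    refine (add_le_add (b2.trans (add_le_add (add_le_add a3 a4) a5))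
      (b1.trans (add_le_add a1 a2))).trans (le_of_eq (by ring))
  rw [e, abs_div, abs_of_pos (show 0 < v ^ 3 by positivity)]
  calc _ ≤ 8 * (κ * s ^ 2) * k * d ^ 3 / (s * d) ^ 3 := by gcongr
    _ = _ := by field_simp

/-- Taylor bounds at the stationary point -/
lemma taylor {p q l κ k : ℝ} {φ φ1 φ2 φ3 : ℝ → ℝ} (h : Ph3 p q l κ φ φ1 φ2 φ3) (hk0 : 0 ≤ k)
    (hk : ∀ x ∈ Icc p q, |φ3 x| ≤ k) (h0 : φ1 p = 0) {x : ℝ} (hx : x ∈ Icc p q) :
    |φ2 x - φ2 p| ≤ k * (x - p) ∧ |φ1 x - φ2 p * (x - p)| ≤ k * (x - p) ^ 2 ∧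
      |2 * (φ x - φ p) - φ2 p * (x - p) ^ 2| ≤ 2 * k * (x - p) ^ 3 ∧
      l * (x - p) ^ 2 ≤ 2 * (φ x - φ p) := by
  have hm : ∀ {x}, x ∈ Icc p q → ∀ y ∈ Icc p x, y ∈ Icc p q :=
    fun hx y hy => ⟨hy.1, hy.2.trans hx.2⟩
  have t2 : ∀ x ∈ Icc p q, |φ2 x - φ2 p| ≤ k * (x - p) := fun x hx =>
    mvt hx.1 (fun y hy => h.d2 y (hm hx y hy)) (fun y hy => hk y (hm hx y hy))
  have t1 : ∀ x ∈ Icc p q, |φ1 x - φ2 p * (x - p)| ≤ k * (x - p) ^ 2 := fun x hx => by
    have := mvt (f := fun y => φ1 y - φ2 p * (y - p)) (f1 := fun y => φ2 y - φ2 p * 1)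
      (C := k * (x - p)) hx.1
      (fun y hy => (h.ph.d1 y (hm hx y hy)).sub (((hasDerivAt_id y).sub_const p).const_mul _))
      (fun y hy => by
        rw [mul_one]
        exact (t2 y (hm hx y hy)).trans (by gcongr; exact hy.2))
    simp only [h0, sub_self, mul_zero, sub_zero, Real.norm_eq_abs] at this
    exact this.trans (le_of_eq (by ring))
  refine ⟨t2 x hx, t1 x hx, ?_, ?_⟩
  · have := mvt (f := fun y => 2 * (φ y - φ p) - φ2 p * (y - p) ^ 2)
      (f1 := fun y => 2 * (φ1 y - φ2 p * (y - p))) (C := 2 * (k * (x - p) ^ 2)) hx.1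
      (fun y hy => ((((h.ph.d0 y (hm hx y hy)).sub_const _).const_mul 2).sub
        ((((hasDerivAt_id y).sub_const p).fun_pow 2).const_mul _)).congr_deriv (by simp; ring))
      (fun y hy => by
        have hy0 : 0 ≤ y - p := sub_nonneg.2 hy.1
        rw [Real.norm_eq_abs, abs_mul, abs_two]
        gcongr
        exact (t1 y (hm hx y hy)).trans (by gcongr; exact hy.2))
    simp only [sub_self, mul_zero, sub_zero, Real.norm_eq_abs, ne_eq, OfNat.ofNat_ne_zero,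
      not_false_eq_true, zero_pow] at this
    exact this.trans (le_of_eq (by ring))
  · have := mono (f := fun y => 2 * (φ y - φ p) - l * (y - p) ^ 2)
      (f1 := fun y => 2 * (φ1 y - l * (y - p))) hx.1
      (fun y hy => ((((h.ph.d0 y (hm hx y hy)).sub_const _).const_mul 2).sub
        ((((hasDerivAt_id y).sub_const p).fun_pow 2).const_mul _)).congr_deriv (by simp; ring))
      (fun y hy => by linarith [lin_le h h0.ge (hm hx y hy)])
    simp only [sub_self, mul_zero, ne_eq, OfNat.ofNat_ne_zero,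
      not_false_eq_true, zero_pow] at this
    linarith

/-- change of variable to the Fresnel integral -/
lemma fresnel {v v1 : ℝ → ℝ} {p q M : ℝ} (hpq : p ≤ q) (hc : ContinuousOn v (Icc p q))
    (hd : ∀ x ∈ Ioc p q, HasDerivAt v (v1 x) x) (hc1 : ContinuousOn v1 (Ioc p q))
    (hb : ∀ x ∈ Ioc p q, |v1 x| ≤ M) (h0 : v p = 0) :
    ∫ x in p..q, (v1 x : ℂ) * e (v x ^ 2 / 2) = ∫ t in (0 : ℝ)..v q, e (t ^ 2 / 2) := by
  have hE : Continuous fun t : ℝ => e (t ^ 2 / 2) := by fun_prop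
  have hG : ∀ y, HasDerivAt (fun y => ∫ t in (0 : ℝ)..y, e (t ^ 2 / 2)) (e (y ^ 2 / 2)) y :=
    fun y => (hE.integral_hasStrictDerivAt 0 y).hasDerivAt
  have hGc : Continuous fun y => ∫ t in (0 : ℝ)..y, e (t ^ 2 / 2) :=
    continuous_iff_continuousAt.2 fun y => (hG y).continuousAt
  have := intervalIntegral.integral_eq_sub_of_hasDerivAt_of_le
    (f := fun x => ∫ t in (0 : ℝ)..v x, e (t ^ 2 / 2))
    (f' := fun x => (v1 x : ℂ) * e (v x ^ 2 / 2)) hpq (hGc.comp_continuousOn hc)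
    (fun x hx => ((hG (v x)).scomp x (hd x (Ioo_subset_Ioc_self hx))).congr_deriv (by simp))
    (intInt_of_bdd (M := M) hpq
      ((Complex.continuous_ofReal.comp_continuousOn hc1).mul
        (hE.comp_continuousOn (hc.mono Ioc_subset_Icc_self)))
      (fun x hx => by rw [norm_mul, norm_e, mul_one, Complex.norm_real]; exact hb x hx))
  rw [this, h0, intervalIntegral.integral_same, sub_zero]

/-- the contribution of one side of the stationary point -/
lemma side (hi : IbpS) (hc : CFS) {κ p q l μ Z : ℝ} {ω ω1 : ℝ → ℂ} {φ φ1 φ2 φ3 : ℝ → ℝ}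
    (hκ : 1 ≤ κ) (hpq : p ≤ q) (hl : 0 < l) (hd : ∀ x ∈ Icc p q, HasDerivAt ω (ω1 x) x)
    (hb : ∀ x ∈ Icc p q, ‖ω1 x‖ ≤ μ) (hq : ω q = 0) (h : Ph3 p q l κ φ φ1 φ2 φ3) (hZ : 3 ≤ Z)
    (hqZ : (q - p) * √l ≤ Z) (h0 : φ1 p = 0) :
    ‖(∫ x in p..q, ω x * e (φ x)) - ω p * e (φ p) * cF / (√(φ2 p) : ℝ) / 2‖ ≤
      ((4 + κ) * (1 + 8 * κ ^ 2) + 4) * (μ / l * Real.log Z) := by
  have hL := one_le_log hZ
  have hμ : 0 ≤ μ := (norm_nonneg _).trans (hb p (left_mem_Icc.2 hpq))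
  rcases hpq.eq_or_lt with rfl | hpq'
  · simp only [hq, intervalIntegral.integral_same, zero_mul, zero_div, sub_zero, norm_zero]
    positivity
  have hD : 0 < q - p := sub_pos.2 hpq'
  have hp := left_mem_Icc.2 hpq
  set s := √l with hsdef
  have hs0 : 0 < s := Real.sqrt_pos.2 hl
  have hs : s ^ 2 = l := Real.sq_sqrt hl.le
  set r := √(φ2 p) with hrdef
  have hr : r ^ 2 = φ2 p := Real.sq_sqrt (hl.le.trans (h.lo p hp))
  have hsr : s ≤ r := Real.sqrt_le_sqrt (h.lo p hp)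
  have hr0 : 0 < r := hs0.trans_le hsr
  have hrκ : r ^ 2 ≤ κ * s ^ 2 := by rw [hr, hs]; exact h.hi p hp
  set k := κ * l / (q - p) with hkdef
  have hk0 : 0 ≤ k := by positivity
  have hkD : k * (q - p) = κ * s ^ 2 := by rw [hkdef, hs]; field_simp
  have hk : ∀ x ∈ Icc p q, |φ3 x| ≤ k := fun x hx => by
    rw [hkdef, le_div_iff₀ hD]; exact h.h3 x hx
  have hkd : ∀ x ∈ Ioc p q, k * (x - p) ≤ κ * s ^ 2 := fun x hx => by
    rw [← hkD]; gcongr; exact hx.2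
  have hw0 : ‖ω p‖ ≤ μ * (q - p) := by
    have := mvt hpq hd hb
    rwa [hq, zero_sub, norm_neg] at this
  set v : ℝ → ℝ := fun x => √(2 * (φ x - φ p)) with hvdef
  have hT := fun x (hx : x ∈ Icc p q) => taylor h hk0 hk h0 hx
  have hv2 : ∀ x ∈ Icc p q, v x ^ 2 = 2 * (φ x - φ p) := fun x hx =>
    Real.sq_sqrt (le_trans (by positivity) (hT x hx).2.2.2)
  have hvs : ∀ x ∈ Icc p q, s * (x - p) ≤ v x := fun x hx =>
    Real.le_sqrt_of_sq_le (by rw [mul_pow, hs]; exact (hT x hx).2.2.2)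
  have hv0 : ∀ x ∈ Ioc p q, 0 < v x := fun x hx =>
    lt_of_lt_of_le (mul_pos hs0 (sub_pos.2 hx.1)) (hvs x (Ioc_subset_Icc_self hx))
  have hvd : ∀ x ∈ Ioc p q, HasDerivAt v (φ1 x / v x) x := fun x hx => by
    have hx' := Ioc_subset_Icc_self hx
    have hne : 2 * (φ x - φ p) ≠ 0 := by rw [← hv2 x hx']; exact (pow_pos (hv0 x hx) 2).ne'
    refine ((((h.ph.d0 x hx').sub_const _).const_mul 2).sqrt hne).congr_deriv ?_
    exact mul_div_mul_left _ _ two_ne_zero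
  have hvd1 : ∀ x ∈ Ioc p q, HasDerivAt (fun x => φ1 x / v x)
      ((φ2 x * v x - φ1 x * (φ1 x / v x)) / v x ^ 2) x := fun x hx =>
    (h.ph.d1 x (Ioc_subset_Icc_self hx)).div (hvd x hx) (hv0 x hx).ne'
  have A1 : ∀ x ∈ Ioc p q, |φ1 x / v x - r| ≤ 5 * κ * k * (x - p) / s := fun x hx => by
    have hx' := Ioc_subset_Icc_self hx
    refine alg1 hs0 (sub_pos.2 hx.1) hk0 (hkd x hx) hrκ hsr (hvs x hx')
      (le_trans (mul_nonneg hl.le (sub_nonneg.2 hx.1.le)) (lin_le h h0.ge hx')) ?_ ?_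
    · rw [hr]; exact (hT x hx').2.1
    · rw [hr, hv2 x hx']; exact (hT x hx').2.2.1
  have A2 : ∀ x ∈ Ioc p q,
      |(φ2 x * v x - φ1 x * (φ1 x / v x)) / v x ^ 2| ≤ 8 * κ * k / s := fun x hx => by
    have hx' := Ioc_subset_Icc_self hx
    refine alg2 hs0 (sub_pos.2 hx.1) hk0 (hkd x hx) hrκ (hvs x hx') ?_ ?_ ?_
    · rw [hr]; exact (hT x hx').1
    · rw [hr]; exact (hT x hx').2.1
    · rw [hr, hv2 x hx']; exact (hT x hx').2.2.1
  have hwr : ‖ω p / (r : ℂ)‖ ≤ μ * (q - p) / s := by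
    rw [norm_div, Complex.norm_real, Real.norm_of_nonneg hr0.le]; gcongr
  have hκ0 : 0 ≤ κ := by linarith
  have hcore := core hi (β := fun x => ω x - ω p / r * ((φ1 x / v x : ℝ) : ℂ))
    (β1 := fun x => ω1 x - ω p / r * (((φ2 x * v x - φ1 x * (φ1 x / v x)) / v x ^ 2 : ℝ) : ℂ))
    (m := (1 + 8 * κ ^ 2) * μ) (κ := κ) hpq hs0 (by positivity) hκ0
    (fun x hx => (hd x (Ioc_subset_Icc_self hx)).sub ((hvd1 x hx).ofReal_comp.const_mul _))
    (fun x hx => by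
      have hx0 : 0 < x - p := sub_pos.2 hx.1
      have hm : ∀ y ∈ Icc p x, y ∈ Icc p q := fun y hy => ⟨hy.1, hy.2.trans hx.2⟩
      have e1 := mvt hx.1.le (fun y hy => hd y (hm y hy)) (fun y hy => hb y (hm y hy))
      have hrc : (r : ℂ) ≠ 0 := by exact_mod_cast hr0.ne'
      have e2 : ω x - ω p / r * ((φ1 x / v x : ℝ) : ℂ) =
          (ω x - ω p) - ω p / r * ((φ1 x / v x - r : ℝ) : ℂ) := by
        rw [Complex.ofReal_sub]; field_simp; ring
      have e3 : ‖ω p / r * ((φ1 x / v x - r : ℝ) : ℂ)‖ ≤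
          μ * (q - p) / s * (5 * κ * k * (x - p) / s) := by
        rw [norm_mul, Complex.norm_real]
        exact mul_le_mul hwr (A1 x hx) (norm_nonneg _) (by positivity)
      have e4 : μ * (q - p) / s * (5 * κ * k * (x - p) / s) = 5 * κ ^ 2 * (μ * (x - p)) := by
        calc _ = 5 * κ * (k * (q - p)) * (μ * (x - p)) / s ^ 2 := by field_simp
          _ = _ := by rw [hkD]; field_simp
      have e5 : 0 ≤ κ ^ 2 * (μ * (x - p)) := by positivity
      rw [e2]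
      refine (norm_sub_le _ _).trans ?_
      rw [e4] at e3
      linarith)
    (fun x hx => by
      have e3 : ‖ω p / r * (((φ2 x * v x - φ1 x * (φ1 x / v x)) / v x ^ 2 : ℝ) : ℂ)‖ ≤
          μ * (q - p) / s * (8 * κ * k / s) := by
        rw [norm_mul, Complex.norm_real]
        exact mul_le_mul hwr (A2 x hx) (norm_nonneg _) (by positivity)
      have e4 : μ * (q - p) / s * (8 * κ * k / s) = 8 * κ ^ 2 * μ := by
        calc _ = 8 * κ * (k * (q - p)) * μ / s ^ 2 := by field_simp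
          _ = _ := by rw [hkD]; field_simp
      refine (norm_sub_le _ _).trans ?_
      rw [e4] at e3
      linarith [hb x (Ioc_subset_Icc_self hx)])
    h.ph
    (fun x hx => by
      rw [hs]; exact (lin_le h h0.ge (Ioc_subset_Icc_self hx)).trans (le_abs_self _))
    (fun x hx => by
      have h1 := h.lo x (Ioc_subset_Icc_self hx)
      rw [hs, abs_of_nonneg (by linarith)]; exact h.hi x (Ioc_subset_Icc_self hx)) hZ hqZ
  have hφc : ContinuousOn φ (Icc p q) := fun x hx =>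
    (h.ph.d0 x hx).continuousAt.continuousWithinAt
  have hvc : ContinuousOn v (Icc p q) :=
    ((hφc.sub continuousOn_const).const_mul 2).sqrt
  have hv1c : ContinuousOn (fun x => φ1 x / v x) (Ioc p q) := fun x hx =>
    (hvd1 x hx).continuousAt.continuousWithinAt
  have hv1b : ∀ x ∈ Ioc p q, |φ1 x / v x| ≤ r + 5 * κ * k * (q - p) / s := fun x hx => by
    have e1 : 5 * κ * k * (x - p) / s ≤ 5 * κ * k * (q - p) / s := by gcongr; exact hx.2
    have e2 := abs_sub_abs_le_abs_sub (φ1 x / v x) r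
    rw [abs_of_pos hr0] at e2
    linarith [A1 x hx]
  have hF := fresnel hpq hvc hvd hv1c hv1b (by simp [hvdef])
  have hec : ContinuousOn (fun x => e (φ x)) (Icc p q) := continuous_e.comp_continuousOn hφc
  have i1 : IntervalIntegrable (fun x => ω x * e (φ x)) volume p q := by
    refine ContinuousOn.intervalIntegrable_of_Icc hpq (ContinuousOn.mul (fun x hx => ?_) hec)
    exact (hd x hx).continuousAt.continuousWithinAt
  have i2 : IntervalIntegrable (fun x => ((φ1 x / v x : ℝ) : ℂ) * e (φ x)) volume p q :=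
    intInt_of_bdd hpq ((Complex.continuous_ofReal.comp_continuousOn hv1c).mul
      (hec.mono Ioc_subset_Icc_self))
      (fun x hx => by rw [norm_mul, norm_e, mul_one, Complex.norm_real]; exact hv1b x hx)
  have i3 : ∫ x in p..q, ((φ1 x / v x : ℝ) : ℂ) * e (φ x) =
      e (φ p) * ∫ t in (0 : ℝ)..v q, e (t ^ 2 / 2) := by
    rw [← hF, ← intervalIntegral.integral_const_mul]
    refine intervalIntegral.integral_congr fun x hx => ?_
    rw [uIcc_of_le hpq] at hx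
    rw [hv2 x hx, mul_left_comm, ← e_add]
    congr 2; ring
  have i4 : ∫ x in p..q, (ω x - ω p / r * ((φ1 x / v x : ℝ) : ℂ)) * e (φ x) =
      (∫ x in p..q, ω x * e (φ x)) -
        ω p / r * (e (φ p) * ∫ t in (0 : ℝ)..v q, e (t ^ 2 / 2)) := by
    rw [← i3, ← intervalIntegral.integral_const_mul,
      ← intervalIntegral.integral_sub i1 (i2.const_mul _)]
    exact intervalIntegral.integral_congr fun x _ => by ring
  have hvq := hv0 q ⟨hpq', le_rfl⟩
  have i5 : ‖ω p / r * (e (φ p) / 2) * (cF - 2 * ∫ t in (0 : ℝ)..v q, e (t ^ 2 / 2))‖ ≤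
      4 * (μ / l) := by
    rw [norm_mul, norm_mul, norm_div (e _), norm_e, Complex.norm_two]
    calc _ ≤ μ * (q - p) / s * (1 / 2) * (8 / (s * (q - p))) := by
          gcongr
          exact (hc.2 _ hvq).trans (by gcongr; exact hvs q (right_mem_Icc.2 hpq))
      _ = _ := by rw [← hs]; field_simp; ring
  have i6 : (∫ x in p..q, ω x * e (φ x)) - ω p * e (φ p) * cF / (r : ℝ) / 2 =
      (∫ x in p..q, (ω x - ω p / r * ((φ1 x / v x : ℝ) : ℂ)) * e (φ x)) -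
        ω p / r * (e (φ p) / 2) * (cF - 2 * ∫ t in (0 : ℝ)..v q, e (t ^ 2 / 2)) := by
    rw [i4]; ring
  rw [i6]
  refine (norm_sub_le _ _).trans ?_
  have hml : μ / l ≤ μ / l * Real.log Z := le_mul_of_one_le_right (by positivity) hL
  have e1 : (4 + κ) * ((1 + 8 * κ ^ 2) * μ / s ^ 2 * Real.log Z) =
      (4 + κ) * (1 + 8 * κ ^ 2) * (μ / l * Real.log Z) := by rw [hs]; ring
  rw [e1] at hcore
  linarith

end SpAux

open SpAux

theorem sp2 (hi : IbpS) : Sp2S := by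
  intro κ hκ
  refine ⟨4 + κ, by linarith, ?_⟩
  intro a b l μ Z ω ω1 φ φ1 φ2 φ3 hab hl hd hb ha hb0 h hZ hbZ hne
  rcases le_total 0 (φ1 a) with h0 | h0
  · exact sp2_pos hi hκ hab hl hd hb ha h hZ hbZ h0
  have h1 : φ1 b ≤ 0 := by
    by_contra hcon
    push Not at hcon
    have hc : ContinuousOn φ1 (Icc a b) := fun x hx =>
      (h.ph.d1 x hx).continuousAt.continuousWithinAt
    obtain ⟨x, hx, hx0⟩ := intermediate_value_Icc hab hc ⟨h0, hcon.le⟩
    exact hne x hx hx0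
  have := sp2_pos hi (ω := fun x => ω (-x)) (ω1 := fun x => -ω1 (-x)) (μ := μ) hκ
    (neg_le_neg hab) hl (der_neg hd)
    (fun x hx => by rw [norm_neg]; exact hb _ ⟨by linarith [hx.2], by linarith [hx.1]⟩)
    (by simpa using hb0) (ph3_neg h) hZ (by rwa [show -a - -b = b - a by ring])
    (by simpa using h1)
  rwa [intervalIntegral.integral_comp_neg (fun x => ω x * e (φ x)), neg_neg, neg_neg] at this

theorem sp1 (hi : IbpS) (hc : CFS) : Sp1S := by
  intro κ hκ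
  refine ⟨2 * ((4 + κ) * (1 + 8 * κ ^ 2) + 4), by positivity, ?_⟩
  intro a b l μ Z x0 ω ω1 φ φ1 φ2 φ3 hab hl hd hb ha hb0 h hZ hbZ hx h0
  have hs := Real.sqrt_nonneg l
  have hR : ∀ y ∈ Icc x0 b, y ∈ Icc a b := fun y hy => ⟨hx.1.trans hy.1, hy.2⟩
  have hL : ∀ y ∈ Icc a x0, y ∈ Icc a b := fun y hy => ⟨hy.1, hy.2.trans hx.2⟩
  have e1 := side hi hc hκ hx.2 hl (fun y hy => hd y (hR y hy)) (fun y hy => hb y (hR y hy)) hb0
    (ph3_mono h hx.1 le_rfl) hZ (le_trans (by gcongr; exact hx.1) hbZ) h0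
  have e2 := side hi hc (ω := fun x => ω (-x)) (ω1 := fun x => -ω1 (-x)) (μ := μ) hκ
    (neg_le_neg hx.1) hl (der_neg fun y hy => hd y (hL y hy))
    (fun y hy => by rw [norm_neg]; exact hb _ (hL _ ⟨by linarith [hy.2], by linarith [hy.1]⟩))
    (by simpa using ha) (ph3_neg (ph3_mono h le_rfl hx.2)) hZ
    (le_trans (by rw [show -a - -x0 = x0 - a by ring]; gcongr; exact hx.2) hbZ)
    (by simpa using h0)
  rw [intervalIntegral.integral_comp_neg (fun x => ω x * e (φ x))] at e2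
  simp only [neg_neg] at e2
  have hcont : ContinuousOn (fun x => ω x * e (φ x)) (Icc a b) := fun x hx =>
    ((hd x hx).mul (hasDerivAt_e_comp (h.ph.d0 x hx))).continuousAt.continuousWithinAt
  have i1 : IntervalIntegrable (fun x => ω x * e (φ x)) volume a x0 :=
    (hcont.mono hL).intervalIntegrable_of_Icc hx.1
  have i2 : IntervalIntegrable (fun x => ω x * e (φ x)) volume x0 b :=
    (hcont.mono hR).intervalIntegrable_of_Icc hx.2
  rw [← intervalIntegral.integral_add_adjacent_intervals i1 i2]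
  have := norm_add_le_of_le e2 e1
  rw [← two_mul, ← mul_assoc] at this
  refine le_trans (le_of_eq ?_) this
  congr 1; ring

end Pool.Agent.Lib.MP_80d0cf_nt.Up
end
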