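import Pool.Agent.Lib.MP_80d0cf_nt.Up.Lev

-- part Pool.Agent.Lib.MP_80d0cf_nt.Up.FamB
section

/-! Level sets of the families: choice of the parameters. -/

open Set MeasureTheory

namespace Pool.Agent.Lib.MP_80d0cf_nt.Up

namespace FamBAux

lemma exists_root16 {K : ℕ} (hK : 1 ≤ K) : ∃ M : ℕ, 1 ≤ M ∧ M ^ 16 ≤ K ∧ K ≤ (2 * M) ^ 16 := by
  classical
  have hex : ∃ n : ℕ, K < (n + 1) ^ 16 := ⟨K, by
    calc K < K + 1 := Nat.lt_succ_self K
      _ = (K + 1) ^ 1 := (pow_one _).symm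
      _ ≤ (K + 1) ^ 16 := Nat.pow_le_pow_right (by omega) (by norm_num)⟩
  have h1 := Nat.find_spec hex
  have h0 : Nat.find hex ≠ 0 := by
    intro h; rw [h] at h1; simp at h1; omega
  obtain ⟨n, hn⟩ := Nat.exists_eq_succ_of_ne_zero h0
  have h2 := Nat.find_min hex (show n < Nat.find hex by omega)
  refine ⟨n + 1, by omega, not_lt.1 h2, ?_⟩
  rw [hn] at h1
  exact h1.le.trans (Nat.pow_le_pow_left (by omega) _)

/-- the three error terms of the grid lemma in the Halasz-Montgomery range -/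
lemma err_le {K M T s La : ℝ} (hK : 1 ≤ K) (hs : 1 ≤ s) (hT : T = K * s ^ 2) (hL : 1 ≤ La)
    (hM0 : 0 ≤ M) (hM : K * M * La ≤ s ^ 2) (hKL : K * La ≤ s ^ 2) :
    K * M * (1 / s) + K ^ 2 * M ^ 2 * (1 / s) ^ 3 + K ^ 4 * M / T ^ 2 ≤ 3 * s / La := by
  have hs0 : 0 < s := by linarith
  have hL0 : 0 < La := by linarith
  have hK0 : 0 < K := by linarith
  have h1 : K * M ≤ s ^ 2 / La := by rwa [le_div_iff₀ hL0]
  have h2 : K ≤ s ^ 2 := le_trans (le_mul_of_one_le_right hK0.le hL) hKL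
  have e1 : K * M * (1 / s) ≤ s / La := by
    calc _ ≤ s ^ 2 / La * (1 / s) := by gcongr
      _ = _ := by field_simp
  have e2 : K ^ 2 * M ^ 2 * (1 / s) ^ 3 ≤ s / La := by
    calc _ = (K * M) ^ 2 * (1 / s) ^ 3 := by ring
      _ ≤ (s ^ 2 / La) ^ 2 * (1 / s) ^ 3 := by gcongr
      _ = s / La / La := by field_simp
      _ ≤ _ := div_le_self (by positivity) hL
  have e3 : K ^ 4 * M / T ^ 2 ≤ s / La := by
    calc _ = K * (K * M) / s ^ 4 := by rw [hT]; field_simp
      _ ≤ s ^ 2 * (s ^ 2 / La) / s ^ 4 := by gcongr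
      _ = 1 / La := by field_simp
      _ ≤ _ := by gcongr
  have : 3 * s / La = s / La + s / La + s / La := by ring
  linarith

end FamBAux

open FamBAux

theorem hmp (hm : MvS) (hg : GridS) (hd : DhmS) : HmpS := by
  obtain ⟨Cm, hCm, hm⟩ := hm
  obtain ⟨Cg, hCg, hg⟩ := hg
  obtain ⟨Cd, hCd, hd⟩ := hd
  set d : ℝ := 4 * Cd + 3 * Cg + 1 with hdd
  have hd1 : 1 ≤ d := by linarith
  refine ⟨Cm * d ^ 2 + 12 * Cg * Cd * d ^ 2, by positivity, ?_⟩
  intro T B l K a a1 hK hKT hB hl hF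
  have hK1 : (1 : ℝ) ≤ K := by exact_mod_cast hK
  have hK0 : (0 : ℝ) < K := by linarith
  have hT1 : 1 ≤ T := hK1.trans hKT
  have hT0 : 0 < T := by linarith
  have hB0 : 0 < B := by linarith
  set L := Real.log (T + 2) with hLd
  have hL1 : 1 ≤ L := one_le_log_add_two hT1
  have hLK1 : 1 ≤ Real.log (K + 2) := one_le_log_add_two hK1
  have hLK : Real.log (K + 2) ≤ L := Real.log_le_log (by linarith) (by linarith)
  set s := √(T / K) with hsd
  have hs2 : s ^ 2 = T / K := Real.sq_sqrt (by positivity)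
  have hTs : T = K * s ^ 2 := by rw [hs2]; field_simp
  have hs1 : 1 ≤ s := Real.le_sqrt_of_sq_le (by rw [le_div_iff₀ hK0]; linarith)
  have hs0 : 0 < s := by linarith
  have hsi : √(K / T) = 1 / s := by rw [hsd, one_div, ← Real.sqrt_inv, inv_div]
  set q := (K * T) ^ (1 / 4 : ℝ) with hqd
  have hq0 : 0 < q := by positivity
  have hq2 : q ^ 2 = K * s := by
    have h4 : (q ^ 2) ^ 2 = (K * s) ^ 2 := by
      rw [← pow_mul, hqd, ← Real.rpow_natCast, ← Real.rpow_mul (by positivity)]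
      norm_num
      rw [hTs]; ring
    exact (pow_left_inj₀ (by positivity) (by positivity) two_ne_zero).1 h4
  have hl0 : 0 < l := hq0.trans_le hl
  have hl2 : K * s ≤ l ^ 2 := by rw [← hq2]; gcongr
  by_cases h0 : K * B < l
  · rw [lev_eq_zero fun τ hτ => (norm_SS_le hF hτ).trans_lt h0]; positivity
  push Not at h0
  have hsK : s ≤ K * B ^ 2 := by
    have h1 : K * s ≤ (K * B) ^ 2 := hl2.trans (by gcongr)
    have h2 : K * s ≤ K * (K * B ^ 2) := by linarith
    exact le_of_mul_le_mul_left h2 hK0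
  have hsq : s ≤ B * q := by
    refine (pow_le_pow_iff_left₀ hs0.le (by positivity) two_ne_zero).1 ?_
    rw [mul_pow, hq2]
    calc s ^ 2 = s * s := by ring
      _ ≤ K * B ^ 2 * s := by gcongr
      _ = _ := by ring
  set r := d * B ^ 2 * L with hrd
  have hB2 : 1 ≤ B ^ 2 := one_le_pow₀ hB
  have hr1 : B ^ 2 ≤ r := by
    calc B ^ 2 = 1 * B ^ 2 * 1 := by ring
      _ ≤ d * B ^ 2 * L := by gcongr
  have hr0 : 0 < r := by positivity
  have hr11 : 1 ≤ r := hB2.trans hr1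
  have hLa1 : 1 ≤ r ^ 2 := one_le_pow₀ hr11
  by_cases h1 : s ^ 2 < K * r ^ 2
  · refine (hm T B l K a a1 hK hKT hB0.le hl0 hF).trans ?_
    refine div_le_div_of_nonneg_right ?_ (by positivity)
    calc Cm * B ^ 2 * K * T * Real.log (K + 2) ≤ Cm * B ^ 2 * K * (K * (K * r ^ 2)) * (L * L) := by
          rw [hTs]
          gcongr
          exact hLK.trans (le_mul_of_one_le_left (by linarith) hL1)
      _ = Cm * d ^ 2 * B ^ 6 * L ^ 4 * K ^ 3 := by rw [hrd]; ring
      _ ≤ _ := by gcongr; exact le_add_of_nonneg_right (by positivity)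
  push Not at h1
  set M := ⌊s ^ 2 / (K * r ^ 2)⌋₊ with hMd
  have hx1 : 1 ≤ s ^ 2 / (K * r ^ 2) := by rwa [le_div_iff₀ (by positivity), one_mul]
  have hM1 : 1 ≤ M := Nat.le_floor (by simpa using hx1)
  have hM1' : (1 : ℝ) ≤ M := by exact_mod_cast hM1
  have hMle : K * M * r ^ 2 ≤ s ^ 2 := by
    have := Nat.floor_le (show 0 ≤ s ^ 2 / (K * r ^ 2) by positivity)
    rw [le_div_iff₀ (by positivity)] at this
    linarith
  have hMge : s ^ 2 ≤ 2 * (K * M * r ^ 2) := by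
    have h2 := (Nat.lt_floor_add_one (s ^ 2 / (K * r ^ 2))).le
    rw [div_le_iff₀ (by positivity)] at h2
    calc s ^ 2 ≤ (M + 1) * (K * r ^ 2) := h2
      _ ≤ (M + M) * (K * r ^ 2) := by gcongr
      _ = _ := by ring
  have hMK : M ≤ K := by
    have h2 : K * M * r ^ 2 ≤ K * K * r ^ 2 := by
      calc _ ≤ s ^ 2 := hMle
        _ ≤ (K * r) ^ 2 := by gcongr; exact hsK.trans (by gcongr)
        _ = _ := by ring
    have h3 := le_of_mul_le_mul_right h2 (by positivity)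
    exact_mod_cast le_of_mul_le_mul_left h3 hK0
  have herr : Cg * B * (K * M * √(K / T) + (K : ℝ) ^ 2 * (M : ℝ) ^ 2 * √(K / T) ^ 3 +
      (K : ℝ) ^ 4 * M / T ^ 2) ≤ l := by
    rw [hsi]
    calc _ ≤ Cg * B * (3 * s / r ^ 2) := by
          gcongr; exact err_le hK1 hs1 hTs hLa1 (by positivity) hMle h1
      _ ≤ Cg * B * (3 * (B * q) / r ^ 2) := by gcongr
      _ = (3 * Cg * B ^ 2 / r ^ 2) * q := by ring
      _ ≤ 1 * q := by
          gcongr
          rw [div_le_one (by positivity)]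
          calc 3 * Cg * B ^ 2 ≤ d * B ^ 2 * 1 * 1 := by
                rw [mul_one, mul_one]; gcongr; linarith
            _ ≤ d * B ^ 2 * L * r := by gcongr
            _ = r ^ 2 := by rw [← hrd]; ring
      _ ≤ l := by linarith
  have hcond : Cd * K * √(K * M) * Real.log (K + 2) ≤ (l / (2 * B)) ^ 2 := by
    have h2 : √(K * M) ≤ s / r := by
      refine Real.sqrt_le_iff.2 ⟨by positivity, ?_⟩
      rwa [div_pow, le_div_iff₀ (by positivity)]
    calc _ ≤ Cd * K * (s / r) * L := by gcongr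
      _ = (4 * Cd / d) * (K * s) / (2 * B) ^ 2 := by rw [hrd]; field_simp; norm_num
      _ ≤ 1 * l ^ 2 / (2 * B) ^ 2 := by
          gcongr
          rw [div_le_one (by positivity)]; linarith
      _ = _ := by rw [div_pow, one_mul]
  have key := hg T B l (Cd * Real.log (K + 2) ^ 2 * (K : ℝ) ^ 2 / (l / (2 * B)) ^ 2) K M a a1 hK
    hKT hM1 hB (by positivity) hF herr (fun ρ b W hρ0 hρ hb hW hlev => by
      refine hd K M ρ _ b W hM1 hMK hρ0 ?_ (by positivity) hb hW hlev hcond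
      calc ρ * K * M ≤ K / (24 * T) * K * M := by gcongr
        _ = K * M / (24 * s ^ 2) := by rw [hTs]; field_simp
        _ ≤ 1 := by
          rw [div_le_one (by positivity)]
          have : K * M * 1 ≤ K * M * r ^ 2 := by gcongr
          nlinarith [sq_nonneg s])
  refine key.trans ?_
  have h3 : T / (K * M) + s ≤ 3 * (K * r ^ 2) := by
    have h4 : T / (K * M) ≤ 2 * (K * r ^ 2) := by
      rw [div_le_iff₀ (by positivity), hTs]
      calc K * s ^ 2 ≤ K * (2 * (K * M * r ^ 2)) := by gcongr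
        _ = _ := by ring
    have h5 : s ≤ K * r ^ 2 := by
      refine hsK.trans ?_
      gcongr
      exact (le_self_pow₀ hB two_ne_zero).trans hr1
    linarith
  calc _ ≤ Cg * (3 * (K * r ^ 2)) * (Cd * L ^ 2 * (K : ℝ) ^ 2 / (l / (2 * B)) ^ 2) := by gcongr
    _ = 12 * Cg * Cd * d ^ 2 * B ^ 6 * L ^ 4 * K ^ 3 / l ^ 2 := by rw [hrd]; field_simp; norm_num
    _ ≤ _ := by gcongr; exact le_add_of_nonneg_left (by positivity)

theorem lvp (hg : GridS) (hl : LvtS) : LvpS := by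
  obtain ⟨Cg, hCg, hg⟩ := hg
  obtain ⟨α, K0, hα0, hα1, hl⟩ := hl
  obtain ⟨β, rfl⟩ : ∃ β, α = 8 * β := ⟨α / 8, by ring⟩
  have hβ0 : 0 < β := by linarith
  have hβ1 : β ≤ 1 / 800 := by linarith
  obtain ⟨T0, hT01, hT0⟩ := exists_log_pow_le (3 * Cg + 2 + |K0|) 0 hβ0
  refine ⟨β, T0, hβ0, by linarith, ?_⟩
  intro T B K a a1 hT hB hBT hKl hKu hF
  have hD := hT0 T hT
  rw [pow_zero, mul_one] at hD
  have hT1 : 1 ≤ T := hT01.trans hT
  have hTp : 0 < T := by linarith
  have hK1 : (1 : ℝ) ≤ K := (Real.one_le_rpow hT1 (by linarith)).trans hKl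
  have hK : 1 ≤ K := by exact_mod_cast hK1
  have hKp : (0 : ℝ) < K := by linarith
  have hBp : 0 < B := by linarith
  have hK0 : K0 ≤ K := by
    have : T ^ β ≤ T ^ (1 / 2 - β) := Real.rpow_le_rpow_of_exponent_le hT1 (by linarith)
    linarith [le_abs_self K0]
  obtain ⟨M, hM1, hM16, hM2⟩ := exists_root16 hK
  have hM1' : (1 : ℝ) ≤ M := by exact_mod_cast hM1
  have hMp : (0 : ℝ) < M := by linarith
  obtain ⟨t, rfl⟩ : ∃ t, T = Real.exp t := ⟨Real.log T, (Real.exp_log hTp).symm⟩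
  obtain ⟨b, rfl⟩ : ∃ b, B = Real.exp b := ⟨Real.log B, (Real.exp_log hBp).symm⟩
  obtain ⟨k, hk⟩ : ∃ k, (K : ℝ) = Real.exp k := ⟨Real.log K, (Real.exp_log hKp).symm⟩
  obtain ⟨m, hm⟩ : ∃ m, (M : ℝ) = Real.exp m := ⟨Real.log M, (Real.exp_log hMp).symm⟩
  have ht : 0 ≤ t := Real.one_le_exp_iff.1 hT1
  have hm0 : 0 ≤ m := Real.one_le_exp_iff.1 (hm ▸ hM1')
  have hmk : 16 * m ≤ k := by
    have h1 : (M : ℝ) ^ 16 ≤ K := by exact_mod_cast hM16
    rw [hm, hk, ← Real.exp_nat_mul, Real.exp_le_exp] at h1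
    exact_mod_cast h1
  rw [← Real.exp_mul] at hD hBT hKl hKu
  rw [hk, Real.exp_le_exp] at hKl hKu
  rw [Real.exp_le_exp] at hBT
  obtain ⟨u, hu⟩ : ∃ u, u = t * β := ⟨_, rfl⟩
  obtain ⟨v, hv⟩ : ∃ v, v = k * β := ⟨_, rfl⟩
  have hu0 : 0 ≤ u := by rw [hu]; positivity
  have hut : u ≤ t / 800 := by rw [hu]; nlinarith
  have hkl : t / 2 - u ≤ k := by rw [hu]; linarith
  have hku : k ≤ t / 2 + u := by rw [hu]; linarith
  have huβ : u * β ≤ u / 800 := by nlinarith
  have hvl : u / 2 - u / 800 ≤ v := by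
    have := mul_le_mul_of_nonneg_right hkl hβ0.le
    have e : (t / 2 - u) * β = u / 2 - u * β := by rw [hu]; ring
    linarith
  rw [← hu] at hD hBT
  have hC3 : 3 * Cg ≤ Real.exp u := by linarith [abs_nonneg K0]
  have hC2 : 2 ≤ Real.exp u := by linarith [abs_nonneg K0]
  have hq : ((K : ℝ) * Real.exp t) ^ (1 / 4 : ℝ) = Real.exp ((k + t) / 4) := by
    rw [hk, ← Real.exp_add, ← Real.exp_mul]; congr 1; ring
  have hs1 : √(K / Real.exp t) = Real.exp ((k - t) / 2) := by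
    rw [hk, ← Real.exp_sub, Real.exp_half]
  have hs2 : √(Real.exp t / K) = Real.exp ((t - k) / 2) := by
    rw [hk, ← Real.exp_sub, Real.exp_half]
  have hs3 : √(K : ℝ) = Real.exp (k / 2) := by rw [hk, Real.exp_half]
  have hKT : (K : ℝ) ≤ Real.exp t := by rw [hk, Real.exp_le_exp]; linarith
  have herr : Cg * Real.exp b * (K * M * √(K / Real.exp t) +
      (K : ℝ) ^ 2 * (M : ℝ) ^ 2 * √(K / Real.exp t) ^ 3 + (K : ℝ) ^ 4 * M / Real.exp t ^ 2) ≤
      (K * Real.exp t) ^ (1 / 4 : ℝ) := by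
    have e1 : K * M * √(K / Real.exp t) ≤ Real.exp (t / 3) := by
      rw [hs1, hk, hm, ← Real.exp_add, ← Real.exp_add, Real.exp_le_exp]; linarith
    have e2 : (K : ℝ) ^ 2 * (M : ℝ) ^ 2 * √(K / Real.exp t) ^ 3 ≤ Real.exp (t / 3) := by
      rw [hs1, hk, hm, ← Real.exp_nat_mul, ← Real.exp_nat_mul, ← Real.exp_nat_mul, ← Real.exp_add,
        ← Real.exp_add, Real.exp_le_exp]
      push_cast; linarith
    have e3 : (K : ℝ) ^ 4 * M / Real.exp t ^ 2 ≤ Real.exp (t / 3) := by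
      rw [hk, hm, ← Real.exp_nat_mul, ← Real.exp_nat_mul, ← Real.exp_add, ← Real.exp_sub,
        Real.exp_le_exp]
      push_cast; linarith
    calc _ ≤ Cg * Real.exp b * (3 * Real.exp (t / 3)) := by gcongr; linarith
      _ = 3 * Cg * Real.exp b * Real.exp (t / 3) := by ring
      _ ≤ Real.exp u * Real.exp b * Real.exp (t / 3) := by gcongr
      _ ≤ _ := by rw [hq, ← Real.exp_add, ← Real.exp_add, Real.exp_le_exp]; linarith
  have key := hg (Real.exp t) (Real.exp b) _ (√K * M * (K : ℝ) ^ (-(8 * β))) K M a a1 hK hKT hM1 hB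
    (by positivity) hF herr (fun ρ c W hρ0 hρ hc hW hlev => by
      refine hl K M ρ c W hK0 hM16 hM2 hρ0 (hρ.trans ?_) hc hW fun w hw => le_trans ?_ (hlev w hw)
      · calc (K : ℝ) / (24 * Real.exp t) ≤ K / Real.exp t := by
              gcongr; linarith [Real.exp_pos t]
          _ ≤ _ := by
              rw [hk, ← Real.exp_sub, ← Real.exp_mul, Real.exp_le_exp]
              have : k * (8 * β - 1) = 8 * v - k := by rw [hv]; ring
              linarith
      · rw [le_div_iff₀ (by positivity), hq]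
        calc (K : ℝ) ^ (3 / 4 - 8 * β) * (2 * Real.exp b)
            ≤ (K : ℝ) ^ (3 / 4 - 8 * β) * (Real.exp u * Real.exp b) := by gcongr
          _ ≤ _ := by
              rw [hk, ← Real.exp_mul, ← Real.exp_add, ← Real.exp_add, Real.exp_le_exp]
              have : k * (3 / 4 - 8 * β) = 3 / 4 * k - 8 * v := by rw [hv]; ring
              linarith)
  refine key.trans ?_
  have hR : √K * M * (K : ℝ) ^ (-(8 * β)) = Real.exp (k / 2 + m - 8 * v) := by
    rw [hs3, hk, hm, ← Real.exp_mul, ← Real.exp_add, ← Real.exp_add, hv]; congr 1; ring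
  have f1 : Real.exp t / (K * M) * Real.exp (k / 2 + m - 8 * v) ≤
      Real.exp (3 / 4 * t - 2 * u) := by
    rw [hk, hm, ← Real.exp_add, ← Real.exp_sub, ← Real.exp_add, Real.exp_le_exp]; linarith
  have f2 : √(Real.exp t / K) * Real.exp (k / 2 + m - 8 * v) ≤ Real.exp (3 / 4 * t - 2 * u) := by
    rw [hs2, ← Real.exp_add, Real.exp_le_exp]; linarith
  rw [hR, mul_assoc, add_mul]
  calc _ ≤ Cg * (3 * Real.exp (3 / 4 * t - 2 * u)) := by
        gcongr; linarith [Real.exp_pos (3 / 4 * t - 2 * u)]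
    _ = 3 * Cg * Real.exp (3 / 4 * t - 2 * u) := by ring
    _ ≤ Real.exp u * Real.exp (3 / 4 * t - 2 * u) := by gcongr
    _ = _ := by rw [← Real.exp_add, ← Real.exp_mul, hu]; congr 1; ring

end Pool.Agent.Lib.MP_80d0cf_nt.Up
end

-- part Pool.Agent.Lib.MP_80d0cf_nt.Up.ZetB
section

/-! Gaussian mean values of the dyadic pieces of zeta. -/

open Set MeasureTheory ComplexConjugate

namespace Pool.Agent.Lib.MP_80d0cf_nt.Up

namespace ZetBAux

/-- the Gaussian window -/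
noncomputable def gw (G τ t : ℝ) : ℝ := Real.exp (-(Real.pi * (t - τ) ^ 2 / G ^ 2))

lemma gw_pos (G τ t : ℝ) : 0 < gw G τ t := Real.exp_pos _

lemma gw_le_one (G τ t : ℝ) : gw G τ t ≤ 1 := by
  rw [gw, Real.exp_le_one_iff]
  have := Real.pi_pos
  have : 0 ≤ Real.pi * (t - τ) ^ 2 / G ^ 2 := by positivity
  linarith

@[fun_prop] lemma continuous_gw (G τ : ℝ) : Continuous (gw G τ) := by unfold gw; fun_prop

lemma integrable_gw {G : ℝ} (hG : 0 < G) (τ : ℝ) : Integrable (gw G τ) := by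
  have h := (integrable_exp_neg_mul_sq (b := Real.pi / G ^ 2)
    (by have := Real.pi_pos; positivity)).comp_sub_right τ
  refine h.congr (Filter.Eventually.of_forall fun t => ?_)
  simp only [gw]
  congr 1; ring

lemma integrable_gw_e {G : ℝ} (hG : 0 < G) (τ v : ℝ) :
    Integrable (fun t : ℝ => (gw G τ t : ℂ) * e (t * v)) :=
  (integrable_gw hG τ).ofReal.mul_bdd (c := 1)
    (by fun_prop : Continuous fun t : ℝ => e (t * v)).aestronglyMeasurable
    (Filter.Eventually.of_forall fun t => (norm_e _).le)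

lemma integral_gw_e {G : ℝ} (hG : 0 < G) (τ v : ℝ) :
    ∫ t : ℝ, (gw G τ t : ℂ) * e (t * v)
      = G * e (τ * v) * (Real.exp (-(Real.pi * G ^ 2 * v ^ 2)) : ℝ) := by
  have hπ := Real.pi_pos
  have hG' : (G : ℂ) ≠ 0 := by exact_mod_cast hG.ne'
  have hπ' : (Real.pi : ℂ) ≠ 0 := by exact_mod_cast hπ.ne'
  have hb : (((-(Real.pi / G ^ 2) : ℝ) : ℂ)).re < 0 := by
    rw [Complex.ofReal_re]
    have : 0 < Real.pi / G ^ 2 := by positivity
    linarith
  have h := integral_cexp_quadratic hb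
    (2 * Real.pi * τ / G ^ 2 + 2 * Real.pi * Complex.I * v) (-(Real.pi * τ ^ 2 / G ^ 2))
  have h1 : ∀ t : ℝ, (gw G τ t : ℂ) * e (t * v) = Complex.exp
      (((-(Real.pi / G ^ 2) : ℝ) : ℂ) * t ^ 2
        + (2 * Real.pi * τ / G ^ 2 + 2 * Real.pi * Complex.I * v) * t
        + -(Real.pi * τ ^ 2 / G ^ 2)) := by
    intro t
    rw [gw, e, Complex.ofReal_exp, ← Complex.exp_add]
    congr 1
    push_cast
    field_simp
    ring
  simp_rw [h1]
  rw [h]
  have h2 : ((Real.pi : ℂ) / -((-(Real.pi / G ^ 2) : ℝ) : ℂ)) ^ (1 / 2 : ℂ) = G := by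
    have : ((Real.pi : ℂ) / -((-(Real.pi / G ^ 2) : ℝ) : ℂ)) = ((G ^ 2 : ℝ) : ℂ) := by
      push_cast; field_simp
    rw [this, show (1 / 2 : ℂ) = ((1 / 2 : ℝ) : ℂ) by push_cast; ring,
      ← Complex.ofReal_cpow (by positivity), ← Real.sqrt_eq_rpow, Real.sqrt_sq hG.le]
  rw [h2, mul_assoc (G : ℂ), e, Complex.ofReal_exp, ← Complex.exp_add]
  congr 2
  push_cast
  field_simp
  linear_combination (4 * v ^ 2 * G ^ 4 : ℂ) * Complex.I_sq

lemma integral_gw {G : ℝ} (hG : 0 < G) (τ : ℝ) : ∫ t : ℝ, gw G τ t = G := by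
  have h := integral_gw_e hG τ 0
  simp only [mul_zero, e_zero, mul_one, ne_eq, OfNat.ofNat_ne_zero, not_false_eq_true, zero_pow,
    neg_zero, Real.exp_zero, Complex.ofReal_one] at h
  rw [integral_complex_ofReal] at h
  exact_mod_cast h

/-! ### The bounded function `Ds` -/

lemma norm_Ds_le (N : ℕ) (t : ℝ) : ‖Ds N t‖ ≤ ∑ n ∈ Finset.Icc 1 (2 * N), |cc N n| := by
  refine (norm_sum_le _ _).trans (le_of_eq (Finset.sum_congr rfl fun n _ => ?_))
  rw [norm_mul, norm_e, mul_one, Complex.norm_real, Real.norm_eq_abs]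

lemma integrable_gw_norm {G : ℝ} (hG : 0 < G) (N : ℕ) (τ : ℝ) :
    Integrable (fun t => gw G τ t * ‖Ds N t‖) :=
  (integrable_gw hG τ).mul_bdd (c := ∑ n ∈ Finset.Icc 1 (2 * N), |cc N n|)
    (by fun_prop : Continuous fun t : ℝ => ‖Ds N t‖).aestronglyMeasurable
    (Filter.Eventually.of_forall fun t => by rw [norm_norm]; exact norm_Ds_le N t)

lemma integrable_gw_sq {G : ℝ} (hG : 0 < G) (N : ℕ) (τ : ℝ) :
    Integrable (fun t => gw G τ t * ‖Ds N t‖ ^ 2) :=
  (integrable_gw hG τ).mul_bdd (c := (∑ n ∈ Finset.Icc 1 (2 * N), |cc N n|) ^ 2)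
    (by fun_prop : Continuous fun t : ℝ => ‖Ds N t‖ ^ 2).aestronglyMeasurable
    (Filter.Eventually.of_forall fun t => by
      rw [norm_pow, norm_norm]; exact pow_le_pow_left₀ (norm_nonneg _) (norm_Ds_le N t) 2)

lemma JJ_eq (N : ℕ) (G τ : ℝ) : JJ N G τ = ∫ t, gw G τ t * ‖Ds N t‖ ^ 2 := rfl

lemma JJ_nonneg (N : ℕ) (G τ : ℝ) : 0 ≤ JJ N G τ :=
  integral_nonneg fun t => mul_nonneg (gw_pos G τ t).le (sq_nonneg _)

/-- `DN` is a Gaussian average of `Ds`. -/
lemma DN_eq {N : ℕ} (hN : 1 ≤ N) (τ : ℝ) :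
    DN N τ = ∫ t : ℝ, (gw 1 τ t : ℂ) * (e ((t - τ) * Real.log N) * Ds N t) := by
  have hN' : (0 : ℝ) < N := by exact_mod_cast hN
  have h1 : ∀ t : ℝ, (gw 1 τ t : ℂ) * (e ((t - τ) * Real.log N) * Ds N t)
      = ∑ n ∈ Finset.Icc 1 (2 * N), ((cc N n : ℂ) * e (-(τ * Real.log N))) *
        ((gw 1 τ t : ℂ) * e (t * (Real.log N - Real.log n))) := by
    intro t
    rw [Ds, Finset.mul_sum, Finset.mul_sum]
    refine Finset.sum_congr rfl fun n _ => ?_
    have : e ((t - τ) * Real.log N) * e (-(t * Real.log n))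
        = e (-(τ * Real.log N)) * e (t * (Real.log N - Real.log n)) := by
      rw [← e_add, ← e_add]; congr 1; ring
    linear_combination (gw 1 τ t : ℂ) * (cc N n : ℂ) * this
  simp_rw [h1]
  rw [integral_finsetSum _ fun n _ => (integrable_gw_e one_pos τ _).const_mul _, DN]
  refine Finset.sum_congr rfl fun n hn => ?_
  have hn' : (0 : ℝ) < n := by exact_mod_cast (Finset.mem_Icc.1 hn).1
  rw [integral_const_mul, integral_gw_e one_pos]
  have h2 : e (-(τ * Real.log N)) * e (τ * (Real.log N - Real.log n))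
      = e (-(τ * Real.log n)) := by
    rw [← e_add]; congr 1; ring
  have h3 : cc N n * Real.exp (-(Real.pi * 1 ^ 2 * (Real.log N - Real.log n) ^ 2))
      = wN (n / N) / √n := by
    rw [cc, ws, Real.log_div hn'.ne' hN'.ne', div_mul_eq_mul_div, mul_assoc, ← Real.exp_add,
      show Real.pi * (Real.log n - Real.log N) ^ 2
        + -(Real.pi * 1 ^ 2 * (Real.log N - Real.log n) ^ 2) = 0 by ring, Real.exp_zero, mul_one]
  rw [← h3, ← h2]
  push_cast
  ring

lemma norm_DN_sq_le {N : ℕ} (hN : 1 ≤ N) (τ : ℝ) :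
    ‖DN N τ‖ ^ 2 ≤ ∫ t, gw 1 τ t * ‖Ds N t‖ ^ 2 := by
  have h1 : ‖DN N τ‖ ≤ ∫ t, gw 1 τ t * ‖Ds N t‖ := by
    rw [DN_eq hN]
    refine (norm_integral_le_integral_norm _).trans (le_of_eq ?_)
    refine integral_congr_ae (Filter.Eventually.of_forall fun t => ?_)
    simp only [norm_mul, norm_e, one_mul, Complex.norm_real, Real.norm_of_nonneg (gw_pos 1 τ t).le]
  set c := ‖DN N τ‖ with hc
  have hc0 : 0 ≤ c := norm_nonneg _
  have h2 : ∫ t, 2 * c * (gw 1 τ t * ‖Ds N t‖)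
      ≤ ∫ t, (c ^ 2 * gw 1 τ t + gw 1 τ t * ‖Ds N t‖ ^ 2) := by
    refine integral_mono ((integrable_gw_norm one_pos N τ).const_mul _)
      (((integrable_gw one_pos τ).const_mul _).add (integrable_gw_sq one_pos N τ)) fun t => ?_
    have := mul_nonneg (gw_pos 1 τ t).le (sq_nonneg (‖Ds N t‖ - c))
    simp only
    linarith
  rw [integral_const_mul, integral_add ((integrable_gw one_pos τ).const_mul _)
    (integrable_gw_sq one_pos N τ), integral_const_mul, integral_gw one_pos] at h2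
  have h3 := mul_le_mul_of_nonneg_left h1 (show 0 ≤ 2 * c by positivity)
  linarith

lemma gw_one_le {G τ τ' : ℝ} (hG : 2 ≤ G) (h : |τ - τ'| ≤ G) (t : ℝ) :
    gw 1 τ t ≤ Real.exp (2 * Real.pi) * (gw G τ' t * gw 2 0 (τ - t)) := by
  rw [gw, gw, gw, ← Real.exp_add, ← Real.exp_add, Real.exp_le_exp]
  have hπ := Real.pi_pos
  have hG0 : 0 < G := by linarith
  have h1 : (τ - τ') ^ 2 ≤ G ^ 2 := by rw [← sq_abs]; exact pow_le_pow_left₀ (abs_nonneg _) h 2
  have h2 : (t - τ') ^ 2 / G ^ 2 ≤ (t - τ) ^ 2 / 2 + 2 := by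
    rw [div_le_iff₀ (by positivity)]
    have h3 : 4 ≤ G ^ 2 := by nlinarith
    have h4 := mul_le_mul_of_nonneg_left h3 (sq_nonneg (t - τ))
    nlinarith [sq_nonneg (t - τ - (τ - τ'))]
  have h5 := mul_le_mul_of_nonneg_left h2 hπ.le
  have h6 : 0 ≤ Real.pi * (t - τ) ^ 2 := by positivity
  rw [mul_div_assoc Real.pi ((t - τ') ^ 2), show (τ - t - 0) ^ 2 = (t - τ) ^ 2 by ring]
  linarith

/-- the convolution bound for `DN` -/
lemma norm_DN_sq_le_conv {N : ℕ} (hN : 1 ≤ N) {G τ τ' : ℝ} (hG : 2 ≤ G) (h : |τ - τ'| ≤ G) :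
    ‖DN N τ‖ ^ 2 ≤ Real.exp (2 * Real.pi) *
      ∫ t, gw G τ' t * ‖Ds N t‖ ^ 2 * gw 2 0 (τ - t) := by
  refine (norm_DN_sq_le hN τ).trans ?_
  rw [← integral_const_mul]
  refine integral_mono (integrable_gw_sq one_pos N τ) (Integrable.const_mul ?_ _) fun t => ?_
  · exact (integrable_gw_sq (by linarith) N τ').mul_bdd (c := 1)
      (by fun_prop : Continuous fun t : ℝ => gw 2 0 (τ - t)).aestronglyMeasurable
      (Filter.Eventually.of_forall fun t => by
        rw [Real.norm_of_nonneg (gw_pos _ _ _).le]; exact gw_le_one _ _ _)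
  · have := mul_le_mul_of_nonneg_right (gw_one_le hG h t) (sq_nonneg ‖Ds N t‖)
    simp only
    linarith

lemma claim1 {N : ℕ} (hN : 1 ≤ N) {G τ τ' : ℝ} (hG : 2 ≤ G) (h : |τ - τ'| ≤ G) :
    ‖DN N τ‖ ^ 2 ≤ Real.exp (2 * Real.pi) * JJ N G τ' := by
  refine (norm_DN_sq_le_conv hN hG h).trans ?_
  rw [JJ_eq]
  refine mul_le_mul_of_nonneg_left ?_ (Real.exp_pos _).le
  refine integral_mono_of_nonneg (Filter.Eventually.of_forall fun t => ?_)
    (integrable_gw_sq (by linarith) N τ') (Filter.Eventually.of_forall fun t => ?_)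
  · exact mul_nonneg (mul_nonneg (gw_pos _ _ _).le (sq_nonneg _)) (gw_pos _ _ _).le
  · exact mul_le_of_le_one_right (mul_nonneg (gw_pos _ _ _).le (sq_nonneg _)) (gw_le_one _ _ _)

lemma claim2 {N : ℕ} (hN : 1 ≤ N) {G τ' : ℝ} (hG : 2 ≤ G) :
    ∫ τ in (τ' - G)..(τ' + G), ‖DN N τ‖ ^ 2 ≤ 2 * Real.exp (2 * Real.pi) * JJ N G τ' := by
  have hF := integrable_gw_sq (show 0 < G by linarith) N τ'
  have hk := integrable_gw two_pos 0
  have hi := hF.integrable_convolution (ContinuousLinearMap.mul ℝ ℝ) hk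
  have he := integral_convolution (ContinuousLinearMap.mul ℝ ℝ) hF hk
  rw [integral_gw two_pos, ← JJ_eq, ContinuousLinearMap.mul_apply'] at he
  set H := convolution (fun t => gw G τ' t * ‖Ds N t‖ ^ 2) (gw 2 0) (ContinuousLinearMap.mul ℝ ℝ)
    volume with hH
  have hHe : ∀ τ, H τ = ∫ t, gw G τ' t * ‖Ds N t‖ ^ 2 * gw 2 0 (τ - t) := fun τ => rfl
  have hH0 : ∀ τ, 0 ≤ H τ := fun τ => by
    rw [hHe]
    exact integral_nonneg fun t =>
      mul_nonneg (mul_nonneg (gw_pos _ _ _).le (sq_nonneg _)) (gw_pos _ _ _).le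
  have hle : τ' - G ≤ τ' + G := by linarith
  calc ∫ τ in (τ' - G)..(τ' + G), ‖DN N τ‖ ^ 2
      ≤ ∫ τ in (τ' - G)..(τ' + G), Real.exp (2 * Real.pi) * H τ := by
        refine intervalIntegral.integral_mono_on hle
          ((by fun_prop : Continuous fun τ => ‖DN N τ‖ ^ 2).intervalIntegrable _ _)
          (hi.const_mul _).intervalIntegrable fun τ hτ => ?_
        rw [hHe]
        exact norm_DN_sq_le_conv hN hG (abs_le.2 ⟨by linarith [hτ.1], by linarith [hτ.2]⟩)
    _ ≤ ∫ τ, Real.exp (2 * Real.pi) * H τ := by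
        rw [intervalIntegral.integral_of_le hle]
        exact setIntegral_le_integral (hi.const_mul _) (Filter.Eventually.of_forall fun τ =>
          mul_nonneg (Real.exp_pos _).le (hH0 τ))
    _ = _ := by rw [integral_const_mul, he]; ring

/-! ### The mean square -/

/-- the general term of the mean square -/
noncomputable def AA (N : ℕ) (G τ : ℝ) (n m : ℕ) : ℂ :=
  ((cc N n * cc N m * Real.exp (-(Real.pi * G ^ 2 * (Real.log m - Real.log n) ^ 2)) : ℝ) : ℂ) *
    e (τ * (Real.log m - Real.log n))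

lemma AA_swap (N : ℕ) (G τ : ℝ) (n m : ℕ) : AA N G τ m n = conj (AA N G τ n m) := by
  rw [AA, AA, map_mul, Complex.conj_ofReal, conj_e]
  congr 2
  · ring_nf
  · ring

lemma JJ_eq_sum (N : ℕ) {G : ℝ} (hG : 0 < G) (τ : ℝ) :
    (JJ N G τ : ℂ) = G * ∑ n ∈ Finset.Icc 1 (2 * N), ∑ m ∈ Finset.Icc 1 (2 * N), AA N G τ n m := by
  have h1 : ∀ t : ℝ, ((gw G τ t * ‖Ds N t‖ ^ 2 : ℝ) : ℂ)
      = ∑ n ∈ Finset.Icc 1 (2 * N), ∑ m ∈ Finset.Icc 1 (2 * N), ((cc N n : ℂ) * cc N m) *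
        ((gw G τ t : ℂ) * e (t * (Real.log m - Real.log n))) := by
    intro t
    rw [Complex.ofReal_mul, Complex.ofReal_pow, ← Complex.mul_conj', Ds, map_sum,
      Finset.sum_mul_sum, Finset.mul_sum]
    refine Finset.sum_congr rfl fun n _ => ?_
    rw [Finset.mul_sum]
    refine Finset.sum_congr rfl fun m _ => ?_
    rw [map_mul, Complex.conj_ofReal, conj_e]
    have : e (-(t * Real.log n)) * e (- -(t * Real.log m))
        = e (t * (Real.log m - Real.log n)) := by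
      rw [← e_add]; congr 1; ring
    linear_combination (gw G τ t : ℂ) * (cc N n : ℂ) * (cc N m : ℂ) * this
  rw [JJ_eq, ← integral_complex_ofReal]
  simp_rw [h1]
  rw [integral_finsetSum _ fun n _ => integrable_finsetSum _ fun m _ =>
    (integrable_gw_e hG τ _).const_mul _, Finset.mul_sum]
  refine Finset.sum_congr rfl fun n _ => ?_
  rw [integral_finsetSum _ fun m _ => (integrable_gw_e hG τ _).const_mul _, Finset.mul_sum]
  refine Finset.sum_congr rfl fun m _ => ?_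
  rw [integral_const_mul, integral_gw_e hG, AA]
  push_cast
  ring

lemma cc_eq_zero {N : ℕ} (hN : 1 ≤ N) {x : ℝ} (h : x ≤ N / 2 ∨ 2 * N ≤ x) : cc N x = 0 := by
  have hN' : (0 : ℝ) < N := by exact_mod_cast hN
  rw [cc, ws_eq_zero, zero_div]
  rcases h with h | h
  · left; rw [div_le_iff₀ hN']; linarith
  · right; rw [le_div_iff₀ hN']; linarith

lemma cc_sq_le {N : ℕ} (hN : 1 ≤ N) (x : ℝ) : cc N x ^ 2 ≤ 81 ^ 2 * 2 / N := by
  have hN' : (0 : ℝ) < N := by exact_mod_cast hN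
  by_cases h : x ≤ N / 2
  · rw [cc_eq_zero hN (Or.inl h), sq, mul_zero]; positivity
  push Not at h
  have hx : 0 < x := by linarith
  have h1 : ws (x / N) ^ 2 ≤ 81 ^ 2 := by
    rw [← sq_abs]; exact pow_le_pow_left₀ (abs_nonneg _) (abs_ws_le _) 2
  rw [cc, div_pow, Real.sq_sqrt hx.le, div_le_div_iff₀ hx hN']
  have h2 := mul_le_mul_of_nonneg_right h1 hN'.le
  linarith

lemma norm_diag_le {N : ℕ} (hN : 1 ≤ N) (G τ : ℝ) :
    ‖∑ n ∈ Finset.Icc 1 (2 * N), AA N G τ n n‖ ≤ 81 ^ 2 * 4 := by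
  have hN' : (0 : ℝ) < N := by exact_mod_cast hN
  refine (norm_sum_le _ _).trans
    ((Finset.sum_le_card_nsmul _ _ (81 ^ 2 * 2 / (N : ℝ)) fun n _ => ?_).trans (le_of_eq ?_))
  · rw [AA, norm_mul, norm_e, mul_one, Complex.norm_real, sub_self, sq (0 : ℝ), mul_zero, mul_zero,
      neg_zero, Real.exp_zero, mul_one, ← sq, Real.norm_of_nonneg (sq_nonneg _)]
    exact cc_sq_le hN n
  · rw [Nat.card_Icc, nsmul_eq_mul, Nat.add_sub_cancel]
    push_cast
    field_simp
    norm_num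

lemma upper_eq_OD {N : ℕ} (hN : 1 ≤ N) (G τ : ℝ) :
    ∑ n ∈ Finset.Icc 1 (2 * N), ∑ m ∈ Finset.Icc 1 (2 * N), (if n < m then AA N G τ n m else 0)
      = OD N G τ := by
  rw [OD, Finset.sum_comm (s := Finset.Icc 1 (2 * N)) (t := Finset.Icc 1 (2 * N))
    (f := fun h n => (omh N G h n : ℂ) * e (τ * Real.log (1 + h / n)))]
  refine Finset.sum_congr rfl fun n hn => ?_
  have hn1 := (Finset.mem_Icc.1 hn).1
  have hn2 := (Finset.mem_Icc.1 hn).2
  have hn' : (0 : ℝ) < n := by exact_mod_cast hn1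
  have h1 : ∀ h : ℕ, (omh N G h n : ℂ) * e (τ * Real.log (1 + h / n)) = AA N G τ n (n + h) := by
    intro h
    have : Real.log (1 + h / n) = Real.log ((n + h : ℕ) : ℝ) - Real.log n := by
      rw [← Real.log_div (by positivity) hn'.ne']
      congr 1
      push_cast
      field_simp
    rw [omh, AA, this]
    push_cast
    rfl
  simp_rw [h1]
  rw [← Finset.sum_filter]
  have h2 : ∑ h ∈ Finset.Icc 1 (2 * N), AA N G τ n (n + h)
      = ∑ h ∈ (Finset.Icc 1 (2 * N)).filter (fun h => n + h ≤ 2 * N), AA N G τ n (n + h) := by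
    refine (Finset.sum_subset (Finset.filter_subset _ _) fun h hh hh2 => ?_).symm
    have h3 : ¬ n + h ≤ 2 * N := fun h4 => hh2 (Finset.mem_filter.2 ⟨hh, h4⟩)
    have h4 : (2 * N : ℝ) ≤ ((n + h : ℕ) : ℝ) := by exact_mod_cast (not_le.1 h3).le
    rw [AA, cc_eq_zero hN (Or.inr h4)]
    simp
  rw [h2]
  symm
  refine Finset.sum_bij (fun h _ => n + h) ?_ ?_ ?_ ?_
  · intro h hh
    simp only [Finset.mem_filter, Finset.mem_Icc] at hh ⊢
    omega
  · intro a _ b _ hab
    omega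
  · intro m hm
    simp only [Finset.mem_filter, Finset.mem_Icc] at hm
    exact ⟨m - n, by simp only [Finset.mem_filter, Finset.mem_Icc]; omega, by omega⟩
  · intro h _
    rfl

lemma claim3 {N : ℕ} (hN : 1 ≤ N) {G : ℝ} (hG : 0 < G) (τ : ℝ) :
    JJ N G τ ≤ G * (81 ^ 2 * 4 + 2 * ‖OD N G τ‖) := by
  have h1 : ∑ n ∈ Finset.Icc 1 (2 * N), ∑ m ∈ Finset.Icc 1 (2 * N), AA N G τ n m
      = ∑ n ∈ Finset.Icc 1 (2 * N), AA N G τ n n + OD N G τ + conj (OD N G τ) := by
    rw [← upper_eq_OD hN, map_sum]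
    simp_rw [map_sum]
    rw [Finset.sum_comm (s := Finset.Icc 1 (2 * N)) (t := Finset.Icc 1 (2 * N))
      (f := fun n m => conj (if n < m then AA N G τ n m else 0)), ← Finset.sum_add_distrib,
      ← Finset.sum_add_distrib]
    refine Finset.sum_congr rfl fun n hn => ?_
    have h2 : AA N G τ n n = ∑ m ∈ Finset.Icc 1 (2 * N), if n = m then AA N G τ n m else 0 := by
      rw [Finset.sum_ite_eq, if_pos hn]
    rw [h2, ← Finset.sum_add_distrib, ← Finset.sum_add_distrib]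
    refine Finset.sum_congr rfl fun m _ => ?_
    rcases lt_trichotomy n m with h | h | h
    · rw [if_neg h.ne, if_pos h, if_neg h.not_gt, map_zero]; ring
    · rw [if_pos h, if_neg h.not_lt, if_neg h.not_gt, map_zero]; ring
    · rw [if_neg h.ne', if_neg h.not_gt, if_pos h, ← AA_swap]; ring
  have h2 := congrArg norm (JJ_eq_sum N hG τ)
  rw [Complex.norm_real, Real.norm_of_nonneg (JJ_nonneg N G τ), norm_mul, Complex.norm_real,
    Real.norm_of_nonneg hG.le, h1] at h2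
  rw [h2]
  refine mul_le_mul_of_nonneg_left ?_ hG.le
  have h3 := norm_add₃_le (a := ∑ n ∈ Finset.Icc 1 (2 * N), AA N G τ n n) (b := OD N G τ)
    (c := conj (OD N G τ))
  rw [Complex.norm_conj] at h3
  linarith [norm_diag_le hN G τ]

end ZetBAux

open ZetBAux in
theorem z2 : Z2S := by
  have hE := Real.exp_pos (2 * Real.pi)
  refine ⟨2 * Real.exp (2 * Real.pi) + 81 ^ 2 * 4, by positivity, fun N G τ' hN hG =>
    ⟨fun τ hτ => ?_, ?_, ?_⟩⟩
  · refine (claim1 hN hG hτ).trans (mul_le_mul_of_nonneg_right ?_ (JJ_nonneg N G τ'))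
    linarith
  · refine (claim2 hN hG).trans (mul_le_mul_of_nonneg_right ?_ (JJ_nonneg N G τ'))
    linarith
  · refine (claim3 hN (by linarith) τ').trans (mul_le_mul_of_nonneg_left ?_ (by linarith))
    linarith

end Pool.Agent.Lib.MP_80d0cf_nt.Up
end

-- part Pool.Agent.Lib.MP_80d0cf_nt.Up.ZetC
section

/-! The B process for the off-diagonal terms of the Gaussian mean square. -/

open Set MeasureTheory ComplexConjugate

namespace Pool.Agent.Lib.MP_80d0cf_nt.Up

namespace ZetCAux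

/-- derivative of `cc N` -/
noncomputable def cc1 (N x : ℝ) : ℝ := ws1 (x / N) / (N * √x) - ws (x / N) / (2 * x * √x)

lemma hasDerivAt_cc {N x : ℝ} (hN : 0 < N) (hx : 0 < x) : HasDerivAt (cc N) (cc1 N x) x := by
  have hs : 0 < √x := Real.sqrt_pos.2 hx
  have h1 := (hasDerivAt_ws (x := x / N) (by positivity)).comp x ((hasDerivAt_id x).div_const N)
  have h2 := Real.hasDerivAt_sqrt hx.ne'
  refine (h1.div h2 hs.ne').congr_deriv ?_
  have h3 : x = √x ^ 2 := (Real.sq_sqrt hx.le).symm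
  simp only [cc1, Function.comp, id]
  generalize ws1 (x / N) = p
  generalize ws (x / N) = q
  generalize √x = r at *
  rw [h3]
  field_simp

lemma abs_cc_le {N x : ℝ} (hN : 0 < N) (hx : N / 2 ≤ x) : |cc N x| ≤ 81 / √(N / 2) := by
  have hr : 0 < √(N / 2) := Real.sqrt_pos.2 (by positivity)
  rw [cc, abs_div, abs_of_nonneg (Real.sqrt_nonneg _)]
  gcongr
  exact abs_ws_le _

lemma abs_cc1_le {N x : ℝ} (hN : 0 < N) (hx : N / 2 ≤ x) :
    |cc1 N x| ≤ 1701 / (N * √(N / 2)) := by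
  have hr : 0 < √(N / 2) := Real.sqrt_pos.2 (by positivity)
  have hx0 : 0 < x := by linarith
  have hs : √(N / 2) ≤ √x := Real.sqrt_le_sqrt hx
  rw [cc1]
  refine (abs_sub _ _).trans ?_
  rw [abs_div, abs_div, abs_of_pos (show 0 < N * √x by positivity),
    abs_of_pos (show 0 < 2 * x * √x by positivity)]
  calc _ ≤ 1620 / (N * √(N / 2)) + 81 / (N * √(N / 2)) := by
        gcongr
        · exact abs_ws1_le _
        · exact abs_ws_le _
        · linarith
    _ = _ := by rw [← add_div]; norm_num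

/-- the Gaussian factor -/
noncomputable def gs (G h x : ℝ) : ℝ := Real.exp (-(Real.pi * G ^ 2 * Real.log (1 + h / x) ^ 2))

/-- derivative of the Gaussian factor -/
noncomputable def gs1 (G h x : ℝ) : ℝ :=
  2 * (Real.pi * G ^ 2) * Real.log (1 + h / x) * (h / (x * (x + h))) * gs G h x

lemma hasDerivAt_lg {h x : ℝ} (hh : 0 ≤ h) (hx : 0 < x) :
    HasDerivAt (fun y => Real.log (1 + h / y)) (-(h / (x * (x + h)))) x := by
  have h1 := ((hasDerivAt_inv hx.ne').const_mul h).const_add 1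
  have h2 := h1.log (show (1 + h * x⁻¹) ≠ 0 by positivity)
  simp only [← div_eq_mul_inv] at h2
  refine h2.congr_deriv ?_
  field_simp

lemma hasDerivAt_gs (G : ℝ) {h x : ℝ} (hh : 0 ≤ h) (hx : 0 < x) :
    HasDerivAt (gs G h) (gs1 G h x) x := by
  have h1 := ((((hasDerivAt_lg hh hx).fun_pow 2).const_mul (Real.pi * G ^ 2)).neg).exp
  refine h1.congr_deriv ?_
  simp only [gs1, gs, Pi.neg_apply]
  norm_num
  ring

lemma abs_gs_le (G h x : ℝ) : |gs G h x| ≤ 1 := by
  rw [gs, abs_of_pos (Real.exp_pos _), Real.exp_le_one_iff, neg_nonpos]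
  positivity

lemma abs_gs1_le (G : ℝ) {h x : ℝ} (hh : 0 ≤ h) (hx : 0 < x) : |gs1 G h x| ≤ 2 / x := by
  have hL : h / (x + h) ≤ Real.log (1 + h / x) := by
    refine le_trans (le_of_eq ?_) (Real.one_sub_inv_le_log_of_pos (by positivity))
    field_simp
    ring
  have hL0 : 0 ≤ Real.log (1 + h / x) := le_trans (by positivity) hL
  have hg : 0 < gs G h x := Real.exp_pos _
  have hy : Real.pi * G ^ 2 * Real.log (1 + h / x) ^ 2 * gs G h x ≤ 1 := by
    rw [gs, Real.exp_neg, ← div_eq_mul_inv, div_le_one (Real.exp_pos _)]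
    linarith [Real.add_one_le_exp (Real.pi * G ^ 2 * Real.log (1 + h / x) ^ 2)]
  rw [gs1, abs_of_nonneg (by positivity)]
  calc _ = 2 / x * (Real.pi * G ^ 2 * (Real.log (1 + h / x) * (h / (x + h))) * gs G h x) := by
        field_simp
    _ ≤ 2 / x * (Real.pi * G ^ 2 * (Real.log (1 + h / x) * Real.log (1 + h / x)) * gs G h x) := by
        gcongr
    _ ≤ 2 / x * 1 := by rw [← sq]; gcongr
    _ = _ := mul_one _

/-- derivative of the amplitude -/
noncomputable def omh1 (N G h x : ℝ) : ℝ :=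
  (cc1 N x * cc N (x + h) + cc N x * cc1 N (x + h)) * gs G h x +
    cc N x * cc N (x + h) * gs1 G h x

lemma hasDerivAt_omh {N h x : ℝ} (G : ℝ) (hN : 0 < N) (hh : 0 ≤ h) (hx : 0 < x) :
    HasDerivAt (omh N G h) (omh1 N G h x) x := by
  have h2 : HasDerivAt (fun y => cc N (y + h)) (cc1 N (x + h)) x :=
    (hasDerivAt_cc hN (show 0 < x + h by positivity)).comp_add_const x h
  exact ((hasDerivAt_cc hN hx).mul h2).mul (hasDerivAt_gs G hh hx)

lemma abs_omh1_le {N h x : ℝ} (G : ℝ) (hN : 0 < N) (hh : 0 ≤ h) (hx : N / 2 ≤ x) :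
    |omh1 N G h x| ≤ 700000 / N ^ 2 := by
  have hx0 : 0 < x := by linarith
  have hr : 0 < √(N / 2) := Real.sqrt_pos.2 (by positivity)
  have hr2 : √(N / 2) ^ 2 = N / 2 := Real.sq_sqrt (by positivity)
  have hxh : N / 2 ≤ x + h := by linarith
  have g1 : |gs1 G h x| ≤ 4 / N := by
    refine (abs_gs1_le G hh hx0).trans ?_
    rw [div_le_div_iff₀ hx0 hN]; linarith
  have a0 := abs_cc_le hN hx
  have a1 := abs_cc1_le hN hx
  have b0 := abs_cc_le hN hxh
  have b1 := abs_cc1_le hN hxh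
  have g0 := abs_gs_le G h x
  rw [omh1]
  calc _ ≤ (|cc1 N x| * |cc N (x + h)| + |cc N x| * |cc1 N (x + h)|) * |gs G h x| +
        |cc N x| * |cc N (x + h)| * |gs1 G h x| := by
        refine (abs_add_le _ _).trans ?_
        rw [abs_mul, abs_mul, abs_mul]
        gcongr
        refine (abs_add_le _ _).trans ?_
        rw [abs_mul, abs_mul]
    _ ≤ (1701 / (N * √(N / 2)) * (81 / √(N / 2)) + 81 / √(N / 2) * (1701 / (N * √(N / 2)))) * 1 +
        81 / √(N / 2) * (81 / √(N / 2)) * (4 / N) := by gcongr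
    _ = (2 * 1701 * 81 + 81 * 81 * 4) / (N * √(N / 2) ^ 2) := by field_simp; ring
    _ ≤ _ := by
        rw [hr2, div_le_div_iff₀ (by positivity) (by positivity)]
        nlinarith [sq_nonneg N]

/-- the phase and its derivatives -/
lemma ph3 {N h τ : ℝ} (hN : 0 < N) (hh : 0 < h) (hh2 : h ≤ 2 * N) (hτ : 0 < τ) :
    Ph3 (N / 2) (2 * N) (τ * h / (16 * N ^ 3)) 4096 (fun x => τ * Real.log (1 + h / x))
      (fun x => -(τ * h / (x * (x + h)))) (fun x => τ * h * (2 * x + h) / (x * (x + h)) ^ 2)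
      (fun x => -(2 * τ * h * (3 * x ^ 2 + 3 * x * h + h ^ 2) / (x * (x + h)) ^ 3)) := by
  have hq : ∀ x : ℝ, HasDerivAt (fun y => y * (y + h)) (2 * x + h) x := fun x => by
    refine ((hasDerivAt_id x).mul ((hasDerivAt_id x).add_const h)).congr_deriv ?_
    simp only [id]; ring
  refine ⟨⟨fun x hx => ?_, fun x hx => ?_⟩, fun x hx => ?_, fun x hx => ?_, fun x hx => ?_,
    fun x hx => ?_⟩
  · have hx0 : 0 < x := by linarith [hx.1]
    refine ((hasDerivAt_lg hh.le hx0).const_mul τ).congr_deriv ?_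
    ring
  · have hx0 : 0 < x := by linarith [hx.1]
    refine (((hasDerivAt_const x (τ * h)).div (hq x) (by positivity)).neg).congr_deriv ?_
    ring
  · have hx0 : 0 < x := by linarith [hx.1]
    have h1 : HasDerivAt (fun y => τ * h * (2 * y + h)) (τ * h * 2) x := by
      simpa using (((hasDerivAt_id x).const_mul 2).add_const h).const_mul (τ * h)
    refine (h1.div ((hq x).fun_pow 2) (by positivity)).congr_deriv ?_
    norm_num
    field_simp
    ring
  · have hx0 : 0 < x := by linarith [hx.1]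
    calc τ * h / (16 * N ^ 3) = τ * h / ((2 * N) ^ 2 * (4 * N)) := by ring
      _ ≤ τ * h / (x ^ 2 * (x + h)) := by
          gcongr
          · exact hx.2
          · linarith [hx.2]
      _ = τ * h * (x + h) / (x * (x + h)) ^ 2 := by field_simp
      _ ≤ _ := by gcongr; linarith
  · have hx0 : 0 < x := by linarith [hx.1]
    calc τ * h * (2 * x + h) / (x * (x + h)) ^ 2
        ≤ τ * h * (2 * (x + h)) / (x * (x + h)) ^ 2 := by gcongr; linarith
      _ = 2 * τ * h / (x ^ 2 * (x + h)) := by field_simp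
      _ ≤ 2 * τ * h / ((N / 2) ^ 2 * (N / 2)) := by
          gcongr
          · exact hx.1
          · linarith [hx.1]
      _ = 256 * (τ * h / (16 * N ^ 3)) := by field_simp; ring
      _ ≤ _ := by gcongr; norm_num
  · have hx0 : 0 < x := by linarith [hx.1]
    rw [abs_neg, abs_of_nonneg (by positivity)]
    calc 2 * τ * h * (3 * x ^ 2 + 3 * x * h + h ^ 2) / (x * (x + h)) ^ 3 * (2 * N - N / 2)
        ≤ 2 * τ * h * (3 * (x + h) ^ 2) / (x * (x + h)) ^ 3 * (2 * N - N / 2) := by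
          gcongr
          · linarith
          · nlinarith [mul_pos hx0 hh, sq_nonneg h]
      _ = 9 * τ * h * N / (x ^ 3 * (x + h)) := by field_simp; ring
      _ ≤ 9 * τ * h * N / ((N / 2) ^ 3 * (N / 2)) := by
          gcongr
          · exact hx.1
          · linarith [hx.1]
      _ = 2304 * (τ * h / (16 * N ^ 3)) := by field_simp; ring
      _ ≤ _ := by gcongr; norm_num

/-- one term of the dual sum -/
noncomputable def tm (N G τ : ℝ) (h k : ℕ) : ℂ :=
  (-1) ^ k * cF * ((Real.exp (-(Real.pi * G ^ 2 * Lam k τ ^ 2)) *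
    (ws (h * (XX k τ - 1 / 2) / N) * ws (h * (XX k τ + 1 / 2) / N)) / √(2 * k * XX k τ) : ℝ) : ℂ) *
    e (ff k τ)

lemma mk_eq (N G τ : ℝ) (k : ℕ) :
    mk N G k τ * e (ff k τ) = ∑ h ∈ k.divisors, tm N G τ h k := by
  simp only [mk, bk, tm, Finset.mul_sum, Finset.sum_div, Complex.ofReal_sum, Finset.sum_mul]

lemma tm_eq_zero_left {N G τ : ℝ} {h k : ℕ}
    (h0 : ws (h * (XX k τ - 1 / 2) / N) = 0) : tm N G τ h k = 0 := by
  rw [tm, h0]; simp

lemma tm_eq_zero_right {N G τ : ℝ} {h k : ℕ}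
    (h0 : ws (h * (XX k τ + 1 / 2) / N) = 0) : tm N G τ h k = 0 := by
  rw [tm, h0]; simp

lemma regroup (F : ℕ → ℕ → ℂ) (H k0 : ℕ) (hF : ∀ h k, H < h → 1 ≤ k → F h k = 0) :
    ∑ h ∈ Finset.Icc 1 H, ∑ m ∈ Finset.Icc 1 k0, (if h * m ≤ k0 then F h (h * m) else 0) =
      ∑ k ∈ Finset.Icc 1 k0, ∑ h ∈ k.divisors, F h k := by
  have h1 : ∀ k ∈ Finset.Icc 1 k0, ∑ h ∈ k.divisors, F h k =
      ∑ h ∈ Finset.Icc 1 H, if h ∣ k then F h k else 0 := by
    intro k hk
    have hk1 := (Finset.mem_Icc.1 hk).1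
    rw [← Finset.sum_filter]
    symm
    refine Finset.sum_subset ?_ ?_
    · intro h hh
      rw [Finset.mem_filter] at hh
      exact Nat.mem_divisors.2 ⟨hh.2, by omega⟩
    · intro h hh hn
      have hd := (Nat.mem_divisors.1 hh).1
      have hp := Nat.pos_of_mem_divisors hh
      refine hF h k ?_ hk1
      by_contra hc
      exact hn (Finset.mem_filter.2 ⟨Finset.mem_Icc.2 ⟨hp, by omega⟩, hd⟩)
  rw [Finset.sum_congr rfl h1, Finset.sum_comm (s := Finset.Icc 1 k0)]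
  refine Finset.sum_congr rfl fun h hh => ?_
  have hh1 := (Finset.mem_Icc.1 hh).1
  rw [← Finset.sum_filter, ← Finset.sum_filter]
  refine Finset.sum_bij (fun m _ => h * m) ?_ ?_ ?_ ?_
  · intro m hm
    simp only [Finset.mem_filter, Finset.mem_Icc] at hm ⊢
    exact ⟨⟨Nat.mul_pos hh1 hm.1.1, hm.2⟩, dvd_mul_right _ _⟩
  · intro m _ m' _ he
    exact Nat.eq_of_mul_eq_mul_left hh1 he
  · intro k hk
    simp only [Finset.mem_filter, Finset.mem_Icc] at hk
    obtain ⟨⟨hk1, hk2⟩, m, rfl⟩ := hk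
    refine ⟨m, ?_, rfl⟩
    simp only [Finset.mem_filter, Finset.mem_Icc]
    have hm : 1 ≤ m := Nat.pos_of_mul_pos_left hk1
    exact ⟨⟨hm, le_trans (Nat.le_mul_of_pos_left m hh1) hk2⟩, hk2⟩
  · intro m _; rfl

/-- the stationary point -/
lemma XX_eq {h m x τ : ℝ} (hh : 0 < h) (hm : 0 < m) (hx : 0 < x)
    (hs : τ * h / (x * (x + h)) = m) : XX (h * m) τ = x / h + 1 / 2 := by
  rw [XX, Real.sqrt_eq_iff_mul_self_eq_of_pos (by positivity)]
  rw [div_eq_iff (by positivity)] at hs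
  have : τ = m * (x * (x + h)) / h := by rw [← hs]; field_simp
  rw [this]
  field_simp
  ring

lemma stat_term {N G τ x : ℝ} {h m : ℕ} (hh : 0 < h) (hm : 0 < m) (hx : 0 < x)
    (hs : τ * h / (x * (x + h)) = m) :
    tm N G τ h (h * m) = (omh N G h x : ℂ) * e (τ * Real.log (1 + h / x) + m * x) * cF /
      (√(τ * h * (2 * x + h) / (x * (x + h)) ^ 2) : ℝ) := by
  have hh' : (0 : ℝ) < h := by exact_mod_cast hh
  have hm' : (0 : ℝ) < m := by exact_mod_cast hm
  have hX := XX_eq hh' hm' hx hs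
  have hL : Lam (h * m) τ = Real.log (1 + h / x) := by
    rw [Lam, hX]; congr 1; field_simp; ring
  have hf : τ * Real.log (1 + h / x) + m * x = ff (h * m) τ + -(((h * m : ℕ) : ℝ) / 2) := by
    rw [ff, hL, hX]; push_cast; field_simp; ring
  have h1 : (h : ℝ) * (XX (h * m) τ - 1 / 2) = x := by rw [hX]; field_simp; ring
  have h2 : (h : ℝ) * (XX (h * m) τ + 1 / 2) = x + h := by rw [hX]; field_simp; ring
  have h3 : √(2 * ((h : ℝ) * m) * XX (h * m) τ) =
      √x * √(x + h) * √(τ * h * (2 * x + h) / (x * (x + h)) ^ 2) := by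
    rw [← Real.sqrt_mul hx.le, ← Real.sqrt_mul (by positivity), hX, ← hs]
    congr 1
    field_simp
  rw [hf, e_add, e_half_nat, tm, omh, cc, cc]
  push_cast
  rw [hL, h1, h2, h3]
  push_cast
  ring

/-- the dual terms for fixed `h` -/
noncomputable def mn (N G τ : ℝ) (h k0 : ℕ) (m : ℤ) : ℂ :=
  if 1 ≤ m ∧ h * m.toNat ≤ k0 then tm N G τ h (h * m.toNat) else 0

lemma one_h {C : ℝ} (hb : ∀ (a b l μ Y Z : ℝ) (ω ω1 : ℝ → ℂ) (φ φ1 φ2 φ3 : ℝ → ℝ)
      (s t : Finset ℤ) (mn : ℤ → ℂ),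
      a ≤ b → 0 < l → (∀ x ∈ Icc a b, HasDerivAt ω (ω1 x) x) → (∀ x ∈ Icc a b, ‖ω1 x‖ ≤ μ) →
      Supp a b ω → Ph3 a b l 4096 φ φ1 φ2 φ3 → (∀ x ∈ Icc a b, |φ1 x| ≤ Y) →
      (b - a) * l ≤ Y + 1 → 3 ≤ Z → b - a ≤ Z → μ ≤ Z → Y ≤ Z → Cov s a b →
      (∀ m : ℤ, ∀ x ∈ Icc a b, φ1 x + m = 0 →
        mn m = ω x * e (φ x + m * x) * cF / (√(φ2 x) : ℝ)) →
      (∀ m : ℤ, (∀ x ∈ Icc a b, φ1 x + m ≠ 0) → mn m = 0) → (∀ m ∉ t, mn m = 0) →
      ‖∑ n ∈ s, ω n * e (φ n) - ∑ m ∈ t, mn m‖ ≤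
        C * (((Y + 1) * μ / l + (b - a) * μ) * Real.log Z + 1 / Z))
    {T G τ : ℝ} {N k0 h : ℕ} (hT : 1 ≤ T) (hN : 1 ≤ N) (hNT : (N : ℝ) ≤ 16 * T)
    (hτ : τ ∈ Icc T (4 * T)) (hk0 : 9 * T ≤ k0) (hh : h ∈ Finset.Icc 1 (2 * N)) :
    ‖∑ n ∈ Finset.Icc 1 (2 * N), (omh N G h n : ℂ) * e (τ * Real.log (1 + h / n)) -
      ∑ m ∈ Finset.Icc 1 k0, (if h * m ≤ k0 then tm N G τ h (h * m) else 0)‖ ≤
      C * (700000 * (131 / (2 * N) + 16 * N / τ * (1 / h)) * Real.log (700000 * (T + 2)) +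
        1 / (700000 * (T + 2))) := by
  rw [Finset.mem_Icc] at hh
  have hN' : (1 : ℝ) ≤ N := by exact_mod_cast hN
  have hN0 : (0 : ℝ) < N := by linarith
  have hh1 : (1 : ℝ) ≤ h := by exact_mod_cast hh.1
  have hh0 : (0 : ℝ) < h := by linarith
  have hh2 : (h : ℝ) ≤ 2 * N := by exact_mod_cast hh.2
  have hτ0 : 0 < τ := by linarith [hτ.1]
  have key := hb (N / 2) (2 * N) (τ * h / (16 * N ^ 3)) (700000 / N ^ 2) (4 * τ * h / N ^ 2)
    (700000 * (T + 2)) (fun x => (omh N G h x : ℂ)) (fun x => (omh1 N G h x : ℂ)) _ _ _ _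
    (Finset.Icc ((1 : ℕ) : ℤ) ((2 * N : ℕ) : ℤ)) (Finset.Icc ((1 : ℕ) : ℤ) (k0 : ℤ))
    (mn N G τ h k0) (by linarith) (by positivity)
    (fun x hx => (hasDerivAt_omh G hN0 hh0.le (by linarith [hx.1])).ofReal_comp)
    (fun x hx => by
      rw [Complex.norm_real, Real.norm_eq_abs]; exact abs_omh1_le G hN0 hh0.le hx.1)
    (fun x hx => by
      have : ws (x / N) = 0 := ws_eq_zero (hx.imp
        (fun h1 => by rw [div_le_iff₀ hN0]; linarith) (fun h1 => by rw [le_div_iff₀ hN0]; linarith))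
      simp [omh, cc, this])
    (ph3 hN0 hh0 hh2 hτ0)
    (fun x hx => by
      have hx0 : 0 < x := by linarith [hx.1]
      rw [abs_neg, abs_of_nonneg (by positivity)]
      calc τ * h / (x * (x + h)) ≤ τ * h / (N / 2 * (N / 2)) := by
            gcongr
            · exact hx.1
            · linarith [hx.1]
        _ = _ := by field_simp; ring)
    (by
      have : (2 * (N : ℝ) - N / 2) * (τ * h / (16 * N ^ 3)) = 3 / 128 * (4 * τ * h / N ^ 2) := by
        field_simp; ring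
      have h2 : 0 ≤ 4 * τ * h / (N : ℝ) ^ 2 := by positivity
      rw [this]; linarith)
    (by linarith) (by linarith)
    (by
      have : (700000 : ℝ) / N ^ 2 ≤ 700000 := div_le_self (by norm_num) (one_le_pow₀ hN')
      linarith)
    (by
      calc 4 * τ * h / (N : ℝ) ^ 2 ≤ 4 * (4 * T) * (2 * N) / N ^ 2 := by gcongr; exact hτ.2
        _ = 32 * T / N := by field_simp; ring
        _ ≤ 32 * T := div_le_self (by linarith) hN'
        _ ≤ _ := by linarith)
    (fun n h1 h2 => by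
      have h3 : (0 : ℝ) < n := by linarith
      have h4 : (0 : ℤ) < n := by exact_mod_cast h3
      have h5 : n < 2 * (N : ℤ) := by exact_mod_cast h2
      rw [Finset.mem_Icc]; omega)
    (fun m x hx hs => by
      have hx0 : 0 < x := by linarith [hx.1]
      have hs' : τ * h / (x * (x + h)) = m := by linarith
      have hm0 : (0 : ℝ) < m := by rw [← hs']; positivity
      have hm1 : (0 : ℤ) < m := by exact_mod_cast hm0
      obtain ⟨m', rfl⟩ := Int.eq_ofNat_of_zero_le hm1.le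
      have hm2 : 0 < m' := by omega
      simp only [Int.cast_natCast] at hs' hm0 ⊢
      rw [← stat_term hh.1 hm2 hx0 hs', mn, Int.toNat_natCast]
      split_ifs with hc
      · rfl
      · symm
        refine tm_eq_zero_right (ws_eq_zero (Or.inr ?_))
        have hk : k0 < h * m' := by by_contra hc2; exact hc ⟨by omega, by omega⟩
        have hk' : (k0 : ℝ) < h * m' := by exact_mod_cast hk
        push_cast
        rw [XX_eq hh0 hm0 hx0 hs', le_div_iff₀ hN0]
        have e1 : (h : ℝ) * (x / h + 1 / 2 + 1 / 2) = x + h := by field_simp; ring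
        rw [e1]
        rw [div_eq_iff (by positivity)] at hs'
        by_contra hlt
        have h6 : (h : ℝ) < 3 * x := by linarith [hx.1]
        have h7 : τ * h * h = h * m' * (x * (x + h)) := by rw [hs']; ring
        have h8 : 9 * T * (x * (x + h)) ≤ h * m' * (x * (x + h)) :=
          mul_le_mul_of_nonneg_right (by linarith) (by positivity)
        have h9 : τ * h * h ≤ 4 * T * (h * h) := by
          rw [mul_assoc]; gcongr; exact hτ.2
        have h10 : 4 * ((h : ℝ) * h) < 9 * (x * (x + h)) := by nlinarith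
        nlinarith)
    (fun m hm => by
      rw [mn]
      split_ifs with hc
      · obtain ⟨m', rfl⟩ := Int.eq_ofNat_of_zero_le (show 0 ≤ m by omega)
        rw [Int.toNat_natCast]
        have hm0 : (0 : ℝ) < m' := by exact_mod_cast (show 0 < m' by omega)
        have hk : (0 : ℝ) < h * m' := by positivity
        have hX := half_lt_XX hk hτ0
        have hX2 := XX_sq hk hτ0
        refine tm_eq_zero_left (ws_eq_zero ?_)
        push_cast
        by_contra hcon
        push Not at hcon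
        rw [lt_div_iff₀ hN0, div_lt_iff₀ hN0] at hcon
        refine hm (h * (XX (h * m') τ - 1 / 2)) ⟨by linarith [hcon.1], hcon.2.le⟩ ?_
        have e1 : (h : ℝ) * (XX (h * m') τ - 1 / 2) * (h * (XX (h * m') τ - 1 / 2) + h) =
            h ^ 2 * (XX (h * m') τ ^ 2 - 1 / 4) := by ring
        simp only [Int.cast_natCast]
        rw [e1, hX2]
        field_simp
        ring
      · rfl)
    (fun m hm => by
      rw [mn, if_neg]
      rintro ⟨h1, h2⟩
      have h3 : m.toNat ≤ k0 := le_trans (Nat.le_mul_of_pos_left _ hh.1) h2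
      exact hm (Finset.mem_Icc.2 ⟨by omega, by omega⟩))
  rw [← sum_Icc_natCast (fun n : ℤ => (omh N G h n : ℂ) * e (τ * Real.log (1 + h / n))),
    ← sum_Icc_natCast (mn N G τ h k0)] at key
  have e2 : ∑ m ∈ Finset.Icc 1 k0, mn N G τ h k0 (m : ℕ) =
      ∑ m ∈ Finset.Icc 1 k0, (if h * m ≤ k0 then tm N G τ h (h * m) else 0) := by
    refine Finset.sum_congr rfl fun m hm => ?_
    have := (Finset.mem_Icc.1 hm).1
    rw [mn, Int.toNat_natCast]
    exact if_congr (and_iff_right (by omega)) rfl rfl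
  rw [e2] at key
  simp only [Int.cast_natCast] at key
  refine key.trans (le_of_eq ?_)
  congr 3
  field_simp
  ring

end ZetCAux

open ZetCAux in
theorem zc1 (hb : BpS) : ZC1S := by
  obtain ⟨C, hC, hb⟩ := hb 4096 (by norm_num)
  refine ⟨C * (700000 * 9000 * 700001 + 1), by positivity, ?_⟩
  intro T G τ N k0 hT hN hNT hτ hk0
  have hN' : (1 : ℝ) ≤ N := by exact_mod_cast hN
  have hN0 : (0 : ℝ) < N := by linarith
  have hτ0 : 0 < τ := by linarith [hτ.1]
  have hL := one_le_log_add_two hT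
  have hz : ∀ h k : ℕ, 2 * N < h → 1 ≤ k → tm N G τ h k = 0 := by
    intro h k hh hk
    refine tm_eq_zero_right (ws_eq_zero (Or.inr ?_))
    have hh' : 2 * (N : ℝ) ≤ h := by exact_mod_cast hh.le
    have hX := half_lt_XX (k := k) (by exact_mod_cast hk) hτ0
    rw [le_div_iff₀ hN0]
    nlinarith
  simp only [mk_eq]
  rw [← regroup (tm N G τ) (2 * N) k0 hz, OD, ← Finset.sum_sub_distrib]
  refine (norm_sum_le _ _).trans ((Finset.sum_le_sum fun h hh =>
    one_h hb hT hN hNT hτ hk0 hh).trans ?_)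
  have hZ : Real.log (700000 * (T + 2)) ≤ 700001 * Real.log (T + 2) := by
    rw [Real.log_mul (by norm_num) (by linarith)]
    have := Real.log_le_sub_one_of_pos (show (0 : ℝ) < 700000 by norm_num)
    linarith
  have hZ0 : 0 ≤ Real.log (700000 * (T + 2)) := Real.log_nonneg (by linarith)
  have hs := sum_inv_le (2 * N)
  have hlog : Real.log ((2 * N : ℕ) : ℝ) ≤ 32 * Real.log (T + 2) := by
    have h1 : Real.log ((2 * N : ℕ) : ℝ) ≤ Real.log (32 * (T + 2)) := by
      refine Real.log_le_log (by positivity) ?_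
      push_cast; linarith
    rw [Real.log_mul (by norm_num) (by linarith)] at h1
    have := Real.log_le_sub_one_of_pos (show (0 : ℝ) < 32 by norm_num)
    linarith
  have hq : 16 * (N : ℝ) / τ ≤ 256 := by
    rw [div_le_iff₀ hτ0]; linarith [hτ.1]
  rw [← Finset.mul_sum, Finset.sum_add_distrib, ← Finset.sum_mul, ← Finset.mul_sum,
    Finset.sum_add_distrib, ← Finset.mul_sum, Finset.sum_const, Finset.sum_const, Nat.card_Icc,
    nsmul_eq_mul, nsmul_eq_mul, mul_assoc C]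
  have e1 : ((2 * N + 1 - 1 : ℕ) : ℝ) = 2 * N := by simp
  rw [e1]
  have e2 : 2 * (N : ℝ) * (131 / (2 * N)) = 131 := by field_simp
  have e3 : 2 * (N : ℝ) * (1 / (700000 * (T + 2))) ≤ 1 := by
    rw [mul_one_div, div_le_one (by positivity)]; linarith
  have e4 : 16 * (N : ℝ) / τ * ∑ h ∈ Finset.Icc 1 (2 * N), 1 / (h : ℝ) ≤
      256 * (33 * Real.log (T + 2)) := by
    gcongr
    linarith
  rw [e2]
  gcongr
  have e5 : 131 + 16 * (N : ℝ) / τ * ∑ h ∈ Finset.Icc 1 (2 * N), 1 / (h : ℝ) ≤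
      9000 * Real.log (T + 2) := by linarith
  calc _ ≤ 700000 * (9000 * Real.log (T + 2)) * (700001 * Real.log (T + 2)) + 1 := by gcongr
    _ ≤ _ := by nlinarith

end Pool.Agent.Lib.MP_80d0cf_nt.Up
end
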