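import Pool.Agent.Lib.MP_80d0cf_nt.Up.Osc
import Pool.Agent.Lib.MP_80d0cf_nt.Up.Sp
import Pool.Agent.Lib.MP_80d0cf_nt.Up.Bp
import Pool.Agent.Lib.MP_80d0cf_nt.Up.Weyl
import Pool.Agent.Lib.MP_80d0cf_nt.Up.CombA
import Pool.Agent.Lib.MP_80d0cf_nt.Up.CombB
import Pool.Agent.Lib.MP_80d0cf_nt.Up.Kern
import Pool.Agent.Lib.MP_80d0cf_nt.Up.Hmax
import Pool.Agent.Lib.MP_80d0cf_nt.Up.Jb
import Pool.Agent.Lib.MP_80d0cf_nt.Up.T1
import Pool.Agent.Lib.MP_80d0cf_nt.Up.HeavyA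
import Pool.Agent.Lib.MP_80d0cf_nt.Up.HeavyB
import Pool.Agent.Lib.MP_80d0cf_nt.Up.Lvt
import Pool.Agent.Lib.MP_80d0cf_nt.Up.Mv
import Pool.Agent.Lib.MP_80d0cf_nt.Up.Grid
import Pool.Agent.Lib.MP_80d0cf_nt.Up.FamB
import Pool.Agent.Lib.MP_80d0cf_nt.Up.ZetA
import Pool.Agent.Lib.MP_80d0cf_nt.Up.ZetB
import Pool.Agent.Lib.MP_80d0cf_nt.Up.ZetC
import Pool.Agent.Lib.MP_80d0cf_nt.Up.ZetD
import Pool.Agent.Lib.MP_80d0cf_nt.Up.Red
import Pool.Agent.Lib.MP_80d0cf_nt.Up.Lev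
import Pool.Agent.Lib.MP_80d0cf_nt.Up.Fin

/-! All steps put together. -/

namespace Pool.Agent.Lib.MP_80d0cf_nt.Up

theorem ps' : PsS := ps ibp
theorem bp' : BpS := bp ps' (sp1 ibp cf) (sp2 ibp)
theorem weyl' : WeylS := weyl ps' sd
theorem f1' : F1S := f1 bp' cf
theorem lvt' : LvtS :=
  lvt cf f1' (hmax weyl' cf) (t1 (jb ps' fd2 sd cf) count)
    (heavy (heavyA cf f1' schur dual row hm sieve)) energy cubic schur psd dual row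
theorem mv' : MvS := mv fd1
theorem red' : RedS := red z2 (z4 z2 (zc1 bp') (zc2 cf))
theorem a4' : A4S := a4 red' mv'
theorem a12' : A12S := a12 red' (hmp mv' grid (dhm cf f1' hm))
theorem a8' : A8S := a8 red' mv' (lvp grid lvt')
theorem final : FinalS := fin (z1 ps' fd1) a4' a12' a8'

end Pool.Agent.Lib.MP_80d0cf_nt.Up
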