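import Pool.Agent.Lib.MP_80d0cf_nt.Up.Fin

/-! Moments of zeta from a general level set estimate. -/

open Set MeasureTheory

namespace Pool.Agent.Lib.MP_80d0cf_nt.Up

namespace FinAux

/-- moments of the dyadic pieces, general exponent -/
lemma mom_DN_gen {A th ε T0 : ℝ} (hA : 0 < A) (hth : 1 ≤ th) (hε : 0 < ε)
    (h : ∀ (T V : ℝ) (N : ℕ), T0 ≤ T → 1 ≤ N → (N : ℝ) ≤ 16 * T → T ^ ε ≤ V →
      lev (2 * T) (3 * T) (DN N) V ≤ T ^ (th + ε) / V ^ A) :
    ∃ C : ℝ, 1 ≤ C ∧ ∀ (T : ℝ) (N : ℕ), max T0 32 ≤ T → 1 ≤ N → (N : ℝ) ≤ 16 * T →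
      ∫ τ in (2 * T)..(3 * T), ‖DN N τ‖ ^ A ≤ C * T ^ (th + (A + 1) * ε) := by
  obtain ⟨J, hJ⟩ := exists_nat_ge (2 / ε)
  have hJ0 : (0 : ℝ) ≤ J := Nat.cast_nonneg J
  refine ⟨1 + J, by linarith, fun T N hT hN hNT => ?_⟩
  simp only [max_le_iff] at hT
  have hT1 : 1 ≤ T := by linarith [hT.2]
  have hTp : 0 < T := by linarith
  have hq : 1 ≤ T ^ ε := Real.one_le_rpow hT1 hε.le
  have hb : ∀ τ ∈ Icc (2 * T) (3 * T), ‖DN N τ‖ ≤ T ^ ε * (T ^ ε) ^ J := by
    intro τ _
    have h1 : T ^ (2 : ℝ) ≤ (T ^ ε) ^ J := by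
      rw [← Real.rpow_natCast, ← Real.rpow_mul hTp.le]
      refine Real.rpow_le_rpow_of_exponent_le hT1 ?_
      rw [div_le_iff₀ hε] at hJ
      linarith
    rw [Real.rpow_two] at h1
    have h2 : (T ^ ε) ^ J ≤ T ^ ε * (T ^ ε) ^ J := le_mul_of_one_le_left (by positivity) hq
    have h3 := norm_DN_le N τ
    nlinarith [hT.2]
  refine (layer (by linarith) (continuous_DN N) hA.le (by positivity) (by positivity) J
    hb).trans ?_
  have hAe : (T ^ ε) ^ A = T ^ (A * ε) := by rw [← Real.rpow_mul hTp.le, mul_comm]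
  have h1 : (T ^ ε) ^ A * (3 * T - 2 * T) ≤ T ^ (th + (A + 1) * ε) := by
    calc _ = T ^ (A * ε) * T ^ (1 : ℝ) := by
          rw [Real.rpow_one, show 3 * T - 2 * T = T by ring, hAe]
      _ ≤ _ := by
          rw [← Real.rpow_add hTp]
          exact Real.rpow_le_rpow_of_exponent_le hT1 (by linarith)
  have h2 : ∀ j ∈ Finset.range J, (T ^ ε * (T ^ ε) ^ (j + 1)) ^ A *
      lev (2 * T) (3 * T) (DN N) (T ^ ε * (T ^ ε) ^ j) ≤ T ^ (th + (A + 1) * ε) := by
    intro j _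
    have h3 := h T (T ^ ε * (T ^ ε) ^ j) N hT.1 hN hNT
      (le_mul_of_one_le_right (by positivity) (one_le_pow₀ hq))
    rw [le_div_iff₀' (by positivity)] at h3
    calc _ = (T ^ ε) ^ A * ((T ^ ε * (T ^ ε) ^ j) ^ A *
            lev (2 * T) (3 * T) (DN N) (T ^ ε * (T ^ ε) ^ j)) := by
          rw [← mul_assoc, ← Real.mul_rpow (by positivity) (by positivity)]
          congr 2
          ring
      _ ≤ T ^ (A * ε) * T ^ (th + ε) := by
          rw [hAe]
          exact mul_le_mul_of_nonneg_left h3 (by positivity)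
      _ = _ := by
          rw [← Real.rpow_add hTp]
          congr 1
          ring
  have h3 := Finset.sum_le_card_nsmul _ _ _ h2
  rw [Finset.card_range, nsmul_eq_mul] at h3
  linarith

/-- the moment over a short range, general exponent -/
lemma mom_zeta_gen (h1 : Z1S) {A th : ℝ} (hA : 0 < A) (hth : 1 ≤ th)
    (h : ∀ ε : ℝ, 0 < ε → ∃ T0 : ℝ, ∀ (T V : ℝ) (N : ℕ), T0 ≤ T → 1 ≤ N → (N : ℝ) ≤ 16 * T →
      T ^ ε ≤ V → lev (2 * T) (3 * T) (DN N) V ≤ T ^ (th + ε) / V ^ A) {η : ℝ} (hη : 0 < η) :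
    ∃ C T0 : ℝ, 0 ≤ C ∧ 1 ≤ T0 ∧ ∀ T, T0 ≤ T →
      ∫ τ in (2 * T)..(3 * T), ‖riemannZeta (1 / 2 + (2 * Real.pi * τ : ℝ) * Complex.I)‖ ^ A ≤
        C * T ^ (th + η) := by
  obtain ⟨C1, hC1, h1⟩ := h1
  have hε : 0 < η / (2 * A + 2) := by positivity
  have hεη : (2 * A + 2) * (η / (2 * A + 2)) = η := by field_simp
  set ε := η / (2 * A + 2) with hεd
  obtain ⟨T0, h⟩ := h ε hε
  obtain ⟨C, hC, h⟩ := mom_DN_gen hA hth hε h
  obtain ⟨T1, -, hl1⟩ := exists_log_pow_le C1 1 hε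
  obtain ⟨T2, -, hl2⟩ := exists_log_pow_le 8 1 hε
  have h32 : (1 : ℝ) ≤ max T0 32 := le_max_of_le_right (by norm_num)
  refine ⟨1 + C, max (max T0 32) (max T1 T2), by linarith,
    le_max_of_le_left h32, fun T hT => ?_⟩
  rw [max_le_iff, max_le_iff (a := T1)] at hT
  have hT1 : 1 ≤ T := h32.trans hT.1
  have hTp : 0 < T := by linarith
  have hab : 2 * T ≤ 3 * T := by linarith
  have l1 := hl1 T hT.2.1
  have l2 := hl2 T hT.2.2
  rw [pow_one] at l1 l2
  obtain ⟨c1, c2⟩ := log_count hT1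
  set n := Nat.log 2 ⌊16 * T⌋₊ + 1 with hn
  have hlog : 0 ≤ C1 * Real.log (T + 2) := by
    have := one_le_log_add_two hT1
    positivity
  have hAe : (T ^ ε) ^ A ≤ T ^ (A * ε) := by rw [← Real.rpow_mul hTp.le, mul_comm]
  have hcD : ∀ j : ℕ, Continuous fun τ => ‖DN (2 ^ j) τ‖ ^ A := fun j =>
    (continuous_DN _).norm.rpow_const fun _ => Or.inr hA.le
  have hcz : Continuous fun τ : ℝ =>
      ‖riemannZeta (1 / 2 + (2 * Real.pi * τ : ℝ) * Complex.I)‖ ^ A :=
    (continuous_zeta.comp (continuous_const.mul continuous_id)).norm.rpow_const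
      fun _ => Or.inr hA.le
  have hs : Continuous fun τ => ∑ j ∈ Finset.range n, ‖DN (2 ^ j) τ‖ ^ A :=
    continuous_finsetSum _ fun j _ => hcD j
  have hj : ∀ j ∈ Finset.range n, ∫ τ in (2 * T)..(3 * T), ‖DN (2 ^ j) τ‖ ^ A ≤
      C * T ^ (th + (A + 1) * ε) := fun j hj => by
    refine h T _ hT.1 Nat.one_le_two_pow (le_trans ?_ c1)
    exact_mod_cast Nat.pow_le_pow_right two_pos (Nat.lt_succ_iff.1 (Finset.mem_range.1 hj))
  have h3 := Finset.sum_le_card_nsmul _ _ _ hj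
  rw [Finset.card_range, nsmul_eq_mul] at h3
  calc _ ≤ ∫ τ in (2 * T)..(3 * T), T ^ (A * ε) *
          (T ^ (A * ε) + ∑ j ∈ Finset.range n, ‖DN (2 ^ j) τ‖ ^ A) := by
        refine intervalIntegral.integral_mono_on hab (hcz.intervalIntegrable _ _)
          ((continuous_const.mul (continuous_const.add hs)).intervalIntegrable _ _) fun τ hτ => ?_
        refine (Real.rpow_le_rpow (norm_nonneg _) (h1 T τ hT1 hτ) hA.le).trans ?_
        refine (sum_rpow_le hA hlog n fun j => norm_nonneg _).trans ?_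
        have s0 : 0 ≤ ∑ j ∈ Finset.range n, ‖DN (2 ^ j) τ‖ ^ A :=
          Finset.sum_nonneg fun j _ => by positivity
        refine mul_le_mul ((Real.rpow_le_rpow (by positivity) (c2.trans l2) hA.le).trans hAe)
          (add_le_add_left ((Real.rpow_le_rpow hlog l1 hA.le).trans hAe) _)
          (by positivity) (by positivity)
    _ = T ^ (A * ε) * (T ^ (A * ε) * T ^ (1 : ℝ) +
          ∑ j ∈ Finset.range n, ∫ τ in (2 * T)..(3 * T), ‖DN (2 ^ j) τ‖ ^ A) := by
        rw [intervalIntegral.integral_const_mul, intervalIntegral.integral_add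
          (continuous_const.intervalIntegrable _ _) (hs.intervalIntegrable _ _),
          intervalIntegral.integral_finsetSum fun j _ => (hcD j).intervalIntegrable _ _,
          intervalIntegral.integral_const, smul_eq_mul, Real.rpow_one]
        ring
    _ ≤ T ^ (A * ε) * (T ^ (th + (A + 2) * ε) + T ^ ε * (C * T ^ (th + (A + 1) * ε))) := by
        refine mul_le_mul_of_nonneg_left (add_le_add ?_ (h3.trans ?_)) (by positivity)
        · rw [← Real.rpow_add hTp]
          exact Real.rpow_le_rpow_of_exponent_le hT1 (by linarith)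
        · exact mul_le_mul_of_nonneg_right (by linarith) (by positivity)
    _ = _ := by
        have e1 : T ^ ε * T ^ (th + (A + 1) * ε) = T ^ (th + (A + 2) * ε) := by
          rw [← Real.rpow_add hTp]; congr 1; ring
        have e2 : T ^ (A * ε) * T ^ (th + (A + 2) * ε) = T ^ (th + η) := by
          rw [← Real.rpow_add hTp]; congr 1; linarith
        rw [mul_left_comm (T ^ ε), e1, ← e2]
        ring

end FinAux

open FinAux in
theorem finGen (h1 : Z1S) (A th : ℝ) (hA : 0 < A) (hth : 1 ≤ th)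
    (h : ∀ ε : ℝ, 0 < ε → ∃ T0 : ℝ, ∀ (T V : ℝ) (N : ℕ), T0 ≤ T → 1 ≤ N → (N : ℝ) ≤ 16 * T →
      T ^ ε ≤ V → lev (2 * T) (3 * T) (DN N) V ≤ T ^ (th + ε) / V ^ A) :
    ∀ ε : ℝ, 0 < ε → ∃ C : ℝ, ∀ T : ℝ, 1 ≤ T →
      ∫ t in (0 : ℝ)..T, ‖riemannZeta (1 / 2 + t * Complex.I)‖ ^ A ≤ C * T ^ (th + ε) := by
  intro ε hε
  obtain ⟨C, T0, hC, hT0, h⟩ := mom_zeta_gen h1 hA hth h hε
  have hπ := Real.pi_gt_three
  have hg : Continuous fun t : ℝ => ‖riemannZeta (1 / 2 + t * Complex.I)‖ ^ A :=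
    continuous_zeta.norm.rpow_const fun _ => Or.inr hA.le
  exact glue hg (fun t => by positivity) (s := th + ε)
    (C := 2 * Real.pi * C) (X0 := 6 * Real.pi * T0) (by linarith) (by positivity)
    (by positivity) fun X hX => by
      have hT : T0 ≤ X / (6 * Real.pi) := by rw [le_div_iff₀ (by positivity)]; linarith
      have h2 := h _ hT
      have hX0 : 0 < X := lt_of_lt_of_le (by positivity) hX
      have e := intervalIntegral.integral_comp_mul_left (a := 2 * (X / (6 * Real.pi)))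
        (b := 3 * (X / (6 * Real.pi))) (c := 2 * Real.pi)
        (fun t : ℝ => ‖riemannZeta (1 / 2 + t * Complex.I)‖ ^ A) (by positivity)
      rw [show 2 * Real.pi * (2 * (X / (6 * Real.pi))) = 2 / 3 * X by field_simp; ring,
        show 2 * Real.pi * (3 * (X / (6 * Real.pi))) = X by field_simp; ring, smul_eq_mul] at e
      rw [e, inv_mul_le_iff₀ (by positivity)] at h2
      refine h2.trans ?_
      rw [mul_assoc (2 * Real.pi)]
      refine mul_le_mul_of_nonneg_left (mul_le_mul_of_nonneg_left ?_ hC) (by positivity)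
      exact Real.rpow_le_rpow (by positivity) (div_le_self hX0.le (by linarith)) (by linarith)

end Pool.Agent.Lib.MP_80d0cf_nt.Up
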