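import Pool.Agent.Lib.MP_80d0cf_nt.Up.HeavyA2

/-! Few large values lie in cells that contain many large values. -/

open Set MeasureTheory ComplexConjugate

namespace Pool.Agent.Lib.MP_80d0cf_nt.Up

namespace HeavyAAux

/-- the standing hypotheses; `q` is the fourth root of `K` -/
structure Hyp (C q ρ A : ℝ) (K M : ℕ) (a : ℕ → ℂ) (W : Finset ℤ) : Prop where
  hC : 0 < C
  hq1 : 1 ≤ q
  hq : q ^ 4 = K
  hlog : 16 * C * Real.log (K + 2) ≤ q
  hM1 : 1 ≤ M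
  hM : (M : ℝ) ^ 4 ≤ q
  h0 : 0 ≤ ρ
  h1 : ρ ≤ 1 / 10000
  hρ : ρ * K ≤ A
  hA1 : 1 ≤ A
  hA : A ≤ M
  ha : ∀ k, ‖a k‖ ≤ 1
  hW : ∀ u ∈ W, 0 ≤ u ∧ u < K * M
  hcard : (W.card : ℝ) ≤ q ^ 2 * M
  hl : ∀ u ∈ W, q ^ 3 / A ≤ ‖SK K ρ a u‖
  hf : ∀ u : ℝ, 0 ≤ u → u ≤ 8 * K * M →
    ‖DD K ρ u - Hp K M ρ u‖ ≤ C * Real.log (K + 2) * (K / (1 + u) + 1 + ρ * K * M)

variable {C q ρ A : ℝ} {K M : ℕ} {a : ℕ → ℂ} {W : Finset ℤ}

lemma Hyp.K1 (h : Hyp C q ρ A K M a W) : (1 : ℝ) ≤ K := h.hq ▸ one_le_pow₀ h.hq1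

lemma Hyp.M1 (h : Hyp C q ρ A K M a W) : (1 : ℝ) ≤ M := by exact_mod_cast h.hM1

lemma Hyp.qK (h : Hyp C q ρ A K M a W) : q ≤ K := h.hq ▸ le_self_pow₀ h.hq1 (by norm_num)

lemma Hyp.MK (h : Hyp C q ρ A K M a W) : (M : ℝ) ≤ K :=
  (le_self_pow₀ h.M1 (by norm_num)).trans (h.hM.trans h.qK)

lemma Hyp.sqrtK (h : Hyp C q ρ A K M a W) : √K = q ^ 2 := by
  rw [← h.hq, show q ^ 4 = (q ^ 2) ^ 2 by ring, Real.sqrt_sq (by positivity)]

lemma Hyp.err (h : Hyp C q ρ A K M a W) : 1 + ρ * K * M ≤ 2 * (M : ℝ) ^ 2 := by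
  have h1 := h.M1
  have h2 : ρ * K * M ≤ M * M := mul_le_mul_of_nonneg_right (h.hρ.trans h.hA) (by linarith)
  nlinarith

lemma Hyp.diff (h : Hyp C q ρ A K M a W) {u v : ℤ} (hu : u ∈ W) (hv : v ∈ W) :
    |(u : ℝ) - v| ≤ K * M := by
  obtain ⟨a1, a2⟩ := h.hW u hu
  obtain ⟨b1, b2⟩ := h.hW v hv
  have a1' : (0 : ℝ) ≤ u := by exact_mod_cast a1
  have a2' : (u : ℝ) < K * M := by exact_mod_cast a2
  have b1' : (0 : ℝ) ≤ v := by exact_mod_cast b1
  have b2' : (v : ℝ) < K * M := by exact_mod_cast b2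
  rw [abs_le]; constructor <;> linarith

lemma Hyp.dd (h : Hyp C q ρ A K M a W) {v : ℝ} (hv : |v| ≤ K * M) :
    ‖DD K ρ v - (Hp K M ρ v + conj (Hp K M ρ (-v)))‖ ≤
      C * Real.log (K + 2) * K * (1 / (1 + |v|)) + 2 * C * Real.log (K + 2) * (M : ℝ) ^ 2 := by
  have hL := one_le_log_add_two h.K1
  have hC := h.hC
  have h3 : (0 : ℝ) ≤ K * M := by positivity
  refine (dd_sub h.hf (by linarith)).trans ?_
  calc _ ≤ C * Real.log (K + 2) * (K / (1 + |v|) + 2 * (M : ℝ) ^ 2) := by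
        rw [add_assoc]; gcongr; exact h.err
    _ = _ := by ring

lemma Hyp.window (hh : HmS) (h : Hyp C q ρ A K M a W) :
    ∀ W0 ⊆ W, (∀ u ∈ W0, ∀ v ∈ W0, |(u : ℝ) - v| ≤ 2 * K) →
      (W0.card : ℝ) ≤ 48 * C * A ^ 2 * q ^ 2 * Real.log (K + 2) ^ 2 := by
  intro W0 hs hd
  have hK := h.K1
  have hL := one_le_log_add_two hK
  have hC := h.hC
  have hq1 := h.hq1
  have hA1 := h.hA1
  have hM1 := h.M1
  have key := hh _ _ (ok K) (yk K ρ) a W0 (q ^ 3 / A) (C * Real.log (K + 2) * K)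
    (2 * C * Real.log (K + 2) * (M : ℝ) ^ 2) (2 * K) (4 * K) (Ico_subset_Icc K)
    (fun k _ => ok_nonneg K k) (norm_le_ok h.ha) (sum_ok_le K) (by positivity) (by positivity)
    (by positivity) (fun u hu => h.hl u (hs hu)) hd (fun u hu v hv => ?_) ?_
  · refine key.trans ?_
    have h2 : Real.log (2 * K + 1) ≤ 2 * Real.log (K + 2) := by
      rw [← Real.log_rpow (by linarith), Real.rpow_two]
      exact Real.log_le_log (by linarith) (by nlinarith)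
    calc _ ≤ 4 * (4 * K) * (C * Real.log (K + 2) * K) * (3 * Real.log (K + 2)) / (q ^ 3 / A) ^ 2 := by
          gcongr; linarith
      _ = _ := by rw [← h.hq]; field_simp; ring
  · have h2 := h.dd (h.diff (hs hu) (hs hv))
    have h3 := abs_le.1 (hd u hu v hv)
    rw [Hp_eq_zero (by linarith [h3.2]), Hp_eq_zero (by linarith [h3.1]), map_zero, add_zero,
      sub_zero, mul_one_div] at h2
    exact h2
  · rw [div_pow, le_div_iff₀ (by positivity)]
    calc _ = 16 * C * Real.log (K + 2) * (K * (M : ℝ) ^ 2 * A ^ 2) := by ring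
      _ ≤ q * (K * (M : ℝ) ^ 2 * (M : ℝ) ^ 2) := by gcongr; exacts [h.hlog, h.hA]
      _ = q * K * (M : ℝ) ^ 4 := by ring
      _ ≤ q * K * q := by gcongr; exact h.hM
      _ = _ := by rw [← h.hq]; ring

/-- remainder of the kernel -/
noncomputable def EE (K M B : ℕ) (ρ : ℝ) (u v : ℤ) : ℂ :=
  DD K ρ ((u : ℝ) - v) - (GG K M B ρ u v + conj (GG K M B ρ v u))

lemma Hyp.norm_EE (hc : CFS) (h : Hyp C q ρ A K M a W) {B : ℕ} (hB : 1 ≤ B) (hBM : B ≤ M)
    {u v : ℤ} (hu : u ∈ W) (hv : v ∈ W) :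
    ‖EE K M B ρ u v‖ ≤ C * Real.log (K + 2) * K * (1 / (1 + |(u : ℝ) - v|)) +
      (2 * C * Real.log (K + 2) * (M : ℝ) ^ 2 + 22 * (M : ℝ) ^ 3 / q ^ 2) := by
  have hB' : (1 : ℝ) ≤ B := by exact_mod_cast hB
  have hBM' : (B : ℝ) ≤ M := by exact_mod_cast hBM
  have hq1 := h.hq1
  have hG : ∀ x y : ℤ, ‖Hp K M ρ ((x : ℝ) - y) - GG K M B ρ x y‖ ≤ 11 * (M : ℝ) ^ 3 / q ^ 2 := by
    intro x y
    have h2 := Hp_sub_G hc (M := M) (U := off B (x / B) (y / B)) (by exact_mod_cast h.K1) h.h0 h.h1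
      hB' (hBM'.trans h.MK) (abs_sub_off hB x y)
    rw [add_sub_cancel, h.sqrtK] at h2
    refine h2.trans ?_
    calc _ ≤ M * (11 * (M : ℝ) ^ 2 / q ^ 2) := by gcongr
      _ = _ := by ring
  have hid : EE K M B ρ u v = (DD K ρ ((u : ℝ) - v) - (Hp K M ρ ((u : ℝ) - v) +
      conj (Hp K M ρ (-((u : ℝ) - v))))) + ((Hp K M ρ ((u : ℝ) - v) - GG K M B ρ u v) +
        conj (Hp K M ρ ((v : ℝ) - u) - GG K M B ρ v u)) := by
    rw [EE, neg_sub, map_sub]; ring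
  rw [hid]
  refine (norm_add_le _ _).trans ?_
  have h3 := h.dd (h.diff hu hv)
  have h4 := norm_add_le (Hp K M ρ ((u : ℝ) - v) - GG K M B ρ u v)
    (conj (Hp K M ρ ((v : ℝ) - u) - GG K M B ρ v u))
  rw [Complex.norm_conj] at h4
  have h5 := hG u v
  have h6 := hG v u
  have h7 : 22 * (M : ℝ) ^ 3 / q ^ 2 = 11 * (M : ℝ) ^ 3 / q ^ 2 + 11 * (M : ℝ) ^ 3 / q ^ 2 := by
    ring
  linarith

lemma Hyp.row (hr : RowS) (h : Hyp C q ρ A K M a W) {V : Finset ℤ} (hV : V ⊆ W) {u : ℤ}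
    (hu : u ∈ V) : ∑ v ∈ V, (C * Real.log (K + 2) * K * (1 / (1 + |(u : ℝ) - v|)) +
      (2 * C * Real.log (K + 2) * (M : ℝ) ^ 2 + 22 * (M : ℝ) ^ 3 / q ^ 2)) ≤
      (8 * C + 22) * K * Real.log (K + 2) ^ 2 := by
  have hK := h.K1
  have hL := one_le_log_add_two hK
  have hC := h.hC
  have hq1 := h.hq1
  have hM1 := h.M1
  have hMK := h.MK
  rw [Finset.sum_add_distrib, ← Finset.mul_sum, Finset.sum_const, nsmul_eq_mul]
  have h2 := hr V u (K * M) (by positivity) fun v hv => h.diff (hV hu) (hV hv)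
  have h3 : Real.log (K * M + 1) ≤ 2 * Real.log (K + 2) := by
    rw [← Real.log_rpow (by linarith), Real.rpow_two]
    exact Real.log_le_log (by positivity) (by nlinarith)
  have h4 : (V.card : ℝ) ≤ q ^ 2 * M := le_trans (by exact_mod_cast Finset.card_le_card hV) h.hcard
  have h5 : (M : ℝ) ^ 3 ≤ q := (pow_le_pow_right₀ hM1 (by norm_num)).trans h.hM
  have h6 : q ^ 3 ≤ K := h.hq ▸ pow_le_pow_right₀ hq1 (by norm_num)
  have hL2 : Real.log (K + 2) ≤ Real.log (K + 2) ^ 2 := le_self_pow₀ hL (by norm_num)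
  calc _ ≤ C * Real.log (K + 2) * K * (6 * Real.log (K + 2)) + q ^ 2 * M *
          (2 * C * Real.log (K + 2) * (M : ℝ) ^ 2 + 22 * (M : ℝ) ^ 3 / q ^ 2) := by
        gcongr; linarith
    _ = 6 * C * K * Real.log (K + 2) ^ 2 + 2 * C * (q ^ 2 * (M : ℝ) ^ 3) * Real.log (K + 2) +
          22 * (M : ℝ) ^ 4 * 1 := by field_simp; ring
    _ ≤ 6 * C * K * Real.log (K + 2) ^ 2 + 2 * C * K * Real.log (K + 2) ^ 2 +
          22 * K * Real.log (K + 2) ^ 2 := by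
        gcongr
        · calc q ^ 2 * (M : ℝ) ^ 3 ≤ q ^ 2 * q := by gcongr
            _ = q ^ 3 := by ring
            _ ≤ _ := h6
        · exact h.hM.trans h.qK
        · linarith
    _ = _ := by ring

lemma Hyp.range (hc : CFS) (hs : SchurS) (hd : DualS) (hr : RowS) (hh : HmS) (hv : SieveS)
    (h : Hyp C q ρ A K M a W) {B : ℕ} (hB : 1 ≤ B) (hBM : B ≤ M) {n0 : ℝ} (hn : 0 < n0)
    {V : Finset ℤ} (hV : V ⊆ W)
    (hheavy : ∀ u ∈ V, n0 ≤ ((W.filter fun v => v / (B : ℤ) = u / B).card : ℝ))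
    (hcell : ∀ u ∈ V, ∀ v ∈ V, u / (B : ℤ) - v / B < K) :
    (V.card : ℝ) ≤ (10 ^ 6 * C + 88) * A ^ 4 * Real.log (K + 2) ^ 3 * q ^ 2 *
      (1 + B * √B / n0) := by
  have hK := h.K1
  have hL := one_le_log_add_two hK
  have hC := h.hC
  have hq1 := h.hq1
  have hA1 := h.hA1
  have hK' : 1 ≤ K := by exact_mod_cast hK
  have hMK : M ≤ K := by exact_mod_cast h.MK
  set L := Real.log (K + 2) with hLdef
  obtain ⟨θ, hθ, key⟩ := hd _ _ (ok K) (yk K ρ) a V (q ^ 3 / A) (Ico_subset_Icc K)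
    (fun k _ => ok_nonneg K k) (norm_le_ok h.ha) (by positivity) fun u hu => h.hl u (hV hu)
  have hE := hs V (EE K M B ρ) θ ((8 * C + 22) * K * L ^ 2)
    (fun u hu => (Finset.sum_le_sum fun v hv => h.norm_EE hc hB hBM (hV hu) (hV hv)).trans
      (h.row hr hV hu))
    (fun v hv => (Finset.sum_le_sum fun u hu => by
      have := h.norm_EE hc hB hBM (hV hu) (hV hv)
      rwa [abs_sub_comm] at this).trans (h.row hr hV hv))
  simp only [hθ, one_pow, Finset.sum_const, nsmul_eq_mul, mul_one] at hE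
  set R := 48 * C * A ^ 2 * q ^ 2 * L ^ 2 * (2 * √B / √K) / n0 with hR
  have hQ := quad hc hv (R := R) hK' h.hM1 hB hMK h.h0 h.h1 hcell
    (heavy_row hK' hB (hBM.trans hMK) (by positivity) hn (h.window hh) fun c hc1 => by
      obtain ⟨u, hu, rfl⟩ := Finset.mem_image.1 hc1
      exact hheavy u hu) hθ
  have hid : ∑ u ∈ V, ∑ v ∈ V, θ u * conj (θ v) *
      Dk (Finset.Icc 1 (4 * K)) (ok K) (yk K ρ) ((u : ℝ) - v) =
      ∑ u ∈ V, ∑ v ∈ V, θ u * conj (θ v) * EE K M B ρ u v +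
        (∑ u ∈ V, ∑ v ∈ V, θ u * conj (θ v) * GG K M B ρ u v +
          conj (∑ u ∈ V, ∑ v ∈ V, θ u * conj (θ v) * GG K M B ρ u v)) := by
    rw [Finset.sum_comm (f := fun u v => θ u * conj (θ v) * GG K M B ρ u v)]
    conv_rhs => enter [2, 1]; rw [Finset.sum_comm]
    simp only [map_sum, ← Finset.sum_add_distrib, map_mul, Complex.conj_conj]
    refine Finset.sum_congr rfl fun u _ => Finset.sum_congr rfl fun v _ => ?_
    rw [EE, DD]; ring
  rw [hid] at key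
  generalize ∑ u ∈ V, ∑ v ∈ V, θ u * conj (θ v) * EE K M B ρ u v = X at key hE
  generalize ∑ u ∈ V, ∑ v ∈ V, θ u * conj (θ v) * GG K M B ρ u v = Y at key hQ
  have h2 : ‖X + (Y + conj Y)‖ ≤
      ((8 * C + 22) * K * L ^ 2 + 2520 * K * B * L * R) * V.card := by
    have a1 := norm_add_le X (Y + conj Y)
    have a2 := norm_add_le Y (conj Y)
    rw [Complex.norm_conj] at a2
    linarith
  have h3 : ((V.card : ℝ) * (q ^ 3 / A)) ^ 2 ≤
      4 * K * (((8 * C + 22) * K * L ^ 2 + 2520 * K * B * L * R) * V.card) := by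
    refine key.trans ((mul_le_mul_of_nonneg_left (Complex.re_le_norm _)
      (Finset.sum_nonneg fun k _ => ok_nonneg K k)).trans ?_)
    exact mul_le_mul (sum_ok_le K) h2 (norm_nonneg _) (by positivity)
  rcases Nat.eq_zero_or_pos V.card with h0 | h0
  · rw [h0, Nat.cast_zero]; positivity
  have h0' : (0 : ℝ) < V.card := by exact_mod_cast h0
  have h4 : (V.card : ℝ) ≤
      4 * K * ((8 * C + 22) * K * L ^ 2 + 2520 * K * B * L * R) / (q ^ 3 / A) ^ 2 := by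
    rw [le_div_iff₀ (by positivity)]
    refine le_of_mul_le_mul_right ?_ h0'
    calc _ = ((V.card : ℝ) * (q ^ 3 / A)) ^ 2 := by ring
      _ ≤ _ := h3
      _ = _ := by ring
  refine h4.trans ?_
  calc _ = (32 * C + 88) * A ^ 2 * L ^ 2 * q ^ 2 +
          967680 * C * A ^ 4 * L ^ 3 * q ^ 2 * (B * √B / n0) := by
        rw [hR, h.sqrtK, ← h.hq]; field_simp; ring
    _ ≤ (10 ^ 6 * C + 88) * A ^ 4 * L ^ 3 * q ^ 2 +
          (10 ^ 6 * C + 88) * A ^ 4 * L ^ 3 * q ^ 2 * (B * √B / n0) := by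
        gcongr
        all_goals first | assumption | linarith
    _ = _ := by ring

end HeavyAAux

open HeavyAAux in
theorem heavyA (hc : CFS) (hf : F1S) (hs : SchurS) (hd : DualS) (hr : RowS) (hh : HmS)
    (hv : SieveS) : HeavyAS := by
  obtain ⟨C, hC, hf⟩ := hf
  obtain ⟨K0, hK0, hlog⟩ := exists_log_pow_le (16 * C) 1 (ε := 1 / 4) (by norm_num)
  refine ⟨2 * (10 ^ 6 * C + 88), K0, by positivity, ?_⟩
  intro K M B ρ A n0 a W hK hB hBM hM h0 h1 hρ hA1 hA hn ha hW hcard hl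
  have hK1 : (1 : ℝ) ≤ K := hK0.trans hK
  have hM1 : 1 ≤ M := hB.trans hBM
  have hMK : M ≤ K := (Nat.le_self_pow (by norm_num) M).trans hM
  set q : ℝ := (K : ℝ) ^ (1 / 4 : ℝ) with hqdef
  have hq1 : 1 ≤ q := Real.one_le_rpow hK1 (by norm_num)
  have hpow : ∀ n : ℕ, q ^ n = (K : ℝ) ^ (n / 4 : ℝ) := fun n => by
    rw [hqdef, ← Real.rpow_natCast, ← Real.rpow_mul (by linarith)]; congr 1; ring
  have hq : q ^ 4 = K := by rw [hpow]; norm_num
  have hq2 : √K = q ^ 2 := by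
    rw [← hq, show q ^ 4 = (q ^ 2) ^ 2 by ring, Real.sqrt_sq (by positivity)]
  have H : Hyp C q ρ A K M a W :=
    { hC := hC, hq1 := hq1, hq := hq, hlog := by simpa only [pow_one] using hlog K hK, hM1 := hM1
      hM := by
        refine le_of_pow_le_pow_left₀ (n := 4) (by norm_num) (by linarith) ?_
        rw [hq, ← pow_mul]; exact_mod_cast hM
      h0 := h0, h1 := h1, hρ := hρ, hA1 := hA1, hA := hA, ha := ha, hW := hW
      hcard := hq2 ▸ hcard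
      hl := fun u hu => by rw [hpow]; exact_mod_cast hl u hu
      hf := fun u => hf K M ρ u hM1 hMK h0 (by linarith) }
  set V := W.filter fun u => n0 ≤ ((W.filter fun v => v / (B : ℤ) = u / B).card : ℝ) with hV
  have hB' : (0 : ℤ) < B := by exact_mod_cast hB
  have hK' : (0 : ℤ) < K := by exact_mod_cast (show (0 : ℝ) < K by linarith)
  have hmap : ∀ u ∈ V, (u / (B : ℤ) / K).toNat ∈ Finset.range (M / B + 1) := fun u hu => by
    obtain ⟨a1, a2⟩ := hW u (Finset.mem_filter.1 hu).1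
    have a3 : u / (B : ℤ) / K ≤ (M / B : ℕ) := by
      rw [Int.ediv_ediv_of_nonneg hB'.le, mul_comm, ← Int.ediv_ediv_of_nonneg hK'.le]
      push_cast
      refine Int.ediv_le_ediv hB' (Int.ediv_le_of_le_mul hK' ?_)
      linarith
    rw [Finset.mem_range, Nat.lt_succ_iff, Int.toNat_le]; exact a3
  have hL := one_le_log_add_two hK1
  have hBr : (0 : ℝ) < B := by exact_mod_cast hB
  have hBM' : (B : ℝ) ≤ M := by exact_mod_cast hBM
  rw [Finset.card_eq_sum_card_fiberwise (f := fun u => (u / (B : ℤ) / K).toNat) hmap]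
  push_cast
  refine (Finset.sum_le_card_nsmul _ _ ((10 ^ 6 * C + 88) * A ^ 4 * Real.log (K + 2) ^ 3 * q ^ 2 *
      (1 + B * √B / n0)) fun r _ => ?_).trans ?_
  · refine H.range hc hs hd hr hh hv hB hBM hn
      ((Finset.filter_subset _ _).trans (Finset.filter_subset _ _))
      (fun u hu => (Finset.mem_filter.1 (Finset.mem_filter.1 hu).1).2) fun u hu v hv => ?_
    obtain ⟨hu1, hu2⟩ := Finset.mem_filter.1 hu
    obtain ⟨hv1, hv2⟩ := Finset.mem_filter.1 hv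
    have a1 : 0 ≤ u / (B : ℤ) / K := Int.ediv_nonneg
      (Int.ediv_nonneg (hW u (Finset.mem_filter.1 hu1).1).1 hB'.le) hK'.le
    have a2 : 0 ≤ v / (B : ℤ) / K := Int.ediv_nonneg
      (Int.ediv_nonneg (hW v (Finset.mem_filter.1 hv1).1).1 hB'.le) hK'.le
    have a3 : u / (B : ℤ) / K = v / (B : ℤ) / K := by omega
    have hK1' : 1 ≤ K := by omega
    have b1 := cell_mem hK1' (u / B)
    have b2 := cell_mem hK1' (v / B)
    rw [a3] at b1
    linarith [b1.2, b2.1]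
  · rw [Finset.card_range, nsmul_eq_mul, hq2]
    have h2 : ((M / B + 1 : ℕ) : ℝ) ≤ 2 * M / B := by
      have a1 : ((M / B : ℕ) : ℝ) ≤ M / B := Nat.cast_div_le
      have a2 : (1 : ℝ) ≤ M / B := by rwa [one_le_div hBr]
      push_cast
      rw [mul_div_assoc]; linarith
    calc _ ≤ 2 * M / B * ((10 ^ 6 * C + 88) * A ^ 4 * Real.log (K + 2) ^ 3 * q ^ 2 *
          (1 + B * √B / n0)) := by gcongr
      _ = _ := by field_simp

end Pool.Agent.Lib.MP_80d0cf_nt.Up
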