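import Mathlib

-- part Pool.Agent.Lib.MP_80d0cf_nt.Up.Defs
section

/-! Shared definitions for the upper bound on moments of zeta. -/

open Set MeasureTheory

namespace Pool.Agent.Lib.MP_80d0cf_nt.Up

/-- `e x = exp (2 pi i x)` -/
noncomputable def e (x : ℝ) : ℂ := Complex.exp (2 * Real.pi * Complex.I * x)

@[simp] lemma norm_e (x : ℝ) : ‖e x‖ = 1 := by
  rw [e, show 2 * (Real.pi : ℂ) * Complex.I * x = ((2 * Real.pi * x : ℝ) : ℂ) * Complex.I by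
    push_cast; ring, Complex.norm_exp_ofReal_mul_I]

lemma e_add (x y : ℝ) : e (x + y) = e x * e y := by
  rw [e, e, e, ← Complex.exp_add]; push_cast; ring_nf

@[simp] lemma e_zero : e 0 = 1 := by simp [e]

lemma conj_e (x : ℝ) : (starRingEnd ℂ) (e x) = e (-x) := by
  rw [e, e, ← Complex.exp_conj]; simp [map_ofNat]

lemma e_sub (x y : ℝ) : e (x - y) = e x * (starRingEnd ℂ) (e y) := by
  rw [conj_e, ← e_add, sub_eq_add_neg]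

lemma e_int (n : ℤ) : e n = 1 := by
  rw [e, show 2 * (Real.pi : ℂ) * Complex.I * ((n : ℝ) : ℂ) = n * (2 * Real.pi * Complex.I) by
    push_cast; ring, Complex.exp_int_mul_two_pi_mul_I]

lemma e_half_nat (k : ℕ) : e (-(k / 2)) = (-1) ^ k := by
  rw [e, show 2 * (Real.pi : ℂ) * Complex.I * ((-(k / 2) : ℝ) : ℂ)
      = k * (-(Real.pi * Complex.I)) by push_cast; ring, Complex.exp_nat_mul, Complex.exp_neg,
    Complex.exp_pi_mul_I]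
  norm_num

lemma hasDerivAt_e (x : ℝ) : HasDerivAt e (2 * Real.pi * Complex.I * e x) x := by
  have h := ((hasDerivAt_id x).ofReal_comp.const_mul (2 * (Real.pi : ℂ) * Complex.I)).cexp
  refine h.congr_deriv ?_
  simp [e, mul_comm]

lemma hasDerivAt_e_comp {φ : ℝ → ℝ} {φ1 x : ℝ} (h : HasDerivAt φ φ1 x) :
    HasDerivAt (fun y => e (φ y)) (2 * Real.pi * Complex.I * φ1 * e (φ x)) x := by
  have h2 := (h.ofReal_comp.const_mul (2 * (Real.pi : ℂ) * Complex.I)).cexp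
  refine h2.congr_deriv ?_
  simp [e, mul_comm]

@[fun_prop] lemma continuous_e : Continuous e := by unfold e; fun_prop

lemma norm_e_sub_e_le (x y : ℝ) : ‖e x - e y‖ ≤ 2 * Real.pi * |x - y| := by
  have := (convex_univ (𝕜 := ℝ) (E := ℝ)).norm_image_sub_le_of_norm_hasDerivWithin_le
    (f := e) (f' := fun x => 2 * Real.pi * Complex.I * e x) (C := 2 * Real.pi) (x := y) (y := x)
    (fun z _ => (hasDerivAt_e z).hasDerivWithinAt)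
    (fun z _ => by simp [abs_of_pos Real.pi_pos]) (mem_univ _) (mem_univ _)
  simpa using this

/-- amplitude data on `[a, b]` -/
structure Amp (a b S μ : ℝ) (ω ω1 : ℝ → ℂ) : Prop where
  der : ∀ x ∈ Icc a b, HasDerivAt ω (ω1 x) x
  b0 : ∀ x ∈ Icc a b, ‖ω x‖ ≤ S
  b1 : ∀ x ∈ Icc a b, ‖ω1 x‖ ≤ μ

/-- phase data on `[a, b]` -/
structure Ph (a b : ℝ) (φ φ1 φ2 : ℝ → ℝ) : Prop where
  d0 : ∀ x ∈ Icc a b, HasDerivAt φ (φ1 x) x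
  d1 : ∀ x ∈ Icc a b, HasDerivAt φ1 (φ2 x) x

/-- convex phase with controlled second and third derivative -/
structure Ph3 (a b l κ : ℝ) (φ φ1 φ2 φ3 : ℝ → ℝ) : Prop where
  ph : Ph a b φ φ1 φ2
  d2 : ∀ x ∈ Icc a b, HasDerivAt φ2 (φ3 x) x
  lo : ∀ x ∈ Icc a b, l ≤ φ2 x
  hi : ∀ x ∈ Icc a b, φ2 x ≤ κ * l
  h3 : ∀ x ∈ Icc a b, |φ3 x| * (b - a) ≤ κ * l

/-- the amplitude vanishes outside `(a, b)` -/
def Supp (a b : ℝ) (ω : ℝ → ℂ) : Prop := ∀ x, x ≤ a ∨ b ≤ x → ω x = 0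

/-- the finite set contains all integers of `(a, b)` -/
def Cov (s : Finset ℤ) (a b : ℝ) : Prop := ∀ n : ℤ, a < n → (n : ℝ) < b → n ∈ s

lemma sum_Icc_natCast {β : Type*} [AddCommMonoid β] (F : ℤ → β) (a b : ℕ) :
    ∑ k ∈ Finset.Icc a b, F k = ∑ n ∈ Finset.Icc (a : ℤ) b, F n := by
  refine Finset.sum_bij (fun k _ => (k : ℤ)) ?_ ?_ ?_ ?_
  · intro k hk; simp only [Finset.mem_Icc] at hk ⊢; omega
  · intro k _ l _ h; exact_mod_cast h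
  · intro n hn
    simp only [Finset.mem_Icc] at hn
    exact ⟨n.toNat, by simp only [Finset.mem_Icc]; omega, by omega⟩
  · intro k _; rfl

/-- the Fresnel constant -/
noncomputable def cF : ℂ :=
  Filter.limUnder Filter.atTop (fun y : ℝ => 2 * ∫ v in (0 : ℝ)..y, e (v ^ 2 / 2))

/-- clamp to the unit interval -/
noncomputable def cl (x : ℝ) : ℝ := max 0 (min 1 x)

/-- a once differentiable step from `0` on `x ≤ 0` to `1` on `x ≥ 1` -/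
noncomputable def st (x : ℝ) : ℝ := 3 * cl x ^ 2 - 2 * cl x ^ 3

/-- the derivative of `st` -/
noncomputable def st1 (x : ℝ) : ℝ := 6 * cl x * (1 - cl x)

lemma cl_nonneg (x : ℝ) : 0 ≤ cl x := le_max_left _ _
lemma cl_le_one (x : ℝ) : cl x ≤ 1 := max_le zero_le_one (min_le_left _ _)
lemma cl_of_nonpos {x : ℝ} (h : x ≤ 0) : cl x = 0 := by
  rw [cl, max_eq_left ((min_le_right _ _).trans h)]
lemma cl_of_one_le {x : ℝ} (h : 1 ≤ x) : cl x = 1 := by rw [cl, min_eq_left h]; norm_num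
lemma cl_of_mem {x : ℝ} (h0 : 0 ≤ x) (h1 : x ≤ 1) : cl x = x := by
  rw [cl, min_eq_right h1, max_eq_right h0]

lemma st_of_nonpos {x : ℝ} (h : x ≤ 0) : st x = 0 := by simp [st, cl_of_nonpos h]
lemma st_of_one_le {x : ℝ} (h : 1 ≤ x) : st x = 1 := by rw [st, cl_of_one_le h]; norm_num
lemma st1_of_nonpos {x : ℝ} (h : x ≤ 0) : st1 x = 0 := by simp [st1, cl_of_nonpos h]
lemma st1_of_one_le {x : ℝ} (h : 1 ≤ x) : st1 x = 0 := by simp [st1, cl_of_one_le h]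
lemma st_nonneg (x : ℝ) : 0 ≤ st x := by
  have := cl_nonneg x; have := cl_le_one x; rw [st]; nlinarith [sq_nonneg (cl x)]
lemma st_le_one (x : ℝ) : st x ≤ 1 := by
  have := cl_nonneg x; have := cl_le_one x; rw [st]
  nlinarith [mul_nonneg (sq_nonneg (1 - cl x)) (show 0 ≤ 1 + 2 * cl x by linarith)]
lemma st1_nonneg (x : ℝ) : 0 ≤ st1 x := by
  have := cl_nonneg x; have := cl_le_one x; rw [st1]; nlinarith
lemma st1_le_two (x : ℝ) : st1 x ≤ 2 := by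
  rw [st1]; nlinarith [sq_nonneg (2 * cl x - 1)]
lemma abs_st_le (x : ℝ) : |st x| ≤ 1 := by rw [abs_of_nonneg (st_nonneg x)]; exact st_le_one x
lemma abs_st1_le (x : ℝ) : |st1 x| ≤ 2 := by rw [abs_of_nonneg (st1_nonneg x)]; exact st1_le_two x

@[fun_prop] lemma continuous_cl : Continuous cl := by unfold cl; fun_prop
@[fun_prop] lemma continuous_st : Continuous st := by unfold st; fun_prop
@[fun_prop] lemma continuous_st1 : Continuous st1 := by unfold st1; fun_prop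

lemma hasDerivAt_st (x : ℝ) : HasDerivAt st (st1 x) x := by
  have hp : ∀ y : ℝ, HasDerivAt (fun y : ℝ => 3 * y ^ 2 - 2 * y ^ 3) (6 * y * (1 - y)) y := by
    intro y
    have := ((hasDerivAt_pow 2 y).const_mul 3).sub ((hasDerivAt_pow 3 y).const_mul 2)
    refine this.congr_deriv ?_
    norm_num; ring
  have hL : ∀ y ≤ (0 : ℝ), HasDerivWithinAt st (st1 y) (Iic 0) y := fun y hy => by
    rw [st1_of_nonpos hy]
    exact (hasDerivWithinAt_const y _ (0 : ℝ)).congr (fun z hz => st_of_nonpos hz) (st_of_nonpos hy)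
  have hR : ∀ y, (1 : ℝ) ≤ y → HasDerivWithinAt st (st1 y) (Ici 1) y := fun y hy => by
    rw [st1_of_one_le hy]
    exact (hasDerivWithinAt_const y _ (1 : ℝ)).congr (fun z hz => st_of_one_le hz) (st_of_one_le hy)
  have hM : ∀ y ∈ Icc (0 : ℝ) 1, HasDerivWithinAt st (st1 y) (Icc 0 1) y := fun y hy => by
    rw [st1, cl_of_mem hy.1 hy.2]
    exact (hp y).hasDerivWithinAt.congr (fun z hz => by rw [st, cl_of_mem hz.1 hz.2])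
      (by rw [st, cl_of_mem hy.1 hy.2])
  rcases lt_trichotomy x 0 with h | h | h
  · exact (hL x h.le).hasDerivAt (Iic_mem_nhds h)
  · subst h
    refine ((hL 0 le_rfl).union (hM 0 ⟨le_rfl, zero_le_one⟩)).hasDerivAt ?_
    rw [Iic_union_Icc_eq_Iic zero_le_one]; exact Iic_mem_nhds zero_lt_one
  · rcases lt_trichotomy x 1 with h1 | h1 | h1
    · exact (hM x ⟨h.le, h1.le⟩).hasDerivAt (Icc_mem_nhds h h1)
    · subst h1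
      refine ((hM 1 ⟨zero_le_one, le_rfl⟩).union (hR 1 le_rfl)).hasDerivAt ?_
      rw [Icc_union_Ici_eq_Ici zero_le_one]; exact Ici_mem_nhds zero_lt_one
    · exact (hR x h1.le).hasDerivAt (Ici_mem_nhds h1)

lemma monotone_st : Monotone st :=
  monotone_of_hasDerivAt_nonneg hasDerivAt_st st1_nonneg

/-! ### The kernel with frequencies close to square roots -/

/-- bump, equal to one on `[1, 3/2]`, zero outside `(1/2, 2)` -/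
noncomputable def Om0 (z : ℝ) : ℝ := st (2 * z - 1) * st (4 - 2 * z)

/-- derivative of `Om0` -/
noncomputable def Om1 (z : ℝ) : ℝ :=
  2 * st1 (2 * z - 1) * st (4 - 2 * z) - 2 * st (2 * z - 1) * st1 (4 - 2 * z)

lemma Om0_nonneg (z : ℝ) : 0 ≤ Om0 z := mul_nonneg (st_nonneg _) (st_nonneg _)
lemma Om0_le_one (z : ℝ) : Om0 z ≤ 1 := mul_le_one₀ (st_le_one _) (st_nonneg _) (st_le_one _)
lemma Om0_eq_zero {z : ℝ} (h : z ≤ 1 / 2 ∨ 2 ≤ z) : Om0 z = 0 := by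
  rcases h with h | h
  · rw [Om0, st_of_nonpos (by linarith), zero_mul]
  · rw [Om0, st_of_nonpos (x := 4 - 2 * z) (by linarith), mul_zero]
lemma Om1_eq_zero {z : ℝ} (h : z ≤ 1 / 2 ∨ 2 ≤ z) : Om1 z = 0 := by
  rcases h with h | h
  · rw [Om1, st_of_nonpos (x := 2 * z - 1) (by linarith), st1_of_nonpos (by linarith)]; ring
  · rw [Om1, st_of_nonpos (x := 4 - 2 * z) (by linarith),
      st1_of_nonpos (x := 4 - 2 * z) (by linarith)]; ring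
lemma Om0_eq_one {z : ℝ} (h1 : 1 ≤ z) (h2 : z ≤ 3 / 2) : Om0 z = 1 := by
  rw [Om0, st_of_one_le (by linarith), st_of_one_le (by linarith), one_mul]
lemma abs_Om1_le (z : ℝ) : |Om1 z| ≤ 4 := by
  have h1 := mul_nonneg (st1_nonneg (2 * z - 1)) (st_nonneg (4 - 2 * z))
  have h2 := mul_nonneg (st_nonneg (2 * z - 1)) (st1_nonneg (4 - 2 * z))
  have h3 := mul_le_mul (st1_le_two (2 * z - 1)) (st_le_one (4 - 2 * z)) (st_nonneg _) two_pos.le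
  have h4 := mul_le_mul (st_le_one (2 * z - 1)) (st1_le_two (4 - 2 * z)) (st1_nonneg _) one_pos.le
  rw [Om1, abs_le]; constructor <;> nlinarith
lemma hasDerivAt_Om0 (z : ℝ) : HasDerivAt Om0 (Om1 z) z := by
  have h1 := (hasDerivAt_st (2 * z - 1)).comp z (((hasDerivAt_id z).const_mul 2).sub_const 1)
  have h2 := (hasDerivAt_st (4 - 2 * z)).comp z (((hasDerivAt_id z).const_mul 2).const_sub 4)
  refine (h1.mul h2).congr_deriv ?_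
  simp [Om1]; ring
@[fun_prop] lemma continuous_Om0 : Continuous Om0 := by unfold Om0; fun_prop

/-- `sqrt (x / K)` -/
noncomputable def zk (K x : ℝ) : ℝ := √(x / K)

/-- the frequencies -/
noncomputable def yk (K : ℕ) (ρ : ℝ) (k : ℕ) : ℝ := (zk K k - ρ * zk K k ^ 3) / 8

/-- the weights of the Gram kernel -/
noncomputable def ok (K k : ℕ) : ℝ := Om0 (zk K k)

/-- abstract exponential sum -/
noncomputable def Sk (s : Finset ℕ) (a : ℕ → ℂ) (y : ℕ → ℝ) (u : ℝ) : ℂ :=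
  ∑ k ∈ s, a k * e (u * y k)

/-- abstract Gram kernel -/
noncomputable def Dk (s : Finset ℕ) (o y : ℕ → ℝ) (u : ℝ) : ℂ :=
  ∑ k ∈ s, (o k : ℂ) * e (u * y k)

/-- the Gram kernel -/
noncomputable def DD (K : ℕ) (ρ u : ℝ) : ℂ := Dk (Finset.Icc 1 (4 * K)) (ok K) (yk K ρ) u

/-- the sum whose large values are counted -/
noncomputable def SK (K : ℕ) (ρ : ℝ) (a : ℕ → ℂ) (u : ℝ) : ℂ :=
  Sk (Finset.Ico K (2 * K)) a (yk K ρ) u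

/-- stationary point -/
noncomputable def zz (K m u : ℝ) : ℝ := u / (16 * K * m)

/-- dual phase -/
noncomputable def gm (K ρ m u : ℝ) : ℝ := u ^ 2 / (256 * K * m) - ρ * (u / 8) * zz K m u ^ 3

/-- dual amplitude -/
noncomputable def am (K m u : ℝ) : ℂ :=
  (starRingEnd ℂ) cF * ((√(2 * K / m) * zz K m u * Om0 (zz K m u) : ℝ) : ℂ)

/-- derivative of the dual amplitude in `u` -/
noncomputable def am1 (K m u : ℝ) : ℂ :=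
  (starRingEnd ℂ) cF *
    ((√(2 * K / m) * (Om0 (zz K m u) + zz K m u * Om1 (zz K m u)) / (16 * K * m) : ℝ) : ℂ)

/-- dual term -/
noncomputable def mainT (K ρ m u : ℝ) : ℂ := am K m u * e (gm K ρ m u)

/-- dual sum -/
noncomputable def Hp (K M : ℕ) (ρ u : ℝ) : ℂ := ∑ m ∈ Finset.Icc 1 M, mainT K ρ m u

/-- decay weight -/
noncomputable def wt (P1 P : ℝ) : ℝ := min (1 / √(1 + P)) (√P1 / (1 + P))

/-- approximate additive energy -/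
noncomputable def En (W : Finset ℤ) (P : ℝ) : ℕ :=
  ((W ×ˢ W ×ˢ W ×ˢ W).filter
    fun q => |((q.1 - q.2.1 : ℤ) : ℝ) - ((q.2.2.1 - q.2.2.2 : ℤ) : ℝ)| ≤ P).card

/-! ### Families of sums with the phases of Atkinson -/

noncomputable def XX (k τ : ℝ) : ℝ := √(1 / 4 + τ / k)

noncomputable def Lam (k τ : ℝ) : ℝ := Real.log ((XX k τ + 1 / 2) / (XX k τ - 1 / 2))

noncomputable def ff (k τ : ℝ) : ℝ := τ * Lam k τ + k * XX k τ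

/-- slowly varying coefficients -/
def Fam (T B : ℝ) (K : ℕ) (a a1 : ℕ → ℝ → ℂ) : Prop :=
  ∀ k ∈ Finset.Ico K (2 * K), Amp T (4 * T) B (B / T) (a k) (a1 k)

noncomputable def SS (K : ℕ) (a : ℕ → ℝ → ℂ) (τ : ℝ) : ℂ :=
  ∑ k ∈ Finset.Ico K (2 * K), a k τ * e (ff k τ)

/-- measure of a level set inside `[a, b]` -/
noncomputable def lev (a b : ℝ) (F : ℝ → ℂ) (l : ℝ) : ℝ :=
  volume.real {τ | τ ∈ Icc a b ∧ l ≤ ‖F τ‖}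

lemma XX_sq {k τ : ℝ} (hk : 0 < k) (hτ : 0 < τ) : XX k τ ^ 2 = 1 / 4 + τ / k :=
  Real.sq_sqrt (by positivity)

lemma half_lt_XX {k τ : ℝ} (hk : 0 < k) (hτ : 0 < τ) : 1 / 2 < XX k τ := by
  have : 0 < τ / k := by positivity
  exact Real.lt_sqrt_of_sq_lt (by linarith)

lemma hasDerivAt_XX {k τ : ℝ} (hk : 0 < k) (hτ : 0 < τ) :
    HasDerivAt (XX k) (1 / (2 * k * XX k τ)) τ := by
  have h := (((hasDerivAt_id τ).div_const k).const_add (1 / 4)).sqrt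
    (by simp only [id]; positivity)
  refine h.congr_deriv ?_
  have := half_lt_XX hk hτ
  simp only [id, XX] at this ⊢
  field_simp

lemma hasDerivAt_Lam {k τ : ℝ} (hk : 0 < k) (hτ : 0 < τ) :
    HasDerivAt (Lam k) (-(1 / (2 * τ * XX k τ))) τ := by
  have hX := half_lt_XX hk hτ
  have hs := XX_sq hk hτ
  have h1 := hasDerivAt_XX hk hτ
  have hm : XX k τ - 1 / 2 ≠ 0 := by linarith
  have hp : XX k τ + 1 / 2 ≠ 0 := by linarith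
  have h := ((h1.add_const (1 / 2)).div (h1.sub_const (1 / 2)) hm).log
    (div_ne_zero hp hm)
  refine h.congr_deriv ?_
  have h0 : XX k τ ≠ 0 := by linarith
  have hτ' : τ = k * ((XX k τ - 1 / 2) * (XX k τ + 1 / 2)) := by
    have : τ / k * k = τ := by field_simp
    nlinarith
  simp only [Pi.div_apply]
  generalize XX k τ = X at *
  rw [hτ']
  field_simp
  ring

lemma hasDerivAt_ff {k τ : ℝ} (hk : 0 < k) (hτ : 0 < τ) : HasDerivAt (ff k) (Lam k τ) τ := by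
  have hX := half_lt_XX hk hτ
  have h := ((hasDerivAt_id τ).mul (hasDerivAt_Lam hk hτ)).add
    ((hasDerivAt_XX hk hτ).const_mul k)
  refine h.congr_deriv ?_
  have h0 : XX k τ ≠ 0 := by linarith
  simp only [id]
  field_simp
  ring

/-! ### Pieces of zeta -/

/-- cutoff, one on `x ≤ 1`, zero on `x ≥ 2` -/
noncomputable def th (x : ℝ) : ℝ := st (2 - x)

/-- dyadic weight, zero outside `(1/2, 2)` -/
noncomputable def wN (x : ℝ) : ℝ := th x - th (2 * x)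

/-- dyadic piece of zeta at height `2 pi τ` -/
noncomputable def DN (N : ℕ) (τ : ℝ) : ℂ :=
  ∑ n ∈ Finset.Icc 1 (2 * N), ((wN (n / N) / √n : ℝ) : ℂ) * e (-(τ * Real.log n))

/-- modified weight -/
noncomputable def ws (x : ℝ) : ℝ := wN x * Real.exp (Real.pi * Real.log x ^ 2)

/-- modified coefficient -/
noncomputable def cc (N x : ℝ) : ℝ := ws (x / N) / √x

/-- modified dyadic piece -/
noncomputable def Ds (N : ℕ) (τ : ℝ) : ℂ :=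
  ∑ n ∈ Finset.Icc 1 (2 * N), (cc N n : ℂ) * e (-(τ * Real.log n))

/-- Gaussian mean square at scale `G` -/
noncomputable def JJ (N : ℕ) (G τ : ℝ) : ℝ :=
  ∫ t : ℝ, Real.exp (-(Real.pi * (t - τ) ^ 2 / G ^ 2)) * ‖Ds N t‖ ^ 2

/-- off-diagonal amplitude -/
noncomputable def omh (N G h x : ℝ) : ℝ :=
  cc N x * cc N (x + h) * Real.exp (-(Real.pi * G ^ 2 * Real.log (1 + h / x) ^ 2))

/-- off-diagonal sum -/
noncomputable def OD (N : ℕ) (G τ : ℝ) : ℂ :=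
  ∑ h ∈ Finset.Icc 1 (2 * N), ∑ n ∈ Finset.Icc 1 (2 * N),
    (omh N G h n : ℂ) * e (τ * Real.log (1 + h / n))

/-- divisor sum in the dual coefficient -/
noncomputable def bk (N : ℝ) (k : ℕ) (τ : ℝ) : ℝ :=
  ∑ h ∈ k.divisors, ws (h * (XX k τ - 1 / 2) / N) * ws (h * (XX k τ + 1 / 2) / N)

/-- dual coefficient -/
noncomputable def mk (N G : ℝ) (k : ℕ) (τ : ℝ) : ℂ :=
  (-1) ^ k * cF *
    ((Real.exp (-(Real.pi * G ^ 2 * Lam k τ ^ 2)) * bk N k τ / √(2 * k * XX k τ) : ℝ) : ℂ)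

lemma wN_eq_zero {x : ℝ} (h : x ≤ 1 / 2 ∨ 2 ≤ x) : wN x = 0 := by
  rcases h with h | h
  · rw [wN, th, th, st_of_one_le (by linarith), st_of_one_le (by linarith), sub_self]
  · rw [wN, th, th, st_of_nonpos (by linarith), st_of_nonpos (by linarith), sub_self]

lemma abs_wN_le (x : ℝ) : |wN x| ≤ 1 := by
  have := st_nonneg (2 - x); have := st_le_one (2 - x)
  have := st_nonneg (2 - 2 * x); have := st_le_one (2 - 2 * x)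
  rw [wN, th, th, abs_le]; constructor <;> linarith

lemma ws_eq_zero {x : ℝ} (h : x ≤ 1 / 2 ∨ 2 ≤ x) : ws x = 0 := by
  rw [ws, wN_eq_zero h, zero_mul]

end Pool.Agent.Lib.MP_80d0cf_nt.Up
end

-- part Pool.Agent.Lib.MP_80d0cf_nt.Up.Spec
section

/-! Statements of the steps of the proof. Every step is proved in its own file as an implication
between these statements. -/

open Set MeasureTheory ComplexConjugate

namespace Pool.Agent.Lib.MP_80d0cf_nt.Up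

/-! ### Oscillatory integrals -/

/-- integration by parts with a comparison function -/
def IbpS : Prop := ∀ (a b : ℝ) (ω ω1 : ℝ → ℂ) (φ φ1 φ2 B B1 : ℝ → ℝ), a ≤ b →
  (∀ x ∈ Icc a b, HasDerivAt ω (ω1 x) x) → Ph a b φ φ1 φ2 → (∀ x ∈ Icc a b, φ1 x ≠ 0) →
  (∀ x ∈ Icc a b, HasDerivAt B (B1 x) x) →
  (∀ x ∈ Icc a b, ‖ω1 x‖ / |φ1 x| + ‖ω x‖ * |φ2 x| / φ1 x ^ 2 ≤ B1 x) →
  ‖∫ x in a..b, ω x * e (φ x)‖ ≤ ‖ω a‖ / |φ1 a| + ‖ω b‖ / |φ1 b| + (B b - B a)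

/-- first derivative test, monotone derivative -/
def Fd1S : Prop := ∀ (a b S μ Y : ℝ) (ω ω1 : ℝ → ℂ) (φ φ1 φ2 : ℝ → ℝ), a ≤ b →
  Amp a b S μ ω ω1 → Ph a b φ φ1 φ2 → 0 < Y → (∀ x ∈ Icc a b, Y ≤ |φ1 x|) →
  ((∀ x ∈ Icc a b, 0 ≤ φ2 x) ∨ (∀ x ∈ Icc a b, φ2 x ≤ 0)) →
  ‖∫ x in a..b, ω x * e (φ x)‖ ≤ (4 * S + (b - a) * μ) / Y

/-- first derivative test, bounded second derivative -/
def Fd2S : Prop := ∀ (a b S μ Y Λ : ℝ) (ω ω1 : ℝ → ℂ) (φ φ1 φ2 : ℝ → ℝ), a ≤ b →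
  Amp a b S μ ω ω1 → Ph a b φ φ1 φ2 → 0 < Y → (∀ x ∈ Icc a b, Y ≤ |φ1 x|) →
  (∀ x ∈ Icc a b, |φ2 x| ≤ Λ) →
  ‖∫ x in a..b, ω x * e (φ x)‖ ≤ 2 * S / Y + (b - a) * (μ / Y + S * Λ / Y ^ 2)

/-- second derivative test -/
def SdS : Prop := ∀ (a b S μ l : ℝ) (ω ω1 : ℝ → ℂ) (φ φ1 φ2 : ℝ → ℝ), a ≤ b →
  Amp a b S μ ω ω1 → Ph a b φ φ1 φ2 → 0 < l →
  ((∀ x ∈ Icc a b, l ≤ φ2 x) ∨ (∀ x ∈ Icc a b, φ2 x ≤ -l)) →
  ‖∫ x in a..b, ω x * e (φ x)‖ ≤ (12 * S + 2 * (b - a) * μ) / √l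

/-- the Fresnel constant -/
def CFS : Prop :=
  ‖cF‖ ≤ 10 ∧ ∀ y : ℝ, 0 < y → ‖cF - 2 * ∫ v in (0 : ℝ)..y, e (v ^ 2 / 2)‖ ≤ 8 / y

/-- stationary phase with a stationary point -/
def Sp1S : Prop := ∀ κ : ℝ, 1 ≤ κ → ∃ C : ℝ, 0 < C ∧
  ∀ (a b l μ Z x0 : ℝ) (ω ω1 : ℝ → ℂ) (φ φ1 φ2 φ3 : ℝ → ℝ), a ≤ b → 0 < l →
  (∀ x ∈ Icc a b, HasDerivAt ω (ω1 x) x) → (∀ x ∈ Icc a b, ‖ω1 x‖ ≤ μ) → ω a = 0 → ω b = 0 →
  Ph3 a b l κ φ φ1 φ2 φ3 → 3 ≤ Z → (b - a) * √l ≤ Z → x0 ∈ Icc a b → φ1 x0 = 0 →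
  ‖(∫ x in a..b, ω x * e (φ x)) - ω x0 * e (φ x0) * cF / (√(φ2 x0) : ℝ)‖ ≤
    C * (μ / l * Real.log Z)

/-- stationary phase without a stationary point -/
def Sp2S : Prop := ∀ κ : ℝ, 1 ≤ κ → ∃ C : ℝ, 0 < C ∧
  ∀ (a b l μ Z : ℝ) (ω ω1 : ℝ → ℂ) (φ φ1 φ2 φ3 : ℝ → ℝ), a ≤ b → 0 < l →
  (∀ x ∈ Icc a b, HasDerivAt ω (ω1 x) x) → (∀ x ∈ Icc a b, ‖ω1 x‖ ≤ μ) → ω a = 0 → ω b = 0 →
  Ph3 a b l κ φ φ1 φ2 φ3 → 3 ≤ Z → (b - a) * √l ≤ Z → (∀ x ∈ Icc a b, φ1 x ≠ 0) →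
  ‖∫ x in a..b, ω x * e (φ x)‖ ≤ C * (μ / l * Real.log Z)

/-! ### Exponential sums -/

/-- truncated Poisson summation -/
def PsS : Prop := ∃ C : ℝ, 0 < C ∧
  ∀ (a b S μ Y Λ Z : ℝ) (ω ω1 : ℝ → ℂ) (φ φ1 φ2 : ℝ → ℝ) (l1 : ℕ) (s : Finset ℤ), a ≤ b →
  Amp a b S μ ω ω1 → Supp a b ω → Ph a b φ φ1 φ2 → (∀ x ∈ Icc a b, |φ1 x| ≤ Y) →
  (∀ x ∈ Icc a b, |φ2 x| ≤ Λ) → 2 * Y ≤ l1 + 1 → 3 ≤ Z → b - a ≤ Z → S ≤ Z → μ ≤ Z →
  (l1 : ℝ) + 1 ≤ Z → Cov s a b →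
  ‖∑ n ∈ s, ω n * e (φ n) -
      ∑ l ∈ Finset.Icc (-(l1 : ℤ)) l1, ∫ x in a..b, ω x * e (φ x + l * x)‖ ≤
    C * ((b - a) * μ * Real.log Z + (b - a) * S * Λ / (l1 + 1) + 1 / Z)

/-- the B process -/
def BpS : Prop := ∀ κ : ℝ, 1 ≤ κ → ∃ C : ℝ, 0 < C ∧
  ∀ (a b l μ Y Z : ℝ) (ω ω1 : ℝ → ℂ) (φ φ1 φ2 φ3 : ℝ → ℝ) (s t : Finset ℤ) (mn : ℤ → ℂ),
  a ≤ b → 0 < l → (∀ x ∈ Icc a b, HasDerivAt ω (ω1 x) x) → (∀ x ∈ Icc a b, ‖ω1 x‖ ≤ μ) →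
  Supp a b ω → Ph3 a b l κ φ φ1 φ2 φ3 → (∀ x ∈ Icc a b, |φ1 x| ≤ Y) → (b - a) * l ≤ Y + 1 →
  3 ≤ Z → b - a ≤ Z → μ ≤ Z → Y ≤ Z → Cov s a b →
  (∀ m : ℤ, ∀ x ∈ Icc a b, φ1 x + m = 0 →
    mn m = ω x * e (φ x + m * x) * cF / (√(φ2 x) : ℝ)) →
  (∀ m : ℤ, (∀ x ∈ Icc a b, φ1 x + m ≠ 0) → mn m = 0) → (∀ m ∉ t, mn m = 0) →
  ‖∑ n ∈ s, ω n * e (φ n) - ∑ m ∈ t, mn m‖ ≤
    C * (((Y + 1) * μ / l + (b - a) * μ) * Real.log Z + 1 / Z)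

/-- derivative test of order `r + 2` -/
def WeylS : Prop := ∀ (r : ℕ) (θ κ : ℝ), 0 < θ → θ ≤ 1 → 1 ≤ κ → ∃ C δ : ℝ, 0 < C ∧ 0 < δ ∧
  ∀ (a b X l : ℝ) (ω ω1 : ℝ → ℂ) (g : ℕ → ℝ → ℝ) (s : Finset ℤ), 1 ≤ X → b - a ≤ X →
  Amp a b 1 (κ / X) ω ω1 → Supp a b ω →
  (∀ j ≤ r + 1, ∀ x ∈ Icc a b, HasDerivAt (g j) (g (j + 1) x) x) →
  (∀ x ∈ Icc a b, l ≤ g (r + 2) x ∧ g (r + 2) x ≤ κ * l) →
  X ^ (-2 + θ) ≤ κ * l → l ≤ κ * X ^ (-θ) → Cov s a b →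
  ‖∑ n ∈ s, ω n * e (g 0 n)‖ ≤ C * X ^ (1 - δ)

/-! ### Linear algebra and counting -/

def SchurS : Prop := ∀ (W : Finset ℤ) (A : ℤ → ℤ → ℂ) (θ : ℤ → ℂ) (L : ℝ),
  (∀ u ∈ W, ∑ v ∈ W, ‖A u v‖ ≤ L) → (∀ v ∈ W, ∑ u ∈ W, ‖A u v‖ ≤ L) →
  ‖∑ u ∈ W, ∑ v ∈ W, θ u * conj (θ v) * A u v‖ ≤ L * ∑ u ∈ W, ‖θ u‖ ^ 2

def CubicS : Prop := ∀ (W : Finset ℤ) (H : ℤ → ℤ → ℂ) (θ : ℤ → ℂ) (L q : ℝ),
  (∀ u ∈ W, ∀ v ∈ W, H u v = conj (H v u)) → 0 ≤ L → 0 ≤ q →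
  (∀ η : ℤ → ℂ, -(L * ∑ u ∈ W, ‖η u‖ ^ 2) ≤ (∑ u ∈ W, ∑ v ∈ W, η u * conj (η v) * H u v).re) →
  0 < ∑ u ∈ W, ‖θ u‖ ^ 2 →
  q * ∑ u ∈ W, ‖θ u‖ ^ 2 ≤ (∑ u ∈ W, ∑ v ∈ W, θ u * conj (θ v) * H u v).re →
  q ^ 3 ≤ (∑ u ∈ W, ∑ v ∈ W, ∑ w ∈ W, H u v * H v w * H w u).re +
    L * ∑ u ∈ W, ∑ v ∈ W, ‖H u v‖ ^ 2

def PsdS : Prop := ∀ (s : Finset ℕ) (o y : ℕ → ℝ) (W : Finset ℤ) (η : ℤ → ℂ),
  (∀ k ∈ s, 0 ≤ o k) →
  0 ≤ (∑ u ∈ W, ∑ v ∈ W, η u * conj (η v) * Dk s o y ((u : ℝ) - v)).re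

def DualS : Prop := ∀ (s' s : Finset ℕ) (o y : ℕ → ℝ) (a : ℕ → ℂ) (W : Finset ℤ) (l : ℝ),
  s' ⊆ s → (∀ k ∈ s, 0 ≤ o k) → (∀ k ∈ s', ‖a k‖ ≤ o k) → 0 ≤ l →
  (∀ u ∈ W, l ≤ ‖Sk s' a y u‖) →
  ∃ θ : ℤ → ℂ, (∀ u, ‖θ u‖ = 1) ∧ ((W.card : ℝ) * l) ^ 2 ≤
    (∑ k ∈ s, o k) * (∑ u ∈ W, ∑ v ∈ W, θ u * conj (θ v) * Dk s o y ((u : ℝ) - v)).re

def RowS : Prop := ∀ (W : Finset ℤ) (u : ℤ) (U : ℝ), 0 ≤ U → (∀ v ∈ W, |(u : ℝ) - v| ≤ U) →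
  ∑ v ∈ W, 1 / (1 + |(u : ℝ) - v|) ≤ 2 * (1 + Real.log (U + 1))

def HmS : Prop :=
  ∀ (s' s : Finset ℕ) (o y : ℕ → ℝ) (a : ℕ → ℂ) (W : Finset ℤ) (l c1 c2 U O : ℝ),
  s' ⊆ s → (∀ k ∈ s, 0 ≤ o k) → (∀ k ∈ s', ‖a k‖ ≤ o k) → ∑ k ∈ s, o k ≤ O → 0 < l → 0 ≤ c1 →
  0 ≤ U → (∀ u ∈ W, l ≤ ‖Sk s' a y u‖) → (∀ u ∈ W, ∀ v ∈ W, |(u : ℝ) - v| ≤ U) →
  (∀ u ∈ W, ∀ v ∈ W, ‖Dk s o y ((u : ℝ) - v)‖ ≤ c1 / (1 + |(u : ℝ) - v|) + c2) →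
  2 * O * c2 ≤ l ^ 2 → (W.card : ℝ) ≤ 4 * O * c1 * (1 + Real.log (U + 1)) / l ^ 2

def SieveS : Prop :=
  ∀ (t : Finset ℕ) (η : ℕ → ℝ) (M B : ℕ) (σ : ℝ) (c : Finset ℤ) (v : ℤ) (θ : ℤ → ℂ),
  0 < σ → t ⊆ Finset.Icc 1 M →
  (∀ m ∈ t, ∀ m' ∈ t, σ * |(m : ℝ) - m'| ≤ |η m - η m'| ∧ |η m - η m'| ≤ 1 / 2) →
  (∀ d ∈ c, v ≤ d ∧ d < v + B) →
  ∑ m ∈ t, ‖∑ d ∈ c, θ d * e (d * η m)‖ ^ 2 ≤
    (B + (1 + Real.log M) / σ) * ∑ d ∈ c, ‖θ d‖ ^ 2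

def EnergyS : Prop :=
  ∀ (s' s : Finset ℕ) (o y : ℕ → ℝ) (a : ℕ → ℂ) (W : Finset ℤ) (P : ℕ) (l c1 E3 U N1 X1 X2 : ℝ),
  s' ⊆ s → (∀ k ∈ s, 0 ≤ o k) → (∀ k ∈ s', ‖a k‖ ≤ o k) → 0 < l → 0 ≤ c1 → 0 ≤ E3 → 1 ≤ P →
  (∀ u ∈ W, l ≤ ‖Sk s' a y u‖) → (∀ u ∈ W, ∀ v ∈ W, |(u : ℝ) - v| ≤ U) →
  (∀ v : ℤ, |(v : ℝ)| ≤ 2 * U + 2 * P → ‖Dk s o y v‖ ^ 2 ≤ c1 / (1 + |(v : ℝ)|) ^ 2 + E3) →
  (((W ×ˢ W).filter fun q => |(q.1 : ℝ) - q.2| ≤ 2 * P).card : ℝ) ≤ N1 →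
  8 * c1 * P * N1 + 4 * P ^ 2 * (W.card : ℝ) ^ 2 * E3 ≤ X1 →
  4 * P ^ 2 * (W.card : ℝ) ^ 4 * E3 ≤ X2 →
  (P : ℝ) * En W P ≤ 4 * c1 * X1 / l ^ 4 + √(X1 * X2) / l ^ 2

def CountS : Prop := ∀ (W : Finset ℤ) (α β P : ℝ), 0 < α → α ≤ 1 → 0 < β → β ≤ 1 → 0 < P →
  (((W ×ˢ W ×ˢ W ×ˢ W).filter fun q =>
    |α * ((q.1 : ℝ) - q.2.1) - β * ((q.2.2.1 : ℝ) - q.2.2.2)| ≤ P).card : ℝ) ≤
    15 * En W P / √(α * β)

/-! ### The kernel -/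

def F1S : Prop := ∃ C : ℝ, 0 < C ∧ ∀ (K M : ℕ) (ρ u : ℝ), 1 ≤ M → M ≤ K → 0 ≤ ρ → ρ ≤ 1 →
  0 ≤ u → u ≤ 8 * K * M →
  ‖DD K ρ u - Hp K M ρ u‖ ≤ C * Real.log (K + 2) * (K / (1 + u) + 1 + ρ * K * M)

def HmaxS : Prop := ∃ C δ : ℝ, 0 < C ∧ 0 < δ ∧ δ ≤ 1 / 4 ∧ ∀ (K M : ℕ) (ρ u : ℝ), 1 ≤ M →
  M ^ 16 ≤ K → K ≤ (2 * M) ^ 16 → 0 ≤ ρ → ρ ≤ 1 / 10000 → u ≤ 8 * K * M →
  ‖Hp K M ρ u‖ ≤ C * √(K * M) * (M : ℝ) ^ (-δ)

def JbS : Prop := ∃ C : ℝ, 0 < C ∧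
  ∀ (K M m1 m3 : ℕ) (ρ P1 : ℝ) (u2 u2' u3 u3' : ℤ) (s : Finset ℤ), M ≤ K →
  m1 ∈ Finset.Icc 1 M → m3 ∈ Finset.Icc 1 M → 0 ≤ ρ → ρ ≤ 1 / 10000 → 1 ≤ P1 →
  4800 * ρ * K * M ≤ P1 → Cov s u2 u3 →
  ‖∑ x ∈ s, mainT K ρ m1 ((x : ℝ) - u2) * conj (mainT K ρ m1 ((x : ℝ) - u2')) *
      (mainT K ρ m3 ((u3 : ℝ) - x) * conj (mainT K ρ m3 ((u3' : ℝ) - x)))‖ ≤
    C * ((K : ℝ) ^ 2 / (m1 * m3)) *
      (K * min (m1 : ℝ) m3 * wt P1 |min (m1 : ℝ) m3 / m1 * ((u2' : ℝ) - u2) -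
        min (m1 : ℝ) m3 / m3 * ((u3 : ℝ) - u3')| + Real.log (K + 2))

def T1S : Prop := ∃ C : ℝ, 0 < C ∧ ∀ (K M : ℕ) (ρ P1 Hm MM : ℝ) (W : Finset ℤ), 1 ≤ M → M ≤ K →
  0 ≤ ρ → ρ ≤ 1 / 10000 → 1 ≤ P1 → 4800 * ρ * K * M ≤ P1 → (∀ u ∈ W, 0 ≤ u ∧ u < K * M) →
  (∀ u ∈ W, ∀ v ∈ W, ‖Hp K M ρ ((u : ℝ) - v)‖ ≤ Hm) →
  (∀ j : ℕ, 2 ^ j ≤ 4 * K * M → wt P1 (2 ^ j) * En W (2 ^ j) ≤ MM) →
  ‖∑ x ∈ W, ∑ a ∈ W, ∑ c ∈ W,
      Hp K M ρ ((x : ℝ) - a) * Hp K M ρ ((c : ℝ) - x) * conj (Hp K M ρ ((c : ℝ) - a))‖ ^ 2 ≤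
    C * W.card * Hm ^ 2 * (M : ℝ) ^ 3 * Real.log (K + 2) ^ 3 *
      ((K : ℝ) ^ 3 * MM + (K : ℝ) ^ 2 * (W.card : ℝ) ^ 4)

/-! ### Discrete large values -/

def HeavyAS : Prop := ∃ C K0 : ℝ, 0 < C ∧
  ∀ (K M B : ℕ) (ρ A n0 : ℝ) (a : ℕ → ℂ) (W : Finset ℤ), K0 ≤ K → 1 ≤ B → B ≤ M → M ^ 16 ≤ K →
  0 ≤ ρ → ρ ≤ 1 / 10000 → ρ * K ≤ A → 1 ≤ A → A ≤ M → 0 < n0 → (∀ k, ‖a k‖ ≤ 1) →
  (∀ u ∈ W, 0 ≤ u ∧ u < K * M) → (W.card : ℝ) ≤ √K * M →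
  (∀ u ∈ W, (K : ℝ) ^ (3 / 4 : ℝ) / A ≤ ‖SK K ρ a u‖) →
  ((W.filter fun u => n0 ≤ ((W.filter fun v => v / (B : ℤ) = u / B).card : ℝ)).card : ℝ) ≤
    C * A ^ 4 * Real.log (K + 2) ^ 3 * √K * M * (1 / B + √B / n0)

def HeavyS : Prop := ∃ C K0 : ℝ, 0 < C ∧
  ∀ (K M : ℕ) (ρ A Γ : ℝ) (a : ℕ → ℂ) (W : Finset ℤ), K0 ≤ K → 1 ≤ M → M ^ 16 ≤ K →
  0 ≤ ρ → ρ ≤ 1 / 10000 → ρ * K ≤ A → 1 ≤ A → A ≤ M → 1 ≤ Γ → (∀ k, ‖a k‖ ≤ 1) →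
  (∀ u ∈ W, 0 ≤ u ∧ u < K * M) → (W.card : ℝ) ≤ √K * M →
  (∀ u ∈ W, (K : ℝ) ^ (3 / 4 : ℝ) / A ≤ ‖SK K ρ a u‖) →
  ∃ W1 ⊆ W, (W.card : ℝ) - W1.card ≤ C * A ^ 4 * Real.log (K + 2) ^ 4 * √K * M / Γ ∧
    ∀ P : ℕ, 1 ≤ P → ∀ u ∈ W1,
      ((W1.filter fun v : ℤ => |(u : ℝ) - v| ≤ P).card : ℝ) ≤ 9 * Γ * (√P + P / √M)

def DhmS : Prop := ∃ C : ℝ, 0 < C ∧ ∀ (K M : ℕ) (ρ l : ℝ) (a : ℕ → ℂ) (W : Finset ℤ),
  1 ≤ M → M ≤ K → 0 ≤ ρ → ρ * K * M ≤ 1 → 0 < l → (∀ k, ‖a k‖ ≤ 1) →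
  (∀ u ∈ W, 0 ≤ u ∧ u < K * M) → (∀ u ∈ W, l ≤ ‖SK K ρ a u‖) →
  C * K * √(K * M) * Real.log (K + 2) ≤ l ^ 2 →
  (W.card : ℝ) ≤ C * Real.log (K + 2) ^ 2 * (K : ℝ) ^ 2 / l ^ 2

def LvtS : Prop := ∃ α K0 : ℝ, 0 < α ∧ α ≤ 1 / 100 ∧
  ∀ (K M : ℕ) (ρ : ℝ) (a : ℕ → ℂ) (W : Finset ℤ), K0 ≤ K → M ^ 16 ≤ K → K ≤ (2 * M) ^ 16 →
  0 ≤ ρ → ρ ≤ (K : ℝ) ^ (α - 1) → (∀ k, ‖a k‖ ≤ 1) → (∀ u ∈ W, 0 ≤ u ∧ u < K * M) →
  (∀ u ∈ W, (K : ℝ) ^ (3 / 4 - α) ≤ ‖SK K ρ a u‖) →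
  (W.card : ℝ) ≤ √K * M * (K : ℝ) ^ (-α)

/-! ### Level sets of the families -/

def MvS : Prop := ∃ C : ℝ, 0 < C ∧ ∀ (T B l : ℝ) (K : ℕ) (a a1 : ℕ → ℝ → ℂ), 1 ≤ K →
  (K : ℝ) ≤ T → 0 ≤ B → 0 < l → Fam T B K a a1 →
  lev T (4 * T) (SS K a) l ≤ C * B ^ 2 * K * T * Real.log (K + 2) / l ^ 2

def GridS : Prop := ∃ C : ℝ, 0 < C ∧ ∀ (T B l R : ℝ) (K M : ℕ) (a a1 : ℕ → ℝ → ℂ), 1 ≤ K →
  (K : ℝ) ≤ T → 1 ≤ M → 1 ≤ B → 0 ≤ R → Fam T B K a a1 →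
  C * B * (K * M * √(K / T) + (K : ℝ) ^ 2 * (M : ℝ) ^ 2 * √(K / T) ^ 3 +
    (K : ℝ) ^ 4 * M / T ^ 2) ≤ l →
  (∀ (ρ : ℝ) (b : ℕ → ℂ) (W : Finset ℤ), 0 ≤ ρ → ρ ≤ K / (24 * T) → (∀ k, ‖b k‖ ≤ 1) →
    (∀ u ∈ W, 0 ≤ u ∧ u < K * M) → (∀ u ∈ W, l / (2 * B) ≤ ‖SK K ρ b u‖) → (W.card : ℝ) ≤ R) →
  lev T (4 * T) (SS K a) l ≤ C * (T / (K * M) + √(T / K)) * R

def HmpS : Prop := ∃ C : ℝ, 0 < C ∧ ∀ (T B l : ℝ) (K : ℕ) (a a1 : ℕ → ℝ → ℂ), 1 ≤ K →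
  (K : ℝ) ≤ T → 1 ≤ B → (K * T) ^ (1 / 4 : ℝ) ≤ l → Fam T B K a a1 →
  lev T (4 * T) (SS K a) l ≤ C * B ^ 6 * Real.log (T + 2) ^ 4 * (K : ℝ) ^ 3 / l ^ 2

def LvpS : Prop := ∃ β T0 : ℝ, 0 < β ∧ β ≤ 1 / 100 ∧
  ∀ (T B : ℝ) (K : ℕ) (a a1 : ℕ → ℝ → ℂ), T0 ≤ T → 1 ≤ B → B ≤ T ^ β →
  T ^ (1 / 2 - β) ≤ K → (K : ℝ) ≤ T ^ (1 / 2 + β) → Fam T B K a a1 →
  lev T (4 * T) (SS K a) ((K * T) ^ (1 / 4 : ℝ)) ≤ T ^ (3 / 4 - β)

/-! ### Zeta -/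

def Z1S : Prop := ∃ C : ℝ, 0 < C ∧ ∀ T τ : ℝ, 1 ≤ T → τ ∈ Icc (2 * T) (3 * T) →
  ‖riemannZeta (1 / 2 + (2 * Real.pi * τ : ℝ) * Complex.I)‖ ≤ C * Real.log (T + 2) +
    ∑ j ∈ Finset.range (Nat.log 2 ⌊16 * T⌋₊ + 1), ‖DN (2 ^ j) τ‖

def Z2S : Prop := ∃ C : ℝ, 0 < C ∧ ∀ (N : ℕ) (G τ' : ℝ), 1 ≤ N → 2 ≤ G →
  (∀ τ, |τ - τ'| ≤ G → ‖DN N τ‖ ^ 2 ≤ C * JJ N G τ') ∧
  (∫ τ in (τ' - G)..(τ' + G), ‖DN N τ‖ ^ 2) ≤ C * JJ N G τ' ∧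
  JJ N G τ' ≤ G * (C + 2 * ‖OD N G τ'‖)

def ZC1S : Prop := ∃ C : ℝ, 0 < C ∧ ∀ (T G τ : ℝ) (N k0 : ℕ), 1 ≤ T → 1 ≤ N →
  (N : ℝ) ≤ 16 * T → τ ∈ Icc T (4 * T) → 9 * T ≤ k0 →
  ‖OD N G τ - ∑ k ∈ Finset.Icc 1 k0, mk N G k τ * e (ff k τ)‖ ≤ C * Real.log (T + 2) ^ 2

def ZC2S : Prop := ∃ C : ℝ, 0 < C ∧ ∀ (T G N : ℝ) (k : ℕ), 1 ≤ T → 1 ≤ N → 1 ≤ k →
  (∃ m1 : ℝ → ℂ, Amp T (4 * T) (C * k.divisors.card / (k * T) ^ (1 / 4 : ℝ))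
    (C * k.divisors.card / (k * T) ^ (1 / 4 : ℝ) / T) (mk N G k) m1) ∧
  ((k : ℝ) ≤ 20 * T → ∀ τ ∈ Icc T (4 * T),
    ‖mk N G k τ‖ ≤ C * k.divisors.card * Real.exp (-(G ^ 2 * k / (3 * T))))

def Z4S : Prop := ∀ ε : ℝ, 0 < ε → ∃ C T0 : ℝ, 0 < C ∧ ∀ (T G : ℝ) (N : ℕ), T0 ≤ T → 1 ≤ N →
  (N : ℝ) ≤ 16 * T → 2 ≤ G → T ^ ε ≤ G ^ 2 →
  ∃ a a1 : ℕ → ℕ → ℝ → ℂ, (∀ K : ℕ, 1 ≤ K → (K : ℝ) ≤ T → Fam T (T ^ ε) K (a K) (a1 K)) ∧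
    ∀ τ ∈ Icc T (4 * T), JJ N G τ ≤ G * (C * Real.log (T + 2) ^ 2 +
      2 * ∑ j ∈ (Finset.range (Nat.log 2 ⌊T⌋₊ + 1)).filter
        (fun j => 2 ^ j * G ^ 2 ≤ T ^ (1 + ε)),
        ‖SS (2 ^ j) (a (2 ^ j)) τ‖ / (2 ^ j * T) ^ (1 / 4 : ℝ))

/-! ### Level sets of the pieces of zeta -/

def RedS : Prop := ∀ ε : ℝ, 0 < ε → ∃ T0 : ℝ, ∀ (T V b : ℝ) (N : ℕ), T0 ≤ T → 1 ≤ N →
  (N : ℝ) ≤ 16 * T → T ^ ε ≤ V → V ^ 2 ≤ T → 0 ≤ b →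
  (∀ (K i : ℕ) (a a1 : ℕ → ℝ → ℂ), 1 ≤ K → (K : ℝ) ≤ T → K * V ^ 4 ≤ T ^ (1 + 3 * ε) →
    Fam T (T ^ ε) K a a1 →
    lev T (4 * T) (SS K a) (2 ^ i * (K * T) ^ (1 / 4 : ℝ)) ≤ b * (3 / 8) ^ i) →
  lev (2 * T) (3 * T) (DN N) V ≤ T ^ ε * b / V ^ 2

def A4S : Prop := ∀ ε : ℝ, 0 < ε → ∃ T0 : ℝ, ∀ (T V : ℝ) (N : ℕ), T0 ≤ T → 1 ≤ N →
  (N : ℝ) ≤ 16 * T → T ^ ε ≤ V → lev (2 * T) (3 * T) (DN N) V ≤ T ^ (1 + ε) / V ^ 4

def A12S : Prop := ∀ ε : ℝ, 0 < ε → ∃ T0 : ℝ, ∀ (T V : ℝ) (N : ℕ), T0 ≤ T → 1 ≤ N →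
  (N : ℝ) ≤ 16 * T → T ^ ε ≤ V → lev (2 * T) (3 * T) (DN N) V ≤ T ^ (2 + ε) / V ^ 12

def A8S : Prop := ∃ κ T0 : ℝ, 0 < κ ∧ κ ≤ 1 / 100 ∧ ∀ (T : ℝ) (N : ℕ), T0 ≤ T → 1 ≤ N →
  (N : ℝ) ≤ 16 * T → lev (2 * T) (3 * T) (DN N) (T ^ (1 / 8 - κ)) ≤ T ^ (1 / 2 - 40 * κ)

def FinalS : Prop := ∀ A : ℝ, 4 < A → A < 12 → ∃ δ C : ℝ, 0 < δ ∧ ∀ T : ℝ, 1 ≤ T →
  ∫ t in (0 : ℝ)..T, ‖riemannZeta (1 / 2 + t * Complex.I)‖ ^ A ≤ C * T ^ (1 + (A - 4) / 8 - δ)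

end Pool.Agent.Lib.MP_80d0cf_nt.Up
end

-- part Pool.Agent.Lib.MP_80d0cf_nt.Up.Api
section

/-! Small facts used in several steps. -/

open Set MeasureTheory ComplexConjugate

namespace Pool.Agent.Lib.MP_80d0cf_nt.Up

lemma one_le_log_add_two {x : ℝ} (hx : 1 ≤ x) : 1 ≤ Real.log (x + 2) := by
  rw [Real.le_log_iff_exp_le (by linarith)]
  linarith [Real.exp_one_lt_d9]

/-- powers beat logarithms -/
lemma exists_log_pow_le (C : ℝ) (n : ℕ) {ε : ℝ} (hε : 0 < ε) :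
    ∃ T0 : ℝ, 1 ≤ T0 ∧ ∀ T, T0 ≤ T → C * Real.log (T + 2) ^ n ≤ T ^ ε := by
  have h1 := (isLittleO_log_rpow_rpow_atTop (n : ℝ) hε).bound
    (c := 1 / ((|C| + 1) * 3 ^ ε)) (by positivity)
  obtain ⟨T1, hT1⟩ := Filter.eventually_atTop.1 h1
  refine ⟨max 1 T1, le_max_left _ _, fun T hT => ?_⟩
  have hT' : 1 ≤ T := (le_max_left _ _).trans hT
  have h2 := hT1 (T + 2) (by linarith [(le_max_right _ _).trans hT])
  have hl : 0 ≤ Real.log (T + 2) := Real.log_nonneg (by linarith)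
  rw [Real.rpow_natCast, Real.norm_of_nonneg (by positivity), Real.norm_of_nonneg (by positivity)]
    at h2
  have h3 : (T + 2) ^ ε ≤ 3 ^ ε * T ^ ε := by
    rw [← Real.mul_rpow (by norm_num) (by linarith)]
    exact Real.rpow_le_rpow (by linarith) (by linarith) hε.le
  have h4 : Real.log (T + 2) ^ n ≤ T ^ ε / (|C| + 1) := by
    refine h2.trans ((mul_le_mul_of_nonneg_left h3 (by positivity)).trans (le_of_eq ?_))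
    field_simp
  calc C * Real.log (T + 2) ^ n ≤ (|C| + 1) * Real.log (T + 2) ^ n := by
        gcongr; linarith [le_abs_self C]
    _ ≤ (|C| + 1) * (T ^ ε / (|C| + 1)) := by gcongr
    _ = T ^ ε := by field_simp

lemma sum_inv_sqrt_le (M : ℕ) : ∑ m ∈ Finset.Icc 1 M, 1 / √(m : ℝ) ≤ 2 * √M := by
  induction M with
  | zero => simp
  | succ n ih =>
    rw [Finset.sum_Icc_succ_top (by omega)]
    have h1 : (0 : ℝ) < √((n + 1 : ℕ) : ℝ) := Real.sqrt_pos.2 (by positivity)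
    have h2 := Real.sq_sqrt (show (0 : ℝ) ≤ ((n + 1 : ℕ) : ℝ) by positivity)
    have h3 := Real.sq_sqrt (show (0 : ℝ) ≤ (n : ℝ) by positivity)
    have h4 : 1 / √((n + 1 : ℕ) : ℝ) ≤ 2 * √((n + 1 : ℕ) : ℝ) - 2 * √n := by
      rw [div_le_iff₀ h1]
      push_cast at h2 ⊢
      nlinarith [sq_nonneg (√((n : ℝ) + 1) - √n)]
    linarith

lemma sum_inv_le (M : ℕ) : ∑ m ∈ Finset.Icc 1 M, 1 / (m : ℝ) ≤ 1 + Real.log M := by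
  have := harmonic_le_one_add_log M
  rw [harmonic_eq_sum_Icc] at this
  simpa using this

/-! ### The kernel -/

lemma ok_nonneg (K k : ℕ) : 0 ≤ ok K k := Om0_nonneg _

lemma ok_eq_one {K k : ℕ} (hk : k ∈ Finset.Ico K (2 * K)) : ok K k = 1 := by
  rw [Finset.mem_Ico] at hk
  have hK : (0 : ℝ) < K := by exact_mod_cast (show 0 < K by omega)
  have h1 : (K : ℝ) ≤ k := by exact_mod_cast hk.1
  have h2 : (k : ℝ) ≤ 2 * K := by exact_mod_cast hk.2.le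
  refine Om0_eq_one (Real.le_sqrt_of_sq_le ?_) (Real.sqrt_le_iff.2 ⟨by norm_num, ?_⟩)
  · rw [le_div_iff₀ hK]; linarith
  · rw [div_le_iff₀ hK]; linarith

lemma Ico_subset_Icc (K : ℕ) : Finset.Ico K (2 * K) ⊆ Finset.Icc 1 (4 * K) := by
  intro k hk; simp only [Finset.mem_Ico, Finset.mem_Icc] at hk ⊢; omega

lemma norm_le_ok {K : ℕ} {a : ℕ → ℂ} (ha : ∀ k, ‖a k‖ ≤ 1) :
    ∀ k ∈ Finset.Ico K (2 * K), ‖a k‖ ≤ ok K k := fun k hk => by rw [ok_eq_one hk]; exact ha k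

lemma sum_ok_le (K : ℕ) : ∑ k ∈ Finset.Icc 1 (4 * K), ok K k ≤ 4 * K := by
  refine (Finset.sum_le_card_nsmul _ _ 1 fun k _ => Om0_le_one _).trans ?_
  simp

lemma DD_neg (K : ℕ) (ρ u : ℝ) : DD K ρ (-u) = conj (DD K ρ u) := by
  simp only [DD, Dk, map_sum, map_mul, Complex.conj_ofReal, conj_e, neg_mul]

lemma norm_DD_le (K : ℕ) (ρ u : ℝ) : ‖DD K ρ u‖ ≤ 4 * K := by
  rw [DD, Dk]
  refine (norm_sum_le _ _).trans (le_trans (le_of_eq ?_) (sum_ok_le K))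
  refine Finset.sum_congr rfl fun k _ => ?_
  rw [norm_mul, norm_e, mul_one, Complex.norm_real, Real.norm_of_nonneg (ok_nonneg K k)]

lemma am_eq_zero {K m u : ℝ} (h : zz K m u ≤ 1 / 2 ∨ 2 ≤ zz K m u) : am K m u = 0 := by
  simp [am, Om0_eq_zero h]

lemma am1_eq_zero {K m u : ℝ} (h : zz K m u ≤ 1 / 2 ∨ 2 ≤ zz K m u) : am1 K m u = 0 := by
  simp [am1, Om0_eq_zero h, Om1_eq_zero h]

lemma mainT_eq_zero {K ρ m u : ℝ} (h : zz K m u ≤ 1 / 2 ∨ 2 ≤ zz K m u) : mainT K ρ m u = 0 := by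
  simp [mainT, am_eq_zero h]

lemma norm_mainT (K ρ m u : ℝ) : ‖mainT K ρ m u‖ = ‖am K m u‖ := by simp [mainT]

lemma sqrt_two_mul_le (K m : ℝ) : √(2 * K / m) ≤ 3 / 2 * √(K / m) := by
  rw [mul_div_assoc, Real.sqrt_mul (by norm_num)]
  gcongr
  exact Real.sqrt_le_iff.2 ⟨by norm_num, by norm_num⟩

lemma norm_am_le (hc : CFS) (K m u : ℝ) : ‖am K m u‖ ≤ 30 * √(K / m) := by
  by_cases h : zz K m u ≤ 1 / 2 ∨ 2 ≤ zz K m u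
  · rw [am_eq_zero h, norm_zero]; positivity
  push Not at h
  have hz : 0 ≤ zz K m u := by linarith [h.1]
  have h0 := Om0_nonneg (zz K m u)
  rw [am, norm_mul, Complex.norm_conj, Complex.norm_real, Real.norm_of_nonneg (by positivity)]
  calc _ ≤ 10 * (3 / 2 * √(K / m) * 2 * 1) := by
        gcongr
        exacts [hc.1, sqrt_two_mul_le K m, h.2.le, Om0_le_one _]
    _ = _ := by ring

lemma norm_am1_le (hc : CFS) {K m : ℝ} (hK : 0 < K) (hm : 0 < m) (u : ℝ) :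
    ‖am1 K m u‖ ≤ 9 * √(K / m) / (K * m) := by
  by_cases h : zz K m u ≤ 1 / 2 ∨ 2 ≤ zz K m u
  · rw [am1_eq_zero h, norm_zero]; positivity
  push Not at h
  have hz : 0 ≤ zz K m u := by linarith [h.1]
  have h1 : |Om0 (zz K m u) + zz K m u * Om1 (zz K m u)| ≤ 9 := by
    refine (abs_add_le _ _).trans ?_
    rw [abs_mul, abs_of_nonneg hz, abs_of_nonneg (Om0_nonneg _)]
    have := mul_le_mul h.2.le (abs_Om1_le (zz K m u)) (abs_nonneg _) (by norm_num)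
    linarith [Om0_le_one (zz K m u)]
  rw [am1, norm_mul, Complex.norm_conj, Complex.norm_real, Real.norm_eq_abs, abs_div, abs_mul,
    abs_of_nonneg (Real.sqrt_nonneg _), abs_of_pos (show 0 < 16 * K * m by positivity)]
  calc _ ≤ 10 * (3 / 2 * √(K / m) * 9 / (16 * K * m)) := by
        gcongr
        exacts [hc.1, sqrt_two_mul_le K m]
    _ = 135 / 16 * √(K / m) / (K * m) := by field_simp; norm_num
    _ ≤ _ := by gcongr; norm_num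

lemma hasDerivAt_zz (K m u : ℝ) : HasDerivAt (zz K m) (1 / (16 * K * m)) u :=
  (hasDerivAt_id u).div_const _

lemma hasDerivAt_am (K m u : ℝ) : HasDerivAt (am K m) (am1 K m u) u := by
  have h1 := hasDerivAt_zz K m u
  have h2 := (hasDerivAt_Om0 (zz K m u)).comp u h1
  have h3 := (((h1.const_mul √(2 * K / m)).mul h2).ofReal_comp).const_mul (conj cF)
  refine h3.congr_deriv ?_
  rw [am1]; congr 2
  simp only [Function.comp]; ring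

lemma norm_am_sub_le (hc : CFS) {K m : ℝ} (hK : 0 < K) (hm : 0 < m) (u v : ℝ) :
    ‖am K m u - am K m v‖ ≤ 9 * √(K / m) / (K * m) * |u - v| := by
  have := (convex_univ (𝕜 := ℝ) (E := ℝ)).norm_image_sub_le_of_norm_hasDerivWithin_le
    (f := am K m) (f' := am1 K m) (x := v) (y := u)
    (fun z _ => (hasDerivAt_am K m z).hasDerivWithinAt)
    (fun z _ => norm_am1_le hc hK hm z) (mem_univ _) (mem_univ _)
  simpa using this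

/-- first derivative of the dual phase in `u` -/
noncomputable def gm1 (K ρ m u : ℝ) : ℝ := zz K m u / 8 - ρ * zz K m u ^ 3 / 2

/-- second derivative of the dual phase in `u` -/
noncomputable def gm2 (K ρ m u : ℝ) : ℝ := (1 / 8 - 3 * ρ * zz K m u ^ 2 / 2) / (16 * K * m)

lemma hasDerivAt_gm {K m : ℝ} (hK : 0 < K) (hm : 0 < m) (ρ u : ℝ) :
    HasDerivAt (gm K ρ m) (gm1 K ρ m u) u := by
  have h1 := (hasDerivAt_zz K m u).fun_pow 3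
  have h := ((hasDerivAt_pow 2 u).div_const (256 * K * m)).sub
    ((((hasDerivAt_id u).div_const 8).const_mul ρ).mul h1)
  refine h.congr_deriv ?_
  simp only [gm1, zz, id]
  norm_num
  field_simp
  ring

lemma hasDerivAt_gm1 (K ρ m u : ℝ) : HasDerivAt (gm1 K ρ m) (gm2 K ρ m u) u := by
  have h1 := hasDerivAt_zz K m u
  have h := (h1.div_const 8).sub (((h1.fun_pow 3).const_mul ρ).div_const 2)
  refine h.congr_deriv ?_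
  simp only [gm2]
  norm_num
  ring

lemma Hp_eq_zero {K M : ℕ} {ρ u : ℝ} (hu : u ≤ 8 * K) : Hp K M ρ u = 0 := by
  refine Finset.sum_eq_zero fun m hm => mainT_eq_zero (Or.inl ?_)
  rcases Nat.eq_zero_or_pos K with rfl | hK
  · simp [zz]
  have hK' : (0 : ℝ) < K := by exact_mod_cast hK
  have hm' : (1 : ℝ) ≤ m := by exact_mod_cast (Finset.mem_Icc.1 hm).1
  rw [zz, div_le_iff₀ (by positivity)]
  nlinarith

lemma norm_Hp_le (hc : CFS) (K M : ℕ) (ρ u : ℝ) : ‖Hp K M ρ u‖ ≤ 60 * √(K * M) := by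
  calc _ ≤ ∑ m ∈ Finset.Icc 1 M, 30 * √K * (1 / √(m : ℝ)) := by
        refine (norm_sum_le _ _).trans (Finset.sum_le_sum fun m _ => ?_)
        rw [norm_mainT]
        refine (norm_am_le hc _ _ _).trans (le_of_eq ?_)
        rw [Real.sqrt_div (by positivity)]; ring
    _ ≤ 30 * √K * (2 * √M) := by
        rw [← Finset.mul_sum]; gcongr; exact sum_inv_sqrt_le M
    _ = _ := by rw [Real.sqrt_mul (by positivity)]; ring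

lemma wt_nonneg {P1 P : ℝ} (hP : 0 ≤ P) : 0 ≤ wt P1 P := le_min (by positivity) (by positivity)

/-! ### Level sets -/

lemma isClosed_levSet {a b l : ℝ} {F : ℝ → ℂ} (hF : ContinuousOn F (Icc a b)) :
    IsClosed {τ | τ ∈ Icc a b ∧ l ≤ ‖F τ‖} :=
  hF.norm.preimage_isClosed_of_isClosed isClosed_Icc isClosed_Ici

lemma lev_nonneg (a b : ℝ) (F : ℝ → ℂ) (l : ℝ) : 0 ≤ lev a b F l := measureReal_nonneg

lemma levSet_ne_top (a b : ℝ) (F : ℝ → ℂ) (l : ℝ) :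
    volume {τ | τ ∈ Icc a b ∧ l ≤ ‖F τ‖} ≠ ⊤ :=
  ne_top_of_le_ne_top measure_Icc_lt_top.ne (measure_mono fun _ h => h.1)

lemma lev_anti (a b : ℝ) (F : ℝ → ℂ) {l l' : ℝ} (h : l ≤ l') : lev a b F l' ≤ lev a b F l :=
  measureReal_mono (fun _ hx => ⟨hx.1, h.trans hx.2⟩) (levSet_ne_top a b F l)

lemma lev_le_len {a b : ℝ} (hab : a ≤ b) (F : ℝ → ℂ) (l : ℝ) : lev a b F l ≤ b - a := by
  refine (measureReal_mono (fun _ hx => hx.1) measure_Icc_lt_top.ne).trans (le_of_eq ?_)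
  simp [hab]

lemma lev_eq_zero {a b l : ℝ} {F : ℝ → ℂ} (h : ∀ τ ∈ Icc a b, ‖F τ‖ < l) : lev a b F l = 0 := by
  have : {τ | τ ∈ Icc a b ∧ l ≤ ‖F τ‖} = ∅ :=
    eq_empty_of_forall_notMem fun τ hτ => (h τ hτ.1).not_ge hτ.2
  rw [lev, this, measureReal_empty]

lemma continuousOn_SS {T B : ℝ} {K : ℕ} {a a1 : ℕ → ℝ → ℂ} (hT : 0 < T) (h : Fam T B K a a1) :
    ContinuousOn (SS K a) (Icc T (4 * T)) := by
  refine continuousOn_finsetSum _ fun k hk τ hτ => ?_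
  have hk0 : (0 : ℝ) < k := by
    rw [Finset.mem_Ico] at hk; exact_mod_cast (show 0 < k by omega)
  exact (((h k hk).der τ hτ).mul
    (hasDerivAt_e_comp (hasDerivAt_ff hk0 (hT.trans_le hτ.1)))).continuousAt.continuousWithinAt

lemma norm_SS_le {T B : ℝ} {K : ℕ} {a a1 : ℕ → ℝ → ℂ} (h : Fam T B K a a1) {τ : ℝ}
    (hτ : τ ∈ Icc T (4 * T)) : ‖SS K a τ‖ ≤ K * B := by
  refine (norm_sum_le _ _).trans ((Finset.sum_le_card_nsmul _ _ B fun k hk => ?_).trans ?_)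
  · rw [norm_mul, norm_e, mul_one]; exact (h k hk).b0 τ hτ
  · rw [Nat.card_Ico, show 2 * K - K = K by omega, nsmul_eq_mul]

@[fun_prop] lemma continuous_DN (N : ℕ) : Continuous (DN N) := by unfold DN; fun_prop

@[fun_prop] lemma continuous_Ds (N : ℕ) : Continuous (Ds N) := by unfold Ds; fun_prop

lemma inv_XX_le_Lam {k τ : ℝ} (hk : 0 < k) (hτ : 0 < τ) : 1 / XX k τ ≤ Lam k τ := by
  have hX := half_lt_XX hk hτ
  have hm : 0 < XX k τ - 1 / 2 := by linarith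
  have h := Real.le_log_one_add_of_nonneg (x := 1 / (XX k τ - 1 / 2)) (by positivity)
  rw [Lam]
  obtain ⟨y, hy⟩ : ∃ y, XX k τ = y + 1 / 2 := ⟨XX k τ - 1 / 2, by ring⟩
  rw [hy] at hm h ⊢
  simp only [add_sub_cancel_right] at hm h ⊢
  convert h using 1
  · field_simp; ring
  · congr 1; field_simp; ring

/-! ### Weights -/

/-- derivative of `wN` -/
noncomputable def wN1 (x : ℝ) : ℝ := 2 * st1 (2 - 2 * x) - st1 (2 - x)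

/-- derivative of `ws` -/
noncomputable def ws1 (x : ℝ) : ℝ :=
  (wN1 x + wN x * (2 * Real.pi * Real.log x / x)) * Real.exp (Real.pi * Real.log x ^ 2)

lemma hasDerivAt_wN (x : ℝ) : HasDerivAt wN (wN1 x) x := by
  have h1 := (hasDerivAt_st (2 - x)).comp x ((hasDerivAt_id x).const_sub 2)
  have h2 := (hasDerivAt_st (2 - 2 * x)).comp x (((hasDerivAt_id x).const_mul 2).const_sub 2)
  refine (h1.sub h2).congr_deriv ?_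
  simp [wN1]; ring

lemma abs_wN1_le (x : ℝ) : |wN1 x| ≤ 4 := by
  have := st1_nonneg (2 - x); have := st1_le_two (2 - x)
  have := st1_nonneg (2 - 2 * x); have := st1_le_two (2 - 2 * x)
  rw [wN1, abs_le]; constructor <;> linarith

lemma wN1_eq_zero {x : ℝ} (h : x ≤ 1 / 2 ∨ 2 ≤ x) : wN1 x = 0 := by
  rcases h with h | h
  · rw [wN1, st1_of_one_le (by linarith), st1_of_one_le (by linarith)]; ring
  · rw [wN1, st1_of_nonpos (by linarith), st1_of_nonpos (by linarith)]; ring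

lemma ws1_eq_zero {x : ℝ} (h : x ≤ 1 / 2 ∨ 2 ≤ x) : ws1 x = 0 := by
  simp [ws1, wN1_eq_zero h, wN_eq_zero h]

lemma hasDerivAt_ws {x : ℝ} (hx : 0 < x) : HasDerivAt ws (ws1 x) x := by
  have h1 := (((Real.hasDerivAt_log hx.ne').fun_pow 2).const_mul Real.pi).exp
  refine ((hasDerivAt_wN x).mul h1).congr_deriv ?_
  simp only [ws1]; norm_num; ring

lemma abs_log_le_one {x : ℝ} (h1 : 1 / 2 < x) (h2 : x < 2) : |Real.log x| ≤ 1 := by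
  have hx : 0 < x := by linarith
  rw [abs_le]
  constructor
  · have := Real.one_sub_inv_le_log_of_pos hx
    have : x⁻¹ ≤ 2 := by rw [inv_le_comm₀ hx two_pos]; linarith
    linarith
  · linarith [Real.log_le_sub_one_of_pos hx]

lemma exp_pi_log_sq_le {x : ℝ} (h1 : 1 / 2 < x) (h2 : x < 2) :
    Real.exp (Real.pi * Real.log x ^ 2) ≤ 81 := by
  have h := abs_log_le_one h1 h2
  have h3 : Real.log x ^ 2 ≤ 1 := by rw [← sq_abs]; nlinarith [abs_nonneg (Real.log x)]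
  have h4 : Real.pi * Real.log x ^ 2 ≤ 4 := by
    nlinarith [Real.pi_lt_four, Real.pi_pos, sq_nonneg (Real.log x)]
  calc _ ≤ Real.exp ((4 : ℕ) * 1) := Real.exp_le_exp.2 (by simpa using h4)
    _ = Real.exp 1 ^ 4 := Real.exp_nat_mul 1 4
    _ ≤ 3 ^ 4 := by gcongr; linarith [Real.exp_one_lt_d9]
    _ = 81 := by norm_num

lemma abs_ws_le (x : ℝ) : |ws x| ≤ 81 := by
  by_cases h : x ≤ 1 / 2 ∨ 2 ≤ x
  · rw [ws_eq_zero h]; norm_num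
  push Not at h
  rw [ws, abs_mul, abs_of_pos (Real.exp_pos _)]
  have := mul_le_mul (abs_wN_le x) (exp_pi_log_sq_le h.1 h.2) (Real.exp_pos _).le one_pos.le
  linarith

lemma abs_ws1_le (x : ℝ) : |ws1 x| ≤ 1620 := by
  by_cases h : x ≤ 1 / 2 ∨ 2 ≤ x
  · rw [ws1_eq_zero h]; norm_num
  push Not at h
  have hx : 0 < x := by linarith [h.1]
  have h1 : |2 * Real.pi * Real.log x / x| ≤ 16 := by
    rw [abs_div, abs_mul, abs_of_pos hx, abs_of_pos (by positivity : 0 < 2 * Real.pi),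
      div_le_iff₀ hx]
    have := abs_log_le_one h.1 h.2
    nlinarith [Real.pi_lt_four, Real.pi_pos, abs_nonneg (Real.log x)]
  have h2 : |wN1 x + wN x * (2 * Real.pi * Real.log x / x)| ≤ 20 := by
    refine (abs_add_le _ _).trans ?_
    rw [abs_mul]
    have := mul_le_mul (abs_wN_le x) h1 (abs_nonneg _) one_pos.le
    linarith [abs_wN1_le x]
  rw [ws1, abs_mul, abs_of_pos (Real.exp_pos _)]
  have := mul_le_mul h2 (exp_pi_log_sq_le h.1 h.2) (Real.exp_pos _).le (by norm_num)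
  linarith

end Pool.Agent.Lib.MP_80d0cf_nt.Up
end

-- part Pool.Agent.Lib.MP_80d0cf_nt.Up.XSpec
section

/-! Statements for the explicit large value bound. -/

open Set MeasureTheory ComplexConjugate

namespace Pool.Agent.Lib.MP_80d0cf_nt.Up

/-- four-fold product of dual terms with the same `m` -/
def Jb2S : Prop := ∃ C : ℝ, 0 < C ∧
  ∀ (K M m : ℕ) (ρ P1 : ℝ) (u1 v1 u2 v2 : ℤ) (s : Finset ℤ), M ≤ K →
  m ∈ Finset.Icc 1 M → 0 ≤ ρ → ρ ≤ 1 / 10000 → 1 ≤ P1 →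
  12800 * ρ * K * M ≤ P1 → Cov s u1 (u1 + 32 * K * m) →
  ‖∑ x ∈ s, mainT K ρ m ((x : ℝ) - u1) * conj (mainT K ρ m ((x : ℝ) - v1)) *
      (mainT K ρ m ((x : ℝ) - u2) * conj (mainT K ρ m ((x : ℝ) - v2)))‖ ≤
    C * ((K : ℝ) ^ 2 / (m : ℝ) ^ 2) *
      (K * m * wt P1 |((u1 : ℝ) - v1) - ((v2 : ℝ) - u2)| + Real.log (K + 2))

/-- fourth moment of the dual sums -/
def L4S : Prop := ∃ C : ℝ, 0 < C ∧ ∀ (K M : ℕ) (ρ p : ℝ) (W : Finset ℤ) (θ : ℤ → ℂ),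
  1 ≤ M → M ≤ K → 0 ≤ ρ → ρ ≤ 1 / 10000 → 1 ≤ p → 12800 * ρ * K * M ≤ p ^ 2 →
  (∀ u ∈ W, 0 ≤ u ∧ u < K * M) → (∀ u, ‖θ u‖ ≤ 1) →
  ‖∑ u ∈ W, ∑ v ∈ W, θ u * conj (θ v) * Hp K M ρ ((u : ℝ) - v)‖ ^ 4 ≤
    C * Real.log (K + 2) ^ 2 * (M : ℝ) ^ 3 * (W.card : ℝ) ^ 3 *
      ((K : ℝ) ^ 3 * p * En W 1 + (K : ℝ) ^ 2 * (W.card : ℝ) ^ 4)

/-- explicit large value bound -/
def Lv2S : Prop := ∃ C : ℝ, 0 < C ∧
  ∀ (K M : ℕ) (ρ p l R : ℝ) (a : ℕ → ℂ) (W : Finset ℤ), 1 ≤ M → M ≤ K → 0 ≤ ρ →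
  ρ ≤ 1 / 10000 → 1 ≤ p → 12800 * ρ * K * M ≤ p ^ 2 → p ^ 4 ≤ K * M → 0 < l → 0 < R →
  (∀ k, ‖a k‖ ≤ 1) → (∀ u ∈ W, 0 ≤ u ∧ u < K * M) → (∀ u ∈ W, l ≤ ‖SK K ρ a u‖) →
  C * Real.log (K + 2) ^ 6 * (K * p ^ 2) ≤ l ^ 2 →
  C * Real.log (K + 2) ^ 6 * (K : ℝ) ^ 2 ≤ R * l ^ 2 →
  C * Real.log (K + 2) ^ 6 * ((M : ℝ) ^ 3 * (K : ℝ) ^ 6) ≤ R * l ^ 8 →
  C * Real.log (K + 2) ^ 6 * ((M : ℝ) ^ 3 * (K : ℝ) ^ 11 * p) ≤ R ^ 4 * l ^ 12 →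
  C * Real.log (K + 2) ^ 6 * ((M : ℝ) ^ 4 * (K : ℝ) ^ 10 * p) ≤ R ^ 3 * l ^ 12 →
  (C * Real.log (K + 2) ^ 6) ^ 2 * ((M : ℝ) ^ 7 * (K : ℝ) ^ 17 * p ^ 2) ≤ R ^ 5 * l ^ 20 →
  C * Real.log (K + 2) ^ 6 * ((M : ℝ) ^ 4 * (K : ℝ) ^ 8 * p) ≤ R ^ 2 * l ^ 10 →
  (W.card : ℝ) ≤ R

/-- level sets of the families, in exponents -/
def XfamS : Prop := ∀ ε : ℝ, 0 < ε → ε ≤ 1 / 1000 → ∃ T0 : ℝ,
  ∀ (T κ m q r : ℝ) (K i : ℕ) (a a1 : ℕ → ℝ → ℂ), T0 ≤ T → 1 ≤ K → T ^ κ = K →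
  Fam T (T ^ ε) K a a1 → κ ≤ 3 / 5 → 0 ≤ m → m ≤ κ → 2 * m ≤ 1 - κ → 0 ≤ q →
  2 * κ + m - 1 + ε ≤ 2 * q → 4 * q + ε ≤ κ + m → κ + 4 * q + 10 * ε ≤ 1 →
  4 * m + 8 * ε ≤ 3 - 5 * κ → 8 * m + 8 * ε ≤ 7 - 13 * κ → 4 * m + 8 * ε ≤ 9 - 15 * κ →
  3 * κ - 1 ≤ 2 * r → 3 * m + 4 * κ - 2 ≤ r → 3 * m + 8 * κ + q - 3 ≤ 4 * r →
  4 * m + 7 * κ + q - 3 ≤ 3 * r → 7 * m + 12 * κ + 2 * q - 5 ≤ 5 * r →
  8 * m + 11 * κ + 2 * q - 5 ≤ 4 * r →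
  lev T (4 * T) (SS K a) (2 ^ i * (K * T) ^ (1 / 4 : ℝ)) ≤ T ^ (1 - κ - m + r + 18 * ε) / 4 ^ i

end Pool.Agent.Lib.MP_80d0cf_nt.Up
end

-- part Pool.Agent.Lib.MP_80d0cf_nt.Up.Lev
section

/-! Level sets of the dyadic pieces of zeta: exponent bookkeeping. -/

open Set MeasureTheory

namespace Pool.Agent.Lib.MP_80d0cf_nt.Up

namespace LevAux

/-- the reduction, without the upper bound on the level -/
lemma red' (hr : RedS) {ε : ℝ} (hε : 0 < ε) (hε1 : ε ≤ 1 / 6) :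
    ∃ T0 : ℝ, 2 ≤ T0 ∧ ∀ (T V b : ℝ) (N : ℕ), T0 ≤ T → 1 ≤ N →
      (N : ℝ) ≤ 16 * T → T ^ ε ≤ V → 0 ≤ b →
      (∀ (K i : ℕ) (a a1 : ℕ → ℝ → ℂ), 1 ≤ K → (K : ℝ) ≤ T → K * V ^ 4 ≤ T ^ (1 + 3 * ε) →
        Fam T (T ^ ε) K a a1 →
        lev T (4 * T) (SS K a) (2 ^ i * (K * T) ^ (1 / 4 : ℝ)) ≤ b * (3 / 8) ^ i) →
      lev (2 * T) (3 * T) (DN N) V ≤ T ^ ε * b / V ^ 2 := by
  obtain ⟨T0, h⟩ := hr ε hε
  refine ⟨max 2 T0, le_max_left _ _, fun T V b N hT hN hN' hV hb hK => ?_⟩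
  have hT2 : 2 ≤ T := (le_max_left _ _).trans hT
  have hT0 : T0 ≤ T := (le_max_right _ _).trans hT
  by_cases hVT : V ^ 2 ≤ T
  · exact h T V b N hT0 hN hN' hV hVT hb hK
  push Not at hVT
  have hV0 : 0 < V := lt_of_lt_of_le (by positivity) hV
  have hs : √T ^ 2 = T := Real.sq_sqrt (by linarith)
  have h1 : √T ≤ V := Real.sqrt_le_iff.2 ⟨hV0.le, hVT.le⟩
  have h2 : T ^ ε ≤ √T := by
    rw [Real.sqrt_eq_rpow]
    exact Real.rpow_le_rpow_of_exponent_le (by linarith) (by linarith)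
  have h3 := h T √T 0 N hT0 hN hN' h2 hs.le le_rfl (fun K i a a1 hK1 _ hK3 _ => by
    exfalso
    have hK' : (1 : ℝ) ≤ K := by exact_mod_cast hK1
    have h4 : √T ^ 4 = T ^ (2 : ℝ) := by
      rw [show √T ^ 4 = (√T ^ 2) ^ 2 by ring, hs]; simp
    have h5 : T ^ (1 + 3 * ε) < T ^ (2 : ℝ) :=
      Real.rpow_lt_rpow_of_exponent_lt (by linarith) (by linarith)
    rw [h4] at hK3
    have h6 : 0 < T ^ (2 : ℝ) := by positivity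
    have h7 := le_mul_of_one_le_left h6.le hK'
    exact absurd (h7.trans hK3) h5.not_ge)
  have h4 := lev_anti (2 * T) (3 * T) (DN N) h1
  have h5 : 0 ≤ T ^ ε * b / V ^ 2 := by positivity
  simp only [mul_zero, zero_div] at h3
  linarith

lemma root_pow {x : ℝ} (hx : 0 ≤ x) : (x ^ (1 / 4 : ℝ)) ^ 4 = x := by
  rw [← Real.rpow_natCast, ← Real.rpow_mul hx]; norm_num

lemma rpow_pow {T : ℝ} (hT : 0 ≤ T) (x : ℝ) (n : ℕ) : (T ^ x) ^ n = T ^ (n * x) := by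
  rw [← Real.rpow_natCast, ← Real.rpow_mul hT, mul_comm]

lemma quarter_le (i : ℕ) : (1 / 4 : ℝ) ^ i ≤ (3 / 8) ^ i :=
  pow_le_pow_left₀ (by norm_num) (by norm_num) i

lemma two_pow_sq (i : ℕ) : ((2 : ℝ) ^ i) ^ 2 * (1 / 4) ^ i = 1 := by
  rw [← pow_mul, mul_comm i 2, pow_mul, ← mul_pow]; norm_num

/-- the mean value bound at dyadic levels -/
lemma mv' (hm : MvS) {ε : ℝ} (hε : 0 < ε) :
    ∃ T0 : ℝ, 1 ≤ T0 ∧ ∀ (T y : ℝ) (K i : ℕ) (a a1 : ℕ → ℝ → ℂ), T0 ≤ T → 1 ≤ K →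
      (K : ℝ) ≤ T → 0 ≤ y → K * T ≤ y ^ 2 → Fam T (T ^ ε) K a a1 →
      lev T (4 * T) (SS K a) (2 ^ i * (K * T) ^ (1 / 4 : ℝ)) ≤ T ^ (3 * ε) * y * (1 / 4) ^ i := by
  obtain ⟨C, hC, h⟩ := hm
  obtain ⟨T0, hT01, hT0⟩ := exists_log_pow_le C 1 hε
  refine ⟨T0, hT01, fun T y K i a a1 hT hK hKT hy hKy hF => ?_⟩
  have hT1 : 1 ≤ T := hT01.trans hT
  have hK' : (1 : ℝ) ≤ K := by exact_mod_cast hK
  have hs4 := root_pow (show (0 : ℝ) ≤ K * T by positivity)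
  have hs0 : 0 < (K * T : ℝ) ^ (1 / 4 : ℝ) := by positivity
  generalize hs : (K * T : ℝ) ^ (1 / 4 : ℝ) = s at hs4 hs0
  have h1 := h T (T ^ ε) (2 ^ i * s) K a a1 hK hKT (by positivity) (by positivity) hF
  refine h1.trans ?_
  have h2 : s ^ 2 ≤ y := by
    refine (pow_le_pow_iff_left₀ (by positivity) hy two_ne_zero).1 ?_
    rw [show (s ^ 2) ^ 2 = s ^ 4 by ring, hs4]; exact hKy
  have h3 : C * Real.log (K + 2) ≤ T ^ ε := by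
    have := hT0 T hT
    rw [pow_one] at this
    refine le_trans ?_ this
    gcongr
  have h4 : T ^ (3 * ε) = (T ^ ε) ^ 3 := by
    rw [rpow_pow (by linarith)]; norm_num
  have hB : 0 < T ^ ε := by positivity
  rw [h4]
  generalize T ^ ε = B at *
  have hq := two_pow_sq i
  have hq0 : (0 : ℝ) < (1 / 4) ^ i := by positivity
  have hp0 : (0 : ℝ) < 2 ^ i := by positivity
  generalize (1 / 4 : ℝ) ^ i = q at *
  generalize (2 : ℝ) ^ i = p at *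
  rw [div_le_iff₀ (by positivity)]
  calc C * B ^ 2 * K * T * Real.log (K + 2) = (C * Real.log (K + 2)) * B ^ 2 * (s ^ 2 * s ^ 2) := by
        rw [show s ^ 2 * s ^ 2 = s ^ 4 by ring, hs4]; ring
    _ ≤ B * B ^ 2 * (y * s ^ 2) := by gcongr
    _ = B ^ 3 * y * s ^ 2 * (p ^ 2 * q) := by rw [hq]; ring
    _ = _ := by ring

/-- the large value bound at dyadic levels -/
lemma hm' (hh : HmpS) {ε : ℝ} (hε : 0 < ε) :
    ∃ T0 : ℝ, 1 ≤ T0 ∧ ∀ (T y : ℝ) (K i : ℕ) (a a1 : ℕ → ℝ → ℂ), T0 ≤ T → 1 ≤ K →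
      (K : ℝ) ≤ T → 0 ≤ y → (K : ℝ) ^ 5 ≤ y ^ 2 * T → Fam T (T ^ ε) K a a1 →
      lev T (4 * T) (SS K a) (2 ^ i * (K * T) ^ (1 / 4 : ℝ)) ≤ T ^ (7 * ε) * y * (1 / 4) ^ i := by
  obtain ⟨C, hC, h⟩ := hh
  obtain ⟨T0, hT01, hT0⟩ := exists_log_pow_le C 4 hε
  refine ⟨T0, hT01, fun T y K i a a1 hT hK hKT hy hKy hF => ?_⟩
  have hT1 : 1 ≤ T := hT01.trans hT
  have hK' : (1 : ℝ) ≤ K := by exact_mod_cast hK
  have hs4 := root_pow (show (0 : ℝ) ≤ K * T by positivity)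
  have hs0 : 0 < (K * T : ℝ) ^ (1 / 4 : ℝ) := by positivity
  have hp1 : (1 : ℝ) ≤ 2 ^ i := one_le_pow₀ (by norm_num)
  have h1 := h T (T ^ ε) (2 ^ i * (K * T : ℝ) ^ (1 / 4 : ℝ)) K a a1 hK hKT
    (Real.one_le_rpow hT1 hε.le) (by nlinarith) hF
  generalize hs : (K * T : ℝ) ^ (1 / 4 : ℝ) = s at hs4 hs0 h1
  refine h1.trans ?_
  have h2 : (K : ℝ) ^ 3 ≤ y * s ^ 2 := by
    refine (pow_le_pow_iff_left₀ (by positivity) (by positivity) two_ne_zero).1 ?_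
    calc ((K : ℝ) ^ 3) ^ 2 = K ^ 5 * K := by ring
      _ ≤ y ^ 2 * T * K := by gcongr
      _ = y ^ 2 * s ^ 4 := by rw [hs4]; ring
      _ = _ := by ring
  have h3 := hT0 T hT
  have h4 : T ^ (7 * ε) = (T ^ ε) ^ 7 := by
    rw [rpow_pow (by linarith)]; norm_num
  have hB : 0 < T ^ ε := by positivity
  rw [h4]
  generalize T ^ ε = B at *
  have hq := two_pow_sq i
  have hq0 : (0 : ℝ) < (1 / 4) ^ i := by positivity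
  have hp0 : (0 : ℝ) < 2 ^ i := by positivity
  generalize (1 / 4 : ℝ) ^ i = q at *
  generalize (2 : ℝ) ^ i = p at *
  rw [div_le_iff₀ (by positivity)]
  calc C * B ^ 6 * Real.log (T + 2) ^ 4 * K ^ 3
      = (C * Real.log (T + 2) ^ 4) * B ^ 6 * K ^ 3 := by ring
    _ ≤ B * B ^ 6 * (y * s ^ 2) := by gcongr
    _ = B ^ 7 * y * s ^ 2 * (p ^ 2 * q) := by rw [hq]; ring
    _ = _ := by ring

end LevAux

open LevAux

theorem a4 (hr : RedS) (hm : MvS) : A4S := by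
  intro ε hε
  obtain ⟨η, hη, hη1, hηε⟩ : ∃ η : ℝ, 0 < η ∧ η ≤ 1 / 6 ∧ 6 * η ≤ ε :=
    ⟨min ε 1 / 6, by positivity, by linarith [min_le_right ε 1], by linarith [min_le_left ε 1]⟩
  obtain ⟨T1, hT1, h1⟩ := red' hr hη hη1
  obtain ⟨T2, hT2, h2⟩ := mv' hm hη
  refine ⟨max T1 T2, fun T V N hT hN hN' hV => ?_⟩
  have hTa : T1 ≤ T := (le_max_left _ _).trans hT
  have hTb : T2 ≤ T := (le_max_right _ _).trans hT
  have hT' : 1 ≤ T := by linarith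
  have hT0 : 0 < T := by linarith
  have hV0 : 0 < V := lt_of_lt_of_le (by positivity) hV
  have hV' : T ^ η ≤ V :=
    (Real.rpow_le_rpow_of_exponent_le hT' (by linarith)).trans hV
  have h3 := h1 T V (T ^ (3 * η) * (T ^ (1 + 3 / 2 * η) / V ^ 2)) N hTa hN hN' hV'
    (by positivity) (fun K i a a1 hK hKT hKV hF => by
      refine (h2 T (T ^ (1 + 3 / 2 * η) / V ^ 2) K i a a1 hTb hK hKT (by positivity) ?_ hF).trans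
        ?_
      · rw [div_pow, le_div_iff₀ (by positivity), rpow_pow hT0.le]
        calc K * T * (V ^ 2) ^ 2 = K * V ^ 4 * T := by ring
          _ ≤ T ^ (1 + 3 * η) * T := by gcongr
          _ = _ := by rw [← Real.rpow_add_one hT0.ne']; congr 1; push_cast; ring
      · exact mul_le_mul_of_nonneg_left (quarter_le i) (by positivity))
  refine h3.trans ?_
  calc T ^ η * (T ^ (3 * η) * (T ^ (1 + 3 / 2 * η) / V ^ 2)) / V ^ 2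
      = T ^ (η + (3 * η + (1 + 3 / 2 * η))) / V ^ 4 := by
        rw [Real.rpow_add hT0 η, Real.rpow_add hT0 (3 * η)]; field_simp
    _ ≤ _ := div_le_div_of_nonneg_right
        (Real.rpow_le_rpow_of_exponent_le hT' (by linarith)) (by positivity)

theorem a12 (hr : RedS) (hh : HmpS) : A12S := by
  intro ε hε
  obtain ⟨η, hη, hη1, hηε⟩ : ∃ η : ℝ, 0 < η ∧ η ≤ 1 / 6 ∧ 16 * η ≤ ε :=
    ⟨min ε 1 / 16, by positivity, by linarith [min_le_right ε 1], by linarith [min_le_left ε 1]⟩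
  obtain ⟨T1, hT1, h1⟩ := red' hr hη hη1
  obtain ⟨T2, hT2, h2⟩ := hm' hh hη
  refine ⟨max T1 T2, fun T V N hT hN hN' hV => ?_⟩
  have hTa : T1 ≤ T := (le_max_left _ _).trans hT
  have hTb : T2 ≤ T := (le_max_right _ _).trans hT
  have hT' : 1 ≤ T := by linarith
  have hT0 : 0 < T := by linarith
  have hV0 : 0 < V := lt_of_lt_of_le (by positivity) hV
  have hV' : T ^ η ≤ V :=
    (Real.rpow_le_rpow_of_exponent_le hT' (by linarith)).trans hV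
  have h3 := h1 T V (T ^ (7 * η) * (T ^ (2 + 15 / 2 * η) / V ^ 10)) N hTa hN hN' hV'
    (by positivity) (fun K i a a1 hK hKT hKV hF => by
      refine (h2 T (T ^ (2 + 15 / 2 * η) / V ^ 10) K i a a1 hTb hK hKT (by positivity) ?_
        hF).trans ?_
      · rw [div_pow, div_mul_eq_mul_div, le_div_iff₀ (by positivity), rpow_pow hT0.le]
        calc (K : ℝ) ^ 5 * (V ^ 10) ^ 2 = (K * V ^ 4) ^ 5 := by ring
          _ ≤ (T ^ (1 + 3 * η)) ^ 5 := by gcongr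
          _ = _ := by
            rw [← Real.rpow_add_one hT0.ne', rpow_pow hT0.le]; congr 1; push_cast; ring
      · exact mul_le_mul_of_nonneg_left (quarter_le i) (by positivity))
  refine h3.trans ?_
  calc T ^ η * (T ^ (7 * η) * (T ^ (2 + 15 / 2 * η) / V ^ 10)) / V ^ 2
      = T ^ (η + (7 * η + (2 + 15 / 2 * η))) / V ^ 12 := by
        rw [Real.rpow_add hT0 η, Real.rpow_add hT0 (7 * η)]; field_simp
    _ ≤ _ := div_le_div_of_nonneg_right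
        (Real.rpow_le_rpow_of_exponent_le hT' (by linarith)) (by positivity)

theorem a8 (hr : RedS) (hm : MvS) (hl : LvpS) : A8S := by
  obtain ⟨β, T3, hβ, hβ1, h3⟩ := hl
  obtain ⟨κ, rfl⟩ : ∃ κ : ℝ, β = 200 * κ := ⟨β / 200, by ring⟩
  have hκ : 0 < κ := by linarith
  obtain ⟨T1, hT1, h1⟩ := red' hr hκ (by linarith)
  obtain ⟨T2, hT2, h2⟩ := mv' hm hκ
  refine ⟨κ, max T1 (max T2 T3), hκ, by linarith, fun T N hT hN hN' => ?_⟩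
  have hTa : T1 ≤ T := (le_max_left _ _).trans hT
  have hTb : T2 ≤ T := (le_max_left _ _).trans ((le_max_right _ _).trans hT)
  have hTc : T3 ≤ T := (le_max_right _ _).trans ((le_max_right _ _).trans hT)
  have hT' : 1 ≤ T := by linarith
  have hT0 : 0 < T := by linarith
  have h4 := h1 T (T ^ (1 / 8 - κ)) (T ^ (3 / 4 - 45 * κ)) N hTa hN hN'
    (Real.rpow_le_rpow_of_exponent_le hT' (by linarith)) (by positivity)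
    (fun K i a a1 hK hKT hKV hF => by
      have hK' : (1 : ℝ) ≤ K := by exact_mod_cast hK
      have hK7 : (K : ℝ) ≤ T ^ (1 / 2 + 7 * κ) := by
        rw [rpow_pow hT0.le, ← le_div_iff₀ (by positivity), ← Real.rpow_sub hT0] at hKV
        refine hKV.trans (le_of_eq ?_)
        congr 1; push_cast; ring
      rcases le_total (K : ℝ) (T ^ (1 / 2 - 200 * κ)) with hc | hc
      · refine (h2 T (T ^ (3 / 4 - 100 * κ)) K i a a1 hTb hK hKT (by positivity) ?_ hF).trans ?_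
        · rw [rpow_pow hT0.le]
          calc K * T ≤ T ^ (1 / 2 - 200 * κ) * T := by gcongr
            _ = _ := by rw [← Real.rpow_add_one hT0.ne']; congr 1; push_cast; ring
        · rw [← Real.rpow_add hT0]
          exact mul_le_mul (Real.rpow_le_rpow_of_exponent_le hT' (by linarith)) (quarter_le i)
            (by positivity) (by positivity)
      · have hy := h2 T (T ^ (3 / 4 + 7 / 2 * κ)) K i a a1 hTb hK hKT (by positivity) (by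
          rw [rpow_pow hT0.le]
          calc K * T ≤ T ^ (1 / 2 + 7 * κ) * T := by gcongr
            _ = _ := by rw [← Real.rpow_add_one hT0.ne']; congr 1; push_cast; ring) hF
        have hx := h3 T (T ^ κ) K a a1 hTc (Real.one_le_rpow hT' hκ.le)
          (Real.rpow_le_rpow_of_exponent_le hT' (by linarith)) hc
          (hK7.trans (Real.rpow_le_rpow_of_exponent_le hT' (by linarith))) hF
        have hp1 : (1 : ℝ) ≤ 2 ^ i := one_le_pow₀ (by norm_num)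
        have hs0 : 0 < (K * T : ℝ) ^ (1 / 4 : ℝ) := by positivity
        replace hx := (lev_anti T (4 * T) (SS K a)
          (show (K * T : ℝ) ^ (1 / 4 : ℝ) ≤ 2 ^ i * (K * T) ^ (1 / 4 : ℝ) by nlinarith)).trans hx
        have hL := lev_nonneg T (4 * T) (SS K a) (2 ^ i * (K * T) ^ (1 / 4 : ℝ))
        generalize lev T (4 * T) (SS K a) (2 ^ i * (K * T) ^ (1 / 4 : ℝ)) = L at *
        rw [← Real.rpow_add hT0] at hy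
        refine (pow_le_pow_iff_left₀ hL (by positivity) (n := 4) (by norm_num)).1 ?_
        calc L ^ 4 = L * L ^ 3 := by ring
          _ ≤ T ^ (3 / 4 - 200 * κ) * (T ^ (3 * κ + (3 / 4 + 7 / 2 * κ)) * (1 / 4) ^ i) ^ 3 := by
            gcongr
          _ = T ^ (3 / 4 - 200 * κ + (3 : ℕ) * (3 * κ + (3 / 4 + 7 / 2 * κ))) *
              ((1 / 4) ^ 3) ^ i := by
            rw [mul_pow, rpow_pow hT0.le, Real.rpow_add hT0 (3 / 4 - 200 * κ), ← pow_mul,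
              ← pow_mul, mul_comm i 3, mul_assoc]
          _ ≤ T ^ ((4 : ℕ) * (3 / 4 - 45 * κ)) * ((3 / 8) ^ 4) ^ i := by
            exact mul_le_mul (Real.rpow_le_rpow_of_exponent_le hT' (by push_cast; linarith))
              (pow_le_pow_left₀ (by norm_num) (by norm_num) i) (by positivity) (by positivity)
          _ = _ := by
            rw [mul_pow, rpow_pow hT0.le, ← pow_mul, ← pow_mul, mul_comm i 4])
  refine h4.trans ?_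
  rw [rpow_pow hT0.le, ← Real.rpow_add hT0, ← Real.rpow_sub hT0]
  refine Real.rpow_le_rpow_of_exponent_le hT' ?_
  push_cast; linarith

end Pool.Agent.Lib.MP_80d0cf_nt.Up
end
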