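import Pool.Agent.Lib.MP_80d0cf_nt.Up.Api

/-! Large values: trace expansion and the cubic inequality for the kernel. -/

open Set ComplexConjugate

namespace Pool.Agent.Lib.MP_80d0cf_nt.Up.LvtAux

/-- triple sum -/
noncomputable def S3 (W : Finset ℤ) (f : ℤ → ℤ → ℤ → ℂ) : ℂ := ∑ u ∈ W, ∑ v ∈ W, ∑ w ∈ W, f u v w

lemma S3_12 (W : Finset ℤ) (f : ℤ → ℤ → ℤ → ℂ) : S3 W (fun u v w => f v u w) = S3 W f :=
  Finset.sum_comm

lemma S3_23 (W : Finset ℤ) (f : ℤ → ℤ → ℤ → ℂ) : S3 W (fun u v w => f u w v) = S3 W f :=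
  Finset.sum_congr rfl fun _ _ => Finset.sum_comm

lemma S3_add (W : Finset ℤ) (f g : ℤ → ℤ → ℤ → ℂ) :
    S3 W (fun u v w => f u v w + g u v w) = S3 W f + S3 W g := by
  simp only [S3, Finset.sum_add_distrib]

lemma S3_conj (W : Finset ℤ) (f : ℤ → ℤ → ℤ → ℂ) :
    S3 W (fun u v w => conj (f u v w)) = conj (S3 W f) := by
  simp only [S3, map_sum]

/-- Hermitian kernel built from a one-sided function -/
noncomputable def HH (p : ℝ → ℂ) (u v : ℤ) : ℂ := p ((u : ℝ) - v) + conj (p ((v : ℝ) - u))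

lemma HH_conj (p : ℝ → ℂ) (u v : ℤ) : HH p u v = conj (HH p v u) := by
  simp [HH, add_comm]

lemma trace_le (W : Finset ℤ) (p : ℝ → ℂ) (hp : ∀ x ≤ 0, p x = 0) :
    (∑ u ∈ W, ∑ v ∈ W, ∑ w ∈ W, HH p u v * HH p v w * HH p w u).re ≤
      6 * ‖∑ x ∈ W, ∑ a ∈ W, ∑ c ∈ W,
        p ((x : ℝ) - a) * p ((c : ℝ) - x) * conj (p ((c : ℝ) - a))‖ := by
  set f : ℤ → ℤ → ℤ → ℂ := fun x a c =>
    p ((x : ℝ) - a) * p ((c : ℝ) - x) * conj (p ((c : ℝ) - a)) with hf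
  have h0 : ∀ u v w : ℤ, p ((u : ℝ) - v) * p ((v : ℝ) - w) * p ((w : ℝ) - u) = 0 := by
    intro u v w
    by_cases h1 : (u : ℝ) - v ≤ 0
    · simp [hp _ h1]
    by_cases h2 : (v : ℝ) - w ≤ 0
    · simp [hp _ h2]
    simp [hp ((w : ℝ) - u) (by linarith)]
  have key : ∀ u v w : ℤ, HH p u v * HH p v w * HH p w u =
      f v w u + f u v w + f w u v + (conj (f w v u) + conj (f u w v) + conj (f v u w)) := by
    intro u v w
    have h1 := h0 u v w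
    have h2 := congrArg conj (h0 u w v)
    simp only [map_mul, map_zero] at h2
    simp only [HH, hf, map_mul, Complex.conj_conj]
    linear_combination h1 + h2
  have e1 : S3 W (fun u v w => f v w u) = S3 W f := by
    rw [← S3_23 W f, ← S3_12 W (fun u v w => f u w v)]
  have e2 : S3 W (fun u v w => f w u v) = S3 W f := by
    rw [← S3_12 W f, ← S3_23 W (fun u v w => f v u w)]
  have e3 : S3 W (fun u v w => f w v u) = S3 W f := by
    rw [← e1, ← S3_23 W (fun u v w => f v w u)]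
  have : (∑ u ∈ W, ∑ v ∈ W, ∑ w ∈ W, HH p u v * HH p v w * HH p w u) =
      3 * S3 W f + 3 * conj (S3 W f) := by
    change S3 W (fun u v w => HH p u v * HH p v w * HH p w u) = _
    simp only [key]
    rw [S3_add, S3_add, S3_add, S3_add, S3_add, S3_conj, S3_conj, S3_conj, e1, e2, e3,
      S3_12 W f, S3_23 W f]
    change S3 W f + S3 W f + S3 W f + _ = _
    ring
  rw [this]
  change _ ≤ 6 * ‖S3 W f‖
  have := Complex.re_le_norm (S3 W f)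
  simp only [Complex.add_re, Complex.mul_re, Complex.conj_re, Complex.re_ofNat, Complex.im_ofNat]
  linarith

lemma norm_HH_le {p : ℝ → ℂ} (hp : ∀ x ≤ 0, p x = 0) {u v : ℤ} {B : ℝ}
    (h1 : ‖p ((u : ℝ) - v)‖ ≤ B) (h2 : ‖p ((v : ℝ) - u)‖ ≤ B) : ‖HH p u v‖ ≤ B := by
  rcases le_total ((u : ℝ) - v) 0 with h | h
  · simpa [HH, hp _ h] using h2
  · simpa [HH, hp ((v : ℝ) - u) (by linarith)] using h1

lemma Hp_zero (K M : ℕ) (ρ : ℝ) : ∀ x ≤ 0, Hp K M ρ x = 0 := fun _ hx =>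
  Hp_eq_zero (hx.trans (by positivity))

/-- the difference between the kernel and its main part -/
lemma norm_DD_sub_HH {K M : ℕ} {ρ : ℝ} {F : ℝ → ℝ} {U : ℝ}
    (h : ∀ u, 0 ≤ u → u ≤ U → ‖DD K ρ u - Hp K M ρ u‖ ≤ F u) {u v : ℤ} (huv : |(u : ℝ) - v| ≤ U) :
    ‖DD K ρ ((u : ℝ) - v) - HH (Hp K M ρ) u v‖ ≤ F |(u : ℝ) - v| := by
  rcases le_total ((u : ℝ) - v) 0 with h0 | h0
  · rw [abs_of_nonpos h0] at huv ⊢
    have := h _ (by linarith) huv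
    rw [HH, Hp_zero K M ρ _ h0, zero_add, ← neg_sub (v : ℝ) u, DD_neg, ← map_sub,
      Complex.norm_conj]
    simpa using this
  · rw [abs_of_nonneg h0] at huv ⊢
    rw [HH, Hp_zero K M ρ ((v : ℝ) - u) (by linarith)]
    simpa using h _ h0 huv

/-- The cubic inequality for the kernel. -/
lemma cubic_kernel (hcu : CubicS) (hs : SchurS) (hp : PsdS) (hd : DualS) {K M : ℕ} {ρ l L q Hm : ℝ}
    {a : ℕ → ℂ} {W : Finset ℤ} (hK : 1 ≤ K) (hW : 0 < W.card) (ha : ∀ k, ‖a k‖ ≤ 1) (hl : 0 ≤ l)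
    (hS : ∀ u ∈ W, l ≤ ‖SK K ρ a u‖) (hL : 0 ≤ L) (hq : 0 ≤ q)
    (hE : ∀ u ∈ W, ∑ v ∈ W, ‖DD K ρ ((u : ℝ) - v) - HH (Hp K M ρ) u v‖ ≤ L)
    (hq' : q + L ≤ W.card * l ^ 2 / (4 * K))
    (hH : ∀ u ∈ W, ∀ v ∈ W, ‖Hp K M ρ ((u : ℝ) - v)‖ ≤ Hm) :
    q ^ 3 ≤ 6 * ‖∑ x ∈ W, ∑ a ∈ W, ∑ c ∈ W, Hp K M ρ ((x : ℝ) - a) * Hp K M ρ ((c : ℝ) - x) *
      conj (Hp K M ρ ((c : ℝ) - a))‖ + L * ((W.card : ℝ) ^ 2 * Hm ^ 2) := by
  set E : ℤ → ℤ → ℂ := fun u v => DD K ρ ((u : ℝ) - v) - HH (Hp K M ρ) u v with hEd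
  have hE' : ∀ v ∈ W, ∑ u ∈ W, ‖E u v‖ ≤ L := fun v hv => by
    refine le_trans (le_of_eq (Finset.sum_congr rfl fun u _ => ?_)) (hE v hv)
    rw [← Complex.norm_conj, hEd]
    simp only [map_sub, ← DD_neg, ← HH_conj, neg_sub]
  have hsplit : ∀ η : ℤ → ℂ, (∑ u ∈ W, ∑ v ∈ W, η u * conj (η v) * HH (Hp K M ρ) u v).re =
      (∑ u ∈ W, ∑ v ∈ W, η u * conj (η v) * DD K ρ ((u : ℝ) - v)).re -
        (∑ u ∈ W, ∑ v ∈ W, η u * conj (η v) * E u v).re := fun η => by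
    rw [← Complex.sub_re, ← Finset.sum_sub_distrib]
    congr 1
    refine Finset.sum_congr rfl fun u _ => ?_
    rw [← Finset.sum_sub_distrib]
    refine Finset.sum_congr rfl fun v _ => ?_
    simp only [hEd]; ring
  have hEb : ∀ η : ℤ → ℂ, (∑ u ∈ W, ∑ v ∈ W, η u * conj (η v) * E u v).re ≤
      L * ∑ u ∈ W, ‖η u‖ ^ 2 := fun η => (Complex.re_le_norm _).trans (hs W E η L hE hE')
  obtain ⟨θ, hθ, hθ2⟩ := hd _ _ (ok K) (yk K ρ) a W l (Ico_subset_Icc K)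
    (fun k _ => ok_nonneg K k) (norm_le_ok ha) hl hS
  have hn : ∑ u ∈ W, ‖θ u‖ ^ 2 = W.card := by simp [hθ]
  have hW' : (0 : ℝ) < W.card := by exact_mod_cast hW
  have hK' : (0 : ℝ) < K := by exact_mod_cast hK
  have hpsd : ∀ η : ℤ → ℂ, 0 ≤ (∑ u ∈ W, ∑ v ∈ W, η u * conj (η v) * DD K ρ ((u : ℝ) - v)).re :=
    fun η => hp _ (ok K) (yk K ρ) W η fun k _ => ok_nonneg K k
  have h1 := hcu W (HH (Hp K M ρ)) θ L q (fun u _ v _ => HH_conj _ u v) hL hq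
    (fun η => by rw [hsplit]; linarith [hpsd η, hEb η]) (by rw [hn]; exact hW') (by
      rw [hsplit]
      have h2 := hEb θ
      rw [hn] at h2 ⊢
      have h3 : ((W.card : ℝ) * l) ^ 2 ≤
          4 * K * (∑ u ∈ W, ∑ v ∈ W, θ u * conj (θ v) * DD K ρ ((u : ℝ) - v)).re :=
        hθ2.trans (mul_le_mul_of_nonneg_right (sum_ok_le K) (hpsd θ))
      have h4 : (q + L) * W.card ≤ ((W.card : ℝ) * l) ^ 2 / (4 * K) :=
        (mul_le_mul_of_nonneg_right hq' hW'.le).trans (le_of_eq (by ring))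
      rw [le_div_iff₀ (by positivity)] at h4
      have h5 : (q + L) * W.card ≤
          (∑ u ∈ W, ∑ v ∈ W, θ u * conj (θ v) * DD K ρ ((u : ℝ) - v)).re :=
        le_of_mul_le_mul_right (by linarith) (show (0 : ℝ) < 4 * K by positivity)
      linarith)
  refine h1.trans (add_le_add (trace_le W _ (Hp_zero K M ρ)) (mul_le_mul_of_nonneg_left ?_ hL))
  calc _ ≤ ∑ u ∈ W, ∑ v ∈ W, Hm ^ 2 :=
        Finset.sum_le_sum fun u hu => Finset.sum_le_sum fun v hv =>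
          pow_le_pow_left₀ (norm_nonneg _)
            (norm_HH_le (Hp_zero K M ρ) (hH u hu v hv) (hH v hv u hu)) 2
    _ = _ := by simp; ring

end Pool.Agent.Lib.MP_80d0cf_nt.Up.LvtAux
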