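import Pool.Agent.Lib.MP_80d0cf_nt.Up.Lev
import Pool.Agent.Lib.MP_80d0cf_nt.Up.Kern
import Pool.Agent.Lib.MP_80d0cf_nt.Up.Lvt2
import Pool.Agent.Lib.MP_80d0cf_nt.Up.Grid
import Pool.Agent.Lib.MP_80d0cf_nt.Up.ZetD
import Pool.Agent.Lib.MP_80d0cf_nt.Up.Bp

-- part Pool.Agent.Lib.MP_80d0cf_nt.Up.WSpec
section

/-! Statements for the improved explicit large value bound. -/

open Set MeasureTheory ComplexConjugate

namespace Pool.Agent.Lib.MP_80d0cf_nt.Up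

/-- largeness on `W` in the averaged sense -/
def LHk (s' : Finset ℕ) (o y : ℕ → ℝ) (l : ℝ) (W : Finset ℤ) : Prop :=
  ∀ r : ℤ → ℝ, (∀ u, 0 ≤ r u) → ∃ a : ℕ → ℂ, (∀ k ∈ s', ‖a k‖ ≤ o k) ∧
    l * ∑ u ∈ W, r u ≤ ∑ u ∈ W, r u * ‖Sk s' a y u‖

/-- largeness on `W` in the averaged sense, for the square root frequencies -/
def LH (K : ℕ) (ρ l : ℝ) (W : Finset ℤ) : Prop :=
  LHk (Finset.Ico K (2 * K)) (ok K) (yk K ρ) l W

/-- diagonal mass of the kernel -/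
noncomputable def O2 (K : ℕ) : ℝ := ∑ k ∈ Finset.Icc 1 (4 * K), ok K k ^ 2

lemma LHk.mono {s' : Finset ℕ} {o y : ℕ → ℝ} {l : ℝ} {W V : Finset ℤ} (h : LHk s' o y l W)
    (hV : V ⊆ W) : LHk s' o y l V := by
  classical
  intro r hr
  obtain ⟨a, ha, h1⟩ := h (fun u => if u ∈ V then r u else 0) fun u => by
    split_ifs; exacts [hr u, le_rfl]
  refine ⟨a, ha, ?_⟩
  simp only [ite_mul, zero_mul, Finset.sum_ite_mem, Finset.inter_eq_right.2 hV] at h1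
  exact h1

lemma LH.mono {K : ℕ} {ρ l : ℝ} {W V : Finset ℤ} (h : LH K ρ l W) (hV : V ⊆ W) : LH K ρ l V :=
  LHk.mono h hV

/-- how to prove `LH` -/
lemma LH.of_bdd {K : ℕ} {ρ l : ℝ} {W : Finset ℤ}
    (h : ∀ r : ℤ → ℝ, (∀ u, 0 ≤ r u) → ∃ b : ℕ → ℂ, (∀ k ∈ Finset.Ico K (2 * K), ‖b k‖ ≤ 1) ∧
      l * ∑ u ∈ W, r u ≤ ∑ u ∈ W, r u * ‖SK K ρ b u‖) : LH K ρ l W := fun r hr => by
  obtain ⟨b, hb, h1⟩ := h r hr
  exact ⟨b, fun k hk => by rw [ok_eq_one hk]; exact hb k hk, h1⟩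

/-- duality for averaged largeness -/
lemma LHk.dual {s' s : Finset ℕ} {o y : ℕ → ℝ} {l : ℝ} {W : Finset ℤ} (h : LHk s' o y l W)
    (hs : s' ⊆ s) (ho : ∀ k ∈ s, 0 ≤ o k) (hl : 0 ≤ l) :
    ∃ θ : ℤ → ℂ, (∀ u, ‖θ u‖ = 1) ∧ ((W.card : ℝ) * l) ^ 2 ≤
      (∑ k ∈ s, o k) * (∑ u ∈ W, ∑ v ∈ W, θ u * conj (θ v) * Dk s o y ((u : ℝ) - v)).re := by
  obtain ⟨a, ha, hW⟩ := h (fun _ => 1) fun _ => zero_le_one
  choose θ h1 h2 using fun u : ℤ => Complex.exists_norm_eq_mul_self (Sk s' a y u)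
  refine ⟨θ, h1, ?_⟩
  rw [CombAAux.form_Dk]
  have h3 : (W.card : ℝ) * l ≤ ∑ k ∈ s, o k * ‖∑ u ∈ W, θ u * e (u * y k)‖ := by
    calc (W.card : ℝ) * l ≤ ∑ u ∈ W, ‖Sk s' a y u‖ := by simpa [mul_comm] using hW
      _ = ‖∑ k ∈ s', a k * ∑ u ∈ W, θ u * e (u * y k)‖ := by
          rw [← Real.norm_of_nonneg (Finset.sum_nonneg fun (u : ℤ) _ => norm_nonneg (Sk s' a y u)),
            ← Complex.norm_real]
          congr 1
          push_cast
          simp only [h2]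
          simp only [Sk, Finset.mul_sum]
          rw [Finset.sum_comm]
          exact Finset.sum_congr rfl fun k _ => Finset.sum_congr rfl fun u _ => by ring
      _ ≤ ∑ k ∈ s', o k * ‖∑ u ∈ W, θ u * e (u * y k)‖ := by
          refine (norm_sum_le _ _).trans (Finset.sum_le_sum fun k hk => ?_)
          rw [norm_mul]
          exact mul_le_mul_of_nonneg_right (ha k hk) (norm_nonneg _)
      _ ≤ _ := Finset.sum_le_sum_of_subset_of_nonneg hs fun k hk _ =>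
          mul_nonneg (ho k hk) (norm_nonneg _)
  exact (pow_le_pow_left₀ (by positivity) h3 2).trans
    (Finset.sum_sq_le_sum_mul_sum_of_sq_le_mul s ho
      (fun k hk => mul_nonneg (ho k hk) (sq_nonneg _)) fun k _ => le_of_eq (by ring))

lemma LH.dual {K : ℕ} {ρ l : ℝ} {W : Finset ℤ} (h : LH K ρ l W) (hl : 0 ≤ l) :
    ∃ θ : ℤ → ℂ, (∀ u, ‖θ u‖ = 1) ∧ ((W.card : ℝ) * l) ^ 2 ≤
      4 * K * (∑ u ∈ W, ∑ v ∈ W, θ u * conj (θ v) * DD K ρ ((u : ℝ) - v)).re := by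
  obtain ⟨θ, h1, h2⟩ := LHk.dual h (Ico_subset_Icc K) (fun k _ => ok_nonneg K k) hl
  exact ⟨θ, h1, h2.trans (mul_le_mul_of_nonneg_right (sum_ok_le K)
    (psd _ _ _ W θ fun k _ => ok_nonneg K k))⟩

/-- the Fresnel constant has norm at most one -/
def FrS : Prop := ‖cF‖ ≤ 1

/-- the dual expansion of the kernel with a small error -/
def F3S : Prop := ∃ C : ℝ, 0 < C ∧ ∀ (K M : ℕ) (ρ u : ℝ), 1 ≤ M → M ≤ K → 0 ≤ ρ →
  ρ ≤ 1 / 10000 → ρ ^ 4 * ((K : ℝ) * M) ^ 3 ≤ 1 → 0 ≤ u → u ≤ 8 * K * M →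
  ‖DD K ρ u - Hp K M ρ u‖ ≤ C * Real.log (K + 2) * (K / (1 + u) + 1)

/-- diagonal terms of the square of the dual sum -/
def QaS : Prop := ∃ C : ℝ, 0 < C ∧ ∀ (K M : ℕ) (w : ℝ), 1 ≤ K → 8 * K ≤ w →
  ∑ m ∈ Finset.Icc 1 M, ‖am K m w‖ ^ 2 ≤ O2 K + C * ((K : ℝ) ^ 2 / w + 1)

/-- off-diagonal terms of the square of the dual sum -/
def QbS : Prop := ∃ C : ℝ, 0 < C ∧ ∀ (K M m m' : ℕ) (ρ δ : ℝ) (s : Finset ℤ), M ≤ K →
  m ∈ Finset.Icc 1 M → m' ∈ Finset.Icc 1 M → m ≠ m' → 0 ≤ ρ → ρ ≤ 1 / 10000 →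
  Cov s 0 (32 * K * m) →
  ‖∑ w ∈ s, mainT K ρ m w * conj (mainT K ρ m' w) * e (w * δ)‖ ≤
    C * (K * √K / √|(m : ℝ) - m'| + K / √(m * m') * Real.log (K + 2))

/-- the quadratic form of the square of the kernel without its diagonal mass -/
def QfS : Prop := ∃ C : ℝ, 0 < C ∧ ∀ (K M : ℕ) (ρ : ℝ) (W : Finset ℤ) (r : ℤ → ℝ), 1 ≤ M →
  M ^ 3 ≤ K → 0 ≤ ρ → ρ ≤ 1 / 10000 → ρ ^ 4 * ((K : ℝ) * M) ^ 3 ≤ 1 → (∀ u, 0 ≤ r u) →
  (∀ u ∈ W, ∀ v ∈ W, |(u : ℝ) - v| ≤ 8 * K * M) →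
  ∑ u ∈ W, ∑ v ∈ W, r u * r v * (‖DD K ρ ((u : ℝ) - v)‖ ^ 2 - O2 K) ≤
    C * Real.log (K + 2) ^ 2 * (K : ℝ) ^ 2 * ∑ u ∈ W, r u ^ 2

/-- energy bound with the diagonal split off -/
def Energy2S : Prop :=
  ∀ (s' s : Finset ℕ) (o y : ℕ → ℝ) (W : Finset ℤ) (P : ℕ) (l c U N1 : ℝ),
  s' ⊆ s → (∀ k ∈ s, 0 ≤ o k) → 0 < l → 0 ≤ c → 1 ≤ P → LHk s' o y l W →
  (∀ u ∈ W, ∀ v ∈ W, |(u : ℝ) - v| ≤ U) →
  (∀ (V : Finset ℤ) (r : ℤ → ℝ), (∀ u, 0 ≤ r u) →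
    (∀ u ∈ V, ∀ v ∈ V, |(u : ℝ) - v| ≤ 2 * U + 2 * P) →
    ∑ u ∈ V, ∑ v ∈ V, r u * r v * (‖Dk s o y ((u : ℝ) - v)‖ ^ 2 - ∑ k ∈ s, o k ^ 2) ≤
      c * ∑ u ∈ V, r u ^ 2) →
  (((W ×ˢ W).filter fun q => |(q.1 : ℝ) - q.2| ≤ 2 * P).card : ℝ) ≤ N1 →
  (En W P : ℝ) ≤ 8 * (∑ k ∈ s, o k ^ 2) * P * (W.card : ℝ) ^ 3 / l ^ 2 + 2 * c ^ 2 * N1 / l ^ 4

/-- fourth moment of the dual sums, general form -/
def L4gS : Prop := ∃ C : ℝ, 0 < C ∧ ∀ (K M : ℕ) (ρ P1 MM : ℝ) (W : Finset ℤ) (θ : ℤ → ℂ),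
  1 ≤ M → M ≤ K → 0 ≤ ρ → ρ ≤ 1 / 10000 → 1 ≤ P1 → 12800 * ρ * K * M ≤ P1 →
  (∀ u ∈ W, 0 ≤ u ∧ u < K * M) → (∀ u, ‖θ u‖ ≤ 1) →
  (∀ j : ℕ, 2 ^ j ≤ 4 * K * M → wt P1 (2 ^ j) * En W (2 ^ j) ≤ MM) →
  ‖∑ u ∈ W, ∑ v ∈ W, θ u * conj (θ v) * Hp K M ρ ((u : ℝ) - v)‖ ^ 4 ≤
    C * Real.log (K + 2) * (W.card : ℝ) ^ 3 *
      ((K : ℝ) ^ 3 * (M : ℝ) ^ 3 * MM + (K : ℝ) ^ 2 * (M : ℝ) ^ 2 * (W.card : ℝ) ^ 4)

/-- points in heavy cells -/
def HeavyA3S : Prop := ∃ C : ℝ, 0 < C ∧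
  ∀ (K M B : ℕ) (ρ l n0 : ℝ) (W : Finset ℤ), 1 ≤ B → B ≤ M → M ≤ K → 0 ≤ ρ → ρ ≤ 1 / 10000 →
  ρ ^ 4 * ((K : ℝ) * M) ^ 3 ≤ 1 → 0 < l → 0 < n0 →
  C * Real.log (K + 2) * (K + √K * (M : ℝ) ^ 2) ≤ l ^ 2 → (∀ u ∈ W, 0 ≤ u ∧ u < K * M) →
  LH K ρ l W →
  ((W.filter fun u => n0 ≤ ((W.filter fun v => v / (B : ℤ) = u / B).card : ℝ)).card : ℝ) ≤
    C * Real.log (K + 2) ^ 3 * ((K : ℝ) ^ 2 * M / l ^ 2) * (1 / B + K * √K * √B / (l ^ 2 * n0))

/-- removal of heavy cells -/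
def Heavy3S : Prop := ∃ C : ℝ, 0 < C ∧
  ∀ (K M : ℕ) (ρ l Γ : ℝ) (W : Finset ℤ), 1 ≤ M → M ≤ K → 0 ≤ ρ → ρ ≤ 1 / 10000 →
  ρ ^ 4 * ((K : ℝ) * M) ^ 3 ≤ 1 → 0 < l → 1 ≤ Γ →
  C * Real.log (K + 2) * (K + √K * (M : ℝ) ^ 2) ≤ l ^ 2 → (∀ u ∈ W, 0 ≤ u ∧ u < K * M) →
  LH K ρ l W →
  ∃ W1 ⊆ W, (W.card : ℝ) - W1.card ≤
      C * Real.log (K + 2) ^ 4 * ((K : ℝ) ^ 2 * M / l ^ 2) * (1 / Γ ^ 2 + K * √K / (l ^ 2 * Γ)) ∧
    ∀ P : ℕ, 1 ≤ P → ∀ u ∈ W1,
      ((W1.filter fun v : ℤ => |(u : ℝ) - v| ≤ P).card : ℝ) ≤ 9 * Γ * (√P + P / √M)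

/-- improved large value bound -/
def Lv3S : Prop := ∃ C : ℝ, 0 < C ∧
  ∀ (K M : ℕ) (ρ p g Γ l R : ℝ) (W : Finset ℤ), 1 ≤ M → (2 * M) ^ 3 ≤ K → 0 ≤ ρ →
  ρ ≤ 1 / 10000 → ρ ^ 4 * (2 * (K : ℝ) * M) ^ 3 ≤ 1 → 1 ≤ p → 12800 * ρ * K * M ≤ p ^ 2 →
  1 ≤ g → p ≤ g * √M → 1 ≤ Γ → 0 < l → 0 < R → (∀ u ∈ W, 0 ≤ u ∧ u < K * M) → LH K ρ l W →
  C * Real.log (K + 2) ^ 6 * (K + √K * (M : ℝ) ^ 2) ≤ l ^ 2 →
  C * Real.log (K + 2) ^ 6 * ((K : ℝ) ^ 2 * M) ≤ R * l ^ 2 * Γ ^ 2 →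
  C * Real.log (K + 2) ^ 6 * ((K : ℝ) ^ 3 * √K * M) ≤ R * l ^ 4 * Γ →
  C * Real.log (K + 2) ^ 6 * (K : ℝ) ^ 2 ≤ R * l ^ 2 →
  C * Real.log (K + 2) ^ 6 * ((K : ℝ) ^ 11 * (M : ℝ) ^ 3 * Γ * g) ≤ R ^ 4 * l ^ 12 →
  C * Real.log (K + 2) ^ 6 * ((K : ℝ) ^ 8 * (M : ℝ) ^ 3 * p) ≤ R ^ 2 * l ^ 10 →
  C * Real.log (K + 2) ^ 6 * ((K : ℝ) ^ 6 * (M : ℝ) ^ 2) ≤ R * l ^ 8 →
  (W.card : ℝ) ≤ R

/-- transfer from measure to lattice points over a long range -/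
def Grid2S : Prop := ∃ C : ℝ, 1 ≤ C ∧ ∀ (T B l R : ℝ) (K M : ℕ) (a a1 : ℕ → ℝ → ℂ), 1 ≤ K →
  (K : ℝ) ≤ T → 1 ≤ M → 1 ≤ B → 0 < l → 0 ≤ R → Fam T B K a a1 →
  (K : ℝ) * (M : ℝ) ^ 2 ≤ T → (K : ℝ) ^ 5 * (M : ℝ) ^ 4 ≤ T ^ 3 → (K : ℝ) ^ 3 * M ≤ T ^ 2 →
  (∀ (ρ : ℝ) (W : Finset ℤ), 0 ≤ ρ → ρ ≤ K / (24 * T) → (∀ u ∈ W, 0 ≤ u ∧ u < K * M) →
    LH K ρ (l / (C * B)) W → (W.card : ℝ) ≤ R) →
  lev T (4 * T) (SS K a) l ≤ C * (T / (K * M)) * R

/-- level sets of the families in the critical range -/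
def WfamS : Prop := ∀ ε : ℝ, 0 < ε → ε ≤ 1 / 1000 → ∃ T0 : ℝ,
  ∀ (T κ : ℝ) (K i : ℕ) (a a1 : ℕ → ℝ → ℂ), T0 ≤ T → 1 ≤ K → T ^ κ = K →
  Fam T (T ^ ε) K a a1 → 11 / 23 ≤ κ → κ ≤ 11 / 21 →
  lev T (4 * T) (SS K a) (2 ^ i * (K * T) ^ (1 / 4 : ℝ)) ≤
    T ^ (max ((31 * κ - 1) / 20) ((27 * κ + 1) / 20) + 20 * ε) / 4 ^ i

end Pool.Agent.Lib.MP_80d0cf_nt.Up
end

-- part Pool.Agent.Lib.MP_80d0cf_nt.Up.WHeavy
section

/-! Heavy cells under averaged largeness. -/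

open Set MeasureTheory ComplexConjugate

namespace Pool.Agent.Lib.MP_80d0cf_nt.Up

namespace WHeavyAux

open HeavyAAux

lemma sum_inv_mul_sqrt_le (M : ℕ) : ∑ m ∈ Finset.Icc 1 M, 1 / ((m : ℝ) * √m) ≤ 3 := by
  have key : ∀ n : ℕ, ∑ m ∈ Finset.Icc 1 (n + 1), 1 / ((m : ℝ) * √m) ≤
      3 - 2 / √((n + 1 : ℕ) : ℝ) := by
    intro n
    induction n with
    | zero => norm_num
    | succ n ih =>
      rw [Finset.sum_Icc_succ_top (by omega)]
      have h1 : (0 : ℝ) < √((n + 1 : ℕ) : ℝ) := Real.sqrt_pos.2 (by positivity)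
      have h2 : (0 : ℝ) < √((n + 1 + 1 : ℕ) : ℝ) := Real.sqrt_pos.2 (by positivity)
      have h3 := Real.sq_sqrt (show (0 : ℝ) ≤ ((n + 1 : ℕ) : ℝ) by positivity)
      have h4 := Real.sq_sqrt (show (0 : ℝ) ≤ ((n + 1 + 1 : ℕ) : ℝ) by positivity)
      have h5 : √((n + 1 : ℕ) : ℝ) ≤ √((n + 1 + 1 : ℕ) : ℝ) :=
        Real.sqrt_le_sqrt (by push_cast; linarith)
      have h6 : √((n + 1 + 1 : ℕ) : ℝ) ^ 2 = √((n + 1 : ℕ) : ℝ) ^ 2 + 1 := by
        rw [h3, h4]; push_cast; ring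
      have h7 : 1 / (((n + 1 + 1 : ℕ) : ℝ) * √((n + 1 + 1 : ℕ) : ℝ)) ≤
          2 / √((n + 1 : ℕ) : ℝ) - 2 / √((n + 1 + 1 : ℕ) : ℝ) := by
        nth_rewrite 1 [← h4]
        generalize √((n + 1 : ℕ) : ℝ) = a at *
        generalize √((n + 1 + 1 : ℕ) : ℝ) = b at *
        rw [div_sub_div _ _ h1.ne' h2.ne', div_le_div_iff₀ (by positivity) (by positivity)]
        have h8 : (b - a) * (b + a) = 1 := by nlinarith
        have h9 : a * (b + a) ≤ 2 * b ^ 2 := by nlinarith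
        have h10 : a ≤ 2 * b ^ 2 * (b - a) := by
          calc a = a * (b + a) * (b - a) := by rw [mul_assoc, mul_comm (b + a), h8, mul_one]
            _ ≤ _ := mul_le_mul_of_nonneg_right h9 (by linarith)
        nlinarith
      linarith
  cases M with
  | zero => simp
  | succ n =>
    have : 0 ≤ 2 / √((n + 1 : ℕ) : ℝ) := by positivity
    linarith [key n]

lemma mainT_lin2 (hc : CFS) {K ρ m U x B : ℝ} (hK : 1 ≤ K) (hm : 1 ≤ m) (h0 : 0 ≤ ρ)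
    (h1 : ρ ≤ 1 / 10000) (hB : 1 ≤ B) (hBK : B ≤ K) (hx : |x| ≤ B) :
    ‖mainT K ρ m (U + x) - mainT K ρ m U * e (x * gm1 K ρ m U)‖ ≤
      11 * B ^ 2 / √K * (1 / (m * √m)) := by
  have hs : 0 < √K := Real.sqrt_pos.2 (by linarith)
  have hsm : 0 < √m := Real.sqrt_pos.2 (by linarith)
  have hs2 : √K * √K = K := Real.mul_self_sqrt (by linarith)
  have hq : √(K / m) / (K * m) = 1 / √K * (1 / (m * √m)) := by
    rw [Real.sqrt_div (by linarith)]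
    nth_rewrite 2 [← hs2]
    field_simp
  have hid : mainT K ρ m (U + x) - mainT K ρ m U * e (x * gm1 K ρ m U) =
      (am K m (U + x) - am K m U) * e (gm K ρ m (U + x)) +
        am K m U * (e (gm K ρ m (U + x)) - e (gm K ρ m U + x * gm1 K ρ m U)) := by
    rw [mainT, mainT, e_add]; ring
  have hx2 : x ^ 2 ≤ B ^ 2 := by rw [← sq_abs]; exact pow_le_pow_left₀ (abs_nonneg _) hx 2
  have hA : ‖(am K m (U + x) - am K m U) * e (gm K ρ m (U + x))‖ ≤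
      9 * B ^ 2 / √K * (1 / (m * √m)) := by
    rw [norm_mul, norm_e, mul_one]
    refine (norm_am_sub_le hc (by linarith) (by linarith) _ _).trans ?_
    rw [add_sub_cancel_left, mul_div_assoc, hq]
    calc _ ≤ 9 * (1 / √K * (1 / (m * √m))) * B ^ 2 := by
          gcongr; nlinarith
      _ = _ := by ring
  have hB2 : ‖am K m U * (e (gm K ρ m (U + x)) - e (gm K ρ m U + x * gm1 K ρ m U))‖ ≤
      2 * B ^ 2 / √K * (1 / (m * √m)) := by
    by_cases h : zz K m U ≤ 1 / 2 ∨ 2 ≤ zz K m U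
    · rw [am_eq_zero h, zero_mul, norm_zero]; positivity
    push Not at h
    have hz : |zz K m U| ≤ 2 := by rw [abs_le]; constructor <;> linarith [h.1, h.2]
    have ht := taylor_gm hK hm h0 h1 hz (hx.trans hBK)
    rw [norm_mul]
    calc _ ≤ 30 * √(K / m) * (2 * 4 * (B ^ 2 / (128 * K * m))) := by
          refine mul_le_mul (norm_am_le hc _ _ _) ((norm_e_sub_e_le _ _).trans ?_) (norm_nonneg _)
            (by positivity)
          refine mul_le_mul (by linarith [Real.pi_lt_four]) (ht.trans ?_) (abs_nonneg _)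
            (by norm_num)
          gcongr
      _ = 15 / 8 * B ^ 2 * (√(K / m) / (K * m)) := by field_simp; norm_num
      _ ≤ 2 * B ^ 2 * (1 / √K * (1 / (m * √m))) := by rw [hq]; gcongr; norm_num
      _ = _ := by ring
  rw [hid]
  refine (norm_add_le _ _).trans ((add_le_add hA hB2).trans (le_of_eq ?_))
  ring

lemma Hp_sub_G2 (hc : CFS) {K M : ℕ} {ρ U x B : ℝ} (hK : 1 ≤ K) (h0 : 0 ≤ ρ)
    (h1 : ρ ≤ 1 / 10000) (hB : 1 ≤ B) (hBK : B ≤ K) (hx : |x| ≤ B) :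
    ‖Hp K M ρ (U + x) - G K M ρ U x‖ ≤ 33 * B ^ 2 / √K := by
  rw [Hp, G, ← Finset.sum_sub_distrib]
  calc _ ≤ ∑ m ∈ Finset.Icc 1 M, 11 * B ^ 2 / √K * (1 / ((m : ℝ) * √m)) :=
        (norm_sum_le _ _).trans (Finset.sum_le_sum fun m hm => mainT_lin2 hc (by exact_mod_cast hK)
          (by exact_mod_cast (Finset.mem_Icc.1 hm).1) h0 h1 hB hBK hx)
    _ ≤ 11 * B ^ 2 / √K * 3 := by
        rw [← Finset.mul_sum]; gcongr; exact sum_inv_mul_sqrt_le M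
    _ = _ := by ring

/-- the standing hypotheses -/
structure Hy (C ρ l : ℝ) (K M : ℕ) (W : Finset ℤ) : Prop where
  hC : 0 < C
  hM1 : 1 ≤ M
  hMK : M ≤ K
  h0 : 0 ≤ ρ
  h1 : ρ ≤ 1 / 10000
  hl : 0 < l
  hbig : (8 * C + 528) * Real.log (K + 2) * (K + √K * (M : ℝ) ^ 2) ≤ l ^ 2
  hW : ∀ u ∈ W, 0 ≤ u ∧ u < K * M
  hLH : LH K ρ l W
  hf : ∀ u : ℝ, 0 ≤ u → u ≤ 8 * K * M →
    ‖DD K ρ u - Hp K M ρ u‖ ≤ C * Real.log (K + 2) * (K / (1 + u) + 1)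

variable {C ρ l : ℝ} {K M : ℕ} {W : Finset ℤ}

lemma Hy.K1 (h : Hy C ρ l K M W) : (1 : ℝ) ≤ K := by exact_mod_cast h.hM1.trans h.hMK

lemma Hy.diff (h : Hy C ρ l K M W) {u v : ℤ} (hu : u ∈ W) (hv : v ∈ W) :
    |(u : ℝ) - v| ≤ K * M := by
  obtain ⟨a1, a2⟩ := h.hW u hu
  obtain ⟨b1, b2⟩ := h.hW v hv
  have a1' : (0 : ℝ) ≤ u := by exact_mod_cast a1
  have a2' : (u : ℝ) < K * M := by exact_mod_cast a2
  have b1' : (0 : ℝ) ≤ v := by exact_mod_cast b1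
  have b2' : (v : ℝ) < K * M := by exact_mod_cast b2
  rw [abs_le]; constructor <;> linarith

lemma Hy.dd (h : Hy C ρ l K M W) {v : ℝ} (hv : |v| ≤ K * M) :
    ‖DD K ρ v - (Hp K M ρ v + conj (Hp K M ρ (-v)))‖ ≤
      C * Real.log (K + 2) * K * (1 / (1 + |v|)) + C * Real.log (K + 2) := by
  have hK : (0 : ℝ) ≤ 8 * K := by positivity
  have h3 : (0 : ℝ) ≤ K * M := by positivity
  rw [show C * Real.log (K + 2) * K * (1 / (1 + |v|)) + C * Real.log (K + 2) =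
    C * Real.log (K + 2) * (K / (1 + |v|) + 1) by ring]
  rcases le_total 0 v with h4 | h4
  · rw [abs_of_nonneg h4] at hv ⊢
    rw [Hp_eq_zero (u := -v) (by linarith), map_zero, add_zero]
    exact h.hf v h4 (by linarith)
  · rw [abs_of_nonpos h4] at hv ⊢
    have h2 : DD K ρ v = conj (DD K ρ (-v)) := by rw [← DD_neg, neg_neg]
    rw [Hp_eq_zero (u := v) (by linarith), zero_add, h2, ← map_sub, Complex.norm_conj]
    exact h.hf (-v) (by linarith) (by linarith)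

/-- duality, Schur test and absorption of the constant part of the error -/
lemma Hy.absorb (hs : SchurS) (hr : RowS) (h : Hy C ρ l K M W) {V : Finset ℤ} (hV : V ⊆ W)
    (Y : ℤ → ℤ → ℂ) {q : ℝ} (hq : 0 ≤ q)
    (hE : ∀ u ∈ V, ∀ v ∈ V, ‖DD K ρ ((u : ℝ) - v) - Y u v‖ ≤
      C * Real.log (K + 2) * K * (1 / (1 + |(u : ℝ) - v|)) +
        (C * Real.log (K + 2) + 66 * (M : ℝ) ^ 2 / √K))
    (hY : ∀ θ : ℤ → ℂ, (∀ u, ‖θ u‖ = 1) →
      ‖∑ u ∈ V, ∑ v ∈ V, θ u * conj (θ v) * Y u v‖ ≤ q * V.card) :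
    (V.card : ℝ) ≤ 8 * K * (6 * C * Real.log (K + 2) ^ 2 * K + q) / l ^ 2 := by
  have hK := h.K1
  have hL := one_le_log_add_two hK
  have hC := h.hC
  have hl := h.hl
  have hMK : (M : ℝ) ≤ K := by exact_mod_cast h.hMK
  have hsK : 0 < √(K : ℝ) := Real.sqrt_pos.2 (by linarith)
  have hbig := h.hbig
  set L := Real.log (K + 2) with hLdef
  set c2 := C * L + 66 * (M : ℝ) ^ 2 / √K with hc2
  have hrow : ∀ u ∈ V, ∑ v ∈ V, (C * L * K * (1 / (1 + |(u : ℝ) - v|)) + c2) ≤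
      6 * C * L ^ 2 * K + V.card * c2 := fun u hu => by
    rw [Finset.sum_add_distrib, ← Finset.mul_sum, Finset.sum_const, nsmul_eq_mul]
    have h2 := hr V u (K * M) (by positivity) fun v hv => h.diff (hV hu) (hV hv)
    have h3 : Real.log (K * M + 1) ≤ 2 * L := by
      rw [hLdef, ← Real.log_rpow (by linarith), Real.rpow_two]
      exact Real.log_le_log (by positivity) (by nlinarith)
    calc _ ≤ C * L * K * (6 * L) + V.card * c2 := by gcongr; linarith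
      _ = _ := by ring
  obtain ⟨θ, hθ, key⟩ := (h.hLH.mono hV).dual hl.le
  have hS := hs V (fun u v => DD K ρ ((u : ℝ) - v) - Y u v) θ (6 * C * L ^ 2 * K + V.card * c2)
    (fun u hu => (Finset.sum_le_sum fun v hv => hE u hu v hv).trans (hrow u hu))
    (fun v hv => (Finset.sum_le_sum fun u hu => by
      have := hE u hu v hv
      rwa [abs_sub_comm] at this).trans (hrow v hv))
  simp only [hθ, one_pow, Finset.sum_const, nsmul_eq_mul, mul_one] at hS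
  have hQ := hY θ hθ
  have hid : ∑ u ∈ V, ∑ v ∈ V, θ u * conj (θ v) * DD K ρ ((u : ℝ) - v) =
      ∑ u ∈ V, ∑ v ∈ V, θ u * conj (θ v) * (DD K ρ ((u : ℝ) - v) - Y u v) +
        ∑ u ∈ V, ∑ v ∈ V, θ u * conj (θ v) * Y u v := by
    simp only [← Finset.sum_add_distrib]
    exact Finset.sum_congr rfl fun u _ => Finset.sum_congr rfl fun v _ => by ring
  rw [hid] at key
  generalize ∑ u ∈ V, ∑ v ∈ V, θ u * conj (θ v) * (DD K ρ ((u : ℝ) - v) - Y u v) = X at key hS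
  generalize ∑ u ∈ V, ∑ v ∈ V, θ u * conj (θ v) * Y u v = Z at key hQ
  have h3 : ((V.card : ℝ) * l) ^ 2 ≤
      4 * K * ((6 * C * L ^ 2 * K + V.card * c2) * V.card + q * V.card) :=
    key.trans (mul_le_mul_of_nonneg_left ((Complex.re_le_norm _).trans
      ((norm_add_le _ _).trans (add_le_add hS hQ))) (by positivity))
  have h4 : 8 * K * c2 ≤ l ^ 2 := by
    refine le_trans ?_ hbig
    have a1 : 8 * K * c2 = 8 * C * L * K + 528 * (√K * (M : ℝ) ^ 2) := by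
      calc _ = 8 * C * L * K + 528 * (K / √K * (M : ℝ) ^ 2) := by rw [hc2]; ring
        _ = _ := by rw [Real.div_sqrt]
    have a2 : √K * (M : ℝ) ^ 2 ≤ L * (√K * (M : ℝ) ^ 2) := le_mul_of_one_le_left (by positivity) hL
    have a3 : 0 ≤ C * L * (√K * (M : ℝ) ^ 2) := by positivity
    have a4 : 0 ≤ L * K := by positivity
    rw [a1]
    nlinarith
  rcases Nat.eq_zero_or_pos V.card with h0 | h0
  · rw [h0, Nat.cast_zero]; positivity
  have h0' : (0 : ℝ) < V.card := by exact_mod_cast h0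
  rw [le_div_iff₀ (by positivity)]
  have h5 : (V.card : ℝ) * l ^ 2 ≤ 4 * K * (6 * C * L ^ 2 * K + V.card * c2 + q) := by
    refine le_of_mul_le_mul_right ?_ h0'
    calc _ = ((V.card : ℝ) * l) ^ 2 := by ring
      _ ≤ _ := h3
      _ = _ := by ring
  have h6 := mul_le_mul_of_nonneg_left h4 h0'.le
  linarith

lemma Hy.window (hs : SchurS) (hr : RowS) (h : Hy C ρ l K M W) :
    ∀ W0 ⊆ W, (∀ u ∈ W0, ∀ v ∈ W0, |(u : ℝ) - v| ≤ 2 * K) →
      (W0.card : ℝ) ≤ 48 * C * Real.log (K + 2) ^ 2 * (K : ℝ) ^ 2 / l ^ 2 := by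
  intro W0 hW0 hd
  have hK := h.K1
  refine (h.absorb hs hr hW0 (fun _ _ => 0) le_rfl (fun u hu v hv => ?_) fun θ _ => by simp).trans
    (le_of_eq (by ring))
  have h2 := h.dd (h.diff (hW0 hu) (hW0 hv))
  have h3 := abs_le.1 (hd u hu v hv)
  rw [Hp_eq_zero (by linarith [h3.2]), Hp_eq_zero (by linarith [h3.1]), map_zero, add_zero] at h2
  have h4 : 0 ≤ 66 * (M : ℝ) ^ 2 / √K := by positivity
  linarith

lemma Hy.norm_EE (hc : CFS) (h : Hy C ρ l K M W) {B : ℕ} (hB : 1 ≤ B) (hBM : B ≤ M)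
    {u v : ℤ} (hu : u ∈ W) (hv : v ∈ W) :
    ‖DD K ρ ((u : ℝ) - v) - (GG K M B ρ u v + conj (GG K M B ρ v u))‖ ≤
      C * Real.log (K + 2) * K * (1 / (1 + |(u : ℝ) - v|)) +
        (C * Real.log (K + 2) + 66 * (M : ℝ) ^ 2 / √K) := by
  have hB' : (1 : ℝ) ≤ B := by exact_mod_cast hB
  have hBM' : (B : ℝ) ≤ M := by exact_mod_cast hBM
  have hG : ∀ x y : ℤ, ‖Hp K M ρ ((x : ℝ) - y) - GG K M B ρ x y‖ ≤ 33 * (M : ℝ) ^ 2 / √K := by
    intro x y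
    have h2 := Hp_sub_G2 hc (M := M) (U := off B (x / B) (y / B)) (h.hM1.trans h.hMK) h.h0 h.h1
      hB' (by exact_mod_cast hBM.trans h.hMK) (abs_sub_off hB x y)
    rw [add_sub_cancel] at h2
    refine h2.trans ?_
    gcongr
  have hid : DD K ρ ((u : ℝ) - v) - (GG K M B ρ u v + conj (GG K M B ρ v u)) =
      (DD K ρ ((u : ℝ) - v) - (Hp K M ρ ((u : ℝ) - v) +
      conj (Hp K M ρ (-((u : ℝ) - v))))) + ((Hp K M ρ ((u : ℝ) - v) - GG K M B ρ u v) +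
        conj (Hp K M ρ ((v : ℝ) - u) - GG K M B ρ v u)) := by
    rw [neg_sub, map_sub]; ring
  rw [hid]
  refine (norm_add_le _ _).trans ?_
  have h3 := h.dd (h.diff hu hv)
  have h4 := norm_add_le (Hp K M ρ ((u : ℝ) - v) - GG K M B ρ u v)
    (conj (Hp K M ρ ((v : ℝ) - u) - GG K M B ρ v u))
  rw [Complex.norm_conj] at h4
  have h5 := hG u v
  have h6 := hG v u
  have h7 : 66 * (M : ℝ) ^ 2 / √K = 33 * (M : ℝ) ^ 2 / √K + 33 * (M : ℝ) ^ 2 / √K := by ring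
  linarith

lemma Hy.range (hc : CFS) (hs : SchurS) (hr : RowS) (hv : SieveS)
    (h : Hy C ρ l K M W) {B : ℕ} (hB : 1 ≤ B) (hBM : B ≤ M) {n0 : ℝ} (hn : 0 < n0)
    {V : Finset ℤ} (hV : V ⊆ W)
    (hheavy : ∀ u ∈ V, n0 ≤ ((W.filter fun v => v / (B : ℤ) = u / B).card : ℝ))
    (hcell : ∀ u ∈ V, ∀ v ∈ V, u / (B : ℤ) - v / B < K) :
    (V.card : ℝ) ≤ 2 * 10 ^ 6 * C * Real.log (K + 2) ^ 3 * ((K : ℝ) ^ 2 / l ^ 2) *
      (1 + K * √K * (B * √B) / (l ^ 2 * n0)) := by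
  have hK := h.K1
  have hL := one_le_log_add_two hK
  have hC := h.hC
  have hl := h.hl
  have hK' : 1 ≤ K := by exact_mod_cast hK
  have hsK : 0 < √(K : ℝ) := Real.sqrt_pos.2 (by linarith)
  have hw := h.window hs hr
  have hA := fun Y q hq => h.absorb hs hr hV Y (q := q) hq
  have hN := fun u hu v hv => h.norm_EE hc hB hBM (u := u) (v := v) (hV hu) (hV hv)
  set L := Real.log (K + 2) with hLdef
  set R := 48 * C * L ^ 2 * (K : ℝ) ^ 2 / l ^ 2 * (2 * √B / √K) / n0 with hR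
  refine (hA (fun u v => GG K M B ρ u v + conj (GG K M B ρ v u)) (2520 * K * B * L * R)
    (by positivity) hN fun θ hθ => ?_).trans ?_
  · have hQ := quad hc hv (R := R) hK' h.hM1 hB h.hMK h.h0 h.h1 hcell
      (heavy_row hK' hB (hBM.trans h.hMK) (by positivity) hn hw fun c hc1 => by
        obtain ⟨u, hu, rfl⟩ := Finset.mem_image.1 hc1
        exact hheavy u hu) hθ
    have hid : ∑ u ∈ V, ∑ v ∈ V, θ u * conj (θ v) * (GG K M B ρ u v + conj (GG K M B ρ v u)) =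
        ∑ u ∈ V, ∑ v ∈ V, θ u * conj (θ v) * GG K M B ρ u v +
          conj (∑ u ∈ V, ∑ v ∈ V, θ u * conj (θ v) * GG K M B ρ u v) := by
      rw [Finset.sum_comm (f := fun u v => θ u * conj (θ v) * GG K M B ρ u v)]
      conv_rhs => enter [1]; rw [Finset.sum_comm]
      simp only [map_sum, ← Finset.sum_add_distrib, map_mul, Complex.conj_conj]
      exact Finset.sum_congr rfl fun u _ => Finset.sum_congr rfl fun v _ => by ring
    rw [hid]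
    refine (norm_add_le _ _).trans ?_
    rw [Complex.norm_conj]
    linarith
  · calc _ = 48 * C * L ^ 2 * ((K : ℝ) ^ 2 / l ^ 2) + 1935360 * C * L ^ 3 * ((K : ℝ) ^ 2 / l ^ 2) *
          (K * (K / √K) * (B * √B) / (l ^ 2 * n0)) := by
          rw [hR]; field_simp; ring
      _ ≤ 2 * 10 ^ 6 * C * L ^ 3 * ((K : ℝ) ^ 2 / l ^ 2) +
          2 * 10 ^ 6 * C * L ^ 3 * ((K : ℝ) ^ 2 / l ^ 2) *
          (K * √K * (B * √B) / (l ^ 2 * n0)) := by
          rw [Real.div_sqrt]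
          gcongr
          all_goals first | assumption | norm_num
      _ = _ := by ring

end WHeavyAux

open HeavyAAux WHeavyAux in
theorem heavyA3 (hc : CFS) (hf : F3S) (hs : SchurS) (hr : RowS) (hv : SieveS) : HeavyA3S := by
  obtain ⟨C, hC, hf⟩ := hf
  refine ⟨4 * 10 ^ 6 * C + 528, by positivity, ?_⟩
  intro K M B ρ l n0 W hB hBM hMK h0 h1 hρ hl hn hbig hW hLH
  have hM1 : 1 ≤ M := hB.trans hBM
  have hK1 : (1 : ℝ) ≤ K := by exact_mod_cast hM1.trans hMK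
  have hL := one_le_log_add_two hK1
  have H : Hy C ρ l K M W :=
    { hC := hC, hM1 := hM1, hMK := hMK, h0 := h0, h1 := h1, hl := hl
      hbig := le_trans (by gcongr; norm_num) hbig
      hW := hW, hLH := hLH
      hf := fun u => hf K M ρ u hM1 hMK h0 h1 hρ }
  set V := W.filter fun u => n0 ≤ ((W.filter fun v => v / (B : ℤ) = u / B).card : ℝ) with hV
  have hB' : (0 : ℤ) < B := by exact_mod_cast hB
  have hK' : (0 : ℤ) < K := by exact_mod_cast (show (0 : ℝ) < K by linarith)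
  have hmap : ∀ u ∈ V, (u / (B : ℤ) / K).toNat ∈ Finset.range (M / B + 1) := fun u hu => by
    obtain ⟨a1, a2⟩ := hW u (Finset.mem_filter.1 hu).1
    have a3 : u / (B : ℤ) / K ≤ (M / B : ℕ) := by
      rw [Int.ediv_ediv_of_nonneg hB'.le, mul_comm, ← Int.ediv_ediv_of_nonneg hK'.le]
      push_cast
      refine Int.ediv_le_ediv hB' (Int.ediv_le_of_le_mul hK' ?_)
      linarith
    rw [Finset.mem_range, Nat.lt_succ_iff, Int.toNat_le]; exact a3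
  have hBr : (0 : ℝ) < B := by exact_mod_cast hB
  have hBM' : (B : ℝ) ≤ M := by exact_mod_cast hBM
  rw [Finset.card_eq_sum_card_fiberwise (f := fun u => (u / (B : ℤ) / K).toNat) hmap]
  push_cast
  refine (Finset.sum_le_card_nsmul _ _ (2 * 10 ^ 6 * C * Real.log (K + 2) ^ 3 *
    ((K : ℝ) ^ 2 / l ^ 2) * (1 + K * √K * (B * √B) / (l ^ 2 * n0))) fun r _ => ?_).trans ?_
  · refine H.range hc hs hr hv hB hBM hn
      ((Finset.filter_subset _ _).trans (Finset.filter_subset _ _))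
      (fun u hu => (Finset.mem_filter.1 (Finset.mem_filter.1 hu).1).2) fun u hu v hv => ?_
    obtain ⟨hu1, hu2⟩ := Finset.mem_filter.1 hu
    obtain ⟨hv1, hv2⟩ := Finset.mem_filter.1 hv
    have a1 : 0 ≤ u / (B : ℤ) / K := Int.ediv_nonneg
      (Int.ediv_nonneg (hW u (Finset.mem_filter.1 hu1).1).1 hB'.le) hK'.le
    have a2 : 0 ≤ v / (B : ℤ) / K := Int.ediv_nonneg
      (Int.ediv_nonneg (hW v (Finset.mem_filter.1 hv1).1).1 hB'.le) hK'.le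
    have a3 : u / (B : ℤ) / K = v / (B : ℤ) / K := by omega
    have hK1' : 1 ≤ K := by omega
    have b1 := cell_mem hK1' (u / B)
    have b2 := cell_mem hK1' (v / B)
    rw [a3] at b1
    linarith [b1.2, b2.1]
  · rw [Finset.card_range, nsmul_eq_mul]
    have h2 : ((M / B + 1 : ℕ) : ℝ) ≤ 2 * M / B := by
      have a1 : ((M / B : ℕ) : ℝ) ≤ M / B := Nat.cast_div_le
      have a2 : (1 : ℝ) ≤ M / B := by rwa [one_le_div hBr]
      push_cast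
      rw [mul_div_assoc]; linarith
    calc _ ≤ 2 * M / B * (2 * 10 ^ 6 * C * Real.log (K + 2) ^ 3 *
          ((K : ℝ) ^ 2 / l ^ 2) * (1 + K * √K * (B * √B) / (l ^ 2 * n0))) := by gcongr
      _ = 4 * 10 ^ 6 * C * Real.log (K + 2) ^ 3 * ((K : ℝ) ^ 2 * M / l ^ 2) *
          (1 / B + K * √K * √B / (l ^ 2 * n0)) := by field_simp; ring
      _ ≤ _ := by gcongr; linarith

open HeavyBAux in
theorem heavy3 (h : HeavyA3S) : Heavy3S := by
  classical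
  obtain ⟨C, hC, h⟩ := h
  refine ⟨3 * C, by positivity, ?_⟩
  intro K M ρ l Γ W hM hMK hρ hρ1 hρ4 hl hΓ hbig hW hLH
  have hΓ0 : 0 < Γ := by linarith
  let Hv : ℕ → Finset ℤ := fun j => W.filter fun u =>
    Γ * √((2 ^ j : ℕ) : ℝ) ≤ ((W.filter fun v => v / ((2 ^ j : ℕ) : ℤ) = u / (2 ^ j : ℕ)).card : ℝ)
  let J := Finset.range (Nat.log 2 M + 1)
  have hlog := one_le_log_add_two (x := K) (by exact_mod_cast hM.trans hMK)
  have hbig' : C * Real.log (K + 2) * (K + √K * (M : ℝ) ^ 2) ≤ l ^ 2 :=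
    le_trans (by gcongr; linarith) hbig
  have hHv : ∀ j ∈ J, ((Hv j).card : ℝ) ≤ C * Real.log (K + 2) ^ 3 * ((K : ℝ) ^ 2 * M / l ^ 2) *
      (1 / Γ ^ 2 + K * √K / (l ^ 2 * Γ)) := by
    intro j hj
    have hB1 : 1 ≤ 2 ^ j := Nat.one_le_two_pow
    have hB0 : (0 : ℝ) < (2 ^ j : ℕ) := by exact_mod_cast hB1
    have hs := Real.sqrt_pos.2 hB0
    have hBM : 2 ^ j ≤ M := Nat.pow_le_of_le_log (by omega) (by
      have := Finset.mem_range.1 hj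
      omega)
    by_cases hc : Γ ≤ √((2 ^ j : ℕ) : ℝ)
    · refine (h K M (2 ^ j) ρ l (Γ * √((2 ^ j : ℕ) : ℝ)) W hB1 hBM hMK hρ hρ1 hρ4 hl
        (by positivity) hbig' hW hLH).trans (mul_le_mul_of_nonneg_left ?_ (by positivity))
      have h1 : Γ ^ 2 ≤ ((2 ^ j : ℕ) : ℝ) := by
        have := Real.mul_self_sqrt hB0.le
        nlinarith
      have h2 : 1 / ((2 ^ j : ℕ) : ℝ) ≤ 1 / Γ ^ 2 := one_div_le_one_div_of_le (by positivity) h1
      have h3 : K * √K * √((2 ^ j : ℕ) : ℝ) / (l ^ 2 * (Γ * √((2 ^ j : ℕ) : ℝ))) =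
          K * √K / (l ^ 2 * Γ) := by field_simp
      rw [h3]
      linarith
    · have h0 : Hv j = ∅ := Finset.filter_eq_empty_iff.2 fun u _ hu => by
        have h1 := hu.trans (cell_le W hB1 _)
        have h2 := Real.mul_self_sqrt hB0.le
        nlinarith [not_le.1 hc]
      rw [h0, Finset.card_empty, Nat.cast_zero]
      positivity
  refine ⟨W \ J.biUnion Hv, Finset.sdiff_subset, ?_, fun P hP u _ => ?_⟩
  · have h1 : W.card ≤ (W \ J.biUnion Hv).card + ∑ j ∈ J, (Hv j).card :=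
      (Finset.card_le_card_sdiff_add_card (s := W) (t := J.biUnion Hv)).trans
        (Nat.add_le_add_left Finset.card_biUnion_le _)
    have h2 : (W.card : ℝ) ≤ (W \ J.biUnion Hv).card + ∑ j ∈ J, ((Hv j).card : ℝ) := by
      exact_mod_cast h1
    have h3 := Finset.sum_le_card_nsmul _ _ _ hHv
    rw [nsmul_eq_mul, Finset.card_range] at h3
    have h4 := mul_le_mul_of_nonneg_right (log2_le hM hMK)
      (show 0 ≤ C * Real.log (K + 2) ^ 3 * ((K : ℝ) ^ 2 * M / l ^ 2) *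
        (1 / Γ ^ 2 + K * √K / (l ^ 2 * Γ)) by positivity)
    have h5 : 3 * Real.log (K + 2) * (C * Real.log (K + 2) ^ 3 * ((K : ℝ) ^ 2 * M / l ^ 2) *
        (1 / Γ ^ 2 + K * √K / (l ^ 2 * Γ))) = 3 * C * Real.log (K + 2) ^ 4 *
        ((K : ℝ) ^ 2 * M / l ^ 2) * (1 / Γ ^ 2 + K * √K / (l ^ 2 * Γ)) := by ring
    linarith
  · have hQ : min P M ≠ 0 := by omega
    have hj : Nat.log 2 (min P M) ∈ J :=
      Finset.mem_range.2 (Nat.lt_succ_of_le (Nat.log_mono_right (min_le_right _ _)))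
    have h1 := Nat.pow_log_le_self 2 hQ
    have h2 := Nat.lt_pow_succ_log_self (b := 2) (by norm_num) (min P M)
    rw [pow_succ'] at h2
    generalize Nat.log 2 (min P M) = j at hj h1 h2
    have h3 := window_le (W \ J.biUnion Hv) (B := 2 ^ j) Nat.one_le_two_pow
      (n := Γ * √((2 ^ j : ℕ) : ℝ)) (by positivity) (fun v hv => by
        obtain ⟨hv1, hv2⟩ := Finset.mem_sdiff.1 hv
        have hv3 : v ∉ Hv j := fun hh => hv2 (Finset.mem_biUnion.2 ⟨j, hj, hh⟩)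
        have hv4 := not_le.1 fun hh => hv3 (Finset.mem_filter.2 ⟨hv1, hh⟩)
        refine le_trans ?_ hv4.le
        exact_mod_cast Finset.card_le_card (Finset.filter_subset_filter _ Finset.sdiff_subset)) u P
    refine h3.trans ?_
    have h4 := mul_le_mul_of_nonneg_left (choose_le hP hM h1 h2) hΓ0.le
    linarith

end Pool.Agent.Lib.MP_80d0cf_nt.Up
end

-- part Pool.Agent.Lib.MP_80d0cf_nt.Up.WFin
section

/-! Improved explicit exponents for the level sets of the families. -/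

open Set MeasureTheory

namespace Pool.Agent.Lib.MP_80d0cf_nt.Up

open LevAux in
theorem famS3 (hm : MvS) (hh : HmpS) (hx : WfamS) {A θ : ℝ} (hA4 : 4 ≤ A) (hA12 : A ≤ 12)
    (h1 : (22 + 5 * A) / 42 ≤ θ) (h2 : (10 + 3 * A) / 23 ≤ θ) : FamS A θ := by
  intro ε hε hε1
  obtain ⟨T1, hT1, k1⟩ := mv' hm hε
  obtain ⟨T2, -, k2⟩ := hm' hh hε
  obtain ⟨T3, k3⟩ := hx ε hε hε1
  refine ⟨max T1 (max T2 T3), fun T κ K i a a1 hT hK hKT hκ hF => ?_⟩
  simp only [max_le_iff] at hT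
  obtain ⟨t1, t2, t3⟩ := hT
  have hT1' : 1 ≤ T := hT1.trans t1
  have hT0 : 0 < T := by linarith
  have mono : ∀ {x y : ℝ}, x ≤ y → T ^ x ≤ T ^ y := fun h =>
    Real.rpow_le_rpow_of_exponent_le hT1' h
  have ad : ∀ x y : ℝ, T ^ x * T ^ y = T ^ (x + y) := fun x y => (Real.rpow_add hT0 x y).symm
  have ad1 : ∀ x : ℝ, T ^ x * T = T ^ (x + 1) := fun x => (Real.rpow_add_one hT0.ne' x).symm
  rcases le_total (11 / 21) κ with c1 | c1
  · refine (k1 T (T ^ ((1 + κ) / 2)) K i a a1 t1 hK hKT (by positivity) (le_of_eq ?_) hF).trans ?_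
    · rw [← hκ, rpow_pow hT0.le, ad1]; congr 1; push_cast; ring
    · rw [ad]
      refine mul_le_mul_of_nonneg_right (mono ?_) (by positivity)
      nlinarith [mul_nonneg (sub_nonneg.2 hA4) (sub_nonneg.2 c1)]
  rcases le_total κ (11 / 23) with c2 | c2
  · refine (k2 T (T ^ ((5 * κ - 1) / 2)) K i a a1 t2 hK hKT (by positivity) (le_of_eq ?_)
      hF).trans ?_
    · rw [← hκ, rpow_pow hT0.le, rpow_pow hT0.le, ad1]; congr 1; push_cast; ring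
    · rw [ad]
      refine mul_le_mul_of_nonneg_right (mono ?_) (by positivity)
      nlinarith [mul_nonneg (sub_nonneg.2 hA12) (sub_nonneg.2 c2)]
  refine (k3 T κ K i a a1 t3 hK hκ hF c2 c1).trans ?_
  rw [one_div_pow, mul_one_div]
  refine div_le_div_of_nonneg_right (mono (add_le_add_left (max_le ?_ ?_) _)) (by positivity)
  · rcases le_total A (41 / 5) with c3 | c3
    · nlinarith [mul_nonneg (sub_nonneg.2 c3) (sub_nonneg.2 c1)]
    · nlinarith [mul_nonneg (sub_nonneg.2 c3) (sub_nonneg.2 c2)]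
  · rcases le_total A (37 / 5) with c3 | c3
    · nlinarith [mul_nonneg (sub_nonneg.2 c3) (sub_nonneg.2 c1)]
    · nlinarith [mul_nonneg (sub_nonneg.2 c3) (sub_nonneg.2 c2)]

end Pool.Agent.Lib.MP_80d0cf_nt.Up
end

-- part Pool.Agent.Lib.MP_80d0cf_nt.Up.WL4
section

/-! The fourth moment of the dual sums, general form. -/

open Set MeasureTheory ComplexConjugate

namespace Pool.Agent.Lib.MP_80d0cf_nt.Up

namespace WL4Aux

lemma wpow4 {ι : Type*} (s : Finset ι) (w f : ι → ℝ) (hw : ∀ i ∈ s, 0 < w i) :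
    (∑ i ∈ s, f i) ^ 4 ≤ (∑ i ∈ s, w i) ^ 3 * ∑ i ∈ s, f i ^ 4 / w i ^ 3 := by
  have h0 : 0 ≤ ∑ i ∈ s, w i := Finset.sum_nonneg fun i hi => (hw i hi).le
  have h1 : (∑ i ∈ s, f i) ^ 2 ≤ (∑ i ∈ s, w i) * ∑ i ∈ s, f i ^ 2 / w i :=
    Finset.sum_sq_le_sum_mul_sum_of_sq_le_mul s (fun i hi => (hw i hi).le)
      (fun i hi => div_nonneg (sq_nonneg _) (hw i hi).le) fun i hi => le_of_eq (by
        have := (hw i hi).ne'
        field_simp)
  have h2 : (∑ i ∈ s, f i ^ 2 / w i) ^ 2 ≤ (∑ i ∈ s, w i) * ∑ i ∈ s, f i ^ 4 / w i ^ 3 :=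
    Finset.sum_sq_le_sum_mul_sum_of_sq_le_mul s (fun i hi => (hw i hi).le)
      (fun i hi => div_nonneg (by positivity) (pow_pos (hw i hi) 3).le) fun i hi => le_of_eq (by
        have := (hw i hi).ne'
        field_simp)
  calc _ = ((∑ i ∈ s, f i) ^ 2) ^ 2 := by ring
    _ ≤ ((∑ i ∈ s, w i) * ∑ i ∈ s, f i ^ 2 / w i) ^ 2 := pow_le_pow_left₀ (sq_nonneg _) h1 2
    _ = (∑ i ∈ s, w i) ^ 2 * (∑ i ∈ s, f i ^ 2 / w i) ^ 2 := by ring
    _ ≤ (∑ i ∈ s, w i) ^ 2 * ((∑ i ∈ s, w i) * ∑ i ∈ s, f i ^ 4 / w i ^ 3) :=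
        mul_le_mul_of_nonneg_left h2 (sq_nonneg _)
    _ = _ := by ring

lemma sum_sqrt_le (M : ℕ) : ∑ m ∈ Finset.Icc 1 M, √(m : ℝ) ≤ M * √M := by
  refine (Finset.sum_le_card_nsmul _ _ (√(M : ℝ)) fun m hm => Real.sqrt_le_sqrt (by
    exact_mod_cast (Finset.mem_Icc.1 hm).2)).trans (le_of_eq ?_)
  simp

end WL4Aux

open WL4Aux XL4Aux T1Aux in
theorem l4g (hj : Jb2S) (hc : CountS) : L4gS := by
  obtain ⟨C, hC, hj⟩ := hj
  refine ⟨1680 * C, by positivity, fun K M ρ P1 MM W θ hM hK hρ hρ1 hP1 hP2 hW hθ hMM => ?_⟩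
  have hL := one_le_log_add_two (x := K) (by exact_mod_cast hM.trans hK)
  have hM' : (1 : ℝ) ≤ M := by exact_mod_cast hM
  have hMM0 : 0 ≤ MM := le_trans (mul_nonneg (wt_nonneg (by positivity)) (by positivity))
    (hMM 0 (by have := Nat.mul_pos (hM.trans hK) hM; rw [mul_assoc]; omega))
  set L := Real.log (K + 2) with hLdef
  let F : ℕ → ℤ → ℂ := fun m x => ∑ v ∈ W, conj (θ v) * mainT K ρ m ((x : ℝ) - v)
  let I := Finset.Icc 1 M
  have e1 : ∑ u ∈ W, ∑ v ∈ W, θ u * conj (θ v) * Hp K M ρ ((u : ℝ) - v) =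
      ∑ z ∈ W ×ˢ I, θ z.1 * F z.2 z.1 := by
    rw [Finset.sum_product]
    refine Finset.sum_congr rfl fun x _ => ?_
    simp only [F, Hp, Finset.mul_sum]
    rw [Finset.sum_comm]
    exact Finset.sum_congr rfl fun m _ => Finset.sum_congr rfl fun v _ => by ring
  have hw := wtsum hc hM hK hW hMM hMM0 (α := 1) (β := 1) one_pos le_rfl one_pos le_rfl
  simp only [one_mul, Real.sqrt_one, div_one] at hw
  have e2 : ∀ m ∈ I, (∑ x ∈ W, ‖F m x‖ ^ 4) / (1 / √(m : ℝ)) ^ 3 ≤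
      C * L * (210 * (K : ℝ) ^ 3 * MM * √(m : ℝ) +
        (K : ℝ) ^ 2 * (W.card : ℝ) ^ 4 * (1 / √(m : ℝ))) := by
    intro m hm
    have a1 : (1 : ℝ) ≤ m := by exact_mod_cast (Finset.mem_Icc.1 hm).1
    have a2 : m ≤ M := (Finset.mem_Icc.1 hm).2
    have a5 : 0 < √(m : ℝ) := Real.sqrt_pos.2 (by linarith)
    have hsub : W ⊆ Finset.Ico (0 : ℤ) (33 * (K * M)) := fun u hu =>
      Finset.mem_Ico.2 ⟨(hW u hu).1, by have := hW u hu; omega⟩
    rw [div_le_iff₀ (by positivity)]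
    refine (Finset.sum_le_sum_of_subset_of_nonneg hsub fun _ _ _ => by positivity).trans ?_
    have e3 : ∀ x : ℤ, ‖F m x‖ ^ 4 = ‖∑ z ∈ W ×ˢ W, (conj (θ z.1) * conj (θ z.2)) *
        (mainT K ρ m ((x : ℝ) - z.1) * mainT K ρ m ((x : ℝ) - z.2))‖ ^ 2 := fun x => by
      rw [show ‖F m x‖ ^ 4 = ‖F m x * F m x‖ ^ 2 by rw [norm_mul]; ring]
      congr 2
      simp only [F]
      rw [Finset.sum_mul_sum, Finset.sum_product]
      exact Finset.sum_congr rfl fun a _ => Finset.sum_congr rfl fun b _ => by ring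
    simp only [e3]
    refine (expand _ _ _ _ (H := 1) fun z _ => ?_).trans ?_
    · rw [norm_mul, Complex.norm_conj, Complex.norm_conj]
      exact mul_le_one₀ (hθ _) (norm_nonneg _) (hθ _)
    rw [one_pow, one_mul]
    calc _ ≤ ∑ z ∈ W ×ˢ W, ∑ z' ∈ W ×ˢ W, C * ((K : ℝ) ^ 2 / (m : ℝ) ^ 2) *
          (K * m * wt P1 |((z.1 : ℝ) - z'.1) - ((z'.2 : ℝ) - z.2)| + L) := by
          refine Finset.sum_le_sum fun z hz => Finset.sum_le_sum fun z' _ => ?_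
          have b1 := hW _ (Finset.mem_product.1 hz).1
          have := hj K M m ρ P1 z.1 z'.1 z.2 z'.2 (Finset.Ico (0 : ℤ) (33 * (K * M))) hK hm hρ
            hρ1 hP1 hP2 fun n n1 n2 => by
              have n1' : z.1 < n := by exact_mod_cast n1
              have n2' : n < z.1 + 32 * K * m := by exact_mod_cast n2
              have n3 : (K : ℤ) * m ≤ K * M :=
                mul_le_mul_of_nonneg_left (by exact_mod_cast a2) (by positivity)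
              exact Finset.mem_Ico.2 ⟨by omega, by nlinarith [b1.2]⟩
          refine le_trans (le_of_eq ?_) this
          congr 1
          refine Finset.sum_congr rfl fun x _ => ?_
          rw [map_mul]; ring
      _ = C * ((K : ℝ) ^ 2 / (m : ℝ) ^ 2) * (K * m *
          (∑ q ∈ W ×ˢ W ×ˢ W ×ˢ W, wt P1 |((q.1 : ℝ) - q.2.1) -
            ((q.2.2.1 : ℝ) - q.2.2.2)|) + (W.card : ℝ) ^ 4 * L) := by
          rw [quad2, ← Finset.mul_sum, Finset.sum_add_distrib, ← Finset.mul_sum, Finset.sum_const,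
            nsmul_eq_mul]
          simp only [Finset.card_product]
          push_cast
          ring
      _ ≤ C * ((K : ℝ) ^ 2 / (m : ℝ) ^ 2) * (K * m * (210 * L * MM) + (W.card : ℝ) ^ 4 * L) := by
          have a4 := mul_le_mul_of_nonneg_left hw (show 0 ≤ (K : ℝ) * m by positivity)
          exact mul_le_mul_of_nonneg_left (add_le_add a4 le_rfl) (by positivity)
      _ = _ := by
          have a6 := Real.mul_self_sqrt (show (0 : ℝ) ≤ m by linarith)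
          generalize √(m : ℝ) = t at *
          rw [← a6]
          field_simp
  have e4 : ∑ z ∈ W ×ˢ I, 1 / √(z.2 : ℝ) ≤ W.card * (2 * √M) := by
    rw [Finset.sum_product]
    simp only [Finset.sum_const, nsmul_eq_mul]
    exact mul_le_mul_of_nonneg_left (sum_inv_sqrt_le M) (by positivity)
  have e5 : ∑ z ∈ W ×ˢ I, ‖F z.2 z.1‖ ^ 4 / (1 / √(z.2 : ℝ)) ^ 3 ≤
      C * L * (210 * (K : ℝ) ^ 3 * MM * (M * √M) +
        (K : ℝ) ^ 2 * (W.card : ℝ) ^ 4 * (2 * √M)) := by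
    rw [Finset.sum_product_right]
    simp only [← Finset.sum_div]
    refine (Finset.sum_le_sum e2).trans ?_
    rw [← Finset.mul_sum, Finset.sum_add_distrib, ← Finset.mul_sum, ← Finset.mul_sum]
    have h1 := sum_sqrt_le M
    have h2 := sum_inv_sqrt_le M
    gcongr
  rw [e1]
  calc _ ≤ (∑ z ∈ W ×ˢ I, ‖F z.2 z.1‖) ^ 4 := by
        gcongr
        refine (norm_sum_le _ _).trans (Finset.sum_le_sum fun z _ => ?_)
        rw [norm_mul]
        exact mul_le_of_le_one_left (norm_nonneg _) (hθ _)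
    _ ≤ (∑ z ∈ W ×ˢ I, 1 / √(z.2 : ℝ)) ^ 3 *
          ∑ z ∈ W ×ˢ I, ‖F z.2 z.1‖ ^ 4 / (1 / √(z.2 : ℝ)) ^ 3 :=
        wpow4 _ _ _ fun z hz => by
          have : (1 : ℝ) ≤ z.2 := by
            exact_mod_cast (Finset.mem_Icc.1 (Finset.mem_product.1 hz).2).1
          positivity
    _ ≤ (W.card * (2 * √M)) ^ 3 * (C * L * (210 * (K : ℝ) ^ 3 * MM * (M * √M) +
        (K : ℝ) ^ 2 * (W.card : ℝ) ^ 4 * (2 * √M))) :=
        mul_le_mul (pow_le_pow_left₀ (by positivity) e4 3) e5 (by positivity) (by positivity)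
    _ = C * L * (W.card : ℝ) ^ 3 * (1680 * ((K : ℝ) ^ 3 * (M : ℝ) ^ 3 * MM) +
        16 * ((K : ℝ) ^ 2 * (M : ℝ) ^ 2 * (W.card : ℝ) ^ 4)) := by
        have a6 := Real.mul_self_sqrt (show (0 : ℝ) ≤ M by linarith)
        generalize √(M : ℝ) = t at *
        rw [← a6]
        ring
    _ ≤ C * L * (W.card : ℝ) ^ 3 * (1680 * ((K : ℝ) ^ 3 * (M : ℝ) ^ 3 * MM) +
        1680 * ((K : ℝ) ^ 2 * (M : ℝ) ^ 2 * (W.card : ℝ) ^ 4)) := by gcongr; norm_num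
    _ = _ := by ring

end Pool.Agent.Lib.MP_80d0cf_nt.Up
end

-- part Pool.Agent.Lib.MP_80d0cf_nt.Up.WKern
section

/-! The B process for the Gram kernel with the exact stationary point. -/

open Set MeasureTheory ComplexConjugate

namespace Pool.Agent.Lib.MP_80d0cf_nt.Up

namespace WKernAux

open KernAux

variable {K x ρ u m : ℝ}

/-- amplitude -/
noncomputable def v0 (K x : ℝ) : ℂ := (Om0 (zk K x) : ℂ)

/-- derivative of the amplitude -/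
noncomputable def v1 (K x : ℝ) : ℂ := ((Om1 (zk K x) / (2 * K * zk K x) : ℝ) : ℂ)

/-- phase -/
noncomputable def q0 (ρ u z : ℝ) : ℝ := -(u / 8) * (z - ρ * z ^ 3)

/-- first derivative -/
noncomputable def q1 (K ρ u z : ℝ) : ℝ := -(u / (16 * K)) * (1 / z - 3 * ρ * z)

/-- second derivative -/
noncomputable def q2 (K ρ u z : ℝ) : ℝ := u / (32 * K ^ 2) * (1 / z ^ 3 + 3 * ρ / z)

/-- third derivative -/
noncomputable def q3 (K ρ u z : ℝ) : ℝ := -(u / (64 * K ^ 3)) * (3 / z ^ 5 + 3 * ρ / z ^ 3)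

/-- the positive root of `3 ρ ζ z ^ 2 + z - ζ` -/
noncomputable def zs (ρ ζ : ℝ) : ℝ := 2 * ζ / (1 + √(1 + 12 * ρ * ζ ^ 2))

/-- the main term at the point `z` -/
noncomputable def mz (K ρ m u z : ℝ) : ℂ :=
  (Om0 z : ℂ) * e (q0 ρ u z + m * (K * z ^ 2)) * cF / (√(q2 K ρ u z) : ℝ)

lemma hasDerivAt_v0 (hK : 0 < K) (hx : x ∈ Icc (K / 4) (4 * K)) :
    HasDerivAt (v0 K) (v1 K x) x := by
  have h1 : HasDerivAt (fun y => Om0 (zk K y)) (Om1 (zk K x) / (2 * K * zk K x)) x := by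
    refine ((hasDerivAt_Om0 (zk K x)).comp x (hasDerivAt_zk hK hx)).congr_deriv ?_
    ring
  exact h1.ofReal_comp

lemma norm_v1_le (hK : 0 < K) (hx : x ∈ Icc (K / 4) (4 * K)) : ‖v1 K x‖ ≤ 4 / K := by
  obtain ⟨z1, z2⟩ := zk_mem hK hx
  have hz0 : 0 < zk K x := by linarith
  rw [v1, Complex.norm_real, Real.norm_eq_abs, abs_div,
    abs_of_pos (show 0 < 2 * K * zk K x by positivity)]
  exact div_le_div₀ (by norm_num) (abs_Om1_le _) hK (by nlinarith)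

lemma inv_pow_bd {z : ℝ} (z1 : 1 / 2 ≤ z) (n : ℕ) : 1 / z ^ n ≤ 2 ^ n := by
  rw [div_le_iff₀ (by positivity), ← mul_pow]
  exact one_le_pow₀ (by linarith)

lemma ph3 (hK : 0 < K) (hρ0 : 0 ≤ ρ) (hρ1 : ρ ≤ 1 / 10000) (hu : 0 ≤ u) :
    Ph3 (K / 4) (4 * K) (u / (256 * K ^ 2)) 4096 (fun x => q0 ρ u (zk K x))
      (fun x => q1 K ρ u (zk K x)) (fun x => q2 K ρ u (zk K x)) (fun x => q3 K ρ u (zk K x)) := by
  refine ⟨⟨fun x hx => ?_, fun x hx => ?_⟩, fun x hx => ?_, fun x hx => ?_, fun x hx => ?_,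
    fun x hx => ?_⟩
  all_goals
    obtain ⟨z1, z2⟩ := zk_mem hK hx
    have hz0 : 0 < zk K x := by linarith
    have hz := hasDerivAt_zk hK hx
  · refine ((hz.sub ((hz.fun_pow 3).const_mul ρ)).const_mul (-(u / 8))).congr_deriv ?_
    rw [q1]; norm_num; field_simp; ring
  · refine ((((hasDerivAt_const x 1).div hz hz0.ne').sub (hz.const_mul (3 * ρ))).const_mul
      (-(u / (16 * K)))).congr_deriv ?_
    rw [q2]; field_simp; ring
  · refine ((((hasDerivAt_const x 1).div (hz.fun_pow 3) (by positivity)).add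
      ((hasDerivAt_const x (3 * ρ)).div hz hz0.ne')).const_mul (u / (32 * K ^ 2))).congr_deriv ?_
    rw [q3]; norm_num; field_simp; ring
  · have h1 : 1 / 2 ^ 3 ≤ 1 / zk K x ^ 3 := by gcongr
    have h2 : 0 ≤ 3 * ρ / zk K x := by positivity
    calc u / (256 * K ^ 2) = u / (32 * K ^ 2) * (1 / 2 ^ 3) := by field_simp; ring
      _ ≤ _ := by rw [q2]; gcongr; linarith
  · have h1 := inv_pow_bd z1 3
    have h2 : 3 * ρ / zk K x ≤ 1 := by rw [div_le_one hz0]; linarith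
    calc q2 K ρ u (zk K x) ≤ u / (32 * K ^ 2) * (2 ^ 3 + 1) := by rw [q2]; gcongr
      _ = 72 * (u / (256 * K ^ 2)) := by field_simp; ring
      _ ≤ _ := by gcongr; norm_num
  · have h1 := inv_pow_bd z1 5
    have h2 := inv_pow_bd z1 3
    have h3 : 3 / zk K x ^ 5 + 3 * ρ / zk K x ^ 3 ≤ 97 := by
      have h4 := mul_le_mul hρ1 h2 (by positivity) (by norm_num)
      rw [div_eq_mul_one_div 3, div_eq_mul_one_div (3 * ρ)]
      linarith
    rw [q3, neg_mul, abs_neg, abs_of_nonneg (by positivity)]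
    calc _ ≤ u / (64 * K ^ 3) * 97 * (4 * K - K / 4) := by gcongr; linarith
      _ = 1455 * (u / (256 * K ^ 2)) := by field_simp; ring
      _ ≤ _ := by gcongr; norm_num

lemma q1_bd (hK : 0 < K) (hρ0 : 0 ≤ ρ) (hρ1 : ρ ≤ 1 / 10000) (hu : 0 < u) {z : ℝ} (z1 : 1 / 2 ≤ z)
    (z2 : z ≤ 2) : -(u / (8 * K)) ≤ q1 K ρ u z ∧ q1 K ρ u z < 0 := by
  have hz0 : 0 < z := by linarith
  have h1 : 1 / z ≤ 2 := by simpa using inv_pow_bd z1 1
  have h2 : 1 / 2 ≤ 1 / z := by gcongr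
  have h3 : 0 ≤ 3 * ρ * z := by positivity
  have h4 : 3 * ρ * z ≤ 3 * (1 / 10000) * 2 := by gcongr
  have h5 : 0 < u / (16 * K) := by positivity
  rw [q1, neg_mul]
  constructor
  · rw [neg_le_neg_iff]
    calc _ ≤ u / (16 * K) * 2 := by gcongr; linarith
      _ = _ := by field_simp; norm_num
  · exact neg_lt_zero.2 (mul_pos h5 (by linarith))

lemma zs_pos {ζ : ℝ} (hζ : 0 < ζ) : 0 < zs ρ ζ := by rw [zs]; positivity

lemma zs_eq (hρ0 : 0 ≤ ρ) (ζ : ℝ) : zs ρ ζ = ζ * (1 - 3 * ρ * zs ρ ζ ^ 2) := by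
  have h1 : √(1 + 12 * ρ * ζ ^ 2) ^ 2 = 1 + 12 * ρ * ζ ^ 2 := Real.sq_sqrt (by positivity)
  have h2 : 0 < 1 + √(1 + 12 * ρ * ζ ^ 2) := by positivity
  rw [zs]
  generalize √(1 + 12 * ρ * ζ ^ 2) = s at *
  field_simp
  linear_combination (-ζ) * h1

lemma zs_unique (hρ0 : 0 ≤ ρ) {ζ z : ℝ} (hζ : 0 < ζ) (hz : 0 < z)
    (h : z = ζ * (1 - 3 * ρ * z ^ 2)) : z = zs ρ ζ := by
  have h1 := zs_eq hρ0 ζ
  have h2 := zs_pos (ρ := ρ) hζ
  generalize zs ρ ζ = y at *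
  have h3 : (z - y) * (1 + 3 * ρ * ζ * (z + y)) = 0 := by linear_combination h - h1
  exact sub_eq_zero.1 ((mul_eq_zero.1 h3).resolve_right (by positivity))

lemma q1_iff (hK : 0 < K) (hm : 0 < m) {z : ℝ} (hz : 0 < z) :
    q1 K ρ u z + m = 0 ↔ z = zz K m u * (1 - 3 * ρ * z ^ 2) := by
  have e1 : q1 K ρ u z + m = m / z * (z - zz K m u * (1 - 3 * ρ * z ^ 2)) := by
    rw [q1, zz]; field_simp; ring
  rw [e1, mul_eq_zero, sub_eq_zero, or_iff_right (by positivity)]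

lemma zz_pos (hK : 0 < K) (hm : 0 < m) (hu : 0 < u) : 0 < zz K m u := by rw [zz]; positivity

lemma nostat (hK : 0 < K) (hρ0 : 0 ≤ ρ) (hm : 0 < m) (hu : 0 < u)
    (h : ∀ x ∈ Icc (K / 4) (4 * K), q1 K ρ u (zk K x) + m ≠ 0) :
    mz K ρ m u (zs ρ (zz K m u)) = 0 := by
  have h0 : zs ρ (zz K m u) ≤ 1 / 2 ∨ 2 ≤ zs ρ (zz K m u) := by
    by_contra hc
    push Not at hc
    have hz0 := zs_pos (ρ := ρ) (zz_pos hK hm hu)
    have hx : K * zs ρ (zz K m u) ^ 2 ∈ Icc (K / 4) (4 * K) := by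
      have h1 : (1 / 2) ^ 2 ≤ zs ρ (zz K m u) ^ 2 := by gcongr; exact hc.1.le
      have h2 : zs ρ (zz K m u) ^ 2 ≤ 2 ^ 2 := by gcongr; exact hc.2.le
      constructor <;> nlinarith
    refine h _ hx ?_
    rw [zk, mul_div_cancel_left₀ _ hK.ne', Real.sqrt_sq hz0.le, q1_iff hK hm hz0]
    exact zs_eq hρ0 _
  simp [mz, Om0_eq_zero h0]

lemma Om0_lip (x y : ℝ) : |Om0 x - Om0 y| ≤ 4 * |x - y| := by
  have := (convex_univ (𝕜 := ℝ) (E := ℝ)).norm_image_sub_le_of_norm_hasDerivWithin_le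
    (f := Om0) (f' := Om1) (C := 4) (x := y) (y := x)
    (fun z _ => (hasDerivAt_Om0 z).hasDerivWithinAt) (fun z _ => abs_Om1_le z) (mem_univ _)
    (mem_univ _)
  simpa using this

/-- the amplitude at the exact stationary point -/
lemma amp_cmp (hρ0 : 0 ≤ ρ) (hρ1 : ρ ≤ 1 / 10000) {ζ z : ℝ} (hζ : 0 < ζ) (hz : 0 < z)
    (z2 : z ≤ 2) (h : z = ζ * (1 - 3 * ρ * z ^ 2)) :
    ζ ≤ 3 ∧ |ζ - z| ≤ 36 * ρ ∧
      |Om0 z * √(z ^ 3 / (ζ * (1 + 3 * ρ * z ^ 2))) - ζ * Om0 ζ| ≤ 504 * ρ := by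
  have e0 : 0 ≤ 3 * ρ * z ^ 2 := by positivity
  have e1 : 3 * ρ * z ^ 2 ≤ 12 * ρ := by
    have : z ^ 2 ≤ 2 ^ 2 := by gcongr
    nlinarith
  generalize 3 * ρ * z ^ 2 = ε at *
  have h3 : ζ ≤ 3 := by nlinarith
  have h4 : ζ * ε ≤ 3 * (12 * ρ) := by gcongr
  have h5 : 0 ≤ ζ * ε := by positivity
  have h6 : |ζ - z| ≤ 36 * ρ := by rw [abs_le]; constructor <;> linarith
  have h7 : 0 ≤ 1 - ε := by linarith
  have y1 : √(z ^ 3 / (ζ * (1 + ε))) ≤ ζ := by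
    refine Real.sqrt_le_iff.2 ⟨hζ.le, ?_⟩
    rw [div_le_iff₀ (by positivity)]
    have a1 : z ^ 3 ≤ ζ ^ 3 := by gcongr; linarith
    have a2 : 0 ≤ ζ ^ 3 * ε := by positivity
    linarith
  have y2 : ζ * (1 - ε) ^ 2 ≤ √(z ^ 3 / (ζ * (1 + ε))) := by
    refine Real.le_sqrt_of_sq_le ?_
    rw [le_div_iff₀ (by positivity), h]
    have a2 : 0 ≤ ζ ^ 3 * (1 - ε) ^ 3 * ε ^ 2 := by positivity
    linarith
  have y3 : |√(z ^ 3 / (ζ * (1 + ε))) - ζ| ≤ 72 * ρ := by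
    have a2 : 0 ≤ ζ * ε ^ 2 := by positivity
    rw [abs_le]; constructor <;> linarith
  refine ⟨h3, h6, ?_⟩
  generalize √(z ^ 3 / (ζ * (1 + ε))) = y at *
  have b1 : |Om0 z * (y - ζ)| ≤ 1 * (72 * ρ) := by
    rw [abs_mul, abs_of_nonneg (Om0_nonneg z)]
    gcongr
    exact Om0_le_one z
  have b2 : |ζ * (Om0 z - Om0 ζ)| ≤ 3 * (4 * (36 * ρ)) := by
    rw [abs_mul, abs_of_pos hζ]
    gcongr
    refine (Om0_lip z ζ).trans ?_
    rw [abs_sub_comm]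
    gcongr
  have b3 := abs_add_le (Om0 z * (y - ζ)) (ζ * (Om0 z - Om0 ζ))
  rw [show Om0 z * (y - ζ) + ζ * (Om0 z - Om0 ζ) = Om0 z * y - ζ * Om0 ζ by ring] at b3
  linarith

/-- the exact main term is close to the dual term -/
lemma cmp (hc : CFS) (hK : 0 < K) (hρ0 : 0 ≤ ρ) (hρ1 : ρ ≤ 1 / 10000) (hm : 0 < m) (hu : 0 < u) :
    ‖mz K ρ m u (zs ρ (zz K m u)) - conj (mainT K ρ m u)‖ ≤
      10 * √(2 * K / m) * (504 * ρ + 62208 * (K * m * ρ ^ 2)) := by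
  have hζ := zz_pos hK hm hu
  have hz := zs_pos (ρ := ρ) hζ
  have h := zs_eq hρ0 (zz K m u)
  have hu' : u = 16 * K * m * zz K m u := by rw [zz]; field_simp
  have hle : zs ρ (zz K m u) ≤ zz K m u := by
    have : 0 ≤ zz K m u * (3 * ρ * zs ρ (zz K m u) ^ 2) := by positivity
    linarith
  rcases le_or_gt 2 (zs ρ (zz K m u)) with z2 | z2
  · rw [mainT_eq_zero (Or.inr (z2.trans hle)), mz, Om0_eq_zero (Or.inr z2)]
    simp only [Complex.ofReal_zero, zero_mul, zero_div, map_zero, sub_zero, norm_zero]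
    positivity
  obtain ⟨a1, a2, a3⟩ := amp_cmp hρ0 hρ1 hζ hz z2.le h
  have hg : -gm K ρ m u = q0 ρ u (zz K m u) + m * (K * zz K m u ^ 2) := by
    rw [gm, q0, zz]; field_simp; ring
  rw [mainT, am, map_mul, map_mul, Complex.conj_conj, Complex.conj_ofReal, conj_e, hg, mz]
  generalize zs ρ (zz K m u) = z at *
  generalize zz K m u = ζ at *
  subst hu'
  have hA : 0 < √(2 * K / m) := Real.sqrt_pos.2 (by positivity)
  have hy : 0 < √(z ^ 3 / (ζ * (1 + 3 * ρ * z ^ 2))) := Real.sqrt_pos.2 (by positivity)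
  have hs : √(q2 K ρ (16 * K * m * ζ) z) =
      (√(2 * K / m) * √(z ^ 3 / (ζ * (1 + 3 * ρ * z ^ 2))))⁻¹ := by
    rw [← Real.sqrt_mul (by positivity), ← Real.sqrt_inv, q2]
    congr 1
    field_simp
    ring
  have hd : |q0 ρ (16 * K * m * ζ) z + m * (K * z ^ 2) -
      (q0 ρ (16 * K * m * ζ) ζ + m * (K * ζ ^ 2))| ≤ 2592 * (K * m * ρ ^ 2) := by
    have e1 : q0 ρ (16 * K * m * ζ) z + m * (K * z ^ 2) -
        (q0 ρ (16 * K * m * ζ) ζ + m * (K * ζ ^ 2)) =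
        -(K * m * (ζ - z) ^ 2 * (1 + 2 * ρ * ζ * (ζ + 2 * z))) := by
      rw [q0, q0]
      linear_combination (-2 * K * m * (ζ - z)) * h
    have b1 : (ζ - z) ^ 2 ≤ (36 * ρ) ^ 2 := by
      rw [← sq_abs]; gcongr
    have b2 : 2 * ρ * ζ * (ζ + 2 * z) ≤ 2 * (1 / 10000) * 3 * (3 + 2 * 2) := by gcongr
    rw [e1, abs_neg, abs_of_nonneg (by positivity)]
    calc _ ≤ K * m * (36 * ρ) ^ 2 * 2 := by gcongr; linarith
      _ = _ := by ring
  have he := norm_e_sub_e_le (q0 ρ (16 * K * m * ζ) z + m * (K * z ^ 2))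
    (q0 ρ (16 * K * m * ζ) ζ + m * (K * ζ ^ 2))
  rw [hs]
  generalize √(z ^ 3 / (ζ * (1 + 3 * ρ * z ^ 2))) = y at *
  generalize √(2 * K / m) = A at *
  generalize q0 ρ (16 * K * m * ζ) z + m * (K * z ^ 2) = s at *
  generalize q0 ρ (16 * K * m * ζ) ζ + m * (K * ζ ^ 2) = t at *
  have e2 : (Om0 z : ℂ) * e s * cF / (((A * y)⁻¹ : ℝ) : ℂ) - cF * ((A * ζ * Om0 ζ : ℝ) : ℂ) * e t =
      cF * A * (((Om0 z * y - ζ * Om0 ζ : ℝ) : ℂ) * e s + ((ζ * Om0 ζ : ℝ) : ℂ) * (e s - e t)) := by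
    rw [Complex.ofReal_inv, div_inv_eq_mul]
    push_cast
    ring
  have b1 : |ζ * Om0 ζ| ≤ 3 * 1 := by
    rw [abs_mul, abs_of_pos hζ, abs_of_nonneg (Om0_nonneg ζ)]
    gcongr
    exacts [Om0_nonneg ζ, Om0_le_one ζ]
  have b2 : ‖e s - e t‖ ≤ 2 * 4 * (2592 * (K * m * ρ ^ 2)) := by
    refine he.trans ?_
    gcongr
    exact Real.pi_lt_four.le
  rw [e2, norm_mul, norm_mul, Complex.norm_real, Real.norm_of_nonneg hA.le]
  gcongr
  · exact hc.1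
  refine (norm_add_le _ _).trans (add_le_add ?_ ?_)
  · rwa [norm_mul, norm_e, mul_one, Complex.norm_real, Real.norm_eq_abs]
  · rw [norm_mul, Complex.norm_real, Real.norm_eq_abs]
    refine (mul_le_mul b1 b2 (norm_nonneg _) (by norm_num)).trans (le_of_eq ?_)
    ring

lemma sum_cmp (hc : CFS) {K M : ℕ} (hM : 1 ≤ M) (hMK : M ≤ K) (hρ0 : 0 ≤ ρ)
    (hρ1 : ρ ≤ 1 / 10000) (hρ : ρ ^ 4 * ((K : ℝ) * M) ^ 3 ≤ 1) (hu : 0 < u) :
    ‖∑ m ∈ Finset.Icc 1 M, mz K ρ m u (zs ρ (zz K m u)) - conj (Hp K M ρ u)‖ ≤ 1881360 := by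
  have hM' : (1 : ℝ) ≤ M := by exact_mod_cast hM
  have hMK' : (M : ℝ) ≤ K := by exact_mod_cast hMK
  have hK : (0 : ℝ) < K := by linarith
  have hN : (1 : ℝ) ≤ K * M := one_le_mul_of_one_le_of_one_le (by linarith) hM'
  have hs : (√(K : ℝ) * √M) ^ 2 = K * M := by
    rw [mul_pow, Real.sq_sqrt hK.le, Real.sq_sqrt (by positivity)]
  have h1 : √(K : ℝ) * √M * ρ ≤ 1 := by
    refine (pow_le_one_iff_of_nonneg (by positivity) (show 4 ≠ 0 by norm_num)).1 (le_trans ?_ hρ)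
    calc (√(K : ℝ) * √M * ρ) ^ 4 = ρ ^ 4 * ((√(K : ℝ) * √M) ^ 2) ^ 2 := by ring
      _ ≤ _ := by
        rw [hs]
        gcongr
        norm_num
  have h2 : √(K : ℝ) * √M * (K * M * ρ ^ 2) ≤ 1 := by
    refine (pow_le_one_iff_of_nonneg (by positivity) (show 2 ≠ 0 by norm_num)).1
      (le_trans (le_of_eq ?_) hρ)
    rw [mul_pow, hs]
    ring
  rw [Hp, map_sum, ← Finset.sum_sub_distrib]
  calc _ ≤ ∑ m ∈ Finset.Icc 1 M,
        15 * √(K : ℝ) * (504 * ρ + 62208 * (K * M * ρ ^ 2)) * (1 / √(m : ℝ)) := by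
        refine (norm_sum_le _ _).trans (Finset.sum_le_sum fun m hm => ?_)
        have a1 : (1 : ℝ) ≤ m := by exact_mod_cast (Finset.mem_Icc.1 hm).1
        have a2 : (m : ℝ) ≤ M := by exact_mod_cast (Finset.mem_Icc.1 hm).2
        refine (cmp hc hK hρ0 hρ1 (by linarith) hu).trans ?_
        have a3 := sqrt_two_mul_le K m
        rw [Real.sqrt_div hK.le] at a3
        calc _ ≤ 10 * (3 / 2 * (√(K : ℝ) / √m)) * (504 * ρ + 62208 * (K * M * ρ ^ 2)) := by gcongr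
          _ = _ := by ring
    _ ≤ 15 * √(K : ℝ) * (504 * ρ + 62208 * (K * M * ρ ^ 2)) * (2 * √M) := by
        rw [← Finset.mul_sum]
        gcongr
        exact sum_inv_sqrt_le M
    _ ≤ _ := by linarith

end WKernAux

open KernAux WKernAux in
theorem f3 (hb : BpS) (hc : CFS) : F3S := by
  obtain ⟨C, hC, hb⟩ := hb 4096 (by norm_num)
  refine ⟨8801 * C + 1881360, by positivity, fun K M ρ u hM hMK hρ0 hρ1 hρ hu0 hu => ?_⟩
  have hM' : (1 : ℝ) ≤ M := by exact_mod_cast hM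
  have hMK' : (M : ℝ) ≤ K := by exact_mod_cast hMK
  have hK1 : (1 : ℝ) ≤ K := hM'.trans hMK'
  have hK : (0 : ℝ) < K := by linarith
  have hL := one_le_log_add_two hK1
  have hS1 : (0 : ℝ) ≤ K / (1 + u) := by positivity
  rcases le_or_gt u 1 with h1 | h1
  · rw [Hp_eq_zero (by linarith), sub_zero]
    have h2 : (K : ℝ) / 2 ≤ K / (1 + u) := by gcongr; linarith
    calc ‖DD K ρ u‖ ≤ 4 * K := norm_DD_le K ρ u
      _ = 8 * 1 * (K / 2) := by ring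
      _ ≤ _ := by gcongr <;> linarith [mul_pos (show (0 : ℝ) < 8801 by norm_num) hC]
  have hu1 : 0 < u := by linarith
  have hZ : 72 * (K : ℝ) ≤ (K + 2) ^ 4 := by
    have a1 : 8 * (K : ℝ) ≤ (K + 2) ^ 2 := by nlinarith [sq_nonneg ((K : ℝ) - 2)]
    have a2 : (9 : ℝ) ≤ (K + 2) ^ 2 := by nlinarith
    calc 72 * (K : ℝ) = 9 * (8 * K) := by ring
      _ ≤ (K + 2) ^ 2 * (K + 2) ^ 2 := by gcongr
      _ = _ := by ring
  have hY : u / (8 * K) ≤ M := by rw [div_le_iff₀ (by positivity)]; linarith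
  have hμ : 4 / (K : ℝ) ≤ 4 := div_le_self (by norm_num) hK1
  classical
  have key := hb (K / 4) (4 * K) (u / (256 * K ^ 2)) (4 / K) (u / (8 * K))
    ((K + 2) ^ 4) (v0 K) (v1 K) _ _ _ _
    (Finset.Icc (1 : ℤ) (4 * K : ℕ)) (Finset.Icc (1 : ℤ) M)
    (fun m => if m ∈ Finset.Icc (1 : ℤ) M then mz K ρ m u (zs ρ (zz K m u)) else 0)
    (by linarith) (by positivity) (fun x hx => hasDerivAt_v0 hK hx) (fun x hx => norm_v1_le hK hx)
    (fun x hx => by rw [v0, Om0_eq_zero (zk_out hK hx)]; simp) (WKernAux.ph3 hK hρ0 hρ1 hu0)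
    (fun x hx => by
      obtain ⟨a1, a2⟩ := q1_bd hK hρ0 hρ1 hu1 (zk_mem hK hx).1 (zk_mem hK hx).2
      rw [abs_of_neg a2]
      linarith)
    (by
      have : ((4 : ℝ) * K - K / 4) * (u / (256 * K ^ 2)) = 15 / 128 * (u / (8 * K)) := by
        field_simp; norm_num
      have h0 : 0 ≤ u / (8 * K) := by positivity
      linarith)
    (by linarith) (by linarith) (by linarith) (by linarith)
    (fun n h1 h2 => by
      rw [Finset.mem_Icc]
      have a1 : (0 : ℝ) < n := by linarith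
      have a2 : (n : ℝ) < ((4 * K : ℕ) : ℤ) := by push_cast; linarith
      have a3 : 0 < n := by exact_mod_cast a1
      have a4 : n < ((4 * K : ℕ) : ℤ) := by exact_mod_cast a2
      omega)
    (fun m x hx h => by
      obtain ⟨z1, z2⟩ := zk_mem hK hx
      obtain ⟨a1, a2⟩ := q1_bd hK hρ0 hρ1 hu1 z1 z2
      have a3 : (0 : ℝ) < m := by linarith
      have a4 : (m : ℝ) ≤ ((M : ℤ) : ℝ) := by push_cast; linarith
      have a5 : 0 < m := by exact_mod_cast a3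
      have a6 : m ≤ (M : ℤ) := by exact_mod_cast a4
      have a7 : 0 < zk K x := by linarith
      rw [if_pos (Finset.mem_Icc.2 ⟨by omega, a6⟩),
        ← zs_unique hρ0 (zz_pos hK a3 hu1) a7 ((q1_iff hK a3 a7).1 h), mz, ← zk_sq hK hx, v0])
    (fun m h => by
      split_ifs with hm
      · have a1 : (1 : ℝ) ≤ m := by exact_mod_cast (Finset.mem_Icc.1 hm).1
        exact WKernAux.nostat hK hρ0 (by linarith) hu1 h
      · rfl)
    (fun m hm => if_neg hm)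
  have e1 : ∑ n ∈ Finset.Icc (1 : ℤ) (4 * K : ℕ), v0 K n * e (q0 ρ u (zk K n)) =
      conj (DD K ρ u) := by
    have := sum_Icc_natCast (fun n : ℤ => v0 K n * e (q0 ρ u (zk K n))) 1 (4 * K)
    rw [Nat.cast_one] at this
    rw [← this, DD, Dk, map_sum]
    refine Finset.sum_congr rfl fun k _ => ?_
    rw [map_mul, Complex.conj_ofReal, conj_e, v0, ok, yk, q0, Int.cast_natCast]
    congr 2
    ring
  have e2 : ∑ m ∈ Finset.Icc (1 : ℤ) M,
      (if m ∈ Finset.Icc (1 : ℤ) M then mz K ρ m u (zs ρ (zz K m u)) else 0) =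
      ∑ m ∈ Finset.Icc 1 M, mz K ρ m u (zs ρ (zz K m u)) := by
    have := sum_Icc_natCast (fun m : ℤ => mz K ρ m u (zs ρ (zz K m u))) 1 M
    rw [Nat.cast_one] at this
    rw [Finset.sum_congr rfl fun m hm => if_pos hm, ← this]
    simp only [Int.cast_natCast]
  rw [e1, e2, Real.log_pow] at key
  have key2 := sum_cmp hc hM hMK hρ0 hρ1 hρ hu1
  rw [← Complex.norm_conj, map_sub]
  refine (norm_sub_le_norm_sub_add_norm_sub _ _ _).trans ((add_le_add key key2).trans ?_)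
  set S := (K : ℝ) / (1 + u) + 1 with hS
  have b1 : (u / (8 * K) + 1) * (4 / K) / (u / (256 * K ^ 2)) + (4 * K - K / 4) * (4 / K) =
      143 + 1024 * (K / u) := by
    field_simp
    ring
  have b2 : (K : ℝ) / u ≤ 2 * (K / (1 + u)) := by
    rw [← mul_div_assoc, div_le_div_iff₀ hu1 (by linarith)]
    nlinarith
  have b4 : 143 + 1024 * (K / u) ≤ 2200 * S := by linarith
  have b5 : 1 / ((K : ℝ) + 2) ^ 4 ≤ 1 := by
    rw [div_le_one (by positivity)]; linarith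
  have hS2 : 1 ≤ S := by linarith
  have b6 : 1 ≤ Real.log (K + 2) * S := one_le_mul_of_one_le_of_one_le hL hS2
  rw [b1]
  calc _ ≤ C * (2200 * S * (((4 : ℕ) : ℝ) * Real.log (K + 2)) + Real.log (K + 2) * S) +
        1881360 * (Real.log (K + 2) * S) := by
        gcongr <;> linarith
    _ = _ := by push_cast; ring

end Pool.Agent.Lib.MP_80d0cf_nt.Up
end

-- part Pool.Agent.Lib.MP_80d0cf_nt.Up.WFr
section

/-! The Fresnel constant has norm at most one. -/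

open Set MeasureTheory Filter Topology

namespace Pool.Agent.Lib.MP_80d0cf_nt.Up

namespace WFrAux

/-- damped Fresnel integrand -/
noncomputable def g (ε v : ℝ) : ℂ := ((Real.exp (-(ε * v ^ 2)) : ℝ) : ℂ) * e (v ^ 2 / 2)

lemma g_eq (ε v : ℝ) : g ε v = Complex.exp (-((ε : ℂ) - Real.pi * Complex.I) * (v : ℂ) ^ 2) := by
  rw [g, e, Complex.ofReal_exp, ← Complex.exp_add]
  congr 1
  push_cast
  ring

lemma continuous_g (ε : ℝ) : Continuous (g ε) := by unfold g; fun_prop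

lemma tail (hi : IbpS) {ε a b : ℝ} (hε : 0 ≤ ε) (ha : 0 < a) (hab : a ≤ b) :
    ‖∫ v in a..b, g ε v‖ ≤ 2 / a := by
  have hE : ∀ x : ℝ, HasDerivAt (fun x : ℝ => Real.exp (-(ε * x ^ 2)))
      (Real.exp (-(ε * x ^ 2)) * (-(ε * (2 * x)))) x := fun x => by
    have := (((hasDerivAt_pow 2 x).const_mul ε).neg).exp
    refine this.congr_deriv ?_
    simp
  have h := hi a b (fun x => ((Real.exp (-(ε * x ^ 2)) : ℝ) : ℂ))
    (fun x => ((Real.exp (-(ε * x ^ 2)) * (-(ε * (2 * x))) : ℝ) : ℂ))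
    (fun x => x ^ 2 / 2) (fun x => x) (fun _ => 1)
    (fun x => -(Real.exp (-(ε * x ^ 2)) / x))
    (fun x => 2 * ε * Real.exp (-(ε * x ^ 2)) + Real.exp (-(ε * x ^ 2)) / x ^ 2) hab
    (fun x _ => (hE x).ofReal_comp)
    ⟨fun x _ => by
        have := (hasDerivAt_pow 2 x).div_const 2
        refine this.congr_deriv ?_
        simp,
      fun x _ => hasDerivAt_id x⟩
    (fun x hx => (ha.trans_le hx.1).ne')
    (fun x hx => by
      have hx0 : x ≠ 0 := (ha.trans_le hx.1).ne'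
      have := ((hE x).div (hasDerivAt_id x) hx0).neg
      refine this.congr_deriv ?_
      simp only [id]
      field_simp
      ring)
    (fun x hx => by
      have hx0 : 0 < x := ha.trans_le hx.1
      have hp := Real.exp_pos (-(ε * x ^ 2))
      rw [Complex.norm_real, Complex.norm_real, Real.norm_eq_abs, Real.norm_eq_abs, abs_mul,
        abs_neg, abs_of_pos hp, abs_of_pos hx0, abs_of_nonneg (by positivity), abs_one]
      apply le_of_eq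
      field_simp)
  have hb : 0 < b := ha.trans_le hab
  simp only [Complex.norm_real, Real.norm_eq_abs, abs_of_pos (Real.exp_pos _), abs_of_pos ha,
    abs_of_pos hb] at h
  refine h.trans ?_
  have h1 : Real.exp (-(ε * a ^ 2)) ≤ 1 := Real.exp_le_one_iff.2 (by
    have : 0 ≤ ε * a ^ 2 := by positivity
    linarith)
  have h2 : Real.exp (-(ε * a ^ 2)) / a ≤ 1 / a := by gcongr
  have h3 : 2 / a = 1 / a + 1 / a := by ring
  linarith

lemma norm_full {ε : ℝ} (hε : 0 < ε) : ‖∫ v in Ioi (0 : ℝ), g ε v‖ ≤ 1 / 2 := by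
  have hb : 0 < ((ε : ℂ) - Real.pi * Complex.I).re := by simpa using hε
  simp only [g_eq]
  rw [integral_gaussian_complex_Ioi hb, norm_div,
    show (1 / 2 : ℂ) = ((1 / 2 : ℝ) : ℂ) by push_cast; ring, Complex.norm_cpow_real]
  have h1 : Real.pi ≤ ‖(ε : ℂ) - Real.pi * Complex.I‖ := by
    have := Complex.abs_im_le_norm ((ε : ℂ) - Real.pi * Complex.I)
    simpa [abs_of_pos Real.pi_pos] using this
  have h2 : ‖(Real.pi : ℂ) / ((ε : ℂ) - Real.pi * Complex.I)‖ ≤ 1 := by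
    rw [norm_div, Complex.norm_real, Real.norm_eq_abs, abs_of_pos Real.pi_pos]
    exact div_le_one_of_le₀ h1 (norm_nonneg _)
  have h3 := Real.rpow_le_one (norm_nonneg _) h2 (show (0 : ℝ) ≤ 1 / 2 by norm_num)
  simp only [Complex.norm_ofNat]
  linarith

lemma integrableOn_g {ε : ℝ} (hε : 0 < ε) : IntegrableOn (g ε) (Ioi 0) := by
  have hb : 0 < ((ε : ℂ) - Real.pi * Complex.I).re := by simpa using hε
  have := integrable_cexp_neg_mul_sq hb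
  refine (this.congr (Eventually.of_forall fun v => ?_)).integrableOn
  simp only [g_eq]

lemma norm_trunc (hi : IbpS) {ε y : ℝ} (hε : 0 < ε) (hy : 0 < y) :
    ‖∫ v in (0 : ℝ)..y, g ε v‖ ≤ 1 / 2 + 2 / y := by
  have h1 := intervalIntegral_tendsto_integral_Ioi 0 (integrableOn_g hε) tendsto_id
  have h2 : ‖(∫ v in Ioi (0 : ℝ), g ε v) - ∫ v in (0 : ℝ)..y, g ε v‖ ≤ 2 / y := by
    refine le_of_tendsto (h1.sub_const _).norm ?_
    filter_upwards [eventually_ge_atTop y] with b hb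
    rw [id, intervalIntegral.integral_interval_sub_left ((continuous_g ε).intervalIntegrable _ _)
      ((continuous_g ε).intervalIntegrable _ _)]
    exact tail hi hε.le hy hb
  have h3 := norm_full hε
  have h4 := norm_le_norm_add_norm_sub (∫ v in Ioi (0 : ℝ), g ε v) (∫ v in (0 : ℝ)..y, g ε v)
  linarith

lemma norm_diff {ε y : ℝ} (hε : 0 < ε) (hy : 0 < y) :
    ‖(∫ v in (0 : ℝ)..y, e (v ^ 2 / 2)) - ∫ v in (0 : ℝ)..y, g ε v‖ ≤ ε * y ^ 3 := by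
  rw [← intervalIntegral.integral_sub (Continuous.intervalIntegrable (by fun_prop) _ _)
    ((continuous_g ε).intervalIntegrable _ _)]
  have h := intervalIntegral.norm_integral_le_of_norm_le_const (a := 0) (b := y) (C := ε * y ^ 2)
    (f := fun v => e (v ^ 2 / 2) - g ε v) fun v hv => by
      rw [uIoc_of_le hy.le] at hv
      have h0 : e (v ^ 2 / 2) - g ε v =
          ((1 - Real.exp (-(ε * v ^ 2)) : ℝ) : ℂ) * e (v ^ 2 / 2) := by
        rw [g]; push_cast; ring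
      have h1 := Real.add_one_le_exp (-(ε * v ^ 2))
      have h2 : Real.exp (-(ε * v ^ 2)) ≤ 1 := Real.exp_le_one_iff.2 (by
        have : 0 ≤ ε * v ^ 2 := by positivity
        linarith)
      have h3 : ε * v ^ 2 ≤ ε * y ^ 2 := by
        have := hv.1
        gcongr
        exact hv.2
      rw [h0, norm_mul, norm_e, mul_one, Complex.norm_real, Real.norm_eq_abs,
        abs_of_nonneg (by linarith)]
      linarith
  rw [sub_zero, abs_of_pos hy] at h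
  refine h.trans (le_of_eq ?_)
  ring

end WFrAux

open WFrAux in
theorem fr (hi : IbpS) (hc : CFS) : FrS := by
  have key : ∀ y : ℝ, 0 < y → ‖cF‖ ≤ 1 + 14 / y := fun y hy => by
    have hε : 0 < 1 / y ^ 4 := by positivity
    have h1 := hc.2 y hy
    have h2 := norm_trunc hi hε hy
    have h3 := norm_diff hε hy
    have h4 := norm_le_norm_add_norm_sub' (∫ v in (0 : ℝ)..y, e (v ^ 2 / 2))
      (∫ v in (0 : ℝ)..y, g (1 / y ^ 4) v)
    have h5 := norm_le_norm_add_norm_sub' cF (2 * ∫ v in (0 : ℝ)..y, e (v ^ 2 / 2))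
    rw [norm_mul, Complex.norm_ofNat] at h5
    have h6 : 1 / y ^ 4 * y ^ 3 = 1 / y := by field_simp
    have h7 : 14 / y = 8 / y + 2 * (2 / y) + 2 * (1 / y) := by ring
    linarith
  have ht : Tendsto (fun y : ℝ => 1 + 14 / y) atTop (𝓝 (1 + 0)) :=
    (tendsto_const_nhds.div_atTop tendsto_id).const_add 1
  rw [add_zero] at ht
  exact ge_of_tendsto ht ((eventually_gt_atTop 0).mono key)

end Pool.Agent.Lib.MP_80d0cf_nt.Up
end
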