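import Pool.Agent.Lib.MP_80d0cf_nt.Up.WFr
import Pool.Agent.Lib.MP_80d0cf_nt.Up.Kern
import Pool.Agent.Lib.MP_80d0cf_nt.Up.Grid

-- part Pool.Agent.Lib.MP_80d0cf_nt.Up.WQf
section

/-! The quadratic form of the square of the kernel without its diagonal mass. -/

open MeasureTheory ComplexConjugate Finset

namespace Pool.Agent.Lib.MP_80d0cf_nt.Up

namespace WQfAux

lemma int_e (n : ℤ) : ∫ δ in (0 : ℝ)..1, e (n * δ) = if n = 0 then 1 else 0 := by
  split_ifs with h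
  · simp [h]
  · have h0 : (2 * Real.pi * Complex.I * n : ℂ) ≠ 0 := by
      simp [h, Real.pi_ne_zero]
    have h1 (δ : ℝ) : e (n * δ) = Complex.exp (2 * Real.pi * Complex.I * n * δ) := by
      rw [e]; congr 1; push_cast; ring
    have h2 := integral_exp_mul_complex (a := 0) (b := 1) h0
    simp only [h1]
    rw [h2, ← h1, ← h1, mul_one, e_int, mul_zero, e_zero, sub_self, zero_div]

lemma key (W s : Finset ℤ) (r : ℤ → ℝ) (k : ℤ → ℂ) :
    ∫ δ in (0 : ℝ)..1, ((‖∑ u ∈ W, (r u : ℂ) * e (-(u * δ))‖ ^ 2 : ℝ) : ℂ) *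
        ∑ w ∈ s, k w * e (w * δ) =
      ∑ u ∈ W, ∑ v ∈ W, (r u * r v : ℂ) * ∑ w ∈ s, if w = u - v then k w else 0 := by
  have h1 (δ : ℝ) : ((‖∑ u ∈ W, (r u : ℂ) * e (-(u * δ))‖ ^ 2 : ℝ) : ℂ) *
      ∑ w ∈ s, k w * e (w * δ) =
      ∑ u ∈ W, ∑ v ∈ W, ∑ w ∈ s, (r u * r v * k w : ℂ) * e ((w - (u - v) : ℤ) * δ) := by
    rw [← Complex.normSq_eq_norm_sq, ← Complex.mul_conj, map_sum, sum_mul_sum, sum_mul]
    refine sum_congr rfl fun u _ => ?_
    rw [sum_mul]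
    refine sum_congr rfl fun v _ => ?_
    rw [mul_sum]
    refine sum_congr rfl fun w _ => ?_
    rw [map_mul, Complex.conj_ofReal, conj_e, neg_neg,
      show ((w - (u - v) : ℤ) : ℝ) * δ = -(u * δ) + v * δ + w * δ by push_cast; ring, e_add, e_add]
    ring
  simp only [h1]
  rw [intervalIntegral.integral_finsetSum fun u _ => Continuous.intervalIntegrable (by fun_prop) _ _]
  refine sum_congr rfl fun u _ => ?_
  rw [intervalIntegral.integral_finsetSum fun u _ => Continuous.intervalIntegrable (by fun_prop) _ _]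
  refine sum_congr rfl fun v _ => ?_
  rw [intervalIntegral.integral_finsetSum fun u _ => Continuous.intervalIntegrable (by fun_prop) _ _,
    mul_sum]
  refine sum_congr rfl fun w _ => ?_
  rw [intervalIntegral.integral_const_mul, int_e]
  simp only [sub_eq_zero]
  split_ifs <;> simp

/-- a convolution form is bounded by the maximum of the Fourier series -/
lemma conv (W s : Finset ℤ) (r : ℤ → ℝ) (k : ℤ → ℂ) {L : ℝ} (hs : ∀ u ∈ W, ∀ v ∈ W, u - v ∈ s)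
    (h : ∀ δ : ℝ, ‖∑ w ∈ s, k w * e (w * δ)‖ ≤ L) :
    ‖∑ u ∈ W, ∑ v ∈ W, (r u * r v : ℂ) * k (u - v)‖ ≤ L * ∑ u ∈ W, r u ^ 2 := by
  have h1 := key W s r k
  rw [show ∑ u ∈ W, ∑ v ∈ W, (r u * r v : ℂ) * ∑ w ∈ s, (if w = u - v then k w else 0) =
    ∑ u ∈ W, ∑ v ∈ W, (r u * r v : ℂ) * k (u - v) from sum_congr rfl fun u hu =>
      sum_congr rfl fun v hv => by rw [sum_ite_eq', if_pos (hs u hu v hv)]] at h1
  have h2 := key W {0} r fun _ => 1
  rw [show ∑ u ∈ W, ∑ v ∈ W, (r u * r v : ℂ) * ∑ w ∈ {0}, (if w = u - v then (1 : ℂ) else 0) =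
    ((∑ u ∈ W, r u ^ 2 : ℝ) : ℂ) by
      push_cast
      refine sum_congr rfl fun u hu => ?_
      simp [sub_eq_zero, hu, sq]] at h2
  simp only [sum_singleton, Int.cast_zero, zero_mul, e_zero, mul_one] at h2
  rw [intervalIntegral.integral_ofReal, Complex.ofReal_inj] at h2
  rw [← h1, ← h2, ← intervalIntegral.integral_const_mul]
  refine intervalIntegral.norm_integral_le_of_norm_le zero_le_one (.of_forall fun δ _ => ?_)
    (Continuous.intervalIntegrable (by fun_prop) _ _)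
  rw [norm_mul, Complex.norm_real, Real.norm_of_nonneg (sq_nonneg _), mul_comm]
  exact mul_le_mul_of_nonneg_right (h δ) (sq_nonneg _)

lemma schurR (W : Finset ℤ) (r : ℤ → ℝ) (a : ℤ → ℤ → ℝ) {L : ℝ} (h0 : ∀ u v, 0 ≤ a u v)
    (hs : ∀ u v, a u v = a v u) (h : ∀ u ∈ W, ∑ v ∈ W, a u v ≤ L) :
    ∑ u ∈ W, ∑ v ∈ W, r u * r v * a u v ≤ L * ∑ u ∈ W, r u ^ 2 := by
  have h1 : ∑ u ∈ W, ∑ v ∈ W, r u ^ 2 * a u v ≤ L * ∑ u ∈ W, r u ^ 2 := by
    rw [mul_sum]
    refine sum_le_sum fun u hu => ?_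
    rw [← mul_sum, mul_comm L]
    exact mul_le_mul_of_nonneg_left (h u hu) (sq_nonneg _)
  have h2 : ∑ u ∈ W, ∑ v ∈ W, r v ^ 2 * a v u ≤ L * ∑ u ∈ W, r u ^ 2 := by rwa [sum_comm]
  have h3 : 2 * ∑ u ∈ W, ∑ v ∈ W, r u * r v * a u v ≤
      ∑ u ∈ W, ∑ v ∈ W, r u ^ 2 * a u v + ∑ u ∈ W, ∑ v ∈ W, r v ^ 2 * a v u := by
    simp only [mul_sum, ← sum_add_distrib]
    refine sum_le_sum fun u _ => sum_le_sum fun v _ => ?_
    rw [hs v u]
    nlinarith [mul_nonneg (sq_nonneg (r u - r v)) (h0 u v)]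
  linarith

lemma sum_inv_sqrt_sub_le {M m : ℕ} (hm : m ∈ Icc 1 M) :
    ∑ m' ∈ (Icc 1 M).erase m, 1 / √|(m : ℝ) - m'| ≤ 4 * √M := by
  rw [mem_Icc] at hm
  have h0 (S : Finset ℕ) (g : ℕ → ℕ) (h1 : ∀ x ∈ S, g x ∈ Icc 1 M) (h2 : Set.InjOn g S)
      (h3 : ∀ x ∈ S, |(m : ℝ) - x| = g x) : ∑ m' ∈ S, 1 / √|(m : ℝ) - m'| ≤ 2 * √M := by
    rw [sum_congr rfl fun x hx => by rw [h3 x hx], ← sum_image (f := fun j : ℕ => 1 / √(j : ℝ)) h2]
    exact (sum_le_sum_of_subset_of_nonneg (image_subset_iff.2 h1) fun _ _ _ => by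
      positivity).trans (sum_inv_sqrt_le M)
  rw [← sum_filter_add_sum_filter_not _ (· < m)]
  have h1 := h0 (((Icc 1 M).erase m).filter (· < m)) (m - ·)
    (fun x hx => by simp only [mem_filter, mem_erase, mem_Icc] at hx ⊢; omega)
    (fun x hx y hy h => by
      simp only [coe_filter, mem_erase, mem_Icc, Set.mem_ofPred_eq] at hx hy h; omega)
    fun x hx => by
      have := (mem_filter.1 hx).2.le
      rw [Nat.cast_sub this, abs_of_nonneg (sub_nonneg.2 (Nat.cast_le.2 this))]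
  have h2 := h0 (((Icc 1 M).erase m).filter fun x => ¬ x < m) (· - m)
    (fun x hx => by simp only [mem_filter, mem_erase, mem_Icc] at hx ⊢; omega)
    (fun x hx y hy h => by
      simp only [coe_filter, mem_erase, mem_Icc, Set.mem_ofPred_eq] at hx hy h; omega)
    fun x hx => by
      have := not_lt.1 (mem_filter.1 hx).2
      rw [Nat.cast_sub this, abs_sub_comm, abs_of_nonneg (sub_nonneg.2 (Nat.cast_le.2 this))]
  linarith

/-- the off-diagonal part of the square of the dual sum -/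
noncomputable def kap (K M : ℕ) (ρ w : ℝ) : ℂ :=
  ∑ m ∈ Icc 1 M, ∑ m' ∈ (Icc 1 M).erase m, mainT K ρ m w * conj (mainT K ρ m' w)

lemma kap_eq_zero {K M : ℕ} {ρ w : ℝ} (hK : 1 ≤ K) (hw : w ≤ 8 * K) : kap K M ρ w = 0 := by
  refine sum_eq_zero fun m hm => sum_eq_zero fun m' _ => ?_
  have hK' : (0 : ℝ) < K := by exact_mod_cast hK
  have hm' : (1 : ℝ) ≤ m := by exact_mod_cast (mem_Icc.1 hm).1
  rw [mainT_eq_zero (Or.inl ?_), zero_mul]
  rw [zz, div_le_iff₀ (by positivity)]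
  nlinarith

lemma norm_Hp_sq (K M : ℕ) (ρ w : ℝ) :
    ‖Hp K M ρ w‖ ^ 2 = ∑ m ∈ Icc 1 M, ‖am K m w‖ ^ 2 + (kap K M ρ w).re := by
  rw [CombBAux.norm_sq_eq, Hp, map_sum, sum_mul_sum, kap, Complex.re_sum, Complex.re_sum,
    ← sum_add_distrib]
  refine sum_congr rfl fun m hm => ?_
  rw [← add_sum_erase _ _ hm, Complex.add_re, ← CombBAux.norm_sq_eq, norm_mainT]

lemma pointwise (hc : CFS) {K M : ℕ} {ρ w C3 Ca l : ℝ} (hK : 1 ≤ K) (h3 : 0 < C3) (ha : 0 < Ca)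
    (hl : 0 ≤ l) (hw : 0 ≤ w) (hE : ‖DD K ρ w - Hp K M ρ w‖ ≤ C3 * l * (K / (1 + w) + 1))
    (hA : 8 * K ≤ w → ∑ m ∈ Icc 1 M, ‖am K m w‖ ^ 2 ≤ O2 K + Ca * ((K : ℝ) ^ 2 / w + 1)) :
    ‖DD K ρ w‖ ^ 2 - O2 K ≤ 2 * C3 ^ 2 * l ^ 2 * K ^ 2 * (1 / (1 + w) ^ 2) +
      2 * Ca * K ^ 2 * (1 / (1 + w)) + (4 * C3 ^ 2 * l ^ 2 + Ca + 240 * C3 * l * √(K * M)) +
      (kap K M ρ w).re := by
  have hK' : (1 : ℝ) ≤ K := by exact_mod_cast hK
  have p1 : 0 ≤ 2 * C3 ^ 2 * l ^ 2 * K ^ 2 * (1 / (1 + w) ^ 2) := by positivity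
  have p2 : 0 ≤ 2 * Ca * K ^ 2 * (1 / (1 + w)) := by positivity
  have p3 : 0 ≤ 240 * C3 * l * √(K * M) := by positivity
  have p4 : 0 ≤ C3 ^ 2 * l ^ 2 := by positivity
  rcases le_total w (8 * K) with h | h
  · rw [Hp_eq_zero h, sub_zero] at hE
    have h1 : 0 ≤ O2 K := sum_nonneg fun _ _ => sq_nonneg _
    have h2 := pow_le_pow_left₀ (norm_nonneg _) hE 2
    have h4 : (C3 * l * (K / (1 + w) + 1)) ^ 2 ≤
        2 * C3 ^ 2 * l ^ 2 * K ^ 2 * (1 / (1 + w) ^ 2) + 2 * (C3 ^ 2 * l ^ 2) := by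
      rw [show 2 * C3 ^ 2 * l ^ 2 * K ^ 2 * (1 / (1 + w) ^ 2) =
        2 * (C3 ^ 2 * l ^ 2) * (K / (1 + w)) ^ 2 by rw [div_pow]; ring]
      nlinarith [mul_nonneg p4 (sq_nonneg (K / (1 + w) - 1))]
    rw [kap_eq_zero hK h, Complex.zero_re]
    linarith
  · have h1 : (K : ℝ) / (1 + w) ≤ 1 := by rw [div_le_one (by positivity)]; linarith
    have h2 : ‖DD K ρ w - Hp K M ρ w‖ ≤ 2 * (C3 * l) :=
      hE.trans ((mul_le_mul_of_nonneg_left (by linarith) (by positivity)).trans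
        (mul_comm _ 2).le)
    have h4 : ‖DD K ρ w‖ ≤ ‖Hp K M ρ w‖ + 2 * (C3 * l) := by
      linarith [norm_sub_norm_le (DD K ρ w) (Hp K M ρ w)]
    have h5 := pow_le_pow_left₀ (norm_nonneg _) h4 2
    have h6 := mul_le_mul_of_nonneg_left (norm_Hp_le hc K M ρ w) (show 0 ≤ C3 * l by positivity)
    have h7 : (K : ℝ) ^ 2 / w ≤ 2 * K ^ 2 * (1 / (1 + w)) := by
      rw [mul_one_div, div_le_div_iff₀ (by linarith) (by positivity)]
      nlinarith [mul_nonneg (sq_nonneg (K : ℝ)) (show 0 ≤ w - 1 by linarith)]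
    have h8 := mul_le_mul_of_nonneg_left h7 ha.le
    have h9 := hA h
    have h10 := norm_Hp_sq K M ρ w
    nlinarith

lemma card_le {W : Finset ℤ} {u : ℤ} {N : ℕ} (h : ∀ v ∈ W, |(u : ℝ) - v| ≤ N) :
    (W.card : ℝ) ≤ 2 * N + 1 := by
  have h1 : W ⊆ Icc (u - N) (u + N) := fun v hv => by
    have h2 : |u - v| ≤ N := by exact_mod_cast h v hv
    rw [abs_le] at h2
    rw [mem_Icc]
    omega
  have h2 := card_le_card h1
  rw [Int.card_Icc] at h2
  exact_mod_cast (show W.card ≤ 2 * N + 1 by omega)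

lemma row_sq (W : Finset ℤ) (u : ℤ) : ∑ v ∈ W, 1 / (1 + |(u : ℝ) - v|) ^ 2 ≤ 4 := by
  have := CombBAux.sum_inv_sq_le (W.image (u - ·))
  rw [sum_image fun x _ y _ h => sub_right_injective h] at this
  simpa using this

end WQfAux

open WQfAux

theorem qf (hc : CFS) (hf : F3S) (ha : QaS) (hb : QbS) : QfS := by
  obtain ⟨C3, h3, hf⟩ := hf
  obtain ⟨Ca, hCa, ha⟩ := ha
  obtain ⟨Cb, hCb, hb⟩ := hb
  refine ⟨76 * C3 ^ 2 + 37 * Ca + 4080 * C3 + 16 * Cb, by positivity, ?_⟩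
  intro K M ρ W r hM hMK h0 h1 h2 hr hW
  have hMK1 : M ≤ K := (Nat.le_self_pow three_ne_zero M).trans hMK
  have hK : 1 ≤ K := hM.trans hMK1
  have hK' : (1 : ℝ) ≤ K := by exact_mod_cast hK
  have hM' : (1 : ℝ) ≤ M := by exact_mod_cast hM
  have hMK' : (M : ℝ) ≤ K := by exact_mod_cast hMK1
  have hl := one_le_log_add_two hK'
  set l := Real.log (K + 2) with hl'
  have hl2 : l ≤ l ^ 2 := le_self_pow₀ hl two_ne_zero
  have hs1 : (M : ℝ) * √M ≤ √K := Real.le_sqrt_of_sq_le (by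
    rw [mul_pow, Real.sq_sqrt (by positivity), ← pow_succ]; exact_mod_cast hMK)
  have hs2 : (K : ℝ) * √K * (M * √M) ≤ K ^ 2 :=
    (mul_le_mul_of_nonneg_left hs1 (by positivity)).trans (le_of_eq (by
      rw [mul_assoc, Real.mul_self_sqrt (by positivity), sq]))
  have hKM : (K : ℝ) * M ≤ K ^ 2 := by rw [sq]; gcongr
  have hKM1 : (1 : ℝ) ≤ K * M := one_le_mul_of_one_le_of_one_le hK' hM'
  set R := ∑ u ∈ W, r u ^ 2 with hR
  have hR0 : 0 ≤ R := sum_nonneg fun _ _ => sq_nonneg _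
  set A3 := 4 * C3 ^ 2 * l ^ 2 + Ca + 240 * C3 * l * √(K * M) with hA3
  let a (u v : ℤ) : ℝ := 2 * C3 ^ 2 * l ^ 2 * K ^ 2 * (1 / (1 + |(u : ℝ) - v|) ^ 2) +
    2 * Ca * K ^ 2 * (1 / (1 + |(u : ℝ) - v|)) + A3
  -- pointwise bound
  have p1 : ∀ u ∈ W, ∀ v ∈ W, ‖DD K ρ ((u : ℝ) - v)‖ ^ 2 - O2 K ≤
      a u v + (kap K M ρ ((u : ℝ) - v)).re + (kap K M ρ ((v : ℝ) - u)).re := by
    intro u hu v hv
    have h4 := pointwise hc hK h3 hCa (zero_le_one.trans hl) (abs_nonneg ((u : ℝ) - v))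
      (hf K M ρ _ hM hMK1 h0 h1 h2 (abs_nonneg _) (hW u hu v hv)) (ha K M _ hK)
    rcases le_total 0 ((u : ℝ) - v) with h | h
    · rw [kap_eq_zero (w := (v : ℝ) - u) hK (by linarith), Complex.zero_re, add_zero]
      simpa only [a, abs_of_nonneg h] using h4
    · rw [kap_eq_zero (w := (u : ℝ) - v) hK (by linarith), Complex.zero_re, add_zero,
        ← Complex.norm_conj, ← DD_neg]
      simpa only [a, abs_of_nonpos h, neg_sub] using h4
  -- the majorant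
  have p2 : ∑ u ∈ W, ∑ v ∈ W, r u * r v * a u v ≤
      (76 * C3 ^ 2 + 37 * Ca + 4080 * C3) * l ^ 2 * K ^ 2 * R := by
    refine schurR W r a (fun u v => by positivity) (fun u v => by simp only [a, abs_sub_comm])
      fun u hu => ?_
    have r1 := row_sq W u
    have r2 := row W u (8 * K * M) (by positivity) (hW u hu)
    have r3 := card_le (W := W) (u := u) (N := 8 * K * M) (by push_cast; exact hW u hu)
    have r4 : Real.log (8 * K * M + 1) ≤ 4 * l := by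
      rw [hl', ← Nat.cast_ofNat (n := 4), ← Real.log_pow]
      refine Real.log_le_log (by positivity) ?_
      have : (0 : ℝ) ≤ K ^ 3 := by positivity
      have : (0 : ℝ) ≤ K ^ 4 := by positivity
      nlinarith
    have r5 : (W.card : ℝ) ≤ 17 * (K * M) := by push_cast at r3; linarith
    have r6 : (K * M : ℝ) * A3 ≤ (4 * C3 ^ 2 + Ca + 240 * C3) * l ^ 2 * K ^ 2 := by
      have e : (K * M : ℝ) * A3 = 4 * C3 ^ 2 * l ^ 2 * (K * M) + Ca * 1 * (K * M) +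
          240 * C3 * l * (K * √K * (M * √M)) := by
        rw [hA3, Real.sqrt_mul (by positivity)]; ring
      rw [e, add_mul, add_mul, add_mul, add_mul]
      gcongr
      exact hl.trans hl2
    simp only [a, sum_add_distrib, ← mul_sum, sum_const, nsmul_eq_mul]
    have r7 := mul_le_mul_of_nonneg_left r1 (show 0 ≤ 2 * C3 ^ 2 * l ^ 2 * K ^ 2 by positivity)
    have r8 := mul_le_mul_of_nonneg_left (r2.trans (show _ ≤ 10 * l ^ 2 by linarith))
      (show 0 ≤ 2 * Ca * K ^ 2 by positivity)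
    have r9 := mul_le_mul_of_nonneg_right r5 (show 0 ≤ A3 by positivity)
    linarith
  -- the off-diagonal terms
  have p3 : ∑ u ∈ W, ∑ v ∈ W, r u * r v * (kap K M ρ ((u : ℝ) - v)).re ≤
      8 * Cb * l ^ 2 * K ^ 2 * R := by
    have e : ∑ u ∈ W, ∑ v ∈ W, r u * r v * (kap K M ρ ((u : ℝ) - v)).re =
        (∑ m ∈ Icc 1 M, ∑ m' ∈ (Icc 1 M).erase m, ∑ u ∈ W, ∑ v ∈ W, (r u * r v : ℂ) *
          (mainT K ρ m (u - v : ℤ) * conj (mainT K ρ m' (u - v : ℤ)))).re := by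
      simp only [← Complex.re_ofReal_mul, ← Complex.re_sum, kap, mul_sum, Int.cast_sub,
        Complex.ofReal_mul]
      congr 1
      refine ((sum_congr rfl fun u _ => sum_comm).trans sum_comm).trans
        (sum_congr rfl fun m _ => ?_)
      exact (sum_congr rfl fun u _ => sum_comm).trans sum_comm
    have q1 : ∀ m ∈ Icc 1 M, ∀ m' ∈ (Icc 1 M).erase m,
        ‖∑ u ∈ W, ∑ v ∈ W, (r u * r v : ℂ) *
          (mainT K ρ m (u - v : ℤ) * conj (mainT K ρ m' (u - v : ℤ)))‖ ≤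
        Cb * R * (K * √K * (1 / √|(m : ℝ) - m'|) + K * l * (1 / √m) * (1 / √m')) := by
      intro m hm m' hm'
      have hmM : (m : ℝ) ≤ M := by exact_mod_cast (mem_Icc.1 hm).2
      refine (conv W (Icc (-(32 * K * M : ℤ)) (32 * K * M)) r
        (fun w => mainT K ρ m w * conj (mainT K ρ m' w)) (fun u hu v hv => ?_) fun δ =>
          hb K M m m' ρ δ _ hMK1 hm (mem_of_mem_erase hm') (ne_of_mem_erase hm').symm h0 h1
            fun n n1 n2 => ?_).trans (le_of_eq ?_)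
      · have : |(u : ℝ) - v| ≤ 32 * K * M := by linarith [hW u hu v hv]
        exact mem_Icc.2 (abs_le.1 (by exact_mod_cast this))
      · have : |(n : ℝ)| ≤ 32 * K * M := by
          rw [abs_of_pos n1]; exact n2.le.trans (by gcongr)
        exact mem_Icc.2 (abs_le.1 (by exact_mod_cast this))
      · rw [Real.sqrt_mul (by positivity)]; ring
    rw [e]
    refine (Complex.re_le_norm _).trans ((norm_sum_le _ _).trans ((sum_le_sum fun m hm =>
      (norm_sum_le _ _).trans (sum_le_sum (q1 m hm))).trans ?_))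
    have q2 : ∀ m ∈ Icc 1 M, ∑ m' ∈ (Icc 1 M).erase m,
        Cb * R * (K * √K * (1 / √|(m : ℝ) - m'|) + K * l * (1 / √m) * (1 / √m')) ≤
        Cb * R * (K * √K * (4 * √M) + K * l * (2 * √M) * (1 / √m)) := by
      intro m hm
      rw [← mul_sum, sum_add_distrib, ← mul_sum, ← mul_sum, mul_right_comm _ (2 * √(M : ℝ))]
      gcongr
      · exact sum_inv_sqrt_sub_le hm
      · exact (sum_le_sum_of_subset_of_nonneg (erase_subset _ _) fun _ _ _ => by
          positivity).trans (sum_inv_sqrt_le M)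
    refine (sum_le_sum q2).trans ?_
    rw [← mul_sum, sum_add_distrib, sum_const, Nat.card_Icc, Nat.add_sub_cancel, nsmul_eq_mul,
      ← mul_sum]
    have q3 := mul_le_mul_of_nonneg_left (sum_inv_sqrt_le M)
      (show 0 ≤ K * l * (2 * √(M : ℝ)) by positivity)
    have q4 : K * l * (2 * √(M : ℝ)) * (2 * √M) ≤ 4 * (l ^ 2 * K ^ 2) := by
      rw [show K * l * (2 * √(M : ℝ)) * (2 * √M) = 4 * (l * (K * (√M * √M))) by ring,
        Real.mul_self_sqrt (by positivity)]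
      gcongr
    have q5 : (K : ℝ) ^ 2 ≤ l ^ 2 * K ^ 2 := le_mul_of_one_le_left (by positivity) (hl.trans hl2)
    calc _ ≤ Cb * R * (8 * (l ^ 2 * K ^ 2)) :=
          mul_le_mul_of_nonneg_left (by linarith) (by positivity)
      _ = _ := by ring
  have p4 : ∑ u ∈ W, ∑ v ∈ W, r u * r v * (kap K M ρ ((v : ℝ) - u)).re ≤
      8 * Cb * l ^ 2 * K ^ 2 * R := by
    rw [sum_comm]
    simpa only [mul_comm (r _) (r _)] using p3
  calc _ ≤ ∑ u ∈ W, ∑ v ∈ W, r u * r v *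
        (a u v + (kap K M ρ ((u : ℝ) - v)).re + (kap K M ρ ((v : ℝ) - u)).re) :=
        sum_le_sum fun u hu => sum_le_sum fun v hv =>
          mul_le_mul_of_nonneg_left (p1 u hu v hv) (mul_nonneg (hr u) (hr v))
    _ ≤ _ := by
        simp only [mul_add, sum_add_distrib]
        linarith

end Pool.Agent.Lib.MP_80d0cf_nt.Up
end

-- part Pool.Agent.Lib.MP_80d0cf_nt.Up.WEn
section

/-! Additive energy of a set of averaged large values, with the diagonal split off. -/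

open Finset ComplexConjugate

namespace Pool.Agent.Lib.MP_80d0cf_nt.Up

namespace WEnAux

open CombBAux

variable {ι ι' : Type*}

lemma fib (I : Finset ι) (v : ι → ℤ) (φ : ℤ → ℝ) :
    ∑ i ∈ I, φ (v i) = ∑ u ∈ I.image v, (∑ i ∈ I, if v i = u then (1 : ℝ) else 0) * φ u := by
  simp only [sum_mul]
  rw [sum_comm]
  refine sum_congr rfl fun i hi => ?_
  simp only [ite_mul, one_mul, zero_mul, sum_ite_eq, if_pos (mem_image_of_mem v hi)]

lemma split (s : Finset ℕ) (f : ℕ × ℕ → ℝ) :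
    ∑ q ∈ s ×ˢ s, f q = ∑ k ∈ s, f (k, k) + ∑ q ∈ s.offDiag, f q := by
  rw [← diag_union_offDiag, sum_union (disjoint_diag_offDiag s), sum_diag]

lemma moment_eq (s : Finset ℕ) (o y : ℕ → ℝ) (I : Finset ι) (v : ι → ℤ) :
    ∑ q ∈ s ×ˢ s, o q.1 * o q.2 * ‖∑ i ∈ I, e (v i * (y q.1 - y q.2))‖ ^ 2 =
      ∑ i ∈ I, ∑ j ∈ I, ‖Dk s o y ((v i : ℝ) - v j)‖ ^ 2 := by
  simp only [norm_sq_eq, ← Complex.re_ofReal_mul, ← Complex.re_sum]
  congr 1
  simp only [Dk, map_sum, sum_mul_sum]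
  simp only [mul_sum]
  rw [sum_comm]
  refine sum_congr rfl fun i _ => ?_
  rw [sum_comm]
  refine sum_congr rfl fun j _ => ?_
  rw [sum_product]
  refine sum_congr rfl fun k _ => sum_congr rfl fun k' _ => ?_
  rw [map_mul, Complex.conj_ofReal, ← e_sub, mul_mul_mul_comm, ← e_sub]
  push_cast
  congr 2
  ring

/-- the off-diagonal second moment -/
lemma moment_off (s : Finset ℕ) (o y : ℕ → ℝ) (I : Finset ι) (v : ι → ℤ) {c D : ℝ}
    (h : ∀ (V : Finset ℤ) (r : ℤ → ℝ), (∀ u, 0 ≤ r u) →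
      (∀ u ∈ V, ∀ v ∈ V, |(u : ℝ) - v| ≤ D) →
      ∑ u ∈ V, ∑ v ∈ V, r u * r v * (‖Dk s o y ((u : ℝ) - v)‖ ^ 2 - ∑ k ∈ s, o k ^ 2) ≤
        c * ∑ u ∈ V, r u ^ 2)
    (hv : ∀ i ∈ I, ∀ j ∈ I, |(v i : ℝ) - v j| ≤ D) :
    ∑ q ∈ s.offDiag, o q.1 * o q.2 * ‖∑ i ∈ I, e (v i * (y q.1 - y q.2))‖ ^ 2 ≤
      c * co I I v v := by
  have h1 := moment_eq s o y I v
  rw [split] at h1
  have h2 := h (I.image v) (fun u => ∑ i ∈ I, if v i = u then (1 : ℝ) else 0)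
    (fun _ => sum_nonneg fun _ _ => by positivity) (by
      simp only [mem_image, forall_exists_index, and_imp, forall_apply_eq_imp_iff₂]
      exact hv)
  rw [co_eq I I v v _ fun i hi => mem_image_of_mem v hi]
  simp only [← sq]
  refine le_trans (le_of_eq ?_) h2
  simp only [mul_assoc, ← mul_sum]
  rw [← fib I v fun u => ∑ t ∈ I.image v, (∑ i ∈ I, if v i = t then (1 : ℝ) else 0) *
    (‖Dk s o y ((u : ℝ) - t)‖ ^ 2 - ∑ k ∈ s, o k ^ 2),
    sum_congr rfl fun i _ => (fib I v fun t =>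
      ‖Dk s o y ((v i : ℝ) - t)‖ ^ 2 - ∑ k ∈ s, o k ^ 2).symm]
  simp only [sum_sub_distrib, ← h1, sum_const, nsmul_eq_mul, sub_self, mul_zero, e_zero, mul_one,
    Complex.norm_natCast, mul_assoc]
  rw [sum_congr rfl (g := fun k => (I.card : ℝ) * (I.card * o k ^ 2)) fun k _ => by ring,
    ← mul_sum, ← mul_sum]
  ring

lemma bilin2 (s' s : Finset ℕ) (o y : ℕ → ℝ) (a : ℕ → ℂ) (hs : s' ⊆ s) (ho : ∀ k ∈ s, 0 ≤ o k)
    (ha : ∀ k ∈ s', ‖a k‖ ≤ o k) (I : Finset ι) (J : Finset ι') (v : ι → ℤ) (w : ι' → ℤ)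
    {A B : ℝ}
    (hA : ∑ q ∈ s.offDiag, o q.1 * o q.2 * ‖∑ i ∈ I, e (v i * (y q.1 - y q.2))‖ ^ 2 ≤ A)
    (hB : ∑ q ∈ s.offDiag, o q.1 * o q.2 * ‖∑ j ∈ J, e (w j * (y q.1 - y q.2))‖ ^ 2 ≤ B) :
    ∑ i ∈ I, ∑ j ∈ J, ‖Sk s' a y (v i + w j : ℤ)‖ ^ 2 ≤
      (∑ k ∈ s, o k ^ 2) * (I.card * J.card) + √(A * B) := by
  have h0 : ∀ q ∈ s ×ˢ s, 0 ≤ o q.1 * o q.2 := fun q hq =>
    mul_nonneg (ho _ (mem_product.1 hq).1) (ho _ (mem_product.1 hq).2)
  have h0' : ∀ q ∈ s.offDiag, 0 ≤ o q.1 * o q.2 := fun q hq =>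
    mul_nonneg (ho _ (mem_offDiag.1 hq).1) (ho _ (mem_offDiag.1 hq).2.1)
  have h1 : ∑ i ∈ I, ∑ j ∈ J, ‖Sk s' a y (v i + w j : ℤ)‖ ^ 2 = (∑ q ∈ s' ×ˢ s', a q.1 *
      conj (a q.2) * ((∑ i ∈ I, e (v i * (y q.1 - y q.2))) *
        ∑ j ∈ J, e (w j * (y q.1 - y q.2)))).re := by
    simp only [norm_sq_eq, ← Complex.re_sum]
    congr 1
    simp only [Sk, map_sum, sum_mul_sum]
    simp only [mul_sum]
    rw [sum_comm (s := s' ×ˢ s')]
    refine sum_congr rfl fun i _ => ?_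
    rw [sum_comm (s := s' ×ˢ s')]
    refine sum_congr rfl fun j _ => ?_
    rw [sum_product]
    refine sum_congr rfl fun k _ => sum_congr rfl fun k' _ => ?_
    rw [map_mul, mul_mul_mul_comm, ← e_sub, ← e_add]
    push_cast
    congr 2
    ring
  have h2 : ∑ i ∈ I, ∑ j ∈ J, ‖Sk s' a y (v i + w j : ℤ)‖ ^ 2 ≤ ∑ q ∈ s ×ˢ s, o q.1 * o q.2 *
      (‖∑ i ∈ I, e (v i * (y q.1 - y q.2))‖ * ‖∑ j ∈ J, e (w j * (y q.1 - y q.2))‖) := by
    rw [h1]
    refine (Complex.re_le_norm _).trans ((norm_sum_le _ _).trans ((sum_le_sum fun q hq => ?_).trans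
      (sum_le_sum_of_subset_of_nonneg (product_subset_product hs hs)
        fun q hq _ => mul_nonneg (h0 q hq) (by positivity))))
    obtain ⟨g1, g2⟩ := mem_product.1 hq
    rw [norm_mul, norm_mul, norm_mul, RCLike.norm_conj]
    exact mul_le_mul_of_nonneg_right (mul_le_mul (ha _ g1) (ha _ g2) (norm_nonneg _)
      (ho _ (hs g1))) (by positivity)
  rw [split] at h2
  refine h2.trans (add_le_add (le_of_eq ?_) (Real.le_sqrt_of_sq_le ?_))
  · simp only [sub_self, mul_zero, e_zero, sum_const, nsmul_eq_mul, mul_one, Complex.norm_natCast,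
      sum_mul, sq]
  · have nn : 0 ≤ ∑ q ∈ s.offDiag, o q.1 * o q.2 * ‖∑ j ∈ J, e (w j * (y q.1 - y q.2))‖ ^ 2 :=
      sum_nonneg fun q hq => mul_nonneg (h0' q hq) (sq_nonneg _)
    have nn' : 0 ≤ A := le_trans (sum_nonneg fun q hq => mul_nonneg (h0' q hq) (sq_nonneg _)) hA
    refine le_trans ?_ (mul_le_mul hA hB nn nn')
    exact sum_sq_le_sum_mul_sum_of_sq_le_mul _ (fun q hq => mul_nonneg (h0' q hq) (sq_nonneg _))
      (fun q hq => mul_nonneg (h0' q hq) (sq_nonneg _)) fun q _ => le_of_eq (by ring)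

/-- averaged largeness tested on a multiset -/
lemma test {s' : Finset ℕ} {o y : ℕ → ℝ} {l : ℝ} {W : Finset ℤ} (h : LHk s' o y l W) (hl : 0 < l)
    (I : Finset ι) (J : Finset ι') (z : ι → ι' → ℤ) : ∃ a : ℕ → ℂ, (∀ k ∈ s', ‖a k‖ ≤ o k) ∧
      l ^ 2 * ∑ i ∈ I, ∑ j ∈ J, (if z i j ∈ W then (1 : ℝ) else 0) ≤
        ∑ i ∈ I, ∑ j ∈ J, ‖Sk s' a y (z i j)‖ ^ 2 := by
  set r : ℤ → ℝ := fun u => ∑ i ∈ I, ∑ j ∈ J, if z i j = u then (1 : ℝ) else 0 with hr
  have r0 : ∀ u, 0 ≤ r u := fun _ => sum_nonneg fun _ _ => sum_nonneg fun _ _ => by positivity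
  obtain ⟨a, ha, h1⟩ := h r r0
  refine ⟨a, ha, ?_⟩
  have key : ∀ φ : ℤ → ℝ, ∑ u ∈ W, r u * φ u =
      ∑ i ∈ I, ∑ j ∈ J, if z i j ∈ W then φ (z i j) else 0 := fun φ => by
    simp only [hr, sum_mul]
    rw [sum_comm]
    refine sum_congr rfl fun i _ => ?_
    rw [sum_comm]
    refine sum_congr rfl fun j _ => ?_
    simp only [ite_mul, one_mul, zero_mul, sum_ite_eq]
  have k1 := key fun _ => 1
  simp only [mul_one] at k1
  have k2 : ∑ u ∈ W, r u * ‖Sk s' a y u‖ ^ 2 ≤ ∑ i ∈ I, ∑ j ∈ J, ‖Sk s' a y (z i j)‖ ^ 2 := by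
    rw [key fun u => ‖Sk s' a y u‖ ^ 2]
    refine sum_le_sum fun i _ => sum_le_sum fun j _ => ?_
    split_ifs
    · exact le_rfl
    · positivity
  rw [← k1]
  refine le_trans ?_ k2
  have k3 : ∑ u ∈ W, r u * (2 * l * ‖Sk s' a y u‖) ≤
      ∑ u ∈ W, r u * (l ^ 2 + ‖Sk s' a y u‖ ^ 2) := sum_le_sum fun u _ =>
    mul_le_mul_of_nonneg_left (by nlinarith [sq_nonneg (l - ‖Sk s' a y u‖)]) (r0 u)
  simp only [mul_add, sum_add_distrib, mul_left_comm _ (2 * l), ← mul_sum, ← sum_mul] at k3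
  nlinarith [mul_le_mul_of_nonneg_left h1 hl.le]

end WEnAux

open CombBAux WEnAux

theorem energy2 : Energy2S := by
  intro s' s o y W P l c U N1 hs ho hl hc hP hW hU hD hN
  set I := (W ×ˢ W) ×ˢ range (2 * P) with hI
  set J := W ×ˢ range (2 * P) with hJ
  set v : (ℤ × ℤ) × ℕ → ℤ := fun q => q.1.1 - q.1.2 + q.2 with hv
  set w : ℤ × ℕ → ℤ := fun q => q.1 - q.2 with hw
  have hr : ∀ i ∈ range (2 * P), ∀ j ∈ range (2 * P), |(i : ℝ) - j| ≤ 2 * P := fun i hi j hj => by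
    have b1 : (i : ℝ) ≤ 2 * P := by exact_mod_cast (mem_range.1 hi).le
    have b2 : (j : ℝ) ≤ 2 * P := by exact_mod_cast (mem_range.1 hj).le
    rw [abs_le]
    constructor <;> linarith [Nat.cast_nonneg (α := ℝ) i, Nat.cast_nonneg (α := ℝ) j]
  have qa : (P : ℝ) * En W P ≤ co I I v v := by
    rw [En, card_four, co, hI, sum_product (W ×ˢ W), mul_sum]
    refine sum_le_sum fun i _ => ?_
    simp only [sum_product (W ×ˢ W)]
    rw [sum_comm, mul_sum]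
    refine sum_le_sum fun j _ => ?_
    split_ifs with h
    · rw [mul_one]
      exact shift_count P (i.1 - i.2) (j.1 - j.2) (by exact_mod_cast h)
    · rw [mul_zero]
      exact sum_nonneg fun _ _ => sum_nonneg fun _ _ => by positivity
  have qb : co I I v v = ∑ i ∈ I, ∑ j ∈ J, if v i + w j ∈ W then (1 : ℝ) else 0 := by
    rw [co]
    refine sum_congr rfl fun i _ => ?_
    rw [hI, hJ, sum_product, sum_product, sum_comm, sum_product]
    refine sum_congr rfl fun u _ => ?_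
    rw [sum_comm]
    refine sum_congr rfl fun m _ => ?_
    rw [sum_congr rfl fun x _ => if_congr (show v i = v ((x, u), m) ↔ v i + w (u, m) = x by
      simp only [hv, hw]; omega) rfl rfl, sum_ite_eq]
  obtain ⟨a, ha, qc⟩ := test hW hl I J fun i j => v i + w j
  rw [← qb] at qc
  have mF := moment_off s o y I v hD fun i hi j hj => by
    simp only [hI, mem_product] at hi hj
    have b1 := abs_le.1 (hU _ hi.1.1 _ hj.1.1)
    have b2 := abs_le.1 (hU _ hi.1.2 _ hj.1.2)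
    have b3 := abs_le.1 (hr _ hi.2 _ hj.2)
    simp only [hv]
    push_cast
    rw [abs_le]
    constructor <;> linarith
  have mG := moment_off s o y J w hD fun i hi j hj => by
    simp only [hJ, mem_product] at hi hj
    have b1 := abs_le.1 (hU _ hi.1 _ hj.1)
    have b3 := abs_le.1 (hr _ hi.2 _ hj.2)
    simp only [hw]
    push_cast
    rw [abs_le]
    constructor <;> linarith
  have cG : co J J w w ≤ 2 * P * N1 := by
    refine le_trans ?_ (mul_le_mul_of_nonneg_left hN (by positivity))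
    rw [card_filter, co, hJ, sum_product, sum_product, Nat.cast_sum, mul_sum]
    refine sum_le_sum fun u _ => ?_
    simp only [sum_product]
    rw [sum_comm, Nat.cast_sum, mul_sum]
    refine sum_le_sum fun u' _ => ?_
    split_ifs with h
    · calc _ ≤ ∑ _i ∈ range (2 * P), (1 : ℝ) := sum_le_sum fun i _ => by
            rw [sum_boole, Nat.cast_le_one, card_le_one]
            intro b hb c hc
            have := (mem_filter.1 hb).2
            have := (mem_filter.1 hc).2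
            simp only [hw] at *
            omega
        _ = _ := by simp
    · rw [sum_eq_zero fun i hi => sum_eq_zero fun j hj => if_neg fun h' => h ?_]
      · simp
      · have : (u : ℝ) - i = u' - j := by exact_mod_cast h'
        rw [show (u : ℝ) - u' = i - j by linarith]
        exact hr i hi j hj
  have key := qc.trans
    (bilin2 s' s o y a hs ho ha I J v w mF (mG.trans (mul_le_mul_of_nonneg_left cG hc)))
  have cI : (I.card : ℝ) * J.card = 4 * P ^ 2 * (W.card : ℝ) ^ 3 := by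
    simp only [hI, hJ, card_product, card_range]
    push_cast; ring
  rw [cI] at key
  have q0 := co_nonneg I I v v
  have n0 : 0 ≤ N1 := le_trans (Nat.cast_nonneg _) hN
  have p0 : (0 : ℝ) < P := by exact_mod_cast hP
  generalize co I I v v = Q at key q0 qa
  have k1 : √(c * Q * (c * (2 * P * N1))) ≤ l ^ 2 * Q / 2 + c ^ 2 * P * N1 / l ^ 2 := by
    refine Real.sqrt_le_iff.2 ⟨by positivity, ?_⟩
    have e1 : c * Q * (c * (2 * P * N1)) = 4 * (l ^ 2 * Q / 2) * (c ^ 2 * P * N1 / l ^ 2) := by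
      field_simp
      ring
    rw [e1]
    nlinarith [sq_nonneg (l ^ 2 * Q / 2 - c ^ 2 * P * N1 / l ^ 2)]
  refine le_of_mul_le_mul_left (a := l ^ 2 * P) ?_ (by positivity)
  have e2 : l ^ 2 * P * (8 * (∑ k ∈ s, o k ^ 2) * P * (W.card : ℝ) ^ 3 / l ^ 2 +
      2 * c ^ 2 * N1 / l ^ 4) = 2 * ((∑ k ∈ s, o k ^ 2) * (4 * P ^ 2 * (W.card : ℝ) ^ 3)) +
      2 * (c ^ 2 * P * N1 / l ^ 2) := by
    field_simp
    ring
  rw [e2, mul_assoc]
  linarith [mul_le_mul_of_nonneg_left qa (sq_nonneg l)]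

end Pool.Agent.Lib.MP_80d0cf_nt.Up
end

-- part Pool.Agent.Lib.MP_80d0cf_nt.Up.WGrid
section

/-! Transfer from the measure of a level set to a count of lattice points, long range. -/

open Set MeasureTheory

namespace Pool.Agent.Lib.MP_80d0cf_nt.Up

namespace WGridAux

open GridAux

lemma lh_of_comb {K : ℕ} {ρ l B : ℝ} {W : Finset ℤ} {N : ℕ} (hN : 0 < N) (hB : 0 < B)
    (b : ℕ → ℕ → ℂ) (hb : ∀ i, ∀ k ∈ Finset.Ico K (2 * K), ‖b i k‖ ≤ 1)
    (h : ∀ w ∈ W, l ≤ B * ‖SK K ρ (b 0) w‖ +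
      5 * B / N * ∑ s ∈ Finset.range N, ‖SK K ρ (b (s + 1)) w‖) : LH K ρ (l / (6 * B)) W := by
  refine LH.of_bdd fun r hr => ?_
  obtain ⟨i, -, hi⟩ := Finset.exists_max_image (Finset.range (N + 1))
    (fun i => ∑ w ∈ W, r w * ‖SK K ρ (b i) w‖) ⟨0, by simp⟩
  refine ⟨b i, hb i, ?_⟩
  have hN0 : (0 : ℝ) < N := by exact_mod_cast hN
  have h1 : l * ∑ w ∈ W, r w ≤ B * ∑ w ∈ W, r w * ‖SK K ρ (b 0) w‖ +
      5 * B / N * ∑ s ∈ Finset.range N, ∑ w ∈ W, r w * ‖SK K ρ (b (s + 1)) w‖ := by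
    rw [Finset.sum_comm, Finset.mul_sum, Finset.mul_sum, Finset.mul_sum, ← Finset.sum_add_distrib]
    refine Finset.sum_le_sum fun w hw => ?_
    rw [← Finset.mul_sum]
    have := mul_le_mul_of_nonneg_left (h w hw) (hr w)
    linarith
  have h2 : ∑ s ∈ Finset.range N, ∑ w ∈ W, r w * ‖SK K ρ (b (s + 1)) w‖ ≤
      N * ∑ w ∈ W, r w * ‖SK K ρ (b i) w‖ := by
    have := Finset.sum_le_card_nsmul (Finset.range N)
      (fun s => ∑ w ∈ W, r w * ‖SK K ρ (b (s + 1)) w‖) _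
      fun s hs => hi (s + 1) (by simpa using hs)
    simpa using this
  have h3 := hi 0 (by simp)
  generalize ∑ w ∈ W, r w * ‖SK K ρ (b i) w‖ = m at h2 h3
  have h4 := mul_le_mul_of_nonneg_left h2 (show 0 ≤ 5 * B / N by positivity)
  have h5 : 5 * B / N * (N * m) = 5 * B * m := by field_simp
  have h6 := mul_le_mul_of_nonneg_left h3 hB.le
  rw [div_mul_eq_mul_div, div_le_iff₀ (by positivity)]
  linarith

/-- the slowly varying coefficient -/
noncomputable def JJ (K k : ℕ) (a : ℝ → ℂ) (u s : ℝ) : ℂ :=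
  a ((u + s / (16 * √K)) ^ 2) *
    e (ff k ((u + s / (16 * √K)) ^ 2) - s * yk K (K / (24 * u ^ 2)) k)

lemma step_le {T B u s : ℝ} {K M k : ℕ} {a a1 : ℝ → ℂ} (hK : 1 ≤ K) (hT : (K : ℝ) ≤ T)
    (hM : 1 ≤ M) (hB : 1 ≤ B) (ha : Amp T (4 * T) B (B / T) a a1)
    (hk : k ∈ Finset.Ico K (2 * K)) (c1 : (K : ℝ) * (M : ℝ) ^ 2 ≤ T)
    (c2 : (K : ℝ) ^ 5 * (M : ℝ) ^ 4 ≤ T ^ 3) (c3 : (K : ℝ) ^ 3 * M ≤ T ^ 2)
    (hu : √T ≤ u) (hs : 0 ≤ s) (hsM : s + 1 ≤ K * M) (hu2 : u + (s + 1) / (16 * √K) ≤ 2 * √T) :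
    ‖JJ K k a u (s + 1) - JJ K k a u s‖ ≤ 5 * B / (K * M) := by
  rw [Finset.mem_Ico] at hk
  have hK0 : (0 : ℝ) < K := by exact_mod_cast hK
  have hM0 : (0 : ℝ) < M := by exact_mod_cast hM
  have hk0 : (0 : ℝ) < k := by exact_mod_cast (show 0 < k by omega)
  have hk2 : (k : ℝ) ≤ 2 * K := by exact_mod_cast hk.2.le
  have hT0 : 0 < T := hK0.trans_le hT
  have hsK : 0 < √(K : ℝ) := Real.sqrt_pos.2 hK0
  have hsT : 0 < √T := Real.sqrt_pos.2 hT0
  have hsk : 0 < √(k : ℝ) := Real.sqrt_pos.2 hk0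
  have hK2 : √(K : ℝ) ^ 2 = K := Real.sq_sqrt hK0.le
  have hT2 : √T ^ 2 = T := Real.sq_sqrt hT0.le
  have hu0 : 0 < u := hsT.trans_le hu
  have hkK : √(k : ℝ) ≤ 3 / 2 * √(K : ℝ) :=
    Real.sqrt_le_iff.2 ⟨by positivity, by rw [mul_pow, hK2]; linarith⟩
  have hy : yk K (K / (24 * u ^ 2)) k =
      1 / (16 * √K) * (2 * √(k : ℝ) - √(k : ℝ) ^ 3 / (12 * u ^ 2)) := by
    rw [yk, zk, Real.sqrt_div hk0.le]
    generalize √(K : ℝ) = s at hsK hK2
    rw [← hK2]; field_simp; ring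
  have d1 : √(K : ℝ) * M ≤ √T := by
    refine (sq_le_sq₀ (by positivity) hsT.le).1 ?_
    rwa [mul_pow, hK2, hT2]
  have d2 : √(K : ℝ) ^ 5 * (M : ℝ) ^ 2 ≤ √T ^ 3 := by
    refine (sq_le_sq₀ (by positivity) (by positivity)).1 ?_
    calc (√(K : ℝ) ^ 5 * (M : ℝ) ^ 2) ^ 2 = (√(K : ℝ) ^ 2) ^ 5 * (M : ℝ) ^ 4 := by ring
      _ ≤ (√T ^ 2) ^ 3 := by rwa [hK2, hT2]
      _ = _ := by ring
  have d3 : √(K : ℝ) ^ 6 * M ≤ √T ^ 4 := by
    calc √(K : ℝ) ^ 6 * M = (√(K : ℝ) ^ 2) ^ 3 * M := by ring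
      _ ≤ (√T ^ 2) ^ 2 := by rwa [hK2, hT2]
      _ = _ := by ring
  have hv : u + (s + 1) / (16 * √K) = u + s / (16 * √K) + 1 / (16 * √K) := by ring
  rw [JJ, JJ, hy, hv]
  rw [hv] at hu2
  set v := u + s / (16 * √(K : ℝ)) with hvd
  set h : ℝ := 1 / (16 * √(K : ℝ)) with hhd
  have hh : 0 < h := by positivity
  have hvu : v = u + s * h := by rw [hvd, hhd]; ring
  have huv : u ≤ v := by rw [hvu]; nlinarith
  have hv0 : 0 < v := hu0.trans_le huv
  have hm : ∀ x, u ≤ x → x ≤ v + h → x ^ 2 ∈ Icc T (4 * T) := fun x h1 h2 =>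
    ⟨hT2 ▸ pow_le_pow_left₀ hsT.le (hu.trans h1) 2, by
      calc x ^ 2 ≤ (2 * √T) ^ 2 := pow_le_pow_left₀ (hu0.le.trans h1) (h2.trans hu2) 2
        _ = 4 * T := by rw [mul_pow, hT2]; norm_num⟩
  have hm0 := hm v huv (by linarith)
  have hm1 := hm (v + h) (by linarith) le_rfl
  have h1 := (convex_Icc T (4 * T)).norm_image_sub_le_of_norm_hasDerivWithin_le
    (fun t ht => (ha.der t ht).hasDerivWithinAt) ha.b1 hm0 hm1
  have h1' : ‖a ((v + h) ^ 2) - a (v ^ 2)‖ ≤ B / (K * M) / 4 := by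
    refine h1.trans ?_
    rw [show (v + h) ^ 2 - v ^ 2 = h * (v + (v + h)) by ring, Real.norm_of_nonneg (by positivity)]
    calc B / T * (h * (v + (v + h))) ≤ B / T * (h * (2 * √T + 2 * √T)) := by
          gcongr; linarith
      _ = B / (K * M) / 4 * (√(K : ℝ) * M / √T) := by
          rw [hhd]
          generalize √T = t at hsT hT2
          generalize √(K : ℝ) = x at hsK hK2
          rw [← hT2, ← hK2]; field_simp; ring
      _ ≤ _ := mul_le_of_le_one_right (by positivity) ((div_le_one hsT).2 d1)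
  have h2 := phase hk0 hv0 hh.le
  have h3 : (√(k : ℝ) / v) ^ 3 * h ^ 2 ≤ (3 / 2 * √(K : ℝ) / √T) ^ 3 * h ^ 2 := by
    gcongr
    exact hu.trans huv
  have h4 : h * v * (√(k : ℝ) / v) ^ 5 ≤ 243 / 512 / (K * M) := by
    calc _ = h * (√(k : ℝ) ^ 5 / v ^ 4) := by field_simp
      _ ≤ h * ((3 / 2 * √(K : ℝ)) ^ 5 / √T ^ 4) := by
          gcongr
          exact hu.trans huv
      _ = 243 / 512 / (K * M) * (√(K : ℝ) ^ 6 * M / √T ^ 4) := by
          rw [hhd]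
          generalize √(K : ℝ) = x at hsK hK2
          rw [← hK2]; field_simp; ring
      _ ≤ _ := mul_le_of_le_one_right (by positivity) ((div_le_one (by positivity)).2 d3)
  have h5 : |h * (2 * √(k : ℝ) - √(k : ℝ) ^ 3 / (12 * v ^ 2)) -
      h * (2 * √(k : ℝ) - √(k : ℝ) ^ 3 / (12 * u ^ 2))| ≤
      s * ((3 / 2 * √(K : ℝ) / √T) ^ 3 * h ^ 2) := by
    have e1 : h * (2 * √(k : ℝ) - √(k : ℝ) ^ 3 / (12 * v ^ 2)) -
        h * (2 * √(k : ℝ) - √(k : ℝ) ^ 3 / (12 * u ^ 2)) =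
        s * (√(k : ℝ) ^ 3 * ((u + v) / (12 * u ^ 2 * v ^ 2)) * h ^ 2) := by
      have : s = (v - u) / h := by rw [hvu]; field_simp; ring
      rw [this]; field_simp; ring
    rw [e1, abs_of_nonneg (by positivity)]
    gcongr
    have e2 : (u + v) / (12 * u ^ 2 * v ^ 2) ≤ 1 / √T ^ 3 := by
      rw [div_le_div_iff₀ (by positivity) (by positivity)]
      have a1 : √T ^ 3 ≤ u ^ 2 * v := by
        calc √T ^ 3 = √T ^ 2 * √T := by ring
          _ ≤ u ^ 2 * v := by gcongr; exact hu.trans huv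
      calc (u + v) * √T ^ 3 ≤ (v + v) * (u ^ 2 * v) := by gcongr
        _ = 2 * (u ^ 2 * v ^ 2) := by ring
        _ ≤ _ := by
          have : 0 ≤ u ^ 2 * v ^ 2 := by positivity
          linarith
    calc √(k : ℝ) ^ 3 * ((u + v) / (12 * u ^ 2 * v ^ 2)) ≤
          (3 / 2 * √(K : ℝ)) ^ 3 * (1 / √T ^ 3) := by gcongr
      _ = _ := by ring
  have h6 : (s + 1) * ((3 / 2 * √(K : ℝ) / √T) ^ 3 * h ^ 2) ≤ 27 / 2048 / (K * M) := by
    calc _ ≤ K * M * ((3 / 2 * √(K : ℝ) / √T) ^ 3 * h ^ 2) := by gcongr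
      _ = 27 / 2048 / (K * M) * (√(K : ℝ) ^ 5 * (M : ℝ) ^ 2 / √T ^ 3) := by
          rw [hhd]
          generalize √(K : ℝ) = x at hsK hK2
          rw [← hK2]; field_simp; ring
      _ ≤ _ := mul_le_of_le_one_right (by positivity) ((div_le_one (by positivity)).2 d2)
  generalize h * (2 * √(k : ℝ) - √(k : ℝ) ^ 3 / (12 * u ^ 2)) = y at h5
  generalize h * (2 * √(k : ℝ) - √(k : ℝ) ^ 3 / (12 * v ^ 2)) = y' at h2 h5
  have h7 : a ((v + h) ^ 2) * e (ff k ((v + h) ^ 2) - (s + 1) * y) -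
      a (v ^ 2) * e (ff k (v ^ 2) - s * y) =
      (a ((v + h) ^ 2) - a (v ^ 2)) * e (ff k ((v + h) ^ 2) - (s + 1) * y) +
        a (v ^ 2) * (e (ff k ((v + h) ^ 2) - (s + 1) * y) - e (ff k (v ^ 2) - s * y)) := by
    ring
  have hq : (0 : ℝ) < 1 / (K * M) := by positivity
  have h8 : ‖e (ff k ((v + h) ^ 2) - (s + 1) * y) - e (ff k (v ^ 2) - s * y)‖ ≤
      8 * (1 / (K * M) / 2) := by
    refine (norm_e_sub_e_le _ _).trans ?_
    have e3 : ff k ((v + h) ^ 2) - (s + 1) * y - (ff k (v ^ 2) - s * y) =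
        (ff k ((v + h) ^ 2) - ff k (v ^ 2) - y') + (y' - y) := by ring
    rw [e3]
    have e4 := abs_add_le (ff k ((v + h) ^ 2) - ff k (v ^ 2) - y') (y' - y)
    have e5 : 243 / 512 / ((K : ℝ) * M) = 243 / 512 * (1 / (K * M)) := by ring
    have e6 : 27 / 2048 / ((K : ℝ) * M) = 27 / 2048 * (1 / (K * M)) := by ring
    gcongr
    · linarith [Real.pi_le_four]
    · linarith
  rw [h7]
  refine (norm_add_le _ _).trans ?_
  rw [norm_mul, norm_mul, norm_e, mul_one]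
  have h9 := mul_le_mul (ha.b0 _ hm0) h8 (norm_nonneg _) (by linarith)
  have e7 : B / ((K : ℝ) * M) = B * (1 / (K * M)) := by ring
  have e8 : 5 * B / ((K : ℝ) * M) = 5 * (B * (1 / (K * M))) := by ring
  have e9 : 0 ≤ B * (1 / ((K : ℝ) * M)) := by positivity
  linarith

open Classical in
lemma lh_block {T B l u : ℝ} {K M : ℕ} {a a1 : ℕ → ℝ → ℂ} (hK : 1 ≤ K) (hT : (K : ℝ) ≤ T)
    (hM : 1 ≤ M) (hB : 1 ≤ B) (ha : Fam T B K a a1) (c1 : (K : ℝ) * (M : ℝ) ^ 2 ≤ T)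
    (c2 : (K : ℝ) ^ 5 * (M : ℝ) ^ 4 ≤ T ^ 3) (c3 : (K : ℝ) ^ 3 * M ≤ T ^ 2)
    (hu : √T ≤ u) (hτ : u ^ 2 ∈ Icc T (4 * T)) (S : Finset ℕ)
    (hS : ∀ w ∈ S, w < K * M ∧ u + w / (16 * √K) ≤ 2 * √T ∧
      l ≤ ‖SS K a ((u + w / (16 * √K)) ^ 2)‖) :
    LH K (K / (24 * u ^ 2)) (l / (6 * B)) (S.image (Nat.cast : ℕ → ℤ)) := by
  have hK0 : (0 : ℝ) < K := by exact_mod_cast hK
  have hM0 : (0 : ℝ) < M := by exact_mod_cast hM
  have hB0 : 0 < B := by linarith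
  have hsK : 0 < √(K : ℝ) := Real.sqrt_pos.2 hK0
  set c : ℝ := 5 * B / (K * M) with hc
  have hc0 : 0 < c := by positivity
  let b : ℕ → ℕ → ℂ := fun i k => Nat.casesOn i (JJ K k (a k) u 0 / B) fun s =>
    if (s : ℝ) + 1 ≤ K * M ∧ u + (s + 1) / (16 * √K) ≤ 2 * √T then
      (JJ K k (a k) u (s + 1) - JJ K k (a k) u s) / c else 0
  have hb0 : ∀ k, b 0 k = JJ K k (a k) u 0 / B := fun _ => rfl
  refine lh_of_comb (N := K * M) (by positivity) hB0 b (fun i k hk => ?_) fun z hz => ?_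
  · cases i with
    | zero =>
      rw [hb0, JJ, norm_div, norm_mul, norm_e, mul_one, Complex.norm_real, Real.norm_of_nonneg hB0.le,
        div_le_one hB0, zero_div, add_zero]
      exact (ha k hk).b0 _ hτ
    | succ s =>
      simp only [b]
      split_ifs with h
      · rw [norm_div, Complex.norm_real, Real.norm_of_nonneg hc0.le, div_le_one hc0]
        exact step_le hK hT hM hB (ha k hk) hk c1 c2 c3 hu (Nat.cast_nonneg s) h.1 h.2
      · simp
  obtain ⟨w, hw, rfl⟩ := Finset.mem_image.1 hz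
  obtain ⟨hw1, hw2, hw3⟩ := hS w hw
  rw [Int.cast_natCast]
  have key : ∀ k, JJ K k (a k) u w = B * b 0 k + c * ∑ s ∈ Finset.range w, b (s + 1) k := by
    intro k
    have h1 : ∀ s ∈ Finset.range w, c * b (s + 1) k =
        JJ K k (a k) u ((s + 1 : ℕ) : ℝ) - JJ K k (a k) u s := by
      intro s hs
      have h2 : (s : ℝ) + 1 ≤ w := by exact_mod_cast Finset.mem_range.1 hs
      have h3 : (w : ℝ) ≤ K * M := by exact_mod_cast hw1.le
      have h4 : ((s : ℝ) + 1) / (16 * √K) ≤ w / (16 * √K) := by gcongr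
      have hc1 : (c : ℂ) ≠ 0 := by exact_mod_cast hc0.ne'
      simp only [b]
      rw [if_pos ⟨h2.trans h3, by linarith⟩, mul_div_cancel₀ _ hc1, Nat.cast_succ]
    have hB1 : (B : ℂ) ≠ 0 := by exact_mod_cast hB0.ne'
    rw [Finset.mul_sum, Finset.sum_congr rfl h1,
      Finset.sum_range_sub fun s : ℕ => JJ K k (a k) u s, hb0, mul_div_cancel₀ _ hB1]
    simp
  have h1 : SS K a ((u + w / (16 * √K)) ^ 2) = B * SK K (K / (24 * u ^ 2)) (b 0) w +
      c * ∑ s ∈ Finset.range w, SK K (K / (24 * u ^ 2)) (b (s + 1)) w := by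
    simp only [SS, SK, Sk]
    rw [Finset.sum_comm, Finset.mul_sum, Finset.mul_sum, ← Finset.sum_add_distrib]
    refine Finset.sum_congr rfl fun k _ => ?_
    rw [← Finset.sum_mul, ← mul_assoc, ← mul_assoc, ← add_mul, ← key, JJ, mul_assoc, ← e_add,
      sub_add_cancel]
  rw [h1] at hw3
  refine hw3.trans ((norm_add_le _ _).trans ?_)
  rw [norm_mul, norm_mul, Complex.norm_real, Complex.norm_real, Real.norm_of_nonneg hB0.le,
    Real.norm_of_nonneg hc0.le]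
  push_cast
  gcongr
  exact (norm_sum_le _ _).trans (Finset.sum_le_sum_of_subset_of_nonneg
    (Finset.range_subset_range.2 hw1.le) fun _ _ _ => norm_nonneg _)

end WGridAux

open GridAux WGridAux Classical in
theorem grid2 : Grid2S := by
  refine ⟨6, by norm_num, fun T B l R K M a a1 hK hT hM hB _ hR ha c1 c2 c3 hW => ?_⟩
  have hK0 : (0 : ℝ) < K := by exact_mod_cast hK
  have hM0 : (0 : ℝ) < M := by exact_mod_cast hM
  have hT0 : 0 < T := hK0.trans_le hT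
  have hB0 : 0 < B := by linarith
  have hsK : 0 < √(K : ℝ) := Real.sqrt_pos.2 hK0
  have hsT : 0 < √T := Real.sqrt_pos.2 hT0
  have hK2 : √(K : ℝ) ^ 2 = K := Real.sq_sqrt hK0.le
  have hT2 : √T ^ 2 = T := Real.sq_sqrt hT0.le
  set φ : ℝ → ℝ := fun v => (√T + v / (16 * √K)) ^ 2 with hφ
  set V0 : ℝ := 16 * √K * √T with hV0
  have hu : ∀ v ∈ Icc 0 V0, √T ≤ √T + v / (16 * √K) ∧ √T + v / (16 * √K) ≤ 2 * √T := by
    intro v hv
    have h1 : 0 ≤ v / (16 * √K) := div_nonneg hv.1 (by positivity)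
    have h2 : v / (16 * √K) ≤ √T := by
      rw [div_le_iff₀ (by positivity)]; linarith [hv.2]
    constructor <;> linarith
  have hmap : ∀ v ∈ Icc 0 V0, φ v ∈ Icc T (4 * T) := fun v hv =>
    ⟨hT2 ▸ pow_le_pow_left₀ hsT.le (hu v hv).1 2, by
      calc φ v ≤ (2 * √T) ^ 2 := pow_le_pow_left₀ (hsT.le.trans (hu v hv).1) (hu v hv).2 2
        _ = 4 * T := by rw [mul_pow, hT2]; norm_num⟩
  set V : Set ℝ := {v | v ∈ Icc 0 V0 ∧ l ≤ ‖SS K a (φ v)‖} with hV
  have hVm : MeasurableSet V :=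
    (isClosed_levSet (F := fun v => SS K a (φ v))
      ((continuousOn_SS hT0 ha).comp (by rw [hφ]; fun_prop) hmap)).measurableSet
  have hA : {τ | τ ∈ Icc T (4 * T) ∧ l ≤ ‖SS K a τ‖} ⊆ φ '' V := by
    rintro τ ⟨hτ, hτl⟩
    have h1 : √T ≤ √τ := Real.sqrt_le_sqrt hτ.1
    have h2 : √τ ≤ 2 * √T :=
      Real.sqrt_le_iff.2 ⟨by positivity, by rw [mul_pow, hT2]; linarith [hτ.2]⟩
    have h3 : φ (16 * √K * (√τ - √T)) = τ := by
      simp only [hφ]
      rw [mul_div_cancel_left₀ _ (by positivity), add_sub_cancel,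
        Real.sq_sqrt (hT0.le.trans hτ.1)]
    refine ⟨_, ⟨⟨mul_nonneg (by positivity) (by linarith), ?_⟩, by rwa [h3]⟩, h3⟩
    rw [hV0]; gcongr; linarith
  have hLip : ∀ x ∈ V, ∀ y ∈ V, |φ x - φ y| ≤ √T / (4 * √K) * |x - y| := by
    intro x hx y hy
    have h1 := hu x hx.1
    have h2 := hu y hy.1
    have h3 : φ x - φ y =
        ((√T + x / (16 * √K)) + (√T + y / (16 * √K))) / (16 * √K) * (x - y) := by
      simp only [hφ]; field_simp; ring
    rw [h3, abs_mul, abs_of_nonneg (div_nonneg (by linarith) (by positivity))]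
    refine mul_le_mul_of_nonneg_right ?_ (abs_nonneg _)
    rw [show √T / (4 * √(K : ℝ)) = (4 * √T) / (16 * √(K : ℝ)) by field_simp; ring]
    exact div_le_div_of_nonneg_right (by linarith) (by positivity)
  set J : ℕ := ⌊V0 / (K * M)⌋₊ + 1 with hJ
  have hJ1 : V0 < J * (K * M) := by
    rw [← div_lt_iff₀ (by positivity), hJ]; push_cast; exact Nat.lt_floor_add_one _
  have hJ2 : (J : ℝ) ≤ V0 / (K * M) + 1 := by
    rw [hJ]; push_cast; linarith [Nat.floor_le (show 0 ≤ V0 / (K * M) by positivity)]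
  have hvol : volume V ≤ ENNReal.ofReal (J * R) := by
    refine vol_le_count hVm (J * (K * M)) (fun v hv => ⟨hv.1.1, ?_⟩) fun θ hθ => ?_
    · push_cast; exact hv.1.2.trans_lt hJ1
    refine card_split (fun n : ℕ => (n : ℝ) + θ ∈ V) (K * M) J fun j => ?_
    suffices key : ∀ (S : Finset ℕ) (v0 : ℝ), 0 ≤ v0 → (∀ w ∈ S, w < K * M ∧ v0 + w ∈ V) →
        (S.card : ℝ) ≤ R by
      refine key _ ((j * (K * M) : ℕ) + θ) (add_nonneg (Nat.cast_nonneg _) hθ.1) fun w hw => ?_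
      simp only [Finset.mem_filter, Finset.mem_range, Nat.cast_add] at hw
      exact ⟨hw.1, by rw [add_right_comm]; exact hw.2⟩
    intro S v0 hv00 hSw
    rcases S.eq_empty_or_nonempty with h0 | ⟨w0, hw0⟩
    · rw [h0]; simpa using hR
    have hv0m : v0 ∈ Icc 0 V0 :=
      ⟨hv00, by linarith [(hSw w0 hw0).2.1.2, (Nat.cast_nonneg w0 : (0 : ℝ) ≤ w0)]⟩
    set u : ℝ := √T + v0 / (16 * √K) with hu0
    have hτ0 : u ^ 2 ∈ Icc T (4 * T) := hmap v0 hv0m
    have hup : 0 < u ^ 2 := hT0.trans_le hτ0.1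
    rw [← Finset.card_image_of_injective S (Nat.cast_injective (R := ℤ))]
    refine hW (K / (24 * u ^ 2)) _ (by positivity) (by gcongr; exact hτ0.1) (fun z hz => ?_)
      (lh_block hK hT hM hB ha c1 c2 c3 (hu v0 hv0m).1 hτ0 S fun w hw => ?_)
    · obtain ⟨w, hw, rfl⟩ := Finset.mem_image.1 hz
      exact ⟨Int.natCast_nonneg w, by exact_mod_cast (hSw w hw).1⟩
    obtain ⟨hw1, hw2, hw3⟩ := hSw w hw
    have hφw : √T + (v0 + w) / (16 * √K) = u + w / (16 * √K) := by rw [hu0]; ring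
    have hb := (hu _ hw2).2
    simp only [hφ] at hw3
    rw [hφw] at hb hw3
    exact ⟨hw1, hb, hw3⟩
  have hL0 : 0 ≤ √T / (4 * √(K : ℝ)) := by positivity
  have hfin := ((measure_mono hA).trans (vol_image_le hL0 hLip)).trans
    (mul_le_mul_right hvol _)
  rw [← ENNReal.ofReal_mul hL0] at hfin
  refine (ENNReal.toReal_le_of_le_ofReal (by positivity) hfin).trans ?_
  rw [← mul_assoc]
  refine mul_le_mul_of_nonneg_right ?_ hR
  calc √T / (4 * √(K : ℝ)) * J ≤ √T / (4 * √(K : ℝ)) * (V0 / (K * M) + 1) := by gcongr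
    _ = 4 * (√T ^ 2 / (K * M)) + √T / √(K : ℝ) / 4 := by rw [hV0]; field_simp; ring
    _ ≤ _ := by
      rw [hT2]
      have h1 : 0 ≤ T / (K * M) := by positivity
      have h2 : √T / √(K : ℝ) ≤ T / (K * M) := by
        have d1 : √(K : ℝ) * M ≤ √T := by
          refine (sq_le_sq₀ (by positivity) hsT.le).1 ?_
          rwa [mul_pow, hK2, hT2]
        rw [div_le_div_iff₀ hsK (by positivity)]
        calc √T * (K * M) = √T * √(K : ℝ) * (√(K : ℝ) * M) := by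
              rw [mul_assoc, ← mul_assoc (√(K : ℝ)), ← sq, hK2]
          _ ≤ √T * √(K : ℝ) * √T := by gcongr
          _ = √T ^ 2 * √(K : ℝ) := by ring
          _ = _ := by rw [hT2]
      linarith

end Pool.Agent.Lib.MP_80d0cf_nt.Up
end
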