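import Pool.Agent.Lib.MP_80d0cf_nt.Up.WFr
import Pool.Agent.Lib.MP_80d0cf_nt.Up.Sp
import Pool.Agent.Lib.MP_80d0cf_nt.Up.Lvt2

-- part Pool.Agent.Lib.MP_80d0cf_nt.Up.WFam
section

/-! Level sets of the families in the critical range, explicit exponents. -/

open Set MeasureTheory

namespace Pool.Agent.Lib.MP_80d0cf_nt.Up

namespace WFamAux

lemma LH_anti {K : ℕ} {ρ l l' : ℝ} {W : Finset ℤ} (h : LH K ρ l W) (hl : l' ≤ l) :
    LH K ρ l' W := fun r hr => by
  obtain ⟨a, ha, h1⟩ := h r hr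
  exact ⟨a, ha, (mul_le_mul_of_nonneg_right hl (Finset.sum_nonneg fun u _ => hr u)).trans h1⟩

open XFamAux in
lemma gen (hg : Grid2S) (hl : Lv3S) (ε : ℝ) (hε : 0 < ε) (hε1 : ε ≤ 1 / 1000) : ∃ T0 : ℝ,
    1 ≤ T0 ∧ ∀ (T κ m q g γ r : ℝ) (K i : ℕ) (a a1 : ℕ → ℝ → ℂ), T0 ≤ T → 1 ≤ K → T ^ κ = K →
    Fam T (T ^ ε) K a a1 → 11 / 23 ≤ κ → κ ≤ 11 / 21 → m = (3 - 5 * κ) / 4 →
    q = (3 * κ - 1) / 8 + ε / 2 → 0 ≤ g → 0 ≤ γ → 2 * q + ε ≤ 2 * g + m →
    ε + 2 * κ + m ≤ r + ((1 + κ) / 4 - 2 * ε) * 2 + γ * 2 →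
    ε + 7 / 2 * κ + m ≤ r + ((1 + κ) / 4 - 2 * ε) * 4 + γ →
    ε + 2 * κ ≤ r + ((1 + κ) / 4 - 2 * ε) * 2 →
    ε + 11 * κ + 3 * m + γ + g ≤ 4 * r + ((1 + κ) / 4 - 2 * ε) * 12 →
    ε + 8 * κ + 3 * m + q ≤ 2 * r + ((1 + κ) / 4 - 2 * ε) * 10 →
    ε + 6 * κ + 2 * m ≤ r + ((1 + κ) / 4 - 2 * ε) * 8 →
    lev T (4 * T) (SS K a) (2 ^ i * (K * T) ^ (1 / 4 : ℝ)) ≤ T ^ (1 - κ - m + r + ε) / 4 ^ i := by
  obtain ⟨Cg, hCg, hg⟩ := hg
  obtain ⟨C, hC, hl⟩ := hl
  obtain ⟨T1, hT11, hT1⟩ := exists_log_pow_le (3 * Cg + 10000) 0 hε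
  obtain ⟨T2, -, hT2⟩ := exists_log_pow_le C 6 hε
  refine ⟨max T1 T2, hT11.trans (le_max_left _ _), ?_⟩
  intro T κ m q g γ r K i a a1 hT hK hκ hF k0 k1 hm hq g0 γ0 q1 r1 r2 r3 r4 r5 r6
  have hD := hT1 T ((le_max_left _ _).trans hT)
  rw [pow_zero, mul_one] at hD
  have hT1' : 1 ≤ T := hT11.trans ((le_max_left _ _).trans hT)
  have hT0 : 0 < T := by linarith
  have m0 : 0 ≤ m := by linarith
  have q0 : 0 ≤ q := by linarith
  have mono : ∀ {x y : ℝ}, x ≤ y → T ^ x ≤ T ^ y := fun h =>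
    Real.rpow_le_rpow_of_exponent_le hT1' h
  have pw : ∀ (x : ℝ) (n : ℕ), (T ^ x) ^ n = T ^ (x * n) := fun x n =>
    (Real.rpow_mul_natCast hT0.le x n).symm
  have ad : ∀ x y : ℝ, T ^ x * T ^ y = T ^ (x + y) := fun x y => (Real.rpow_add hT0 x y).symm
  have one : ∀ {x : ℝ}, 0 ≤ x → 1 ≤ T ^ x := fun h => Real.one_le_rpow hT1' h
  have nt : ∀ n : ℕ, T ^ (n : ℝ) = T ^ n := fun n => Real.rpow_natCast T n
  have hK1 : (1 : ℝ) ≤ K := by exact_mod_cast hK
  have hKT : (K : ℝ) ≤ T := by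
    rw [← hκ]; exact (mono (by linarith only [hε, hε1, k0, k1, hm, hq])).trans (Real.rpow_one T).le
  have hQ : C * Real.log (K + 2) ^ 6 ≤ T ^ ε := by
    refine le_trans ?_ (hT2 T ((le_max_right _ _).trans hT))
    have := one_le_log_add_two hK1
    gcongr
  set M := ⌊T ^ m⌋₊ with hMd
  have hM1 : 1 ≤ M := Nat.le_floor (by simpa using one m0)
  have hM1' : (1 : ℝ) ≤ M := by exact_mod_cast hM1
  have hMu : (M : ℝ) ≤ T ^ m := Nat.floor_le (by positivity)
  have hMl : T ^ m ≤ 2 * M := by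
    have := (Nat.lt_floor_add_one (T ^ m)).le
    linarith
  have hi : (1 : ℝ) ≤ 2 ^ i := one_le_pow₀ (by norm_num)
  have hq4 : ((K : ℝ) * T) ^ (1 / 4 : ℝ) = T ^ ((1 + κ) / 4) := by
    rw [← hκ]
    nth_rewrite 2 [← Real.rpow_one T]
    rw [ad, ← Real.rpow_mul hT0.le]
    congr 1; ring
  have hdiv : (K : ℝ) / T = T ^ (κ - 1) := by rw [Real.rpow_sub hT0, hκ, Real.rpow_one]
  have hsK : √(K : ℝ) = T ^ (κ / 2) := by
    rw [← hκ, Real.sqrt_eq_rpow, ← Real.rpow_mul hT0.le]; congr 1; ring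
  rw [hq4]
  have c1 : (K : ℝ) * (M : ℝ) ^ 2 ≤ T := by
    calc _ ≤ T ^ κ * (T ^ m) ^ 2 := by rw [hκ]; gcongr
      _ ≤ T ^ (1 : ℝ) := by simp only [pw, ad]; exact mono (by
            push_cast; linarith only [hε, hε1, k0, k1, hm, hq, q1, r1, r2, r3, r4, r5, r6])
      _ = T := Real.rpow_one T
  have c2 : (K : ℝ) ^ 5 * (M : ℝ) ^ 4 ≤ T ^ 3 := by
    calc _ ≤ (T ^ κ) ^ 5 * (T ^ m) ^ 4 := by rw [hκ]; gcongr
      _ ≤ T ^ ((3 : ℕ) : ℝ) := by simp only [pw, ad]; exact mono (by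
            push_cast; linarith only [hε, hε1, k0, k1, hm, hq, q1, r1, r2, r3, r4, r5, r6])
      _ = _ := nt 3
  have c3 : (K : ℝ) ^ 3 * M ≤ T ^ 2 := by
    calc _ ≤ (T ^ κ) ^ 3 * T ^ m := by rw [hκ]; gcongr
      _ ≤ T ^ ((2 : ℕ) : ℝ) := by simp only [pw, ad]; exact mono (by
            push_cast; linarith only [hε, hε1, k0, k1, hm, hq, q1, r1, r2, r3, r4, r5, r6])
      _ = _ := nt 2
  have key := hg T (T ^ ε) (2 ^ i * T ^ ((1 + κ) / 4)) (T ^ r / 4 ^ i) K M a a1 hK hKT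
    hM1 (one hε.le) (by positivity) (by positivity) hF c1 c2 c3 (fun ρ W hρ0 hρ hW hlev => by
      have hρ' : ρ ≤ T ^ (κ - 1) / 24 := by rw [← hdiv]; exact hρ.trans (le_of_eq (by ring))
      have hl0 : 0 < T ^ ((1 + κ) / 4 - 2 * ε) := by positivity
      have hR0 : 0 < T ^ r := by positivity
      have hγ : 0 < T ^ γ := by positivity
      refine hl K M ρ (T ^ q) (T ^ g) (T ^ γ) (2 ^ i * T ^ ((1 + κ) / 4 - 2 * ε)) _ W hM1 ?_ hρ0 ?_
        ?_ (one q0) ?_ (one g0) ?_ (one γ0) (by positivity) (by positivity) hW (LH_anti hlev ?_)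
        ?_ ?_ ?_ ?_ ?_ ?_ ?_
      · have : (2 * (M : ℝ)) ^ 3 ≤ K := by
          calc _ = 8 * (M : ℝ) ^ 3 := by ring
            _ ≤ T ^ ε * (T ^ m) ^ 3 := by gcongr; linarith only [hD, hCg]
            _ ≤ T ^ κ := by simp only [pw, ad]; exact mono (by
                  push_cast; linarith only [hε, hε1, k0, k1, hm, hq, q1, r1, r2, r3, r4, r5, r6])
            _ = _ := hκ
        exact_mod_cast this
      · have h1 : T ^ (κ - 1) * T ^ ε ≤ 1 := by
          rw [ad]; exact Real.rpow_le_one_of_one_le_of_nonpos hT1' (by linarith only [hε, hε1, k0, k1, hm, hq])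
        have h2 : T ^ (κ - 1) * 10000 ≤ T ^ (κ - 1) * T ^ ε := by gcongr; linarith only [hD, hCg]
        have h3 : 0 < T ^ (κ - 1) := by positivity
        linarith
      · have h1 : (T ^ (κ - 1)) ^ 4 * (T ^ κ * T ^ m) ^ 3 ≤ 1 := by
          simp only [pw, ad]
          exact Real.rpow_le_one_of_one_le_of_nonpos hT1' (by
                push_cast; linarith only [hε, hε1, k0, k1, hm, hq, q1, r1, r2, r3, r4, r5, r6])
        have h2 : 0 ≤ (T ^ (κ - 1)) ^ 4 * (T ^ κ * T ^ m) ^ 3 := by positivity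
        calc _ ≤ (T ^ (κ - 1) / 24) ^ 4 * (2 * T ^ κ * T ^ m) ^ 3 := by rw [hκ]; gcongr
          _ = 8 / 24 ^ 4 * ((T ^ (κ - 1)) ^ 4 * (T ^ κ * T ^ m) ^ 3) := by ring
          _ ≤ 1 := by linarith
      · calc _ ≤ 12800 * (T ^ (κ - 1) / 24) * T ^ κ * T ^ m := by rw [hκ]; gcongr
          _ = 1600 / 3 * (T ^ (κ - 1) * T ^ κ * T ^ m) := by ring
          _ ≤ T ^ ε * (T ^ (κ - 1) * T ^ κ * T ^ m) := by gcongr; linarith only [hD, hCg]
          _ ≤ _ := by simp only [pw, ad]; exact mono (by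
                push_cast; linarith only [hε, hε1, k0, k1, hm, hq, q1, r1, r2, r3, r4, r5, r6])
      · refine (pow_le_pow_iff_left₀ (by positivity) (by positivity) two_ne_zero).1 ?_
        rw [mul_pow, Real.sq_sqrt (by positivity)]
        have h1 : (T ^ q) ^ 2 * T ^ ε ≤ (T ^ g) ^ 2 * T ^ m := by
          simp only [pw, ad]; exact mono (by
                push_cast; linarith only [hε, hε1, k0, k1, hm, hq, q1, r1, r2, r3, r4, r5, r6])
        have h2 : (T ^ q) ^ 2 * 2 ≤ (T ^ q) ^ 2 * T ^ ε := by gcongr; linarith only [hD, hCg]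
        have h3 : (T ^ g) ^ 2 * T ^ m ≤ (T ^ g) ^ 2 * (2 * M) := by gcongr
        linarith
      · rw [le_div_iff₀ (by positivity), mul_assoc]
        gcongr
        calc _ ≤ T ^ ((1 + κ) / 4 - 2 * ε) * (T ^ ε * T ^ ε) := by gcongr; linarith only [hD, hCg]
          _ = _ := by simp only [ad]; congr 1; ring
      · have h1 : (K : ℝ) ≤ T ^ ((1 + κ) / 2 - 6 * ε) := by
          rw [← hκ]; exact mono (by linarith only [hε, hε1, k0, k1, hm, hq])
        have h2 : √(K : ℝ) * (M : ℝ) ^ 2 ≤ T ^ ((1 + κ) / 2 - 6 * ε) := by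
          calc _ ≤ T ^ (κ / 2) * (T ^ m) ^ 2 := by rw [hsK]; gcongr
            _ ≤ _ := by simp only [pw, ad]; exact mono (by
                  push_cast; linarith only [hε, hε1, k0, k1, hm, hq, q1, r1, r2, r3, r4, r5, r6])
        calc _ ≤ T ^ ε * (2 * T ^ ((1 + κ) / 2 - 6 * ε)) := by gcongr; linarith only [h1, h2]
          _ ≤ T ^ ε * (T ^ ε * T ^ ((1 + κ) / 2 - 6 * ε)) := by gcongr; linarith only [hD, hCg]
          _ ≤ (T ^ ((1 + κ) / 4 - 2 * ε)) ^ 2 := by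
              simp only [pw, ad]; exact mono (by
                    push_cast; linarith only [hε, hε1, k0, k1, hm, hq, q1, r1, r2, r3, r4, r5, r6])
          _ ≤ _ := by gcongr; exact le_mul_of_one_le_left hl0.le hi
      · calc _ ≤ T ^ ε * ((T ^ κ) ^ 2 * T ^ m) := by rw [hκ]; gcongr
          _ ≤ (T ^ r) ^ 1 * (T ^ ((1 + κ) / 4 - 2 * ε)) ^ 2 * (T ^ γ) ^ 2 := by
              simp only [pw, ad]; exact mono (by
                    push_cast; linarith only [hε, hε1, k0, k1, hm, hq, q1, r1, r2, r3, r4, r5, r6])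
          _ ≤ _ := mul_le_mul_of_nonneg_right
              ((scale hR0.le hl0.le i (by norm_num)).trans (by rw [pow_one])) (by positivity)
      · calc _ ≤ T ^ ε * ((T ^ κ) ^ 3 * T ^ (κ / 2) * T ^ m) := by rw [hκ, hsK]; gcongr
          _ ≤ (T ^ r) ^ 1 * (T ^ ((1 + κ) / 4 - 2 * ε)) ^ 4 * T ^ γ := by
              simp only [pw, ad]; exact mono (by
                    push_cast; linarith only [hε, hε1, k0, k1, hm, hq, q1, r1, r2, r3, r4, r5, r6])
          _ ≤ _ := mul_le_mul_of_nonneg_right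
              ((scale hR0.le hl0.le i (by norm_num)).trans (by rw [pow_one])) (by positivity)
      · calc _ ≤ T ^ ε * (T ^ κ) ^ 2 := by rw [hκ]; gcongr
          _ ≤ (T ^ r) ^ 1 * (T ^ ((1 + κ) / 4 - 2 * ε)) ^ 2 := by
              simp only [pw, ad]; exact mono (by
                    push_cast; linarith only [hε, hε1, k0, k1, hm, hq, q1, r1, r2, r3, r4, r5, r6])
          _ ≤ _ := (scale hR0.le hl0.le i (by norm_num)).trans (by rw [pow_one])
      · calc _ ≤ T ^ ε * ((T ^ κ) ^ 11 * (T ^ m) ^ 3 * T ^ γ * T ^ g) := by rw [hκ]; gcongr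
          _ ≤ (T ^ r) ^ 4 * (T ^ ((1 + κ) / 4 - 2 * ε)) ^ 12 := by
              simp only [pw, ad]; exact mono (by
                    push_cast; linarith only [hε, hε1, k0, k1, hm, hq, q1, r1, r2, r3, r4, r5, r6])
          _ ≤ _ := scale hR0.le hl0.le i (by norm_num)
      · calc _ ≤ T ^ ε * ((T ^ κ) ^ 8 * (T ^ m) ^ 3 * T ^ q) := by rw [hκ]; gcongr
          _ ≤ (T ^ r) ^ 2 * (T ^ ((1 + κ) / 4 - 2 * ε)) ^ 10 := by
              simp only [pw, ad]; exact mono (by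
                    push_cast; linarith only [hε, hε1, k0, k1, hm, hq, q1, r1, r2, r3, r4, r5, r6])
          _ ≤ _ := scale hR0.le hl0.le i (by norm_num)
      · calc _ ≤ T ^ ε * ((T ^ κ) ^ 6 * (T ^ m) ^ 2) := by rw [hκ]; gcongr
          _ ≤ (T ^ r) ^ 1 * (T ^ ((1 + κ) / 4 - 2 * ε)) ^ 8 := by
              simp only [pw, ad]; exact mono (by
                    push_cast; linarith only [hε, hε1, k0, k1, hm, hq, q1, r1, r2, r3, r4, r5, r6])
          _ ≤ _ := (scale hR0.le hl0.le i (by norm_num)).trans (by rw [pow_one]))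
  refine key.trans ?_
  have h1 : T / (K * M) ≤ 2 * T ^ (1 - κ - m) := by
    rw [div_le_iff₀ (by positivity)]
    calc T = T ^ (1 - κ - m) * (T ^ κ * T ^ m) := by
          simp only [ad]; rw [show 1 - κ - m + (κ + m) = 1 by ring, Real.rpow_one]
      _ ≤ T ^ (1 - κ - m) * (K * (2 * M)) := by rw [hκ]; gcongr
      _ = _ := by ring
  calc _ ≤ Cg * (2 * T ^ (1 - κ - m)) * (T ^ r / 4 ^ i) := by gcongr
    _ = 2 * Cg * T ^ (1 - κ - m) * T ^ r / 4 ^ i := by ring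
    _ ≤ T ^ ε * T ^ (1 - κ - m) * T ^ r / 4 ^ i := by gcongr; linarith only [hD, hCg]
    _ = _ := by simp only [ad]; congr 2; ring

end WFamAux

theorem wfam (hg : Grid2S) (hl : Lv3S) : WfamS := by
  intro ε hε hε1
  obtain ⟨T0, h0, h⟩ := WFamAux.gen hg hl ε hε hε1
  refine ⟨T0, fun T κ K i a a1 hT hK hκ hF k0 k1 => ?_⟩
  have hT1 : 1 ≤ T := h0.trans hT
  rcases le_total κ (1 / 2) with hk | hk
  · refine (h T κ _ _ ε ((3 * κ - 1) / 20)
      ((3 * κ - 1) / 2 + (3 - 5 * κ) / 4 + (17 * κ - 9) / 20 + 17 * ε) K i a a1 hT hK hκ hF k0 k1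
      rfl rfl hε.le (by linarith) (by linarith) (by linarith) (by linarith) (by linarith)
      (by linarith) (by linarith) (by linarith)).trans ?_
    refine div_le_div_of_nonneg_right (Real.rpow_le_rpow_of_exponent_le hT1 ?_) (by positivity)
    have := le_max_right ((31 * κ - 1) / 20) ((27 * κ + 1) / 20)
    linarith
  · refine (h T κ _ _ ((2 * κ - 1) / 2 + ε) ((1 - κ) / 20)
      ((3 * κ - 1) / 2 + (3 - 5 * κ) / 4 + (21 * κ - 11) / 20 + 17 * ε) K i a a1 hT hK hκ hF k0 k1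
      rfl rfl (by linarith) (by linarith) (by linarith) (by linarith) (by linarith) (by linarith)
      (by linarith) (by linarith) (by linarith)).trans ?_
    refine div_le_div_of_nonneg_right (Real.rpow_le_rpow_of_exponent_le hT1 ?_) (by positivity)
    have := le_max_left ((31 * κ - 1) / 20) ((27 * κ + 1) / 20)
    linarith

end Pool.Agent.Lib.MP_80d0cf_nt.Up
end

-- part Pool.Agent.Lib.MP_80d0cf_nt.Up.WLv
section

/-! The improved explicit large value bound. -/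

open Set MeasureTheory ComplexConjugate

namespace Pool.Agent.Lib.MP_80d0cf_nt.Up

namespace WLvAux

lemma ker {C : ℝ} {K M : ℕ} {ρ : ℝ}
    (hf : ∀ u : ℝ, 0 ≤ u → u ≤ 8 * K * M →
      ‖DD K ρ u - Hp K M ρ u‖ ≤ C * Real.log (K + 2) * (K / (1 + u) + 1))
    {w : ℝ} (hw : |w| ≤ 8 * K * M) :
    ‖DD K ρ w - (Hp K M ρ w + conj (Hp K M ρ (-w)))‖ ≤
      C * Real.log (K + 2) * (K / (1 + |w|) + 1) := by
  have hK : (0 : ℝ) ≤ K := by positivity
  rcases abs_cases w with h | h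
  · rw [Hp_eq_zero (u := -w) (by linarith [h.2]), map_zero, add_zero]
    rw [h.1] at hw ⊢
    exact hf w h.2 hw
  · rw [Hp_eq_zero (u := w) (by linarith [h.2]), zero_add]
    rw [h.1] at hw ⊢
    have := hf (-w) (by linarith [h.2]) hw
    rwa [← Complex.norm_conj, map_sub, ← DD_neg, neg_neg] at this

lemma wt_facts {p P : ℝ} (hp : 1 ≤ p) (hP : 1 ≤ P) :
    wt (p ^ 2) P * P ≤ p ∧ wt (p ^ 2) P * √P ≤ 1 := by
  constructor
  · calc _ ≤ √(p ^ 2) / (1 + P) * P := by gcongr; exact min_le_right _ _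
      _ ≤ p / P * P := by rw [Real.sqrt_sq (by linarith)]; gcongr; linarith
      _ = _ := by field_simp
  · have e1 : 0 < √P := Real.sqrt_pos.2 (by linarith)
    calc _ ≤ 1 / √(1 + P) * √P := by gcongr; exact min_le_left _ _
      _ ≤ 1 / √P * √P := by gcongr; linarith
      _ = _ := by field_simp

lemma alg {y L K M p g Γ l R n T Q : ℝ} (hy : 1 ≤ y) (hL : 1 ≤ L) (hK : 0 < K) (hM : 0 < M)
    (hp : 0 < p) (hg : 0 < g) (hΓ : 0 < Γ) (hl : 0 < l) (hR : 0 < R) (hRn : R ≤ 2 * n)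
    (hQ : 10 ^ 9 * y ^ 3 * L ^ 6 = Q)
    (h1 : (n * l) ^ 2 ≤ 24 * y * L ^ 2 * K ^ 2 * n + 4 * y * L * K * n ^ 2 + 8 * K * T)
    (h2 : T ^ 4 ≤ y * L * n ^ 3 * (K ^ 3 * M ^ 3 *
      (32 * K * p * n ^ 3 / l ^ 2 + 72 * y ^ 2 * L ^ 4 * K ^ 4 * n * Γ * g / l ^ 4) +
      K ^ 2 * M ^ 2 * n ^ 4))
    (a0 : Q * K ≤ l ^ 2) (a1 : Q * K ^ 2 ≤ R * l ^ 2)
    (a2 : Q * (K ^ 11 * M ^ 3 * Γ * g) ≤ R ^ 4 * l ^ 12)
    (a3 : Q * (K ^ 8 * M ^ 3 * p) ≤ R ^ 2 * l ^ 10) (a4 : Q * (K ^ 6 * M ^ 2) ≤ R * l ^ 8) :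
    False := by
  have hn : 0 < n := by linarith
  have q1 : ∀ (c : ℝ) (i j : ℕ), 0 ≤ c → c ≤ 10 ^ 9 → i ≤ 3 → j ≤ 6 →
      c * y ^ i * L ^ j ≤ Q := fun c i j h0 h1 h2 h3 => by
    rw [← hQ]; gcongr
  have b1 : 24 * y * L ^ 2 * K ^ 2 * n ≤ (n * l) ^ 2 / 4 := by
    calc _ = 192 * y ^ 1 * L ^ 2 * K ^ 2 * n / 8 := by ring
      _ ≤ Q * K ^ 2 * n / 8 := by
          gcongr; exact q1 _ 1 2 (by norm_num) (by norm_num) (by norm_num) (by norm_num)
      _ ≤ R * l ^ 2 * n / 8 := by gcongr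
      _ ≤ 2 * n * l ^ 2 * n / 8 := by gcongr
      _ = _ := by ring
  have b2 : 4 * y * L * K * n ^ 2 ≤ (n * l) ^ 2 / 4 := by
    calc _ = 16 * y ^ 1 * L ^ 1 * K * n ^ 2 / 4 := by ring
      _ ≤ Q * K * n ^ 2 / 4 := by
          gcongr; exact q1 _ 1 1 (by norm_num) (by norm_num) (by norm_num) (by norm_num)
      _ ≤ l ^ 2 * n ^ 2 / 4 := by gcongr
      _ = _ := by ring
  have b3 : (n * l) ^ 2 ≤ 16 * K * T := by linarith
  have b4 : n ^ 8 * l ^ 8 ≤ 65536 * K ^ 4 * (y * L * n ^ 3 * (K ^ 3 * M ^ 3 *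
      (32 * K * p * n ^ 3 / l ^ 2 + 72 * y ^ 2 * L ^ 4 * K ^ 4 * n * Γ * g / l ^ 4) +
      K ^ 2 * M ^ 2 * n ^ 4)) := by
    calc _ = ((n * l) ^ 2) ^ 4 := by ring
      _ ≤ (16 * K * T) ^ 4 := by gcongr
      _ = 65536 * K ^ 4 * T ^ 4 := by ring
      _ ≤ _ := by gcongr
  have c1 : 65536 * y * L * (K ^ 6 * M ^ 2) * n ^ 7 ≤ n ^ 8 * l ^ 8 / 4 := by
    calc _ = 524288 * y ^ 1 * L ^ 1 * (K ^ 6 * M ^ 2) * n ^ 7 / 8 := by ring
      _ ≤ Q * (K ^ 6 * M ^ 2) * n ^ 7 / 8 := by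
          gcongr; exact q1 _ 1 1 (by norm_num) (by norm_num) (by norm_num) (by norm_num)
      _ ≤ R * l ^ 8 * n ^ 7 / 8 := by gcongr
      _ ≤ 2 * n * l ^ 8 * n ^ 7 / 8 := by gcongr
      _ = _ := by ring
  have c2 : 2097152 * y * L * (K ^ 8 * M ^ 3 * p) * n ^ 6 / l ^ 2 ≤ n ^ 8 * l ^ 8 / 4 := by
    calc _ = 33554432 * y ^ 1 * L ^ 1 * (K ^ 8 * M ^ 3 * p) * n ^ 6 / l ^ 2 / 16 := by ring
      _ ≤ Q * (K ^ 8 * M ^ 3 * p) * n ^ 6 / l ^ 2 / 16 := by
          gcongr; exact q1 _ 1 1 (by norm_num) (by norm_num) (by norm_num) (by norm_num)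
      _ ≤ R ^ 2 * l ^ 10 * n ^ 6 / l ^ 2 / 16 := by gcongr
      _ ≤ (2 * n) ^ 2 * l ^ 10 * n ^ 6 / l ^ 2 / 16 := by gcongr
      _ = _ := by field_simp; ring
  have c3 : 4718592 * y ^ 3 * L ^ 5 * (K ^ 11 * M ^ 3 * Γ * g) * n ^ 4 / l ^ 4 ≤
      n ^ 8 * l ^ 8 / 4 := by
    calc _ = 301989888 * y ^ 3 * L ^ 5 * (K ^ 11 * M ^ 3 * Γ * g) * n ^ 4 / l ^ 4 / 64 := by ring
      _ ≤ Q * (K ^ 11 * M ^ 3 * Γ * g) * n ^ 4 / l ^ 4 / 64 := by
          gcongr; exact q1 _ 3 5 (by norm_num) (by norm_num) (by norm_num) (by norm_num)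
      _ ≤ R ^ 4 * l ^ 12 * n ^ 4 / l ^ 4 / 64 := by gcongr
      _ ≤ (2 * n) ^ 4 * l ^ 12 * n ^ 4 / l ^ 4 / 64 := by gcongr
      _ = _ := by field_simp; ring
  have e : 65536 * K ^ 4 * (y * L * n ^ 3 * (K ^ 3 * M ^ 3 *
      (32 * K * p * n ^ 3 / l ^ 2 + 72 * y ^ 2 * L ^ 4 * K ^ 4 * n * Γ * g / l ^ 4) +
      K ^ 2 * M ^ 2 * n ^ 4)) = 2097152 * y * L * (K ^ 8 * M ^ 3 * p) * n ^ 6 / l ^ 2 +
      4718592 * y ^ 3 * L ^ 5 * (K ^ 11 * M ^ 3 * Γ * g) * n ^ 4 / l ^ 4 +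
      65536 * y * L * (K ^ 6 * M ^ 2) * n ^ 7 := by ring
  have : 0 < n ^ 8 * l ^ 8 := by positivity
  linarith

lemma O2_le (K : ℕ) : O2 K ≤ 4 * K :=
  (Finset.sum_le_sum fun k _ => by
    have := Om0_le_one (zk K k); have := ok_nonneg K k; rw [ok] at *; nlinarith).trans (sum_ok_le K)

end WLvAux

open WLvAux in
theorem lv3 (hf : F3S) (hq : QfS) (he : Energy2S) (h4 : L4gS) (hh : Heavy3S) (hr : RowS) :
    Lv3S := by
  obtain ⟨Cf, hCf, hf⟩ := hf
  obtain ⟨Cq, hCq, hq⟩ := hq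
  obtain ⟨C4, hC4, h4⟩ := h4
  obtain ⟨Ch, hCh, hh⟩ := hh
  obtain ⟨y, hy⟩ : ∃ y : ℝ, y = 1 + Cf + Cq + C4 + Ch := ⟨_, rfl⟩
  have y1 : C4 ≤ y := by linarith
  have y2 : Cq ≤ y := by linarith
  have y3 : Ch ≤ y := by linarith
  have y4 : Cf ≤ y := by linarith
  have y5 : 1 ≤ y := by linarith
  refine ⟨10 ^ 9 * y ^ 3, by positivity, ?_⟩
  intro K M ρ p g Γ l R W0 hM hMK3 hρ hρ1 hρ4 hp hP hg hpg hΓ hl hR hW0 hS0 a0 a1 a2 a3 a4 a5 a6
  by_contra hn
  push Not at hn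
  have hMK : M ≤ K := le_trans (by omega) ((Nat.le_self_pow (by norm_num) (2 * M)).trans hMK3)
  have hM' : (1 : ℝ) ≤ M := by exact_mod_cast hM
  have hK' : (1 : ℝ) ≤ K := by exact_mod_cast hM.trans hMK
  have hMK' : (M : ℝ) ≤ K := by exact_mod_cast hMK
  have hKM : (1 : ℝ) ≤ K * M := one_le_mul_of_one_le_of_one_le hK' hM'
  have hL := one_le_log_add_two hK'
  have hρ3 : ρ ^ 4 * ((K : ℝ) * M) ^ 3 ≤ 1 := le_trans (by gcongr; linarith) hρ4
  have hker := fun w => ker (w := w) fun u => hf K M ρ u hM hMK hρ hρ1 hρ3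
  have hlog : Real.log (K * M + 1) ≤ 2 * Real.log (K + 2) := by
    have := Real.log_le_log (by positivity) (show (K : ℝ) * M + 1 ≤ (K + 2) ^ 2 by nlinarith)
    rwa [Real.log_pow, Nat.cast_ofNat] at this
  have hh := hh K M ρ l Γ W0 hM hMK hρ hρ1 hρ3 hl hΓ
  have h4 := h4 K M ρ (p ^ 2)
  have hq := hq K (2 * M) ρ
  obtain ⟨L, hLdef⟩ : ∃ L, Real.log ((K : ℝ) + 2) = L := ⟨_, rfl⟩
  rw [hLdef] at hL hlog hh h4 hq a0 a1 a2 a3 a4 a5 a6
  simp only [hLdef] at hker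
  obtain ⟨Q, hQ⟩ : ∃ Q, 10 ^ 9 * y ^ 3 * L ^ 6 = Q := ⟨_, rfl⟩
  rw [hQ] at a0 a1 a2 a3 a4 a5 a6
  have hQ1 : 4 * (Ch * L ^ 4) ≤ Q := by
    rw [← hQ]
    calc _ ≤ 10 ^ 9 * (y ^ 3 * L ^ 6) := by
          gcongr
          · norm_num
          · exact y3.trans (le_self_pow₀ y5 (by norm_num))
          · norm_num
      _ = _ := by ring
  have hQ2 : Ch * L ≤ Q := by
    have : Ch * L ≤ Ch * L ^ 4 := by gcongr; exact le_self_pow₀ hL (by norm_num)
    have : 0 ≤ Ch * L ^ 4 := by positivity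
    linarith
  obtain ⟨W, hWs, hWc, hsp⟩ := hh (le_trans (by gcongr) a0) hW0 hS0
  have hW : ∀ u ∈ W, 0 ≤ u ∧ u < K * M := fun u hu => hW0 u (hWs hu)
  have hS : LH K ρ l W := hS0.mono hWs
  obtain ⟨n, hndef⟩ : ∃ n : ℝ, (W.card : ℝ) = n := ⟨_, rfl⟩
  have hRn : R ≤ 2 * n := by
    have e1 : Ch * L ^ 4 * ((K : ℝ) ^ 2 * M / l ^ 2) * (1 / Γ ^ 2) ≤ R / 4 := by
      calc _ = 4 * (Ch * L ^ 4) * ((K : ℝ) ^ 2 * M) / (4 * (l ^ 2 * Γ ^ 2)) := by field_simp
        _ ≤ Q * ((K : ℝ) ^ 2 * M) / (4 * (l ^ 2 * Γ ^ 2)) := by gcongr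
        _ ≤ R * l ^ 2 * Γ ^ 2 / (4 * (l ^ 2 * Γ ^ 2)) := by gcongr
        _ = _ := by field_simp
    have e2 : Ch * L ^ 4 * ((K : ℝ) ^ 2 * M / l ^ 2) * (K * √K / (l ^ 2 * Γ)) ≤ R / 4 := by
      calc _ = 4 * (Ch * L ^ 4) * ((K : ℝ) ^ 3 * √K * M) / (4 * (l ^ 4 * Γ)) := by field_simp
        _ ≤ Q * ((K : ℝ) ^ 3 * √K * M) / (4 * (l ^ 4 * Γ)) := by gcongr
        _ ≤ R * l ^ 4 * Γ / (4 * (l ^ 4 * Γ)) := by gcongr
        _ = _ := by field_simp
    rw [mul_add, hndef] at hWc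
    linarith
  have hn0 : 0 < n := by linarith
  have hU : ∀ u ∈ W, ∀ v ∈ W, |(u : ℝ) - v| ≤ K * M := fun u hu v hv => by
    have h1 : (0 : ℝ) ≤ u := by exact_mod_cast (hW u hu).1
    have h2 : (u : ℝ) < K * M := by exact_mod_cast (hW u hu).2
    have h3 : (0 : ℝ) ≤ v := by exact_mod_cast (hW v hv).1
    have h4 : (v : ℝ) < K * M := by exact_mod_cast (hW v hv).2
    exact abs_le.2 ⟨by linarith, by linarith⟩
  obtain ⟨θ, hθ, hdual⟩ := hS.dual hl.le
  have hT := h4 (32 * K * p * n ^ 3 / l ^ 2 + 72 * y ^ 2 * L ^ 4 * (K : ℝ) ^ 4 * n * Γ * g / l ^ 4)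
    W θ hM hMK hρ hρ1 (one_le_pow₀ hp) hP hW (fun u => (hθ u).le) fun j hj => by
      obtain ⟨P, hPd⟩ : ∃ P : ℕ, 2 ^ j = P := ⟨_, rfl⟩
      have hP1 : 1 ≤ P := hPd ▸ Nat.one_le_two_pow
      have hP1' : (1 : ℝ) ≤ P := by exact_mod_cast hP1
      have hP2 : (P : ℝ) ≤ 4 * K * M := by rw [hPd] at hj; exact_mod_cast hj
      rw [show (2 : ℝ) ^ j = P by rw [← hPd]; push_cast; rfl]
      have hN : (((W ×ˢ W).filter fun q => |(q.1 : ℝ) - q.2| ≤ 2 * P).card : ℝ) ≤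
          n * (18 * Γ * (√P + P / √M)) := by
        rw [← hndef]
        refine LvtAux.card_pairs_le fun u hu => ?_
        have := hsp (2 * P) (by omega) u hu
        push_cast at this
        refine this.trans ?_
        have e1 : √(2 * (P : ℝ)) ≤ 2 * √P := by
          rw [Real.sqrt_mul (by norm_num)]
          gcongr
          exact Real.sqrt_le_iff.2 ⟨by norm_num, by norm_num⟩
        calc _ ≤ 9 * Γ * (2 * √P + 2 * P / √M) := by gcongr
          _ = _ := by ring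
      have hen := he _ _ (ok K) (yk K ρ) W P l (y * L ^ 2 * (K : ℝ) ^ 2) (K * M) _
        (Ico_subset_Icc K) (fun k _ => ok_nonneg K k) hl (by positivity) hP1 hS hU
        (fun V r hr0 hV => (hq V r (by omega) hMK3 hρ hρ1
          (by push_cast; rw [show (K : ℝ) * (2 * M) = 2 * K * M by ring]; exact hρ4) hr0
          fun u hu v hv => (hV u hu v hv).trans (by push_cast; nlinarith)).trans
          (mul_le_mul_of_nonneg_right (by gcongr) (Finset.sum_nonneg fun u _ => sq_nonneg _))) hN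
      rw [hndef] at hen
      have hO := O2_le K
      rw [O2] at hO
      obtain ⟨w1, w2⟩ := wt_facts hp hP1'
      have w0 : 0 ≤ wt (p ^ 2) P := wt_nonneg (by linarith)
      generalize wt (p ^ 2) P = w at w0 w1 w2 ⊢
      have w3 : w * (√P + P / √M) ≤ 2 * g := by
        have : w * (P / √M) ≤ g := by
          rw [← mul_div_assoc, div_le_iff₀ (Real.sqrt_pos.2 (by linarith))]; linarith
        rw [mul_add]; linarith
      calc _ ≤ w * (8 * (4 * K) * P * n ^ 3 / l ^ 2 +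
            2 * (y * L ^ 2 * (K : ℝ) ^ 2) ^ 2 * (n * (18 * Γ * (√P + P / √M))) / l ^ 4) := by
            gcongr; exact hen.trans (by gcongr)
        _ = 32 * K * (w * P) * n ^ 3 / l ^ 2 +
            36 * y ^ 2 * L ^ 4 * (K : ℝ) ^ 4 * n * Γ * (w * (√P + P / √M)) / l ^ 4 := by ring
        _ ≤ 32 * K * p * n ^ 3 / l ^ 2 +
            36 * y ^ 2 * L ^ 4 * (K : ℝ) ^ 4 * n * Γ * (2 * g) / l ^ 4 := by gcongr
        _ = _ := by ring
  rw [hndef] at hT hdual
  obtain ⟨T, hTdef⟩ : ∃ T, ∑ u ∈ W, ∑ v ∈ W, θ u * conj (θ v) * Hp K M ρ ((u : ℝ) - v) = T :=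
    ⟨_, rfl⟩
  have e1 : ∑ u ∈ W, ∑ v ∈ W, θ u * conj (θ v) * DD K ρ ((u : ℝ) - v) =
      ∑ u ∈ W, ∑ v ∈ W, θ u * conj (θ v) * (DD K ρ ((u : ℝ) - v) -
        (Hp K M ρ ((u : ℝ) - v) + conj (Hp K M ρ (-((u : ℝ) - v))))) + (T + conj T) := by
    have : conj T = ∑ u ∈ W, ∑ v ∈ W, θ u * conj (θ v) * conj (Hp K M ρ (-((u : ℝ) - v))) := by
      rw [← hTdef, Finset.sum_comm]
      simp only [map_sum, map_mul, Complex.conj_conj, neg_sub]
      exact Finset.sum_congr rfl fun u _ => Finset.sum_congr rfl fun v _ => by ring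
    rw [this, ← hTdef]
    simp only [← Finset.sum_add_distrib]
    exact Finset.sum_congr rfl fun u _ => Finset.sum_congr rfl fun v _ => by ring
  have e2 : ‖∑ u ∈ W, ∑ v ∈ W, θ u * conj (θ v) * (DD K ρ ((u : ℝ) - v) -
        (Hp K M ρ ((u : ℝ) - v) + conj (Hp K M ρ (-((u : ℝ) - v)))))‖ ≤
      n * (y * L * (K * (6 * L) + n)) := by
    refine (norm_sum_le _ _).trans ((Finset.sum_le_card_nsmul _ _ _ fun u hu => ?_).trans
      (le_of_eq (by rw [nsmul_eq_mul, hndef])))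
    have h1 := hr W u (K * M) (by positivity) (hU u hu)
    calc _ ≤ ∑ v ∈ W, y * L * (K * (1 / (1 + |(u : ℝ) - v|)) + 1) := by
          refine (norm_sum_le _ _).trans (Finset.sum_le_sum fun v hv => ?_)
          rw [norm_mul, norm_mul, Complex.norm_conj, hθ, hθ, one_mul, one_mul]
          refine (hker _ (by linarith [hU u hu v hv])).trans ?_
          rw [mul_one_div]
          gcongr
      _ = y * L * (K * ∑ v ∈ W, 1 / (1 + |(u : ℝ) - v|) + n) := by
          rw [← Finset.mul_sum, Finset.sum_add_distrib, ← Finset.mul_sum, Finset.sum_const,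
            nsmul_eq_mul, hndef, mul_one]
      _ ≤ _ := by gcongr; linarith
  have h1 : (n * l) ^ 2 ≤
      24 * y * L ^ 2 * (K : ℝ) ^ 2 * n + 4 * y * L * K * n ^ 2 + 8 * K * ‖T‖ := by
    have e3 : (∑ u ∈ W, ∑ v ∈ W, θ u * conj (θ v) * DD K ρ ((u : ℝ) - v)).re ≤
        n * (y * L * (K * (6 * L) + n)) + 2 * ‖T‖ := by
      refine (Complex.re_le_norm _).trans ?_
      rw [e1]
      refine (norm_add_le _ _).trans (add_le_add e2 ((norm_add_le _ _).trans ?_))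
      rw [Complex.norm_conj]; linarith
    calc _ ≤ _ := hdual
      _ ≤ 4 * K * (n * (y * L * (K * (6 * L) + n)) + 2 * ‖T‖) := by gcongr
      _ = _ := by ring
  rw [hTdef] at hT
  have hQ0 : 0 ≤ Q := by rw [← hQ]; positivity
  exact alg (M := M) (p := p) (g := g) (Γ := Γ) y5 hL (by linarith) (by linarith) (by linarith)
    (by linarith) (by linarith) hl hR hRn hQ h1 (hT.trans (by gcongr))
    (le_trans (by gcongr; exact le_add_of_nonneg_right (by positivity)) a0) a3 a4 a5 a6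

end Pool.Agent.Lib.MP_80d0cf_nt.Up
end

-- part Pool.Agent.Lib.MP_80d0cf_nt.Up.WQa
section

/-! Diagonal terms of the square of the dual sum. -/

open Set MeasureTheory ComplexConjugate

namespace Pool.Agent.Lib.MP_80d0cf_nt.Up

namespace WQaAux

/-- one step of a Riemann sum -/
lemma step {A f f1 : ℝ → ℝ} {a L : ℝ} (hA : ∀ x ∈ Icc a (a + 1), HasDerivAt A (f x) x)
    (hf : ∀ x ∈ Icc a (a + 1), HasDerivAt f (f1 x) x) (hL : ∀ x ∈ Icc a (a + 1), |f1 x| ≤ L) :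
    |A (a + 1) - A a - f a| ≤ L := by
  obtain ⟨c, hc, h1⟩ := exists_hasDerivAt_eq_slope A f (show a < a + 1 by linarith)
    (fun x hx => (hA x hx).continuousAt.continuousWithinAt)
    (fun x hx => hA x (Ioo_subset_Icc_self hx))
  have h2 := (convex_Icc a (a + 1)).norm_image_sub_le_of_norm_hasDerivWithin_le
    (f := f) (f' := f1) (C := L) (x := a) (y := c)
    (fun x hx => (hf x hx).hasDerivWithinAt) (fun x hx => hL x hx)
    ⟨le_rfl, by linarith⟩ (Ioo_subset_Icc_self hc)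
  have hL0 : 0 ≤ L := (abs_nonneg _).trans (hL a ⟨le_rfl, by linarith⟩)
  rw [add_sub_cancel_left, div_one] at h1
  rw [← h1]
  rw [Real.norm_eq_abs, Real.norm_eq_abs, abs_of_pos (show 0 < c - a by linarith [hc.1])] at h2
  refine h2.trans ?_
  calc L * (c - a) ≤ L * 1 := by gcongr; linarith [hc.2]
    _ = L := mul_one L

/-- antiderivative -/
noncomputable def G (z : ℝ) : ℝ := ∫ t in (0 : ℝ)..z, 2 * t * Om0 t ^ 2

lemma cont : Continuous fun t : ℝ => 2 * t * Om0 t ^ 2 := by fun_prop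

lemma hasDerivAt_G (z : ℝ) : HasDerivAt G (2 * z * Om0 z ^ 2) z :=
  (cont.integral_hasStrictDerivAt 0 z).hasDerivAt

lemma G_mono : Monotone G := by
  refine monotone_of_hasDerivAt_nonneg hasDerivAt_G fun z => ?_
  rcases le_or_gt z (1 / 2) with h | h
  · simp [Om0_eq_zero (Or.inl h)]
  · have : 0 < z := by linarith
    change 0 ≤ 2 * z * Om0 z ^ 2
    positivity

lemma G_zero : G 0 = 0 := by simp [G]

lemma G_nonneg {z : ℝ} (hz : 0 ≤ z) : 0 ≤ G z := G_zero ▸ G_mono hz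

lemma G_le_two (z : ℝ) : G z ≤ G 2 := by
  rcases le_total z 2 with h | h
  · exact G_mono h
  · have h1 : G 2 + ∫ t in (2 : ℝ)..z, 2 * t * Om0 t ^ 2 = G z :=
      intervalIntegral.integral_add_adjacent_intervals (cont.intervalIntegrable _ _)
        (cont.intervalIntegrable _ _)
    have h2 : ∫ t in (2 : ℝ)..z, 2 * t * Om0 t ^ 2 = ∫ _ in (2 : ℝ)..z, (0 : ℝ) := by
      refine intervalIntegral.integral_congr fun t ht => ?_
      rw [uIcc_of_le h] at ht
      simp [Om0_eq_zero (Or.inr ht.1)]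
    rw [h2] at h1
    simp at h1
    exact h1.ge

lemma G_le_sq {z : ℝ} (hz : 0 ≤ z) : G z ≤ z ^ 2 := by
  have h1 : G z ≤ ∫ t in (0 : ℝ)..z, 2 * t := by
    refine intervalIntegral.integral_mono_on hz (cont.intervalIntegrable _ _)
      ((by fun_prop : Continuous fun t : ℝ => 2 * t).intervalIntegrable _ _) fun t ht => ?_
    have h2 : Om0 t ^ 2 ≤ 1 := pow_le_one₀ (Om0_nonneg t) (Om0_le_one t)
    have h3 := ht.1
    calc 2 * t * Om0 t ^ 2 ≤ 2 * t * 1 := by gcongr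
      _ = 2 * t := mul_one _
  rw [intervalIntegral.integral_const_mul, integral_id] at h1
  linarith

lemma tele (F : ℝ → ℝ) (n : ℕ) :
    ∑ k ∈ Finset.Icc 1 n, (F ((k : ℝ) + 1) - F k) = F ((n : ℝ) + 1) - F 1 := by
  induction n with
  | zero => simp
  | succ n ih => rw [Finset.sum_Icc_succ_top (by omega), ih]; push_cast; ring

/-- the integral against the sum over the frequencies -/
lemma lower {K : ℕ} (hK : 1 ≤ K) : K * G 2 ≤ O2 K + 33 := by
  have hK0 : (0 : ℝ) < K := by exact_mod_cast hK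
  have hz : ∀ x : ℝ, 0 < x → HasDerivAt (zk K) (1 / (2 * K * zk K x)) x := fun x hx => by
    have h := ((hasDerivAt_id x).div_const (K : ℝ)).sqrt (by simp only [id]; positivity)
    refine h.congr_deriv ?_
    simp only [id, zk]
    field_simp
  have hz0 : ∀ x : ℝ, 0 < x → 0 < zk K x := fun x hx => Real.sqrt_pos.2 (by positivity)
  have h1 : ∀ k ∈ Finset.Icc 1 (4 * K),
      K * G (zk K ((k : ℝ) + 1)) - K * G (zk K k) ≤ ok K k ^ 2 + 8 / K := by
    intro k hk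
    have hk1 : (1 : ℝ) ≤ k := by exact_mod_cast (Finset.mem_Icc.1 hk).1
    have := step (A := fun x => K * G (zk K x)) (f := fun x => Om0 (zk K x) ^ 2)
      (f1 := fun x => Om0 (zk K x) * Om1 (zk K x) / (K * zk K x)) (a := k) (L := 8 / K)
      (fun x hx => by
        have hx0 : 0 < x := by linarith [hx.1]
        have h := ((hasDerivAt_G (zk K x)).comp x (hz x hx0)).const_mul (K : ℝ)
        refine h.congr_deriv ?_
        have := hz0 x hx0
        field_simp)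
      (fun x hx => by
        have hx0 : 0 < x := by linarith [hx.1]
        have h := ((hasDerivAt_Om0 (zk K x)).comp x (hz x hx0)).pow 2
        refine h.congr_deriv ?_
        have := hz0 x hx0
        simp only [Function.comp]
        norm_num
        field_simp)
      (fun x hx => by
        have hx0 : 0 < x := by linarith [hx.1]
        have h0 := hz0 x hx0
        rcases le_or_gt (zk K x) (1 / 2) with h | h
        · rw [Om0_eq_zero (Or.inl h), zero_mul, zero_div, abs_zero]; positivity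
        · rw [abs_div, abs_mul, abs_of_nonneg (Om0_nonneg _), abs_of_pos (mul_pos hK0 h0)]
          calc _ ≤ 1 * 4 / ((K : ℝ) * (1 / 2)) := by
                gcongr
                exacts [Om0_le_one _, abs_Om1_le _]
            _ = 8 / K := by field_simp; norm_num)
    rw [ok]
    linarith [(abs_le.1 this).2]
  have h2 := Finset.sum_le_sum h1
  rw [tele (fun x => K * G (zk K x)), Finset.sum_add_distrib, Finset.sum_const, Nat.card_Icc,
    nsmul_eq_mul] at h2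
  have h3 : G 2 ≤ G (zk K (((4 * K : ℕ) : ℝ) + 1)) := by
    refine G_mono (Real.le_sqrt_of_sq_le ?_)
    rw [le_div_iff₀ hK0]; push_cast; linarith
  have h4 : K * G (zk K 1) ≤ 1 := by
    have h5 := G_le_sq (hz0 1 one_pos).le
    rw [zk, Real.sq_sqrt (by positivity)] at h5
    calc K * G (zk K 1) ≤ K * (1 / K) := by gcongr; exact h5
      _ = 1 := by field_simp
  have h6 : ((4 * K + 1 - 1 : ℕ) : ℝ) * (8 / K) = 32 := by
    rw [Nat.add_sub_cancel]; push_cast; field_simp; norm_num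
  have h7 := mul_le_mul_of_nonneg_left h3 hK0.le
  rw [O2]
  linarith

/-- the sum over the dual variable against the integral -/
lemma upper {K P : ℝ} (hK : 0 < K) (hP : 0 < P) (M : ℕ) :
    ∑ m ∈ Finset.Icc 1 M, 2 * K / P * ((P / m) ^ 3 * Om0 (P / m) ^ 2) ≤
      K * G 2 + 1216 * K / P := by
  have hz : ∀ x : ℝ, 0 < x → HasDerivAt (fun x => P / x) (-(P / x ^ 2)) x := fun x hx => by
    refine ((hasDerivAt_const x P).div (hasDerivAt_id x) hx.ne').congr_deriv ?_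
    simp only [id]; ring
  have h1 : ∀ m ∈ Finset.Icc 1 M, 2 * K / P * ((P / m) ^ 3 * Om0 (P / m) ^ 2) ≤
      (-(K * G (P / ((m : ℝ) + 1))) + 608 * K / P ^ 2 * min ((m : ℝ) + 1) (2 * P + 1)) -
      (-(K * G (P / m)) + 608 * K / P ^ 2 * min (m : ℝ) (2 * P + 1)) := by
    intro m hm
    have hm1 : (1 : ℝ) ≤ m := by exact_mod_cast (Finset.mem_Icc.1 hm).1
    rcases le_or_gt (m : ℝ) (2 * P) with h | h
    · have := step (A := fun x => -(K * G (P / x)))
        (f := fun x => 2 * K / P * ((P / x) ^ 3 * Om0 (P / x) ^ 2))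
        (f1 := fun x => -(2 * K / x ^ 2 * (3 * (P / x) ^ 2 * Om0 (P / x) ^ 2 +
          2 * (P / x) ^ 3 * (Om0 (P / x) * Om1 (P / x))))) (a := m) (L := 608 * K / P ^ 2)
        (fun x hx => by
          have hx0 : 0 < x := by linarith [hx.1]
          have h := (((hasDerivAt_G (P / x)).comp x (hz x hx0)).const_mul K).neg
          refine h.congr_deriv ?_
          field_simp)
        (fun x hx => by
          have hx0 : 0 < x := by linarith [hx.1]
          have h := (((hz x hx0).pow 3).mul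
            (((hasDerivAt_Om0 (P / x)).comp x (hz x hx0)).pow 2)).const_mul (2 * K / P)
          refine h.congr_deriv ?_
          simp only [Function.comp, Pi.pow_apply]
          generalize Om0 (P / x) = a
          generalize Om1 (P / x) = b
          norm_num
          field_simp
          ring)
        (fun x hx => by
          have hx0 : 0 < x := by linarith [hx.1]
          have h0 : 0 < P / x := by positivity
          rcases le_or_gt 2 (P / x) with h | h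
          · rw [Om0_eq_zero (Or.inr h)]; simp; positivity
          · have hO := Om0_nonneg (P / x)
            have h3 : |3 * (P / x) ^ 2 * Om0 (P / x) ^ 2 +
                2 * (P / x) ^ 3 * (Om0 (P / x) * Om1 (P / x))| ≤ 76 := by
              refine (abs_add_le _ _).trans ?_
              rw [abs_of_nonneg (by positivity), abs_mul, abs_mul (Om0 _),
                abs_of_nonneg (by positivity), abs_of_nonneg hO]
              calc _ ≤ (3 : ℝ) * 2 ^ 2 * 1 ^ 2 + 2 * 2 ^ 3 * (1 * 4) := by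
                    gcongr
                    exacts [Om0_le_one _, Om0_le_one _, abs_Om1_le _]
                _ = 76 := by norm_num
            have h4 : P / 2 ≤ x := by
              rw [div_lt_iff₀ hx0] at h; linarith
            rw [abs_neg, abs_mul, abs_of_pos (by positivity)]
            calc _ ≤ 2 * K / (P / 2) ^ 2 * 76 := by gcongr
              _ = 608 * K / P ^ 2 := by field_simp; norm_num)
      rw [min_eq_left (by linarith), min_eq_left (by linarith)]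
      linarith [(abs_le.1 this).1]
    · have h2 : P / m ≤ 1 / 2 := by
        rw [div_le_iff₀ (by linarith)]; linarith
      have h3 : G (P / ((m : ℝ) + 1)) ≤ G (P / m) := G_mono (by gcongr; linarith)
      have h4 : min (m : ℝ) (2 * P + 1) ≤ min ((m : ℝ) + 1) (2 * P + 1) :=
        min_le_min_right _ (by linarith)
      have h5 := mul_le_mul_of_nonneg_left h3 hK.le
      have h6 := mul_le_mul_of_nonneg_left h4 (show 0 ≤ 608 * K / P ^ 2 by positivity)
      rw [Om0_eq_zero (Or.inl h2)]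
      simp only [ne_eq, OfNat.ofNat_ne_zero, not_false_eq_true, zero_pow, mul_zero]
      linarith
  have h2 := Finset.sum_le_sum h1
  rw [tele (fun x => -(K * G (P / x)) + 608 * K / P ^ 2 * min x (2 * P + 1))] at h2
  have h3 := mul_nonneg hK.le (G_nonneg (show 0 ≤ P / ((M : ℝ) + 1) by positivity))
  have h4 := mul_le_mul_of_nonneg_left (G_le_two (P / 1)) hK.le
  have h5 := mul_le_mul_of_nonneg_left (min_le_right ((M : ℝ) + 1) (2 * P + 1))
    (show 0 ≤ 608 * K / P ^ 2 by positivity)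
  rw [min_eq_left (show (1 : ℝ) ≤ 2 * P + 1 by linarith)] at h2
  have h6 : 608 * K / P ^ 2 * (2 * P + 1) - 608 * K / P ^ 2 * 1 = 1216 * K / P := by
    field_simp; ring
  linarith

lemma norm_am_sq (hf : FrS) {K m w : ℝ} (hK : 0 < K) (hm : 0 < m) (hw : 0 < w) :
    ‖am K m w‖ ^ 2 ≤ 2 * K / (w / (16 * K)) *
      ((w / (16 * K) / m) ^ 3 * Om0 (w / (16 * K) / m) ^ 2) := by
  have h1 : zz K m w = w / (16 * K) / m := by rw [zz, div_div]
  rw [am, norm_mul, Complex.norm_conj, Complex.norm_real, mul_pow, Real.norm_eq_abs, sq_abs,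
    mul_pow, mul_pow, Real.sq_sqrt (by positivity), h1]
  calc _ ≤ 1 * (2 * K / m * (w / (16 * K) / m) ^ 2 * Om0 (w / (16 * K) / m) ^ 2) := by
        gcongr
        exact pow_le_one₀ (norm_nonneg _) hf
    _ = _ := by field_simp

end WQaAux

theorem qa (hf : FrS) : QaS := by
  refine ⟨19456, by norm_num, fun K M w hK hw => ?_⟩
  have hK0 : (0 : ℝ) < K := by exact_mod_cast hK
  have hw0 : 0 < w := by linarith
  have h1 := WQaAux.upper hK0 (show 0 < w / (16 * K) by positivity) M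
  have h2 := WQaAux.lower hK
  have h3 : ∑ m ∈ Finset.Icc 1 M, ‖am K m w‖ ^ 2 ≤ _ :=
    (Finset.sum_le_sum fun m hm => WQaAux.norm_am_sq hf hK0
      (by exact_mod_cast (Finset.mem_Icc.1 hm).1) hw0).trans h1
  have h4 : 1216 * (K : ℝ) / (w / (16 * K)) = 19456 * ((K : ℝ) ^ 2 / w) := by
    field_simp; norm_num
  linarith

end Pool.Agent.Lib.MP_80d0cf_nt.Up
end

-- part Pool.Agent.Lib.MP_80d0cf_nt.Up.WQb
section

/-! Off-diagonal terms of the square of the dual sum. -/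

open Set MeasureTheory ComplexConjugate

namespace Pool.Agent.Lib.MP_80d0cf_nt.Up

namespace WQbAux

lemma amp_mul {a b S μ S' μ' : ℝ} {ω ω1 η η1 : ℝ → ℂ} (h : Amp a b S μ ω ω1)
    (h' : Amp a b S' μ' η η1) :
    Amp a b (S * S') (μ * S' + S * μ') (fun x => ω x * η x)
      (fun x => ω1 x * η x + ω x * η1 x) := by
  refine ⟨fun x hx => (h.der x hx).fun_mul (h'.der x hx), fun x hx => ?_, fun x hx => ?_⟩
  · rw [norm_mul]
    exact mul_le_mul (h.b0 x hx) (h'.b0 x hx) (norm_nonneg _) ((norm_nonneg _).trans (h.b0 x hx))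
  · refine (norm_add_le _ _).trans (add_le_add ?_ ?_) <;> rw [norm_mul]
    · exact mul_le_mul (h.b1 x hx) (h'.b0 x hx) (norm_nonneg _)
        ((norm_nonneg _).trans (h.b1 x hx))
    · exact mul_le_mul (h.b0 x hx) (h'.b1 x hx) (norm_nonneg _)
        ((norm_nonneg _).trans (h.b0 x hx))

lemma amp_conj {a b S μ : ℝ} {ω ω1 : ℝ → ℂ} (h : Amp a b S μ ω ω1) :
    Amp a b S μ (fun x => conj (ω x)) (fun x => conj (ω1 x)) :=
  ⟨fun x hx => (h.der x hx).star, fun x hx => by rw [Complex.norm_conj]; exact h.b0 x hx,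
    fun x hx => by rw [Complex.norm_conj]; exact h.b1 x hx⟩

lemma amp_am (hc : CFS) {K m : ℝ} (hK : 0 < K) (hm : 0 < m) (a b u : ℝ) :
    Amp a b (30 * √(K / m)) (9 * √(K / m) / (K * m)) (fun x => am K m (x - u))
      (fun x => am1 K m (x - u)) :=
  ⟨fun x _ => by simpa using (hasDerivAt_am K m (x - u)).comp_sub_const x u,
    fun x _ => norm_am_le hc _ _ _, fun x _ => norm_am1_le hc hK hm _⟩

lemma gm1_mem {K ρ m x : ℝ} (hρ : 0 ≤ ρ) (hρ1 : ρ ≤ 1 / 10000)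
    (hz : zz K m x ∈ Icc (1 / 2 : ℝ) 2) : 0 ≤ gm1 K ρ m x ∧ gm1 K ρ m x ≤ 1 / 4 := by
  obtain ⟨h1, h2⟩ := hz
  have h0 : 0 ≤ zz K m x := by linarith
  have h3 : zz K m x ^ 3 ≤ 2 ^ 3 := by gcongr
  have h4 := mul_le_mul hρ1 h3 (by positivity) (by norm_num)
  have h5 : 0 ≤ ρ * zz K m x ^ 3 := by positivity
  rw [gm1]
  constructor <;> linarith

lemma gm2_mem {K ρ m n x : ℝ} (hK : 0 < K) (hn : 0 < n) (hm : n ≤ m) (hρ : 0 ≤ ρ)
    (hρ1 : ρ ≤ 1 / 10000) (hz : zz K m x ∈ Icc (1 / 2 : ℝ) 2) :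
    0 ≤ gm2 K ρ m x ∧ gm2 K ρ m x ≤ 1 / (K * n) := by
  obtain ⟨h1, h2⟩ := hz
  have h0 : 0 ≤ zz K m x := by linarith
  have hm0 : 0 < m := hn.trans_le hm
  have h3 : zz K m x ^ 2 ≤ 2 ^ 2 := by gcongr
  have h4 := mul_le_mul hρ1 h3 (by positivity) (by norm_num)
  have h5 : 0 ≤ ρ * zz K m x ^ 2 := by positivity
  rw [gm2]
  refine ⟨div_nonneg (by linarith) (by positivity), ?_⟩
  have h6 : K * n ≤ 16 * K * m := by nlinarith
  exact div_le_div₀ zero_le_one (by linarith) (by positivity) h6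

lemma gm2_sub {K ρ m m' x : ℝ} (hK : 0 < K) (hm : 0 < m) (hm' : 0 < m') (h : m ≤ m')
    (hρ1 : ρ ≤ 1 / 10000) (hz : zz K m x ∈ Icc (1 / 2 : ℝ) 2)
    (hz' : zz K m' x ∈ Icc (1 / 2 : ℝ) 2) :
    (m' - m) / (256 * K * (m * m')) ≤ gm2 K ρ m x - gm2 K ρ m' x := by
  obtain ⟨h1, h2⟩ := hz
  obtain ⟨h3, h4⟩ := hz'
  have e : gm2 K ρ m x - gm2 K ρ m' x = (m' - m) / (256 * K * (m * m')) *
      (2 - 24 * (ρ * (zz K m x ^ 2 + zz K m x * zz K m' x + zz K m' x ^ 2))) := by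
    simp only [gm2, zz]
    field_simp
    ring
  have h5 : zz K m x ^ 2 + zz K m x * zz K m' x + zz K m' x ^ 2 ≤ 12 := by nlinarith
  have h6 := mul_le_mul hρ1 h5 (by positivity) (by norm_num)
  rw [e]
  exact le_mul_of_one_le_right (div_nonneg (by linarith) (by positivity)) (by linarith)

lemma core {C : ℝ} (hC : 0 < C)
    (hp : ∀ (a b S μ Y Λ Z : ℝ) (ω ω1 : ℝ → ℂ) (φ φ1 φ2 : ℝ → ℝ) (l1 : ℕ) (s : Finset ℤ), a ≤ b →
      Amp a b S μ ω ω1 → Supp a b ω → Ph a b φ φ1 φ2 → (∀ x ∈ Icc a b, |φ1 x| ≤ Y) →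
      (∀ x ∈ Icc a b, |φ2 x| ≤ Λ) → 2 * Y ≤ l1 + 1 → 3 ≤ Z → b - a ≤ Z → S ≤ Z → μ ≤ Z →
      (l1 : ℝ) + 1 ≤ Z → Cov s a b →
      ‖∑ n ∈ s, ω n * e (φ n) -
          ∑ l ∈ Finset.Icc (-(l1 : ℤ)) l1, ∫ x in a..b, ω x * e (φ x + l * x)‖ ≤
        C * ((b - a) * μ * Real.log Z + (b - a) * S * Λ / (l1 + 1) + 1 / Z))
    (hs : SdS) (hc : CFS) {K m m' ρ δ : ℝ} {s : Finset ℤ} (hm : 1 ≤ m) (hm' : 1 ≤ m')
    (hmK : m ≤ K) (hmK' : m' ≤ K) (hne : m ≠ m') (hρ : 0 ≤ ρ) (hρ1 : ρ ≤ 1 / 10000)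
    (hδ : |δ| ≤ 1 / 2) (hcov : Cov s 0 (32 * K * m)) :
    ‖∑ w ∈ s, mainT K ρ m w * conj (mainT K ρ m' w) * e (w * δ)‖ ≤
      (2592000 + 270000 * C) *
        (K * √K / √|m - m'| + K / √(m * m') * Real.log (K + 2)) := by
  have hK : 1 ≤ K := hm.trans hmK
  have hK0 : 0 < K := by linarith
  have hm0 : 0 < m := by linarith
  have hm0' : 0 < m' := by linarith
  have hL := one_le_log_add_two hK
  set L := Real.log (K + 2) with hLdef
  set n := min m m' with hn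
  have n1 : n ≤ m := min_le_left _ _
  have n2 : n ≤ m' := min_le_right _ _
  have n3 : 1 ≤ n := le_min hm hm'
  have n4 : m ≤ max m m' := le_max_left _ _
  have n5 : m' ≤ max m m' := le_max_right _ _
  set a : ℝ := 8 * (K * max m m') with ha
  set b : ℝ := 32 * (K * n) with hb
  have a1 : 8 * (K * m) ≤ a := by rw [ha]; gcongr
  have a2 : 8 * (K * m') ≤ a := by rw [ha]; gcongr
  have b1 : b ≤ 32 * (K * m) := by rw [hb]; gcongr
  have b2 : b ≤ 32 * (K * m') := by rw [hb]; gcongr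
  have a3 : 8 * (K * n) ≤ a := le_trans (by gcongr) a1
  let ω : ℝ → ℂ := fun x => am K m x * conj (am K m' x)
  let φ : ℝ → ℝ := fun x => gm K ρ m x - gm K ρ m' x + x * δ
  let φ1 : ℝ → ℝ := fun x => gm1 K ρ m x - gm1 K ρ m' x + δ
  let φ2 : ℝ → ℝ := fun x => gm2 K ρ m x - gm2 K ρ m' x
  have lo : ∀ k x : ℝ, 0 < k → x ≤ 8 * (K * k) → am K k x = 0 := fun k x hk h =>
    am_eq_zero (Or.inl (by rw [zz, div_le_iff₀ (by positivity)]; linarith))
  have hi : ∀ k x : ℝ, 0 < k → 32 * (K * k) ≤ x → am K k x = 0 := fun k x hk h =>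
    am_eq_zero (Or.inr (by rw [zz, le_div_iff₀ (by positivity)]; linarith))
  have hsupp : Supp a b ω := by
    rintro x (hx | hx) <;> simp only [ω]
    · rcases max_choice m m' with h | h <;> rw [ha, h] at hx
      · rw [lo m x hm0 hx, zero_mul]
      · rw [lo m' x hm0' hx, map_zero, mul_zero]
    · rcases min_choice m m' with h | h <;> rw [hb, hn, h] at hx
      · rw [hi m x hm0 hx, zero_mul]
      · rw [hi m' x hm0' hx, map_zero, mul_zero]
  have eq1 : ∀ x : ℝ, mainT K ρ m x * conj (mainT K ρ m' x) * e (x * δ) = ω x * e (φ x) :=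
    fun x => by simp only [mainT, ω, φ, e_add, e_sub, map_mul]; ring
  simp only [eq1]
  rcases lt_or_ge b a with hab | hab
  · rw [Finset.sum_eq_zero fun x _ => by
      rw [hsupp x (by rcases le_total (x : ℝ) a with h | h; exacts [Or.inl h, Or.inr (by linarith)]),
        zero_mul], norm_zero]
    positivity
  have hzz : ∀ k x : ℝ, 0 < k → 8 * (K * k) ≤ x → x ≤ 32 * (K * k) →
      zz K k x ∈ Icc (1 / 2 : ℝ) 2 := fun k x hk h1 h2 =>
    ⟨by rw [zz, le_div_iff₀ (by positivity)]; linarith,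
      by rw [zz, div_le_iff₀ (by positivity)]; linarith⟩
  have hz : ∀ x ∈ Icc a b, zz K m x ∈ Icc (1 / 2 : ℝ) 2 := fun x hx =>
    hzz _ _ hm0 (a1.trans hx.1) (hx.2.trans b1)
  have hz' : ∀ x ∈ Icc a b, zz K m' x ∈ Icc (1 / 2 : ℝ) 2 := fun x hx =>
    hzz _ _ hm0' (a2.trans hx.1) (hx.2.trans b2)
  have hlen : b - a ≤ 24 * (K * n) := by linarith
  have hr0 : 0 < √(m * m') := Real.sqrt_pos.2 (by positivity)
  have hr1 : 1 ≤ √(m * m') := Real.one_le_sqrt.2 (one_le_mul_of_one_le_of_one_le hm hm')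
  have hr2 : √(m * m') ≤ K := Real.sqrt_le_iff.2 ⟨hK0.le, by rw [sq]; gcongr⟩
  set q : ℝ := K / √(m * m') with hq
  have hq1 : 1 ≤ q := (one_le_div hr0).2 hr2
  have hq2 : q ≤ K := div_le_self hK0.le hr1
  have hq3 : √(K / m) * √(K / m') = q := by
    rw [← Real.sqrt_mul (by positivity), div_mul_div_comm, Real.sqrt_div (by positivity),
      Real.sqrt_mul_self hK0.le]
  have hKn : 1 ≤ K * n := one_le_mul_of_one_le_of_one_le hK n3
  obtain ⟨ω1, hω⟩ : ∃ ω1, Amp a b (900 * q) (900 * q / (K * n)) ω ω1 := by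
    have h := amp_mul (amp_am hc hK0 hm0 a b 0)
      (amp_conj (amp_am hc hK0 hm0' a b 0))
    simp only [sub_zero] at h
    refine ⟨_, h.der, fun x hx => (h.b0 x hx).trans (le_of_eq ?_), fun x hx => (h.b1 x hx).trans ?_⟩
    · rw [← hq3]; ring
    · calc _ = 270 * (√(K / m) * √(K / m')) / (K * m) +
            270 * (√(K / m) * √(K / m')) / (K * m') := by ring
        _ ≤ 450 * q / (K * n) + 450 * q / (K * n) := by
          rw [hq3]
          gcongr <;> norm_num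
        _ = _ := by ring
  have hph : Ph a b φ φ1 φ2 :=
    ⟨fun x _ => ((hasDerivAt_gm hK0 hm0 ρ x).sub (hasDerivAt_gm hK0 hm0' ρ x)).add
      (hasDerivAt_mul_const δ), fun x _ =>
      ((hasDerivAt_gm1 K ρ m x).sub (hasDerivAt_gm1 K ρ m' x)).add_const δ⟩
  have hμ : 900 * q / (K * n) ≤ 900 * q := div_le_self (by positivity) hKn
  have hKn2 : K * n ≤ (K + 2) ^ 2 := by
    rw [sq]
    exact mul_le_mul (by linarith) (by linarith) (by linarith) (by linarith)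
  have hK2 : K ≤ (K + 2) ^ 2 := (le_mul_of_one_le_right hK0.le n3).trans hKn2
  have hK3 : 1 ≤ (K + 2) ^ 2 := hK.trans hK2
  have h1 := hp a b (900 * q) (900 * q / (K * n)) 1 (1 / (K * n)) (900 * (K + 2) ^ 2) ω ω1
    φ φ1 φ2 1 s hab hω hsupp hph
    (fun x hx => by
      obtain ⟨c1, c2⟩ := gm1_mem hρ hρ1 (hz x hx)
      obtain ⟨c3, c4⟩ := gm1_mem hρ hρ1 (hz' x hx)
      obtain ⟨c5, c6⟩ := abs_le.1 hδ
      simp only [φ1]
      rw [abs_le]
      constructor <;> linarith)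
    (fun x hx => by
      obtain ⟨c1, c2⟩ := gm2_mem hK0 (by linarith) n1 hρ hρ1 (hz x hx)
      obtain ⟨c3, c4⟩ := gm2_mem hK0 (by linarith) n2 hρ hρ1 (hz' x hx)
      simp only [φ2]
      rw [abs_le]
      constructor <;> linarith)
    (by norm_num) (by linarith) (by linarith) (by linarith) (by linarith)
    (by push_cast; linarith) (fun k k1 k2 => hcov k (by linarith) (by linarith))
  have hd : 0 < |m - m'| := abs_pos.2 (sub_ne_zero.2 hne)
  have h4 : (b - a) * (900 * q / (K * n)) ≤ 24 * (900 * q) := by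
    calc _ ≤ 24 * (K * n) * (900 * q / (K * n)) := by gcongr
      _ = _ := by field_simp
  have h2 : ∀ l : ℤ, ‖∫ x in a..b, ω x * e (φ x + l * x)‖ ≤ 864000 * (K * √K / √|m - m'|) := by
    intro l
    have h := hs a b (900 * q) (900 * q / (K * n)) (|m - m'| / (256 * K * (m * m'))) ω ω1
      (fun x => φ x + l * x) (fun x => φ1 x + l) φ2 hab hω
      ⟨fun x hx => (hph.d0 x hx).add (by simpa using (hasDerivAt_id x).const_mul (l : ℝ)),
        fun x hx => (hph.d1 x hx).add_const _⟩ (by positivity) (by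
        rcases le_total m m' with c | c
        · refine Or.inl fun x hx => ?_
          rw [abs_of_nonpos (by linarith), neg_sub]
          exact gm2_sub hK0 hm0 hm0' c hρ1 (hz x hx) (hz' x hx)
        · refine Or.inr fun x hx => ?_
          have := gm2_sub hK0 hm0' hm0 c hρ1 (hz' x hx) (hz x hx)
          rw [abs_of_nonneg (by linarith), mul_comm m m']
          simp only [φ2]
          linarith)
    refine h.trans ?_
    have h3 : √(|m - m'| / (256 * K * (m * m'))) = √|m - m'| / (16 * √K * √(m * m')) := by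
      rw [Real.sqrt_div hd.le, Real.sqrt_mul (by positivity), Real.sqrt_mul (by norm_num),
        show (256 : ℝ) = 16 ^ 2 by norm_num, Real.sqrt_sq (by norm_num)]
    have h5 : 0 < √|m - m'| := Real.sqrt_pos.2 hd
    have h6 : 0 < √K := Real.sqrt_pos.2 hK0
    rw [h3]
    calc _ ≤ 54000 * q / (√|m - m'| / (16 * √K * √(m * m'))) := by gcongr; linarith
      _ = _ := by rw [hq]; field_simp; norm_num
  have h3 : ‖∑ l ∈ Finset.Icc (-((1 : ℕ) : ℤ)) (1 : ℕ), ∫ x in a..b, ω x * e (φ x + l * x)‖ ≤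
      2592000 * (K * √K / √|m - m'|) := by
    refine (norm_sum_le _ _).trans ((Finset.sum_le_card_nsmul _ _ _ fun l _ => h2 l).trans
      (le_of_eq ?_))
    rw [show (Finset.Icc (-((1 : ℕ) : ℤ)) (1 : ℕ)).card = 3 by decide, nsmul_eq_mul]
    push_cast
    ring
  have h5 : Real.log (900 * (K + 2) ^ 2) ≤ 9 * L := by
    have h6 : (900 : ℝ) ≤ (K + 2) ^ 7 :=
      le_trans (by norm_num) (pow_le_pow_left₀ (by norm_num) (show (3 : ℝ) ≤ K + 2 by linarith) 7)
    have h7 := Real.log_le_log (by positivity) (show 900 * (K + 2) ^ 2 ≤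
      (K + 2) ^ 9 by rw [show 9 = 7 + 2 by rfl, pow_add]; gcongr)
    rwa [Real.log_pow, Nat.cast_ofNat] at h7
  have h6 : (b - a) * (900 * q) * (1 / (K * n)) ≤ 24 * (900 * q) := by
    calc _ ≤ 24 * (K * n) * (900 * q) * (1 / (K * n)) := by gcongr
      _ = _ := by field_simp
  have h7 : 1 / (900 * (K + 2) ^ 2) ≤ q :=
    le_trans ((div_le_one (by positivity)).2 (by linarith)) hq1
  have h8 : (b - a) * (900 * q / (K * n)) * Real.log (900 * (K + 2) ^ 2) ≤
      24 * (900 * q) * (9 * L) :=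
    mul_le_mul h4 h5 (Real.log_nonneg (by linarith)) (by positivity)
  have h9 : q ≤ q * L := le_mul_of_one_le_right (by linarith) hL
  have h10 := h1.trans (mul_le_mul_of_nonneg_left (show _ ≤ 270000 * (q * L) by
    push_cast; linarith) hC.le)
  have h11 := norm_le_norm_add_norm_sub' (∑ k ∈ s, ω k * e (φ k))
    (∑ l ∈ Finset.Icc (-((1 : ℕ) : ℤ)) (1 : ℕ), ∫ x in a..b, ω x * e (φ x + l * x))
  have h12 : 0 ≤ K * √K / √|m - m'| := by positivity
  have h14 : 0 ≤ q * L := by positivity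
  calc _ ≤ 2592000 * (K * √K / √|m - m'|) + C * (270000 * (q * L)) :=
        h11.trans (add_le_add h3 h10)
    _ ≤ 2592000 * (K * √K / √|m - m'|) + C * (270000 * (q * L)) +
        (270000 * (C * (K * √K / √|m - m'|)) + 2592000 * (q * L)) :=
      le_add_of_nonneg_right (by positivity)
    _ = _ := by ring

end WQbAux

theorem qb (hp : PsS) (hs : SdS) (hc : CFS) : QbS := by
  obtain ⟨C, hC, hp⟩ := hp
  refine ⟨2592000 + 270000 * C, by positivity, ?_⟩
  intro K M m m' ρ δ s hMK hm hm' hne hρ hρ1 hcov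
  obtain ⟨h1, h2⟩ := Finset.mem_Icc.1 hm
  obtain ⟨h3, h4⟩ := Finset.mem_Icc.1 hm'
  have e1 : ∀ w : ℤ, e (w * δ) = e (w * (δ - round δ)) := fun w => by
    rw [mul_sub, e_sub, ← Int.cast_mul, e_int, map_one, mul_one]
  simp only [e1]
  exact WQbAux.core hC hp hs hc (by exact_mod_cast h1) (by exact_mod_cast h3)
    (by exact_mod_cast h2.trans hMK) (by exact_mod_cast h4.trans hMK) (by exact_mod_cast hne) hρ hρ1
    (abs_sub_round δ) hcov

end Pool.Agent.Lib.MP_80d0cf_nt.Up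
end
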