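import Pool.Agent.Lib.MP_80d0cf_nt.Up.XAll
import Pool.Agent.Lib.MP_80d0cf_nt.Up.WFr

import Pool.Agent.Lib.MP_80d0cf_nt.Up.WQb

import Pool.Agent.Lib.MP_80d0cf_nt.Up.WGrid








/-! Assembly of the improved explicit bound. -/

namespace Pool.Agent.Lib.MP_80d0cf_nt.Up

theorem f3S : F3S := f3 bpS cf

theorem lv3S : Lv3S :=
  lv3 f3S (qf cf f3S (qa (fr ibp cf)) (qb psS sd cf)) energy2 (l4g (jb2 psS fd2 sd cf) count)
    (heavy3 (heavyA3 cf f3S schur row sieve)) row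

theorem explicit3 {A : ℝ} (hA4 : 4 ≤ A) (hA12 : A ≤ 12) {ε : ℝ} (hε : 0 < ε) :
    ∃ C : ℝ, ∀ T : ℝ, 1 ≤ T → ∫ t in (0 : ℝ)..T, ‖riemannZeta (1 / 2 + t * Complex.I)‖ ^ A ≤
      C * T ^ (max ((22 + 5 * A) / 42) ((10 + 3 * A) / 23) + ε) :=
  finGen (z1 psS fd1) (by linarith) hA12 (le_max_of_le_left (by linarith))
    (levS redS (by linarith) hA12
      (famS3 (mv fd1) hmpS (wfam grid2 lv3S) hA4 hA12 (le_max_left _ _) (le_max_right _ _))) hε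

end Pool.Agent.Lib.MP_80d0cf_nt.Up
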