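import Pool.Agent.Lib.MP_80d0cf_nt.Up.Sp

import Pool.Agent.Lib.MP_80d0cf_nt.Up.Bp

import Pool.Agent.Lib.MP_80d0cf_nt.Up.Kern


import Pool.Agent.Lib.MP_80d0cf_nt.Up.Grid


import Pool.Agent.Lib.MP_80d0cf_nt.Up.ZetC
import Pool.Agent.Lib.MP_80d0cf_nt.Up.XLv


import Pool.Agent.Lib.MP_80d0cf_nt.Up.ZetD
import Pool.Agent.Lib.MP_80d0cf_nt.Up.Red






/-! Assembly of the explicit bound. -/

namespace Pool.Agent.Lib.MP_80d0cf_nt.Up

theorem psS : PsS := ps ibp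

theorem bpS : BpS := bp psS (sp1 ibp cf) (sp2 ibp)

theorem f1S : F1S := f1 bpS cf

theorem lv2S : Lv2S := lv2 cf f1S dual row energy (l4 (jb2 psS fd2 sd cf) count)

theorem redS : RedS := red z2 (z4 z2 (zc1 bpS) (zc2 cf))

theorem hmpS : HmpS := hmp (mv fd1) grid (dhm cf f1S hm)

theorem explicit {A : ℝ} (hA4 : 4 ≤ A) (hA12 : A ≤ 12) {ε : ℝ} (hε : 0 < ε) :
    ∃ C : ℝ, ∀ T : ℝ, 1 ≤ T → ∫ t in (0 : ℝ)..T, ‖riemannZeta (1 / 2 + t * Complex.I)‖ ^ A ≤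
      C * T ^ (max ((62 + 15 * A) / 122) ((64 + 17 * A) / 134) + ε) :=
  finGen (z1 psS fd1) (by linarith) hA12 (le_max_of_le_left (by linarith))
    (levS redS (by linarith) hA12
      (famS (mv fd1) hmpS (xfam grid lv2S) hA4 hA12 (le_max_left _ _) (le_max_right _ _))) hε

end Pool.Agent.Lib.MP_80d0cf_nt.Up
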