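import Pool.Agent.Lib.MP_80d0cf_nt.Up.Weyl
import Pool.Agent.Lib.MP_80d0cf_nt.Up.ZetD

/-! Level sets for the twelfth moment. -/

open Set MeasureTheory

namespace Pool.Agent.Lib.MP_80d0cf_nt.Up

/-- level sets of the families in the middle range -/
def YfamS : Prop := ∃ δ : ℝ, 0 < δ ∧ δ ≤ 1 / 4 ∧ ∀ ε : ℝ, 0 < ε → ε ≤ 1 / 1000 → ∃ T0 : ℝ,
  ∀ (T κ m : ℝ) (K i : ℕ) (a a1 : ℕ → ℝ → ℂ), T0 ≤ T → 1 ≤ K → T ^ κ = K →
  Fam T (T ^ ε) K a a1 → κ ≤ 1 / 2 → 0 ≤ m → m ≤ κ → κ + ε ≤ 50 * m → 2 * m ≤ 1 - κ →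
  4 * m + 8 * ε ≤ 3 - 5 * κ → 8 * m + 8 * ε ≤ 7 - 13 * κ → 4 * m + 8 * ε ≤ 9 - 15 * κ →
  m * (1 - 2 * δ) + 12 * ε ≤ 1 - 2 * κ →
  lev T (4 * T) (SS K a) (2 ^ i * (K * T) ^ (1 / 4 : ℝ)) ≤ T ^ ((1 + κ) / 2 - m + 6 * ε) / 4 ^ i

theorem yfam (hg : GridS) (hl : Dhm2S) : YfamS := by
  obtain ⟨Cg, hCg, hg⟩ := hg
  obtain ⟨C, δ, hC, hδ, hδ1, hl⟩ := hl
  refine ⟨δ, hδ, hδ1, fun ε hε hε1 => ?_⟩
  obtain ⟨T1, hT11, hT1⟩ := exists_log_pow_le (3 * Cg + 2 ^ 50) 0 hε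
  obtain ⟨T2, -, hT2⟩ := exists_log_pow_le C 2 hε
  refine ⟨max T1 T2, ?_⟩
  intro T κ m K i a a1 hT hK hκ hF k1 m0 m1 m3 m2 g1 g2 g3 r1
  have hD := hT1 T ((le_max_left _ _).trans hT)
  rw [pow_zero, mul_one] at hD
  have hD1 : (2 : ℝ) ^ 50 ≤ T ^ ε := by linarith
  have hD2 : (100000 : ℝ) ≤ T ^ ε := le_trans (by norm_num) hD1
  have hD3 : 3 * Cg ≤ T ^ ε := le_trans (le_add_of_nonneg_right (by positivity)) hD
  clear hD
  have hT1' : 1 ≤ T := hT11.trans ((le_max_left _ _).trans hT)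
  have hT0 : 0 < T := by linarith
  have mono : ∀ {x y : ℝ}, x ≤ y → T ^ x ≤ T ^ y := fun h =>
    Real.rpow_le_rpow_of_exponent_le hT1' h
  have pw : ∀ (x : ℝ) (n : ℕ), (T ^ x) ^ n = T ^ (x * n) := fun x n =>
    (Real.rpow_mul_natCast hT0.le x n).symm
  have ad : ∀ x y : ℝ, T ^ x * T ^ y = T ^ (x + y) := fun x y => (Real.rpow_add hT0 x y).symm
  have one : ∀ {x : ℝ}, 0 ≤ x → 1 ≤ T ^ x := fun h => Real.one_le_rpow hT1' h
  have hK1 : (1 : ℝ) ≤ K := by exact_mod_cast hK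
  have hKT : (K : ℝ) ≤ T := by
    rw [← hκ]; exact (mono (by linarith)).trans (Real.rpow_one T).le
  have hlog := one_le_log_add_two hK1
  have hQ : C * Real.log (K + 2) ^ 2 ≤ T ^ ε := by
    refine le_trans ?_ (hT2 T ((le_max_right _ _).trans hT))
    gcongr
  have hQ1 : C * Real.log (K + 2) ≤ T ^ ε := by
    refine le_trans ?_ hQ
    gcongr
    exact le_self_pow₀ hlog two_ne_zero
  set M := ⌊T ^ m⌋₊ with hMd
  have hM1 : 1 ≤ M := Nat.le_floor (by simpa using one m0)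
  have hM1' : (1 : ℝ) ≤ M := by exact_mod_cast hM1
  have hMu : (M : ℝ) ≤ T ^ m := Nat.floor_le (by positivity)
  have hMl : T ^ m ≤ 2 * M := by
    have := (Nat.lt_floor_add_one (T ^ m)).le
    linarith
  have hMK : M ≤ K := by
    have : (M : ℝ) ≤ K := hMu.trans ((mono m1).trans hκ.le)
    exact_mod_cast this
  have hKM : K ≤ M ^ 50 := by
    have h1 : (K : ℝ) * 2 ^ 50 ≤ (M : ℝ) ^ 50 * 2 ^ 50 := by
      calc _ ≤ T ^ κ * T ^ ε := by rw [hκ]; gcongr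
        _ ≤ (T ^ m) ^ 50 := by rw [pw, ad]; exact mono (by push_cast; linarith)
        _ ≤ (2 * M) ^ 50 := pow_le_pow_left₀ (by positivity) hMl 50
        _ = _ := by rw [mul_pow, mul_comm]
    have h2 := le_of_mul_le_mul_right h1 (by positivity)
    exact_mod_cast h2
  have hi : (1 : ℝ) ≤ 2 ^ i := one_le_pow₀ (by norm_num)
  have hq4 : ((K : ℝ) * T) ^ (1 / 4 : ℝ) = T ^ ((1 + κ) / 4) := by
    rw [← hκ]
    nth_rewrite 2 [← Real.rpow_one T]
    rw [ad, ← Real.rpow_mul hT0.le]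
    congr 1; ring
  have hdiv : (K : ℝ) / T = T ^ (κ - 1) := by rw [Real.rpow_sub hT0, hκ, Real.rpow_one]
  have hs1 : √(K / T) = T ^ ((κ - 1) / 2) := by
    rw [hdiv, Real.sqrt_eq_rpow, ← Real.rpow_mul hT0.le]; congr 1; ring
  have hs2 : √(T / K) = T ^ ((1 - κ) / 2) := by
    rw [show T / K = T ^ (1 - κ) by rw [Real.rpow_sub hT0, hκ, Real.rpow_one], Real.sqrt_eq_rpow,
      ← Real.rpow_mul hT0.le]
    congr 1; ring
  rw [hq4]
  have herr : Cg * T ^ ε * (K * M * √(K / T) + (K : ℝ) ^ 2 * (M : ℝ) ^ 2 * √(K / T) ^ 3 +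
      (K : ℝ) ^ 4 * M / T ^ 2) ≤ 2 ^ i * T ^ ((1 + κ) / 4) := by
    have e1 : K * M * √(K / T) ≤ T ^ ((1 + κ) / 4 - 2 * ε) := by
      calc _ ≤ T ^ κ * T ^ m * T ^ ((κ - 1) / 2) := by rw [hs1, hκ]; gcongr
        _ ≤ _ := by simp only [ad]; exact mono (by linarith)
    have e2 : (K : ℝ) ^ 2 * (M : ℝ) ^ 2 * √(K / T) ^ 3 ≤ T ^ ((1 + κ) / 4 - 2 * ε) := by
      calc _ ≤ (T ^ κ) ^ 2 * (T ^ m) ^ 2 * (T ^ ((κ - 1) / 2)) ^ 3 := by rw [hs1, hκ]; gcongr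
        _ ≤ _ := by simp only [pw, ad]; exact mono (by push_cast; linarith)
    have e3 : (K : ℝ) ^ 4 * M / T ^ 2 ≤ T ^ ((1 + κ) / 4 - 2 * ε) := by
      calc _ = (K : ℝ) ^ 2 * (K / T) ^ 2 * M := by field_simp
        _ ≤ (T ^ κ) ^ 2 * (T ^ (κ - 1)) ^ 2 * T ^ m := by rw [hdiv, hκ]; gcongr
        _ ≤ _ := by simp only [pw, ad]; exact mono (by push_cast; linarith)
    calc _ ≤ Cg * T ^ ε * (3 * T ^ ((1 + κ) / 4 - 2 * ε)) := by gcongr; linarith
      _ = 3 * Cg * T ^ ε * T ^ ((1 + κ) / 4 - 2 * ε) := by ring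
      _ ≤ T ^ ε * T ^ ε * T ^ ((1 + κ) / 4 - 2 * ε) := by gcongr
      _ = T ^ ((1 + κ) / 4) := by simp only [ad]; congr 1; ring
      _ ≤ _ := le_mul_of_one_le_left (by positivity) hi
  have key := hg T (T ^ ε) (2 ^ i * T ^ ((1 + κ) / 4)) (T ^ ((3 * κ - 1) / 2 + 5 * ε) / 4 ^ i)
    K M a a1 hK hKT hM1 (one hε.le) (by positivity) hF herr (fun ρ b W hρ0 hρ hb hW hlev => by
      have hρ' : ρ ≤ T ^ (κ - 1) := by
        rw [← hdiv]; exact hρ.trans (by gcongr; linarith)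
      have hl0 : 0 < T ^ ((1 + κ) / 4 - 2 * ε) := by positivity
      refine (hl K M ρ (2 ^ i * T ^ ((1 + κ) / 4 - 2 * ε)) b W hM1 hMK hKM hρ0 ?_ (by positivity)
        hb hW (fun u hu => le_trans ?_ (hlev u hu)) ?_).trans ?_
      · have h1 : T ^ (κ - 1) * T ^ ε ≤ 1 := by
          rw [ad]; exact Real.rpow_le_one_of_one_le_of_nonpos hT1' (by linarith)
        have h2 : T ^ (κ - 1) * 100000 ≤ T ^ (κ - 1) * T ^ ε := by gcongr
        linarith
      · rw [le_div_iff₀ (by positivity), mul_assoc]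
        gcongr
        calc _ ≤ T ^ ((1 + κ) / 4 - 2 * ε) * (T ^ ε * T ^ ε) := by gcongr; linarith
          _ = _ := by simp only [ad]; congr 1; ring
      · have e1 : (1 : ℝ) ≤ T ^ ((1 - κ) / 2 - 6 * ε) := one (by linarith)
        have e2 : ρ * K * M ≤ T ^ ((1 - κ) / 2 - 6 * ε) := by
          calc _ ≤ T ^ (κ - 1) * T ^ κ * T ^ m := by rw [hκ]; gcongr
            _ ≤ _ := by simp only [ad]; exact mono (by linarith)
        have e3 : √(K * M : ℝ) * (M : ℝ) ^ (-δ) ≤ T ^ ((1 - κ) / 2 - 6 * ε) := by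
          calc _ = √K * (M : ℝ) ^ (1 / 2 - δ) := by
                rw [Real.sqrt_mul (by positivity), Real.sqrt_eq_rpow (M : ℝ), mul_assoc,
                  ← Real.rpow_add (by positivity)]
                rfl
            _ ≤ √(T ^ κ) * (T ^ m) ^ (1 / 2 - δ) := by
                rw [hκ]; gcongr; linarith
            _ ≤ _ := by
                rw [Real.sqrt_eq_rpow, ← Real.rpow_mul hT0.le, ← Real.rpow_mul hT0.le, ad]
                exact mono (by linarith)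
        calc _ ≤ T ^ ε * (T ^ κ * (T ^ ε * T ^ ((1 - κ) / 2 - 6 * ε))) := by
              rw [hκ]
              refine mul_le_mul hQ1 (mul_le_mul_of_nonneg_left ?_ (by positivity)) (by positivity)
                (by positivity)
              nlinarith
          _ = (T ^ ((1 + κ) / 4 - 2 * ε)) ^ 2 := by
              simp only [pw, ad]; congr 1; push_cast; ring
          _ ≤ _ := by gcongr; exact le_mul_of_one_le_left hl0.le hi
      · have e : ((2 : ℝ) ^ i) ^ 2 = 4 ^ i := by rw [← pow_mul, mul_comm, pow_mul]; norm_num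
        rw [mul_pow, e, mul_comm ((4 : ℝ) ^ i), ← div_div]
        refine div_le_div_of_nonneg_right ?_ (by positivity)
        rw [div_le_iff₀ (by positivity)]
        calc _ ≤ T ^ ε * (T ^ κ) ^ 2 := by rw [hκ]; gcongr
          _ = _ := by simp only [pw, ad]; congr 1; push_cast; ring)
  refine key.trans ?_
  have h1 : T / (K * M) ≤ 2 * T ^ (1 - κ - m) := by
    rw [div_le_iff₀ (by positivity)]
    calc T = T ^ (1 - κ - m) * (T ^ κ * T ^ m) := by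
          simp only [ad]; rw [show 1 - κ - m + (κ + m) = 1 by ring, Real.rpow_one]
      _ ≤ T ^ (1 - κ - m) * (K * (2 * M)) := by rw [hκ]; gcongr
      _ = _ := by ring
  have h2 : √(T / K) ≤ T ^ (1 - κ - m) := by rw [hs2]; exact mono (by linarith)
  calc _ ≤ Cg * (3 * T ^ (1 - κ - m)) * (T ^ ((3 * κ - 1) / 2 + 5 * ε) / 4 ^ i) := by
        gcongr; linarith
    _ = 3 * Cg * T ^ (1 - κ - m) * T ^ ((3 * κ - 1) / 2 + 5 * ε) / 4 ^ i := by ring
    _ ≤ T ^ ε * T ^ (1 - κ - m) * T ^ ((3 * κ - 1) / 2 + 5 * ε) / 4 ^ i := by gcongr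
    _ = _ := by simp only [ad]; congr 2; ring

open LevAux in
theorem fam12 (hm : MvS) (hh : HmpS) (hx : XfamS) (hy : YfamS) {c : ℝ} (hc : 0 < c) :
    ∃ d : ℝ, 0 < d ∧ d ≤ 1 / 400 ∧ ∀ ε : ℝ, 0 < ε → ε ≤ d / 20 → ∃ T0 : ℝ,
    ∀ (T κ v : ℝ) (K i : ℕ) (a a1 : ℕ → ℝ → ℂ), T0 ≤ T → 1 ≤ K → (K : ℝ) ≤ T → T ^ κ = K →
    Fam T (T ^ ε) K a a1 → v ≤ 1 / 6 - c → κ + 4 * v ≤ 1 + 3 * ε →
    lev T (4 * T) (SS K a) (2 ^ i * (K * T) ^ (1 / 4 : ℝ)) ≤
      T ^ (2 - d - 10 * v + 28 * ε) * (1 / 4) ^ i := by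
  obtain ⟨δ, hδ, hδ1, hy⟩ := hy
  obtain ⟨d, hd, d1, d2⟩ : ∃ d : ℝ, 0 < d ∧ d ≤ δ / 100 ∧ d ≤ c / 4 :=
    ⟨min (δ / 100) (c / 4), by positivity, min_le_left _ _, min_le_right _ _⟩
  refine ⟨d, hd, by linarith, fun ε hε hε1 => ?_⟩
  obtain ⟨T1, hT1, k1⟩ := mv' hm hε
  obtain ⟨T2, -, k2⟩ := hm' hh hε
  obtain ⟨T3, k3⟩ := hx ε hε (by linarith)
  obtain ⟨T4, k4⟩ := hy ε hε (by linarith)
  refine ⟨max T1 (max T2 (max T3 T4)), fun T κ v K i a a1 hT hK hKT hκ hF hv hκv => ?_⟩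
  simp only [max_le_iff] at hT
  obtain ⟨t1, t2, t3, t4⟩ := hT
  have hT1' : 1 ≤ T := hT1.trans t1
  have hT0 : 0 < T := by linarith
  have mono : ∀ {x y : ℝ}, x ≤ y → T ^ x ≤ T ^ y := fun h =>
    Real.rpow_le_rpow_of_exponent_le hT1' h
  have ad : ∀ x y : ℝ, T ^ x * T ^ y = T ^ (x + y) := fun x y => (Real.rpow_add hT0 x y).symm
  have ad1 : ∀ x : ℝ, T ^ x * T = T ^ (x + 1) := fun x => (Real.rpow_add_one hT0.ne' x).symm
  rcases le_total (31 / 61) κ with c1 | c1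
  · refine (k1 T (T ^ ((1 + κ) / 2)) K i a a1 t1 hK hKT (by positivity) (le_of_eq ?_) hF).trans ?_
    · rw [← hκ, rpow_pow hT0.le, ad1]; congr 1; push_cast; ring
    · rw [ad]
      exact mul_le_mul_of_nonneg_right (mono (by linarith)) (by positivity)
  rcases le_total κ (1 / 3 + 2 * c) with c2 | c2
  · refine (k2 T (T ^ ((5 * κ - 1) / 2)) K i a a1 t2 hK hKT (by positivity) (le_of_eq ?_)
      hF).trans ?_
    · rw [← hκ, rpow_pow hT0.le, rpow_pow hT0.le, ad1]; congr 1; push_cast; ring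
    · rw [ad]
      exact mul_le_mul_of_nonneg_right (mono (by linarith)) (by positivity)
  rw [one_div_pow, mul_one_div]
  rcases le_total κ (99 / 200) with c3 | c3
  · refine (k4 T κ (1 - 2 * κ + d) K i a a1 t4 hK hκ hF (by linarith) (by linarith) (by linarith)
      (by linarith) (by linarith) (by linarith) (by linarith) (by linarith) ?_).trans ?_
    · nlinarith [mul_le_mul_of_nonneg_left (show 1 / 100 ≤ 1 - 2 * κ + d by linarith) hδ.le]
    · exact div_le_div_of_nonneg_right (mono (by linarith)) (by positivity)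
  refine (k3 T κ ((7 - 13 * κ) / 8 - ε) ((3 * κ - 1) / 16) ((53 * κ - 7) / 64) K i a a1 t3 hK hκ hF
    (by linarith) (by linarith) (by linarith) (by linarith) (by linarith) (by linarith)
    (by linarith) (by linarith) (by linarith) (by linarith) (by linarith) (by linarith)
    (by linarith) (by linarith) (by linarith) (by linarith) (by linarith)).trans ?_
  exact div_le_div_of_nonneg_right (mono (by linarith)) (by positivity)

open LevAux in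
theorem lev12 (hr : RedS) (hm : MvS) (hh : HmpS) (hx : XfamS) (hy : YfamS) (hs : SwS) :
    ∃ d : ℝ, 0 < d ∧ d ≤ 1 / 400 ∧ LevS 12 (2 - d) := by
  obtain ⟨c, T3, hc, -, hs⟩ := hs
  obtain ⟨d, hd, hd1, h⟩ := fam12 hm hh hx hy hc
  refine ⟨d, hd, hd1, fun ε hε => ?_⟩
  obtain ⟨η, hη, hη1, hηε⟩ : ∃ η : ℝ, 0 < η ∧ η ≤ d / 20 ∧ 30 * η ≤ ε :=
    ⟨min (d / 20) (ε / 30), by positivity, min_le_left _ _,
      by linarith [min_le_right (d / 20) (ε / 30)]⟩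
  obtain ⟨T1, hT1, k1⟩ := red' hr hη (by linarith)
  obtain ⟨T2, k2⟩ := h η hη hη1
  refine ⟨max T1 (max T2 T3), le_max_of_le_left (by linarith), fun T V N hT hN hNT hV => ?_⟩
  simp only [max_le_iff] at hT
  have hT1' : 1 < T := by linarith [hT.1]
  have hT0 : 0 < T := by linarith
  have mono : ∀ {x y : ℝ}, x ≤ y → T ^ x ≤ T ^ y := fun h =>
    Real.rpow_le_rpow_of_exponent_le hT1'.le h
  have hV0 : 0 < V := (Real.rpow_pos_of_pos hT0 ε).trans_le hV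
  obtain ⟨v, rfl⟩ : ∃ v : ℝ, V = T ^ v := ⟨Real.logb T V, (Real.rpow_logb hT0 hT1'.ne' hV0).symm⟩
  rcases le_total (1 / 6 - c) v with hv | hv
  · rw [lev_eq_zero fun τ hτ => (hs T τ N hT.2.2 hN hNT hτ).trans_le (mono hv), mul_zero]
    positivity
  have key := k1 T (T ^ v) (T ^ (2 - d - 10 * v + 28 * η)) N hT.1 hN hNT
    ((mono (by linarith)).trans hV) (by positivity) fun K i a a1 hK hKT hKV hF => by
      have hK0 : (0 : ℝ) < K := by exact_mod_cast hK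
      have hκ := Real.rpow_logb hT0 hT1'.ne' hK0
      refine (k2 T _ v K i a a1 hT.2.1 hK hKT hκ hF hv ?_).trans
        (mul_le_mul_of_nonneg_left (quarter_le i) (by positivity))
      rw [← hκ, rpow_pow hT0.le, ← Real.rpow_add hT0,
        Real.rpow_le_rpow_left_iff hT1'] at hKV
      exact_mod_cast hKV
  calc _ ≤ (T ^ v) ^ (12 : ℝ) * (T ^ η * T ^ (2 - d - 10 * v + 28 * η) / (T ^ v) ^ 2) := by gcongr
    _ ≤ _ := by
        rw [rpow_pow hT0.le, ← Real.rpow_mul hT0.le, ← Real.rpow_add hT0, ← Real.rpow_sub hT0,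
          ← Real.rpow_add hT0]
        exact mono (by push_cast; linarith)

end Pool.Agent.Lib.MP_80d0cf_nt.Up
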