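import Pool.Agent.Lib.MP_80d0cf_nt.Up.Weyl
import Pool.Agent.Lib.MP_80d0cf_nt.Up.ZetC
import Pool.Agent.Lib.MP_80d0cf_nt.Up.ZetD
import Pool.Agent.Lib.MP_80d0cf_nt.Up.XAll
import Pool.Agent.Lib.MP_80d0cf_nt.Up.YFam

-- part Pool.Agent.Lib.MP_80d0cf_nt.Up.YSubA
section

/-! Derivatives of the dual terms in the summation variable. -/

open Set MeasureTheory ComplexConjugate

namespace Pool.Agent.Lib.MP_80d0cf_nt.Up

namespace YSubAux

open ZetDAux

/-- size and logarithmic derivative -/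
def Bd (f : ℝ → ℂ) (x a b : ℝ) : Prop := ∃ d, HasDerivAt f d x ∧ ‖f x‖ ≤ a ∧ ‖d‖ * x ≤ b

lemma Bd.mul {f g : ℝ → ℂ} {x a b a' b' : ℝ} (hx : 0 ≤ x) (h : Bd f x a b) (h' : Bd g x a' b') :
    Bd (fun y => f y * g y) x (a * a') (b * a' + a * b') := by
  obtain ⟨d, h1, h2, h3⟩ := h
  obtain ⟨d', h1', h2', h3'⟩ := h'
  have ha : 0 ≤ a := (norm_nonneg _).trans h2
  have hb : 0 ≤ b := le_trans (by positivity) h3
  refine ⟨_, h1.mul h1', ?_, ?_⟩
  · rw [norm_mul]; gcongr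
  · calc _ ≤ (‖d‖ * ‖g x‖ + ‖f x‖ * ‖d'‖) * x := by
          gcongr
          exact (norm_add_le _ _).trans (by rw [norm_mul, norm_mul])
      _ = ‖d‖ * x * ‖g x‖ + ‖f x‖ * (‖d'‖ * x) := by ring
      _ ≤ _ := by gcongr

lemma Bd.comp {f : ℝ → ℂ} {x y a b : ℝ} (hy : 0 ≤ y) (h : Bd f (x * y) a b) :
    Bd (fun z => f (z * y)) x a b := by
  obtain ⟨d, h1, h2, h3⟩ := h
  refine ⟨_, h1.scomp x ((hasDerivAt_id x).mul_const y), h2, le_trans (le_of_eq ?_) h3⟩
  rw [norm_smul, one_mul, Real.norm_of_nonneg hy]; ring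

lemma Bd.real {f : ℝ → ℝ} {d x a b : ℝ} (h1 : HasDerivAt f d x) (h2 : |f x| ≤ a)
    (h3 : |d| * x ≤ b) : Bd (fun y => (f y : ℂ)) x a b :=
  ⟨_, h1.ofReal_comp, by rwa [Complex.norm_real], by rwa [Complex.norm_real]⟩

variable {k τ : ℝ}

lemma dXX (hk : 0 < k) (hτ : 0 < τ) :
    HasDerivAt (fun k => XX k τ) (-(τ / (2 * k ^ 2 * XX k τ))) k := by
  have h1 : HasDerivAt (fun k : ℝ => 1 / 4 + τ / k) (-(τ / k ^ 2)) k := by
    refine (((hasDerivAt_const k τ).fun_div (hasDerivAt_id' k) hk.ne').const_add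
      (1 / 4)).congr_deriv ?_
    ring
  refine (h1.sqrt (by positivity)).congr_deriv ?_
  have := XX_pos hk hτ
  simp only [XX] at this ⊢
  field_simp

lemma tau_eq (hk : 0 < k) (hτ : 0 < τ) : τ = k * ((XX k τ - 1 / 2) * (XX k τ + 1 / 2)) := by
  have hs := XX_sq hk hτ
  have : τ / k * k = τ := by field_simp
  nlinarith

lemma dLam (hk : 0 < k) (hτ : 0 < τ) :
    HasDerivAt (fun k => Lam k τ) (1 / (2 * k * XX k τ)) k := by
  have hX := half_lt_XX hk hτ
  have h1 := dXX hk hτ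
  have hm : XX k τ - 1 / 2 ≠ 0 := by linarith
  have hp : XX k τ + 1 / 2 ≠ 0 := by linarith
  have h := ((h1.add_const (1 / 2)).div (h1.sub_const (1 / 2)) hm).log (div_ne_zero hp hm)
  refine h.congr_deriv ?_
  have h0 : XX k τ ≠ 0 := by linarith
  have hτ' := tau_eq hk hτ
  simp only [Pi.div_apply]
  generalize XX k τ = X at *
  obtain ⟨y, rfl⟩ : ∃ y, X = y + 1 / 2 := ⟨X - 1 / 2, by ring⟩
  simp only [add_sub_cancel_right] at hm hτ' ⊢
  rw [hτ']
  generalize hz : y + 1 / 2 + 1 / 2 = z at *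
  generalize hw : y + 1 / 2 = w at *
  field_simp
  linarith

lemma dff (hk : 0 < k) (hτ : 0 < τ) : HasDerivAt (fun k => ff k τ) (XX k τ) k := by
  have h := ((dLam hk hτ).const_mul τ).add ((hasDerivAt_id k).mul (dXX hk hτ))
  refine h.congr_deriv ?_
  have h0 := (XX_pos hk hτ).ne'
  simp only [id]
  field_simp
  ring

lemma bdE (G : ℝ) (hk : 0 < k) (hτ : 0 < τ) : Bd (fun k => (EE G k τ : ℂ)) k 1 1 := by
  have h := (((dLam hk hτ).fun_pow 2).const_mul (Real.pi * G ^ 2)).neg.exp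
  have hX := XX_pos hk hτ
  have h1 := inv_XX_le_Lam hk hτ
  have hL : 0 < Lam k τ := lt_of_lt_of_le (by positivity) h1
  have hE := EE_pos G k τ
  have h2 : EE G k τ * (Real.pi * G ^ 2 * Lam k τ ^ 2) ≤ 1 := by
    rw [EE, Real.exp_neg, inv_mul_le_iff₀ (Real.exp_pos _), mul_one]
    linarith [Real.add_one_le_exp (Real.pi * G ^ 2 * Lam k τ ^ 2)]
  refine Bd.real (f := fun k => EE G k τ)
    (d := -(EE G k τ * (Real.pi * G ^ 2 * Lam k τ * (1 / XX k τ)) / k)) (h.congr_deriv ?_)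
    (by rw [abs_of_pos hE]; exact EE_le_one _ _ _) ?_
  · simp only [EE, Pi.neg_apply]
    norm_num
    field_simp
  · rw [abs_neg, abs_of_nonneg (by positivity), div_mul_cancel₀ _ hk.ne']
    refine le_trans ?_ h2
    rw [sq (Lam k τ), ← mul_assoc _ (Lam k τ)]
    gcongr

lemma bdR (hk : 0 < k) (hτ : 0 < τ) {r : ℝ} (hr : rr k τ ≤ r) :
    Bd (fun k => (rr k τ : ℂ)) k r r := by
  have hX := XX_pos hk hτ
  have h0 : 0 < 2 * k * XX k τ := by positivity
  have h := ((((hasDerivAt_id k).const_mul 2).mul (dXX hk hτ)).sqrt h0.ne').inv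
    (Real.sqrt_pos.2 h0).ne'
  have hr0 := rr_pos hk hτ
  have h3 := le_mul_XX_sq hk hτ
  have h4 : τ / (2 * k * XX k τ ^ 2) ≤ 1 / 2 := by
    rw [div_le_iff₀ (by positivity)]; linarith
  have h5 : 0 ≤ τ / (2 * k * XX k τ ^ 2) := by positivity
  refine Bd.real (f := fun k => rr k τ)
    (d := -(rr k τ * (1 - τ / (2 * k * XX k τ ^ 2)) / (2 * k))) (h.congr_deriv ?_)
    (by rwa [abs_of_pos hr0]) ?_
  · have h1 := Real.sq_sqrt h0.le
    have h2 := (Real.sqrt_pos.2 h0).ne'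
    simp only [Pi.mul_apply, id]
    rw [h1, rr]
    field_simp
    ring
  · have h6 : 0 ≤ 1 - τ / (2 * k * XX k τ ^ 2) := by linarith
    rw [abs_neg, abs_of_nonneg (by positivity)]
    calc _ = rr k τ * ((1 - τ / (2 * k * XX k τ ^ 2)) / 2) := by field_simp
      _ ≤ r * 1 := by
          gcongr
          · exact hr0.le.trans hr
          · linarith
      _ = r := mul_one r

lemma bdP (hk : 0 < k) (hτ : 0 < τ) {Q : ℝ} (hQ : k * √(k / τ) ≤ Q) :
    Bd (fun k => e (ff k τ - 2 * √(τ * k))) k 1 Q := by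
  have hX := XX_pos hk hτ
  have hs : 0 < √(τ / k) := Real.sqrt_pos.2 (by positivity)
  have hs2 : √(τ / k) ^ 2 = τ / k := Real.sq_sqrt (by positivity)
  have h1 : HasDerivAt (fun k => 2 * √(τ * k)) (√(τ / k)) k := by
    refine ((((hasDerivAt_id k).const_mul τ).sqrt (by simp only [id]; positivity)).const_mul
      2).congr_deriv ?_
    have e1 : √(τ * k) = k * √(τ / k) := by
      rw [show τ * k = k ^ 2 * (τ / k) by field_simp, Real.sqrt_mul (by positivity),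
        Real.sqrt_sq hk.le]
    simp only [id]
    rw [e1]
    have e2 : τ = k * √(τ / k) ^ 2 := by rw [hs2]; field_simp
    generalize √(τ / k) = s at *
    rw [e2]
    field_simp
  refine ⟨_, hasDerivAt_e_comp ((dff hk hτ).sub h1), (norm_e _).le, le_trans ?_ hQ⟩
  have hX2 := XX_sq hk hτ
  have h2 : √(τ / k) ≤ XX k τ := by
    rw [XX]; exact Real.sqrt_le_sqrt (by linarith)
  have h3 : (XX k τ - √(τ / k)) * √(τ / k) ≤ 1 / 8 := by nlinarith
  have h4 : √(k / τ) = (√(τ / k))⁻¹ := by rw [← Real.sqrt_inv, inv_div]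
  have h5 : XX k τ - √(τ / k) ≤ 1 / 8 * √(k / τ) := by
    rw [h4, ← div_eq_mul_inv, le_div_iff₀ hs]; exact h3
  simp only [norm_mul, norm_e, Complex.norm_I, Complex.norm_real, Complex.norm_ofNat, mul_one]
  rw [Real.norm_of_nonneg Real.pi_pos.le, Real.norm_of_nonneg (by linarith)]
  have h6 : 0 ≤ √(k / τ) := Real.sqrt_nonneg _
  calc _ ≤ 2 * 4 * (1 / 8 * √(k / τ)) * k := by
        gcongr
        exact Real.pi_le_four
    _ = _ := by ring

/-- the product of the two weights -/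
noncomputable def WW (N τ h k : ℝ) : ℝ :=
  ws (h * (XX k τ - 1 / 2) / N) * ws (h * (XX k τ + 1 / 2) / N)

lemma abs_WW_le (N τ h k : ℝ) : |WW N τ h k| ≤ 6561 := by
  rw [WW, abs_mul]
  exact (mul_le_mul (abs_ws_le _) (abs_ws_le _) (abs_nonneg _) (by norm_num)).trans (by norm_num)

lemma bdW {N p q x y : ℝ} (hN : 0 < N) (hτ : 0 < τ) (hp : 0 ≤ p) (hq : 0 ≤ q) (hx : 0 < x)
    (hy : 0 < y) (hh : 0 < p + q * x) :
    Bd (fun z => (WW N τ (p + q * z) (z * y) : ℂ)) x 6561 787320 := by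
  have hk : 0 < x * y := by positivity
  have hX := half_lt_XX hk hτ
  have hm : 0 < XX (x * y) τ - 1 / 2 := by linarith
  have hX0 := XX_pos hk hτ
  have d1 : HasDerivAt (fun z => XX (z * y) τ) (-(τ / (2 * (x * y) ^ 2 * XX (x * y) τ)) * y) x := by
    have := (dXX hk hτ).comp x ((hasDerivAt_id x).mul_const y)
    rw [one_mul] at this
    exact this
  have d2 : HasDerivAt (fun z => p + q * z) q x := by
    simpa using ((hasDerivAt_id x).const_mul q).const_add p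
  have h1 := (hasDerivAt_ws (x := (p + q * x) * (XX (x * y) τ - 1 / 2) / N) (by positivity)).comp x
    ((d2.mul (d1.sub_const (1 / 2))).div_const N)
  have h2 := (hasDerivAt_ws (x := (p + q * x) * (XX (x * y) τ + 1 / 2) / N) (by positivity)).comp x
    ((d2.mul (d1.add_const (1 / 2))).div_const N)
  refine Bd.real (f := fun z => WW N τ (p + q * z) (z * y)) (h1.mul h2) (abs_WW_le _ _ _ _) ?_
  simp only [Function.comp, Pi.mul_apply]
  by_cases h3 : 2 ≤ (p + q * x) * (XX (x * y) τ + 1 / 2) / N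
  · rw [ws_eq_zero (Or.inr h3), ws1_eq_zero (Or.inr h3)]
    norm_num
  rw [not_le, div_lt_iff₀ hN] at h3
  have h4 := le_mul_XX_sq hk hτ
  have h5 : τ / (2 * (x * y) ^ 2 * XX (x * y) τ) * y * x ≤ XX (x * y) τ / 2 := by
    rw [mul_assoc, div_mul_eq_mul_div, div_le_div_iff₀ (by positivity) two_pos, mul_comm y x]
    generalize x * y = k at *
    nlinarith [mul_le_mul_of_nonneg_left h4 hk.le]
  have h6 : 0 ≤ τ / (2 * (x * y) ^ 2 * XX (x * y) τ) * y := by positivity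
  rw [neg_mul]
  generalize τ / (2 * (x * y) ^ 2 * XX (x * y) τ) * y = D at *
  generalize XX (x * y) τ = X at *
  have h7 : ∀ s : ℝ, 0 ≤ s → s ≤ X + 1 / 2 → |(q * s + (p + q * x) * -D) / N| * x ≤ 3 := by
    intro s s0 s1
    have e1 : q * s * x ≤ 2 * N := by nlinarith [mul_nonneg hq hx.le, mul_nonneg hp s0]
    have e2 : (p + q * x) * D * x ≤ N := by
      nlinarith [mul_le_mul_of_nonneg_left h5 hh.le]
    rw [abs_div, abs_of_pos hN, div_mul_eq_mul_div, div_le_iff₀ hN]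
    calc _ ≤ (q * s + (p + q * x) * D) * x := by
          gcongr
          refine (abs_add_le _ _).trans (le_of_eq ?_)
          rw [mul_neg, abs_neg, abs_of_nonneg (by positivity), abs_of_nonneg (by positivity)]
      _ ≤ _ := by linarith
  have a1 := h7 (X - 1 / 2) hm.le (by linarith)
  have a2 := h7 (X + 1 / 2) (by linarith) le_rfl
  generalize (q * (X - 1 / 2) + (p + q * x) * -D) / N = u at a1
  generalize (q * (X + 1 / 2) + (p + q * x) * -D) / N = v at a2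
  calc _ ≤ (1620 * |u| * 81 + 81 * (1620 * |v|)) * x := by
        gcongr
        refine (abs_add_le _ _).trans ?_
        simp only [abs_mul]
        gcongr
        exacts [abs_ws1_le _, abs_ws_le _, abs_ws_le _, abs_ws1_le _]
    _ = 131220 * (|u| * x + |v| * x) := by ring
    _ ≤ _ := by linarith

lemma WW_supp {N h : ℝ} (hN : 0 < N) (hτ : 0 < τ) (h0 : WW N τ h k ≠ 0) :
    0 < h ∧ 0 < k ∧ N ^ 2 * k < 4 * (h ^ 2 * τ) ∧ h ^ 2 * τ < 4 * (N ^ 2 * k) := by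
  obtain ⟨h1, h2⟩ := mul_ne_zero_iff.1 h0
  have a1 := not_or.1 fun hh => h1 (ws_eq_zero hh)
  have a2 := not_or.1 fun hh => h2 (ws_eq_zero hh)
  simp only [not_le] at a1 a2
  obtain ⟨a1, a3⟩ := a1
  obtain ⟨a2, a4⟩ := a2
  rw [lt_div_iff₀ hN] at a1 a2
  rw [div_lt_iff₀ hN] at a3 a4
  have hX : 0 ≤ XX k τ := Real.sqrt_nonneg _
  have hh : 0 < h := by
    by_contra hc
    nlinarith
  have hk : 0 < k := by
    by_contra hc
    have b1 : τ / k ≤ 0 := div_nonpos_of_nonneg_of_nonpos hτ.le (not_lt.1 hc)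
    have b2 : XX k τ ≤ 1 / 2 := Real.sqrt_le_iff.2 ⟨by norm_num, by linarith⟩
    nlinarith
  have e : h ^ 2 * τ = k * (h * (XX k τ - 1 / 2) * (h * (XX k τ + 1 / 2))) := by
    nth_rewrite 1 [tau_eq hk hτ]; ring
  have b1 := mul_lt_mul'' a1 a2 (by positivity) (by positivity)
  have b2 := mul_lt_mul'' a3 a4 (by linarith) (by linarith)
  rw [e]
  exact ⟨hh, hk, by nlinarith, by nlinarith⟩

/-- the amplitude -/
noncomputable def AA (N G τ h k : ℝ) : ℂ :=
  (WW N τ h k : ℂ) * ((EE G k τ : ℂ) * (rr k τ : ℂ) * e (ff k τ - 2 * √(τ * k)))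

lemma tm_eq (N G τ : ℝ) (h k : ℕ) :
    ZetCAux.tm N G τ h k = cF * (AA N G τ h k * e (2 * √(τ * k) + -(k / 2))) := by
  have e1 : e (ff k τ) = e (ff k τ - 2 * √(τ * k)) * e (2 * √(τ * k)) := by
    rw [← e_add, sub_add_cancel]
  rw [ZetCAux.tm, AA, WW, EE, rr, e_add, e_half_nat, e1, div_eq_mul_inv]
  push_cast
  ring

lemma bdA {N G p q x y r Q : ℝ} (hN : 0 < N) (hτ : 0 < τ) (hp : 0 ≤ p) (hq : 0 ≤ q) (hx : 0 < x)
    (hy : 0 < y) (hh : 0 < p + q * x) (hr : rr (x * y) τ ≤ r)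
    (hQ : x * y * √(x * y / τ) ≤ Q) :
    Bd (fun z => AA N G τ (p + q * z) (z * y)) x (6561 * (1 * r * 1))
      (787320 * (1 * r * 1) + 6561 * ((1 * r + 1 * r) * 1 + 1 * r * Q)) := by
  have hk : 0 < x * y := by positivity
  exact (bdW hN hτ hp hq hx hy hh).mul hx.le
    ((((bdE G hk hτ).mul hk.le (bdR hk hτ hr)).mul hk.le (bdP hk hτ hQ)).comp hy.le)

lemma norm_tm_le (hc : CFS) (N G : ℝ) (h : ℕ) {k : ℕ} (hk : 0 < k) (hτ : 0 < τ) :
    ‖ZetCAux.tm N G τ h k‖ ≤ 65610 * (EE G k τ * rr k τ) := by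
  have hr := rr_pos (show (0 : ℝ) < k by exact_mod_cast hk) hτ
  have hE := EE_pos G k τ
  simp only [tm_eq, AA, norm_mul, norm_e, mul_one, Complex.norm_real, Real.norm_eq_abs,
    abs_of_pos hr, abs_of_pos hE]
  calc _ ≤ 10 * (6561 * (EE G k τ * rr k τ)) := by
        gcongr
        exacts [hc.1, abs_WW_le _ _ _ _]
    _ = _ := by ring

/-- coefficients of the derivatives of the square root -/
noncomputable def cj : ℕ → ℝ
  | 0 => 1
  | j + 1 => cj j * (1 / 2 - j)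

/-- derivatives of the linear part -/
noncomputable def lj (y : ℝ) : ℕ → ℝ → ℝ
  | 0 => fun x => -(x * y / 2)
  | 1 => fun _ => -(y / 2)
  | _ + 2 => fun _ => 0

/-- derivatives of the phase -/
noncomputable def gj (a y : ℝ) (j : ℕ) (x : ℝ) : ℝ := 2 * cj j * √(a * x) / x ^ j + lj y j x

lemma der_lj (y : ℝ) (j : ℕ) (x : ℝ) : HasDerivAt (lj y j) (lj y (j + 1) x) x := by
  match j with
  | 0 => exact ((((hasDerivAt_id x).mul_const y).div_const 2).neg).congr_deriv (by simp [lj])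
  | 1 => exact hasDerivAt_const x _
  | _ + 2 => exact hasDerivAt_const x _

lemma der_gj {a x : ℝ} (ha : 0 < a) (hx : 0 < x) (y : ℝ) (j : ℕ) :
    HasDerivAt (gj a y j) (gj a y (j + 1) x) x := by
  have h0 : 0 < a * x := by positivity
  have h1 := (((hasDerivAt_id x).const_mul a).sqrt h0.ne').const_mul (2 * cj j)
  refine ((h1.fun_div (hasDerivAt_pow j x) (pow_ne_zero j hx.ne')).add (der_lj y j x)).congr_deriv ?_
  rw [gj, cj]
  congr 1
  have hs := Real.sqrt_pos.2 h0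
  have e2 : a = √(a * x) ^ 2 / x := by rw [Real.sq_sqrt h0.le]; field_simp
  simp only [id]
  generalize √(a * x) = s at *
  rw [e2]
  rcases j with _ | j
  · simp; field_simp
  · simp only [Nat.add_sub_cancel]
    push_cast
    field_simp
    ring

lemma gj_bd {a L : ℝ} (ha : 0 < a) (hL : 0 < L) (y : ℝ) {j : ℕ} (h2 : 2 ≤ j) (h5 : j ≤ 5) :
    ∃ σ : ℝ, (σ = 1 ∨ σ = -1) ∧ ∀ x ∈ Icc (L / 4) (4 * L),
      √(a * L) / (4 * L) ^ j ≤ 10 ^ 8 * (σ * gj a y j x) ∧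
      σ * gj a y j x ≤ 10 ^ 8 * (√(a * L) / (4 * L) ^ j) := by
  obtain ⟨σ, hσ, c1, c2⟩ : ∃ σ : ℝ, (σ = 1 ∨ σ = -1) ∧ 1 / 4 ≤ σ * cj j ∧ σ * cj j ≤ 4 := by
    interval_cases j
    · exact ⟨-1, Or.inr rfl, by norm_num [cj], by norm_num [cj]⟩
    · exact ⟨1, Or.inl rfl, by norm_num [cj], by norm_num [cj]⟩
    · exact ⟨-1, Or.inr rfl, by norm_num [cj], by norm_num [cj]⟩
    · exact ⟨1, Or.inl rfl, by norm_num [cj], by norm_num [cj]⟩
  refine ⟨σ, hσ, fun x hx => ?_⟩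
  have hx0 : 0 < x := by linarith [hx.1]
  have e : σ * gj a y j x = σ * cj j * (2 * √(a * x)) / x ^ j := by
    obtain ⟨i, rfl⟩ := Nat.exists_eq_add_of_le' h2
    rw [gj, lj]; ring
  have s1 : √(a * L) ≤ 2 * √(a * x) := by
    rw [Real.sqrt_le_iff, mul_pow, Real.sq_sqrt (by positivity)]
    exact ⟨by positivity, by nlinarith [hx.1]⟩
  have s2 : √(a * x) ≤ 2 * √(a * L) := by
    rw [Real.sqrt_le_iff, mul_pow, Real.sq_sqrt (by positivity)]
    exact ⟨by positivity, by nlinarith [hx.2]⟩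
  have hs : 0 < √(a * L) := Real.sqrt_pos.2 (by positivity)
  rw [e]
  constructor
  · calc _ = 4 * (1 / 4 * √(a * L) / (4 * L) ^ j) := by ring
      _ ≤ _ := by
          gcongr
          · norm_num
          · exact hx.2
  · have p1 : (16 : ℝ) ^ j ≤ 16 ^ 5 := pow_le_pow_right₀ (by norm_num) h5
    calc _ ≤ 4 * (2 * (2 * √(a * L))) / (L / 4) ^ j := by gcongr; exact hx.1
      _ = 16 * 16 ^ j * (√(a * L) / (4 * L) ^ j) := by
          rw [show 4 * L = 16 * (L / 4) by ring, mul_pow]; field_simp; norm_num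
      _ ≤ _ := by gcongr; linarith

end YSubAux

end Pool.Agent.Lib.MP_80d0cf_nt.Up
end

-- part Pool.Agent.Lib.MP_80d0cf_nt.Up.YSubB
section

/-! A pointwise bound below the exponent one sixth. -/

open Set MeasureTheory ComplexConjugate

namespace Pool.Agent.Lib.MP_80d0cf_nt.Up

namespace YSubAux

open ZetDAux

/-- the inner sum -/
noncomputable def UU (N G τ : ℝ) (p q y k0 : ℕ) : ℂ :=
  ∑ x ∈ Finset.Icc 1 k0, if x * y ≤ k0 then ZetCAux.tm N G τ (p + q * x) (x * y) else 0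

/-- support condition -/
def Sup (N τ L p q y : ℝ) : Prop := ∀ x : ℝ, WW N τ (p + q * x) (x * y) ≠ 0 → L / 4 < x ∧ x < 4 * L

lemma triv (hc : CFS) {N G τ L b M : ℝ} {p q y k0 : ℕ} (hτ : 0 < τ) (hy : 1 ≤ y) (hb : 0 ≤ b)
    (hs : Sup N τ L p q y) (hM : (k0 : ℝ) ≤ M ∨ (0 ≤ L ∧ 4 * L ≤ M))
    (h : ∀ k : ℝ, 1 ≤ k → k ≤ k0 → L * y / 4 ≤ k → EE G k τ * rr k τ ≤ b) :
    ‖UU N G τ p q y k0‖ ≤ 65610 * b * M := by
  have h1 : ‖UU N G τ p q y k0‖ ≤
      ∑ x ∈ (Finset.Icc 1 k0).filter (fun x : ℕ => (x : ℝ) < 4 * L), 65610 * b := by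
    rw [Finset.sum_filter]
    refine (norm_sum_le _ _).trans (Finset.sum_le_sum fun x hx => ?_)
    have hx1 := (Finset.mem_Icc.1 hx).1
    have hk : 0 < x * y := Nat.mul_pos hx1 hy
    by_cases h0 : WW N τ (p + q * x) (x * y) = 0
    · have : ZetCAux.tm N G τ (p + q * x) (x * y) = 0 := by
        rw [tm_eq, AA]; push_cast; rw [h0]; simp
      rw [this, ite_self, norm_zero]
      split_ifs <;> positivity
    obtain ⟨h2, h3⟩ := hs x h0
    rw [if_pos h3]
    split_ifs with h4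
    · refine (norm_tm_le hc N G _ hk hτ).trans (mul_le_mul_of_nonneg_left
        (h _ (by exact_mod_cast hk) (by exact_mod_cast h4) ?_) (by norm_num))
      push_cast
      nlinarith [mul_le_mul_of_nonneg_right h2.le (Nat.cast_nonneg (α := ℝ) y)]
    · rw [norm_zero]; positivity
  refine h1.trans ?_
  rw [Finset.sum_const, nsmul_eq_mul, mul_comm]
  refine mul_le_mul_of_nonneg_left ?_ (by positivity)
  rcases hM with hM | ⟨hL, hM⟩
  · refine le_trans ?_ hM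
    have := Finset.card_filter_le (Finset.Icc 1 k0) (fun x : ℕ => (x : ℝ) < 4 * L)
    rw [Nat.card_Icc, Nat.add_sub_cancel] at this
    exact_mod_cast this
  · have h2 : (Finset.Icc 1 k0).filter (fun x : ℕ => (x : ℝ) < 4 * L) ⊆
        Finset.Icc 1 ⌊4 * L⌋₊ := fun x hx => by
      rw [Finset.mem_filter, Finset.mem_Icc] at hx
      exact Finset.mem_Icc.2 ⟨hx.1.1, Nat.le_floor hx.2.le⟩
    have h3 := Finset.card_le_card h2
    rw [Nat.card_Icc, Nat.add_sub_cancel] at h3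
    exact (Nat.cast_le.2 h3).trans ((Nat.floor_le (by positivity)).trans hM)

lemma mid (hw : WeylUS) (hc : CFS) : ∃ C δ : ℝ, 0 < C ∧ 0 < δ ∧ δ ≤ 1 / 4 ∧
    ∀ (N G τ T L Q r : ℝ) (p q y k0 : ℕ), 0 < N → 4 ≤ T → τ ∈ Icc T (4 * T) → 1 ≤ y → y ≤ L →
    1 ≤ p + q → Sup N τ L p q y → T ≤ (L * y) ^ 3 → 4 * (L * y) ≤ k0 → 1 ≤ Q →
    (∀ k, 0 ≤ k → k ≤ 4 * (L * y) → k * √(k / τ) ≤ Q) → 0 < r →
    (∀ k, L * y / 4 ≤ k → rr k τ ≤ r) →
    ‖UU N G τ p q y k0‖ ≤ C * Q * r * (4 * L) ^ (1 - δ) := by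
  obtain ⟨C, δ, hC, hδ, hδ1, hW⟩ := hw 3 (10 ^ 8) (by norm_num)
  refine ⟨65610 * C, δ, by positivity, hδ, hδ1, ?_⟩
  intro N G τ T L Q r p q y k0 hN hT hτ hy hyL hpq hs hK1 hK2 hQ1 hQ hr0 hr
  have hy1 : (1 : ℝ) ≤ y := by exact_mod_cast hy
  have hL : 1 ≤ L := hy1.trans hyL
  have hτ0 : 0 < τ := by linarith [hτ.1]
  have hS : 0 < 6561 * r * Q := by positivity
  have hA : ∀ x ∈ Icc (L / 4) (4 * L), ∃ d, HasDerivAt
      (fun z => AA N G τ (p + q * z) (z * y) / ((6561 * r * Q : ℝ) : ℂ)) d x ∧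
      ‖AA N G τ (p + q * x) (x * y) / ((6561 * r * Q : ℝ) : ℂ)‖ ≤ 1 ∧ ‖d‖ ≤ 10 ^ 8 / (4 * L) := by
    intro x hx
    have hx0 : 0 < x := by linarith [hx.1]
    have hh : (0 : ℝ) < p + q * x := by
      rcases Nat.eq_zero_or_pos p with h0 | h0
      · have : 0 < q := by omega
        positivity
      · positivity
    obtain ⟨d, h1, h2, h3⟩ := bdA (G := G) hN hτ0 (Nat.cast_nonneg p) (Nat.cast_nonneg q) hx0
      (by linarith : (0 : ℝ) < y) hh (hr _ (by nlinarith [hx.1]))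
      (hQ _ (by positivity) (by nlinarith [hx.2]))
    have hrQ : r ≤ r * Q := le_mul_of_one_le_right hr0.le hQ1
    refine ⟨_, h1.div_const _, ?_, ?_⟩
    · rw [norm_div, Complex.norm_real, Real.norm_of_nonneg hS.le, div_le_one hS]
      linarith
    · rw [norm_div, Complex.norm_real, Real.norm_of_nonneg hS.le,
        div_le_div_iff₀ hS (by positivity)]
      have h4 : ‖d‖ * (4 * L) ≤ ‖d‖ * (16 * x) :=
        mul_le_mul_of_nonneg_left (by linarith [hx.1]) (norm_nonneg _)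
      linarith
  choose! ω1 hω1 using hA
  have key := hW (L / 4) (4 * L) (4 * L) (√(τ * y * L))
    (fun z => AA N G τ (p + q * z) (z * y) / ((6561 * r * Q : ℝ) : ℂ)) ω1 (gj (τ * y) y)
    (Finset.Icc (1 : ℤ) k0) (by linarith) (by linarith)
    ⟨fun x hx => (hω1 x hx).1, fun x hx => (hω1 x hx).2.1, fun x hx => (hω1 x hx).2.2⟩
    (fun x hx => by
      have : WW N τ (p + q * x) (x * y) = 0 := by
        by_contra h0
        have := hs x h0
        rcases hx with hx | hx <;> linarith [this.1, this.2]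
      simp [AA, this])
    (fun j x hx => der_gj (by positivity) (by linarith [hx.1]) _ j)
    (fun j h2 h5 => gj_bd (by positivity) (by linarith) _ h2 h5)
    (Real.sqrt_le_sqrt (by
      have : 4 * 1 ≤ τ * y := mul_le_mul (hT.trans hτ.1) hy1 zero_le_one hτ0.le
      nlinarith))
    (by
      refine le_trans ?_ (le_mul_of_one_le_right (by positivity) (Real.one_le_sqrt.2 (by linarith)))
      rw [Real.sqrt_le_iff]
      refine ⟨by positivity, ?_⟩
      calc τ * y * L = τ * (L * y) := by ring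
        _ ≤ 4 * (L * y) ^ 3 * (L * y) := by gcongr; linarith [hτ.2]
        _ = 4 * (L * y) ^ 4 := by ring
        _ ≤ 4 * (L * L) ^ 4 := by gcongr
        _ ≤ 4 ^ 8 * (L * L) ^ 4 := by gcongr; norm_num
        _ = _ := by ring)
    (fun n h1 h2 => by
      rw [Finset.mem_Icc]
      have a1 : (0 : ℝ) < n := by linarith
      have a2 : (n : ℝ) < k0 := by nlinarith
      have a3 : (0 : ℤ) < n := by exact_mod_cast a1
      have a4 : n < (k0 : ℤ) := by exact_mod_cast a2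
      omega)
  have e1 : UU N G τ p q y k0 = cF * ((6561 * r * Q : ℝ) : ℂ) * ∑ n ∈ Finset.Icc (1 : ℤ) k0,
      AA N G τ (p + q * n) (n * y) / ((6561 * r * Q : ℝ) : ℂ) * e (gj (τ * y) y 0 n) := by
    have h := sum_Icc_natCast (fun n : ℤ =>
      AA N G τ (p + q * n) (n * y) / ((6561 * r * Q : ℝ) : ℂ) * e (gj (τ * y) y 0 n)) 1 k0
    simp only [Int.cast_natCast, Nat.cast_one] at h
    rw [← h, UU, Finset.mul_sum]
    refine Finset.sum_congr rfl fun x _ => ?_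
    have hS' : ((6561 * r * Q : ℝ) : ℂ) ≠ 0 := by exact_mod_cast hS.ne'
    split_ifs with h4
    · have e2 : gj (τ * y) y 0 x = 2 * √(τ * (x * y : ℕ)) + -((x * y : ℕ) / 2) := by
        simp only [gj, cj, lj, Nat.cast_mul]
        rw [mul_assoc τ, mul_comm (y : ℝ)]
        ring
      rw [tm_eq, e2, Nat.cast_add, Nat.cast_mul, Nat.cast_mul]
      field_simp
    · have : WW N τ (p + q * x) (x * y) = 0 := by
        by_contra h0
        have a1 := (hs x h0).2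
        have a2 : (k0 : ℝ) < x * y := by exact_mod_cast not_le.1 h4
        nlinarith
      simp [AA, this]
  rw [e1, norm_mul, norm_mul, Complex.norm_real, Real.norm_of_nonneg hS.le]
  calc _ ≤ 10 * (6561 * r * Q) * (C * (4 * L) ^ (1 - δ)) := by gcongr; exact hc.1
    _ = _ := by ring

lemma root_le {K T P : ℝ} (hK : 0 < K) (hT : 0 < T) (hP : 0 < P) (h : K ^ 3 ≤ P ^ 4 * T) :
    K * ((K / 4 * T) ^ (1 / 4 : ℝ))⁻¹ ≤ 2 * P := by
  have h1 : 0 < (K / 4 * T) ^ (1 / 4 : ℝ) := by positivity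
  have h2 : ((K / 4 * T) ^ (1 / 4 : ℝ)) ^ 4 = K / 4 * T := by
    rw [← Real.rpow_natCast, ← Real.rpow_mul (by positivity)]; norm_num
  rw [← div_eq_mul_inv, div_le_iff₀ h1]
  refine le_of_pow_le_pow_left₀ (n := 4) (by norm_num) (by positivity) ?_
  rw [mul_pow, h2]
  nlinarith [mul_le_mul_of_nonneg_left h hK.le, mul_pos (mul_pos (pow_pos hP 4) hK) hT]

lemma rr_le' {K T τ k : ℝ} (hK : 0 < K) (hT : 0 < T) (hτ : T ≤ τ) (hk : K / 4 ≤ k) :
    rr k τ ≤ ((K / 4 * T) ^ (1 / 4 : ℝ))⁻¹ :=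
  (rr_le (by linarith) hT hτ).trans (by gcongr)

lemma all (hw : WeylUS) (hc : CFS) : ∃ C c T0 : ℝ, 0 < C ∧ 0 < c ∧ c ≤ 1 / 100 ∧ 4 ≤ T0 ∧
    ∀ (N τ T L : ℝ) (p q y k0 : ℕ), 0 < N → T0 ≤ T → τ ∈ Icc T (4 * T) → 1 ≤ y → y ≤ k0 →
    y ≤ L → 1 ≤ p + q → Sup N τ L p q y → 9 * T ≤ k0 → k0 ≤ 10 * T →
    ‖UU N (T ^ (1 / 3 - 3 * c)) τ p q y k0‖ ≤ C * (1 / y) := by
  obtain ⟨C, δ, hC, hδ, hδ1, h⟩ := mid hw hc
  obtain ⟨c, rfl⟩ : ∃ c, δ = 200 * c := ⟨δ / 200, by ring⟩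
  have hc0 : 0 < c := by linarith
  obtain ⟨T1, -, hT1⟩ := exists_log_pow_le 24 1 (show 0 < 2 * c by positivity)
  refine ⟨64 * C + 6561000, c, max 4 T1, by positivity, hc0, by linarith, le_max_left _ _, ?_⟩
  intro N τ T L p q y k0 hN hT hτ hy hyk hyL hpq hs hk1 hk2
  have hT4 : 4 ≤ T := (le_max_left _ _).trans hT
  have hT0 : 0 < T := by linarith
  have hτ0 : 0 < τ := by linarith [hτ.1]
  have hy1 : (1 : ℝ) ≤ y := by exact_mod_cast hy
  have hL : 1 ≤ L := hy1.trans hyL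
  have hK : 0 < L * y := by positivity
  have mono : ∀ {x y : ℝ}, x ≤ y → T ^ x ≤ T ^ y := fun h =>
    Real.rpow_le_rpow_of_exponent_le (by linarith) h
  have pw : ∀ (x : ℝ) (n : ℕ), (T ^ x) ^ n = T ^ (x * n) := fun x n =>
    (Real.rpow_mul_natCast hT0.le x n).symm
  have ad : ∀ x y : ℝ, T ^ x * T ^ y = T ^ (x + y) := fun x y => (Real.rpow_add hT0 x y).symm
  have ad1 : ∀ x : ℝ, T ^ x * T = T ^ (x + 1) := fun x => (Real.rpow_add_one hT0.ne' x).symm
  have hr0 : 0 < ((L * y / 4 * T) ^ (1 / 4 : ℝ))⁻¹ := by positivity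
  rw [mul_one_div, le_div_iff₀ (by positivity)]
  rcases le_total ((L * y) ^ 3) T with h1 | h1
  · have a1 := triv (G := T ^ (1 / 3 - 3 * c)) (k0 := k0) hc hτ0 hy hr0.le hs
      (Or.inr ⟨by linarith, le_rfl⟩) fun k k1 _ hk =>
        (mul_le_of_le_one_left (rr_pos (by linarith) hτ0).le (EE_le_one _ _ _)).trans
          (rr_le' hK hT0 hτ.1 hk)
    have a2 := root_le hK hT0 one_pos (by rwa [one_pow, one_mul])
    calc _ ≤ 65610 * ((L * y / 4 * T) ^ (1 / 4 : ℝ))⁻¹ * (4 * L) * y := by gcongr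
      _ = 262440 * (L * y * ((L * y / 4 * T) ^ (1 / 4 : ℝ))⁻¹) := by ring
      _ ≤ _ := by linarith
  rcases le_total ((L * y) ^ 3) ((T ^ (6 * c)) ^ 4 * T) with h2 | h2
  · have hP : 1 ≤ T ^ (6 * c) := Real.one_le_rpow (by linarith) (by positivity)
    have hP2 : 1 ≤ (T ^ (6 * c)) ^ 2 := one_le_pow₀ hP
    have hKT : L * y ≤ T := by
      refine le_of_pow_le_pow_left₀ (n := 3) (by norm_num) hT0.le (h2.trans ?_)
      rw [pw, ad1, ← Real.rpow_natCast]
      exact mono (by push_cast; linarith)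
    have a1 := h N (T ^ (1 / 3 - 3 * c)) τ T L (8 * (T ^ (6 * c)) ^ 2) _ p q y k0 hN hT4 hτ hy
      hyL hpq hs h1 (by linarith) (by linarith) (fun k k0 hk => by
        refine le_of_pow_le_pow_left₀ (n := 2) (by norm_num) (by positivity) ?_
        rw [mul_pow, Real.sq_sqrt (by positivity)]
        calc k ^ 2 * (k / τ) = k ^ 3 / τ := by ring
          _ ≤ (4 * (L * y)) ^ 3 / T := by gcongr; exact hτ.1
          _ ≤ _ := by rw [div_le_iff₀ hT0]; linarith) hr0 fun k hk => rr_le' hK hT0 hτ.1 hk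
    have a2 := root_le hK hT0 (by positivity) h2
    have a3 : T ^ (1 / 6 : ℝ) ≤ 4 * L := by
      refine le_of_pow_le_pow_left₀ (n := 6) (by norm_num) (by positivity) ?_
      calc _ = T := by rw [pw]; norm_num
        _ ≤ (L * L) ^ 3 := h1.trans (by gcongr)
        _ = L ^ 6 := by ring
        _ ≤ _ := by gcongr; linarith
    have a4 : (4 * L) ^ (1 - 200 * c) ≤ 4 * L * T ^ (-(18 * c)) := by
      rw [sub_eq_add_neg, Real.rpow_add (by positivity), Real.rpow_one]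
      gcongr
      calc _ ≤ (T ^ (1 / 6 : ℝ)) ^ (-(200 * c)) :=
            Real.rpow_le_rpow_of_nonpos (by positivity) a3 (by linarith)
        _ ≤ _ := by rw [← Real.rpow_mul hT0.le]; exact mono (by linarith)
    calc _ ≤ C * (8 * (T ^ (6 * c)) ^ 2) * ((L * y / 4 * T) ^ (1 / 4 : ℝ))⁻¹ *
          (4 * L * T ^ (-(18 * c))) * y := by
          gcongr
          exact a1.trans (by gcongr)
      _ = 32 * C * (T ^ (6 * c)) ^ 2 * T ^ (-(18 * c)) *
          (L * y * ((L * y / 4 * T) ^ (1 / 4 : ℝ))⁻¹) := by ring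
      _ ≤ 32 * C * (T ^ (6 * c)) ^ 2 * T ^ (-(18 * c)) * (2 * T ^ (6 * c)) := by gcongr
      _ = 64 * C * ((T ^ (6 * c)) ^ 3 * T ^ (-(18 * c))) := by ring
      _ = 64 * C := by
          rw [pw, ad, show 6 * c * (3 : ℕ) + -(18 * c) = 0 by push_cast; ring, Real.rpow_zero,
            mul_one]
      _ ≤ _ := by linarith
  · have a0 : T ^ (1 / 3 + 8 * c) ≤ L * y := by
      refine le_of_pow_le_pow_left₀ (n := 3) (by norm_num) hK.le (le_trans (le_of_eq ?_) h2)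
      rw [pw, pw, ad1]; congr 1; push_cast; ring
    have a1 := triv (G := T ^ (1 / 3 - 3 * c)) (k0 := k0) (b := (T ^ 2)⁻¹) hc hτ0 hy
      (by positivity) hs (Or.inl hk2) fun k k1 k2 hk => by
        have b1 : rr k τ ≤ 1 := (rr_le (by linarith) hT0 hτ.1).trans (inv_le_one_of_one_le₀
          (Real.one_le_rpow (one_le_mul_of_one_le_of_one_le k1 (by linarith)) (by norm_num)))
        refine (mul_le_of_le_one_right (EE_pos _ _ _).le b1).trans
          ((EE_le_exp _ (by linarith) hT0 hτ (by linarith)).trans ?_)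
        have e1 := hT1 T ((le_max_right _ _).trans hT)
        have e2 : Real.log T ≤ Real.log (T + 2) := Real.log_le_log hT0 (by linarith)
        rw [← Real.exp_log (show 0 < T ^ 2 by positivity), ← Real.exp_neg, Real.log_pow]
        refine Real.exp_le_exp.2 (neg_le_neg ?_)
        rw [le_div_iff₀ (by positivity)]
        have e3 : T ^ (2 * c) * T = (T ^ (1 / 3 - 3 * c)) ^ 2 * T ^ (1 / 3 + 8 * c) := by
          rw [pw, ad1, ad]; congr 1; push_cast; ring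
        have e4 : (T ^ (1 / 3 - 3 * c)) ^ 2 * T ^ (1 / 3 + 8 * c) ≤
            (T ^ (1 / 3 - 3 * c)) ^ 2 * (4 * k) := by gcongr; linarith
        have e5 : 24 * Real.log T * T ≤ T ^ (2 * c) * T := by gcongr; linarith
        push_cast
        linarith
    have hy2 : (y : ℝ) ≤ 10 * T := le_trans (by exact_mod_cast hyk) hk2
    calc _ ≤ 65610 * (T ^ 2)⁻¹ * (10 * T) * (10 * T) := by gcongr
      _ = 6561000 := by field_simp; norm_num
      _ ≤ _ := by linarith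

lemma split (N G τ : ℝ) (k0 : ℕ) :
    ∑ k ∈ Finset.Icc 1 k0, mk N G k τ * e (ff k τ) = ∑ y ∈ Finset.Icc 1 k0, UU N G τ y 0 y k0 ∧
    ∑ k ∈ Finset.Icc 1 k0, mk N G k τ * e (ff k τ) = ∑ y ∈ Finset.Icc 1 k0, UU N G τ 0 1 y k0 := by
  have h := ZetCAux.regroup (fun h k => if h ≤ k0 then ZetCAux.tm N G τ h k else 0) k0 k0
    fun h k hh _ => if_neg (by omega)
  have h1 : ∑ k ∈ Finset.Icc 1 k0, mk N G k τ * e (ff k τ) = ∑ h ∈ Finset.Icc 1 k0,
      ∑ m ∈ Finset.Icc 1 k0, if h * m ≤ k0 then ZetCAux.tm N G τ h (h * m) else 0 := by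
    refine Eq.trans ?_ (h.symm.trans ?_)
    · refine Finset.sum_congr rfl fun k hk => ?_
      rw [ZetCAux.mk_eq]
      exact Finset.sum_congr rfl fun h hh => (if_pos
        ((Nat.divisor_le hh).trans (Finset.mem_Icc.1 hk).2)).symm
    · refine Finset.sum_congr rfl fun h hh => Finset.sum_congr rfl fun m _ => ?_
      rw [if_pos (Finset.mem_Icc.1 hh).2]
  constructor
  · rw [h1]
    simp only [UU, mul_zero, add_zero, mul_comm]
  · rw [h1, Finset.sum_comm]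
    simp only [UU, one_mul, zero_add]

end YSubAux

open YSubAux in
theorem sw (hw : WeylUS) (hc : CFS) (h2 : Z2S) (h1 : ZC1S) : SwS := by
  obtain ⟨C, c, T1, hC, hc0, hc1, hT1, h⟩ := all hw hc
  obtain ⟨C2, hC2, h2⟩ := h2
  obtain ⟨C1, hC1, h1⟩ := h1
  obtain ⟨T2, -, hT2⟩ := exists_log_pow_le (2 * C2 * (C2 + 2 * (C1 + 11 * C))) 2 hc0
  obtain ⟨T3, -, hT3⟩ := exists_log_pow_le 2 0 (show (0 : ℝ) < 1 / 4 by norm_num)
  refine ⟨c, max T1 (max T2 T3), hc0, hc1, fun T τ N hT hN hNT hτ => ?_⟩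
  simp only [max_le_iff] at hT
  have hT4 : 4 ≤ T := hT1.trans hT.1
  have hT0 : 0 < T := by linarith
  have hN0 : (0 : ℝ) < N := by exact_mod_cast hN
  have hτ' : τ ∈ Icc T (4 * T) := ⟨by linarith [hτ.1], by linarith [hτ.2]⟩
  have hτ0 : 0 < τ := by linarith [hτ.1]
  have hG : 2 ≤ T ^ (1 / 3 - 3 * c) := by
    have := hT3 T hT.2.2
    rw [pow_zero, mul_one] at this
    exact this.trans (Real.rpow_le_rpow_of_exponent_le (by linarith) (by linarith))
  obtain ⟨a1, -, a2⟩ := h2 N _ τ hN hG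
  replace a1 := a1 τ (by rw [sub_self, abs_zero]; linarith)
  have hk1 : 9 * T ≤ (⌈9 * T⌉₊ : ℕ) := Nat.le_ceil _
  have hk2 : ((⌈9 * T⌉₊ : ℕ) : ℝ) ≤ 10 * T := by
    have := Nat.ceil_lt_add_one (show 0 ≤ 9 * T by positivity)
    linarith
  generalize ⌈9 * T⌉₊ = k0 at hk1 hk2
  have a3 := h1 T (T ^ (1 / 3 - 3 * c)) τ N k0 (by linarith) hN hNT hτ' hk1
  have hl := one_le_log_add_two (show 1 ≤ T by linarith)
  have a4 : ‖∑ k ∈ Finset.Icc 1 k0, mk N (T ^ (1 / 3 - 3 * c)) k τ * e (ff k τ)‖ ≤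
      ∑ y ∈ Finset.Icc 1 k0, C * (1 / (y : ℝ)) := by
    rcases le_total ((N : ℝ) ^ 2) τ with hh | hh
    · rw [(split _ _ _ _).1]
      refine (norm_sum_le _ _).trans (Finset.sum_le_sum fun y hy => ?_)
      rw [Finset.mem_Icc] at hy
      refine h N τ T (y * τ / N ^ 2) y 0 y k0 hN0 hT.1 hτ' hy.1 hy.2 ?_ (by omega)
        (fun x hx => ?_) hk1 hk2
      · rw [le_div_iff₀ (by positivity)]; gcongr
      · obtain ⟨b1, -, b3, b4⟩ := WW_supp hN0 hτ0 hx
        simp only [Nat.cast_zero, zero_mul, add_zero] at b1 b3 b4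
        rw [div_div, div_lt_iff₀ (by positivity), ← mul_div_assoc, lt_div_iff₀ (by positivity)]
        exact ⟨lt_of_mul_lt_mul_left (a := (y : ℝ)) (by linarith) b1.le,
          lt_of_mul_lt_mul_left (a := (y : ℝ)) (by linarith) b1.le⟩
    · rw [(split _ _ _ _).2]
      refine (norm_sum_le _ _).trans (Finset.sum_le_sum fun y hy => ?_)
      rw [Finset.mem_Icc] at hy
      refine h N τ T (y * N ^ 2 / τ) 0 1 y k0 hN0 hT.1 hτ' hy.1 hy.2 ?_ (by omega)
        (fun x hx => ?_) hk1 hk2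
      · rw [le_div_iff₀ (by positivity)]; gcongr
      · obtain ⟨b1, -, b3, b4⟩ := WW_supp hN0 hτ0 hx
        simp only [Nat.cast_zero, Nat.cast_one, one_mul, zero_add] at b1 b3 b4
        rw [div_div, div_lt_iff₀ (by positivity), ← mul_div_assoc, lt_div_iff₀ (by positivity)]
        exact ⟨lt_of_mul_lt_mul_left (a := x) (by linarith) b1.le,
          lt_of_mul_lt_mul_left (a := x) (by linarith) b1.le⟩
  rw [← Finset.mul_sum] at a4
  have a5 : 1 + Real.log k0 ≤ 11 * Real.log (T + 2) ^ 2 := by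
    have b1 : Real.log k0 ≤ Real.log (10 * (T + 2)) := Real.log_le_log (by linarith) (by linarith)
    rw [Real.log_mul (by norm_num) (by positivity)] at b1
    have b2 := Real.log_le_sub_one_of_pos (show (0 : ℝ) < 10 by norm_num)
    nlinarith
  have a6 := mul_le_mul_of_nonneg_left ((sum_inv_le k0).trans a5) hC.le
  have a7 := norm_le_insert' (OD N (T ^ (1 / 3 - 3 * c)) τ)
    (∑ k ∈ Finset.Icc 1 k0, mk N (T ^ (1 / 3 - 3 * c)) k τ * e (ff k τ))
  have a8 : C2 ≤ C2 * Real.log (T + 2) ^ 2 := le_mul_of_one_le_right hC2.le (one_le_pow₀ hl)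
  have a9 : C2 + 2 * ‖OD N (T ^ (1 / 3 - 3 * c)) τ‖ ≤
      (C2 + 2 * (C1 + 11 * C)) * Real.log (T + 2) ^ 2 := by linarith
  refine lt_of_pow_lt_pow_left₀ 2 (by positivity) ?_
  have a10 := hT2 T hT.2.1
  calc _ ≤ C2 * (T ^ (1 / 3 - 3 * c) * ((C2 + 2 * (C1 + 11 * C)) * Real.log (T + 2) ^ 2)) :=
        a1.trans (mul_le_mul_of_nonneg_left (a2.trans (by gcongr)) hC2.le)
    _ = T ^ (1 / 3 - 3 * c) *
        (2 * C2 * (C2 + 2 * (C1 + 11 * C)) * Real.log (T + 2) ^ 2) / 2 := by ring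
    _ ≤ T ^ (1 / 3 - 3 * c) * T ^ c / 2 := by gcongr
    _ < T ^ (1 / 3 - 3 * c) * T ^ c := half_lt_self (by positivity)
    _ = _ := by
        rw [← Real.rpow_add hT0, ← Real.rpow_mul_natCast hT0.le]; congr 1; push_cast; ring

end Pool.Agent.Lib.MP_80d0cf_nt.Up
end

-- part Pool.Agent.Lib.MP_80d0cf_nt.Up.YAll
section

/-! Assembly of the bound for the twelfth moment. -/

namespace Pool.Agent.Lib.MP_80d0cf_nt.Up

theorem weylUS : WeylUS := weylU (weyl psS sd)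

theorem swS : SwS := sw weylUS cf z2 (zc1 bpS)

theorem twelfth : ∃ δ C : ℝ, 0 < δ ∧ ∀ T : ℝ, 1 ≤ T →
    ∫ t in (0 : ℝ)..T, ‖riemannZeta (1 / 2 + t * Complex.I)‖ ^ (12 : ℝ) ≤ C * T ^ (2 - δ) := by
  obtain ⟨d, hd, hd1, h⟩ := lev12 redS (mv fd1) hmpS (xfam grid lv2S)
    (yfam grid (dhm2 (hmaxG weylUS cf) f1S hm)) swS
  obtain ⟨C, hC⟩ := finGen (z1 psS fd1) (by norm_num) le_rfl (by linarith) h (half_pos hd)
  exact ⟨d / 2, C, half_pos hd, fun T hT => by
    rw [show 2 - d / 2 = 2 - d + d / 2 by ring]; exact hC T hT⟩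

end Pool.Agent.Lib.MP_80d0cf_nt.Up
end
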